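import Mathlib

set_option autoImplicit false

open Set Metric Topology MeasureTheory Filter
open scoped Pointwise

namespace Pool.Agent.W_MP_be6f00_gt

section Band

variable {E : Type*} [NormedAddCommGroup E] [InnerProductSpace ℝ E] [FiniteDimensional ℝ E]
  [MeasurableSpace E] [BorelSpace E]

/-- The equator orthogonal to `e ≠ 0` has measure zero in the unit sphere. -/
theorem sphere_equator_null {e : E} (he : e ≠ 0) :
    (volume : Measure E).toSphere {ξ : sphere (0 : E) 1 | inner ℝ e (ξ : E) = 0} = 0 := by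
  have hm : MeasurableSet {ξ : sphere (0 : E) 1 | inner ℝ e (ξ : E) = 0} := by
    refine (isClosed_eq ?_ continuous_const).measurableSet
    fun_prop
  rw [Measure.toSphere_apply' _ hm]
  have hsub : Ioo (0 : ℝ) 1 • ((Subtype.val : sphere (0 : E) 1 → E) '' {ξ : sphere (0 : E) 1 | inner ℝ e (ξ : E) = 0}) ⊆
      (((ℝ ∙ e)ᗮ : Submodule ℝ E) : Set E) := by
    rintro x ⟨r, -, y, ⟨ξ, hξ, rfl⟩, rfl⟩
    simp only [SetLike.mem_coe]
    rw [Submodule.mem_orthogonal_singleton_iff_inner_right]
    simp only [mem_ofPred_eq] at hξ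
    simp [inner_smul_right, hξ]
  have hnull : (volume : Measure E) ((ℝ ∙ e)ᗮ : Submodule ℝ E) = 0 := by
    refine Measure.addHaar_submodule _ _ ?_
    intro h
    have h1 : e ∈ ((ℝ ∙ e)ᗮ : Submodule ℝ E) := by rw [h]; trivial
    rw [Submodule.mem_orthogonal_singleton_iff_inner_right] at h1
    exact he (inner_self_eq_zero.1 h1)
  rw [measure_mono_null hsub hnull, mul_zero]

/-- Thin bands around the equator have small measure. -/
theorem exists_thin_band {e : E} (he : e ≠ 0) {ε : ENNReal} (hε : 0 < ε) :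
    ∃ δ : ℝ, 0 < δ ∧
      (volume : Measure E).toSphere {ξ : sphere (0 : E) 1 | |inner ℝ e (ξ : E)| ≤ δ} < ε := by
  have hanti : Antitone fun n : ℕ => {ξ : sphere (0 : E) 1 | |inner ℝ e (ξ : E)| ≤ 1 / ((n : ℝ) + 1)} := by
    intro m n hmn ξ hξ
    simp only [mem_ofPred_eq] at *
    refine hξ.trans ?_
    exact one_div_le_one_div_of_le (by positivity) (by exact_mod_cast Nat.succ_le_succ hmn)
  have hmeas : ∀ n : ℕ, NullMeasurableSet
      {ξ : sphere (0 : E) 1 | |inner ℝ e (ξ : E)| ≤ 1 / ((n : ℝ) + 1)}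
      (volume : Measure E).toSphere := by
    intro n
    refine (isClosed_le ?_ continuous_const).measurableSet.nullMeasurableSet
    fun_prop
  have hlim := tendsto_measure_iInter_atTop (μ := (volume : Measure E).toSphere) hmeas hanti
    ⟨0, measure_ne_top _ _⟩
  have hinter : (⋂ n : ℕ, {ξ : sphere (0 : E) 1 | |inner ℝ e (ξ : E)| ≤ 1 / ((n : ℝ) + 1)})
      = {ξ : sphere (0 : E) 1 | inner ℝ e (ξ : E) = 0} := by
    ext ξ
    simp only [mem_iInter, mem_ofPred_eq]
    constructor
    · intro h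
      by_contra hne
      have hpos : 0 < |inner ℝ e (ξ : E)| := abs_pos.2 hne
      obtain ⟨n, hn⟩ := exists_nat_one_div_lt hpos
      exact absurd (h n) (not_le.2 hn)
    · intro h n
      rw [h, abs_zero]; positivity
  rw [hinter, sphere_equator_null he] at hlim
  obtain ⟨n, hn⟩ := ((tendsto_order.1 hlim).2 ε hε).exists
  exact ⟨1 / ((n : ℝ) + 1), by positivity, hn⟩

/-- The linear stretching by the factor `l` in the direction of the unit vector `e`. -/
noncomputable def stretch (e : E) (l : ℝ) (x : E) : E := x + ((l - 1) * inner ℝ e x) • e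

theorem inner_stretch (e ξ x : E) (l : ℝ) :
    inner ℝ ξ (stretch e l x) = inner ℝ ξ x + (l - 1) * inner ℝ e x * inner ℝ ξ e := by
  unfold stretch
  rw [inner_add_right, inner_smul_right]

/-- For a large stretching factor, the height order of finitely many points in every direction
outside a thin band is the order in direction `e` or its reverse. -/
theorem exists_stretch_order {e : E} {V : Set E} (hV : V.Finite)
    (hinj : ∀ v ∈ V, ∀ w ∈ V, inner ℝ e v = inner ℝ e w → v = w) {δ : ℝ} (hδ : 0 < δ) :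
    ∃ l₀ : ℝ, 1 < l₀ ∧ ∀ l ≥ l₀, ∀ ξ : E, ‖ξ‖ = 1 →
      (δ < inner ℝ ξ e → ∀ v ∈ V, ∀ w ∈ V,
        (inner ℝ ξ (stretch e l v) < inner ℝ ξ (stretch e l w) ↔ inner ℝ e v < inner ℝ e w)) ∧
      (inner ℝ ξ e < -δ → ∀ v ∈ V, ∀ w ∈ V,
        (inner ℝ ξ (stretch e l v) < inner ℝ ξ (stretch e l w) ↔ inner ℝ e w < inner ℝ e v)) := by
  classical
  -- a uniform constant
  have hex : ∃ M : ℝ, 0 < M ∧ ∀ v ∈ V, ∀ w ∈ V, v ≠ w → ‖v - w‖ < M * |inner ℝ e (v - w)| * δ := by
    have hfin : (V ×ˢ V).Finite := hV.prod hV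
    have h1 : ∀ p ∈ V ×ˢ V, ∃ m : ℝ, 0 < m ∧ ∀ m' ≥ m, p.1 ≠ p.2 →
        ‖p.1 - p.2‖ < m' * |inner ℝ e (p.1 - p.2)| * δ := by
      rintro ⟨v, w⟩ ⟨hv, hw⟩
      by_cases hvw : v = w
      · exact ⟨1, one_pos, fun m' _ h => absurd hvw h⟩
      · have hne : inner ℝ e (v - w) ≠ 0 := by
          intro h
          rw [inner_sub_right, sub_eq_zero] at h
          exact hvw (hinj v hv w hw h)
        have hpos : 0 < |inner ℝ e (v - w)| * δ := mul_pos (abs_pos.2 hne) hδ
        refine ⟨(‖v - w‖ + 1) / (|inner ℝ e (v - w)| * δ), by positivity, fun m' hm' _ => ?_⟩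
        simp only
        have := (div_le_iff₀ hpos).1 hm'
        nlinarith
    choose! m hm0 hm using h1
    obtain ⟨M, hM⟩ := (hfin.image m).bddAbove
    refine ⟨max M 1, lt_max_of_lt_right one_pos, fun v hv w hw hvw => ?_⟩
    exact hm (v, w) ⟨hv, hw⟩ _ ((hM ⟨(v, w), ⟨hv, hw⟩, rfl⟩).trans (le_max_left _ _)) hvw
  obtain ⟨M, hM0, hM⟩ := hex
  refine ⟨M + 1, by linarith, fun l hl ξ hξ => ?_⟩
  have hdiff : ∀ v w : E, inner ℝ ξ (stretch e l w) - inner ℝ ξ (stretch e l v)
      = inner ℝ ξ (w - v) + (l - 1) * inner ℝ e (w - v) * inner ℝ ξ e := by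
    intro v w
    rw [inner_stretch, inner_stretch, inner_sub_right, inner_sub_right]; ring
  have hcs : ∀ v w : E, |inner ℝ ξ (w - v)| ≤ ‖w - v‖ := by
    intro v w
    have := abs_real_inner_le_norm ξ (w - v)
    rwa [hξ, one_mul] at this
  have hl1 : M ≤ l - 1 := by linarith
  have hbig : ∀ v ∈ V, ∀ w ∈ V, v ≠ w → ∀ s : ℝ, δ < s →
      ‖w - v‖ < (l - 1) * |inner ℝ e (w - v)| * s := by
    intro v hv w hw hvw s hs
    have h1 := hM w hw v hv (Ne.symm hvw)
    have h2 : 0 ≤ |inner ℝ e (w - v)| := abs_nonneg _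
    calc ‖w - v‖ < M * |inner ℝ e (w - v)| * δ := h1
      _ ≤ (l - 1) * |inner ℝ e (w - v)| * s := by
        apply mul_le_mul (mul_le_mul_of_nonneg_right hl1 h2) hs.le hδ.le
        exact mul_nonneg (by linarith) h2
  constructor
  · intro hs v hv w hw
    by_cases hvw : v = w
    · subst hvw; simp
    have hb := hbig v hv w hw hvw _ hs
    have hc := abs_le.1 (hcs v w)
    have hd := hdiff v w
    have he : inner ℝ e (w - v) = inner ℝ e w - inner ℝ e v := inner_sub_right _ _ _
    constructor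
    · intro h
      by_contra hcon
      have hle : inner ℝ e (w - v) ≤ 0 := by rw [he]; linarith
      rw [abs_of_nonpos hle] at hb
      nlinarith
    · intro h
      have hpos : 0 < inner ℝ e (w - v) := by rw [he]; linarith
      rw [abs_of_pos hpos] at hb
      nlinarith
  · intro hs v hv w hw
    by_cases hvw : v = w
    · subst hvw; simp
    have hs' : δ < - inner ℝ ξ e := by linarith
    have hb := hbig v hv w hw hvw _ hs'
    have hc := abs_le.1 (hcs v w)
    have hd := hdiff v w
    have he : inner ℝ e (w - v) = inner ℝ e w - inner ℝ e v := inner_sub_right _ _ _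
    constructor
    · intro h
      by_contra hcon
      have hle : 0 ≤ inner ℝ e (w - v) := by rw [he]; linarith
      rw [abs_of_nonneg hle] at hb
      nlinarith
    · intro h
      have hpos : inner ℝ e (w - v) < 0 := by rw [he]; linarith
      rw [abs_of_neg hpos] at hb
      nlinarith

end Band

end Pool.Agent.W_MP_be6f00_gt
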