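import Pool.Agent.W_MP_be6f00_gt.Defs

set_option autoImplicit false

/-! Common definitions for the modules of MP_be6f00_gt. -/

open scoped ENNReal Topology

namespace Pool.Agent.PolyKnots

/-! ## Polyhedra of families of simplices with vertices in a vector space -/

/-- The union of the convex hulls of the simplices of `S`, with vertices placed by `pos`. -/
def body {V E : Type} [AddCommGroup E] [Module ℝ E] (pos : V → E) (S : Set (Finset V)) : Set E :=
  ⋃ s ∈ S, convexHull ℝ (pos '' (s : Set V))

/-- Any two simplices satisfying `P` are separated: there is an affine functional `≥ 0` on `σ`,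
`≤ 0` on `τ`, and positive at the vertices of `σ` that are not vertices of `τ`. -/
def Sep {V E : Type} [AddCommGroup E] [Module ℝ E] (pos : V → E) (P : Finset V → Prop) : Prop :=
  ∀ σ τ, P σ → P τ → ∃ l : E →ᵃ[ℝ] ℝ, (∀ v ∈ σ, 0 ≤ l (pos v)) ∧ (∀ v ∈ τ, l (pos v) ≤ 0) ∧
    ∀ v ∈ σ, v ∉ τ → 0 < l (pos v)

/-- A global PL homeomorphism. -/
structure IsPLE {E F : Type} [AddCommGroup E] [Module ℝ E] [AddCommGroup F] [Module ℝ F]
    (e : E ≃ F) : Prop where
  pl : IsPLOn e Set.univ
  pl_symm : IsPLOn e.symm Set.univ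

/-- A global PL homeomorphism `e` of `E` that extends to all cones: for every apex `(w₀, 0)`
there is a PL homeomorphism of `E × ℝ` mapping, for every `u`, the ray from the apex through
`(u, 1)` to the ray through `(e u, 1)`. -/
structure ConePL {E : Type} [AddCommGroup E] [Module ℝ E] (e : E ≃ E) : Prop where
  pl : IsPLE e
  cone : ∀ w₀ : E, ∃ e' : (E × ℝ) ≃ (E × ℝ), IsPLE e' ∧
    ∀ (u : E) (s : ℝ), 0 ≤ s → e' (w₀ + s • (u - w₀), s) = (w₀ + s • (e u - w₀), s)

/-! ## Lattice simplices -/

/-- The lattice point `v` as a point of `ℝ^m`. -/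
def latPos {m : ℕ} (v : Fin m → ℤ) : Fin m → ℝ := fun i => (v i : ℝ)

/-- The simplices of the Freudenthal triangulation of `ℝ^m`: chains in a unit cube. -/
def IsChainSimplex {m : ℕ} (σ : Finset (Fin m → ℤ)) : Prop :=
  ∀ v ∈ σ, ∀ w ∈ σ, (∀ i, v i ≤ w i ∧ w i ≤ v i + 1) ∨ (∀ i, w i ≤ v i ∧ v i ≤ w i + 1)

/-! ## Flip sequences on lists of bit masks -/

/-- The bit mask of a list of vertex numbers. -/
def msk (l : List ℕ) : ℕ := l.foldr (fun i a => Nat.lor (Nat.shiftLeft 1 i) a) 0

/-- `a ⊆ b` for bit masks. -/
def subM (a b : ℕ) : Bool := Nat.beq (Nat.land a b) a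

/-- The set of vertices of a bit mask. -/
def vset (n m : ℕ) : Finset (Fin n) := Finset.univ.filter fun i => m.testBit i

/-- One flip: the facets `(I ∪ J) \ j`, `j ∈ J`, are replaced by the facets `(I ∪ J) \ i`,
`i ∈ I`; `none` if a condition fails. `act` are the facets near the flip, `fz` frozen facets near
the flip. -/
def stepFlip (act fz : List ℕ) (I J : List ℕ) : Option (List ℕ) :=
  let mI := msk I
  let mJ := msk J
  let E := J.map fun j => msk (I ++ J.erase j)
  let F := I.map fun i => msk (I.erase i ++ J)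
  let rest := act.filter fun t => !(E.any (Nat.beq t))
  if (I ++ J).Nodup && !I.isEmpty && !J.isEmpty &&
      (E.all fun e => act.any (Nat.beq e)) &&
      (rest.all fun t => !(subM mI t) && !(subM mJ t)) &&
      (fz.all fun t => !(subM mI t) && !(subM mJ t)) &&
      (I.all fun i => J.all fun j =>
        let m := msk (I.erase i ++ J.erase j)
        rest.any (subM m) || fz.any (subM m)) then
    some (F ++ rest)
  else none

/-- A block of flips; every flip has a vertex of `M` in `I` and one in `J`. -/
def blockFlip (M : ℕ) (fz : List ℕ) : List ℕ → List (List ℕ × List ℕ) → Option (List ℕ)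
  | act, [] => some act
  | act, (I, J) :: l =>
    if !(Nat.beq (Nat.land (msk I) M) 0) && !(Nat.beq (Nat.land (msk J) M) 0) then
      match stepFlip act fz I J with
      | none => none
      | some act' => blockFlip M fz act' l
    else none

/-- A sequence of blocks of flips of the facets `S`, with frozen facets `Fz`. In each block
`(M, flips)` only the facets meeting `M` are looked at. -/
def runFlip (Fz : List ℕ) : List ℕ → List (ℕ × List (List ℕ × List ℕ)) → Option (List ℕ)
  | S, [] => some S
  | S, (M, b) :: bs =>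
    match blockFlip M (Fz.filter fun t => !(Nat.beq (Nat.land t M) 0))
        (S.filter fun t => !(Nat.beq (Nat.land t M) 0)) b with
    | none => none
    | some act => runFlip Fz (act ++ S.filter fun t => Nat.beq (Nat.land t M) 0) bs

/-! ## Local systems as locally multiplicative pair functions -/

/-- `s` is multiplicative near `e`. -/
def LocMul {X G : Type} [TopologicalSpace X] [Group G] (s : X → X → G) (e : X) : Prop :=
  ∃ N ∈ 𝓝 e, ∀ a ∈ N, ∀ b ∈ N, ∀ c ∈ N, s a b * s b c = s a c

/-- Ordered transport from the cell `c` to the cell `c'` of the lattice `ℤ^4`, changing the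
coordinates in the order 0, 1, 2, 3; `e i c` is the transition from the cell `c` to `c + e_i`. -/
def stepTr {G : Type} [Group G] (e : Fin 4 → (Fin 4 → ℤ) → G) (k : Fin 4) (c : Fin 4 → ℤ)
    (x : ℤ) : G :=
  if x = c k + 1 then e k c
  else if x = c k - 1 then (e k (Function.update c k x))⁻¹
  else 1

/-- See `stepTr`. -/
def transport {G : Type} [Group G] (e : Fin 4 → (Fin 4 → ℤ) → G) (c c' : Fin 4 → ℤ) : G :=
  stepTr e 0 c (c' 0) *
  stepTr e 1 (Function.update c 0 (c' 0)) (c' 1) *
  stepTr e 2 (Function.update (Function.update c 0 (c' 0)) 1 (c' 1)) (c' 2) *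
  stepTr e 3 (Function.update (Function.update (Function.update c 0 (c' 0)) 1 (c' 1)) 2 (c' 2))
    (c' 3)

/-- The closed square dual to the directions `i, j` at the cell `c`: the common 2-face of the
cells `c, c + e_i, c + e_j, c + e_i + e_j`. -/
def dualSq (c : Fin 4 → ℤ) (i j : Fin 4) : Set (Fin 4 → ℝ) :=
  {y | y i = c i + 1 ∧ y j = c j + 1 ∧ ∀ k, k ≠ i → k ≠ j → (c k : ℝ) ≤ y k ∧ y k ≤ c k + 1}

/-- Flatness around the square dual to `i, j` at `c`. -/
def FlatAt {G : Type} [Group G] (e : Fin 4 → (Fin 4 → ℤ) → G) (c : Fin 4 → ℤ) (i j : Fin 4) :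
    Prop :=
  e i c * e j (Function.update c i (c i + 1)) = e j c * e i (Function.update c j (c j + 1))

/-! ## The book complex -/

/-- Vertices of the book complex: two copies `(v, true)`, `(v, false)` of the vertices with
`t v ≠ 0`, one copy `(v, true)` of the vertices with `t v = 0`, and four cone points. -/
abbrev BookV {V : Type} (t : V → ℤ) : Type := {x : V × Bool // t x.1 = 0 → x.2 = true} ⊕ (Bool × Bool)

/-- The copy of `v` in the quadrant with signs `sx, sy` (`true` means positive): vertices with
`t v > 0` lie on the half-axis `x` with sign `sx`, vertices with `t v < 0` on the half-axis `y`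
with sign `sy`. -/
def bookLift {V : Type} (t : V → ℤ) (sx sy : Bool) (v : V) : BookV t :=
  Sum.inl ⟨(v, if 0 < t v then sx else if t v < 0 then sy else true), by
    intro h
    have h' : t v = 0 := h
    simp [h']⟩

/-- The four cones over the four copies of `K`. -/
def book {V : Type} [Fintype V] [DecidableEq V] (K : SComplex V) (t : V → ℤ) :
    SComplex (BookV t) where
  faces := {s | s.Nonempty ∧ ∃ sx sy : Bool, ∃ τ : Finset V, (τ = ∅ ∨ τ ∈ K.faces) ∧
    s ⊆ insert (Sum.inr (sx, sy)) (τ.image (bookLift t sx sy))}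
  nonempty := fun s hs => hs.1
  down_closed := by
    rintro s ⟨_, sx, sy, τ, hτ, hs⟩ t' ht hne
    exact ⟨hne, sx, sy, τ, hτ, ht.trans hs⟩
  vertex := by
    rintro (⟨⟨v, b⟩, hv⟩ | ⟨sx, sy⟩)
    · refine ⟨Finset.singleton_nonempty _, b, b, {v}, Or.inr (K.vertex v), ?_⟩
      intro y hy
      rw [Finset.mem_singleton] at hy
      subst hy
      refine Finset.mem_insert_of_mem (Finset.mem_image.2 ⟨v, Finset.mem_singleton_self v, ?_⟩)
      unfold bookLift
      congr 1
      refine Subtype.ext (Prod.ext rfl ?_)
      show (if 0 < t v then b else if t v < 0 then b else true) = b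
      rcases lt_trichotomy (t v) 0 with h | h | h
      · rw [if_neg (by omega), if_pos h]
      · rw [if_neg (by omega), if_neg (by omega)]
        exact (hv h).symm
      · rw [if_pos h]
    · exact ⟨Finset.singleton_nonempty _, sx, sy, ∅, Or.inl rfl, by
        intro y hy
        rw [Finset.mem_singleton] at hy
        subst hy
        exact Finset.mem_insert_self _ _⟩

/-- Every simplex lies in `t ≥ 0` or in `t ≤ 0`. -/
def OneSided {V : Type} (S : Set (Finset V)) (t : V → ℤ) : Prop :=
  ∀ s ∈ S, (∀ v ∈ s, 0 ≤ t v) ∨ (∀ v ∈ s, t v ≤ 0)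

/-- The linear extension of `t` to barycentric coordinates. -/
def tLin {V : Type} [Fintype V] (t : V → ℤ) (x : V → ℝ) : ℝ := ∑ v, x v * t v

/-- The point `(1 - s) c + s u` of the cone in the quadrant `sx, sy`. -/
def bookPt {V : Type} [DecidableEq V] (t : V → ℤ) (sx sy : Bool) (s : ℝ) (u : V → ℝ) :
    BookV t → ℝ
  | Sum.inr q => if q = (sx, sy) then 1 - s else 0
  | Sum.inl z => if Sum.inl z = bookLift t sx sy z.1.1 then s * u z.1.1 else 0

/-- The sign of a quadrant. -/
def sg (b : Bool) : ℝ := if b then 1 else -1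

/-! ## Lower links -/

/-- The lower link of `v` in the family `S` for the height `h`. -/
def lowerLink {V : Type} [DecidableEq V] (S : Set (Finset V)) (h : V → ℝ) (v : V) :
    Set (Finset V) :=
  {s | s.Nonempty ∧ v ∉ s ∧ insert v s ∈ S ∧ ∀ w ∈ s, h w < h v}

/-- The link of `v` in the family `S`. -/
def linkF {V : Type} [DecidableEq V] (S : Set (Finset V)) (v : V) : Set (Finset V) :=
  {s | s.Nonempty ∧ v ∉ s ∧ insert v s ∈ S}

/-- The simplices of `S` all of whose vertices satisfy `p`. -/
def fullSub {V : Type} (S : Set (Finset V)) (p : V → Prop) : Set (Finset V) :=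
  {s | s ∈ S ∧ ∀ v ∈ s, p v}

/-- A family of simplices closed under nonempty subsets. -/
def DownClosed {V : Type} (S : Set (Finset V)) : Prop :=
  (∀ s ∈ S, s.Nonempty) ∧ ∀ s ∈ S, ∀ t ⊆ s, t.Nonempty → t ∈ S

/-- The linear extension of a height to barycentric coordinates. -/
def hLin {V : Type} [Fintype V] (h : V → ℝ) (x : V → ℝ) : ℝ := ∑ v, x v * h v

end Pool.Agent.PolyKnots
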