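import Pool.Agent.W_MP_be6f00_gt.Basic

set_option autoImplicit false

/-! # BE08: the book complex: cover, injectivity and existence of maps -/

open scoped Topology
open Set

namespace Pool.Agent.PolyKnots

namespace BE08

variable {V : Type}

theorem bookLift_inj (t : V → ℤ) (sx sy : Bool) : Function.Injective (bookLift t sx sy) := by
  intro v w h
  have h1 := Sum.inl.inj h
  exact congrArg (fun z : {x : V × Bool // t x.1 = 0 → x.2 = true} => z.1.1) h1

theorem bookLift_eq_inl (t : V → ℤ) (sx sy : Bool) (v : V)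
    (z : {x : V × Bool // t x.1 = 0 → x.2 = true}) (h : Sum.inl z = bookLift t sx sy v) :
    z.1.1 = v := by
  have h1 := Sum.inl.inj h
  rw [h1]

theorem bookLift_ne_inr (t : V → ℤ) (sx sy : Bool) (v : V) (q : Bool × Bool) :
    Sum.inr q ≠ bookLift t sx sy v := by
  intro h
  unfold bookLift at h
  exact Sum.inr_ne_inl h

theorem bookLift_congr_pos (t : V → ℤ) (sx sy sx' sy' : Bool) (v : V) (hv : 0 < t v)
    (h : sx = sx') : bookLift t sx sy v = bookLift t sx' sy' v := by
  unfold bookLift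
  congr 1
  refine Subtype.ext (Prod.ext rfl ?_)
  simp [hv, h]

theorem bookLift_congr_neg (t : V → ℤ) (sx sy sx' sy' : Bool) (v : V) (hv : t v < 0)
    (h : sy = sy') : bookLift t sx sy v = bookLift t sx' sy' v := by
  unfold bookLift
  congr 1
  refine Subtype.ext (Prod.ext rfl ?_)
  have : ¬ (0 < t v) := by omega
  simp [hv, h, this]

theorem bookLift_congr_zero (t : V → ℤ) (sx sy sx' sy' : Bool) (v : V) (hv : t v = 0) :
    bookLift t sx sy v = bookLift t sx' sy' v := by
  unfold bookLift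
  congr 1
  refine Subtype.ext (Prod.ext rfl ?_)
  simp [hv]

section pts
variable [DecidableEq V]

theorem bookPt_lift (t : V → ℤ) (sx sy : Bool) (s : ℝ) (u : V → ℝ) (v : V) :
    bookPt t sx sy s u (bookLift t sx sy v) = s * u v := by
  exact if_pos rfl

theorem bookPt_inr (t : V → ℤ) (sx sy : Bool) (s : ℝ) (u : V → ℝ) (q : Bool × Bool) :
    bookPt t sx sy s u (Sum.inr q) = if q = (sx, sy) then 1 - s else 0 := rfl

theorem bookPt_inl (t : V → ℤ) (sx sy : Bool) (s : ℝ) (u : V → ℝ)
    (z : {x : V × Bool // t x.1 = 0 → x.2 = true}) :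
    bookPt t sx sy s u (Sum.inl z) =
      if Sum.inl z = bookLift t sx sy z.1.1 then s * u z.1.1 else 0 := rfl

theorem bookPt_off (t : V → ℤ) (sx sy : Bool) (s : ℝ) (u : V → ℝ) (z : BookV t)
    (h1 : z ≠ Sum.inr (sx, sy)) (h2 : ∀ v, z ≠ bookLift t sx sy v) :
    bookPt t sx sy s u z = 0 := by
  rcases z with z | q
  · rw [bookPt_inl, if_neg (h2 _)]
  · rw [bookPt_inr, if_neg]
    intro h
    exact h1 (by rw [h])

variable [Fintype V]

theorem sum_supp {M : Type} [AddCommMonoid M] (t : V → ℤ) (sx sy : Bool) (x : BookV t → M)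
    (hx : ∀ z, z ≠ Sum.inr (sx, sy) → (∀ v, z ≠ bookLift t sx sy v) → x z = 0) :
    ∑ z, x z = x (Sum.inr (sx, sy)) + ∑ v, x (bookLift t sx sy v) := by
  have h1 : ∑ z, x z = ∑ z ∈ insert (Sum.inr (sx, sy)) (Finset.univ.image (bookLift t sx sy)),
      x z := by
    symm
    apply Finset.sum_subset (Finset.subset_univ _)
    intro z _ hz
    rw [Finset.mem_insert, Finset.mem_image, not_or, not_exists] at hz
    exact hx z hz.1 fun v hv => hz.2 v ⟨Finset.mem_univ _, hv.symm⟩
  rw [h1, Finset.sum_insert, Finset.sum_image]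
  · intro v _ w _ h
    exact bookLift_inj t sx sy h
  · intro h
    rw [Finset.mem_image] at h
    obtain ⟨v, _, hv⟩ := h
    exact bookLift_ne_inr t sx sy v _ hv.symm

theorem sum_bookPt (t : V → ℤ) (sx sy : Bool) (s : ℝ) (u : V → ℝ) :
    ∑ z, bookPt t sx sy s u z = (1 - s) + s * ∑ v, u v := by
  rw [sum_supp t sx sy _ (bookPt_off t sx sy s u)]
  simp only [bookPt_lift, bookPt_inr, if_true, Finset.mul_sum]

omit [Fintype V] in
theorem bookPt_nonneg (t : V → ℤ) (sx sy : Bool) (s : ℝ) (hs : s ∈ Icc (0 : ℝ) 1) (u : V → ℝ)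
    (hu : ∀ v, 0 ≤ u v) (z : BookV t) : 0 ≤ bookPt t sx sy s u z := by
  rcases z with z | q
  · rw [bookPt_inl]
    split_ifs
    · exact mul_nonneg hs.1 (hu _)
    · exact le_rfl
  · rw [bookPt_inr]
    split_ifs
    · linarith [hs.2]
    · exact le_rfl

theorem bookPt_mem (K : SComplex V) (t : V → ℤ) (sx sy : Bool) (s : ℝ) (hs : s ∈ Icc (0 : ℝ) 1)
    (u : V → ℝ) (hu : u ∈ K.space) : bookPt t sx sy s u ∈ (book K t).space := by
  obtain ⟨h1, h2, τ, hτ, h3⟩ := hu
  refine ⟨bookPt_nonneg t sx sy s hs u h1, ?_, insert (Sum.inr (sx, sy)) (τ.image (bookLift t sx sy)),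
    ⟨Finset.insert_nonempty _ _, sx, sy, τ, Or.inr hτ, Finset.Subset.refl _⟩, ?_⟩
  · rw [sum_bookPt, h2]; ring
  · intro z hz
    rw [Finset.mem_insert, Finset.mem_image, not_or, not_exists] at hz
    by_cases h : ∃ v, z = bookLift t sx sy v
    · obtain ⟨v, rfl⟩ := h
      rw [bookPt_lift, h3 v, mul_zero]
      exact fun hv => hz.2 v ⟨hv, rfl⟩
    · exact bookPt_off t sx sy s u z hz.1 fun v hv => h ⟨v, hv⟩

end pts

end BE08

section BE08
variable {V W : Type} [Fintype V] [DecidableEq V] [NormedAddCommGroup W] [NormedSpace ℝ W]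

open BE08

theorem book_cover (K : SComplex V) (t : V → ℤ) (hne : K.space.Nonempty) (x : BookV t → ℝ) :
    x ∈ (book K t).space ↔ ∃ sx sy : Bool, ∃ s ∈ Icc (0 : ℝ) 1, ∃ u ∈ K.space,
      x = bookPt t sx sy s u := by
  constructor
  · rintro ⟨h0, h1, σ, ⟨_, sx, sy, τ, hτ, hσ⟩, h2⟩
    refine ⟨sx, sy, 1 - x (Sum.inr (sx, sy)), ?_⟩
    have hoff : ∀ z, z ≠ Sum.inr (sx, sy) → (∀ v, z ≠ bookLift t sx sy v) → x z = 0 := by
      intro z hz1 hz2
      apply h2
      intro hz
      have := hσ hz
      rw [Finset.mem_insert, Finset.mem_image] at this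
      rcases this with h | ⟨v, _, h⟩
      · exact hz1 h
      · exact hz2 v h.symm
    have hsum := sum_supp t sx sy x hoff
    rw [h1] at hsum
    have hs : 1 - x (Sum.inr (sx, sy)) = ∑ v, x (bookLift t sx sy v) := by linarith
    have hs0 : 0 ≤ 1 - x (Sum.inr (sx, sy)) := by
      rw [hs]; exact Finset.sum_nonneg fun v _ => h0 _
    refine ⟨⟨hs0, by linarith [h0 (Sum.inr (sx, sy))]⟩, ?_⟩
    rcases eq_or_lt_of_le hs0 with hs' | hs'
    · obtain ⟨u, hu⟩ := hne
      refine ⟨u, hu, ?_⟩
      have hz0 : ∀ v, x (bookLift t sx sy v) = 0 := by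
        intro v
        have h3 : ∑ v, x (bookLift t sx sy v) = 0 := by rw [← hs, ← hs']
        exact (Finset.sum_eq_zero_iff_of_nonneg fun v _ => h0 _).1 h3 v (Finset.mem_univ _)
      funext z
      by_cases hz : z = Sum.inr (sx, sy)
      · rw [hz, bookPt_inr, if_pos rfl]; ring
      · by_cases hz' : ∃ v, z = bookLift t sx sy v
        · obtain ⟨v, rfl⟩ := hz'
          rw [bookPt_lift, ← hs', zero_mul, hz0]
        · have hz'' : ∀ v, z ≠ bookLift t sx sy v := fun v hv => hz' ⟨v, hv⟩
          rw [bookPt_off t sx sy _ u z hz hz'', hoff z hz hz'']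
    · refine ⟨fun v => x (bookLift t sx sy v) / (1 - x (Sum.inr (sx, sy))), ⟨?_, ?_, ?_⟩, ?_⟩
      · intro v
        exact div_nonneg (h0 _) hs0
      · rw [← Finset.sum_div, ← hs, div_self hs'.ne']
      · have hτ' : τ ∈ K.faces := by
          rcases hτ with h | h
          · exfalso
            have : ∑ v, x (bookLift t sx sy v) = 0 := by
              apply Finset.sum_eq_zero
              intro v _
              apply h2
              intro hv
              have := hσ hv
              rw [h, Finset.image_empty, Finset.mem_insert] at this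
              rcases this with h' | h'
              · exact bookLift_ne_inr t sx sy v _ h'.symm
              · exact absurd h' (Finset.notMem_empty _)
            rw [← hs] at this
            exact hs'.ne' this
          · exact h
        refine ⟨τ, hτ', ?_⟩
        intro v hv
        have : x (bookLift t sx sy v) = 0 := by
          apply h2
          intro hv'
          have := hσ hv'
          rw [Finset.mem_insert, Finset.mem_image] at this
          rcases this with h' | ⟨w, hw, h'⟩
          · exact bookLift_ne_inr t sx sy v _ h'.symm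
          · exact hv (bookLift_inj t sx sy h' ▸ hw)
        simp only [this, zero_div]
      · funext z
        by_cases hz : z = Sum.inr (sx, sy)
        · rw [hz, bookPt_inr, if_pos rfl]; ring
        · by_cases hz' : ∃ v, z = bookLift t sx sy v
          · obtain ⟨v, rfl⟩ := hz'
            rw [bookPt_lift, mul_div_cancel₀ _ hs'.ne']
          · have hz'' : ∀ v, z ≠ bookLift t sx sy v := fun v hv => hz' ⟨v, hv⟩
            rw [bookPt_off t sx sy _ _ z hz hz'', hoff z hz hz'']
  · rintro ⟨sx, sy, s, hs, u, hu, rfl⟩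
    exact bookPt_mem K t sx sy s hs u hu

/-- The piecewise formula for a map of the book complex into `ℝ × ℝ × W`. -/
def BookFormula (K : SComplex V) (t : V → ℤ) (gt : (V → ℝ) → ℝ) (gw : (V → ℝ) → W) (a : ℝ) (w₀ : W)
    (Φ : (BookV t → ℝ) → ℝ × ℝ × W) : Prop :=
  ∀ sx sy : Bool, ∀ s ∈ Icc (0 : ℝ) 1, ∀ u ∈ K.space, Φ (bookPt t sx sy s u) =
    (sg sx * ((1 - s) * a + s * max (gt u) 0), sg sy * ((1 - s) * a + s * max (-gt u) 0),
      (1 - s) • w₀ + s • gw u)


theorem BE08.sg_mul_inj {b b' : Bool} {r r' : ℝ} (hr : 0 ≤ r) (hr' : 0 ≤ r')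
    (h : sg b * r = sg b' * r') : r = r' := by
  unfold sg at h
  cases b <;> cases b' <;> simp at h <;> linarith

theorem BE08.sg_eq {b b' : Bool} {r : ℝ} (hr : 0 < r)
    (h : sg b * r = sg b' * r) : b = b' := by
  unfold sg at h
  cases b <;> cases b' <;> simp at h <;> first | rfl | linarith

omit [DecidableEq V] in
theorem BE08.tLin_pos (K : SComplex V) (t : V → ℤ) (hside : OneSided K.faces t) (u : V → ℝ)
    (hu : u ∈ K.space) (v : V) (hv : 0 < t v) (huv : u v ≠ 0) : 0 < tLin t u := by
  obtain ⟨h0, h1, τ, hτ, h2⟩ := hu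
  have hvτ : v ∈ τ := by
    by_contra h
    exact huv (h2 v h)
  have hpos : ∀ w, 0 ≤ u w * (t w : ℝ) := by
    intro w
    by_cases hw : w ∈ τ
    · rcases hside τ hτ with h | h
      · exact mul_nonneg (h0 w) (by exact_mod_cast h w hw)
      · have := h v hvτ
        omega
    · rw [h2 w hw, zero_mul]
  unfold tLin
  refine Finset.sum_pos' (fun w _ => hpos w) ⟨v, Finset.mem_univ _, ?_⟩
  exact mul_pos (lt_of_le_of_ne (h0 v) (Ne.symm huv)) (by exact_mod_cast hv)

omit [DecidableEq V] in
theorem BE08.tLin_neg (K : SComplex V) (t : V → ℤ) (hside : OneSided K.faces t) (u : V → ℝ)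
    (hu : u ∈ K.space) (v : V) (hv : t v < 0) (huv : u v ≠ 0) : tLin t u < 0 := by
  obtain ⟨h0, h1, τ, hτ, h2⟩ := hu
  have hvτ : v ∈ τ := by
    by_contra h
    exact huv (h2 v h)
  have hpos : ∀ w, 0 ≤ -(u w * (t w : ℝ)) := by
    intro w
    by_cases hw : w ∈ τ
    · rcases hside τ hτ with h | h
      · have := h v hvτ
        omega
      · have h3 : (t w : ℝ) ≤ 0 := by exact_mod_cast h w hw
        nlinarith [h0 w]
    · rw [h2 w hw, zero_mul, neg_zero]
  have : 0 < ∑ w, -(u w * (t w : ℝ)) := by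
    refine Finset.sum_pos' (fun w _ => hpos w) ⟨v, Finset.mem_univ _, ?_⟩
    have h3 : (t v : ℝ) < 0 := by exact_mod_cast hv
    have h4 : 0 < u v := lt_of_le_of_ne (h0 v) (Ne.symm huv)
    nlinarith
  unfold tLin
  rw [Finset.sum_neg_distrib] at this
  linarith

theorem book_injOn (K : SComplex V) (t : V → ℤ) (hside : OneSided K.faces t)
    (hne : K.space.Nonempty)
    (gt : (V → ℝ) → ℝ) (gw : (V → ℝ) → W)
    (hsign : ∀ u ∈ K.space, (0 < gt u ↔ 0 < tLin t u) ∧ (gt u < 0 ↔ tLin t u < 0))
    (hinj : InjOn (fun u => (gt u, gw u)) K.space) (a : ℝ) (ha : 0 < a) (w₀ : W)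
    (Φ : (BookV t → ℝ) → ℝ × ℝ × W) (hΦ : BookFormula K t gt gw a w₀ Φ) :
    InjOn Φ (book K t).space := by
  intro x hx x' hx' hxx
  rw [book_cover K t hne] at hx hx'
  obtain ⟨sx, sy, s, hs, u, hu, rfl⟩ := hx
  obtain ⟨sx', sy', s', hs', u', hu', rfl⟩ := hx'
  rw [hΦ sx sy s hs u hu, hΦ sx' sy' s' hs' u' hu', Prod.mk.injEq, Prod.mk.injEq] at hxx
  obtain ⟨e1, e2, e3⟩ := hxx
  have hs0 := hs.1
  have hs1 := hs.2
  have hs0' := hs'.1
  have hs1' := hs'.2
  have p1 : 0 ≤ (1 - s) * a + s * max (gt u) 0 :=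
    add_nonneg (mul_nonneg (by linarith) ha.le) (mul_nonneg hs0 (le_max_right _ _))
  have p2 : 0 ≤ (1 - s) * a + s * max (-gt u) 0 :=
    add_nonneg (mul_nonneg (by linarith) ha.le) (mul_nonneg hs0 (le_max_right _ _))
  have p1' : 0 ≤ (1 - s') * a + s' * max (gt u') 0 :=
    add_nonneg (mul_nonneg (by linarith) ha.le) (mul_nonneg hs0' (le_max_right _ _))
  have p2' : 0 ≤ (1 - s') * a + s' * max (-gt u') 0 :=
    add_nonneg (mul_nonneg (by linarith) ha.le) (mul_nonneg hs0' (le_max_right _ _))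
  have q1 := BE08.sg_mul_inj p1 p1' e1
  have q2 := BE08.sg_mul_inj p2 p2' e2
  have m0 : ∀ r : ℝ, min (max r 0) (max (-r) 0) = 0 := by
    intro r
    rcases le_total 0 r with h | h
    · rw [max_eq_right (by linarith : -r ≤ 0), min_eq_right (le_max_right _ _)]
    · rw [max_eq_right h, min_eq_left (le_max_right _ _)]
  have hss : s = s' := by
    have h1 : min ((1 - s) * a + s * max (gt u) 0) ((1 - s) * a + s * max (-gt u) 0) =
        (1 - s) * a := by
      rw [min_add_add_left, ← mul_min_of_nonneg _ _ hs0, m0]; ring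
    have h2 : min ((1 - s') * a + s' * max (gt u') 0) ((1 - s') * a + s' * max (-gt u') 0) =
        (1 - s') * a := by
      rw [min_add_add_left, ← mul_min_of_nonneg _ _ hs0', m0]; ring
    rw [q1, q2, h2] at h1
    have h3 : (s - s') * a = 0 := by linarith
    rcases mul_eq_zero.1 h3 with h | h
    · linarith
    · exact absurd h ha.ne'
  subst hss
  rw [← q1] at e1
  rw [← q2] at e2
  by_cases hz : s = 0
  · subst hz
    have h1 := BE08.sg_eq (r := (1 - 0) * a + 0 * max (gt u) 0) (by simpa using ha) e1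
    have h2 := BE08.sg_eq (r := (1 - 0) * a + 0 * max (-gt u) 0) (by simpa using ha) e2
    subst h1; subst h2
    funext z
    rcases z with z | q
    · rw [bookPt_inl, bookPt_inl, zero_mul, zero_mul]
    · rw [bookPt_inr, bookPt_inr]
  have hspos : 0 < s := lt_of_le_of_ne hs0 (Ne.symm hz)
  have r1 : max (gt u) 0 = max (gt u') 0 := by
    have : s * max (gt u) 0 = s * max (gt u') 0 := by linarith
    exact mul_left_cancel₀ hz this
  have r2 : max (-gt u) 0 = max (-gt u') 0 := by
    have : s * max (-gt u) 0 = s * max (-gt u') 0 := by linarith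
    exact mul_left_cancel₀ hz this
  have r3 : gt u = gt u' := by
    have h1 : ∀ r : ℝ, r = max r 0 - max (-r) 0 := by
      intro r
      rcases le_total 0 r with h | h
      · rw [max_eq_left h, max_eq_right (by linarith : -r ≤ 0), sub_zero]
      · rw [max_eq_right h, max_eq_left (by linarith : 0 ≤ -r)]; ring
    rw [h1 (gt u), h1 (gt u'), r1, r2]
  have r4 : gw u = gw u' := by
    have : s • gw u = s • gw u' := add_left_cancel e3
    exact smul_right_injective W hz this
  have huu : u = u' := hinj hu hu' (by simp only [r3, r4])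
  subst huu
  by_cases h1 : s = 1
  · subst h1
    funext z
    rcases z with z | q
    · rw [bookPt_inl, bookPt_inl]
      by_cases hzv : u z.1.1 = 0
      · rw [hzv]; simp
      have hlift : bookLift t sx sy z.1.1 = bookLift t sx' sy' z.1.1 := by
        rcases lt_trichotomy (t z.1.1) 0 with h | h | h
        · have hg := (hsign u hu).2.2 (BE08.tLin_neg K t hside u hu _ h hzv)
          apply BE08.bookLift_congr_neg t _ _ _ _ _ h
          refine BE08.sg_eq ?_ e2
          rw [max_eq_left (by linarith : (0 : ℝ) ≤ -gt u)]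
          linarith
        · exact BE08.bookLift_congr_zero t _ _ _ _ _ h
        · have hg := (hsign u hu).1.2 (BE08.tLin_pos K t hside u hu _ h hzv)
          apply BE08.bookLift_congr_pos t _ _ _ _ _ h
          refine BE08.sg_eq ?_ e1
          rw [max_eq_left hg.le]
          linarith
      rw [hlift]
    · rw [bookPt_inr, bookPt_inr, sub_self]
      simp
  · have h1' : 0 < (1 - s) * a := mul_pos (by
      have := lt_of_le_of_ne hs1 h1
      linarith) ha
    have f1 := BE08.sg_eq (add_pos_of_pos_of_nonneg h1' (mul_nonneg hs0 (le_max_right _ _))) e1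
    have f2 := BE08.sg_eq (add_pos_of_pos_of_nonneg h1' (mul_nonneg hs0 (le_max_right _ _))) e2
    rw [f1, f2]

/-! ## Existence of the map -/

omit [DecidableEq V] in
theorem BE08.isCompact_sp (S : Set (Finset V)) : IsCompact (sp S) := by
  have h : sp S = ⋃ s ∈ S, {x : V → ℝ | (∀ v, 0 ≤ x v) ∧ ∑ v, x v = 1 ∧ ∀ v, v ∉ s → x v = 0} := by
    ext x
    simp only [sp, mem_ofPred_eq, mem_iUnion, exists_prop]
    constructor
    · rintro ⟨h1, h2, s, hs, h3⟩
      exact ⟨s, hs, h1, h2, h3⟩
    · rintro ⟨s, hs, h1, h2, h3⟩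
      exact ⟨h1, h2, s, hs, h3⟩
  rw [h]
  refine (Set.toFinite S).isCompact_biUnion fun s _ => ?_
  apply Metric.isCompact_of_isClosed_isBounded
  · have e1 : IsClosed {x : V → ℝ | ∀ v, 0 ≤ x v} := by
      rw [ofPred_forall]
      exact isClosed_iInter fun v => isClosed_le continuous_const (continuous_apply v)
    have e2 : IsClosed {x : V → ℝ | ∑ v, x v = 1} :=
      isClosed_eq (continuous_finsetSum _ fun v _ => continuous_apply v) continuous_const
    have e3 : IsClosed {x : V → ℝ | ∀ v, v ∉ s → x v = 0} := by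
      rw [ofPred_forall]
      refine isClosed_iInter fun v => ?_
      by_cases hv : v ∈ s
      · simp [hv]
      · simp only [hv, not_false_eq_true, forall_true_left]
        exact isClosed_eq (continuous_apply v) continuous_const
    exact e1.inter (e2.inter e3)
  · apply (Metric.isBounded_Icc (0 : V → ℝ) 1).subset
    rintro x ⟨h1, h2, _⟩
    refine ⟨h1, fun v => ?_⟩
    show x v ≤ 1
    rw [← h2]
    exact Finset.single_le_sum (fun w _ => h1 w) (Finset.mem_univ v)

/-- the cone parameter `s` -/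
noncomputable def BE08.fs (t : V → ℤ) (x : BookV t → ℝ) : ℝ :=
  1 - ∑ q : Bool × Bool, x (Sum.inr q)

/-- the fold to `|K|` -/
noncomputable def BE08.fu (t : V → ℤ) (x : BookV t → ℝ) (v : V) : ℝ :=
  (∑ z : {x : V × Bool // t x.1 = 0 → x.2 = true}, if z.1.1 = v then x (Sum.inl z) else 0) /
    BE08.fs t x

omit [Fintype V] in
theorem BE08.fs_bookPt (t : V → ℤ) (sx sy : Bool) (s : ℝ) (u : V → ℝ) :
    BE08.fs t (bookPt t sx sy s u) = s := by
  unfold BE08.fs
  simp only [bookPt_inr]
  rw [Finset.sum_ite_eq' Finset.univ (sx, sy)]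
  simp

/-- the copy of `v` in the quadrant -/
def BE08.lz (t : V → ℤ) (sx sy : Bool) (v : V) : {x : V × Bool // t x.1 = 0 → x.2 = true} :=
  ⟨(v, if 0 < t v then sx else if t v < 0 then sy else true), by
    intro h
    have h' : t v = 0 := h
    simp [h']⟩

omit [Fintype V] [DecidableEq V] in
theorem BE08.lz_eq (t : V → ℤ) (sx sy : Bool) (v : V) :
    bookLift t sx sy v = Sum.inl (BE08.lz t sx sy v) := rfl

theorem BE08.sum_lz (t : V → ℤ) (sx sy : Bool)
    (F : {x : V × Bool // t x.1 = 0 → x.2 = true} → ℝ)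
    (hF : ∀ z, (∀ v, z ≠ BE08.lz t sx sy v) → F z = 0) :
    ∑ z, F z = ∑ v, F (BE08.lz t sx sy v) := by
  rw [← Finset.sum_image (s := Finset.univ) (g := BE08.lz t sx sy) (f := F)]
  · symm
    apply Finset.sum_subset (Finset.subset_univ _)
    intro z _ hz
    rw [Finset.mem_image, not_exists] at hz
    exact hF z fun v hv => hz v ⟨Finset.mem_univ _, hv.symm⟩
  · intro v _ w _ h
    have : bookLift t sx sy v = bookLift t sx sy w := by rw [BE08.lz_eq, BE08.lz_eq, h]
    exact bookLift_inj t sx sy this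

theorem BE08.sum_coeff (t : V → ℤ) (sx sy : Bool) (s : ℝ) (u : V → ℝ)
    (c : {x : V × Bool // t x.1 = 0 → x.2 = true} → ℝ) :
    (∑ z : {x : V × Bool // t x.1 = 0 → x.2 = true}, c z * bookPt t sx sy s u (Sum.inl z)) =
      ∑ v, c (BE08.lz t sx sy v) * (s * u v) := by
  rw [BE08.sum_lz t sx sy]
  · refine Finset.sum_congr rfl fun v _ => ?_
    rw [← BE08.lz_eq, bookPt_lift]
  · intro z hz
    rw [bookPt_inl, if_neg, mul_zero]
    intro h
    rw [BE08.lz_eq] at h
    exact hz _ (Sum.inl.inj h)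

theorem BE08.fu_bookPt (t : V → ℤ) (sx sy : Bool) (s : ℝ) (hs : s ≠ 0) (u : V → ℝ) :
    BE08.fu t (bookPt t sx sy s u) = u := by
  funext v
  unfold BE08.fu
  rw [BE08.fs_bookPt]
  have h := BE08.sum_coeff t sx sy s u (fun z => if z.1.1 = v then 1 else 0)
  simp only [ite_mul, one_mul, zero_mul] at h
  rw [h]
  have h2 : ∀ w, (BE08.lz t sx sy w).1.1 = w := fun w => rfl
  simp only [h2]
  rw [Finset.sum_ite_eq' Finset.univ v]
  simp only [Finset.mem_univ, if_true]
  field_simp

theorem BE08.cone_cont (K : SComplex V) (t : V → ℤ) (hne : K.space.Nonempty)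
    (g : (V → ℝ) → W) (hg : ContinuousOn g K.space) :
    ContinuousOn (fun x => BE08.fs t x • g (BE08.fu t x)) (book K t).space := by
  have hfs : Continuous (BE08.fs t) := by
    unfold BE08.fs
    fun_prop
  have hmem : ∀ x ∈ (book K t).space, BE08.fs t x ≠ 0 → BE08.fu t x ∈ K.space := by
    intro x hx hx0
    obtain ⟨sx, sy, s, hs, u, hu, rfl⟩ := (book_cover K t hne x).1 hx
    rw [BE08.fs_bookPt] at hx0
    rw [BE08.fu_bookPt t sx sy s hx0]
    exact hu
  intro x₀ hx₀
  by_cases h0 : BE08.fs t x₀ = 0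
  · obtain ⟨C, hC⟩ := (BE08.isCompact_sp K.faces).exists_bound_of_continuousOn hg
    have hC' : ∀ x ∈ (book K t).space, ‖BE08.fs t x • g (BE08.fu t x)‖ ≤ |BE08.fs t x| * |C| := by
      intro x hx
      by_cases hx0 : BE08.fs t x = 0
      · rw [hx0]; simp
      · rw [norm_smul, Real.norm_eq_abs]
        exact mul_le_mul_of_nonneg_left ((hC _ (hmem x hx hx0)).trans (le_abs_self C))
          (abs_nonneg _)
    show Filter.Tendsto _ _ (𝓝 (BE08.fs t x₀ • g (BE08.fu t x₀)))
    rw [h0, zero_smul]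
    apply squeeze_zero_norm' (a := fun x => |BE08.fs t x| * |C|)
    · filter_upwards [self_mem_nhdsWithin] with x hx using hC' x hx
    · have : Filter.Tendsto (fun x => |BE08.fs t x| * |C|) (𝓝[(book K t).space] x₀)
          (𝓝 (|BE08.fs t x₀| * |C|)) :=
        ((hfs.abs.mul continuous_const).tendsto x₀).mono_left nhdsWithin_le_nhds
      rwa [h0, abs_zero, zero_mul] at this
  · have hfu : ContinuousAt (BE08.fu t) x₀ := by
      unfold BE08.fu
      rw [continuousAt_pi]
      intro v
      refine ContinuousAt.div ?_ hfs.continuousAt h0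
      refine (continuous_finsetSum _ fun z _ => ?_).continuousAt
      by_cases hz : z.1.1 = v
      · simp only [hz, if_true]; exact continuous_apply _
      · simp only [hz, if_false]; exact continuous_const
    have ev : ∀ᶠ x in 𝓝[(book K t).space] x₀, BE08.fu t x ∈ K.space := by
      have h1 : ∀ᶠ x in 𝓝[(book K t).space] x₀, BE08.fs t x ≠ 0 :=
        (hfs.continuousAt.eventually_ne h0).filter_mono nhdsWithin_le_nhds
      filter_upwards [h1, self_mem_nhdsWithin] with x hx1 hx2 using hmem x hx2 hx1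
    have h2 : Filter.Tendsto (BE08.fu t) (𝓝[(book K t).space] x₀) (𝓝[K.space] (BE08.fu t x₀)) :=
      tendsto_nhdsWithin_iff.2 ⟨hfu.tendsto.mono_left nhdsWithin_le_nhds, ev⟩
    have h3 := (hg (BE08.fu t x₀) (hmem x₀ hx₀ h0)).tendsto.comp h2
    exact ((hfs.tendsto x₀).mono_left nhdsWithin_le_nhds).smul h3

theorem BE08.ratio_cont {X : Type} [TopologicalSpace X] (S : Set X) (P p G : X → ℝ)
    (hP : ContinuousOn P S) (hp : ContinuousOn p S) (hG : ContinuousOn G S)
    (hPp : ∀ x ∈ S, |P x| ≤ p x) (h0 : ∀ x ∈ S, p x = 0 → G x = 0) :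
    ContinuousOn (fun x => P x / p x * G x) S := by
  intro x₀ hx₀
  by_cases hx : p x₀ = 0
  · show Filter.Tendsto _ _ (𝓝 (P x₀ / p x₀ * G x₀))
    rw [h0 x₀ hx₀ hx, mul_zero]
    have hG0 := (hG x₀ hx₀).tendsto
    rw [h0 x₀ hx₀ hx] at hG0
    apply squeeze_zero_norm' (a := fun x => |G x|)
    · filter_upwards [self_mem_nhdsWithin] with x hx
      rw [Real.norm_eq_abs, abs_mul]
      have : |P x / p x| ≤ 1 := by
        rw [abs_div]
        refine div_le_one_of_le₀ ?_ (abs_nonneg _)
        exact (hPp x hx).trans (le_abs_self _)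
      nlinarith [abs_nonneg (G x)]
    · have := hG0.abs
      rwa [abs_zero] at this
  · exact ((hP x₀ hx₀).div (hp x₀ hx₀) hx).mul (hG x₀ hx₀)

theorem book_exists (K : SComplex V) (t : V → ℤ) (_hside : OneSided K.faces t)
    (hne : K.space.Nonempty) (gt : (V → ℝ) → ℝ) (gw : (V → ℝ) → W)
    (hsign : ∀ u ∈ K.space, (0 < gt u ↔ 0 < tLin t u) ∧ (gt u < 0 ↔ tLin t u < 0))
    (hgt : ContinuousOn gt K.space) (hgw : ContinuousOn gw K.space) (a : ℝ) (w₀ : W) :
    ∃ Φ : (BookV t → ℝ) → ℝ × ℝ × W, ContinuousOn Φ (book K t).space ∧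
      BookFormula K t gt gw a w₀ Φ := by
  let cx : {x : V × Bool // t x.1 = 0 → x.2 = true} → ℝ := fun z => if 0 < t z.1.1 then 1 else 0
  let cy : {x : V × Bool // t x.1 = 0 → x.2 = true} → ℝ := fun z => if t z.1.1 < 0 then 1 else 0
  let px : (BookV t → ℝ) → ℝ := fun x => ∑ z, cx z * x (Sum.inl z)
  let py : (BookV t → ℝ) → ℝ := fun x => ∑ z, cy z * x (Sum.inl z)
  let Px : (BookV t → ℝ) → ℝ := fun x => ∑ z, (cx z * sg z.1.2) * x (Sum.inl z)
  let Py : (BookV t → ℝ) → ℝ := fun x => ∑ z, (cy z * sg z.1.2) * x (Sum.inl z)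
  let Gx : (BookV t → ℝ) → ℝ := fun x => BE08.fs t x • max (gt (BE08.fu t x)) 0
  let Gy : (BookV t → ℝ) → ℝ := fun x => BE08.fs t x • max (-gt (BE08.fu t x)) 0
  have cpx : Continuous px := by fun_prop
  have cpy : Continuous py := by fun_prop
  have cPx : Continuous Px := by fun_prop
  have cPy : Continuous Py := by fun_prop
  have cGx : ContinuousOn Gx (book K t).space :=
    BE08.cone_cont K t hne (fun u => max (gt u) 0) (hgt.sup continuousOn_const)
  have cGy : ContinuousOn Gy (book K t).space :=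
    BE08.cone_cont K t hne (fun u => max (-gt u) 0) (hgt.neg.sup continuousOn_const)
  have habs : ∀ b : Bool, |sg b| = 1 := by
    intro b; cases b <;> simp [sg]
  have vpx : ∀ sx sy s u, px (bookPt t sx sy s u) = s * ∑ v, if 0 < t v then u v else 0 := by
    intro sx sy s u
    show ∑ z, cx z * bookPt t sx sy s u (Sum.inl z) = _
    rw [BE08.sum_coeff, Finset.mul_sum]
    refine Finset.sum_congr rfl fun v _ => ?_
    show (if 0 < t v then (1 : ℝ) else 0) * (s * u v) = _
    split_ifs <;> ring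
  have vpy : ∀ sx sy s u, py (bookPt t sx sy s u) = s * ∑ v, if t v < 0 then u v else 0 := by
    intro sx sy s u
    show ∑ z, cy z * bookPt t sx sy s u (Sum.inl z) = _
    rw [BE08.sum_coeff, Finset.mul_sum]
    refine Finset.sum_congr rfl fun v _ => ?_
    show (if t v < 0 then (1 : ℝ) else 0) * (s * u v) = _
    split_ifs <;> ring
  have vPx : ∀ sx sy s u, Px (bookPt t sx sy s u) = sg sx * px (bookPt t sx sy s u) := by
    intro sx sy s u
    rw [vpx]
    show ∑ z, (cx z * sg z.1.2) * bookPt t sx sy s u (Sum.inl z) = _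
    rw [BE08.sum_coeff t sx sy s u (fun z => cx z * sg z.1.2), Finset.mul_sum, Finset.mul_sum]
    refine Finset.sum_congr rfl fun v _ => ?_
    show ((if 0 < t v then (1 : ℝ) else 0) *
      sg (if 0 < t v then sx else if t v < 0 then sy else true)) * (s * u v) = _
    by_cases h : 0 < t v
    · simp only [if_pos h]; ring
    · simp only [if_neg h]; ring
  have vPy : ∀ sx sy s u, Py (bookPt t sx sy s u) = sg sy * py (bookPt t sx sy s u) := by
    intro sx sy s u
    rw [vpy]
    show ∑ z, (cy z * sg z.1.2) * bookPt t sx sy s u (Sum.inl z) = _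
    rw [BE08.sum_coeff t sx sy s u (fun z => cy z * sg z.1.2), Finset.mul_sum, Finset.mul_sum]
    refine Finset.sum_congr rfl fun v _ => ?_
    show ((if t v < 0 then (1 : ℝ) else 0) *
      sg (if 0 < t v then sx else if t v < 0 then sy else true)) * (s * u v) = _
    by_cases h : t v < 0
    · have h' : ¬ 0 < t v := by omega
      simp only [if_pos h, if_neg h']; ring
    · simp only [if_neg h]; ring
  have hpx : ∀ x ∈ (book K t).space, 0 ≤ px x := by
    intro x hx
    refine Finset.sum_nonneg fun z _ => mul_nonneg ?_ (hx.1 _)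
    show 0 ≤ (if 0 < t z.1.1 then (1 : ℝ) else 0)
    split_ifs <;> norm_num
  have hpy : ∀ x ∈ (book K t).space, 0 ≤ py x := by
    intro x hx
    refine Finset.sum_nonneg fun z _ => mul_nonneg ?_ (hx.1 _)
    show 0 ≤ (if t z.1.1 < 0 then (1 : ℝ) else 0)
    split_ifs <;> norm_num
  have hPx : ∀ x ∈ (book K t).space, |Px x| ≤ px x := by
    intro x hx
    have h1 := hpx x hx
    obtain ⟨sx, sy, s, hs, u, hu, rfl⟩ := (book_cover K t hne x).1 hx
    rw [vPx, abs_mul, habs, one_mul, abs_of_nonneg h1]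
  have hPy : ∀ x ∈ (book K t).space, |Py x| ≤ py x := by
    intro x hx
    have h1 := hpy x hx
    obtain ⟨sx, sy, s, hs, u, hu, rfl⟩ := (book_cover K t hne x).1 hx
    rw [vPy, abs_mul, habs, one_mul, abs_of_nonneg h1]
  -- if the positive mass vanishes then `gt u ≤ 0`
  have kx : ∀ u ∈ K.space, (∑ v, if 0 < t v then u v else 0) = 0 → gt u ≤ 0 := by
    intro u hu h
    by_contra hc
    have hc' := (hsign u hu).1.1 (not_le.1 hc)
    have h1 : ∀ v, 0 < t v → u v = 0 := by
      intro v hv
      have := (Finset.sum_eq_zero_iff_of_nonneg (fun v _ => by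
        split_ifs
        · exact hu.1 v
        · exact le_rfl)).1 h v (Finset.mem_univ _)
      rwa [if_pos hv] at this
    have h2 : tLin t u ≤ 0 := by
      refine Finset.sum_nonpos fun v _ => ?_
      by_cases hv : 0 < t v
      · rw [h1 v hv, zero_mul]
      · have h3 : (t v : ℝ) ≤ 0 := by exact_mod_cast not_lt.1 hv
        exact mul_nonpos_of_nonneg_of_nonpos (hu.1 v) h3
    linarith
  have ky : ∀ u ∈ K.space, (∑ v, if t v < 0 then u v else 0) = 0 → 0 ≤ gt u := by
    intro u hu h
    by_contra hc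
    have hc' := (hsign u hu).2.1 (not_le.1 hc)
    have h1 : ∀ v, t v < 0 → u v = 0 := by
      intro v hv
      have := (Finset.sum_eq_zero_iff_of_nonneg (fun v _ => by
        split_ifs
        · exact hu.1 v
        · exact le_rfl)).1 h v (Finset.mem_univ _)
      rwa [if_pos hv] at this
    have h2 : 0 ≤ tLin t u := by
      refine Finset.sum_nonneg fun v _ => ?_
      by_cases hv : t v < 0
      · rw [h1 v hv, zero_mul]
      · have h3 : (0 : ℝ) ≤ t v := by exact_mod_cast not_lt.1 hv
        exact mul_nonneg (hu.1 v) h3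
    linarith
  have zx : ∀ sx sy s u, u ∈ K.space → px (bookPt t sx sy s u) = 0 → s * max (gt u) 0 = 0 := by
    intro sx sy s u hu h
    rw [vpx] at h
    rcases mul_eq_zero.1 h with h | h
    · rw [h, zero_mul]
    · rw [max_eq_right (kx u hu h), mul_zero]
  have zy : ∀ sx sy s u, u ∈ K.space → py (bookPt t sx sy s u) = 0 → s * max (-gt u) 0 = 0 := by
    intro sx sy s u hu h
    rw [vpy] at h
    rcases mul_eq_zero.1 h with h | h
    · rw [h, zero_mul]
    · rw [max_eq_right (by linarith [ky u hu h]), mul_zero]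
  have gx : ∀ sx sy s u, Gx (bookPt t sx sy s u) = s * max (gt u) 0 := by
    intro sx sy s u
    show BE08.fs t _ • max (gt (BE08.fu t _)) 0 = _
    rw [BE08.fs_bookPt, smul_eq_mul]
    by_cases h : s = 0
    · rw [h, zero_mul, zero_mul]
    · rw [BE08.fu_bookPt t sx sy s h]
  have gy : ∀ sx sy s u, Gy (bookPt t sx sy s u) = s * max (-gt u) 0 := by
    intro sx sy s u
    show BE08.fs t _ • max (-gt (BE08.fu t _)) 0 = _
    rw [BE08.fs_bookPt, smul_eq_mul]
    by_cases h : s = 0
    · rw [h, zero_mul, zero_mul]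
    · rw [BE08.fu_bookPt t sx sy s h]
  have gx0 : ∀ x ∈ (book K t).space, px x = 0 → Gx x = 0 := by
    intro x hx
    obtain ⟨sx, sy, s, hs, u, hu, rfl⟩ := (book_cover K t hne x).1 hx
    rw [gx]
    exact zx sx sy s u hu
  have gy0 : ∀ x ∈ (book K t).space, py x = 0 → Gy x = 0 := by
    intro x hx
    obtain ⟨sx, sy, s, hs, u, hu, rfl⟩ := (book_cover K t hne x).1 hx
    rw [gy]
    exact zy sx sy s u hu
  refine ⟨fun x => (a * ∑ q : Bool × Bool, sg q.1 * x (Sum.inr q) + Px x / px x * Gx x,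
    a * ∑ q : Bool × Bool, sg q.2 * x (Sum.inr q) + Py x / py x * Gy x,
    (∑ q : Bool × Bool, x (Sum.inr q)) • w₀ + BE08.fs t x • gw (BE08.fu t x)), ?_, ?_⟩
  · refine ContinuousOn.prodMk ?_ (ContinuousOn.prodMk ?_ ?_)
    · refine ContinuousOn.add ?_ (BE08.ratio_cont _ Px px Gx cPx.continuousOn cpx.continuousOn cGx
        hPx gx0)
      exact Continuous.continuousOn (by fun_prop)
    · refine ContinuousOn.add ?_ (BE08.ratio_cont _ Py py Gy cPy.continuousOn cpy.continuousOn cGy
        hPy gy0)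
      exact Continuous.continuousOn (by fun_prop)
    · refine ContinuousOn.add ?_ (BE08.cone_cont K t hne gw hgw)
      exact Continuous.continuousOn (by fun_prop)
  · intro sx sy s hs u hu
    have e1 : ∀ c : Bool × Bool → ℝ, ∑ q : Bool × Bool, c q * bookPt t sx sy s u (Sum.inr q) =
        c (sx, sy) * (1 - s) := by
      intro c
      rw [Finset.sum_eq_single (sx, sy)]
      · rw [bookPt_inr, if_pos rfl]
      · intro q _ hq
        rw [bookPt_inr, if_neg hq, mul_zero]
      · intro h; exact absurd (Finset.mem_univ _) h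
    have e2 : ∑ q : Bool × Bool, bookPt t sx sy s u (Sum.inr q) = 1 - s := by
      have := e1 fun _ => 1
      simpa using this
    refine Prod.ext ?_ (Prod.ext ?_ ?_)
    · show a * ∑ q : Bool × Bool, sg q.1 * bookPt t sx sy s u (Sum.inr q) +
        Px (bookPt t sx sy s u) / px (bookPt t sx sy s u) * Gx (bookPt t sx sy s u) = _
      rw [e1 fun q => sg q.1, gx, vPx]
      by_cases h : px (bookPt t sx sy s u) = 0
      · rw [zx sx sy s u hu h]; ring
      · rw [mul_div_assoc, div_self h]; ring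
    · show a * ∑ q : Bool × Bool, sg q.2 * bookPt t sx sy s u (Sum.inr q) +
        Py (bookPt t sx sy s u) / py (bookPt t sx sy s u) * Gy (bookPt t sx sy s u) = _
      rw [e1 fun q => sg q.2, gy, vPy]
      by_cases h : py (bookPt t sx sy s u) = 0
      · rw [zy sx sy s u hu h]; ring
      · rw [mul_div_assoc, div_self h]; ring
    · show (∑ q : Bool × Bool, bookPt t sx sy s u (Sum.inr q)) • w₀ +
        BE08.fs t (bookPt t sx sy s u) • gw (BE08.fu t (bookPt t sx sy s u)) = _
      rw [e2, BE08.fs_bookPt]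
      by_cases h : s = 0
      · rw [h, zero_smul, zero_smul]
      · rw [BE08.fu_bookPt t sx sy s h]

end BE08

end Pool.Agent.PolyKnots
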