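import Pool.Agent.W_MP_be6f00_gt.Basic

set_option autoImplicit false

/-! # Contractibility tools for polyhedra of finite families of simplices -/

open scoped Topology unitInterval
open Set Topology

namespace Pool.Agent.PolyKnots.BE23

/-- A retract of a contractible space is contractible. -/
theorem contractible_of_comp {X Y : Type} [TopologicalSpace X] [TopologicalSpace Y]
    [ContractibleSpace X] (i : C(Y, X)) (r : C(X, Y)) (h : ∀ y, r (i y) = y) :
    ContractibleSpace Y := by
  rw [contractible_iff_id_nullhomotopic]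
  have h1 := ((id_nullhomotopic X).comp_left i).comp_right r
  have h2 : r.comp ((ContinuousMap.id X).comp i) = ContinuousMap.id Y := by
    ext y
    exact h y
  rwa [h2] at h1

/-- If `X` deforms into a contractible subset, then `X` is contractible. -/
theorem contractible_of_deform {E : Type} [TopologicalSpace E] {X Y : Set E} (hYX : Y ⊆ X)
    (hc : ContractibleSpace Y) (H : ℝ × E → E) (hH : ContinuousOn H (Icc (0 : ℝ) 1 ×ˢ X))
    (h0 : ∀ x ∈ X, H (0, x) = x) (hX : ∀ s ∈ Icc (0 : ℝ) 1, ∀ x ∈ X, H (s, x) ∈ X)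
    (h1 : ∀ x ∈ X, H (1, x) ∈ Y) : ContractibleSpace X := by
  rw [contractible_iff_id_nullhomotopic]
  have hcont : Continuous fun p : I × X => H (p.1.1, p.2.1) := by
    refine hH.comp_continuous (f := fun p : I × X => ((p.1 : ℝ), (p.2 : E))) (by fun_prop) ?_
    rintro ⟨s, x⟩
    exact ⟨s.2, x.2⟩
  have hcont1 : Continuous fun x : X => H (1, x.1) := by
    refine hH.comp_continuous (f := fun x : X => ((1 : ℝ), (x : E))) (by fun_prop) ?_
    intro x
    exact ⟨⟨zero_le_one, le_rfl⟩, x.2⟩
  let r : C(X, Y) := ⟨fun x => ⟨H (1, x.1), h1 x.1 x.2⟩, hcont1.subtype_mk _⟩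
  let i : C(Y, X) := ⟨fun y => ⟨y.1, hYX y.2⟩, by fun_prop⟩
  have hn : (i.comp ((ContinuousMap.id Y).comp r)).Nullhomotopic :=
    ((id_nullhomotopic Y).comp_left r).comp_right i
  have hhom : (ContinuousMap.id X).Homotopic (i.comp ((ContinuousMap.id Y).comp r)) := by
    refine ⟨{ toFun := fun p => ⟨H (p.1.1, p.2.1), hX p.1.1 p.1.2 p.2.1 p.2.2⟩
              continuous_toFun := hcont.subtype_mk _
              map_zero_left := ?_
              map_one_left := ?_ }⟩
    · intro x
      exact Subtype.ext (h0 x.1 x.2)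
    · intro x
      exact Subtype.ext (by rfl)
  obtain ⟨y, hy⟩ := hn
  exact ⟨y, hhom.trans hy⟩

variable {V : Type} [Fintype V]

theorem isClosed_sp (S : Set (Finset V)) : IsClosed (sp S) := by
  have h : sp S = ⋃ s ∈ S, {x : V → ℝ | (∀ v, 0 ≤ x v) ∧ ∑ v, x v = 1 ∧ ∀ v, v ∉ s → x v = 0} := by
    ext x
    simp only [sp, mem_ofPred_eq, mem_iUnion, exists_prop]
    constructor
    · rintro ⟨h1, h2, s, hs, h3⟩
      exact ⟨s, hs, h1, h2, h3⟩
    · rintro ⟨s, hs, h1, h2, h3⟩
      exact ⟨h1, h2, s, hs, h3⟩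
  rw [h]
  refine (Set.toFinite S).isClosed_biUnion fun s _ => ?_
  have h1 : IsClosed {x : V → ℝ | ∀ v, 0 ≤ x v} := by
    rw [ofPred_forall]
    exact isClosed_iInter fun v => isClosed_le continuous_const (continuous_apply v)
  have h2 : IsClosed {x : V → ℝ | ∑ v, x v = 1} := isClosed_eq (by fun_prop) continuous_const
  have h3 : IsClosed {x : V → ℝ | ∀ v, v ∉ s → x v = 0} := by
    rw [ofPred_forall]
    refine isClosed_iInter fun v => ?_
    rw [ofPred_forall]
    exact isClosed_iInter fun _ => isClosed_eq (continuous_apply v) continuous_const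
  exact h1.inter (h2.inter h3)

theorem sp_le_one {S : Set (Finset V)} {x : V → ℝ} (hx : x ∈ sp S) (v : V) : x v ≤ 1 := by
  rw [← hx.2.1]
  exact Finset.single_le_sum (fun w _ => hx.1 w) (Finset.mem_univ v)

theorem norm_sub_le {S T : Set (Finset V)} {x y : V → ℝ} (hx : x ∈ sp S) (hy : y ∈ sp T) :
    ‖x - y‖ ≤ 1 := by
  rw [pi_norm_le_iff_of_nonneg zero_le_one]
  intro v
  rw [Pi.sub_apply, Real.norm_eq_abs, abs_le]
  have h1 := sp_le_one hx v
  have h2 := sp_le_one hy v
  have h3 := hx.1 v
  have h4 := hy.1 v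
  constructor <;> linarith

variable [DecidableEq V]

/-- Every point of `sp S` outside the vertex `v` is on a ray from `v`. -/
noncomputable def away (v : V) (x : V → ℝ) : V → ℝ := (1 - x v)⁻¹ • Function.update x v 0

omit [Fintype V] in
theorem away_self (v : V) (x : V → ℝ) : away v x v = 0 := by
  simp [away]

omit [Fintype V] in
theorem away_of_zero {v : V} {x : V → ℝ} (h : x v = 0) : away v x = x := by
  unfold away
  rw [h, sub_zero, inv_one, one_smul, ← h, Function.update_eq_self]

omit [Fintype V] in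
theorem away_spec {v : V} {x : V → ℝ} (h : x v ≠ 1) :
    x v • (Pi.single v 1 : V → ℝ) + (1 - x v) • away v x = x := by
  have h' : (1 - x v) ≠ 0 := sub_ne_zero.2 (Ne.symm h)
  unfold away
  rw [smul_smul, mul_inv_cancel₀ h', one_smul]
  ext w
  by_cases hw : w = v
  · subst hw
    simp
  · simp [hw]

theorem eq_single {S : Set (Finset V)} {v : V} {x : V → ℝ} (hx : x ∈ sp S) (h : x v = 1) :
    x = Pi.single v 1 := by
  ext w
  by_cases hw : w = v
  · subst hw
    simp [h]
  · have h1 : x v + x w ≤ ∑ u, x u := by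
      rw [← Finset.sum_pair (Ne.symm hw)]
      exact Finset.sum_le_sum_of_subset_of_nonneg (Finset.subset_univ _) fun u _ _ => hx.1 u
    rw [hx.2.1, h] at h1
    have h2 := hx.1 w
    simp [hw]
    linarith

theorem sum_away {S : Set (Finset V)} {v : V} {x : V → ℝ} (hx : x ∈ sp S) (h : x v ≠ 1) :
    ∑ w, away v x w = 1 := by
  have h' : (1 - x v) ≠ 0 := sub_ne_zero.2 (Ne.symm h)
  have h1 : ∑ w, away v x w = (1 - x v)⁻¹ * ∑ w, Function.update x v 0 w := by
    rw [Finset.mul_sum]
    rfl
  rw [h1]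
  have h2 : ∑ w, Function.update x v 0 w = 1 - x v := by
    rw [Finset.sum_update_of_mem (Finset.mem_univ v), ← hx.2.1,
      ← Finset.add_sum_erase _ _ (Finset.mem_univ v), zero_add, Finset.sdiff_singleton_eq_erase]
    ring
  rw [h2, inv_mul_cancel₀ h']

theorem away_mem {S : Set (Finset V)} (hS : DownClosed S) {v : V} {x : V → ℝ} (hx : x ∈ sp S)
    (h0 : x v ≠ 0) (h : x v ≠ 1) : away v x ∈ sp (linkF S v) := by
  have hlt : 0 < 1 - x v := by
    have := lt_of_le_of_ne (sp_le_one hx v) h
    linarith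
  have hnn : ∀ w, 0 ≤ away v x w := by
    intro w
    unfold away
    rw [Pi.smul_apply, smul_eq_mul]
    refine mul_nonneg (inv_nonneg.2 hlt.le) ?_
    by_cases hw : w = v
    · subst hw
      simp
    · rw [Function.update_of_ne hw]
      exact hx.1 w
  refine ⟨hnn, sum_away hx h, ?_⟩
  obtain ⟨s, hs, hs'⟩ := hx.2.2
  have hvs : v ∈ s := by
    by_contra hv
    exact h0 (hs' v hv)
  refine ⟨s.erase v, ⟨?_, Finset.notMem_erase v s, ?_⟩, ?_⟩
  · by_contra hne
    rw [Finset.not_nonempty_iff_eq_empty] at hne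
    have h1 : ∑ w, away v x w = 0 := by
      refine Finset.sum_eq_zero fun w _ => ?_
      by_cases hw : w = v
      · subst hw
        exact away_self _ _
      · have hws : w ∉ s := by
          intro hws
          have : w ∈ s.erase v := Finset.mem_erase.2 ⟨hw, hws⟩
          rw [hne] at this
          exact absurd this (Finset.notMem_empty w)
        unfold away
        rw [Pi.smul_apply, Function.update_of_ne hw, hs' w hws, smul_zero]
    rw [sum_away hx h] at h1
    exact one_ne_zero h1
  · rw [Finset.insert_erase hvs]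
    exact hs
  · intro w hw
    by_cases hwv : w = v
    · subst hwv
      exact away_self _ _
    · have hws : w ∉ s := fun hws => hw (Finset.mem_erase.2 ⟨hwv, hws⟩)
      unfold away
      rw [Pi.smul_apply, Function.update_of_ne hwv, hs' w hws, smul_zero]

theorem join_mem {S : Set (Finset V)} {v : V} {u : V → ℝ} (hu : u ∈ sp (linkF S v))
    {a : ℝ} (h0 : 0 ≤ a) (h1 : a ≤ 1) : a • (Pi.single v 1 : V → ℝ) + (1 - a) • u ∈ sp S := by
  refine ⟨?_, ?_, ?_⟩
  · intro w
    simp only [Pi.add_apply, Pi.smul_apply, smul_eq_mul]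
    have h2 : 0 ≤ (Pi.single v 1 : V → ℝ) w := by
      by_cases hw : w = v
      · subst hw
        simp
      · simp [hw]
    have h3 := hu.1 w
    have h4 : 0 ≤ 1 - a := by linarith
    positivity
  · simp only [Pi.add_apply, Pi.smul_apply, smul_eq_mul]
    rw [Finset.sum_add_distrib, ← Finset.mul_sum, ← Finset.mul_sum, hu.2.1]
    simp
  · obtain ⟨s, hs, hs'⟩ := hu.2.2
    refine ⟨insert v s, hs.2.2, ?_⟩
    intro w hw
    rw [Finset.mem_insert, not_or] at hw
    simp [hs' w hw.2, hw.1]

theorem link_apply {S : Set (Finset V)} {v : V} {u : V → ℝ} (hu : u ∈ sp (linkF S v)) :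
    u v = 0 := by
  obtain ⟨s, hs, hs'⟩ := hu.2.2
  exact hs' v hs.2.1

/-- The deformation of a complex `S` along the star of a vertex `v` with contractible link: it
ends in the complex `S - v`, fixes `S - v`, and does not increase the weight of `v`. -/
theorem star_deform (S : Set (Finset V)) (hS : DownClosed S) (v : V)
    (hl : ContractibleSpace (sp (linkF S v))) : ∃ H : ℝ × (V → ℝ) → (V → ℝ),
    ContinuousOn H (Icc (0 : ℝ) 1 ×ˢ sp S) ∧
    (∀ t ∈ Icc (0 : ℝ) 1, ∀ x ∈ sp S, H (t, x) ∈ sp S) ∧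
    (∀ x ∈ sp S, H (0, x) = x) ∧
    (∀ x ∈ sp S, H (1, x) v = 0) ∧
    (∀ t ∈ Icc (0 : ℝ) 1, ∀ x ∈ sp S, x v = 0 → H (t, x) = x) ∧
    (∀ t ∈ Icc (0 : ℝ) 1, ∀ x ∈ sp S, H (t, x) v ≤ x v) := by
  -- the contraction of the link
  obtain ⟨u0, ⟨g⟩⟩ := id_nullhomotopic (sp (linkF S v))
  -- Tietze extension
  have hemb : IsClosedEmbedding
      (fun p : I × sp (linkF S v) => ((p.1 : ℝ), (p.2 : V → ℝ))) := by
    have h1 : IsClosedEmbedding (Subtype.val : I → ℝ) := isClosed_Icc.isClosedEmbedding_subtypeVal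
    have h2 : IsClosedEmbedding (Subtype.val : sp (linkF S v) → (V → ℝ)) :=
      (isClosed_sp (linkF S v)).isClosedEmbedding_subtypeVal
    exact h1.prodMap h2
  obtain ⟨G, hG⟩ := ContinuousMap.exists_extension' hemb
    (⟨fun p => ((g p : sp (linkF S v)) : V → ℝ), by fun_prop⟩ : C(I × sp (linkF S v), V → ℝ))
  have hG' : ∀ t : I, ∀ u : sp (linkF S v), G ((t : ℝ), (u : V → ℝ)) = (g (t, u) : V → ℝ) := by
    intro t u
    exact congrFun hG (t, u)
  -- the corrected extension
  set K : ℝ × (V → ℝ) → (V → ℝ) := fun p => p.2 + (G p - G (0, p.2)) with hK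
  have hKc : Continuous K := by
    rw [hK]
    fun_prop
  have hK0 : ∀ u, K (0, u) = u := by
    intro u
    simp [hK]
  have hKm : ∀ t ∈ Icc (0 : ℝ) 1, ∀ u ∈ sp (linkF S v), K (t, u) ∈ sp (linkF S v) := by
    intro t ht u hu
    have e1 := hG' ⟨t, ht⟩ ⟨u, hu⟩
    have e2 := hG' ⟨0, by simp⟩ ⟨u, hu⟩
    have e3 : g (⟨0, by simp⟩, (⟨u, hu⟩ : sp (linkF S v))) = ⟨u, hu⟩ := g.map_zero_left _
    simp only [hK]
    rw [e3] at e2
    rw [e1, e2]
    simp only [add_sub_cancel]
    exact (g _).2
  have hK1 : ∀ u ∈ sp (linkF S v), K (1, u) = u0 := by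
    intro u hu
    have e1 := hG' ⟨1, by simp⟩ ⟨u, hu⟩
    have e2 := hG' ⟨0, by simp⟩ ⟨u, hu⟩
    have e3 : g (⟨0, by simp⟩, (⟨u, hu⟩ : sp (linkF S v))) = ⟨u, hu⟩ := g.map_zero_left _
    have e4 : g (⟨1, by simp⟩, (⟨u, hu⟩ : sp (linkF S v))) = u0 := g.map_one_left _
    simp only [hK]
    rw [e3] at e2
    rw [e4] at e1
    simp only at e1 e2
    rw [e1, e2]
    simp
  have hu0 : (u0 : V → ℝ) ∈ sp (linkF S v) := u0.2
  -- the homotopy
  let a : ℝ × (V → ℝ) → ℝ := fun p => p.2 v * min 1 (2 - 2 * p.1)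
  let b : ℝ × (V → ℝ) → ℝ := fun p => min 1 (2 * p.2 v) * min 1 (2 * p.1)
  let Ecorr : ℝ × (V → ℝ) → (V → ℝ) := fun p =>
    if p.2 v = 1 then 0 else (1 - a p) • (K (b p, away v p.2) - (u0 : V → ℝ))
  let H : ℝ × (V → ℝ) → (V → ℝ) := fun p =>
    a p • (Pi.single v 1 : V → ℝ) + (1 - a p) • (u0 : V → ℝ) + Ecorr p
  have hac : Continuous a := by fun_prop
  have hbc : Continuous b := by fun_prop
  have ha01 : ∀ t ∈ Icc (0 : ℝ) 1, ∀ x ∈ sp S, 0 ≤ a (t, x) ∧ a (t, x) ≤ x v := by
    intro t ht x hx
    have h1 := hx.1 v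
    have h2 : 0 ≤ min (1 : ℝ) (2 - 2 * t) := le_min zero_le_one (by linarith [ht.2])
    have h3 : min (1 : ℝ) (2 - 2 * t) ≤ 1 := min_le_left _ _
    constructor
    · exact mul_nonneg h1 h2
    · exact mul_le_of_le_one_right h1 h3
  have hb01 : ∀ t ∈ Icc (0 : ℝ) 1, ∀ x ∈ sp S, b (t, x) ∈ Icc (0 : ℝ) 1 := by
    intro t ht x hx
    have h1 := hx.1 v
    have h2 : 0 ≤ min (1 : ℝ) (2 * t) := le_min zero_le_one (by linarith [ht.1])
    have h3 : min (1 : ℝ) (2 * t) ≤ 1 := min_le_left _ _
    have h4 : 0 ≤ min (1 : ℝ) (2 * x v) := le_min zero_le_one (by linarith)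
    have h5 : min (1 : ℝ) (2 * x v) ≤ 1 := min_le_left _ _
    exact ⟨mul_nonneg h4 h2, mul_le_one₀ h5 h2 h3⟩
  have hH1 : ∀ p : ℝ × (V → ℝ), p.2 v ≠ 1 →
      H p = a p • (Pi.single v 1 : V → ℝ) + (1 - a p) • K (b p, away v p.2) := by
    intro p hp
    simp only [H, Ecorr, if_neg hp]
    rw [smul_sub]
    abel
  have hH2 : ∀ p : ℝ × (V → ℝ), p.2 v = 1 →
      H p = a p • (Pi.single v 1 : V → ℝ) + (1 - a p) • (u0 : V → ℝ) := by
    intro p hp
    simp only [H, Ecorr, if_pos hp, add_zero]
  have hHfix : ∀ t ∈ Icc (0 : ℝ) 1, ∀ x ∈ sp S, x v = 0 → H (t, x) = x := by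
    intro t ht x hx h
    have hne : x v ≠ 1 := by rw [h]; exact zero_ne_one
    rw [hH1 (t, x) hne]
    have ha : a (t, x) = 0 := by simp [a, h]
    have hb : b (t, x) = 0 := by simp [b, h]
    rw [ha, hb, hK0]
    simp only
    rw [away_of_zero h]
    simp
  -- `H (t, x)` is the join of `v` with a point of the link, with weight `a`
  have hHjoin : ∀ t ∈ Icc (0 : ℝ) 1, ∀ x ∈ sp S, x v ≠ 0 → ∃ u ∈ sp (linkF S v),
      H (t, x) = a (t, x) • (Pi.single v 1 : V → ℝ) + (1 - a (t, x)) • u := by
    intro t ht x hx h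
    by_cases h1 : x v = 1
    · exact ⟨u0, hu0, hH2 (t, x) h1⟩
    · exact ⟨_, hKm _ (hb01 t ht x hx) _ (away_mem hS hx h h1), hH1 (t, x) h1⟩
  refine ⟨H, ?_, ?_, ?_, ?_, hHfix, ?_⟩
  · -- continuity
    rintro ⟨t, x⟩ ⟨ht, hx⟩
    have ht : t ∈ Icc (0 : ℝ) 1 := ht
    have hx : x ∈ sp S := hx
    by_cases h1 : x v = 1
    · -- near the vertex
      have hcont : ContinuousWithinAt Ecorr (Icc (0 : ℝ) 1 ×ˢ sp S) (t, x) := by
        have hE : Ecorr (t, x) = 0 := by simp only [Ecorr, if_pos h1]
        unfold ContinuousWithinAt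
        rw [hE]
        have hlim : Filter.Tendsto (fun p : ℝ × (V → ℝ) => 1 - p.2 v)
            (𝓝[Icc (0 : ℝ) 1 ×ˢ sp S] (t, x)) (𝓝 0) := by
          have : Continuous fun p : ℝ × (V → ℝ) => 1 - p.2 v := by fun_prop
          have h2 := this.continuousWithinAt (s := Icc (0 : ℝ) 1 ×ˢ sp S) (x := (t, x))
          unfold ContinuousWithinAt at h2
          simp only [h1, sub_self] at h2
          exact h2
        refine squeeze_zero_norm' ?_ hlim
        have hev : ∀ᶠ p : ℝ × (V → ℝ) in 𝓝[Icc (0 : ℝ) 1 ×ˢ sp S] (t, x), 1 / 2 < p.2 v := by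
          have hc : Continuous fun p : ℝ × (V → ℝ) => p.2 v := by fun_prop
          have : {p : ℝ × (V → ℝ) | 1 / 2 < p.2 v} ∈ 𝓝 (t, x) := by
            refine (isOpen_lt continuous_const hc).mem_nhds ?_
            simp only [mem_ofPred_eq, h1]
            norm_num
          exact mem_nhdsWithin_of_mem_nhds this
        filter_upwards [hev, self_mem_nhdsWithin] with p hp hpS
        obtain ⟨t', x'⟩ := p
        have ht' : t' ∈ Icc (0 : ℝ) 1 := hpS.1
        have hx' : x' ∈ sp S := hpS.2
        have hp : 1 / 2 < x' v := hp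
        have hle := sp_le_one hx' v
        by_cases h2 : x' v = 1
        · simp only [Ecorr, if_pos h2, norm_zero]
          linarith
        · simp only [Ecorr, if_neg h2]
          have hmem := away_mem hS hx' (by linarith) h2
          have hKmem := hKm _ (hb01 t' ht' x' hx') _ hmem
          rcases le_total t' (1 / 2) with ht2 | ht2
          · have ha : a (t', x') = x' v := by
              simp only [a]
              rw [min_eq_left (by linarith), mul_one]
            rw [ha, norm_smul, Real.norm_eq_abs, abs_of_nonneg (by linarith)]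
            refine mul_le_of_le_one_right (by linarith) ?_
            exact norm_sub_le hKmem hu0
          · have hb : b (t', x') = 1 := by
              simp only [b]
              rw [min_eq_left (by linarith), min_eq_left (by linarith), mul_one]
            rw [hb, hK1 _ hmem, sub_self, smul_zero, norm_zero]
            linarith
      have hrest : ContinuousWithinAt (fun p : ℝ × (V → ℝ) =>
          a p • (Pi.single v 1 : V → ℝ) + (1 - a p) • (u0 : V → ℝ))
          (Icc (0 : ℝ) 1 ×ˢ sp S) (t, x) := by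
        apply Continuous.continuousWithinAt
        fun_prop
      exact hrest.add hcont
    · -- away from the vertex
      apply ContinuousAt.continuousWithinAt
      have hev : (fun p : ℝ × (V → ℝ) => a p • (Pi.single v 1 : V → ℝ) +
          (1 - a p) • K (b p, away v p.2)) =ᶠ[𝓝 (t, x)] H := by
        have hc : Continuous fun p : ℝ × (V → ℝ) => p.2 v := by fun_prop
        have : {p : ℝ × (V → ℝ) | p.2 v ≠ 1} ∈ 𝓝 (t, x) :=
          (isOpen_ne_fun hc continuous_const).mem_nhds h1
        filter_upwards [this] with p hp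
        exact (hH1 p hp).symm
      refine ContinuousAt.congr ?_ hev
      have haw : ContinuousAt (fun p : ℝ × (V → ℝ) => away v p.2) (t, x) := by
        unfold away
        have h3 : (1 - x v) ≠ 0 := sub_ne_zero.2 (Ne.symm h1)
        have h5 : ContinuousAt (fun p : ℝ × (V → ℝ) => (1 - p.2 v)) (t, x) := by fun_prop
        have h6 : ContinuousAt (fun p : ℝ × (V → ℝ) => Function.update p.2 v (0 : ℝ)) (t, x) := by
          apply Continuous.continuousAt
          fun_prop
        exact (h5.inv₀ h3).smul h6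
      have hb' : ContinuousAt b (t, x) := hbc.continuousAt
      have ha' : ContinuousAt a (t, x) := hac.continuousAt
      have h4 : ContinuousAt (fun p : ℝ × (V → ℝ) => K (b p, away v p.2)) (t, x) :=
        hKc.continuousAt.comp (f := fun p : ℝ × (V → ℝ) => (b p, away v p.2)) (hb'.prodMk haw)
      exact (ha'.smul continuousAt_const).add ((continuousAt_const.sub ha').smul h4)
  · intro t ht x hx
    by_cases h : x v = 0
    · rw [hHfix t ht x hx h]
      exact hx
    · obtain ⟨u, hu, he⟩ := hHjoin t ht x hx h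
      rw [he]
      obtain ⟨h2, h3⟩ := ha01 t ht x hx
      exact join_mem hu h2 (h3.trans (sp_le_one hx v))
  · intro x hx
    by_cases h1 : x v = 1
    · rw [hH2 (0, x) h1]
      have ha : a (0, x) = 1 := by simp [a, h1]
      rw [ha, eq_single hx h1]
      simp
    · rw [hH1 (0, x) h1]
      have ha : a (0, x) = x v := by simp [a]
      have hb : b (0, x) = 0 := by simp [b]
      rw [ha, hb, hK0]
      exact away_spec h1
  · intro x hx
    have h1' : (1 : ℝ) ∈ Icc (0 : ℝ) 1 := ⟨zero_le_one, le_rfl⟩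
    by_cases h : x v = 0
    · rw [hHfix 1 h1' x hx h]
      exact h
    · obtain ⟨u, hu, he⟩ := hHjoin 1 h1' x hx h
      rw [he]
      have ha : a (1, x) = 0 := by simp [a]
      rw [ha]
      simp [link_apply hu]
  · intro t ht x hx
    by_cases h : x v = 0
    · rw [hHfix t ht x hx h]
    · obtain ⟨u, hu, he⟩ := hHjoin t ht x hx h
      rw [he]
      obtain ⟨h2, h3⟩ := ha01 t ht x hx
      simp [link_apply hu, h3]

end Pool.Agent.PolyKnots.BE23

namespace Pool.Agent.PolyKnots

open BE23

theorem contractible_of_apex {V : Type} [Fintype V] [DecidableEq V] (S : Set (Finset V))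
    (hS : DownClosed S) (c : V) (hc : {c} ∈ S) (h : ∀ s ∈ S, insert c s ∈ S) :
    ContractibleSpace (sp S) := by
  have hcm : (Pi.single c 1 : V → ℝ) ∈ sp S := by
    refine ⟨?_, ?_, {c}, hc, ?_⟩
    · intro w
      by_cases hw : w = c
      · subst hw
        simp
      · simp [hw]
    · simp
    · intro w hw
      rw [Finset.mem_singleton] at hw
      simp [hw]
  refine StarConvex.contractibleSpace (x := (Pi.single c 1 : V → ℝ)) ?_ ⟨_, hcm⟩
  intro y hy a b ha hb hab
  refine ⟨?_, ?_, ?_⟩
  · intro w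
    have h1 := hcm.1 w
    have h2 := hy.1 w
    simp only [Pi.add_apply, Pi.smul_apply, smul_eq_mul]
    positivity
  · simp only [Pi.add_apply, Pi.smul_apply, smul_eq_mul]
    rw [Finset.sum_add_distrib, ← Finset.mul_sum, ← Finset.mul_sum, hy.2.1, hcm.2.1]
    linarith
  · obtain ⟨s, hs, hs'⟩ := hy.2.2
    refine ⟨insert c s, h s hs, ?_⟩
    intro w hw
    rw [Finset.mem_insert, not_or] at hw
    simp [hs' w hw.2, hw.1]

theorem contractible_of_del {V : Type} [Fintype V] [DecidableEq V] (S : Set (Finset V))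
    (hS : DownClosed S) (v : V) (hl : ContractibleSpace (sp (linkF S v)))
    (hd : ContractibleSpace (sp (fullSub S fun w => w ≠ v))) : ContractibleSpace (sp S) := by
  obtain ⟨H, h1, h2, h3, h4, h5, h6⟩ := star_deform S hS v hl
  refine contractible_of_deform (X := sp S) (Y := sp (fullSub S fun w => w ≠ v)) ?_ hd H h1 h3 h2 ?_
  · rintro x ⟨hx1, hx2, s, hs, hx3⟩
    exact ⟨hx1, hx2, s, hs.1, hx3⟩
  · intro x hx
    obtain ⟨hy1, hy2, s, hs, hy3⟩ := h2 1 ⟨zero_le_one, le_rfl⟩ x hx
    have hz : ∀ w, w ∉ s.erase v → H (1, x) w = 0 := by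
      intro w hw
      by_cases hwv : w = v
      · subst hwv
        exact h4 x hx
      · exact hy3 w fun hws => hw (Finset.mem_erase.2 ⟨hwv, hws⟩)
    have hne : (s.erase v).Nonempty := by
      by_contra hne
      rw [Finset.not_nonempty_iff_eq_empty] at hne
      rw [hne] at hz
      have : ∑ w, H (1, x) w = 0 := Finset.sum_eq_zero fun w _ => hz w (Finset.notMem_empty w)
      rw [hy2] at this
      exact one_ne_zero this
    refine ⟨hy1, hy2, s.erase v, ⟨hS.2 s hs _ (Finset.erase_subset v s) hne, ?_⟩, hz⟩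
    intro w hw
    exact (Finset.mem_erase.1 hw).1

/-- simplicial retract -/
theorem contractible_of_retract {V : Type} [Fintype V] [DecidableEq V] (S : Set (Finset V))
    (hS : DownClosed S) (p : V → Prop) (r : V → V) (hr : ∀ v, p v → r v = v)
    (hrS : ∀ s ∈ S, s.image r ∈ fullSub S p) (hc : ContractibleSpace (sp S)) :
    ContractibleSpace (sp (fullSub S p)) := by
  have hsub : sp (fullSub S p) ⊆ sp S := by
    rintro x ⟨hx1, hx2, s, hs, hx3⟩
    exact ⟨hx1, hx2, s, hs.1, hx3⟩
  let R : (V → ℝ) → (V → ℝ) := fun x w => ∑ v, if r v = w then x v else 0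
  have hRc : Continuous R := by
    refine continuous_pi fun w => ?_
    refine continuous_finsetSum _ fun v _ => ?_
    by_cases h : r v = w
    · simp only [if_pos h]
      fun_prop
    · simp only [if_neg h]
      fun_prop
  have hR : ∀ x ∈ sp S, R x ∈ sp (fullSub S p) := by
    rintro x ⟨hx1, hx2, s, hs, hx3⟩
    refine ⟨?_, ?_, s.image r, hrS s hs, ?_⟩
    · intro w
      refine Finset.sum_nonneg fun v _ => ?_
      split_ifs
      · exact hx1 v
      · exact le_rfl
    · simp only [R]
      rw [Finset.sum_comm]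
      simp only [Finset.sum_ite_eq, Finset.mem_univ, if_true]
      exact hx2
    · intro w hw
      refine Finset.sum_eq_zero fun v _ => ?_
      split_ifs with h
      · exact hx3 v fun hv => hw (Finset.mem_image.2 ⟨v, hv, h⟩)
      · rfl
  have hRid : ∀ x ∈ sp (fullSub S p), R x = x := by
    rintro x ⟨hx1, hx2, s, hs, hx3⟩
    funext w
    simp only [R]
    have : ∀ v, (if r v = w then x v else 0) = if v = w then x v else 0 := by
      intro v
      by_cases hv : v ∈ s
      · rw [hr v (hs.2 v hv)]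
      · rw [hx3 v hv]
        simp
    rw [Finset.sum_congr rfl fun v _ => this v]
    simp
  refine contractible_of_comp (X := sp S) (Y := sp (fullSub S p))
    ⟨fun y => ⟨y.1, hsub y.2⟩, by fun_prop⟩
    ⟨fun x => ⟨R x.1, hR x.1 x.2⟩, (hRc.comp continuous_subtype_val).subtype_mk _⟩ ?_
  intro y
  exact Subtype.ext (hRid y.1 y.2)

/-- injective simplicial maps that are bijections on simplices -/
theorem contractible_of_iso {V W : Type} [Fintype V] [Fintype W] [DecidableEq V] [DecidableEq W]
    (S : Set (Finset V)) (T : Set (Finset W)) (f : V → W)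
    (hf : ∀ s ∈ S, InjOn f (s : Set V)) (hinj : ∀ s ∈ S, ∀ t ∈ S, ∀ v ∈ s, ∀ w ∈ t, f v = f w → v = w)
    (hT : T = (fun s => s.image f) '' S) (hc : ContractibleSpace (sp S)) :
    ContractibleSpace (sp T) := by
  classical
  let R : (V → ℝ) → (W → ℝ) := fun x w => ∑ v, if f v = w then x v else 0
  let J : (W → ℝ) → (V → ℝ) := fun y v => if (∃ s ∈ S, v ∈ s) then y (f v) else 0
  have hRc : Continuous R := by
    refine continuous_pi fun w => ?_
    refine continuous_finsetSum _ fun v _ => ?_
    by_cases h : f v = w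
    · simp only [if_pos h]
      fun_prop
    · simp only [if_neg h]
      fun_prop
  have hJc : Continuous J := by
    refine continuous_pi fun v => ?_
    simp only [J]
    split_ifs
    · fun_prop
    · fun_prop
  have hR : ∀ x ∈ sp S, R x ∈ sp T := by
    rintro x ⟨hx1, hx2, s, hs, hx3⟩
    refine ⟨?_, ?_, s.image f, hT ▸ ⟨s, hs, rfl⟩, ?_⟩
    · intro w
      refine Finset.sum_nonneg fun v _ => ?_
      split_ifs
      · exact hx1 v
      · exact le_rfl
    · simp only [R]
      rw [Finset.sum_comm]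
      simp only [Finset.sum_ite_eq, Finset.mem_univ, if_true]
      exact hx2
    · intro w hw
      refine Finset.sum_eq_zero fun v _ => ?_
      split_ifs with h
      · exact hx3 v fun hv => hw (Finset.mem_image.2 ⟨v, hv, h⟩)
      · rfl
  -- `R` is a left inverse of `J` on `sp T`
  have hRJ : ∀ y ∈ sp T, R (J y) = y := by
    rintro y ⟨hy1, hy2, t, ht, hy3⟩
    rw [hT] at ht
    obtain ⟨s, hs, hst⟩ := ht
    funext w
    simp only [R, J]
    by_cases hw : w ∈ t
    · have hw' : w ∈ s.image f := by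
        rw [← hst] at hw
        exact hw
      obtain ⟨v, hv, hvw⟩ := Finset.mem_image.1 hw'
      rw [Finset.sum_eq_single v]
      · rw [if_pos hvw, if_pos ⟨s, hs, hv⟩, hvw]
      · intro v' _ hv'
        by_cases h1 : f v' = w
        · rw [if_pos h1]
          rw [if_neg]
          rintro ⟨s', hs', hv''⟩
          exact hv' (hinj s' hs' s hs v' hv'' v hv (h1.trans hvw.symm))
        · rw [if_neg h1]
      · intro h
        exact absurd (Finset.mem_univ v) h
    · rw [hy3 w hw]
      refine Finset.sum_eq_zero fun v _ => ?_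
      split_ifs with h1 h2
      · rw [h1]
        exact hy3 w hw
      · rfl
      · rfl
  have hJ : ∀ y ∈ sp T, J y ∈ sp S := by
    intro y hy
    have hsum : ∑ v, J y v = 1 := by
      have h1 : ∑ w, R (J y) w = ∑ v, J y v := by
        simp only [R]
        rw [Finset.sum_comm]
        simp only [Finset.sum_ite_eq, Finset.mem_univ, if_true]
      rw [← h1, hRJ y hy]
      exact hy.2.1
    obtain ⟨hy1, hy2, t, ht, hy3⟩ := hy
    rw [hT] at ht
    obtain ⟨s, hs, hst⟩ := ht
    refine ⟨?_, hsum, s, hs, ?_⟩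
    · intro v
      simp only [J]
      split_ifs
      · exact hy1 _
      · exact le_rfl
    · intro v hv
      simp only [J]
      split_ifs with h
      · obtain ⟨s', hs', hv'⟩ := h
        refine hy3 _ fun hvt => hv ?_
        have hvt' : f v ∈ s.image f := by
          rw [← hst] at hvt
          exact hvt
        obtain ⟨v', hv'', he⟩ := Finset.mem_image.1 hvt'
        rw [← hinj s hs s' hs' v' hv'' v hv' he]
        exact hv''
      · rfl
  refine contractible_of_comp (X := sp S) (Y := sp T)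
    ⟨fun y => ⟨J y.1, hJ y.1 y.2⟩, (hJc.comp continuous_subtype_val).subtype_mk _⟩
    ⟨fun x => ⟨R x.1, hR x.1 x.2⟩, (hRc.comp continuous_subtype_val).subtype_mk _⟩ ?_
  intro y
  exact Subtype.ext (hRJ y.1 y.2)

end Pool.Agent.PolyKnots
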