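import Pool.Agent.W_MP_be6f00_gt.Defs

set_option autoImplicit false

/-!
# Relative singular homology: basic facts

Homotopy invariance and the exact sequence of a pair for `relHomology`, `totDim`.
-/

open CategoryTheory AlgebraicTopology Set
open scoped ENNReal

namespace Pool.Agent.PolyKnots

namespace BE17

variable (F : Type) [Field F]

/-- The singular chain complex functor with coefficients `F`. -/
noncomputable abbrev SC : TopCat.{0} ⥤ ChainComplex (ModuleCat.{0} F) ℕ :=
  (singularChainComplexFunctor (ModuleCat.{0} F)).obj (ModuleCat.of F F)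

/-- The inclusion of a subset. -/
abbrev incl (X : Type) [TopologicalSpace X] (A : Set X) : TopCat.of A ⟶ TopCat.of X :=
  TopCat.ofHom ⟨Subtype.val, continuous_subtype_val⟩

instance incl_mono (X : Type) [TopologicalSpace X] (A : Set X) : Mono (incl X A) := by
  rw [TopCat.mono_iff_injective]
  exact Subtype.val_injective

instance SC_mono (X : Type) [TopologicalSpace X] (A : Set X) : Mono ((SC F).map (incl X A)) :=
  inferInstance

/-- The short complex of a pair. -/
noncomputable abbrev relSC (X : Type) [TopologicalSpace X] (A : Set X) :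
    ShortComplex (ChainComplex (ModuleCat.{0} F) ℕ) :=
  ShortComplex.mk ((SC F).map (incl X A)) (Limits.cokernel.π ((SC F).map (incl X A)))
    (Limits.cokernel.condition _)

theorem relSC_exact (X : Type) [TopologicalSpace X] (A : Set X) : (relSC F X A).ShortExact where
  exact := ShortComplex.exact_cokernel _
  mono_f := SC_mono F X A
  epi_g := inferInstance

/-- A map homotopic to the identity induces the identity in homology, etc.: a homotopy
equivalence of spaces induces a quasi-isomorphism. -/
theorem SC_quasiIso {X Y : TopCat.{0}} (f : X ⟶ Y) (g : Y ⟶ X)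
    (h1 : (g.hom.comp f.hom).Homotopic (ContinuousMap.id X))
    (h2 : (f.hom.comp g.hom).Homotopic (ContinuousMap.id Y)) : QuasiIso ((SC F).map f) := by
  rw [quasiIso_iff]
  intro i
  rw [quasiIsoAt_iff_isIso_homologyMap]
  obtain ⟨H1⟩ := h1
  obtain ⟨H2⟩ := h2
  have e1 := TopCat.Homotopy.congr_homologyMap_singularChainComplexFunctor
    (X := X) (Y := X) (f := f ≫ g) (g := 𝟙 X) H1 (ModuleCat.of F F) i
  have e2 := TopCat.Homotopy.congr_homologyMap_singularChainComplexFunctor
    (X := Y) (Y := Y) (f := g ≫ f) (g := 𝟙 Y) H2 (ModuleCat.of F F) i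
  refine ⟨HomologicalComplex.homologyMap ((SC F).map g) i, ?_, ?_⟩
  · rw [← HomologicalComplex.homologyMap_comp, ← Functor.map_comp, e1]
    simp
  · rw [← HomologicalComplex.homologyMap_comp, ← Functor.map_comp, e2]
    simp

/-- The map of short complexes induced by a map of pairs. -/
noncomputable def relMap {X Y : Type} [TopologicalSpace X] [TopologicalSpace Y] (A : Set X)
    (B : Set Y) (f : TopCat.of X ⟶ TopCat.of Y) (g : TopCat.of A ⟶ TopCat.of B)
    (h : incl X A ≫ f = g ≫ incl Y B) : relSC F X A ⟶ relSC F Y B where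
  τ₁ := (SC F).map g
  τ₂ := (SC F).map f
  τ₃ := Limits.cokernel.map _ _ ((SC F).map g) ((SC F).map f) (by
    rw [← Functor.map_comp, ← Functor.map_comp, h])
  comm₁₂ := by
    change (SC F).map g ≫ (SC F).map (incl Y B) = (SC F).map (incl X A) ≫ (SC F).map f
    rw [← Functor.map_comp, ← Functor.map_comp, h]
  comm₂₃ := by simp

/-- `dim H_i(X; F)`. -/
noncomputable def hDim (X : Type) [TopologicalSpace X] (i : ℕ) : ℝ≥0∞ :=
  ((Cardinal.toENat (Module.rank F (((SC F).obj (TopCat.of X)).homology i)) : ℕ∞) : ℝ≥0∞)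

theorem dim_iso {M N : ModuleCat.{0} F} (e : M ≅ N) :
    ((Cardinal.toENat (Module.rank F M) : ℕ∞) : ℝ≥0∞) =
      ((Cardinal.toENat (Module.rank F N) : ℕ∞) : ℝ≥0∞) := by
  rw [e.toLinearEquiv.rank_eq]

theorem dim_mono {M N : ModuleCat.{0} F} (f : M ⟶ N) [Mono f] :
    ((Cardinal.toENat (Module.rank F M) : ℕ∞) : ℝ≥0∞) ≤
      ((Cardinal.toENat (Module.rank F N) : ℕ∞) : ℝ≥0∞) := by
  have h := LinearMap.rank_le_of_injective f.hom ((ModuleCat.mono_iff_injective f).1 inferInstance)
  exact_mod_cast (Cardinal.toENat.monotone' h)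

theorem dim_epi {M N : ModuleCat.{0} F} (f : M ⟶ N) [Epi f] :
    ((Cardinal.toENat (Module.rank F N) : ℕ∞) : ℝ≥0∞) ≤
      ((Cardinal.toENat (Module.rank F M) : ℕ∞) : ℝ≥0∞) := by
  have h := LinearMap.rank_le_of_surjective f.hom ((ModuleCat.epi_iff_surjective f).1 inferInstance)
  exact_mod_cast (Cardinal.toENat.monotone' h)

theorem dim_zero {M : ModuleCat.{0} F} (h : Limits.IsZero M) :
    ((Cardinal.toENat (Module.rank F M) : ℕ∞) : ℝ≥0∞) = 0 := by
  have : Subsingleton M := ModuleCat.subsingleton_of_isZero h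
  simp

theorem dim_exact {S : ShortComplex (ModuleCat.{0} F)} (hS : S.Exact) :
    ((Cardinal.toENat (Module.rank F S.X₂) : ℕ∞) : ℝ≥0∞) ≤
      ((Cardinal.toENat (Module.rank F S.X₁) : ℕ∞) : ℝ≥0∞) +
      ((Cardinal.toENat (Module.rank F S.X₃) : ℕ∞) : ℝ≥0∞) := by
  have h1 := S.g.hom.rank_range_add_rank_ker
  have h2 : Module.rank F (LinearMap.range S.g.hom) ≤ Module.rank F S.X₃ :=
    Submodule.rank_le _
  have h3 : Module.rank F (LinearMap.ker S.g.hom) ≤ Module.rank F S.X₁ := by
    rw [← (ShortComplex.moduleCat_exact_iff_range_eq_ker S).1 hS]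
    exact rank_range_le _
  have h4 : Module.rank F S.X₂ ≤ Module.rank F S.X₁ + Module.rank F S.X₃ := by
    rw [← h1, add_comm]
    exact add_le_add h3 h2
  have h5 : Cardinal.toENat (Module.rank F S.X₂) ≤
      Cardinal.toENat (Module.rank F S.X₁ + Module.rank F S.X₃) := Cardinal.toENat.monotone' h4
  rw [map_add] at h5
  exact_mod_cast h5

theorem relHomology_eq (X : Type) [TopologicalSpace X] (A : Set X) (i : ℕ) :
    relHomology F X A i = (relSC F X A).X₃.homology i := rfl

theorem relDim_def (X : Type) [TopologicalSpace X] (A : Set X) (i : ℕ) :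
    relDim F X A i =
      ((Cardinal.toENat (Module.rank F ((relSC F X A).X₃.homology i)) : ℕ∞) : ℝ≥0∞) := rfl

theorem hDim_def₁ (X : Type) [TopologicalSpace X] (A : Set X) (i : ℕ) :
    hDim F A i =
      ((Cardinal.toENat (Module.rank F ((relSC F X A).X₁.homology i)) : ℕ∞) : ℝ≥0∞) := rfl

theorem hDim_def₂ (X : Type) [TopologicalSpace X] (A : Set X) (i : ℕ) :
    hDim F X i =
      ((Cardinal.toENat (Module.rank F ((relSC F X A).X₂.homology i)) : ℕ∞) : ℝ≥0∞) := rfl

/-- Two pairs compared by a map that induces quasi-isomorphisms on the spaces. -/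
theorem relDim_eq_of_quasiIso {X Y : Type} [TopologicalSpace X] [TopologicalSpace Y] (A : Set X)
    (B : Set Y) (f : TopCat.of X ⟶ TopCat.of Y) (g : TopCat.of A ⟶ TopCat.of B)
    (h : incl X A ≫ f = g ≫ incl Y B) (hf : QuasiIso ((SC F).map f))
    (hg : QuasiIso ((SC F).map g)) (i : ℕ) : relDim F X A i = relDim F Y B i := by
  have hq : QuasiIso (relMap F A B f g h).τ₃ :=
    HomologicalComplex.HomologySequence.quasiIso_τ₃ (relMap F A B f g h) (relSC_exact F X A)
      (relSC_exact F Y B) hg hf
  have hi : IsIso (HomologicalComplex.homologyMap (relMap F A B f g h).τ₃ i) := by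
    rw [← quasiIsoAt_iff_isIso_homologyMap]
    exact hq.quasiIsoAt i
  rw [relDim_def, relDim_def]
  exact dim_iso F (@asIso _ _ _ _ (HomologicalComplex.homologyMap (relMap F A B f g h).τ₃ i) hi)

/-- The exact sequence `H_{i+1}(X) → H_{i+1}(X, A) → H_i(A)`. -/
theorem relDim_succ_le (X : Type) [TopologicalSpace X] (A : Set X) (i : ℕ) :
    relDim F X A (i + 1) ≤ hDim F X (i + 1) + hDim F A i :=
  dim_exact F ((relSC_exact F X A).homology_exact₃ (i + 1) i (by simp))

theorem relDim_zero_le (X : Type) [TopologicalSpace X] (A : Set X) :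
    relDim F X A 0 ≤ hDim F X 0 := by
  have : Epi (HomologicalComplex.homologyMap (relSC F X A).g 0) := by
    apply HomologicalComplex.epi_homologyMap_of_epi_of_not_rel
    simp
  rw [relDim_def, hDim_def₂ F X A]
  exact dim_epi F (HomologicalComplex.homologyMap (relSC F X A).g 0)

theorem isZero_empty (X : Type) [TopologicalSpace X] [IsEmpty X] (i : ℕ) :
    Limits.IsZero (((SC F).obj (TopCat.of X)).homology i) := by
  rcases Nat.eq_zero_or_pos i with rfl | hi
  · have e := singularHomologyFunctorZeroOfTotallyDisconnectedSpace (ModuleCat.{0} F)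
      (ModuleCat.of F F) (TopCat.of X)
    refine Limits.IsZero.of_iso ?_ e
    have hE : IsEmpty (TopCat.of X) := inferInstanceAs (IsEmpty X)
    rw [Limits.IsZero.iff_id_eq_zero]
    apply Limits.Sigma.hom_ext
    intro b
    exact hE.elim b
  · exact isZero_singularHomologyFunctor_of_totallyDisconnectedSpace (ModuleCat.{0} F) i
      (ModuleCat.of F F) (TopCat.of X) hi.ne'

theorem relDim_empty (X : Type) [TopologicalSpace X] (i : ℕ) :
    relDim F X ∅ i = hDim F X i := by
  have hz := isZero_empty F (∅ : Set X)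
  have hmono : Mono (HomologicalComplex.homologyMap (relSC F X ∅).g i) := by
    have h := (relSC_exact F X ∅).homology_exact₂ i
    exact h.mono_g ((hz i).eq_of_src _ _)
  have hepi : Epi (HomologicalComplex.homologyMap (relSC F X ∅).g i) := by
    rcases i with _ | i
    · apply HomologicalComplex.epi_homologyMap_of_epi_of_not_rel
      simp
    · have h := (relSC_exact F X ∅).homology_exact₃ (i + 1) i (by simp)
      exact h.epi_f ((hz i).eq_of_tgt _ _)
  rw [relDim_def, hDim_def₂ F X ∅]
  refine le_antisymm ?_ ?_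
  · exact dim_epi F (HomologicalComplex.homologyMap (relSC F X ∅).g i)
  · exact dim_mono F (HomologicalComplex.homologyMap (relSC F X ∅).g i)

theorem hDim_unit_zero : hDim F Unit 0 = 1 := by
  have e := singularHomologyFunctorZeroOfTotallyDisconnectedSpace (ModuleCat.{0} F)
      (ModuleCat.of F F) (TopCat.of Unit)
  have hU : Unique (TopCat.of Unit) := inferInstanceAs (Unique Unit)
  have e2 : (∐ fun _ : (TopCat.of Unit) => ModuleCat.of F F) ≅ ModuleCat.of F F :=
    Limits.coproductUniqueIso _
  refine (dim_iso F (e ≪≫ e2)).trans ?_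
  simp

theorem hDim_unit_succ (i : ℕ) (hi : i ≠ 0) : hDim F Unit i = 0 :=
  dim_zero F (isZero_singularHomologyFunctor_of_totallyDisconnectedSpace (ModuleCat.{0} F) i
      (ModuleCat.of F F) (TopCat.of Unit) hi)

theorem hDim_eq_of_quasiIso {X Y : Type} [TopologicalSpace X] [TopologicalSpace Y]
    (f : TopCat.of X ⟶ TopCat.of Y) (hf : QuasiIso ((SC F).map f)) (i : ℕ) :
    hDim F X i = hDim F Y i := by
  have hi : IsIso (HomologicalComplex.homologyMap ((SC F).map f) i) := by
    rw [← quasiIsoAt_iff_isIso_homologyMap]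
    exact hf.quasiIsoAt i
  exact dim_iso F (@asIso _ _ _ _ (HomologicalComplex.homologyMap ((SC F).map f) i) hi)

theorem totDim_empty_eq (X : Type) [TopologicalSpace X] :
    totDim F X ∅ = ∑' i, hDim F X i :=
  tsum_congr fun i => relDim_empty F X i

theorem quasiIso_of_equiv {X Y : Type} [TopologicalSpace X] [TopologicalSpace Y]
    (e : ContinuousMap.HomotopyEquiv X Y) :
    QuasiIso ((SC F).map (TopCat.ofHom e.toFun : TopCat.of X ⟶ TopCat.of Y)) :=
  SC_quasiIso F (X := TopCat.of X) (Y := TopCat.of Y) (TopCat.ofHom e.toFun)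
    (TopCat.ofHom e.invFun) e.left_inv e.right_inv

end BE17

open BE17

section BE17
variable (F : Type) [Field F]

/-- Pairs: `f : (X, A) → (Y, B)` with `f` and `f|A` homotopy equivalences. -/
theorem totDim_pair {X Y : Type} [TopologicalSpace X] [TopologicalSpace Y] (A : Set X) (B : Set Y)
    (e : ContinuousMap.HomotopyEquiv X Y) (e' : ContinuousMap.HomotopyEquiv A B)
    (h : ∀ a : A, (e' a : Y) = e a) : totDim F X A = totDim F Y B := by
  refine tsum_congr fun i => ?_
  refine relDim_eq_of_quasiIso F A B (TopCat.ofHom e.toFun) (TopCat.ofHom e'.toFun) ?_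
    (quasiIso_of_equiv F e) (quasiIso_of_equiv F e') i
  ext a
  exact (h a).symm

theorem totDim_congr {X Y : Type} [TopologicalSpace X] [TopologicalSpace Y] (e : X ≃ₜ Y)
    (A : Set X) (B : Set Y) (h : e '' A = B) : totDim F X A = totDim F Y B := by
  subst h
  exact totDim_pair F A (e '' A) e.toHomotopyEquiv (e.image A).toHomotopyEquiv fun a => rfl

theorem totDim_homotopyEquiv {X Y : Type} [TopologicalSpace X] [TopologicalSpace Y]
    (e : ContinuousMap.HomotopyEquiv X Y) : totDim F X ∅ = totDim F Y ∅ := by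
  rw [totDim_empty_eq, totDim_empty_eq]
  exact tsum_congr fun i => hDim_eq_of_quasiIso F _ (quasiIso_of_equiv F e) i

theorem totDim_contractible {X : Type} [TopologicalSpace X] [ContractibleSpace X] :
    totDim F X ∅ ≤ 1 := by
  obtain ⟨e⟩ := ContractibleSpace.hequiv_unit X
  rw [totDim_homotopyEquiv F e, totDim_empty_eq, tsum_eq_single 0 (hDim_unit_succ F),
    hDim_unit_zero]

theorem totDim_le_add {X : Type} [TopologicalSpace X] (A : Set X) :
    totDim F X A ≤ totDim F X ∅ + totDim F A ∅ := by
  rw [totDim_empty_eq, totDim_empty_eq]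
  have h1 : ∀ i, relDim F X A i ≤ hDim F X i + (match i with | 0 => 0 | j + 1 => hDim F A j) := by
    intro i
    rcases i with _ | i
    · simpa using relDim_zero_le F X A
    · exact relDim_succ_le F X A i
  refine (ENNReal.tsum_le_tsum h1).trans ?_
  rw [ENNReal.tsum_add]
  refine add_le_add le_rfl (le_of_eq ?_)
  rw [tsum_eq_zero_add' ENNReal.summable]
  simp

/-- If `X` deforms into `A`, with `A` staying in `A`, then `H(X, A) = 0`. -/
theorem totDim_eq_zero {X : Type} [TopologicalSpace X] (A : Set X) (H : ℝ × X → X)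
    (hH : ContinuousOn H (Icc (0 : ℝ) 1 ×ˢ univ)) (h0 : ∀ x, H (0, x) = x) (h1 : ∀ x, H (1, x) ∈ A)
    (hA : ∀ s ∈ Icc (0 : ℝ) 1, ∀ x ∈ A, H (s, x) ∈ A) : totDim F X A = 0 := by
  have hHI : Continuous fun p : unitInterval × X => H (p.1, p.2) := by
    refine hH.comp_continuous (by fun_prop) fun p => ⟨p.1.2, mem_univ _⟩
  have h1c : Continuous fun x : X => H (1, x) :=
    hHI.comp (by fun_prop : Continuous fun x : X => ((1 : unitInterval), x))
  let r : C(X, A) := ⟨fun x => ⟨H (1, x), h1 x⟩, h1c.subtype_mk _⟩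
  let j : C(A, X) := ⟨Subtype.val, continuous_subtype_val⟩
  have hq : QuasiIso ((SC F).map (incl X A)) := by
    refine SC_quasiIso F (X := TopCat.of A) (Y := TopCat.of X) (incl X A) (TopCat.ofHom r) ?_ ?_
    · change (r.comp j).Homotopic (ContinuousMap.id A)
      refine ContinuousMap.Homotopic.symm ⟨⟨⟨fun p => ⟨H (p.1, p.2), hA _ p.1.2 _ p.2.2⟩, ?_⟩,
        ?_, ?_⟩⟩
      · exact Continuous.subtype_mk (hHI.comp (by fun_prop :
          Continuous fun p : unitInterval × A => (p.1, (p.2 : X)))) _
      · intro x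
        exact Subtype.ext (h0 x)
      · intro x
        rfl
    · change (j.comp r).Homotopic (ContinuousMap.id X)
      refine ContinuousMap.Homotopic.symm ⟨⟨⟨fun p => H (p.1, p.2), hHI⟩, ?_, ?_⟩⟩
      · intro x
        exact h0 x
      · intro x
        rfl
  have hac := (relSC_exact F X A).acyclic_X₃ hq
  have hz : ∀ i, relDim F X A i = 0 := by
    intro i
    exact dim_zero F ((HomologicalComplex.exactAt_iff_isZero_homology _ _).1 (hac i))
  change ∑' i, relDim F X A i = 0
  simp [hz]
end BE17

end Pool.Agent.PolyKnots
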