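import Pool.Agent.W_MP_be6f00_gt.Model
import Pool.Agent.W_MP_be6f00_gt.HomBasic
import Pool.Agent.W_MP_be6f00_gt.Contr

set_option autoImplicit false
set_option linter.unusedSectionVars false

/-! # BE24: lower links of the book complex; the symmetry `(x, y) ↦ (-x, -y)` -/

open scoped ENNReal Topology
open Set

namespace Pool.Agent.PolyKnots

namespace BE24

section
variable {V : Type} [Fintype V] [DecidableEq V] {K : SComplex V} {t : V → ℤ}

/-- The vertex `w` of the book lies in the cone over `τ` in the quadrant `sx, sy`. -/
def adm (t : V → ℤ) (sx sy : Bool) (τ : Finset V) : BookV t → Prop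
  | Sum.inr q => q = (sx, sy)
  | Sum.inl z => z.1.1 ∈ τ ∧ z.1.2 = if 0 < t z.1.1 then sx else if t z.1.1 < 0 then sy else true

theorem mem_cone (sx sy : Bool) (τ : Finset V) (w : BookV t) :
    w ∈ insert (Sum.inr (sx, sy)) (τ.image (bookLift t sx sy)) ↔ adm t sx sy τ w := by
  rw [Finset.mem_insert, Finset.mem_image]
  rcases w with z | q
  · constructor
    · rintro (h | ⟨a, ha, h⟩)
      · exact absurd h (by simp)
      · unfold bookLift at h
        have h' := Sum.inl.inj h
        subst h'
        exact ⟨ha, rfl⟩
    · rintro ⟨h1, h2⟩
      refine Or.inr ⟨z.1.1, h1, ?_⟩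
      unfold bookLift
      exact congrArg Sum.inl (Subtype.ext (Prod.ext rfl h2.symm))
  · constructor
    · rintro (h | ⟨a, ha, h⟩)
      · exact Sum.inr.inj h
      · unfold bookLift at h
        exact absurd h (by simp)
    · intro h
      exact Or.inl (congrArg Sum.inr h)

theorem mem_book {s : Finset (BookV t)} : s ∈ (book K t).faces ↔ s.Nonempty ∧
    ∃ sx sy : Bool, ∃ τ : Finset V, (τ = ∅ ∨ τ ∈ K.faces) ∧ ∀ w ∈ s, adm t sx sy τ w := by
  constructor
  · rintro ⟨h1, sx, sy, τ, hτ, hs⟩
    exact ⟨h1, sx, sy, τ, hτ, fun w hw => (mem_cone sx sy τ w).1 (hs hw)⟩
  · rintro ⟨h1, sx, sy, τ, hτ, hs⟩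
    exact ⟨h1, sx, sy, τ, hτ, fun w hw => (mem_cone sx sy τ w).2 (hs w hw)⟩

theorem bookLift_inj (sx sy : Bool) {a b : V} (h : bookLift t sx sy a = bookLift t sx sy b) :
    a = b := by
  unfold bookLift at h
  have h' := congrArg (fun z => z.1.1) (Sum.inl.inj h)
  exact h'

theorem adm_lift (sx sy : Bool) (τ : Finset V) {a : V} : adm t sx sy τ (bookLift t sx sy a) ↔ a ∈ τ :=
  ⟨fun h => h.1, fun h => ⟨h, rfl⟩⟩

theorem lowerLink_down (K : SComplex V) (t : V → ℤ) (h : BookV t → ℝ) (v : BookV t) :
    DownClosed (lowerLink (book K t).faces h v) := by
  refine ⟨fun s hs => hs.1, ?_⟩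
  rintro s ⟨_, h2, h3, h4⟩ u hu hne
  refine ⟨hne, fun hv => h2 (hu hv), ?_, fun w hw => h4 w (hu hw)⟩
  exact (book K t).down_closed _ h3 _ (Finset.insert_subset_insert v hu) ⟨v, Finset.mem_insert_self _ _⟩

/-- Apex criterion for lower links. -/
theorem contractible_apex' (h : BookV t → ℝ) (v c : BookV t) (hcv : c ≠ v) (hlt : h c < h v)
    (h1 : insert v {c} ∈ (book K t).faces)
    (h2 : ∀ s, (∀ w ∈ s, h w < h v) → insert v s ∈ (book K t).faces →
      insert v (insert c s) ∈ (book K t).faces) :
    ContractibleSpace (sp (lowerLink (book K t).faces h v)) := by
  refine contractible_of_apex _ (lowerLink_down K t h v) c ?_ ?_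
  · refine ⟨Finset.singleton_nonempty c, ?_, h1, ?_⟩
    · rw [Finset.mem_singleton]; exact fun h => hcv h.symm
    · intro w hw
      rw [Finset.mem_singleton] at hw
      rw [hw]; exact hlt
  · rintro s ⟨_, s2, s3, s4⟩
    refine ⟨⟨c, Finset.mem_insert_self _ _⟩, ?_, h2 s s4 s3, ?_⟩
    · rw [Finset.mem_insert]
      rintro (h | h)
      · exact hcv h.symm
      · exact s2 h
    · intro w hw
      rcases Finset.mem_insert.1 hw with rfl | hw
      · exact hlt
      · exact s4 w hw

/-- Lower links isomorphic to subcomplexes of `K`. -/
theorem contractible_iso' (sx sy : Bool)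
    (S : Set (Finset (BookV t))) (T : Set (Finset V))
    (hS : ∀ u ∈ S, ∀ w ∈ u, ∃ a, w = bookLift t sx sy a)
    (hST : ∀ s : Finset V, s ∈ T ↔ s.image (bookLift t sx sy) ∈ S)
    (hc : ContractibleSpace (sp T)) : ContractibleSpace (sp S) := by
  refine contractible_of_iso T S (bookLift t sx sy) ?_ ?_ ?_ hc
  · intro s _ a _ b _ hab
    exact bookLift_inj sx sy hab
  · intro _ _ _ _ a _ b _ hab
    exact bookLift_inj sx sy hab
  · ext u
    constructor
    · intro hu
      refine ⟨Finset.univ.filter fun a => bookLift t sx sy a ∈ u, ?_, ?_⟩
      · rw [hST]
        have : (Finset.univ.filter fun a => bookLift t sx sy a ∈ u).image (bookLift t sx sy) = u := by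
          ext w
          rw [Finset.mem_image]
          constructor
          · rintro ⟨a, ha, rfl⟩
            exact (Finset.mem_filter.1 ha).2
          · intro hw
            obtain ⟨a, rfl⟩ := hS u hu w hw
            exact ⟨a, Finset.mem_filter.2 ⟨Finset.mem_univ _, hw⟩, rfl⟩
        rw [this]; exact hu
      · ext w
        show w ∈ Finset.image _ _ ↔ _
        rw [Finset.mem_image]
        constructor
        · rintro ⟨a, ha, rfl⟩
          exact (Finset.mem_filter.1 ha).2
        · intro hw
          obtain ⟨a, rfl⟩ := hS u hu w hw
          exact ⟨a, Finset.mem_filter.2 ⟨Finset.mem_univ _, hw⟩, rfl⟩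
    · rintro ⟨s, hs, rfl⟩
      exact (hST s).1 hs

end
end BE24

open BE24

theorem book_lowerLink {V : Type} [Fintype V] [DecidableEq V] (K : SComplex V) (t : V → ℤ)
    (hside : OneSided K.faces t)
    (h1 : ContractibleSpace (sp (fullSub K.faces fun v => 0 ≤ t v)))
    (h2 : ContractibleSpace (sp (fullSub K.faces fun v => t v < 0)))
    (h3 : ∀ v, t v = 0 → ∀ S : Set V,
      ContractibleSpace (sp (fullSub (linkF K.faces v) fun w => t w < 0 ∨ (t w = 0 ∧ w ∈ S))))
    (h : BookV t → ℝ) (hh : BookOrder t h) (v : BookV t) (hv1 : v ≠ Sum.inr (true, true))
    (hv2 : v ≠ Sum.inr (false, false)) :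
    ContractibleSpace (sp (lowerLink (book K t).faces h v)) := by
  have hpp_mp := hh.pp_lt_mp
  have hmp_pm := hh.mp_lt_pm
  have hpm_mm := hh.pm_lt_mm
  rcases v with z | ⟨qx, qy⟩
  · by_cases hz : z.1.2 = true
    · by_cases ht : t z.1.1 = 0
      · -- `t = 0`
        have hmp := hh.mp_lt z ht
        have hpm := hh.lt_pm z ht
        have hpp := hh.pp_lt z
        have hzz : z.1.2 = true := hz
        refine contractible_of_del _ (lowerLink_down K t h _) (Sum.inr (false, true)) ?_ ?_
        · refine contractible_iso' false true _
            (fullSub (linkF K.faces z.1.1) fun w => t w < 0 ∨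
              (t w = 0 ∧ w ∈ {w | h (bookLift t false true w) < h (Sum.inl z)})) ?_ ?_ (h3 _ ht _)
          · rintro u ⟨u1, u2, u3, u4, u5, u6⟩ w hw
            obtain ⟨_, sx, sy, τ, hτ, hs⟩ := mem_book.1 u5
            have hq : (false, true) = (sx, sy) :=
              hs (Sum.inr (false, true)) (Finset.mem_insert_of_mem (Finset.mem_insert_self _ _))
            have hw' := hs w (Finset.mem_insert_of_mem (Finset.mem_insert_of_mem hw))
            rcases w with z' | q
            · refine ⟨z'.1.1, ?_⟩
              obtain ⟨_, hz'⟩ := hw'
              obtain ⟨rfl, rfl⟩ := Prod.mk.inj hq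
              unfold bookLift
              exact congrArg Sum.inl (Subtype.ext (Prod.ext rfl hz'))
            · exact absurd ((show q = (sx, sy) from hw').trans hq.symm) (fun h => u2 (h ▸ hw))
          · intro s
            constructor
            · rintro ⟨⟨s1, s2, s3⟩, s4⟩
              have hsne : z.1.1 ∉ s := s2
              refine ⟨s1.image _, ?_, ⟨⟨_, Finset.mem_insert_self _ _⟩, ?_, ?_, ?_⟩⟩
              · intro hmem
                obtain ⟨a, _, ha⟩ := Finset.mem_image.1 hmem
                unfold bookLift at ha
                exact absurd ha (by simp)
              · rw [Finset.mem_insert]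
                rintro (hmem | hmem)
                · exact absurd hmem (by simp)
                · obtain ⟨a, ha1, ha⟩ := Finset.mem_image.1 hmem
                  unfold bookLift at ha
                  have := congrArg (fun z => z.1.1) (Sum.inl.inj ha)
                  exact s2 ((show a = z.1.1 from this) ▸ ha1)
              · refine mem_book.2 ⟨⟨_, Finset.mem_insert_self _ _⟩, false, true, insert z.1.1 s,
                  Or.inr s3, ?_⟩
                intro w hw
                rcases Finset.mem_insert.1 hw with rfl | hw
                · refine ⟨Finset.mem_insert_self _ _, ?_⟩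
                  rw [if_neg (by omega), if_neg (by omega)]
                  exact hz
                rcases Finset.mem_insert.1 hw with rfl | hw
                · exact rfl
                · obtain ⟨a, ha1, rfl⟩ := Finset.mem_image.1 hw
                  exact (adm_lift _ _ _).2 (Finset.mem_insert_of_mem ha1)
              · intro w hw
                rcases Finset.mem_insert.1 hw with rfl | hw
                · exact hmp
                · obtain ⟨a, ha1, rfl⟩ := Finset.mem_image.1 hw
                  rcases s4 a ha1 with h0 | ⟨_, h0⟩
                  · refine lt_trans ?_ hmp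
                    refine hh.plus_lt _ ?_ ?_
                    · show (if 0 < t a then false else if t a < 0 then true else true) = true
                      rw [if_neg (by omega), if_pos h0]
                    · exact ne_of_lt h0
                  · exact h0
            · rintro ⟨u1, u2, u3, u4, u5, u6⟩
              obtain ⟨_, sx, sy, τ, hτ, hs⟩ := mem_book.1 u5
              have hq : (false, true) = (sx, sy) :=
                hs (Sum.inr (false, true)) (Finset.mem_insert_of_mem (Finset.mem_insert_self _ _))
              obtain ⟨rfl, rfl⟩ := Prod.mk.inj hq
              have hsτ : ∀ a ∈ s, a ∈ τ := fun a ha => (adm_lift _ _ _).1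
                (hs _ (Finset.mem_insert_of_mem (Finset.mem_insert_of_mem
                  (Finset.mem_image_of_mem _ ha))))
              have hzτ : z.1.1 ∈ τ := (hs _ (Finset.mem_insert_self _ _)).1
              have hτK : τ ∈ K.faces := by
                rcases hτ with rfl | hτ
                · simp at hzτ
                · exact hτ
              have hsn : s.Nonempty := by
                obtain ⟨w, hw⟩ := u1
                obtain ⟨a, ha, _⟩ := Finset.mem_image.1 hw
                exact ⟨a, ha⟩
              refine ⟨⟨hsn, ?_, ?_⟩, ?_⟩
              · intro hzs
                refine u4 (Finset.mem_insert_of_mem (Finset.mem_image.2 ⟨z.1.1, hzs, ?_⟩))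
                unfold bookLift
                refine congrArg Sum.inl (Subtype.ext (Prod.ext rfl ?_))
                show (if 0 < t z.1.1 then false else if t z.1.1 < 0 then true else true) = z.1.2
                rw [if_neg (by omega), if_neg (by omega)]
                exact hz.symm
              · refine K.down_closed _ hτK _ ?_ ⟨_, Finset.mem_insert_self _ _⟩
                intro a ha
                rcases Finset.mem_insert.1 ha with rfl | ha
                · exact hzτ
                · exact hsτ a ha
              · intro a ha
                have hlow := u6 (bookLift t false true a)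
                  (Finset.mem_insert_of_mem (Finset.mem_image_of_mem _ ha))
                rcases lt_trichotomy (t a) 0 with h0 | h0 | h0
                · exact Or.inl h0
                · exact Or.inr ⟨h0, hlow⟩
                · exfalso
                  have := hh.pm_lt ⟨(a, if 0 < t a then false else if t a < 0 then true else true), by
                    intro h'; exfalso; have h'' : t a = 0 := h'; omega⟩ (by
                    show (if 0 < t a then false else if t a < 0 then true else true) = false
                    rw [if_pos h0])
                  have h5 : h (Sum.inr (true, false)) < h (bookLift t false true a) := this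
                  linarith
        · refine contractible_of_apex _ ?_ (Sum.inr (true, true)) ?_ ?_
          · have hd := lowerLink_down K t h (Sum.inl z)
            exact ⟨fun s hs => hs.1.1, fun s hs u hu hne =>
              ⟨hd.2 s hs.1 u hu hne, fun w hw => hs.2 w (hu hw)⟩⟩
          · refine ⟨⟨Finset.singleton_nonempty _, by simp, ?_, ?_⟩, ?_⟩
            · refine mem_book.2 ⟨⟨_, Finset.mem_insert_self _ _⟩, true, true, {z.1.1},
                Or.inr (K.vertex _), ?_⟩
              intro w hw
              rcases Finset.mem_insert.1 hw with rfl | hw
              · refine ⟨Finset.mem_singleton_self _, ?_⟩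
                rw [if_neg (by omega), if_neg (by omega)]
                exact hz
              · rw [Finset.mem_singleton] at hw
                subst hw
                exact rfl
            · intro w hw
              rw [Finset.mem_singleton] at hw
              subst hw
              exact hpp
            · intro w hw
              rw [Finset.mem_singleton] at hw
              subst hw
              simp
          · rintro s ⟨⟨s1, s2, s3, s4⟩, s5⟩
            refine ⟨⟨⟨_, Finset.mem_insert_self _ _⟩, ?_, ?_, ?_⟩, ?_⟩
            · rw [Finset.mem_insert]
              rintro (hmem | hmem)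
              · exact absurd hmem (by simp)
              · exact s2 hmem
            · obtain ⟨_, sx, sy, τ, hτ, hs⟩ := mem_book.1 s3
              refine mem_book.2 ⟨⟨_, Finset.mem_insert_self _ _⟩, true, true, τ, hτ, ?_⟩
              intro w hw
              rcases Finset.mem_insert.1 hw with rfl | hw
              · refine ⟨(hs _ (Finset.mem_insert_self _ _)).1, ?_⟩
                rw [if_neg (by omega), if_neg (by omega)]
                exact hz
              rcases Finset.mem_insert.1 hw with rfl | hw
              · exact rfl
              · have hw' := hs w (Finset.mem_insert_of_mem hw)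
                have hlow := s4 w hw
                have hne := s5 w hw
                rcases w with z' | ⟨q1, q2⟩
                · refine ⟨hw'.1, ?_⟩
                  have htr : z'.1.2 = true := by
                    by_contra hcon
                    have := hh.pm_lt z' (by simpa using hcon)
                    linarith
                  rw [htr]
                  split_ifs <;> rfl
                · cases q1 <;> cases q2
                  · exfalso
                    have h5 : h (Sum.inr (false, false)) < h (Sum.inl z) := hlow
                    linarith
                  · exact absurd rfl hne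
                  · exfalso
                    have h5 : h (Sum.inr (true, false)) < h (Sum.inl z) := hlow
                    linarith
                  · exact rfl
            · intro w hw
              rcases Finset.mem_insert.1 hw with rfl | hw
              · exact hpp
              · exact s4 w hw
            · intro w hw
              rcases Finset.mem_insert.1 hw with rfl | hw
              · simp
              · exact s5 w hw
      · -- plus vertices
        have hpl := hh.plus_lt z hz ht
        refine contractible_apex' h (Sum.inl z) (Sum.inr (true, true)) (by simp) (hh.pp_lt z) ?_ ?_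
        · refine mem_book.2 ⟨⟨_, Finset.mem_insert_self _ _⟩, true, true, {z.1.1},
            Or.inr (K.vertex _), ?_⟩
          intro w hw
          rcases Finset.mem_insert.1 hw with rfl | hw
          · refine ⟨Finset.mem_singleton_self _, ?_⟩
            rw [hz]; split_ifs <;> rfl
          · rw [Finset.mem_singleton] at hw
            subst hw
            exact rfl
        · intro s hlow hs
          obtain ⟨_, sx, sy, τ, hτ, hs⟩ := mem_book.1 hs
          refine mem_book.2 ⟨⟨_, Finset.mem_insert_self _ _⟩, true, true, τ, hτ, ?_⟩
          intro w hw
          rcases Finset.mem_insert.1 hw with rfl | hw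
          · refine ⟨(hs _ (Finset.mem_insert_self _ _)).1, ?_⟩
            rw [hz]; split_ifs <;> rfl
          rcases Finset.mem_insert.1 hw with rfl | hw
          · exact rfl
          · have hw' := hs w (Finset.mem_insert_of_mem hw)
            have hlow := hlow w hw
            rcases w with z' | ⟨q1, q2⟩
            · refine ⟨hw'.1, ?_⟩
              have htr : z'.1.2 = true := by
                by_contra hcon
                have := hh.pm_lt z' (by simpa using hcon)
                linarith
              rw [htr]
              split_ifs <;> rfl
            · cases q1 <;> cases q2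
              · exfalso
                have h5 : h (Sum.inr (false, false)) < h (Sum.inl z) := hlow
                linarith
              · exfalso
                have h5 : h (Sum.inr (false, true)) < h (Sum.inl z) := hlow
                linarith
              · exfalso
                have h5 : h (Sum.inr (true, false)) < h (Sum.inl z) := hlow
                linarith
              · exact rfl
    · -- minus vertices
      have hz' : z.1.2 = false := by simpa using hz
      have hpm := hh.pm_lt z hz'
      have hmm := hh.lt_mm z
      have ht : t z.1.1 ≠ 0 := fun h0 => hz (z.2 h0)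
      rcases lt_or_gt_of_ne ht with ht | ht
      · -- `t < 0`: apex `(true, false)`
        refine contractible_apex' h (Sum.inl z) (Sum.inr (true, false)) (by simp) hpm ?_ ?_
        · refine mem_book.2 ⟨⟨_, Finset.mem_insert_self _ _⟩, true, false, {z.1.1},
            Or.inr (K.vertex _), ?_⟩
          intro w hw
          rcases Finset.mem_insert.1 hw with rfl | hw
          · refine ⟨Finset.mem_singleton_self _, ?_⟩
            rw [if_neg (by omega), if_pos ht]
            exact hz'
          · rw [Finset.mem_singleton] at hw
            subst hw
            exact rfl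
        · intro s hlow hs
          obtain ⟨_, sx, sy, τ, hτ, hs⟩ := mem_book.1 hs
          have hv := hs _ (Finset.mem_insert_self _ _)
          have hsy : sy = false := by
            have h5 := hv.2
            rw [if_neg (by omega), if_pos ht, hz'] at h5
            exact h5.symm
          subst hsy
          have hτK : τ ∈ K.faces := by
            rcases hτ with rfl | hτ
            · exact absurd hv.1 (by simp)
            · exact hτ
          have hneg : ∀ a ∈ τ, t a ≤ 0 := by
            rcases hside τ hτK with h5 | h5
            · have := h5 _ hv.1
              omega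
            · exact h5
          refine mem_book.2 ⟨⟨_, Finset.mem_insert_self _ _⟩, true, false, τ, hτ, ?_⟩
          intro w hw
          rcases Finset.mem_insert.1 hw with rfl | hw
          · refine ⟨hv.1, ?_⟩
            rw [if_neg (by omega), if_pos ht]
            exact hz'
          rcases Finset.mem_insert.1 hw with rfl | hw
          · exact rfl
          · have hw' := hs w (Finset.mem_insert_of_mem hw)
            have hlow := hlow w hw
            rcases w with z' | ⟨q1, q2⟩
            · refine ⟨hw'.1, ?_⟩
              have h5 := hw'.2
              have h6 := hneg _ hw'.1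
              rw [if_neg (by omega)] at h5 ⊢
              exact h5
            · have h5 : (q1, q2) = (sx, false) := hw'
              obtain ⟨rfl, rfl⟩ := Prod.mk.inj h5
              cases q1
              · exfalso
                have h5 : h (Sum.inr (false, false)) < h (Sum.inl z) := hlow
                linarith
              · exact rfl
      · -- `t > 0`: apex `(false, true)`
        refine contractible_apex' h (Sum.inl z) (Sum.inr (false, true)) (by simp)
          (lt_trans hmp_pm hpm) ?_ ?_
        · refine mem_book.2 ⟨⟨_, Finset.mem_insert_self _ _⟩, false, true, {z.1.1},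
            Or.inr (K.vertex _), ?_⟩
          intro w hw
          rcases Finset.mem_insert.1 hw with rfl | hw
          · refine ⟨Finset.mem_singleton_self _, ?_⟩
            rw [if_pos ht]
            exact hz'
          · rw [Finset.mem_singleton] at hw
            subst hw
            exact rfl
        · intro s hlow hs
          obtain ⟨_, sx, sy, τ, hτ, hs⟩ := mem_book.1 hs
          have hv := hs _ (Finset.mem_insert_self _ _)
          have hsx : sx = false := by
            have h5 := hv.2
            rw [if_pos ht, hz'] at h5
            exact h5.symm
          subst hsx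
          have hτK : τ ∈ K.faces := by
            rcases hτ with rfl | hτ
            · exact absurd hv.1 (by simp)
            · exact hτ
          have hpos : ∀ a ∈ τ, 0 ≤ t a := by
            rcases hside τ hτK with h5 | h5
            · exact h5
            · have := h5 _ hv.1
              omega
          refine mem_book.2 ⟨⟨_, Finset.mem_insert_self _ _⟩, false, true, τ, hτ, ?_⟩
          intro w hw
          rcases Finset.mem_insert.1 hw with rfl | hw
          · refine ⟨hv.1, ?_⟩
            rw [if_pos ht]
            exact hz'
          rcases Finset.mem_insert.1 hw with rfl | hw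
          · exact rfl
          · have hw' := hs w (Finset.mem_insert_of_mem hw)
            have hlow := hlow w hw
            rcases w with z' | ⟨q1, q2⟩
            · refine ⟨hw'.1, ?_⟩
              have h5 := hw'.2
              have h6 := hpos _ hw'.1
              rw [h5]
              by_cases h7 : 0 < t z'.1.1
              · rw [if_pos h7, if_pos h7]
              · rw [if_neg h7, if_neg h7, if_neg (by omega), if_neg (by omega)]
            · have h5 : (q1, q2) = (false, sy) := hw'
              obtain ⟨rfl, rfl⟩ := Prod.mk.inj h5
              cases q2
              · exfalso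
                have h5 : h (Sum.inr (false, false)) < h (Sum.inl z) := hlow
                linarith
              · exact rfl
  · -- cone points
    have key : ∀ (sx sy : Bool) (p : V → Prop), 
        (∀ a : V, p a → h (bookLift t sx sy a) < h (Sum.inr (sx, sy))) →
        (∀ a : V, h (bookLift t sx sy a) < h (Sum.inr (sx, sy)) → p a) →
        ContractibleSpace (sp (fullSub K.faces p)) →
        ContractibleSpace (sp (lowerLink (book K t).faces h (Sum.inr (sx, sy)))) := by
      intro sx sy p hp1 hp2 hc
      refine contractible_iso' sx sy _ (fullSub K.faces p) ?_ ?_ hc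
      · rintro u ⟨u1, u2, u3, u4⟩ w hw
        obtain ⟨_, sx', sy', τ, hτ, hs⟩ := mem_book.1 u3
        have hq : (sx, sy) = (sx', sy') :=
          hs (Sum.inr (sx, sy)) (Finset.mem_insert_self _ _)
        have hw' := hs w (Finset.mem_insert_of_mem hw)
        rcases w with z' | q
        · refine ⟨z'.1.1, ?_⟩
          obtain ⟨_, hz'⟩ := hw'
          obtain ⟨rfl, rfl⟩ := Prod.mk.inj hq
          unfold bookLift
          exact congrArg Sum.inl (Subtype.ext (Prod.ext rfl hz'))
        · exact absurd ((show q = (sx', sy') from hw').trans hq.symm) (fun h => u2 (h ▸ hw))
      · intro s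
        constructor
        · rintro ⟨s1, s2⟩
          refine ⟨(K.nonempty s s1).image _, ?_, ?_, ?_⟩
          · intro hmem
            obtain ⟨a, _, ha⟩ := Finset.mem_image.1 hmem
            unfold bookLift at ha
            exact absurd ha (by simp)
          · refine mem_book.2 ⟨⟨_, Finset.mem_insert_self _ _⟩, sx, sy, s, Or.inr s1, ?_⟩
            intro w hw
            rcases Finset.mem_insert.1 hw with rfl | hw
            · exact rfl
            · obtain ⟨a, ha1, rfl⟩ := Finset.mem_image.1 hw
              exact (adm_lift _ _ _).2 ha1
          · intro w hw
            obtain ⟨a, ha1, rfl⟩ := Finset.mem_image.1 hw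
            exact hp1 a (s2 a ha1)
        · rintro ⟨u1, u2, u3, u4⟩
          obtain ⟨_, sx', sy', τ, hτ, hs⟩ := mem_book.1 u3
          have hq : (sx, sy) = (sx', sy') :=
            hs (Sum.inr (sx, sy)) (Finset.mem_insert_self _ _)
          obtain ⟨rfl, rfl⟩ := Prod.mk.inj hq
          have hsτ : ∀ a ∈ s, a ∈ τ := fun a ha => (adm_lift _ _ _).1
            (hs _ (Finset.mem_insert_of_mem (Finset.mem_image_of_mem _ ha)))
          have hsn : s.Nonempty := by
            obtain ⟨w, hw⟩ := u1
            obtain ⟨a, ha, _⟩ := Finset.mem_image.1 hw
            exact ⟨a, ha⟩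
          have hτK : τ ∈ K.faces := by
            rcases hτ with rfl | hτ
            · obtain ⟨a, ha⟩ := hsn
              exact absurd (hsτ a ha) (by simp)
            · exact hτ
          exact ⟨K.down_closed _ hτK _ hsτ hsn, fun a ha => hp2 a
            (u4 _ (Finset.mem_image_of_mem _ ha))⟩
    cases qx <;> cases qy
    · exact absurd rfl hv2
    · refine key false true (fun v => t v < 0) ?_ ?_ h2
      · intro a ha
        refine hh.plus_lt _ ?_ (ne_of_lt ha)
        show (if 0 < t a then false else if t a < 0 then true else true) = true
        have ha' : t a < 0 := ha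
        rw [if_neg (by omega), if_pos ha']
      · intro a ha
        by_contra hcon
        have hcon' : ¬ t a < 0 := hcon
        by_cases h0 : t a = 0
        · have := hh.mp_lt ⟨(a, if 0 < t a then false else if t a < 0 then true else true), by
            intro _; show (if 0 < t a then false else if t a < 0 then true else true) = true
            rw [if_neg (by omega), if_neg (by omega)]⟩ h0
          have h5 : h (Sum.inr (false, true)) < h (bookLift t false true a) := this
          linarith
        · have hpos : 0 < t a := by omega
          have := hh.pm_lt ⟨(a, if 0 < t a then false else if t a < 0 then true else true), by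
            intro h'; exact absurd h' h0⟩ (by
            show (if 0 < t a then false else if t a < 0 then true else true) = false
            rw [if_pos hpos])
          have h5 : h (Sum.inr (true, false)) < h (bookLift t false true a) := this
          linarith
    · refine key true false (fun v => 0 ≤ t v) ?_ ?_ h1
      · intro a ha
        have ha' : 0 ≤ t a := ha
        by_cases h0 : t a = 0
        · exact hh.lt_pm _ h0
        · refine lt_trans (hh.plus_lt _ ?_ h0) hmp_pm
          show (if 0 < t a then true else if t a < 0 then false else true) = true
          rw [if_pos (by omega)]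
      · intro a ha
        by_contra hcon
        have hcon' : t a < 0 := not_le.1 hcon
        have := hh.pm_lt ⟨(a, if 0 < t a then true else if t a < 0 then false else true), by
          intro h'; have h'' : t a = 0 := h'; omega⟩ (by
          show (if 0 < t a then true else if t a < 0 then false else true) = false
          rw [if_neg (by omega), if_pos hcon'])
        have h5 : h (Sum.inr (true, false)) < h (bookLift t true false a) := this
        linarith
    · exact absurd rfl hv1


namespace BE24

section
variable {V : Type} [Fintype V] [DecidableEq V]

/-- The reflection `(x, y) ↦ (-x, -y)` on the vertices of the book. -/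
def refl (t : V → ℤ) : BookV t → BookV t
  | Sum.inr q => Sum.inr (!q.1, !q.2)
  | Sum.inl z => Sum.inl ⟨(z.1.1, if t z.1.1 = 0 then true else !z.1.2), fun h => if_pos h⟩

theorem refl_refl (t : V → ℤ) (v : BookV t) : refl t (refl t v) = v := by
  rcases v with z | q
  · refine congrArg Sum.inl (Subtype.ext (Prod.ext rfl ?_))
    show (if t z.1.1 = 0 then true else !(if t z.1.1 = 0 then true else !z.1.2)) = z.1.2
    by_cases h : t z.1.1 = 0
    · rw [if_pos h]; exact (z.2 h).symm
    · rw [if_neg h, if_neg h, Bool.not_not]
  · refine congrArg Sum.inr (Prod.ext ?_ ?_)
    · exact Bool.not_not _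
    · exact Bool.not_not _

/-- The reflection as an equivalence. -/
def reflE (t : V → ℤ) : BookV t ≃ BookV t where
  toFun := refl t
  invFun := refl t
  left_inv := refl_refl t
  right_inv := refl_refl t

theorem refl_lift (t : V → ℤ) (sx sy : Bool) (a : V) :
    refl t (bookLift t sx sy a) = bookLift t (!sx) (!sy) a := by
  refine congrArg Sum.inl (Subtype.ext (Prod.ext rfl ?_))
  show (if t a = 0 then true else !(if 0 < t a then sx else if t a < 0 then sy else true)) =
    (if 0 < t a then !sx else if t a < 0 then !sy else true)
  rcases lt_trichotomy (t a) 0 with h | h | h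
  · rw [if_neg (by omega), if_neg (by omega), if_pos h, if_neg (by omega), if_pos h]
  · rw [if_pos h, if_neg (by omega), if_neg (by omega)]
  · rw [if_neg (by omega), if_pos h, if_pos h]

theorem refl_face (K : SComplex V) (t : V → ℤ) (s : Finset (BookV t))
    (hs : s ∈ (book K t).faces) : s.image (refl t) ∈ (book K t).faces := by
  obtain ⟨h1, sx, sy, τ, hτ, h2⟩ := hs
  refine ⟨h1.image _, !sx, !sy, τ, hτ, ?_⟩
  intro w hw
  obtain ⟨w', hw', rfl⟩ := Finset.mem_image.1 hw
  rcases Finset.mem_insert.1 (h2 hw') with rfl | h3
  · exact Finset.mem_insert_self _ _
  · obtain ⟨a, ha, rfl⟩ := Finset.mem_image.1 h3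
    rw [refl_lift]
    exact Finset.mem_insert_of_mem (Finset.mem_image_of_mem _ ha)

theorem comp_refl_mem (K : SComplex V) (t : V → ℤ) (x : BookV t → ℝ)
    (hx : x ∈ (book K t).space) : (fun v => x (refl t v)) ∈ (book K t).space := by
  obtain ⟨h1, h2, s, hs, h3⟩ := hx
  refine ⟨fun v => h1 _, ?_, s.image (refl t), refl_face K t s hs, ?_⟩
  · rw [← h2]
    exact Equiv.sum_comp (reflE t) x
  · intro v hv
    refine h3 _ fun hmem => hv ?_
    rw [Finset.mem_image]
    exact ⟨_, hmem, refl_refl t v⟩

theorem refl_cont (K : SComplex V) (t : V → ℤ) : Continuous
    fun x : (book K t).space => (⟨fun v => x.1 (refl t v), comp_refl_mem K t x.1 x.2⟩ :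
      (book K t).space) := by
  refine Continuous.subtype_mk ?_ _
  exact continuous_pi fun v => (continuous_apply (refl t v)).comp continuous_subtype_val

/-- The reflection on the points of the book. -/
def spaceHomeo (K : SComplex V) (t : V → ℤ) : (book K t).space ≃ₜ (book K t).space where
  toFun x := ⟨fun v => x.1 (refl t v), comp_refl_mem K t x.1 x.2⟩
  invFun x := ⟨fun v => x.1 (refl t v), comp_refl_mem K t x.1 x.2⟩
  left_inv x := Subtype.ext (funext fun v => congrArg x.1 (refl_refl t v))
  right_inv x := Subtype.ext (funext fun v => congrArg x.1 (refl_refl t v))
  continuous_toFun := refl_cont K t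
  continuous_invFun := refl_cont K t

theorem hLin_refl (t : V → ℤ) (h : BookV t → ℝ) (x : BookV t → ℝ) :
    hLin h (fun v => x (refl t v)) = hLin (fun v => h (refl t v)) x := by
  unfold hLin
  rw [← Equiv.sum_comp (reflE t) (fun v => x (refl t v) * h v)]
  refine Finset.sum_congr rfl fun v _ => ?_
  show x (refl t (refl t v)) * h (refl t v) = _
  rw [refl_refl]

end
end BE24

/-- the symmetry `(x, y) ↦ (-x, -y)` -/
theorem muH_reflect (F : Type) [Field F] {V : Type} [Fintype V] [DecidableEq V] (K : SComplex V)
    (t : V → ℤ) (h : BookV t → ℝ) : ∃ ρ : BookV t ≃ BookV t,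
      (∀ q : Bool × Bool, ρ (Sum.inr q) = Sum.inr (!q.1, !q.2)) ∧
      (∀ z : {x : V × Bool // t x.1 = 0 → x.2 = true}, ∃ z', ρ (Sum.inl z) = Sum.inl z' ∧
        z'.1.1 = z.1.1 ∧ z'.1.2 = if t z.1.1 = 0 then true else !z.1.2) ∧
      muH F (book K t) (fun v => h (ρ v)) = muH F (book K t) h := by
  refine ⟨reflE t, fun q => rfl, fun z => ⟨_, rfl, rfl, rfl⟩, ?_⟩
  unfold muH
  rw [← Equiv.sum_comp (reflE t) (fun v => totDim F {x : (book K t).space // hLin h x.1 ≤ h v}
    {x | hLin h x.1.1 < h v})]
  refine Finset.sum_congr rfl fun v _ => ?_
  have hh : ∀ x : (book K t).space, hLin h (spaceHomeo K t x).1 = hLin (fun v => h (refl t v)) x.1 :=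
    fun x => hLin_refl t h x.1
  refine totDim_congr F ((spaceHomeo K t).subtype fun x => ?_) _ _ ?_
  · show hLin (fun v => h (refl t v)) x.1 ≤ h (refl t v) ↔ hLin h (spaceHomeo K t x).1 ≤ h (refl t v)
    rw [hh x]
  · ext y
    constructor
    · rintro ⟨x, hx, rfl⟩
      have hx' : hLin (fun v => h (refl t v)) x.1.1 < h (refl t v) := hx
      rw [← hh x.1] at hx'
      exact hx'
    · intro hy
      refine ⟨((spaceHomeo K t).subtype fun x => ?_).symm y, ?_, ?_⟩
      · show hLin (fun v => h (refl t v)) x.1 ≤ h (refl t v) ↔ hLin h (spaceHomeo K t x).1 ≤ h (refl t v)
        rw [hh x]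
      · show hLin (fun v => h (refl t v)) _ < h (refl t v)
        rw [← hh]
        have hy' : hLin h y.1.1 < h (refl t v) := hy
        have hy2 : hLin h (spaceHomeo K t ((spaceHomeo K t).symm y.1)).1 = hLin h y.1.1 :=
          congrArg (fun z : (book K t).space => hLin h z.1) ((spaceHomeo K t).apply_symm_apply y.1)
        exact hy2.trans_lt hy'
      · exact Homeomorph.apply_symm_apply _ _

end Pool.Agent.PolyKnots
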