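import Pool.Agent.W_MP_be6f00_gt.MV

set_option autoImplicit false

/-! # Excision as an inequality of total dimensions -/

open scoped ENNReal

namespace Pool.Agent.PolyKnots

namespace BE18

open Pool.Agent.W_MP_6d5819_gt

section Exc

variable (R : Type) [CommRing R] {X : Type} [TopologicalSpace X]

theorem rcyc_exc_mono {n : ℕ} {U V : Set X} :
    rcyc R n U (U ∩ V) ≤ rcyc R n (Set.univ : Set X) V := by
  refine inf_le_inf (chIn_mono R (Set.subset_univ _)) (Submodule.comap_mono ?_)
  exact Finsupp.supported_mono fun s hs => Set.Subset.trans hs Set.inter_subset_right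

theorem rbds_exc_mono {n : ℕ} {U V : Set X} :
    rbds R n U (U ∩ V) ≤ rbds R n (Set.univ : Set X) V :=
  sup_le_sup (Submodule.map_mono (chIn_mono R (Set.subset_univ _)))
    (chIn_mono R Set.inter_subset_right)

theorem exc_surj {n : ℕ} {U V : Set X} (hU : IsOpen U) (hV : IsOpen V)
    (hUV : U ∪ V = Set.univ) :
    Function.Surjective (QS.map (rcyc_exc_mono R (n := n) (U := U) (V := V))
      (rbds_exc_mono R (n := n) (U := U) (V := V))) := by
  intro y
  obtain ⟨⟨⟨a, b⟩, hab⟩, rfl⟩ := piT_surj R (n := n) (P := V) hU hV hUV y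
  obtain ⟨h1, h2, h3⟩ := (mem_TT R).1 hab
  have ha : bd R a ∈ allIn R (U ∩ V) := by
    cases n with
    | zero => rw [bd_chIn_zero R h1]; exact Submodule.zero_mem _
    | succ m =>
      have h4 : bd R b ∈ allIn R V := chIn_le_allIn R m V (bd_mem_chIn R h2)
      have h5 : bd R a ∈ allIn R V := by
        have := Submodule.sub_mem _ h3 h4
        rwa [add_sub_cancel_right] at this
      have h6 := mem_chIn_of_allIn R (bd_mem_chIn R h1) h5
      refine chIn_le_allIn R m (U ∩ V) ?_
      rw [chIn_inter]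
      exact Submodule.mem_inf.2 ⟨bd_mem_chIn R h1, h6⟩
  refine ⟨QS.mk _ _ ⟨a, Submodule.mem_inf.2 ⟨h1, ha⟩⟩, ?_⟩
  rw [QS.map_mk, ← sub_eq_zero, piT, LinearMap.comp_apply, ← map_sub, QS.mk_eq_zero]
  change a - (a + b) ∈ rbds R n Set.univ V
  have : a - (a + b) = -b := by abel
  rw [this]
  exact Submodule.neg_mem _ (Submodule.mem_sup_right h2)

end Exc

end BE18

open BE18 in
/-- Excision: for an open cover `X = U ∪ V`, `H(X, V)` is at most `H(U, U ∩ V)`. -/
theorem totDim_exc (F : Type) [Field F] {X : Type} [TopologicalSpace X] (U V : Set X)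
    (hU : IsOpen U) (hV : IsOpen V) (hUV : U ∪ V = Set.univ) :
    totDim F X V ≤ totDim F U (Subtype.val ⁻¹' V) := by
  unfold totDim
  refine ENNReal.tsum_le_tsum fun n => ?_
  have h0 : (Subtype.val ⁻¹' V : Set U) = Subtype.val ⁻¹' (U ∩ V) := by
    ext x; simp
  rw [relDim_univ, h0, relDim_sub F Set.inter_subset_left, ENat.toENNReal_le]
  refine OrderHomClass.mono Cardinal.toENat ?_
  exact LinearMap.rank_le_of_surjective _ (exc_surj F hU hV hUV)

end Pool.Agent.PolyKnots
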