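import Pool.Agent.W_MP_be6f00_gt.Basic
import Pool.Agent.W_MP_be6f00_gt.HomBasic
import Pool.Agent.W_MP_be6f00_gt.Exc

set_option autoImplicit false

open scoped ENNReal Topology RealInnerProductSpace
open Set

namespace Pool.Agent.PolyKnots

namespace BE19

open ContinuousMap

/-- An inclusion-like map of contractible spaces is a homotopy equivalence. -/
noncomputable def hequivOfContractible {X Y : Type} [TopologicalSpace X] [TopologicalSpace Y]
    [ContractibleSpace X] [ContractibleSpace Y] (f : C(X, Y)) : ContinuousMap.HomotopyEquiv X Y where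
  toFun := f
  invFun := ContinuousMap.const Y (Classical.arbitrary X)
  left_inv := by
    obtain ⟨x, hx⟩ := id_nullhomotopic X
    have h1 : (ContinuousMap.const X (Classical.arbitrary X)).Homotopic (ContinuousMap.const X x) :=
      ContinuousMap.homotopic_const_iff.2 (PathConnectedSpace.joined _ _)
    exact h1.trans hx.symm
  right_inv := by
    obtain ⟨y, hy⟩ := id_nullhomotopic Y
    have h1 : (ContinuousMap.const Y (f (Classical.arbitrary X))).Homotopic
        (ContinuousMap.const Y y) :=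
      ContinuousMap.homotopic_const_iff.2 (PathConnectedSpace.joined _ _)
    exact h1.trans hy.symm

lemma hequivOfContractible_apply {X Y : Type} [TopologicalSpace X] [TopologicalSpace Y]
    [ContractibleSpace X] [ContractibleSpace Y] (f : C(X, Y)) (x : X) :
    hequivOfContractible f x = f x := rfl

variable (F : Type) [Field F]

/-- Contractible pairs. -/
lemma totDim_contr_pair {X : Type} [TopologicalSpace X] [ContractibleSpace X] (A : Set X)
    [ContractibleSpace A] : totDim F X A = 0 := by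
  have h1 : totDim F X A = totDim F Unit (univ : Set Unit) := by
    have : ContractibleSpace (univ : Set Unit) := (Homeomorph.Set.univ Unit).contractibleSpace
    refine totDim_pair F A univ (hequivOfContractible (ContinuousMap.const X ()))
      (hequivOfContractible (ContinuousMap.const A ⟨(), mem_univ _⟩)) ?_
    intro a
    rfl
  rw [h1]
  refine totDim_eq_zero F univ (fun p => p.2) ?_ (fun _ => rfl) (fun _ => mem_univ _)
    (fun _ _ _ _ => mem_univ _)
  exact continuous_snd.continuousOn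

/-- Replacing a point by a contractible set containing it. -/
lemma totDim_point_set {X : Type} [TopologicalSpace X] (A : Set X)
    [ContractibleSpace A] (P : X) (hP : P ∈ A) : totDim F X {P} = totDim F X A := by
  refine totDim_pair F {P} A (ContinuousMap.HomotopyEquiv.refl X)
    (hequivOfContractible ⟨fun x : ({P} : Set X) => (⟨x.1, by rw [x.2]; exact hP⟩ : A), by fun_prop⟩) ?_
  intro a
  rfl

/-- Base case. -/
lemma base : totDim F {w : ℝ // w ≠ 0} {⟨1, one_ne_zero⟩} ≤ 1 := by
  set U : Set {w : ℝ // w ≠ 0} := {w | w.1 < 0} with hU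
  set V : Set {w : ℝ // w ≠ 0} := {w | 0 < w.1} with hV
  have hUo : IsOpen U := isOpen_lt (by fun_prop) (by fun_prop)
  have hVo : IsOpen V := isOpen_lt (by fun_prop) (by fun_prop)
  have hUc : ContractibleSpace U := by
    have e : U ≃ₜ Iio (0:ℝ) :=
      { toFun := fun w => ⟨w.1.1, w.2⟩
        invFun := fun w => ⟨⟨w.1, ne_of_lt w.2⟩, w.2⟩
        left_inv := fun w => rfl
        right_inv := fun w => rfl
        continuous_toFun := by fun_prop
        continuous_invFun := by fun_prop }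
    have := (convex_Iio (0:ℝ)).contractibleSpace ⟨-1, by simp⟩
    exact e.contractibleSpace
  have hVc : ContractibleSpace V := by
    have e : V ≃ₜ Ioi (0:ℝ) :=
      { toFun := fun w => ⟨w.1.1, w.2⟩
        invFun := fun w => ⟨⟨w.1, ne_of_gt w.2⟩, w.2⟩
        left_inv := fun w => rfl
        right_inv := fun w => rfl
        continuous_toFun := by fun_prop
        continuous_invFun := by fun_prop }
    have := (convex_Ioi (0:ℝ)).contractibleSpace ⟨1, by simp⟩
    exact e.contractibleSpace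
  rw [totDim_point_set F V ⟨1, one_ne_zero⟩ (by simp [hV])]
  refine (totDim_exc F U V hUo hVo ?_).trans ?_
  · ext w
    simp only [hU, hV, mem_union, mem_univ, iff_true]
    exact lt_or_gt_of_ne w.2
  · have : (Subtype.val ⁻¹' V : Set U) = ∅ := by
      ext w
      simp only [hV, mem_preimage, mem_empty_iff_false, iff_false]
      intro h
      have h2 : w.1.1 < 0 := w.2
      exact absurd h2 (not_lt.2 (le_of_lt h))
    rw [this]
    exact totDim_contractible F

variable {W : Type} [NormedAddCommGroup W]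

section
variable [NormedSpace ℝ W]

lemma star_pos : StarConvex ℝ ((0, 1) : W × ℝ) {w | w.1 ≠ 0 ∨ 0 < w.2} := by
  rintro ⟨x, t⟩ h a b ha hb hab
  simp only [mem_ofPred_eq, Prod.fst_add, Prod.smul_fst, Prod.snd_add, Prod.smul_snd, smul_zero,
    zero_add, smul_eq_mul, mul_one] at h ⊢
  rcases eq_or_lt_of_le hb with hb | hb
  · right
    rw [← hb] at hab ⊢
    linarith
  · rcases h with h | h
    · left
      exact smul_ne_zero hb.ne' h
    · right
      positivity

lemma star_neg : StarConvex ℝ ((0, -1) : W × ℝ) {w | w.1 ≠ 0 ∨ w.2 < 0} := by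
  rintro ⟨x, t⟩ h a b ha hb hab
  simp only [mem_ofPred_eq, Prod.fst_add, Prod.smul_fst, Prod.snd_add, Prod.smul_snd, smul_zero,
    zero_add, smul_eq_mul] at h ⊢
  rcases eq_or_lt_of_le hb with hb | hb
  · right
    rw [← hb] at hab ⊢
    linarith
  · rcases h with h | h
    · left
      exact smul_ne_zero hb.ne' h
    · right
      nlinarith

end

/-- The complement of the origin. -/
abbrev Pn (W : Type) [NormedAddCommGroup W] : Type := {w : W // w ≠ 0}

variable (W) in
/-- The complement of the closed lower half-axis. -/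
def Up : Set (Pn (W × ℝ)) := {w | w.1.1 ≠ 0 ∨ 0 < w.1.2}

variable (W) in
/-- The complement of the closed upper half-axis. -/
def Dn : Set (Pn (W × ℝ)) := {w | w.1.1 ≠ 0 ∨ w.1.2 < 0}

lemma isOpen_Up : IsOpen (Up W) := by
  have h1 : IsOpen {w : Pn (W × ℝ) | w.1.1 ≠ 0} :=
    isOpen_ne_fun (f := fun w : Pn (W × ℝ) => w.1.1) (g := fun _ => 0) (by fun_prop) (by fun_prop)
  have h2 : IsOpen {w : Pn (W × ℝ) | 0 < w.1.2} :=
    isOpen_lt (f := fun _ => 0) (g := fun w : Pn (W × ℝ) => w.1.2) (by fun_prop) (by fun_prop)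
  exact h1.union h2

lemma isOpen_Dn : IsOpen (Dn W) := by
  have h1 : IsOpen {w : Pn (W × ℝ) | w.1.1 ≠ 0} :=
    isOpen_ne_fun (f := fun w : Pn (W × ℝ) => w.1.1) (g := fun _ => 0) (by fun_prop) (by fun_prop)
  have h2 : IsOpen {w : Pn (W × ℝ) | w.1.2 < 0} :=
    isOpen_lt (f := fun w : Pn (W × ℝ) => w.1.2) (g := fun _ => 0) (by fun_prop) (by fun_prop)
  exact h1.union h2

lemma contr_Up [NormedSpace ℝ W] : ContractibleSpace (Up W) := by
  have e : Up W ≃ₜ {w : W × ℝ | w.1 ≠ 0 ∨ 0 < w.2} :=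
    { toFun := fun w => ⟨w.1.1, w.2⟩
      invFun := fun w => ⟨⟨w.1, by
        rintro h0
        rcases w.2 with h | h
        · exact h (congrArg Prod.fst h0)
        · rw [h0] at h; exact lt_irrefl _ h⟩, w.2⟩
      left_inv := fun w => rfl
      right_inv := fun w => rfl
      continuous_toFun := by fun_prop
      continuous_invFun := by fun_prop }
  have := (star_pos (W := W)).contractibleSpace ⟨(0, 1), by simp⟩
  exact e.contractibleSpace

lemma contr_Dn [NormedSpace ℝ W] : ContractibleSpace (Dn W) := by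
  have e : Dn W ≃ₜ {w : W × ℝ | w.1 ≠ 0 ∨ w.2 < 0} :=
    { toFun := fun w => ⟨w.1.1, w.2⟩
      invFun := fun w => ⟨⟨w.1, by
        rintro h0
        rcases w.2 with h | h
        · exact h (congrArg Prod.fst h0)
        · rw [h0] at h; exact lt_irrefl _ h⟩, w.2⟩
      left_inv := fun w => rfl
      right_inv := fun w => rfl
      continuous_toFun := by fun_prop
      continuous_invFun := by fun_prop }
  have := (star_neg (W := W)).contractibleSpace ⟨(0, -1), by simp⟩
  exact e.contractibleSpace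

lemma Up_union_Dn : Up W ∪ Dn W = univ := by
  ext ⟨⟨x, t⟩, hw⟩
  simp only [Up, Dn, mem_union, mem_univ, iff_true, mem_ofPred_eq]
  by_cases hx : x = 0
  · have ht : t ≠ 0 := fun ht => hw (by rw [hx, ht]; rfl)
    rcases lt_or_gt_of_ne ht with h | h
    · exact Or.inr (Or.inr h)
    · exact Or.inl (Or.inr h)
  · exact Or.inl (Or.inl hx)

lemma inter_ne (w : (Up W ∩ Dn W : Set (Pn (W × ℝ)))) : w.1.1.1 ≠ 0 := by
  obtain ⟨w, h1, h2⟩ := w
  intro h0
  rcases h1 with h1 | h1
  · exact h1 h0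
  · rcases h2 with h2 | h2
    · exact h2 h0
    · exact absurd h1 (not_lt.2 h2.le)

variable (W) in
/-- projection -/
def prI : C((Up W ∩ Dn W : Set (Pn (W × ℝ))), Pn W) :=
  ⟨fun w => ⟨w.1.1.1, inter_ne w⟩, by fun_prop⟩

/-- a point of the intersection -/
def mkI (x : W) (hx : x ≠ 0) (t : ℝ) : (Up W ∩ Dn W : Set (Pn (W × ℝ))) :=
  ⟨⟨(x, t), fun h => hx (congrArg Prod.fst h)⟩, Or.inl hx, Or.inl hx⟩

variable (W) in
/-- inclusion -/
def inI : C(Pn W, (Up W ∩ Dn W : Set (Pn (W × ℝ)))) :=
  ⟨fun w => mkI w.1 w.2 0, by unfold mkI; fun_prop⟩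

variable (W) in
/-- the homotopy equivalence -/
def heI : ContinuousMap.HomotopyEquiv (Up W ∩ Dn W : Set (Pn (W × ℝ))) (Pn W) where
  toFun := prI W
  invFun := inI W
  left_inv := ⟨{
    toFun := fun q => mkI q.2.1.1.1 (inter_ne q.2) ((q.1 : ℝ) * q.2.1.1.2)
    continuous_toFun := by unfold mkI; fun_prop
    map_zero_left := by
      intro w
      apply Subtype.ext
      apply Subtype.ext
      simp [mkI, prI, inI]
    map_one_left := by
      intro w
      apply Subtype.ext
      apply Subtype.ext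
      simp [mkI] }⟩
  right_inv := by
    have : (prI W).comp (inI W) = ContinuousMap.id _ := by
      ext w; rfl
    rw [this]

variable [NormedSpace ℝ W]

/-- Induction step. -/
lemma step (P : W) (hP : P ≠ 0) (h : totDim F (Pn W) {⟨P, hP⟩} ≤ 1) :
    totDim F (Pn (W × ℝ)) {⟨(P, 0), fun h => hP (congrArg Prod.fst h)⟩} ≤ 1 := by
  set P' : Pn (W × ℝ) := ⟨(P, 0), fun h => hP (congrArg Prod.fst h)⟩ with hP'
  have hPU : P' ∈ Up W := Or.inl hP
  have hPV : P' ∈ Dn W := Or.inl hP
  have := contr_Up (W := W)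
  have := contr_Dn (W := W)
  refine (totDim_mv F (Up W) (Dn W) {P'} isOpen_Up isOpen_Dn Up_union_Dn ?_).trans ?_
  · rintro w rfl
    exact ⟨hPU, hPV⟩
  · have e1 : (Subtype.val ⁻¹' {P'} : Set (Up W)) = {⟨P', hPU⟩} := by
      ext w; simp [Subtype.ext_iff]
    have e2 : (Subtype.val ⁻¹' {P'} : Set (Dn W)) = {⟨P', hPV⟩} := by
      ext w; simp [Subtype.ext_iff]
    have e3 : (Subtype.val ⁻¹' {P'} : Set (Up W ∩ Dn W : Set (Pn (W × ℝ)))) =
        {mkI P hP 0} := by
      ext w; simp [Subtype.ext_iff, mkI, hP']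
    rw [e1, e2, e3, totDim_contr_pair, totDim_contr_pair, zero_add, zero_add]
    refine le_trans (le_of_eq ?_) h
    have e' : ContinuousMap.HomotopyEquiv
        ({mkI P hP 0} : Set (Up W ∩ Dn W : Set (Pn (W × ℝ)))) ({⟨P, hP⟩} : Set (Pn W)) :=
      hequivOfContractible (ContinuousMap.const _ ⟨⟨P, hP⟩, mem_singleton _⟩)
    have h3 : ∀ a : ({mkI P hP 0} : Set (Up W ∩ Dn W : Set (Pn (W × ℝ)))),
        ((e' a : ({⟨P, hP⟩} : Set (Pn W))) : Pn W) = heI W a.1 := by
      rintro ⟨w, hw⟩
      rw [mem_singleton_iff.1 (e' ⟨w, hw⟩).2]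
      rw [mem_singleton_iff] at hw
      subst hw
      rfl
    have h4 := totDim_pair F _ _ (heI W) e' h3
    exact h4

/-- Homeomorphism invariance in `W`. -/
lemma transport {W' : Type} [NormedAddCommGroup W'] [NormedSpace ℝ W'] (L : W ≃L[ℝ] W')
    (h : ∃ (P : W) (hP : P ≠ 0), totDim F {w : W // w ≠ 0} {⟨P, hP⟩} ≤ 1) :
    ∃ (P : W') (hP : P ≠ 0), totDim F {w : W' // w ≠ 0} {⟨P, hP⟩} ≤ 1 := by
  obtain ⟨P, hP, h⟩ := h
  have hL : ∀ w : W, w ≠ 0 → L w ≠ 0 := fun w hw h => hw (L.map_eq_zero_iff.1 h)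
  have hL' : ∀ w : W', w ≠ 0 → L.symm w ≠ 0 := fun w hw h => hw (L.symm.map_eq_zero_iff.1 h)
  refine ⟨L P, hL P hP, le_trans (le_of_eq (Eq.symm ?_)) h⟩
  refine totDim_congr F
    { toFun := fun w => ⟨L w.1, hL _ w.2⟩
      invFun := fun w => ⟨L.symm w.1, hL' _ w.2⟩
      left_inv := fun w => by simp
      right_inv := fun w => by simp
      continuous_toFun := by fun_prop
      continuous_invFun := by fun_prop } _ _ ?_
  rw [image_singleton]
  rfl

/-- The induction hypothesis. -/
def Good (W : Type) [NormedAddCommGroup W] : Prop :=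
  ∃ (P : W) (hP : P ≠ 0), totDim F {w : W // w ≠ 0} {⟨P, hP⟩} ≤ 1

lemma Good.step (h : Good F W) : Good F (W × ℝ) := by
  obtain ⟨P, hP, h⟩ := h
  exact ⟨_, _, BE19.step F P hP h⟩

lemma four : ∃ (P : EuclideanSpace ℝ (Fin 4)) (hP : P ≠ 0),
    totDim F {w : EuclideanSpace ℝ (Fin 4) // w ≠ 0} {⟨P, hP⟩} ≤ 1 := by
  have h1 : Good F ℝ := ⟨1, one_ne_zero, base F⟩
  have h4 : Good F (((ℝ × ℝ) × ℝ) × ℝ) := ((h1.step F).step F).step F
  have hr : Module.finrank ℝ (((ℝ × ℝ) × ℝ) × ℝ) = Module.finrank ℝ (EuclideanSpace ℝ (Fin 4)) := by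
    simp
  exact transport F (ContinuousLinearEquiv.ofFinrankEq hr) h4

/-- The sphere relative to some point. -/
lemma sphere_point : ∃ P : Metric.sphere (0 : EuclideanSpace ℝ (Fin 4)) 1,
    totDim F (Metric.sphere (0 : EuclideanSpace ℝ (Fin 4)) 1) {P} ≤ 1 := by
  obtain ⟨P, hP, h⟩ := four F
  have hn : ∀ w : {w : EuclideanSpace ℝ (Fin 4) // w ≠ 0}, ‖w.1‖ ≠ 0 := fun w => norm_ne_zero_iff.2 w.2
  have hmem : ∀ w : {w : EuclideanSpace ℝ (Fin 4) // w ≠ 0},
      ‖w.1‖⁻¹ • w.1 ∈ Metric.sphere (0 : EuclideanSpace ℝ (Fin 4)) 1 := by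
    intro w
    rw [mem_sphere_zero_iff_norm, norm_smul, norm_inv, norm_norm, inv_mul_cancel₀ (hn w)]
  have hcont : Continuous fun w : {w : EuclideanSpace ℝ (Fin 4) // w ≠ 0} => ‖w.1‖⁻¹ :=
    Continuous.inv₀ (by fun_prop) hn
  have hs : ∀ x : Metric.sphere (0 : EuclideanSpace ℝ (Fin 4)) 1, x.1 ≠ 0 := by
    intro x h0
    have := mem_sphere_zero_iff_norm.1 x.2
    rw [h0, norm_zero] at this
    exact zero_ne_one this
  refine ⟨⟨‖P‖⁻¹ • P, hmem ⟨P, hP⟩⟩, le_trans (le_of_eq (Eq.symm ?_)) h⟩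
  refine totDim_pair F _ _
    { toFun := ⟨fun w => ⟨‖w.1‖⁻¹ • w.1, hmem w⟩, by fun_prop⟩
      invFun := ⟨fun x => ⟨x.1, hs x⟩, by fun_prop⟩
      left_inv := ⟨{
        toFun := fun q => ⟨((1 - (q.1 : ℝ)) * ‖q.2.1‖⁻¹ + q.1) • q.2.1, by
          refine smul_ne_zero ?_ q.2.2
          have h1 : 0 < ‖q.2.1‖⁻¹ := inv_pos.2 (norm_pos_iff.2 q.2.2)
          have h2 := q.1.2.1
          have h3 := q.1.2.2
          rcases eq_or_lt_of_le h2 with h4 | h4
          · rw [← h4]; simp; exact q.2.2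
          · have : 0 ≤ (1 - (q.1 : ℝ)) * ‖q.2.1‖⁻¹ := mul_nonneg (by linarith) h1.le
            exact (add_pos_of_nonneg_of_pos this h4).ne'⟩
        continuous_toFun := by
          have h5 : Continuous fun q : unitInterval × {w : EuclideanSpace ℝ (Fin 4) // w ≠ 0} =>
            ‖q.2.1‖⁻¹ := hcont.comp continuous_snd
          fun_prop
        map_zero_left := by
          intro w
          apply Subtype.ext
          simp
        map_one_left := by
          intro w
          apply Subtype.ext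
          simp }⟩
      right_inv := by
        have : ContinuousMap.comp (⟨fun w => ⟨‖w.1‖⁻¹ • w.1, hmem w⟩, by fun_prop⟩ :
            C({w : EuclideanSpace ℝ (Fin 4) // w ≠ 0}, Metric.sphere (0 : EuclideanSpace ℝ (Fin 4)) 1))
          ⟨fun x => ⟨x.1, hs x⟩, by fun_prop⟩ = ContinuousMap.id _ := by
          ext x
          have := mem_sphere_zero_iff_norm.1 x.2
          simp [this]
        rw [this] }
    (hequivOfContractible (ContinuousMap.const _ ⟨_, rfl⟩)) ?_
  rintro ⟨w, hw⟩
  rw [mem_singleton_iff] at hw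
  subst hw
  rfl

/-- The complement of a point of the sphere is contractible. -/
lemma contr_compl (x : Metric.sphere (0 : EuclideanSpace ℝ (Fin 4)) 1) :
    ContractibleSpace ({x}ᶜ : Set (Metric.sphere (0 : EuclideanSpace ℝ (Fin 4)) 1)) := by
  have hx : ‖x.1‖ = 1 := mem_sphere_zero_iff_norm.1 x.2
  have e := (stereographic hx).toHomeomorphSourceTarget
  rw [stereographic_source, stereographic_target] at e
  have h1 : ContractibleSpace (univ : Set (ℝ ∙ x.1)ᗮ) := (Homeomorph.Set.univ _).contractibleSpace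
  exact e.contractibleSpace

lemma sphere_compl (x : Metric.sphere (0 : EuclideanSpace ℝ (Fin 4)) 1) :
    totDim F (Metric.sphere (0 : EuclideanSpace ℝ (Fin 4)) 1) {x}ᶜ ≤ 1 := by
  obtain ⟨P, hP⟩ := sphere_point F
  have key : ∀ y, y ≠ P → totDim F (Metric.sphere (0 : EuclideanSpace ℝ (Fin 4)) 1) {y}ᶜ ≤ 1 := by
    intro y hy
    have := contr_compl y
    rw [← totDim_point_set F {y}ᶜ P (by simpa using hy.symm)]
    exact hP
  by_cases hx : x = P
  · have hneg : totDim F (Metric.sphere (0 : EuclideanSpace ℝ (Fin 4)) 1) {x}ᶜ =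
        totDim F (Metric.sphere (0 : EuclideanSpace ℝ (Fin 4)) 1) {-x}ᶜ := by
      refine totDim_congr F (Homeomorph.neg _) _ _ ?_
      ext y
      simp only [mem_image, mem_compl_iff, mem_singleton_iff, Homeomorph.coe_neg]
      constructor
      · rintro ⟨z, hz, rfl⟩ h
        exact hz (neg_injective h)
      · intro h
        exact ⟨-y, fun h' => h (by rw [← h', neg_neg]), neg_neg y⟩
    rw [hneg]
    refine key _ ?_
    intro h
    have h2 : (-x : Metric.sphere (0 : EuclideanSpace ℝ (Fin 4)) 1) = x := h.trans hx.symm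
    have h3 : -(x.1) = x.1 := congrArg Subtype.val h2
    have h4 : x.1 = 0 := by
      have : (2 : ℝ) • x.1 = 0 := by
        rw [two_smul]; nth_rewrite 1 [← h3]; simp
      exact (smul_eq_zero.1 this).resolve_left two_ne_zero
    have h5 := mem_sphere_zero_iff_norm.1 x.2
    rw [h4, norm_zero] at h5
    exact zero_ne_one h5
  · exact key x hx

end BE19

theorem totDim_sphere (F : Type) [Field F] {X : Type} [TopologicalSpace X]
    (e : X ≃ₜ Metric.sphere (0 : EuclideanSpace ℝ (Fin 4)) 1) (x : X) :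
    totDim F X {x}ᶜ ≤ 1 := by
  rw [totDim_congr F e {x}ᶜ {e x}ᶜ]
  · exact BE19.sphere_compl F (e x)
  · rw [image_compl_eq e.bijective, image_singleton]

end Pool.Agent.PolyKnots
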