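import Pool.Agent.W_MP_be6f00_gt.CritCore
import Pool.Agent.W_MP_be6f00_gt.HomBasic
import Pool.Agent.W_MP_be6f00_gt.SphereHom

set_option autoImplicit false

/-! # Critical vertices: contractible lower link, minimum, maximum -/

open scoped ENNReal Topology
open Set Topology

namespace Pool.Agent.PolyKnots

open BE22 BE23

theorem crit_zero (F : Type) [Field F] {V : Type} [Fintype V] [DecidableEq V] (K : SComplex V)
    (h : V → ℝ) (hh : Function.Injective h) (v : V)
    (hc : ContractibleSpace (sp (lowerLink K.faces h v))) :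
    totDim F {x : K.space // hLin h x.1 ≤ h v} {x | hLin h x.1.1 < h v} = 0 := by
  obtain ⟨H, h1, h2, h3, h4, h5⟩ := exists_deform K h hh v hc
  -- clamp the time
  have hcl : ∀ t : ℝ, max 0 (min 1 t) ∈ Icc (0 : ℝ) 1 := fun t =>
    ⟨le_max_left _ _, max_le zero_le_one (min_le_left _ _)⟩
  have hcl' : ∀ t ∈ Icc (0 : ℝ) 1, max 0 (min 1 t) = t := fun t ht => by
    rw [min_eq_right ht.2, max_eq_right ht.1]
  let H' : ℝ × {x : K.space // hLin h x.1 ≤ h v} → {x : K.space // hLin h x.1 ≤ h v} := fun p =>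
    ⟨⟨H (max 0 (min 1 p.1), p.2.1.1), (h2 _ (hcl p.1) p.2.1.1 p.2.1.2 p.2.2).1⟩,
      (h2 _ (hcl p.1) p.2.1.1 p.2.1.2 p.2.2).2⟩
  have hH'c : Continuous H' := by
    have h6 : Continuous fun p : ℝ × {x : K.space // hLin h x.1 ≤ h v} =>
        H (max 0 (min 1 p.1), p.2.1.1) := by
      refine h1.comp_continuous (f := fun p : ℝ × {x : K.space // hLin h x.1 ≤ h v} =>
        (max 0 (min 1 p.1), p.2.1.1)) (by fun_prop) ?_
      rintro ⟨t, x⟩
      exact ⟨hcl t, x.1.2, x.2⟩
    exact (h6.subtype_mk _).subtype_mk _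
  refine totDim_eq_zero F _ H' hH'c.continuousOn ?_ ?_ ?_
  · intro x
    refine Subtype.ext (Subtype.ext ?_)
    simp only [H']
    rw [hcl' 0 ⟨le_rfl, zero_le_one⟩]
    exact h3 x.1.1 x.1.2 x.2
  · intro x
    show hLin h (H (max 0 (min 1 1), x.1.1)) < h v
    rw [hcl' 1 ⟨zero_le_one, le_rfl⟩]
    exact h4 x.1.1 x.1.2 x.2
  · intro s hs x hx
    show hLin h (H (max 0 (min 1 s), x.1.1)) < h v
    exact h5 _ (hcl s) x.1.1 x.1.2 hx

theorem crit_min (F : Type) [Field F] {V : Type} [Fintype V] [DecidableEq V] (K : SComplex V)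
    (h : V → ℝ) (v : V) (hv : ∀ w, w ≠ v → h v < h w) :
    totDim F {x : K.space // hLin h x.1 ≤ h v} {x | hLin h x.1.1 < h v} ≤ 1 := by
  have hge : ∀ x ∈ sp K.faces, h v ≤ hLin h x := by
    intro x hx
    have h1 := hLin_sub h (h v) hx
    have h2 : 0 ≤ ∑ w, x w * (h w - h v) := by
      refine Finset.sum_nonneg fun w _ => mul_nonneg (hx.1 w) ?_
      by_cases hw : w = v
      · rw [hw, sub_self]
      · linarith [hv w hw]
    linarith
  have huniq : ∀ x ∈ sp K.faces, hLin h x ≤ h v → x = Pi.single v 1 := by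
    intro x hx hle
    have h1 := hLin_sub h (h v) hx
    have h2 : ∀ w, 0 ≤ x w * (h w - h v) := by
      intro w
      refine mul_nonneg (hx.1 w) ?_
      by_cases hw : w = v
      · rw [hw, sub_self]
      · linarith [hv w hw]
    have h3 : ∑ w, x w * (h w - h v) = 0 :=
      le_antisymm (by linarith) (Finset.sum_nonneg fun w _ => h2 w)
    have h4 := (Finset.sum_eq_zero_iff_of_nonneg fun w _ => h2 w).1 h3
    have h5 : ∀ w, w ≠ v → x w = 0 := by
      intro w hw
      rcases mul_eq_zero.1 (h4 w (Finset.mem_univ w)) with h6 | h6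
      · exact h6
      · linarith [hv w hw]
    refine eq_single hx ?_
    rw [← hx.2.1]
    exact (Finset.sum_eq_single v (fun w _ hw => h5 w hw)
      fun h => absurd (Finset.mem_univ v) h).symm
  have hA : {x : {x : K.space // hLin h x.1 ≤ h v} | hLin h x.1.1 < h v} = ∅ := by
    ext x
    simp only [mem_ofPred_eq, mem_empty_iff_false, iff_false, not_lt]
    exact hge x.1.1 x.1.2
  rw [hA]
  have hmem : (Pi.single v 1 : V → ℝ) ∈ sp K.faces := by
    refine ⟨?_, ?_, {v}, K.vertex v, ?_⟩
    · intro w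
      by_cases hw : w = v
      · subst hw
        simp
      · simp [hw]
    · simp
    · intro w hw
      rw [Finset.mem_singleton] at hw
      simp [hw]
  have hne : Nonempty {x : K.space // hLin h x.1 ≤ h v} :=
    ⟨⟨⟨Pi.single v 1, hmem⟩, (hLin_single h v).le⟩⟩
  have hss : Subsingleton {x : K.space // hLin h x.1 ≤ h v} := by
    refine ⟨fun x y => Subtype.ext (Subtype.ext ?_)⟩
    rw [huniq x.1.1 x.1.2 x.2, huniq y.1.1 y.1.2 y.2]
  exact totDim_contractible F

theorem crit_max (F : Type) [Field F] {V : Type} [Fintype V] [DecidableEq V] (K : SComplex V)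
    (e : Nonempty (K.space ≃ₜ Metric.sphere (0 : EuclideanSpace ℝ (Fin 4)) 1))
    (h : V → ℝ) (v : V) (hv : ∀ w, w ≠ v → h w < h v) :
    totDim F {x : K.space // hLin h x.1 ≤ h v} {x | hLin h x.1.1 < h v} ≤ 1 := by
  obtain ⟨e⟩ := e
  have hmem : (Pi.single v 1 : V → ℝ) ∈ sp K.faces := by
    refine ⟨?_, ?_, {v}, K.vertex v, ?_⟩
    · intro w
      by_cases hw : w = v
      · subst hw
        simp
      · simp [hw]
    · simp
    · intro w hw
      rw [Finset.mem_singleton] at hw
      simp [hw]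
  have hle : ∀ x ∈ sp K.faces, hLin h x ≤ h v := by
    intro x hx
    have h1 := hLin_sub h (h v) hx
    have h2 : ∑ w, x w * (h w - h v) ≤ 0 := by
      refine Finset.sum_nonpos fun w _ => mul_nonpos_of_nonneg_of_nonpos (hx.1 w) ?_
      by_cases hw : w = v
      · rw [hw, sub_self]
      · linarith [hv w hw]
    linarith
  let i : {x : K.space // hLin h x.1 ≤ h v} ≃ₜ K.space :=
    { toFun := fun x => x.1
      invFun := fun x => ⟨x, hle x.1 x.2⟩
      left_inv := fun x => rfl
      right_inv := fun x => rfl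
      continuous_toFun := by fun_prop
      continuous_invFun := by fun_prop }
  let x0 : {x : K.space // hLin h x.1 ≤ h v} := ⟨⟨Pi.single v 1, hmem⟩, (hLin_single h v).le⟩
  have hA : {x : {x : K.space // hLin h x.1 ≤ h v} | hLin h x.1.1 < h v} = {x0}ᶜ := by
    ext x
    rw [mem_compl_singleton_iff]
    constructor
    · intro hx hx0
      rw [hx0] at hx
      have : hLin h (Pi.single v 1) < h v := hx
      rw [hLin_single] at this
      exact lt_irrefl _ this
    · intro hx
      have hx1 : x.1.1 v < 1 := by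
        refine lt_of_le_of_ne (sp_le_one x.1.2 v) fun h1 => hx ?_
        exact Subtype.ext (Subtype.ext (eq_single x.1.2 h1))
      exact lt_of_apply_lt x.1.2 (fun w hw _ => hv w hw) hx1
  rw [hA]
  exact totDim_sphere F (i.trans e) x0

end Pool.Agent.PolyKnots
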