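import Pool.Agent.W_MP_be6f00_gt.Contr

set_option autoImplicit false

/-! # Deformation of sublevel sets at a vertex with contractible lower link -/

open scoped ENNReal Topology
open Set Topology

namespace Pool.Agent.PolyKnots.BE22

open BE23

/-- Concatenation of two deformations. -/
theorem glue {E : Type} [TopologicalSpace E] {X Y : Set E} {H1 H2 : ℝ × E → E}
    (h1 : ContinuousOn H1 (Icc (0 : ℝ) 1 ×ˢ X)) (h2 : ContinuousOn H2 (Icc (0 : ℝ) 1 ×ˢ Y))
    (hY : ∀ x ∈ X, H1 (1, x) ∈ Y) (h20 : ∀ y ∈ Y, H2 (0, y) = y) :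
    ContinuousOn (fun p : ℝ × E =>
      if p.1 ≤ 1 / 2 then H1 (2 * p.1, p.2) else H2 (2 * p.1 - 1, H1 (1, p.2)))
      (Icc (0 : ℝ) 1 ×ˢ X) := by
  have hc : Continuous fun p : ℝ × E => p.1 := continuous_fst
  have hcl1 : closure {p : ℝ × E | p.1 ≤ 1 / 2} ⊆ {p : ℝ × E | p.1 ≤ 1 / 2} :=
    (isClosed_le hc continuous_const).closure_subset
  have hcl2 : closure {p : ℝ × E | ¬ p.1 ≤ 1 / 2} ⊆ {p : ℝ × E | 1 / 2 ≤ p.1} := by
    refine closure_minimal ?_ (isClosed_le continuous_const hc)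
    intro p hp
    exact (not_le.1 hp).le
  refine ContinuousOn.if ?_ ?_ ?_
  · rintro ⟨t, x⟩ ⟨⟨_, hx⟩, hf⟩
    have hx : x ∈ X := hx
    have ht1 : t ≤ 1 / 2 := hcl1 hf.1
    have ht2 : 1 / 2 ≤ t := by
      have : (t, x) ∈ closure {p : ℝ × E | ¬ p.1 ≤ 1 / 2} := by
        rw [← compl_ofPred, closure_compl]
        exact hf.2
      exact hcl2 this
    have ht : t = 1 / 2 := le_antisymm ht1 ht2
    subst ht
    have e1 : (2 : ℝ) * (1 / 2) = 1 := by norm_num
    have e2 : (2 : ℝ) * (1 / 2) - 1 = 0 := by norm_num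
    simp only [e1, sub_self]
    exact (h20 _ (hY x hx)).symm
  · refine h1.comp (f := fun p : ℝ × E => (2 * p.1, p.2)) (by fun_prop) ?_
    rintro ⟨t, x⟩ ⟨⟨ht, hx⟩, hcl⟩
    have ht : t ∈ Icc (0 : ℝ) 1 := ht
    have ht1 : t ≤ 1 / 2 := hcl1 hcl
    exact ⟨⟨by linarith [ht.1], by linarith⟩, hx⟩
  · have h3 : ContinuousOn (fun p : ℝ × E => (2 * p.1 - 1, H1 (1, p.2)))
        ((Icc (0 : ℝ) 1 ×ˢ X) ∩ closure {p : ℝ × E | ¬ p.1 ≤ 1 / 2}) := by
      refine ContinuousOn.prodMk (by fun_prop) ?_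
      refine h1.comp (f := fun p : ℝ × E => ((1 : ℝ), p.2)) (by fun_prop) ?_
      rintro ⟨t, x⟩ ⟨⟨ht, hx⟩, hcl⟩
      exact ⟨⟨zero_le_one, le_rfl⟩, hx⟩
    refine h2.comp h3 ?_
    rintro ⟨t, x⟩ ⟨⟨ht, hx⟩, hcl⟩
    have ht : t ∈ Icc (0 : ℝ) 1 := ht
    have ht1 : 1 / 2 ≤ t := hcl2 hcl
    exact ⟨⟨by simp only; linarith, by simp only; linarith [ht.2]⟩, hY x hx⟩

variable {V : Type} [Fintype V]

theorem hLin_combo (h : V → ℝ) (a b : ℝ) (x y : V → ℝ) :
    hLin h (a • x + b • y) = a * hLin h x + b * hLin h y := by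
  unfold hLin
  rw [Finset.mul_sum, Finset.mul_sum, ← Finset.sum_add_distrib]
  refine Finset.sum_congr rfl fun v _ => ?_
  simp only [Pi.add_apply, Pi.smul_apply, smul_eq_mul]
  ring

theorem hLin_sub {S : Set (Finset V)} (h : V → ℝ) (c : ℝ) {x : V → ℝ} (hx : x ∈ sp S) :
    hLin h x - c = ∑ w, x w * (h w - c) := by
  unfold hLin
  have : c = ∑ w, x w * c := by rw [← Finset.sum_mul, hx.2.1, one_mul]
  rw [this, ← Finset.sum_sub_distrib]
  refine Finset.sum_congr rfl fun w _ => ?_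
  rw [← this]
  ring

variable [DecidableEq V]

omit [DecidableEq V] in
theorem combo_mem {S : Set (Finset V)} {x y : V → ℝ} {s : Finset V} (hs : s ∈ S)
    (hx : x ∈ sp S) (hy : y ∈ sp S) (hxs : ∀ w, w ∉ s → x w = 0) (hys : ∀ w, w ∉ s → y w = 0)
    {t : ℝ} (h0 : 0 ≤ t) (h1 : t ≤ 1) : (1 - t) • x + t • y ∈ sp S := by
  refine ⟨?_, ?_, s, hs, ?_⟩
  · intro w
    have h2 := hx.1 w
    have h3 := hy.1 w
    have h4 : 0 ≤ 1 - t := by linarith
    simp only [Pi.add_apply, Pi.smul_apply, smul_eq_mul]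
    positivity
  · simp only [Pi.add_apply, Pi.smul_apply, smul_eq_mul]
    rw [Finset.sum_add_distrib, ← Finset.mul_sum, ← Finset.mul_sum, hx.2.1, hy.2.1]
    ring
  · intro w hw
    simp [hxs w hw, hys w hw]

/-- The mass below the level of `v`. -/
noncomputable def low (h : V → ℝ) (c : ℝ) (x : V → ℝ) : ℝ :=
  open Classical in ∑ w, if h w ≤ c then x w else 0

/-- Normalised restriction to the vertices below the level `c`. -/
noncomputable def push (h : V → ℝ) (c : ℝ) (x : V → ℝ) : V → ℝ :=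
  open Classical in (low h c x)⁻¹ • fun w => if h w ≤ c then x w else 0

omit [DecidableEq V] in
theorem low_pos {S : Set (Finset V)} {h : V → ℝ} {c : ℝ} {x : V → ℝ} (hx : x ∈ sp S)
    (hle : hLin h x ≤ c) : 0 < low h c x := by
  classical
  have hnn : ∀ w, 0 ≤ if h w ≤ c then x w else 0 := by
    intro w
    split_ifs
    · exact hx.1 w
    · exact le_rfl
  have h0 : 0 ≤ low h c x := by
    unfold low
    exact Finset.sum_nonneg fun w _ => by convert hnn w
  refine lt_of_le_of_ne h0 fun he => ?_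
  have hz : ∀ w, h w ≤ c → x w = 0 := by
    intro w hw
    have h1 : low h c x = ∑ w, if h w ≤ c then x w else 0 := by
      unfold low
      exact Finset.sum_congr rfl fun w _ => by congr
    have h2 := (Finset.sum_eq_zero_iff_of_nonneg fun w _ => hnn w).1 (h1.symm.trans he.symm) w
      (Finset.mem_univ w)
    rwa [if_pos hw] at h2
  have h3 := hLin_sub h c hx
  have h4 : ∀ w, 0 ≤ x w * (h w - c) := by
    intro w
    rcases le_or_gt (h w) c with hw | hw
    · rw [hz w hw, zero_mul]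
    · exact mul_nonneg (hx.1 w) (by linarith)
  have h5 : ∑ w, x w * (h w - c) = 0 :=
    le_antisymm (by linarith) (Finset.sum_nonneg fun w _ => h4 w)
  have h6 := (Finset.sum_eq_zero_iff_of_nonneg fun w _ => h4 w).1 h5
  have h7 : ∑ w, x w = 0 := by
    refine Finset.sum_eq_zero fun w _ => ?_
    rcases le_or_gt (h w) c with hw | hw
    · exact hz w hw
    · have := h6 w (Finset.mem_univ w)
      rcases mul_eq_zero.1 this with h8 | h8
      · exact h8
      · linarith
  rw [hx.2.1] at h7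
  exact one_ne_zero h7

omit [DecidableEq V] in
theorem push_support {h : V → ℝ} {c : ℝ} {x : V → ℝ} {s : Finset V}
    (hs : ∀ w, w ∉ s → x w = 0) (w : V) (hw : w ∉ s) : push h c x w = 0 := by
  unfold push
  simp [hs w hw]

theorem push_mem {K : SComplex V} {h : V → ℝ} {c : ℝ} {x : V → ℝ} (hx : x ∈ sp K.faces)
    (hle : hLin h x ≤ c) : push h c x ∈ sp (fullSub K.faces fun w => h w ≤ c) := by
  classical
  have hp := low_pos hx hle
  have hsum : ∑ w, push h c x w = 1 := by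
    unfold push
    simp only [Pi.smul_apply, smul_eq_mul]
    rw [← Finset.mul_sum]
    exact inv_mul_cancel₀ hp.ne'
  obtain ⟨s, hs, hs'⟩ := hx.2.2
  have hz : ∀ w, w ∉ s.filter (fun w => h w ≤ c) → push h c x w = 0 := by
    intro w hw
    rw [Finset.mem_filter, not_and] at hw
    by_cases hws : w ∈ s
    · unfold push
      simp [hw hws]
    · exact push_support hs' w hws
  refine ⟨?_, hsum, s.filter (fun w => h w ≤ c), ⟨?_, ?_⟩, hz⟩
  · intro w
    unfold push
    simp only [Pi.smul_apply, smul_eq_mul]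
    refine mul_nonneg (inv_nonneg.2 hp.le) ?_
    split_ifs
    · exact hx.1 w
    · exact le_rfl
  · refine K.down_closed s hs _ (Finset.filter_subset _ _) ?_
    by_contra hne
    rw [Finset.not_nonempty_iff_eq_empty] at hne
    rw [hne] at hz
    have : ∑ w, push h c x w = 0 := Finset.sum_eq_zero fun w _ => hz w (Finset.notMem_empty w)
    rw [hsum] at this
    exact one_ne_zero this
  · intro w hw
    exact (Finset.mem_filter.1 hw).2

omit [DecidableEq V] in
theorem push_low {S : Set (Finset V)} {h : V → ℝ} {c : ℝ} {x : V → ℝ} (hx : x ∈ sp S)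
    (hle : hLin h x ≤ c) :
    low h c x * (hLin h (push h c x) - c) ≤ hLin h x - c := by
  classical
  have hp := low_pos hx hle
  have e1 : hLin h (push h c x) =
      (low h c x)⁻¹ * ∑ w, (if h w ≤ c then x w else 0) * h w := by
    unfold hLin push
    simp only [Pi.smul_apply, smul_eq_mul]
    rw [Finset.mul_sum]
    refine Finset.sum_congr rfl fun w _ => ?_
    rw [mul_assoc]
  have e2 : low h c x * (hLin h (push h c x) - c) =
      ∑ w, (if h w ≤ c then x w else 0) * (h w - c) := by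
    rw [e1, mul_sub, ← mul_assoc, mul_inv_cancel₀ hp.ne', one_mul]
    have : low h c x * c = ∑ w, (if h w ≤ c then x w else 0) * c := by
      rw [← Finset.sum_mul]
      unfold low
      congr
    rw [this, ← Finset.sum_sub_distrib]
    refine Finset.sum_congr rfl fun w _ => ?_
    ring
  rw [e2, hLin_sub h c hx]
  refine Finset.sum_le_sum fun w _ => ?_
  split_ifs with hw
  · exact le_rfl
  · rw [zero_mul]
    exact mul_nonneg (hx.1 w) (by linarith)

omit [DecidableEq V] in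
theorem push_le {S : Set (Finset V)} {h : V → ℝ} {c : ℝ} {x : V → ℝ} (hx : x ∈ sp S)
    (hle : hLin h x ≤ c) : hLin h (push h c x) ≤ c := by
  have h1 := push_low hx hle
  have hp := low_pos hx hle
  by_contra hlt
  push Not at hlt
  have : 0 < low h c x * (hLin h (push h c x) - c) := mul_pos hp (by linarith)
  linarith

omit [DecidableEq V] in
theorem push_lt {S : Set (Finset V)} {h : V → ℝ} {c : ℝ} {x : V → ℝ} (hx : x ∈ sp S)
    (hlt : hLin h x < c) : hLin h (push h c x) < c := by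
  have h1 := push_low hx hlt.le
  have hp := low_pos hx hlt.le
  by_contra hge
  push Not at hge
  have : 0 ≤ low h c x * (hLin h (push h c x) - c) := mul_nonneg hp.le (by linarith)
  linarith

omit [DecidableEq V] in
theorem continuousOn_push (S : Set (Finset V)) (h : V → ℝ) (c : ℝ) :
    ContinuousOn (push h c) {x | x ∈ sp S ∧ hLin h x ≤ c} := by
  classical
  have h1 : Continuous (low h c) := by
    unfold low
    refine continuous_finsetSum _ fun w _ => ?_
    split_ifs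
    · fun_prop
    · fun_prop
  have h2 : Continuous fun (x : V → ℝ) (w : V) => if h w ≤ c then x w else 0 := by
    refine continuous_pi fun w => ?_
    split_ifs
    · fun_prop
    · fun_prop
  unfold push
  refine ContinuousOn.smul (ContinuousOn.inv₀ h1.continuousOn ?_) ?_
  · intro x hx
    exact (low_pos hx.1 hx.2).ne'
  · convert h2.continuousOn using 3

theorem lt_of_apply_lt {S : Set (Finset V)} {h : V → ℝ} {v : V} {x : V → ℝ}
    (hx : x ∈ sp S) (hh : ∀ w, w ≠ v → x w ≠ 0 → h w < h v) (hlt : x v < 1) : hLin h x < h v := by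
  have h1 := hLin_sub h (h v) hx
  have h2 : ∀ w, x w * (h w - h v) ≤ 0 := by
    intro w
    by_cases hw : w = v
    · rw [hw, sub_self, mul_zero]
    · by_cases hw0 : x w = 0
      · rw [hw0, zero_mul]
      · exact mul_nonpos_of_nonneg_of_nonpos (hx.1 w) (by linarith [hh w hw hw0])
  have h3 : ∃ w, w ≠ v ∧ x w ≠ 0 := by
    by_contra hne
    push Not at hne
    have h4 : ∑ w, x w = x v := by
      refine Finset.sum_eq_single v (fun w _ hw => hne w hw) fun h => absurd (Finset.mem_univ v) h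
    rw [hx.2.1] at h4
    linarith
  obtain ⟨w, hw, hw0⟩ := h3
  have h5 : x w * (h w - h v) < 0 := by
    have h6 : 0 < x w := lt_of_le_of_ne (hx.1 w) (Ne.symm hw0)
    exact mul_neg_of_pos_of_neg h6 (by linarith [hh w hw hw0])
  have h7 : ∑ w, x w * (h w - h v) < 0 :=
    Finset.sum_neg' (fun w _ => h2 w) ⟨w, Finset.mem_univ w, h5⟩
  linarith

theorem hLin_single (h : V → ℝ) (v : V) : hLin h (Pi.single v 1) = h v := by
  unfold hLin
  rw [Finset.sum_eq_single v]
  · simp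
  · intro w _ hw
    simp [hw]
  · intro h
    exact absurd (Finset.mem_univ v) h

theorem apply_lt_of_lt {S : Set (Finset V)} {h : V → ℝ} {v : V} {x : V → ℝ} (hx : x ∈ sp S)
    (hlt : hLin h x < h v) : x v < 1 := by
  refine lt_of_le_of_ne (sp_le_one hx v) fun h1 => ?_
  rw [eq_single hx h1, hLin_single] at hlt
  exact lt_irrefl _ hlt

theorem linkF_eq (K : SComplex V) (h : V → ℝ) (hh : Function.Injective h) (v : V) :
    linkF (fullSub K.faces fun w => h w ≤ h v) v = lowerLink K.faces h v := by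
  ext s
  constructor
  · rintro ⟨h1, h2, h3, h4⟩
    refine ⟨h1, h2, h3, fun w hw => ?_⟩
    refine lt_of_le_of_ne (h4 w (Finset.mem_insert_of_mem hw)) fun he => ?_
    rw [hh he] at hw
    exact h2 hw
  · rintro ⟨h1, h2, h3, h4⟩
    refine ⟨h1, h2, h3, fun w hw => ?_⟩
    rcases Finset.mem_insert.1 hw with h5 | h5
    · rw [h5]
    · exact (h4 w h5).le

/-- The deformation of the sublevel set. -/
theorem exists_deform (K : SComplex V) (h : V → ℝ) (hh : Function.Injective h) (v : V)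
    (hc : ContractibleSpace (sp (lowerLink K.faces h v))) : ∃ H : ℝ × (V → ℝ) → (V → ℝ),
    ContinuousOn H (Icc (0 : ℝ) 1 ×ˢ {x | x ∈ sp K.faces ∧ hLin h x ≤ h v}) ∧
    (∀ t ∈ Icc (0 : ℝ) 1, ∀ x ∈ sp K.faces, hLin h x ≤ h v →
      H (t, x) ∈ sp K.faces ∧ hLin h (H (t, x)) ≤ h v) ∧
    (∀ x ∈ sp K.faces, hLin h x ≤ h v → H (0, x) = x) ∧
    (∀ x ∈ sp K.faces, hLin h x ≤ h v → hLin h (H (1, x)) < h v) ∧
    (∀ t ∈ Icc (0 : ℝ) 1, ∀ x ∈ sp K.faces, hLin h x < h v → hLin h (H (t, x)) < h v) := by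
  set S := fullSub K.faces fun w => h w ≤ h v with hS
  have hdown : DownClosed S := by
    refine ⟨fun s hs => K.nonempty s hs.1, fun s hs t ht hne => ?_⟩
    exact ⟨K.down_closed s hs.1 t ht hne, fun w hw => hs.2 w (ht hw)⟩
  rw [← linkF_eq K h hh v] at hc
  obtain ⟨D, hD1, hD2, hD3, hD4, hD5, hD6⟩ := star_deform S hdown v hc
  have hsub : ∀ x ∈ sp S, x ∈ sp K.faces ∧ hLin h x ≤ h v := by
    rintro x ⟨hx1, hx2, s, hs, hx3⟩
    have hx : x ∈ sp K.faces := ⟨hx1, hx2, s, hs.1, hx3⟩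
    refine ⟨hx, ?_⟩
    have h1 := hLin_sub h (h v) hx
    have h2 : ∑ w, x w * (h w - h v) ≤ 0 := by
      refine Finset.sum_nonpos fun w _ => ?_
      by_cases hw : w ∈ s
      · exact mul_nonpos_of_nonneg_of_nonpos (hx1 w) (by linarith [hs.2 w hw])
      · rw [hx3 w hw, zero_mul]
    linarith
  have hlow : ∀ x ∈ sp S, ∀ w, w ≠ v → x w ≠ 0 → h w < h v := by
    rintro x ⟨hx1, hx2, s, hs, hx3⟩ w hw hw0
    have hws : w ∈ s := by
      by_contra hws
      exact hw0 (hx3 w hws)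
    exact lt_of_le_of_ne (hs.2 w hws) fun he => hw (hh he)
  have hltS : ∀ x ∈ sp S, x v < 1 → hLin h x < h v := fun x hx hlt =>
    lt_of_apply_lt hx (hlow x hx) hlt
  let H1 : ℝ × (V → ℝ) → (V → ℝ) := fun p => (1 - p.1) • p.2 + p.1 • push h (h v) p.2
  set X : Set (V → ℝ) := {x | x ∈ sp K.faces ∧ hLin h x ≤ h v} with hX
  have hH1c : ContinuousOn H1 (Icc (0 : ℝ) 1 ×ˢ X) := by
    have h1 : ContinuousOn (fun p : ℝ × (V → ℝ) => push h (h v) p.2) (Icc (0 : ℝ) 1 ×ˢ X) := by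
      refine (continuousOn_push K.faces h (h v)).comp (f := fun p : ℝ × (V → ℝ) => p.2)
        (by fun_prop) ?_
      rintro ⟨t, x⟩ ⟨_, hx⟩
      exact hx
    have h2 : ContinuousOn (fun p : ℝ × (V → ℝ) => p.1) (Icc (0 : ℝ) 1 ×ˢ X) := by fun_prop
    have h3 : ContinuousOn (fun p : ℝ × (V → ℝ) => (1 - p.1) • p.2) (Icc (0 : ℝ) 1 ×ˢ X) := by
      fun_prop
    exact h3.add (h2.smul h1)
  have hH11 : ∀ x, H1 (1, x) = push h (h v) x := by
    intro x
    simp [H1]
  have hpS : ∀ x ∈ X, push h (h v) x ∈ sp S := fun x hx => push_mem hx.1 hx.2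
  have hH1mem : ∀ t ∈ Icc (0 : ℝ) 1, ∀ x ∈ X, H1 (t, x) ∈ sp K.faces := by
    intro t ht x hx
    have hx' := hx
    obtain ⟨⟨hx1, hx2, s, hs, hx3⟩, hx4⟩ := hx'
    exact combo_mem hs hx.1 (hsub _ (hpS x hx)).1 hx3 (push_support hx3) ht.1 ht.2
  have hH1h : ∀ t x, hLin h (H1 (t, x)) = (1 - t) * hLin h x + t * hLin h (push h (h v) x) :=
    fun t x => hLin_combo h _ _ _ _
  have hH1le : ∀ t ∈ Icc (0 : ℝ) 1, ∀ x ∈ X, hLin h (H1 (t, x)) ≤ h v := by
    intro t ht x hx
    rw [hH1h]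
    have h1 := push_le hx.1 hx.2
    have h2 : (1 - t) * hLin h x ≤ (1 - t) * h v :=
      mul_le_mul_of_nonneg_left hx.2 (by linarith [ht.2])
    have h3 : t * hLin h (push h (h v) x) ≤ t * h v := mul_le_mul_of_nonneg_left h1 ht.1
    linarith
  have hH1lt : ∀ t ∈ Icc (0 : ℝ) 1, ∀ x ∈ sp K.faces, hLin h x < h v →
      hLin h (H1 (t, x)) < h v := by
    intro t ht x hx hlt
    rw [hH1h]
    have h1 := push_lt hx hlt
    rcases eq_or_lt_of_le ht.1 with h0 | h0
    · rw [← h0]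
      linarith
    · have h2 : (1 - t) * hLin h x ≤ (1 - t) * h v :=
        mul_le_mul_of_nonneg_left hlt.le (by linarith [ht.2])
      have h3 : t * hLin h (push h (h v) x) < t * h v := mul_lt_mul_of_pos_left h1 h0
      linarith
  refine ⟨fun p => if p.1 ≤ 1 / 2 then H1 (2 * p.1, p.2) else D (2 * p.1 - 1, H1 (1, p.2)),
    glue hH1c hD1 ?_ hD3, ?_, ?_, ?_, ?_⟩
  · intro x hx
    rw [hH11]
    exact hpS x hx
  · intro t ht x hx hle
    by_cases h1 : t ≤ 1 / 2
    · simp only [if_pos h1]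
      have h2 : 2 * t ∈ Icc (0 : ℝ) 1 := ⟨by linarith [ht.1], by linarith⟩
      exact ⟨hH1mem _ h2 x ⟨hx, hle⟩, hH1le _ h2 x ⟨hx, hle⟩⟩
    · simp only [if_neg h1]
      rw [hH11]
      have h2 : 2 * t - 1 ∈ Icc (0 : ℝ) 1 := ⟨by linarith [not_le.1 h1], by linarith [ht.2]⟩
      exact hsub _ (hD2 _ h2 _ (hpS x ⟨hx, hle⟩))
  · intro x hx hle
    have h0 : (0 : ℝ) ≤ 1 / 2 := by norm_num
    simp only [if_pos h0]
    simp [H1]
  · intro x hx hle
    have h0 : ¬ (1 : ℝ) ≤ 1 / 2 := by norm_num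
    simp only [if_neg h0]
    have h2 : (2 : ℝ) * 1 - 1 = 1 := by norm_num
    rw [h2, hH11]
    have h3 := hD2 1 ⟨zero_le_one, le_rfl⟩ _ (hpS x ⟨hx, hle⟩)
    refine hltS _ h3 ?_
    rw [hD4 _ (hpS x ⟨hx, hle⟩)]
    exact zero_lt_one
  · intro t ht x hx hlt
    by_cases h1 : t ≤ 1 / 2
    · simp only [if_pos h1]
      have h2 : 2 * t ∈ Icc (0 : ℝ) 1 := ⟨by linarith [ht.1], by linarith⟩
      exact hH1lt _ h2 x hx hlt
    · simp only [if_neg h1]
      rw [hH11]
      have h2 : 2 * t - 1 ∈ Icc (0 : ℝ) 1 := ⟨by linarith [not_le.1 h1], by linarith [ht.2]⟩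
      have h3 := hpS x ⟨hx, hlt.le⟩
      refine hltS _ (hD2 _ h2 _ h3) ?_
      exact (hD6 _ h2 _ h3).trans_lt (apply_lt_of_lt h3 (push_lt hx hlt))

end Pool.Agent.PolyKnots.BE22
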