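import Pool.Agent.W_MP_be6f00_gt.Basic

set_option autoImplicit false

/-! Data of the 2-sphere `U ⊂ ℝ⁴` (coordinates `p, q, r, t`) for MP_be6f00_gt: the boundary of the
3-ball `W` made of 176 unit cubes; `D0 = U ∩ {t ≤ 0}`, `D1 = U ∩ {t ≥ 0}`. Generated. -/

namespace Pool.Agent.PolyKnots

/-- The coordinates `p, q, r, t` of the 396 vertices of `U`. -/
def coordList : List (List ℤ) := [
  [0, 0, 1, -2], [0, 0, 2, -2], [0, 1, 1, -2], [0, 1, 2, -2], [0, 2, 1, -2], [0, 2, 2, -2], [0, 3, 1, -2], [0, 3, 2, -2],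
  [0, 4, 1, -2], [0, 4, 2, -2], [1, 0, 1, -2], [1, 0, 2, -2], [1, 1, 1, -2], [1, 1, 2, -2], [1, 2, 1, -2], [1, 2, 2, -2],
  [1, 3, 1, -2], [1, 3, 2, -2], [1, 4, 1, -2], [1, 4, 2, -2], [2, 0, 1, -2], [2, 0, 2, -2], [2, 1, 1, -2], [2, 1, 2, -2],
  [2, 2, 1, -2], [2, 2, 2, -2], [2, 3, 1, -2], [2, 3, 2, -2], [2, 4, 1, -2], [2, 4, 2, -2], [3, 0, 1, -2], [3, 0, 2, -2],
  [3, 1, 1, -2], [3, 1, 2, -2], [3, 2, 1, -2], [3, 2, 2, -2], [3, 3, 1, -2], [3, 3, 2, -2], [3, 4, 1, -2], [3, 4, 2, -2],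
  [4, 0, 1, -2], [4, 0, 2, -2], [4, 1, 1, -2], [4, 1, 2, -2], [4, 2, 1, -2], [4, 2, 2, -2], [4, 3, 1, -2], [4, 3, 2, -2],
  [4, 4, 1, -2], [4, 4, 2, -2], [5, 0, 1, -2], [5, 0, 2, -2], [5, 1, 1, -2], [5, 1, 2, -2], [5, 2, 1, -2], [5, 2, 2, -2],
  [5, 3, 1, -2], [5, 3, 2, -2], [5, 4, 1, -2], [5, 4, 2, -2], [0, 0, 1, -1], [0, 0, 2, -1], [0, 1, 1, -1], [0, 1, 2, -1],
  [0, 2, 1, -1], [0, 2, 2, -1], [0, 3, 1, -1], [0, 3, 2, -1], [0, 4, 1, -1], [0, 4, 2, -1], [1, 0, 1, -1], [1, 0, 2, -1],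
  [1, 1, 0, -1], [1, 1, 1, -1], [1, 1, 2, -1], [1, 1, 3, -1], [1, 1, 4, -1], [1, 2, 0, -1], [1, 2, 1, -1], [1, 2, 2, -1],
  [1, 2, 3, -1], [1, 2, 4, -1], [1, 4, 1, -1], [1, 4, 2, -1], [2, 0, 1, -1], [2, 0, 2, -1], [2, 1, 0, -1], [2, 1, 1, -1],
  [2, 1, 2, -1], [2, 1, 4, -1], [2, 2, 0, -1], [2, 2, 1, -1], [2, 2, 2, -1], [2, 2, 4, -1], [2, 3, 1, -1], [2, 3, 2, -1],
  [2, 4, 1, -1], [2, 4, 2, -1], [3, 0, 1, -1], [3, 0, 2, -1], [3, 1, 0, -1], [3, 1, 1, -1], [3, 1, 2, -1], [3, 1, 3, -1],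
  [3, 1, 4, -1], [3, 2, 0, -1], [3, 2, 1, -1], [3, 2, 2, -1], [3, 2, 3, -1], [3, 2, 4, -1], [3, 3, 1, -1], [3, 3, 2, -1],
  [3, 4, 1, -1], [3, 4, 2, -1], [4, 0, 1, -1], [4, 0, 2, -1], [4, 1, 0, -1], [4, 1, 1, -1], [4, 1, 2, -1], [4, 1, 3, -1],
  [4, 1, 4, -1], [4, 2, 0, -1], [4, 2, 1, -1], [4, 2, 2, -1], [4, 2, 3, -1], [4, 2, 4, -1], [4, 4, 1, -1], [4, 4, 2, -1],
  [5, 0, 1, -1], [5, 0, 2, -1], [5, 1, 0, -1], [5, 1, 1, -1], [5, 1, 2, -1], [5, 1, 4, -1], [5, 2, 0, -1], [5, 2, 1, -1],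
  [5, 2, 2, -1], [5, 2, 4, -1], [5, 3, 1, -1], [5, 3, 2, -1], [5, 4, 1, -1], [5, 4, 2, -1], [6, 1, 0, -1], [6, 1, 1, -1],
  [6, 1, 2, -1], [6, 1, 3, -1], [6, 1, 4, -1], [6, 2, 0, -1], [6, 2, 1, -1], [6, 2, 2, -1], [6, 2, 3, -1], [6, 2, 4, -1],
  [0, 0, 1, 0], [0, 0, 2, 0], [0, 1, 1, 0], [0, 1, 2, 0], [0, 2, 1, 0], [0, 2, 2, 0], [0, 3, 1, 0], [0, 3, 2, 0],
  [0, 4, 1, 0], [0, 4, 2, 0], [1, 0, 1, 0], [1, 0, 2, 0], [1, 1, 0, 0], [1, 1, 1, 0], [1, 1, 2, 0], [1, 1, 3, 0],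
  [1, 1, 4, 0], [1, 2, 0, 0], [1, 2, 1, 0], [1, 2, 2, 0], [1, 2, 3, 0], [1, 2, 4, 0], [1, 4, 1, 0], [1, 4, 2, 0],
  [2, 0, 1, 0], [2, 0, 2, 0], [2, 1, 0, 0], [2, 1, 1, 0], [2, 1, 2, 0], [2, 1, 4, 0], [2, 2, 0, 0], [2, 2, 1, 0],
  [2, 2, 2, 0], [2, 2, 4, 0], [2, 3, 1, 0], [2, 3, 2, 0], [2, 4, 1, 0], [2, 4, 2, 0], [3, 0, 1, 0], [3, 0, 2, 0],
  [3, 1, 0, 0], [3, 1, 1, 0], [3, 1, 2, 0], [3, 1, 3, 0], [3, 1, 4, 0], [3, 2, 0, 0], [3, 2, 1, 0], [3, 2, 2, 0],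
  [3, 2, 3, 0], [3, 2, 4, 0], [3, 3, 1, 0], [3, 3, 2, 0], [3, 4, 1, 0], [3, 4, 2, 0], [4, 0, 1, 0], [4, 0, 2, 0],
  [4, 1, 0, 0], [4, 1, 1, 0], [4, 1, 2, 0], [4, 1, 3, 0], [4, 1, 4, 0], [4, 2, 0, 0], [4, 2, 1, 0], [4, 2, 2, 0],
  [4, 2, 3, 0], [4, 2, 4, 0], [4, 4, 1, 0], [4, 4, 2, 0], [5, 0, 1, 0], [5, 0, 2, 0], [5, 1, 0, 0], [5, 1, 1, 0],
  [5, 1, 2, 0], [5, 1, 4, 0], [5, 2, 0, 0], [5, 2, 1, 0], [5, 2, 2, 0], [5, 2, 4, 0], [5, 3, 1, 0], [5, 3, 2, 0],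
  [5, 4, 1, 0], [5, 4, 2, 0], [6, 1, 0, 0], [6, 1, 1, 0], [6, 1, 2, 0], [6, 1, 3, 0], [6, 1, 4, 0], [6, 2, 0, 0],
  [6, 2, 1, 0], [6, 2, 2, 0], [6, 2, 3, 0], [6, 2, 4, 0], [0, 0, 1, 1], [0, 0, 2, 1], [0, 1, 1, 1], [0, 1, 2, 1],
  [0, 2, 1, 1], [0, 2, 2, 1], [0, 3, 1, 1], [0, 3, 2, 1], [0, 4, 1, 1], [0, 4, 2, 1], [1, 0, 1, 1], [1, 0, 2, 1],
  [1, 1, 0, 1], [1, 1, 1, 1], [1, 1, 2, 1], [1, 1, 3, 1], [1, 1, 4, 1], [1, 2, 0, 1], [1, 2, 1, 1], [1, 2, 2, 1],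
  [1, 2, 3, 1], [1, 2, 4, 1], [1, 4, 1, 1], [1, 4, 2, 1], [2, 0, 1, 1], [2, 0, 2, 1], [2, 1, 0, 1], [2, 1, 1, 1],
  [2, 1, 2, 1], [2, 1, 4, 1], [2, 2, 0, 1], [2, 2, 1, 1], [2, 2, 2, 1], [2, 2, 4, 1], [2, 3, 1, 1], [2, 3, 2, 1],
  [2, 4, 1, 1], [2, 4, 2, 1], [3, 0, 1, 1], [3, 0, 2, 1], [3, 1, 0, 1], [3, 1, 1, 1], [3, 1, 2, 1], [3, 1, 3, 1],
  [3, 1, 4, 1], [3, 2, 0, 1], [3, 2, 1, 1], [3, 2, 2, 1], [3, 2, 3, 1], [3, 2, 4, 1], [3, 3, 1, 1], [3, 3, 2, 1],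
  [3, 4, 1, 1], [3, 4, 2, 1], [4, 0, 1, 1], [4, 0, 2, 1], [4, 1, 0, 1], [4, 1, 1, 1], [4, 1, 2, 1], [4, 1, 3, 1],
  [4, 1, 4, 1], [4, 2, 0, 1], [4, 2, 1, 1], [4, 2, 2, 1], [4, 2, 3, 1], [4, 2, 4, 1], [4, 4, 1, 1], [4, 4, 2, 1],
  [5, 0, 1, 1], [5, 0, 2, 1], [5, 1, 0, 1], [5, 1, 1, 1], [5, 1, 2, 1], [5, 1, 4, 1], [5, 2, 0, 1], [5, 2, 1, 1],
  [5, 2, 2, 1], [5, 2, 4, 1], [5, 3, 1, 1], [5, 3, 2, 1], [5, 4, 1, 1], [5, 4, 2, 1], [6, 1, 0, 1], [6, 1, 1, 1],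
  [6, 1, 2, 1], [6, 1, 3, 1], [6, 1, 4, 1], [6, 2, 0, 1], [6, 2, 1, 1], [6, 2, 2, 1], [6, 2, 3, 1], [6, 2, 4, 1],
  [1, 1, 0, 2], [1, 1, 1, 2], [1, 1, 2, 2], [1, 1, 3, 2], [1, 1, 4, 2], [1, 2, 0, 2], [1, 2, 1, 2], [1, 2, 2, 2],
  [1, 2, 3, 2], [1, 2, 4, 2], [2, 1, 0, 2], [2, 1, 1, 2], [2, 1, 2, 2], [2, 1, 3, 2], [2, 1, 4, 2], [2, 2, 0, 2],
  [2, 2, 1, 2], [2, 2, 2, 2], [2, 2, 3, 2], [2, 2, 4, 2], [3, 1, 0, 2], [3, 1, 1, 2], [3, 1, 2, 2], [3, 1, 3, 2],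
  [3, 1, 4, 2], [3, 2, 0, 2], [3, 2, 1, 2], [3, 2, 2, 2], [3, 2, 3, 2], [3, 2, 4, 2], [4, 1, 0, 2], [4, 1, 1, 2],
  [4, 1, 2, 2], [4, 1, 3, 2], [4, 1, 4, 2], [4, 2, 0, 2], [4, 2, 1, 2], [4, 2, 2, 2], [4, 2, 3, 2], [4, 2, 4, 2],
  [5, 1, 0, 2], [5, 1, 1, 2], [5, 1, 2, 2], [5, 1, 3, 2], [5, 1, 4, 2], [5, 2, 0, 2], [5, 2, 1, 2], [5, 2, 2, 2],
  [5, 2, 3, 2], [5, 2, 4, 2], [6, 1, 0, 2], [6, 1, 1, 2], [6, 1, 2, 2], [6, 1, 3, 2], [6, 1, 4, 2], [6, 2, 0, 2],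
  [6, 2, 1, 2], [6, 2, 2, 2], [6, 2, 3, 2], [6, 2, 4, 2]]

/-- The 197 unit squares of `D0`: lower corner and the two directions. -/
def sqs0 : List (List ℤ × ℕ × ℕ) := [
  ([0, 0, 1, -2], 0, 1), ([0, 0, 2, -2], 0, 1), ([0, 1, 1, -2], 0, 1), ([0, 1, 2, -2], 0, 1), ([0, 2, 1, -2], 0, 1), ([0, 2, 2, -2], 0, 1),
  ([0, 3, 1, -2], 0, 1), ([0, 3, 2, -2], 0, 1), ([1, 0, 1, -2], 0, 1), ([1, 0, 2, -2], 0, 1), ([1, 1, 1, -2], 0, 1), ([1, 1, 2, -2], 0, 1),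
  ([1, 2, 1, -2], 0, 1), ([1, 2, 2, -2], 0, 1), ([1, 3, 1, -2], 0, 1), ([1, 3, 2, -2], 0, 1), ([2, 3, 1, -2], 0, 1), ([2, 3, 2, -2], 0, 1),
  ([3, 0, 1, -2], 0, 1), ([3, 0, 2, -2], 0, 1), ([3, 1, 1, -2], 0, 1), ([3, 1, 2, -2], 0, 1), ([3, 2, 1, -2], 0, 1), ([3, 2, 2, -2], 0, 1),
  ([3, 3, 1, -2], 0, 1), ([3, 3, 2, -2], 0, 1), ([4, 0, 1, -2], 0, 1), ([4, 0, 2, -2], 0, 1), ([4, 1, 1, -2], 0, 1), ([4, 1, 2, -2], 0, 1),
  ([4, 2, 1, -2], 0, 1), ([4, 2, 2, -2], 0, 1), ([4, 3, 1, -2], 0, 1), ([4, 3, 2, -2], 0, 1), ([0, 0, 1, -2], 1, 3), ([0, 0, 1, -2], 0, 3),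
  ([0, 0, 2, -2], 1, 3), ([0, 0, 2, -2], 0, 3), ([0, 1, 1, -2], 1, 3), ([0, 1, 2, -2], 1, 3), ([0, 2, 1, -2], 1, 3), ([0, 2, 2, -2], 1, 3),
  ([0, 3, 1, -2], 1, 3), ([0, 3, 2, -2], 1, 3), ([0, 4, 1, -2], 0, 3), ([0, 4, 2, -2], 0, 3), ([1, 0, 1, -2], 0, 3), ([1, 0, 2, -2], 0, 3),
  ([1, 4, 1, -2], 0, 3), ([1, 4, 2, -2], 0, 3), ([2, 0, 1, -2], 1, 3), ([2, 0, 2, -2], 1, 3), ([2, 1, 1, -2], 1, 3), ([2, 1, 2, -2], 1, 3),
  ([2, 2, 1, -2], 1, 3), ([2, 2, 2, -2], 1, 3), ([2, 3, 1, -2], 0, 3), ([2, 3, 2, -2], 0, 3), ([2, 4, 1, -2], 0, 3), ([2, 4, 2, -2], 0, 3),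
  ([3, 0, 1, -2], 1, 3), ([3, 0, 1, -2], 0, 3), ([3, 0, 2, -2], 1, 3), ([3, 0, 2, -2], 0, 3), ([3, 1, 1, -2], 1, 3), ([3, 1, 2, -2], 1, 3),
  ([3, 2, 1, -2], 1, 3), ([3, 2, 2, -2], 1, 3), ([3, 4, 1, -2], 0, 3), ([3, 4, 2, -2], 0, 3), ([4, 0, 1, -2], 0, 3), ([4, 0, 2, -2], 0, 3),
  ([4, 4, 1, -2], 0, 3), ([4, 4, 2, -2], 0, 3), ([5, 0, 1, -2], 1, 3), ([5, 0, 2, -2], 1, 3), ([5, 1, 1, -2], 1, 3), ([5, 1, 2, -2], 1, 3),
  ([5, 2, 1, -2], 1, 3), ([5, 2, 2, -2], 1, 3), ([5, 3, 1, -2], 1, 3), ([5, 3, 2, -2], 1, 3), ([1, 1, 0, -1], 1, 2), ([1, 1, 0, -1], 0, 1),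
  ([1, 1, 1, -1], 1, 2), ([1, 1, 2, -1], 1, 2), ([1, 1, 3, -1], 1, 2), ([1, 1, 4, -1], 0, 1), ([2, 1, 0, -1], 0, 1), ([2, 1, 4, -1], 0, 1),
  ([3, 1, 0, -1], 1, 2), ([3, 1, 2, -1], 1, 2), ([3, 1, 3, -1], 0, 1), ([3, 1, 4, -1], 0, 1), ([4, 1, 0, -1], 1, 2), ([4, 1, 0, -1], 0, 1),
  ([4, 1, 1, -1], 1, 2), ([4, 1, 2, -1], 1, 2), ([4, 1, 4, -1], 0, 1), ([5, 1, 0, -1], 0, 1), ([5, 1, 4, -1], 0, 1), ([6, 1, 0, -1], 1, 2),
  ([6, 1, 1, -1], 1, 2), ([6, 1, 2, -1], 1, 2), ([6, 1, 3, -1], 1, 2), ([0, 0, 1, -1], 1, 3), ([0, 0, 1, -1], 0, 3), ([0, 0, 2, -1], 1, 3),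
  ([0, 0, 2, -1], 0, 3), ([0, 1, 1, -1], 1, 3), ([0, 1, 2, -1], 1, 3), ([0, 2, 1, -1], 1, 3), ([0, 2, 2, -1], 1, 3), ([0, 3, 1, -1], 1, 3),
  ([0, 3, 2, -1], 1, 3), ([0, 4, 1, -1], 0, 3), ([0, 4, 2, -1], 0, 3), ([1, 0, 1, -1], 0, 3), ([1, 0, 2, -1], 0, 3), ([1, 1, 0, -1], 2, 3),
  ([1, 1, 0, -1], 0, 3), ([1, 1, 1, -1], 2, 3), ([1, 1, 2, -1], 2, 3), ([1, 1, 3, -1], 2, 3), ([1, 1, 4, -1], 0, 3), ([1, 2, 0, -1], 2, 3),
  ([1, 2, 0, -1], 0, 3), ([1, 2, 1, -1], 2, 3), ([1, 2, 2, -1], 2, 3), ([1, 2, 3, -1], 2, 3), ([1, 2, 4, -1], 0, 3), ([1, 4, 1, -1], 0, 3),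
  ([1, 4, 2, -1], 0, 3), ([2, 0, 1, -1], 1, 3), ([2, 0, 2, -1], 1, 3), ([2, 1, 0, -1], 0, 3), ([2, 1, 1, -1], 1, 3), ([2, 1, 2, -1], 1, 3),
  ([2, 1, 4, -1], 0, 3), ([2, 2, 0, -1], 0, 3), ([2, 2, 1, -1], 1, 3), ([2, 2, 2, -1], 1, 3), ([2, 2, 4, -1], 0, 3), ([2, 3, 1, -1], 0, 3),
  ([2, 3, 2, -1], 0, 3), ([2, 4, 1, -1], 0, 3), ([2, 4, 2, -1], 0, 3), ([3, 0, 1, -1], 1, 3), ([3, 0, 1, -1], 0, 3), ([3, 0, 2, -1], 1, 3),
  ([3, 0, 2, -1], 0, 3), ([3, 1, 0, -1], 2, 3), ([3, 1, 2, -1], 2, 3), ([3, 1, 3, -1], 0, 3), ([3, 1, 4, -1], 0, 3), ([3, 2, 0, -1], 2, 3),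
  ([3, 2, 1, -1], 1, 3), ([3, 2, 2, -1], 2, 3), ([3, 2, 2, -1], 1, 3), ([3, 2, 3, -1], 0, 3), ([3, 2, 4, -1], 0, 3), ([3, 4, 1, -1], 0, 3),
  ([3, 4, 2, -1], 0, 3), ([4, 0, 1, -1], 0, 3), ([4, 0, 2, -1], 0, 3), ([4, 1, 0, -1], 2, 3), ([4, 1, 0, -1], 0, 3), ([4, 1, 1, -1], 2, 3),
  ([4, 1, 2, -1], 2, 3), ([4, 1, 4, -1], 0, 3), ([4, 2, 0, -1], 2, 3), ([4, 2, 0, -1], 0, 3), ([4, 2, 1, -1], 2, 3), ([4, 2, 2, -1], 2, 3),
  ([4, 2, 4, -1], 0, 3), ([4, 4, 1, -1], 0, 3), ([4, 4, 2, -1], 0, 3), ([5, 0, 1, -1], 1, 3), ([5, 0, 2, -1], 1, 3), ([5, 1, 0, -1], 0, 3),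
  ([5, 1, 1, -1], 1, 3), ([5, 1, 2, -1], 1, 3), ([5, 1, 4, -1], 0, 3), ([5, 2, 0, -1], 0, 3), ([5, 2, 1, -1], 1, 3), ([5, 2, 2, -1], 1, 3),
  ([5, 2, 4, -1], 0, 3), ([5, 3, 1, -1], 1, 3), ([5, 3, 2, -1], 1, 3), ([6, 1, 0, -1], 2, 3), ([6, 1, 1, -1], 2, 3), ([6, 1, 2, -1], 2, 3),
  ([6, 1, 3, -1], 2, 3), ([6, 2, 0, -1], 2, 3), ([6, 2, 1, -1], 2, 3), ([6, 2, 2, -1], 2, 3), ([6, 2, 3, -1], 2, 3)]

/-- The 197 unit squares of `D1`. -/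
def sqs1 : List (List ℤ × ℕ × ℕ) := [
  ([0, 0, 1, 0], 1, 3), ([0, 0, 1, 0], 0, 3), ([0, 0, 2, 0], 1, 3), ([0, 0, 2, 0], 0, 3), ([0, 1, 1, 0], 1, 3), ([0, 1, 2, 0], 1, 3),
  ([0, 2, 1, 0], 1, 3), ([0, 2, 2, 0], 1, 3), ([0, 3, 1, 0], 1, 3), ([0, 3, 2, 0], 1, 3), ([0, 4, 1, 0], 0, 3), ([0, 4, 2, 0], 0, 3),
  ([1, 0, 1, 0], 0, 3), ([1, 0, 2, 0], 0, 3), ([1, 1, 0, 0], 2, 3), ([1, 1, 0, 0], 0, 3), ([1, 1, 1, 0], 2, 3), ([1, 1, 2, 0], 2, 3),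
  ([1, 1, 3, 0], 2, 3), ([1, 1, 4, 0], 0, 3), ([1, 2, 0, 0], 2, 3), ([1, 2, 0, 0], 0, 3), ([1, 2, 1, 0], 2, 3), ([1, 2, 2, 0], 2, 3),
  ([1, 2, 3, 0], 2, 3), ([1, 2, 4, 0], 0, 3), ([1, 4, 1, 0], 0, 3), ([1, 4, 2, 0], 0, 3), ([2, 0, 1, 0], 1, 3), ([2, 0, 2, 0], 1, 3),
  ([2, 1, 0, 0], 0, 3), ([2, 1, 1, 0], 1, 3), ([2, 1, 2, 0], 1, 3), ([2, 1, 4, 0], 0, 3), ([2, 2, 0, 0], 0, 3), ([2, 2, 1, 0], 1, 3),
  ([2, 2, 2, 0], 1, 3), ([2, 2, 4, 0], 0, 3), ([2, 3, 1, 0], 0, 3), ([2, 3, 2, 0], 0, 3), ([2, 4, 1, 0], 0, 3), ([2, 4, 2, 0], 0, 3),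
  ([3, 0, 1, 0], 1, 3), ([3, 0, 1, 0], 0, 3), ([3, 0, 2, 0], 1, 3), ([3, 0, 2, 0], 0, 3), ([3, 1, 0, 0], 2, 3), ([3, 1, 2, 0], 2, 3),
  ([3, 1, 3, 0], 0, 3), ([3, 1, 4, 0], 0, 3), ([3, 2, 0, 0], 2, 3), ([3, 2, 1, 0], 1, 3), ([3, 2, 2, 0], 2, 3), ([3, 2, 2, 0], 1, 3),
  ([3, 2, 3, 0], 0, 3), ([3, 2, 4, 0], 0, 3), ([3, 4, 1, 0], 0, 3), ([3, 4, 2, 0], 0, 3), ([4, 0, 1, 0], 0, 3), ([4, 0, 2, 0], 0, 3),
  ([4, 1, 0, 0], 2, 3), ([4, 1, 0, 0], 0, 3), ([4, 1, 1, 0], 2, 3), ([4, 1, 2, 0], 2, 3), ([4, 1, 4, 0], 0, 3), ([4, 2, 0, 0], 2, 3),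
  ([4, 2, 0, 0], 0, 3), ([4, 2, 1, 0], 2, 3), ([4, 2, 2, 0], 2, 3), ([4, 2, 4, 0], 0, 3), ([4, 4, 1, 0], 0, 3), ([4, 4, 2, 0], 0, 3),
  ([5, 0, 1, 0], 1, 3), ([5, 0, 2, 0], 1, 3), ([5, 1, 0, 0], 0, 3), ([5, 1, 1, 0], 1, 3), ([5, 1, 2, 0], 1, 3), ([5, 1, 4, 0], 0, 3),
  ([5, 2, 0, 0], 0, 3), ([5, 2, 1, 0], 1, 3), ([5, 2, 2, 0], 1, 3), ([5, 2, 4, 0], 0, 3), ([5, 3, 1, 0], 1, 3), ([5, 3, 2, 0], 1, 3),
  ([6, 1, 0, 0], 2, 3), ([6, 1, 1, 0], 2, 3), ([6, 1, 2, 0], 2, 3), ([6, 1, 3, 0], 2, 3), ([6, 2, 0, 0], 2, 3), ([6, 2, 1, 0], 2, 3),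
  ([6, 2, 2, 0], 2, 3), ([6, 2, 3, 0], 2, 3), ([0, 0, 1, 1], 1, 2), ([0, 0, 1, 1], 0, 2), ([0, 1, 1, 1], 1, 2), ([0, 2, 1, 1], 1, 2),
  ([0, 3, 1, 1], 1, 2), ([0, 4, 1, 1], 0, 2), ([1, 0, 1, 1], 0, 2), ([1, 4, 1, 1], 0, 2), ([2, 0, 1, 1], 1, 2), ([2, 1, 1, 1], 1, 2),
  ([2, 2, 1, 1], 1, 2), ([2, 3, 1, 1], 0, 2), ([2, 4, 1, 1], 0, 2), ([3, 0, 1, 1], 1, 2), ([3, 0, 1, 1], 0, 2), ([3, 2, 1, 1], 1, 2),
  ([3, 4, 1, 1], 0, 2), ([4, 0, 1, 1], 0, 2), ([4, 4, 1, 1], 0, 2), ([5, 0, 1, 1], 1, 2), ([5, 1, 1, 1], 1, 2), ([5, 2, 1, 1], 1, 2),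
  ([5, 3, 1, 1], 1, 2), ([1, 1, 0, 1], 2, 3), ([1, 1, 0, 1], 0, 3), ([1, 1, 1, 1], 2, 3), ([1, 1, 2, 1], 2, 3), ([1, 1, 3, 1], 2, 3),
  ([1, 1, 4, 1], 0, 3), ([1, 2, 0, 1], 2, 3), ([1, 2, 0, 1], 0, 3), ([1, 2, 1, 1], 2, 3), ([1, 2, 2, 1], 2, 3), ([1, 2, 3, 1], 2, 3),
  ([1, 2, 4, 1], 0, 3), ([2, 1, 0, 1], 0, 3), ([2, 1, 4, 1], 0, 3), ([2, 2, 0, 1], 0, 3), ([2, 2, 4, 1], 0, 3), ([3, 1, 0, 1], 2, 3),
  ([3, 1, 1, 1], 2, 3), ([3, 1, 2, 1], 2, 3), ([3, 1, 3, 1], 0, 3), ([3, 1, 4, 1], 0, 3), ([3, 2, 0, 1], 2, 3), ([3, 2, 1, 1], 2, 3),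
  ([3, 2, 2, 1], 2, 3), ([3, 2, 3, 1], 0, 3), ([3, 2, 4, 1], 0, 3), ([4, 1, 0, 1], 2, 3), ([4, 1, 0, 1], 0, 3), ([4, 1, 1, 1], 2, 3),
  ([4, 1, 2, 1], 2, 3), ([4, 1, 4, 1], 0, 3), ([4, 2, 0, 1], 2, 3), ([4, 2, 0, 1], 0, 3), ([4, 2, 1, 1], 2, 3), ([4, 2, 2, 1], 2, 3),
  ([4, 2, 4, 1], 0, 3), ([5, 1, 0, 1], 0, 3), ([5, 1, 4, 1], 0, 3), ([5, 2, 0, 1], 0, 3), ([5, 2, 4, 1], 0, 3), ([6, 1, 0, 1], 2, 3),
  ([6, 1, 1, 1], 2, 3), ([6, 1, 2, 1], 2, 3), ([6, 1, 3, 1], 2, 3), ([6, 2, 0, 1], 2, 3), ([6, 2, 1, 1], 2, 3), ([6, 2, 2, 1], 2, 3),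
  ([6, 2, 3, 1], 2, 3), ([1, 1, 0, 2], 0, 2), ([1, 1, 1, 2], 0, 2), ([1, 1, 2, 2], 0, 2), ([1, 1, 3, 2], 0, 2), ([1, 2, 0, 2], 0, 2),
  ([1, 2, 1, 2], 0, 2), ([1, 2, 2, 2], 0, 2), ([1, 2, 3, 2], 0, 2), ([2, 1, 0, 2], 0, 2), ([2, 1, 1, 2], 0, 2), ([2, 1, 2, 2], 0, 2),
  ([2, 1, 3, 2], 0, 2), ([2, 2, 0, 2], 0, 2), ([2, 2, 1, 2], 0, 2), ([2, 2, 2, 2], 0, 2), ([2, 2, 3, 2], 0, 2), ([3, 1, 3, 2], 0, 2),
  ([3, 2, 3, 2], 0, 2), ([4, 1, 0, 2], 0, 2), ([4, 1, 1, 2], 0, 2), ([4, 1, 2, 2], 0, 2), ([4, 1, 3, 2], 0, 2), ([4, 2, 0, 2], 0, 2),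
  ([4, 2, 1, 2], 0, 2), ([4, 2, 2, 2], 0, 2), ([4, 2, 3, 2], 0, 2), ([5, 1, 0, 2], 0, 2), ([5, 1, 1, 2], 0, 2), ([5, 1, 2, 2], 0, 2),
  ([5, 1, 3, 2], 0, 2), ([5, 2, 0, 2], 0, 2), ([5, 2, 1, 2], 0, 2), ([5, 2, 2, 2], 0, 2), ([5, 2, 3, 2], 0, 2)]

/-- The 394 triangles of `D0`, by vertex numbers. Squares are cut along the diagonal from the
lower corner to the upper corner. -/
def d0Tris : List (List ℕ) := [
  [0, 10, 12], [0, 2, 12], [1, 11, 13], [1, 3, 13], [2, 12, 14], [2, 4, 14], [3, 13, 15], [3, 5, 15],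
  [4, 14, 16], [4, 6, 16], [5, 15, 17], [5, 7, 17], [6, 16, 18], [6, 8, 18], [7, 17, 19], [7, 9, 19],
  [10, 20, 22], [10, 12, 22], [11, 21, 23], [11, 13, 23], [12, 22, 24], [12, 14, 24], [13, 23, 25], [13, 15, 25],
  [14, 24, 26], [14, 16, 26], [15, 25, 27], [15, 17, 27], [16, 26, 28], [16, 18, 28], [17, 27, 29], [17, 19, 29],
  [26, 36, 38], [26, 28, 38], [27, 37, 39], [27, 29, 39], [30, 40, 42], [30, 32, 42], [31, 41, 43], [31, 33, 43],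
  [32, 42, 44], [32, 34, 44], [33, 43, 45], [33, 35, 45], [34, 44, 46], [34, 36, 46], [35, 45, 47], [35, 37, 47],
  [36, 46, 48], [36, 38, 48], [37, 47, 49], [37, 39, 49], [40, 50, 52], [40, 42, 52], [41, 51, 53], [41, 43, 53],
  [42, 52, 54], [42, 44, 54], [43, 53, 55], [43, 45, 55], [44, 54, 56], [44, 46, 56], [45, 55, 57], [45, 47, 57],
  [46, 56, 58], [46, 48, 58], [47, 57, 59], [47, 49, 59], [0, 2, 62], [0, 60, 62], [0, 10, 70], [0, 60, 70],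
  [1, 3, 63], [1, 61, 63], [1, 11, 71], [1, 61, 71], [2, 4, 64], [2, 62, 64], [3, 5, 65], [3, 63, 65],
  [4, 6, 66], [4, 64, 66], [5, 7, 67], [5, 65, 67], [6, 8, 68], [6, 66, 68], [7, 9, 69], [7, 67, 69],
  [8, 18, 82], [8, 68, 82], [9, 19, 83], [9, 69, 83], [10, 20, 84], [10, 70, 84], [11, 21, 85], [11, 71, 85],
  [18, 28, 96], [18, 82, 96], [19, 29, 97], [19, 83, 97], [20, 22, 87], [20, 84, 87], [21, 23, 88], [21, 85, 88],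
  [22, 24, 91], [22, 87, 91], [23, 25, 92], [23, 88, 92], [24, 26, 94], [24, 91, 94], [25, 27, 95], [25, 92, 95],
  [26, 36, 110], [26, 94, 110], [27, 37, 111], [27, 95, 111], [28, 38, 112], [28, 96, 112], [29, 39, 113], [29, 97, 113],
  [30, 32, 101], [30, 98, 101], [30, 40, 114], [30, 98, 114], [31, 33, 102], [31, 99, 102], [31, 41, 115], [31, 99, 115],
  [32, 34, 106], [32, 101, 106], [33, 35, 107], [33, 102, 107], [34, 36, 110], [34, 106, 110], [35, 37, 111], [35, 107, 111],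
  [38, 48, 126], [38, 112, 126], [39, 49, 127], [39, 113, 127], [40, 50, 128], [40, 114, 128], [41, 51, 129], [41, 115, 129],
  [48, 58, 140], [48, 126, 140], [49, 59, 141], [49, 127, 141], [50, 52, 131], [50, 128, 131], [51, 53, 132], [51, 129, 132],
  [52, 54, 135], [52, 131, 135], [53, 55, 136], [53, 132, 136], [54, 56, 138], [54, 135, 138], [55, 57, 139], [55, 136, 139],
  [56, 58, 140], [56, 138, 140], [57, 59, 141], [57, 139, 141], [72, 77, 78], [72, 73, 78], [72, 86, 90], [72, 77, 90],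
  [73, 78, 79], [73, 74, 79], [74, 79, 80], [74, 75, 80], [75, 80, 81], [75, 76, 81], [76, 89, 93], [76, 81, 93],
  [86, 100, 105], [86, 90, 105], [89, 104, 109], [89, 93, 109], [100, 105, 106], [100, 101, 106], [102, 107, 108], [102, 103, 108],
  [103, 119, 124], [103, 108, 124], [104, 120, 125], [104, 109, 125], [116, 121, 122], [116, 117, 122], [116, 130, 134], [116, 121, 134],
  [117, 122, 123], [117, 118, 123], [118, 123, 124], [118, 119, 124], [120, 133, 137], [120, 125, 137], [130, 142, 147], [130, 134, 147],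
  [133, 146, 151], [133, 137, 151], [142, 147, 148], [142, 143, 148], [143, 148, 149], [143, 144, 149], [144, 149, 150], [144, 145, 150],
  [145, 150, 151], [145, 146, 151], [60, 62, 154], [60, 152, 154], [60, 70, 162], [60, 152, 162], [61, 63, 155], [61, 153, 155],
  [61, 71, 163], [61, 153, 163], [62, 64, 156], [62, 154, 156], [63, 65, 157], [63, 155, 157], [64, 66, 158], [64, 156, 158],
  [65, 67, 159], [65, 157, 159], [66, 68, 160], [66, 158, 160], [67, 69, 161], [67, 159, 161], [68, 82, 174], [68, 160, 174],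
  [69, 83, 175], [69, 161, 175], [70, 84, 176], [70, 162, 176], [71, 85, 177], [71, 163, 177], [72, 73, 165], [72, 164, 165],
  [72, 86, 178], [72, 164, 178], [73, 74, 166], [73, 165, 166], [74, 75, 167], [74, 166, 167], [75, 76, 168], [75, 167, 168],
  [76, 89, 181], [76, 168, 181], [77, 78, 170], [77, 169, 170], [77, 90, 182], [77, 169, 182], [78, 79, 171], [78, 170, 171],
  [79, 80, 172], [79, 171, 172], [80, 81, 173], [80, 172, 173], [81, 93, 185], [81, 173, 185], [82, 96, 188], [82, 174, 188],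
  [83, 97, 189], [83, 175, 189], [84, 87, 179], [84, 176, 179], [85, 88, 180], [85, 177, 180], [86, 100, 192], [86, 178, 192],
  [87, 91, 183], [87, 179, 183], [88, 92, 184], [88, 180, 184], [89, 104, 196], [89, 181, 196], [90, 105, 197], [90, 182, 197],
  [91, 94, 186], [91, 183, 186], [92, 95, 187], [92, 184, 187], [93, 109, 201], [93, 185, 201], [94, 110, 202], [94, 186, 202],
  [95, 111, 203], [95, 187, 203], [96, 112, 204], [96, 188, 204], [97, 113, 205], [97, 189, 205], [98, 101, 193], [98, 190, 193],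
  [98, 114, 206], [98, 190, 206], [99, 102, 194], [99, 191, 194], [99, 115, 207], [99, 191, 207], [100, 101, 193], [100, 192, 193],
  [102, 103, 195], [102, 194, 195], [103, 119, 211], [103, 195, 211], [104, 120, 212], [104, 196, 212], [105, 106, 198], [105, 197, 198],
  [106, 110, 202], [106, 198, 202], [107, 108, 200], [107, 199, 200], [107, 111, 203], [107, 199, 203], [108, 124, 216], [108, 200, 216],
  [109, 125, 217], [109, 201, 217], [112, 126, 218], [112, 204, 218], [113, 127, 219], [113, 205, 219], [114, 128, 220], [114, 206, 220],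
  [115, 129, 221], [115, 207, 221], [116, 117, 209], [116, 208, 209], [116, 130, 222], [116, 208, 222], [117, 118, 210], [117, 209, 210],
  [118, 119, 211], [118, 210, 211], [120, 133, 225], [120, 212, 225], [121, 122, 214], [121, 213, 214], [121, 134, 226], [121, 213, 226],
  [122, 123, 215], [122, 214, 215], [123, 124, 216], [123, 215, 216], [125, 137, 229], [125, 217, 229], [126, 140, 232], [126, 218, 232],
  [127, 141, 233], [127, 219, 233], [128, 131, 223], [128, 220, 223], [129, 132, 224], [129, 221, 224], [130, 142, 234], [130, 222, 234],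
  [131, 135, 227], [131, 223, 227], [132, 136, 228], [132, 224, 228], [133, 146, 238], [133, 225, 238], [134, 147, 239], [134, 226, 239],
  [135, 138, 230], [135, 227, 230], [136, 139, 231], [136, 228, 231], [137, 151, 243], [137, 229, 243], [138, 140, 232], [138, 230, 232],
  [139, 141, 233], [139, 231, 233], [142, 143, 235], [142, 234, 235], [143, 144, 236], [143, 235, 236], [144, 145, 237], [144, 236, 237],
  [145, 146, 238], [145, 237, 238], [147, 148, 240], [147, 239, 240], [148, 149, 241], [148, 240, 241], [149, 150, 242], [149, 241, 242],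
  [150, 151, 243], [150, 242, 243]]

/-- The 394 triangles of `D1`. -/
def d1Tris : List (List ℕ) := [
  [152, 154, 246], [152, 244, 246], [152, 162, 254], [152, 244, 254], [153, 155, 247], [153, 245, 247], [153, 163, 255], [153, 245, 255],
  [154, 156, 248], [154, 246, 248], [155, 157, 249], [155, 247, 249], [156, 158, 250], [156, 248, 250], [157, 159, 251], [157, 249, 251],
  [158, 160, 252], [158, 250, 252], [159, 161, 253], [159, 251, 253], [160, 174, 266], [160, 252, 266], [161, 175, 267], [161, 253, 267],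
  [162, 176, 268], [162, 254, 268], [163, 177, 269], [163, 255, 269], [164, 165, 257], [164, 256, 257], [164, 178, 270], [164, 256, 270],
  [165, 166, 258], [165, 257, 258], [166, 167, 259], [166, 258, 259], [167, 168, 260], [167, 259, 260], [168, 181, 273], [168, 260, 273],
  [169, 170, 262], [169, 261, 262], [169, 182, 274], [169, 261, 274], [170, 171, 263], [170, 262, 263], [171, 172, 264], [171, 263, 264],
  [172, 173, 265], [172, 264, 265], [173, 185, 277], [173, 265, 277], [174, 188, 280], [174, 266, 280], [175, 189, 281], [175, 267, 281],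
  [176, 179, 271], [176, 268, 271], [177, 180, 272], [177, 269, 272], [178, 192, 284], [178, 270, 284], [179, 183, 275], [179, 271, 275],
  [180, 184, 276], [180, 272, 276], [181, 196, 288], [181, 273, 288], [182, 197, 289], [182, 274, 289], [183, 186, 278], [183, 275, 278],
  [184, 187, 279], [184, 276, 279], [185, 201, 293], [185, 277, 293], [186, 202, 294], [186, 278, 294], [187, 203, 295], [187, 279, 295],
  [188, 204, 296], [188, 280, 296], [189, 205, 297], [189, 281, 297], [190, 193, 285], [190, 282, 285], [190, 206, 298], [190, 282, 298],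
  [191, 194, 286], [191, 283, 286], [191, 207, 299], [191, 283, 299], [192, 193, 285], [192, 284, 285], [194, 195, 287], [194, 286, 287],
  [195, 211, 303], [195, 287, 303], [196, 212, 304], [196, 288, 304], [197, 198, 290], [197, 289, 290], [198, 202, 294], [198, 290, 294],
  [199, 200, 292], [199, 291, 292], [199, 203, 295], [199, 291, 295], [200, 216, 308], [200, 292, 308], [201, 217, 309], [201, 293, 309],
  [204, 218, 310], [204, 296, 310], [205, 219, 311], [205, 297, 311], [206, 220, 312], [206, 298, 312], [207, 221, 313], [207, 299, 313],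
  [208, 209, 301], [208, 300, 301], [208, 222, 314], [208, 300, 314], [209, 210, 302], [209, 301, 302], [210, 211, 303], [210, 302, 303],
  [212, 225, 317], [212, 304, 317], [213, 214, 306], [213, 305, 306], [213, 226, 318], [213, 305, 318], [214, 215, 307], [214, 306, 307],
  [215, 216, 308], [215, 307, 308], [217, 229, 321], [217, 309, 321], [218, 232, 324], [218, 310, 324], [219, 233, 325], [219, 311, 325],
  [220, 223, 315], [220, 312, 315], [221, 224, 316], [221, 313, 316], [222, 234, 326], [222, 314, 326], [223, 227, 319], [223, 315, 319],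
  [224, 228, 320], [224, 316, 320], [225, 238, 330], [225, 317, 330], [226, 239, 331], [226, 318, 331], [227, 230, 322], [227, 319, 322],
  [228, 231, 323], [228, 320, 323], [229, 243, 335], [229, 321, 335], [230, 232, 324], [230, 322, 324], [231, 233, 325], [231, 323, 325],
  [234, 235, 327], [234, 326, 327], [235, 236, 328], [235, 327, 328], [236, 237, 329], [236, 328, 329], [237, 238, 330], [237, 329, 330],
  [239, 240, 332], [239, 331, 332], [240, 241, 333], [240, 332, 333], [241, 242, 334], [241, 333, 334], [242, 243, 335], [242, 334, 335],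
  [244, 246, 247], [244, 245, 247], [244, 254, 255], [244, 245, 255], [246, 248, 249], [246, 247, 249], [248, 250, 251], [248, 249, 251],
  [250, 252, 253], [250, 251, 253], [252, 266, 267], [252, 253, 267], [254, 268, 269], [254, 255, 269], [266, 280, 281], [266, 267, 281],
  [268, 271, 272], [268, 269, 272], [271, 275, 276], [271, 272, 276], [275, 278, 279], [275, 276, 279], [278, 294, 295], [278, 279, 295],
  [280, 296, 297], [280, 281, 297], [282, 285, 286], [282, 283, 286], [282, 298, 299], [282, 283, 299], [290, 294, 295], [290, 291, 295],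
  [296, 310, 311], [296, 297, 311], [298, 312, 313], [298, 299, 313], [310, 324, 325], [310, 311, 325], [312, 315, 316], [312, 313, 316],
  [315, 319, 320], [315, 316, 320], [319, 322, 323], [319, 320, 323], [322, 324, 325], [322, 323, 325], [256, 257, 337], [256, 336, 337],
  [256, 270, 346], [256, 336, 346], [257, 258, 338], [257, 337, 338], [258, 259, 339], [258, 338, 339], [259, 260, 340], [259, 339, 340],
  [260, 273, 350], [260, 340, 350], [261, 262, 342], [261, 341, 342], [261, 274, 351], [261, 341, 351], [262, 263, 343], [262, 342, 343],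
  [263, 264, 344], [263, 343, 344], [264, 265, 345], [264, 344, 345], [265, 277, 355], [265, 345, 355], [270, 284, 356], [270, 346, 356],
  [273, 288, 360], [273, 350, 360], [274, 289, 361], [274, 351, 361], [277, 293, 365], [277, 355, 365], [284, 285, 357], [284, 356, 357],
  [285, 286, 358], [285, 357, 358], [286, 287, 359], [286, 358, 359], [287, 303, 369], [287, 359, 369], [288, 304, 370], [288, 360, 370],
  [289, 290, 362], [289, 361, 362], [290, 291, 363], [290, 362, 363], [291, 292, 364], [291, 363, 364], [292, 308, 374], [292, 364, 374],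
  [293, 309, 375], [293, 365, 375], [300, 301, 367], [300, 366, 367], [300, 314, 376], [300, 366, 376], [301, 302, 368], [301, 367, 368],
  [302, 303, 369], [302, 368, 369], [304, 317, 380], [304, 370, 380], [305, 306, 372], [305, 371, 372], [305, 318, 381], [305, 371, 381],
  [306, 307, 373], [306, 372, 373], [307, 308, 374], [307, 373, 374], [309, 321, 385], [309, 375, 385], [314, 326, 386], [314, 376, 386],
  [317, 330, 390], [317, 380, 390], [318, 331, 391], [318, 381, 391], [321, 335, 395], [321, 385, 395], [326, 327, 387], [326, 386, 387],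
  [327, 328, 388], [327, 387, 388], [328, 329, 389], [328, 388, 389], [329, 330, 390], [329, 389, 390], [331, 332, 392], [331, 391, 392],
  [332, 333, 393], [332, 392, 393], [333, 334, 394], [333, 393, 394], [334, 335, 395], [334, 394, 395], [336, 346, 347], [336, 337, 347],
  [337, 347, 348], [337, 338, 348], [338, 348, 349], [338, 339, 349], [339, 349, 350], [339, 340, 350], [341, 351, 352], [341, 342, 352],
  [342, 352, 353], [342, 343, 353], [343, 353, 354], [343, 344, 354], [344, 354, 355], [344, 345, 355], [346, 356, 357], [346, 347, 357],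
  [347, 357, 358], [347, 348, 358], [348, 358, 359], [348, 349, 359], [349, 359, 360], [349, 350, 360], [351, 361, 362], [351, 352, 362],
  [352, 362, 363], [352, 353, 363], [353, 363, 364], [353, 354, 364], [354, 364, 365], [354, 355, 365], [359, 369, 370], [359, 360, 370],
  [364, 374, 375], [364, 365, 375], [366, 376, 377], [366, 367, 377], [367, 377, 378], [367, 368, 378], [368, 378, 379], [368, 369, 379],
  [369, 379, 380], [369, 370, 380], [371, 381, 382], [371, 372, 382], [372, 382, 383], [372, 373, 383], [373, 383, 384], [373, 374, 384],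
  [374, 384, 385], [374, 375, 385], [376, 386, 387], [376, 377, 387], [377, 387, 388], [377, 378, 388], [378, 388, 389], [378, 379, 389],
  [379, 389, 390], [379, 380, 390], [381, 391, 392], [381, 382, 392], [382, 392, 393], [382, 383, 393], [383, 393, 394], [383, 384, 394],
  [384, 394, 395], [384, 385, 395]]

/-- The vertices of `J = D0 ∩ D1` in cyclic order. -/
def jCyc : List ℕ := [
  152, 154, 156, 158, 160, 174, 188, 204, 218, 232, 230, 227, 223, 220, 206, 190,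
  193, 192, 178, 164, 165, 166, 167, 168, 181, 196, 212, 225, 238, 237, 236, 235,
  234, 222, 208, 209, 210, 211, 195, 194, 191, 207, 221, 224, 228, 231, 233, 219,
  205, 189, 175, 161, 159, 157, 155, 153, 163, 177, 180, 184, 187, 203, 199, 200,
  216, 215, 214, 213, 226, 239, 240, 241, 242, 243, 229, 217, 201, 185, 173, 172,
  171, 170, 169, 182, 197, 198, 202, 186, 183, 179, 176, 162]

end Pool.Agent.PolyKnots
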