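import Pool.Agent.W_MP_be6f00_gt.DataFactsB

set_option autoImplicit false

open Set

namespace Pool.Agent.PolyKnots

namespace BE05

/-- the directions (axis, sign) of the two edges of `J` at the vertices `152, ..., 243` -/
def jDirs : List (ℕ × ℤ × ℕ × ℤ) := [
  (0, 1, 1, 1), (1, 1, 0, 1), (1, -1, 1, 1), (1, 1, 1, -1), (1, -1, 1, 1), (1, 1, 1, -1), (1, -1, 1, 1), (1, 1, 1, -1),
  (1, -1, 0, 1), (0, 1, 1, -1), (0, 1, 0, -1), (0, -1, 0, 1), (0, 1, 2, 1), (2, -1, 2, 1), (2, -1, 2, 1), (2, -1, 2, 1),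
  (2, -1, 0, 1), (2, 1, 0, 1), (2, 1, 2, -1), (2, 1, 2, -1), (2, 1, 2, -1), (0, 1, 2, -1), (0, -1, 0, 1), (0, 1, 0, -1),
  (1, 1, 0, -1), (0, -1, 1, 1), (0, 1, 0, -1), (1, 1, 1, -1), (1, -1, 1, 1), (0, -1, 0, 1), (0, -1, 0, 1), (1, 1, 1, -1),
  (1, -1, 1, 1), (0, 1, 0, -1), (0, 1, 1, -1), (1, -1, 0, 1), (0, -1, 0, 1), (0, 1, 0, -1), (0, 1, 1, 1), (1, 1, 0, 1),
  (2, 1, 0, -1), (1, -1, 2, -1), (2, 1, 1, -1), (0, 1, 2, -1), (0, -1, 0, 1), (0, -1, 2, 1), (2, -1, 1, 1), (1, 1, 2, 1),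
  (2, -1, 0, 1), (0, 1, 0, -1), (1, -1, 0, -1), (0, -1, 1, -1), (0, -1, 0, 1), (0, 1, 0, -1), (0, 1, 0, -1), (0, -1, 0, 1),
  (0, 1, 2, 1), (2, -1, 2, 1), (2, -1, 2, 1), (2, -1, 0, -1), (0, -1, 0, 1), (2, 1, 0, 1), (2, 1, 2, -1), (2, 1, 2, -1),
  (0, -1, 2, -1), (0, 1, 0, -1), (0, -1, 0, 1), (0, 1, 0, -1), (1, 1, 0, -1), (0, -1, 1, 1), (0, 1, 0, -1), (1, 1, 1, -1),
  (1, -1, 1, 1), (0, -1, 0, 1), (0, -1, 0, 1), (1, 1, 1, -1), (1, -1, 1, 1), (0, 1, 0, -1), (1, 1, 1, -1), (1, -1, 1, 1),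
  (0, -1, 1, -1), (1, -1, 0, -1), (2, 1, 0, -1), (2, 1, 2, -1), (2, 1, 2, -1), (2, 1, 2, -1), (0, -1, 2, -1), (0, -1, 2, 1),
  (2, -1, 2, 1), (2, -1, 2, 1), (2, -1, 2, 1), (2, -1, 0, -1)]


/-- Does the closed square contain the lattice point with coordinates `c`? -/
def sqHas (s : List ℤ × ℕ × ℕ) (c : List ℤ) : Bool :=
  [3, 0, 1, 2].all fun k => decide (s.1.getD k 0 ≤ c.getD k 0) &&
    decide (c.getD k 0 ≤ s.1.getD k 0 + if k = s.2.1 ∨ k = s.2.2 then 1 else 0)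

/-- lower corner of the square spanned by the edge from `c` in the direction `a e_i` and the
`t`-interval starting at `t` -/
def loCorner (c : List ℤ) (i : ℕ) (a t : ℤ) : List ℤ :=
  (c.set i (c.getD i 0 + min a 0)).set 3 t

/-- equality test of squares -/
def sqEq (s s' : List ℤ × ℕ × ℕ) : Bool := s.2.1 == s'.2.1 && s.2.2 == s'.2.2 && s.1 == s'.1

/-- the four squares at a vertex of `J` -/
def fourSq (c : List ℤ) (d : ℕ × ℤ × ℕ × ℤ) : List (List ℤ × ℕ × ℕ) :=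
  [(loCorner c d.1 d.2.1 (-1), d.1, 3), (loCorner c d.1 d.2.1 0, d.1, 3),
    (loCorner c d.2.2.1 d.2.2.2 (-1), d.2.2.1, 3), (loCorner c d.2.2.1 d.2.2.2 0, d.2.2.1, 3)]

/-- the check for one vertex -/
def jChk (v : ℕ) : Bool :=
  let c := cd v
  let d := jDirs.getD (v - 152) (0, 0, 0, 0)
  let f := fourSq c d
  (decide (d.1 < 3) && decide (d.2.2.1 < 3) && (d.2.1 == 1 || d.2.1 == -1) &&
    (d.2.2.2 == 1 || d.2.2.2 == -1) && (!(d.1 == d.2.2.1) || d.2.1 == - d.2.2.2) &&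
    c.length == 4 && c.getD 3 0 == 0) &&
  (sqs0.all fun s => !(sqHas s c) || f.any (sqEq s)) &&
  (sqs1.all fun s => !(sqHas s c) || f.any (sqEq s)) &&
  (f.all fun s => sqs0.any (sqEq s) || sqs1.any (sqEq s))

theorem jChk_all : ((List.range 92).all fun k => jChk (152 + k)) = true := by decide +kernel

theorem tU_range : ∀ v : Fin 396, tU v = 0 → 152 ≤ (v : ℕ) ∧ (v : ℕ) < 244 := by
  decide +kernel

/-- near a lattice point only the squares containing it matter -/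
theorem has_of_near {a c : List ℤ} {i j : ℕ} {y : Fin 4 → ℝ} (hy : y ∈ sqSet a i j)
    (hn : ∀ k : Fin 4, |y k - (c.getD k 0 : ℤ)| < 1) : sqHas (a, i, j) c = true := by
  have key : ∀ k : Fin 4, a.getD k 0 ≤ c.getD k 0 ∧
      c.getD k 0 ≤ a.getD k 0 + if (k : ℕ) = i ∨ (k : ℕ) = j then 1 else 0 := by
    intro k
    obtain ⟨h1, h2⟩ := hy k
    have h3 := abs_lt.1 (hn k)
    constructor
    · have : ((a.getD k 0 : ℤ) : ℝ) < ((c.getD k 0 + 1 : ℤ) : ℝ) := by push_cast; linarith [h3.2]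
      have := Int.cast_lt.1 this
      omega
    · have : ((c.getD k 0 - 1 : ℤ) : ℝ) <
          ((a.getD k 0 + (if (k : ℕ) = i ∨ (k : ℕ) = j then 1 else 0) : ℤ) : ℝ) := by
        push_cast
        split_ifs at h2 ⊢ <;> linarith [h3.1]
      have := Int.cast_lt.1 this
      omega
  unfold sqHas
  rw [List.all_eq_true]
  intro k hk
  have hk4 : k < 4 := by
    simp only [List.mem_cons, List.not_mem_nil, or_false] at hk
    omega
  have := key ⟨k, hk4⟩
  simp only [Bool.and_eq_true, decide_eq_true_eq]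
  exact this

theorem sqEq_eq {s s' : List ℤ × ℕ × ℕ} (h : sqEq s s' = true) : s = s' := by
  unfold sqEq at h
  simp only [Bool.and_eq_true, beq_iff_eq] at h
  obtain ⟨⟨h1, h2⟩, h3⟩ := h
  exact Prod.ext h3 (Prod.ext h1 h2)

theorem loCorner_getD {c : List ℤ} (hc : c.length = 4) {i : ℕ} (hi : i < 3) (a t : ℤ) (k : Fin 4) :
    (loCorner c i a t).getD k 0 =
      if (k : ℕ) = 3 then t else if (k : ℕ) = i then c.getD i 0 + min a 0 else c.getD k 0 := by
  unfold loCorner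
  have hk := k.2
  by_cases h3 : (k : ℕ) = 3
  · rw [if_pos h3, h3]
    simp [List.getD, hc]
  · rw [if_neg h3]
    by_cases hki : (k : ℕ) = i
    · rw [if_pos hki, hki]
      have : i ≠ 3 := by omega
      simp [List.getD, List.getElem?_set, hc, Ne.symm this, show i < 4 by omega]
    · rw [if_neg hki]
      simp [List.getD, List.getElem?_set, Ne.symm h3, Ne.symm hki]

/-- membership in the two squares over an edge of `J`, near the vertex -/
theorem mem_edge {c : List ℤ} (hc : c.length = 4) (i : Fin 3) {a : ℤ} (ha : a = 1 ∨ a = -1)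
    {y : Fin 4 → ℝ} (h3 : |y 3| < 1) (hn : ∀ k : Fin 3, |y k.castSucc - (c.getD k 0 : ℤ)| < 1) :
    (y ∈ sqSet (loCorner c i a (-1)) i 3 ∨ y ∈ sqSet (loCorner c i a 0) i 3) ↔
      (0 ≤ a * (y i.castSucc - (c.getD i 0 : ℤ)) ∧ ∀ k : Fin 3, k ≠ i →
        y k.castSucc = (c.getD k 0 : ℤ)) := by
  have hi := i.2
  have h3' := abs_lt.1 h3
  have hval : ∀ t : ℤ, y ∈ sqSet (loCorner c i a t) i 3 ↔
      ((t : ℝ) ≤ y 3 ∧ y 3 ≤ t + 1) ∧ 0 ≤ a * (y i.castSucc - (c.getD i 0 : ℤ)) ∧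
        ∀ k : Fin 3, k ≠ i → y k.castSucc = (c.getD k 0 : ℤ) := by
    intro t
    have hni := abs_lt.1 (hn i)
    unfold sqSet
    rw [mem_ofPred_eq]
    constructor
    · intro h
      refine ⟨?_, ?_, ?_⟩
      · have := h 3
        rw [loCorner_getD hc hi] at this
        simpa using this
      · have := h i.castSucc
        rw [loCorner_getD hc hi] at this
        have e1 : ((i.castSucc : Fin 4) : ℕ) = i := rfl
        rw [e1, if_neg (by omega), if_pos rfl, if_pos (Or.inl rfl)] at this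
        rcases ha with rfl | rfl
        · rw [show min (1 : ℤ) 0 = 0 from rfl] at this
          push_cast at this ⊢
          linarith [this.1]
        · rw [show min (-1 : ℤ) 0 = -1 from rfl] at this
          push_cast at this ⊢
          linarith [this.2]
      · intro k hk
        have := h k.castSucc
        rw [loCorner_getD hc hi] at this
        have e1 : ((k.castSucc : Fin 4) : ℕ) = k := rfl
        have hk3 := k.2
        have hki : (k : ℕ) ≠ i := fun h => hk (Fin.ext h)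
        rw [e1, if_neg (by omega), if_neg hki, if_neg (by omega)] at this
        linarith [this.1, this.2]
    · rintro ⟨⟨t1, t2⟩, h1, h2⟩ k
      rw [loCorner_getD hc hi]
      have hk4 := k.2
      by_cases hk3 : (k : ℕ) = 3
      · have : k = 3 := Fin.ext hk3
        subst this
        simpa using ⟨t1, t2⟩
      · rw [if_neg hk3]
        obtain ⟨k', rfl⟩ : ∃ k' : Fin 3, k = k'.castSucc := ⟨⟨k, by omega⟩, rfl⟩
        have e1 : ((k'.castSucc : Fin 4) : ℕ) = k' := rfl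
        rw [e1] at hk3 ⊢
        by_cases hki : k' = i
        · subst hki
          rw [if_pos rfl, if_pos (Or.inl rfl)]
          rcases ha with rfl | rfl
          · rw [show min (1 : ℤ) 0 = 0 from rfl]
            push_cast at h1 ⊢
            constructor <;> linarith [hni.1, hni.2]
          · rw [show min (-1 : ℤ) 0 = -1 from rfl]
            push_cast at h1 ⊢
            constructor <;> linarith [hni.1, hni.2]
        · have hki' : (k' : ℕ) ≠ i := fun h => hki (Fin.ext h)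
          rw [if_neg hki', if_neg (by omega), h2 k' hki]
          simp
  rw [hval, hval]
  constructor
  · rintro (⟨-, h⟩ | ⟨-, h⟩) <;> exact h
  · intro h
    rcases le_total (y 3) 0 with h0 | h0
    · left
      exact ⟨⟨by push_cast; linarith, by push_cast; linarith⟩, h⟩
    · right
      exact ⟨⟨by push_cast; linarith, by push_cast; linarith⟩, h⟩

theorem collar_aux (c : List ℤ) (d : ℕ × ℤ × ℕ × ℤ) (hi : d.1 < 3) (hj : d.2.2.1 < 3)
    (ha : d.2.1 = 1 ∨ d.2.1 = -1) (hb : d.2.2.2 = 1 ∨ d.2.2.2 = -1) (hc4 : c.length = 4)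
    (hc3 : c.getD 3 0 = 0)
    (h0 : ∀ s ∈ sqs0, sqHas s c = false ∨ (fourSq c d).any (sqEq s) = true)
    (h1 : ∀ s ∈ sqs1, sqHas s c = false ∨ (fourSq c d).any (sqEq s) = true)
    (h2 : ∀ s ∈ fourSq c d, sqs0.any (sqEq s) = true ∨ sqs1.any (sqEq s) = true)
    (y : Fin 4 → ℝ) (hy3 : |y 3| < 1) (hyn : ∀ k : Fin 3, |y k.castSucc - (c.getD k 0 : ℤ)| < 1) :
    y ∈ USet ↔
        (0 ≤ d.2.1 * (y (⟨d.1, hi⟩ : Fin 3).castSucc - (c.getD d.1 0 : ℤ)) ∧
          ∀ k : Fin 3, k ≠ ⟨d.1, hi⟩ → y k.castSucc = (c.getD k 0 : ℤ)) ∨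
        (0 ≤ d.2.2.2 * (y (⟨d.2.2.1, hj⟩ : Fin 3).castSucc - (c.getD d.2.2.1 0 : ℤ)) ∧
          ∀ k : Fin 3, k ≠ ⟨d.2.2.1, hj⟩ → y k.castSucc = (c.getD k 0 : ℤ)) := by
  have hn4 : ∀ k : Fin 4, |y k - (c.getD k 0 : ℤ)| < 1 := by
    intro k
    by_cases hk : (k : ℕ) = 3
    · have : k = 3 := Fin.ext hk
      subst this
      have : c.getD ((3 : Fin 4) : ℕ) 0 = 0 := hc3
      rw [this, Int.cast_zero, sub_zero]
      exact hy3
    · obtain ⟨k', rfl⟩ : ∃ k' : Fin 3, k = k'.castSucc := ⟨⟨k, by have := k.2; omega⟩, rfl⟩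
      exact hyn k'
  have e1 := mem_edge hc4 ⟨d.1, hi⟩ ha hy3 hyn
  have e2 := mem_edge hc4 ⟨d.2.2.1, hj⟩ hb hy3 hyn
  have key : y ∈ USet ↔ ((y ∈ sqSet (loCorner c d.1 d.2.1 (-1)) d.1 3 ∨
      y ∈ sqSet (loCorner c d.1 d.2.1 0) d.1 3) ∨
      (y ∈ sqSet (loCorner c d.2.2.1 d.2.2.2 (-1)) d.2.2.1 3 ∨
      y ∈ sqSet (loCorner c d.2.2.1 d.2.2.2 0) d.2.2.1 3)) := by
    constructor
    · rintro ⟨s, hs, hys⟩
      have hhas : sqHas s c = true := has_of_near (a := s.1) (i := s.2.1) (j := s.2.2) hys hn4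
      have hmem : ∃ s' ∈ fourSq c d, sqEq s s' = true := by
        rcases List.mem_append.1 hs with hs | hs
        · rcases h0 s hs with h | h
          · rw [hhas] at h; exact absurd h (by simp)
          · exact List.any_eq_true.1 h
        · rcases h1 s hs with h | h
          · rw [hhas] at h; exact absurd h (by simp)
          · exact List.any_eq_true.1 h
      obtain ⟨s', hs', he⟩ := hmem
      have he' := sqEq_eq he
      subst he'
      simp only [fourSq, List.mem_cons, List.not_mem_nil, or_false] at hs'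
      rcases hs' with rfl | rfl | rfl | rfl
      · exact Or.inl (Or.inl hys)
      · exact Or.inl (Or.inr hys)
      · exact Or.inr (Or.inl hys)
      · exact Or.inr (Or.inr hys)
    · have hin : ∀ s' ∈ fourSq c d, y ∈ sqSet s'.1 s'.2.1 s'.2.2 → y ∈ USet := by
        intro s' hs' hy'
        have := h2 s' hs'
        rcases this with h | h
        · obtain ⟨s, hs, he⟩ := List.any_eq_true.1 h
          have he' := sqEq_eq he
          exact ⟨s, List.mem_append_left _ hs, he' ▸ hy'⟩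
        · obtain ⟨s, hs, he⟩ := List.any_eq_true.1 h
          have he' := sqEq_eq he
          exact ⟨s, List.mem_append_right _ hs, he' ▸ hy'⟩
      have m1 : (loCorner c d.1 d.2.1 (-1), d.1, 3) ∈ fourSq c d := List.mem_cons_self
      have m2 : (loCorner c d.1 d.2.1 0, d.1, 3) ∈ fourSq c d :=
        List.mem_cons_of_mem _ List.mem_cons_self
      have m3 : (loCorner c d.2.2.1 d.2.2.2 (-1), d.2.2.1, 3) ∈ fourSq c d :=
        List.mem_cons_of_mem _ (List.mem_cons_of_mem _ List.mem_cons_self)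
      have m4 : (loCorner c d.2.2.1 d.2.2.2 0, d.2.2.1, 3) ∈ fourSq c d :=
        List.mem_cons_of_mem _ (List.mem_cons_of_mem _ (List.mem_cons_of_mem _ List.mem_cons_self))
      rintro ((h | h) | (h | h))
      · exact hin _ m1 h
      · exact hin _ m2 h
      · exact hin _ m3 h
      · exact hin _ m4 h
  rw [key]
  exact or_congr e1 e2

theorem jChk_spec (v : ℕ) (h : jChk v = true) :
    ∃ d : ℕ × ℤ × ℕ × ℤ, ∃ (_ : d.1 < 3) (_ : d.2.2.1 < 3), (d.2.1 = 1 ∨ d.2.1 = -1) ∧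
      (d.2.2.2 = 1 ∨ d.2.2.2 = -1) ∧ (d.1 = d.2.2.1 → d.2.1 = -d.2.2.2) ∧ (cd v).length = 4 ∧
      (cd v).getD 3 0 = 0 ∧
      (∀ s ∈ sqs0, sqHas s (cd v) = false ∨ (fourSq (cd v) d).any (sqEq s) = true) ∧
      (∀ s ∈ sqs1, sqHas s (cd v) = false ∨ (fourSq (cd v) d).any (sqEq s) = true) ∧
      (∀ s ∈ fourSq (cd v) d, sqs0.any (sqEq s) = true ∨ sqs1.any (sqEq s) = true) := by
  unfold jChk at h
  generalize cd v = c at h ⊢
  generalize jDirs.getD (v - 152) (0, 0, 0, 0) = d at h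
  simp only [Bool.and_eq_true, decide_eq_true_eq, Bool.or_eq_true, beq_iff_eq,
    Bool.not_eq_true', beq_eq_false_iff_ne] at h
  obtain ⟨⟨⟨⟨⟨⟨⟨⟨⟨hi, hj⟩, ha⟩, hb⟩, hab⟩, hc4⟩, hc3⟩, h0⟩, h1⟩, h2⟩ := h
  rw [List.all_eq_true] at h0 h1 h2
  refine ⟨d, hi, hj, ha, hb, ?_, hc4, hc3, ?_, ?_, ?_⟩
  · intro hij
    rcases hab with hab | hab
    · exact absurd hij hab
    · exact hab
  · intro s hs
    have := h0 s hs
    rw [Bool.or_eq_true, Bool.not_eq_true'] at this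
    exact this
  · intro s hs
    have := h1 s hs
    rw [Bool.or_eq_true, Bool.not_eq_true'] at this
    exact this
  · intro s hs
    have := h2 s hs
    rw [Bool.or_eq_true] at this
    exact this

end BE05

theorem USet_collar (v : Fin 396) (hv : tU v = 0) : ∃ (i j : Fin 3) (a b : ℤ),
    (a = 1 ∨ a = -1) ∧ (b = 1 ∨ b = -1) ∧ (i = j → a = -b) ∧
    ∀ y : Fin 4 → ℝ, |y 3| < 1 → (∀ k : Fin 3, |y k.castSucc - coord v k.castSucc| < 1) →
      (y ∈ USet ↔
        (0 ≤ a * (y i.castSucc - coord v i.castSucc) ∧ ∀ k : Fin 3, k ≠ i →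
          y k.castSucc = coord v k.castSucc) ∨
        (0 ≤ b * (y j.castSucc - coord v j.castSucc) ∧ ∀ k : Fin 3, k ≠ j →
          y k.castSucc = coord v k.castSucc)) := by
  obtain ⟨hr1, hr2⟩ := BE05.tU_range v hv
  have hchk := List.all_eq_true.1 BE05.jChk_all ((v : ℕ) - 152) (List.mem_range.2 (by omega))
  rw [show 152 + ((v : ℕ) - 152) = (v : ℕ) by omega] at hchk
  obtain ⟨d, hi, hj, ha, hb, hab, hc4, hc3, h0, h1, h2⟩ := BE05.jChk_spec v hchk
  refine ⟨⟨d.1, hi⟩, ⟨d.2.2.1, hj⟩, d.2.1, d.2.2.2, ha, hb,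
    fun hij => hab (congrArg Fin.val hij), ?_⟩
  intro y hy3 hyn
  have hcc : ∀ k : Fin 3, coord v k.castSucc = (BE05.cd v).getD k 0 := fun k =>
    BE05.coord_eq v k.castSucc
  have hyn' : ∀ k : Fin 3, |y k.castSucc - ((BE05.cd v).getD k 0 : ℤ)| < 1 := by
    intro k
    rw [← hcc k]
    exact hyn k
  have := BE05.collar_aux (BE05.cd v) d hi hj ha hb hc4 hc3 h0 h1 h2 y hy3 hyn'
  rw [this]
  simp only [hcc]

end Pool.Agent.PolyKnots
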