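import Pool.Agent.W_MP_be6f00_gt.DataFactsC
import Pool.Agent.W_MP_be6f00_gt.DataFactsD

/-! The verified facts about the data: `coord_injective`, `KU_chain`, `KU_oneSided`, `body_KU`,
`tetBd`, `USet_unknot`, `USet_collar`. -/
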