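import Pool.Agent.W_MP_be6f00_gt.Model
import Pool.Agent.W_MP_be6f00_gt.DataU

set_option autoImplicit false

open Set

namespace Pool.Agent.PolyKnots

namespace BE05

/-- coordinates of the vertex number `i` as a list -/
def cd (i : ℕ) : List ℤ := coordList.getD i []

theorem coord_eq (v : Fin 396) (i : Fin 4) : coord v i = (cd v).getD i 0 := rfl

/-- a linear code of the coordinates -/
def code (v : Fin 396) : ℤ := coord v 3 * 1000 + coord v 0 * 100 + coord v 1 * 10 + coord v 2

theorem code_lt : ∀ v : Fin 395, code v.castSucc < code v.succ := by decide +kernel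

theorem code_strictMono : StrictMono code := Fin.strictMono_iff_lt_succ.2 code_lt

end BE05

theorem coord_injective : Function.Injective coord := by
  intro v w h
  refine BE05.code_strictMono.injective ?_
  unfold BE05.code
  rw [h]

namespace BE05

/-- chain relation on coordinate lists -/
def chB (a b : List ℤ) : Bool :=
  (List.range 4).all fun i => decide (a.getD i 0 ≤ b.getD i 0) && decide (b.getD i 0 ≤ a.getD i 0 + 1)

/-- pairwise chain relation -/
def chL (l : List ℕ) : Bool :=
  let cs := l.map cd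
  cs.all fun a => cs.all fun b => chB a b || chB b a

theorem chB_iff {a b : List ℤ} (h : chB a b = true) (i : Fin 4) :
    a.getD i 0 ≤ b.getD i 0 ∧ b.getD i 0 ≤ a.getD i 0 + 1 := by
  unfold chB at h
  rw [List.all_eq_true] at h
  have := h i (List.mem_range.2 i.2)
  simpa using this

theorem chL_chain {l : List ℕ} (h : chL l = true) (s : Finset (Fin 396))
    (hs : ∀ v ∈ s, (v : ℕ) ∈ l) : IsChainSimplex (s.image coord) := by
  unfold chL at h
  rw [List.all_eq_true] at h
  intro x hx y hy
  obtain ⟨v, hv, rfl⟩ := Finset.mem_image.1 hx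
  obtain ⟨w, hw, rfl⟩ := Finset.mem_image.1 hy
  have h1 := h (cd v) (List.mem_map.2 ⟨v, hs v hv, rfl⟩)
  rw [List.all_eq_true] at h1
  have h2 := h1 (cd w) (List.mem_map.2 ⟨w, hs w hw, rfl⟩)
  rcases Bool.or_eq_true_iff.1 h2 with h3 | h3
  · left
    intro i
    exact chB_iff h3 i
  · right
    intro i
    exact chB_iff h3 i

theorem tris_chain : (d0Tris ++ d1Tris).all chL = true := by decide +kernel

theorem blocksU_chain : (blocksU.all fun b => b.2.all fun f =>
    chL (f.1 ++ f.2) && (f.1 ++ f.2).all (fun i => decide (i < 396))) = true := by decide +kernel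

theorem d0_side : (d0Tris.all fun t => t.all fun i => decide ((cd i).getD 3 0 ≤ 0)) = true := by
  decide +kernel

theorem d1_side : (d1Tris.all fun t => t.all fun i => decide (0 ≤ (cd i).getD 3 0)) = true := by
  decide +kernel

/-- masks -/
theorem testBit_msk (l : List ℕ) (k : ℕ) : (msk l).testBit k = true ↔ k ∈ l := by
  induction l with
  | nil => simp [msk]
  | cons a l ih =>
    have h : msk (a :: l) = (1 <<< a) ||| msk l := rfl
    rw [h, Nat.testBit_or, Bool.or_eq_true, ih, List.mem_cons]
    refine or_congr ?_ Iff.rfl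
    rw [Nat.one_shiftLeft, Nat.testBit_two_pow]
    simp only [decide_eq_true_eq]
    exact eq_comm

theorem mem_vset_msk {n : ℕ} (l : List ℕ) (v : Fin n) : v ∈ vset n (msk l) ↔ (v : ℕ) ∈ l := by
  rw [vset, Finset.mem_filter]
  simp only [Finset.mem_univ, true_and]
  exact testBit_msk l v

theorem mem_masks {s : Finset (Fin 396)} (h : s ∈ facets 396 (m0 ++ m1)) :
    ∃ t ∈ d0Tris ++ d1Tris, s = vset 396 (msk t) := by
  obtain ⟨m, hm, rfl⟩ := h
  rcases List.mem_append.1 hm with hm | hm
  · obtain ⟨t, ht, rfl⟩ := List.mem_map.1 hm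
    exact ⟨t, List.mem_append_left _ ht, rfl⟩
  · obtain ⟨t, ht, rfl⟩ := List.mem_map.1 hm
    exact ⟨t, List.mem_append_right _ ht, rfl⟩

theorem facet_chain {s : Finset (Fin 396)} (h : s ∈ facets 396 (m0 ++ m1)) :
    IsChainSimplex (s.image coord) := by
  obtain ⟨t, ht, rfl⟩ := mem_masks h
  have := List.all_eq_true.1 tris_chain t ht
  exact chL_chain this _ fun v hv => (mem_vset_msk t v).1 hv

end BE05

theorem IsChainSimplex.mono {m : ℕ} {σ τ : Finset (Fin m → ℤ)} (h : IsChainSimplex σ) (hs : τ ⊆ σ) :
    IsChainSimplex τ := fun v hv w hw => h v (hs hv) w (hs hw)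

theorem KU_chain : ∀ s ∈ KU.faces, IsChainSimplex (s.image coord) := by
  rintro s ⟨_, t, ht, hst⟩
  exact (BE05.facet_chain ht).mono (Finset.image_subset_image hst)

theorem KU_oneSided : OneSided KU.faces tU := by
  rintro s ⟨_, _, ⟨m, hm, rfl⟩, hst⟩
  rcases List.mem_append.1 hm with hm | hm
  · right
    obtain ⟨t, ht, rfl⟩ := List.mem_map.1 hm
    intro v hv
    have h1 := (BE05.mem_vset_msk t v).1 (hst hv)
    have h2 := List.all_eq_true.1 (List.all_eq_true.1 BE05.d0_side t ht) v h1
    exact of_decide_eq_true h2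
  · left
    obtain ⟨t, ht, rfl⟩ := List.mem_map.1 hm
    intro v hv
    have h1 := (BE05.mem_vset_msk t v).1 (hst hv)
    have h2 := List.all_eq_true.1 (List.all_eq_true.1 BE05.d1_side t ht) v h1
    exact of_decide_eq_true h2

end Pool.Agent.PolyKnots
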