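import Pool.Agent.W_MP_be6f00_gt.Model

set_option autoImplicit false

/-! BE03: separation of Freudenthal simplices, injectivity of simplexwise maps, bodies. -/

open Set

namespace Pool.Agent.PolyKnots

namespace BE03

/-- The functional `x_i + c`. -/
noncomputable def fPlus {m : ℕ} (i : Fin m) (c : ℝ) : (Fin m → ℝ) →ᵃ[ℝ] ℝ :=
  (LinearMap.proj i : (Fin m → ℝ) →ₗ[ℝ] ℝ).toAffineMap + AffineMap.const ℝ (Fin m → ℝ) c

/-- The functional `c - x_i`. -/
noncomputable def fMinus {m : ℕ} (i : Fin m) (c : ℝ) : (Fin m → ℝ) →ᵃ[ℝ] ℝ :=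
  (-(LinearMap.proj i : (Fin m → ℝ) →ₗ[ℝ] ℝ)).toAffineMap + AffineMap.const ℝ (Fin m → ℝ) c

/-- The functional `x_i - x_j + c`. -/
noncomputable def fDiff {m : ℕ} (i j : Fin m) (c : ℝ) : (Fin m → ℝ) →ᵃ[ℝ] ℝ :=
  ((LinearMap.proj i : (Fin m → ℝ) →ₗ[ℝ] ℝ) - (LinearMap.proj j : (Fin m → ℝ) →ₗ[ℝ] ℝ)).toAffineMap +
    AffineMap.const ℝ (Fin m → ℝ) c

theorem fPlus_apply {m : ℕ} (i : Fin m) (c : ℝ) (x : Fin m → ℝ) : fPlus i c x = x i + c := rfl
theorem fMinus_apply {m : ℕ} (i : Fin m) (c : ℝ) (x : Fin m → ℝ) : fMinus i c x = - x i + c := rfl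
theorem fDiff_apply {m : ℕ} (i j : Fin m) (c : ℝ) (x : Fin m → ℝ) :
    fDiff i j c x = x i - x j + c := rfl

/-- It is enough to find a functional for each vertex separately. -/
theorem exists_sum {V E : Type} [AddCommGroup E] [Module ℝ E] (pos : V → E) (σ τ : Finset V)
    (h : ∀ w ∈ σ, w ∉ τ → ∃ g : E →ᵃ[ℝ] ℝ, (∀ v ∈ σ, 0 ≤ g (pos v)) ∧ (∀ v ∈ τ, g (pos v) ≤ 0) ∧
      0 < g (pos w)) :
    ∃ l : E →ᵃ[ℝ] ℝ, (∀ v ∈ σ, 0 ≤ l (pos v)) ∧ (∀ v ∈ τ, l (pos v) ≤ 0) ∧
      ∀ v ∈ σ, v ∉ τ → 0 < l (pos v) := by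
  classical
  have key : ∀ F : Finset V, F ⊆ σ → (∀ v ∈ F, v ∉ τ) → ∃ l : E →ᵃ[ℝ] ℝ,
      (∀ v ∈ σ, 0 ≤ l (pos v)) ∧ (∀ v ∈ τ, l (pos v) ≤ 0) ∧ ∀ v ∈ F, 0 < l (pos v) := by
    intro F
    induction F using Finset.induction_on with
    | empty =>
      intro _ _
      refine ⟨AffineMap.const ℝ E 0, ?_, ?_, ?_⟩
      · intro v _; exact le_rfl
      · intro v _; exact le_rfl
      · intro v hv; simp at hv
    | insert w F hw ih =>
      intro hF hFτ
      obtain ⟨l, h1, h2, h3⟩ := ih ((Finset.subset_insert _ _).trans hF)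
        (fun v hv => hFτ v (Finset.mem_insert_of_mem hv))
      obtain ⟨g, g1, g2, g3⟩ := h w (hF (Finset.mem_insert_self _ _))
        (hFτ w (Finset.mem_insert_self _ _))
      refine ⟨l + g, ?_, ?_, ?_⟩
      · intro v hv
        exact add_nonneg (h1 v hv) (g1 v hv)
      · intro v hv
        exact add_nonpos (h2 v hv) (g2 v hv)
      · intro v hv
        rcases Finset.mem_insert.1 hv with rfl | hv'
        · exact add_pos_of_nonneg_of_pos (h1 v (hF hv)) g3
        · exact add_pos_of_pos_of_nonneg (h3 v hv') (g1 v (hF hv))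
  obtain ⟨l, h1, h2, h3⟩ := key (σ.filter (fun v => v ∉ τ)) (Finset.filter_subset _ _)
    (fun v hv => (Finset.mem_filter.1 hv).2)
  exact ⟨l, h1, h2, fun v hv hvτ => h3 v (Finset.mem_filter.2 ⟨hv, hvτ⟩)⟩

theorem chain_le {m : ℕ} {σ : Finset (Fin m → ℤ)} (h : IsChainSimplex σ) {a b : Fin m → ℤ}
    (ha : a ∈ σ) (hb : b ∈ σ) (hab : ∑ k, a k ≤ ∑ k, b k) : ∀ i, a i ≤ b i := by
  rcases h a ha b hb with h1 | h1
  · exact fun i => (h1 i).1
  · intro i
    have h2 : ∑ k, (a k - b k) ≤ 0 := by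
      rw [Finset.sum_sub_distrib]; linarith
    have h3 := (Finset.sum_eq_zero_iff_of_nonneg (s := Finset.univ)
      (f := fun k => a k - b k) (fun k _ => by have := (h1 k).1; omega)).1
      (le_antisymm h2 (Finset.sum_nonneg (fun k _ => by have := (h1 k).1; omega)))
    have := h3 i (Finset.mem_univ i)
    omega

theorem le_add_one {m : ℕ} {σ : Finset (Fin m → ℤ)} (h : IsChainSimplex σ) {a b : Fin m → ℤ}
    (ha : a ∈ σ) (hb : b ∈ σ) (i : Fin m) : a i ≤ b i + 1 := by
  rcases h a ha b hb with h1 | h1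
  · have := (h1 i).1; omega
  · exact (h1 i).2

/-- The separating functional of one vertex. -/
theorem exists_functional {m : ℕ} {σ τ : Finset (Fin m → ℤ)} (hσ : IsChainSimplex σ)
    (hτ : IsChainSimplex τ) {w : Fin m → ℤ} (hw : w ∈ σ) (hwτ : w ∉ τ) :
    ∃ g : (Fin m → ℝ) →ᵃ[ℝ] ℝ, (∀ v ∈ σ, 0 ≤ g (latPos v)) ∧ (∀ v ∈ τ, g (latPos v) ≤ 0) ∧
      0 < g (latPos w) := by
  classical
  rcases τ.eq_empty_or_nonempty with hemp | hne
  · refine ⟨AffineMap.const ℝ _ 1, fun v _ => zero_le_one, ?_, zero_lt_one⟩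
    intro v hv; rw [hemp] at hv; simp at hv
  -- case 1: above in some coordinate
  by_cases h1 : ∃ i, ∀ v ∈ τ, v i < w i
  · obtain ⟨i, hi⟩ := h1
    refine ⟨fPlus i (1 - w i), ?_, ?_, ?_⟩
    · intro v hv
      rw [fPlus_apply]
      have := le_add_one hσ hw hv i
      have h2 : (w i : ℝ) ≤ v i + 1 := by exact_mod_cast this
      simp only [latPos]; linarith
    · intro v hv
      rw [fPlus_apply]
      have := hi v hv
      have h2 : (v i : ℝ) + 1 ≤ w i := by exact_mod_cast this
      simp only [latPos]; linarith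
    · rw [fPlus_apply]; simp only [latPos]; linarith
  by_cases h2 : ∃ i, ∀ v ∈ τ, w i < v i
  · obtain ⟨i, hi⟩ := h2
    refine ⟨fMinus i (1 + w i), ?_, ?_, ?_⟩
    · intro v hv
      rw [fMinus_apply]
      have := le_add_one hσ hv hw i
      have h2 : (v i : ℝ) ≤ w i + 1 := by exact_mod_cast this
      simp only [latPos]; linarith
    · intro v hv
      rw [fMinus_apply]
      have := hi v hv
      have h2 : (w i : ℝ) + 1 ≤ v i := by exact_mod_cast this
      simp only [latPos]; linarith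
    · rw [fMinus_apply]; simp only [latPos]; linarith
  push Not at h1 h2
  obtain ⟨v0, hv0, hmin⟩ := Finset.exists_min_image τ (fun v => ∑ k, v k) hne
  have hv0le : ∀ v ∈ τ, ∀ i, v0 i ≤ v i := fun v hv i => chain_le hτ hv0 hv (hmin v hv) i
  have hw0 : ∀ i, v0 i ≤ w i := by
    intro i
    obtain ⟨v, hv, hvi⟩ := h2 i
    have := hv0le v hv i
    omega
  have hw1 : ∀ i, w i ≤ v0 i + 1 := by
    intro i
    obtain ⟨v, hv, hvi⟩ := h1 i
    have := le_add_one hτ hv hv0 i
    omega
  -- the support of `w - v0`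
  have hT : ∃ i, w i = v0 i + 1 := by
    by_contra hcon
    push Not at hcon
    apply hwτ
    have : w = v0 := by
      funext i
      have := hw0 i; have := hw1 i; have := hcon i
      omega
    rw [this]; exact hv0
  have hm : ∀ i, ∃ v ∈ τ, w i = v0 i + 1 → (v i = v0 i + 1 ∧
      ∀ v' ∈ τ, v' i = v0 i + 1 → ∑ k, v k ≤ ∑ k, v' k) := by
    intro i
    by_cases hi : w i = v0 i + 1
    · obtain ⟨v, hv, hvi⟩ := h1 i
      have hne' : (τ.filter (fun v => v i = v0 i + 1)).Nonempty := by
        refine ⟨v, Finset.mem_filter.2 ⟨hv, ?_⟩⟩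
        have := le_add_one hτ hv hv0 i
        omega
      obtain ⟨u, hu, humin⟩ := Finset.exists_min_image _ (fun v : Fin m → ℤ => ∑ k, v k) hne'
      rw [Finset.mem_filter] at hu
      exact ⟨u, hu.1, fun _ => ⟨hu.2, fun v' hv' hv'i =>
        humin v' (Finset.mem_filter.2 ⟨hv', hv'i⟩)⟩⟩
    · exact ⟨v0, hv0, fun h => absurd h hi⟩
  choose M hMτ hM using hm
  obtain ⟨i0, hi0⟩ := hT
  obtain ⟨i, hi, hmax⟩ := Finset.exists_max_image
    (Finset.univ.filter (fun i => w i = v0 i + 1)) (fun i => ∑ k, M i k)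
    ⟨i0, Finset.mem_filter.2 ⟨Finset.mem_univ _, hi0⟩⟩
  have hiT : w i = v0 i + 1 := (Finset.mem_filter.1 hi).2
  have hge : ∀ k, w k ≤ M i k := by
    intro k
    by_cases hk : w k = v0 k + 1
    · have h3 := hmax k (Finset.mem_filter.2 ⟨Finset.mem_univ _, hk⟩)
      have h4 := chain_le hτ (hMτ k) (hMτ i) h3 k
      have h5 := (hM k hk).1
      omega
    · have := hw0 k; have := hw1 k
      have := hv0le (M i) (hMτ i) k
      omega
  have hex : ∃ j, w j < M i j := by
    by_contra hcon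
    push Not at hcon
    apply hwτ
    have : w = M i := by
      funext k
      exact le_antisymm (hge k) (hcon k)
    rw [this]; exact hMτ i
  obtain ⟨j, hj⟩ := hex
  have hMj : M i j = v0 j + 1 := by
    have := le_add_one hτ (hMτ i) hv0 j
    have := hw0 j
    omega
  have hwj : w j = v0 j := by
    have := hw0 j
    omega
  refine ⟨fDiff i j (-(v0 i - v0 j)), ?_, ?_, ?_⟩
  · intro v hv
    rw [fDiff_apply]
    have h3 : w i - w j ≤ v i - v j + 1 := by
      rcases hσ v hv w hw with h | h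
      · have := h i; have := h j; omega
      · have := h i; have := h j; omega
    have h4 : (w i : ℝ) - w j ≤ v i - v j + 1 := by exact_mod_cast h3
    have h5 : (w i : ℝ) = v0 i + 1 := by exact_mod_cast hiT
    have h6 : (w j : ℝ) = v0 j := by exact_mod_cast hwj
    simp only [latPos]
    linarith
  · intro v hv
    rw [fDiff_apply]
    have h3 : v i - v j ≤ v0 i - v0 j := by
      have h4 := hv0le v hv i
      have h5 := le_add_one hτ hv hv0 i
      by_cases hvi : v i = v0 i + 1
      · have h6 := chain_le hτ (hMτ i) hv ((hM i hiT).2 v hv hvi) j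
        omega
      · have := hv0le v hv j
        omega
    have h4 : (v i : ℝ) - v j ≤ v0 i - v0 j := by exact_mod_cast h3
    simp only [latPos]
    linarith
  · rw [fDiff_apply]
    have h5 : (w i : ℝ) = v0 i + 1 := by exact_mod_cast hiT
    have h6 : (w j : ℝ) = v0 j := by exact_mod_cast hwj
    simp only [latPos]
    linarith

/-- Affine functionals of barycentric combinations. -/
theorem affine_simplexwise {V E : Type} [Fintype V] [AddCommGroup E] [Module ℝ E] (pos : V → E)
    (l : E →ᵃ[ℝ] ℝ) (x : V → ℝ) (hx : ∑ v, x v = 1) :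
    l (simplexwise pos x) = ∑ v, x v * l (pos v) := by
  have h : ∀ z, l z = l.linear z + l 0 := fun z => by
    have := congrFun l.decomp z
    simpa using this
  rw [h, simplexwise, map_sum]
  simp_rw [h (pos _), mul_add, map_smul, smul_eq_mul]
  rw [Finset.sum_add_distrib, ← Finset.sum_mul, hx, one_mul]

end BE03

open BE03

theorem sep_chain (m : ℕ) : Sep (latPos (m := m)) IsChainSimplex := by
  intro σ τ hσ hτ
  exact exists_sum latPos σ τ (fun w hw hwτ => exists_functional hσ hτ hw hwτ)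

theorem sep_single (n : ℕ) :
    Sep (fun i : Fin n => (Pi.single i (1 : ℝ) : Fin n → ℝ)) (fun _ => True) := by
  intro σ τ _ _
  apply exists_sum
  intro w hw hwτ
  refine ⟨fPlus w 0, ?_, ?_, ?_⟩
  · intro v _
    rw [fPlus_apply]
    by_cases h : w = v
    · subst h; simp
    · simp [h]
  · intro v hv
    rw [fPlus_apply]
    have h : w ≠ v := by rintro rfl; exact hwτ hv
    simp [h]
  · rw [fPlus_apply]; simp

theorem Sep.comp {V W E : Type} [AddCommGroup E] [Module ℝ E] [DecidableEq W] {pos : W → E}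
    {P : Finset W → Prop} (h : Sep pos P) (f : V → W) (hf : Function.Injective f) :
    Sep (fun v => pos (f v)) (fun s => P (s.image f)) := by
  intro σ τ hσ hτ
  obtain ⟨l, h1, h2, h3⟩ := h (σ.image f) (τ.image f) hσ hτ
  refine ⟨l, ?_, ?_, ?_⟩
  · intro v hv
    exact h1 (f v) (Finset.mem_image_of_mem f hv)
  · intro v hv
    exact h2 (f v) (Finset.mem_image_of_mem f hv)
  · intro v hv hvτ
    apply h3 (f v) (Finset.mem_image_of_mem f hv)
    intro hcon
    obtain ⟨u, hu, huv⟩ := Finset.mem_image.1 hcon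
    rw [hf huv] at hu
    exact hvτ hu

theorem injOn_of_sep {V E : Type} [Fintype V] [DecidableEq V] [AddCommGroup E] [Module ℝ E]
    (pos : V → E) (P : Finset V → Prop) (hsep : Sep pos P) (S : Set (Finset V))
    (hS : ∀ s ∈ S, P s) (hdown : ∀ s ∈ S, ∀ t ⊆ s, P t) : InjOn (simplexwise pos) (sp S) := by
  have main : ∀ x ∈ sp S, ∀ y ∈ sp S, simplexwise pos x = simplexwise pos y →
      ∀ v, x v ≠ 0 → y v ≠ 0 := by
    rintro x ⟨hx0, hx1, s, hs, hxs⟩ y ⟨hy0, hy1, t, ht, hyt⟩ hxy v hv hyv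
    set σ := Finset.univ.filter (fun v => x v ≠ 0) with hσ
    set τ := Finset.univ.filter (fun v => y v ≠ 0) with hτ
    have hσs : σ ⊆ s := by
      intro u hu
      by_contra hcon
      exact (Finset.mem_filter.1 hu).2 (hxs u hcon)
    have hτt : τ ⊆ t := by
      intro u hu
      by_contra hcon
      exact (Finset.mem_filter.1 hu).2 (hyt u hcon)
    obtain ⟨l, h1, h2, h3⟩ := hsep σ τ (hdown s hs σ hσs) (hdown t ht τ hτt)
    have e1 := affine_simplexwise pos l x hx1
    have e2 := affine_simplexwise pos l y hy1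
    have t1 : ∀ u, 0 ≤ x u * l (pos u) := by
      intro u
      by_cases hu : x u = 0
      · rw [hu, zero_mul]
      · exact mul_nonneg (hx0 u) (h1 u (Finset.mem_filter.2 ⟨Finset.mem_univ _, hu⟩))
    have t2 : ∀ u, y u * l (pos u) ≤ 0 := by
      intro u
      by_cases hu : y u = 0
      · rw [hu, zero_mul]
      · exact mul_nonpos_of_nonneg_of_nonpos (hy0 u)
          (h2 u (Finset.mem_filter.2 ⟨Finset.mem_univ _, hu⟩))
    have hsum : ∑ u, x u * l (pos u) = 0 := by
      apply le_antisymm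
      · rw [← e1, hxy, e2]
        exact Finset.sum_nonpos (fun u _ => t2 u)
      · exact Finset.sum_nonneg (fun u _ => t1 u)
    have hz := (Finset.sum_eq_zero_iff_of_nonneg (fun u _ => t1 u)).1 hsum v (Finset.mem_univ v)
    have hpos : 0 < l (pos v) := h3 v (Finset.mem_filter.2 ⟨Finset.mem_univ _, hv⟩) (by
      intro hcon
      exact (Finset.mem_filter.1 hcon).2 hyv)
    rcases mul_eq_zero.1 hz with h | h
    · exact hv h
    · exact absurd h hpos.ne'
  intro x hx y hy hxy
  funext v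
  by_cases hv : x v = 0
  · by_cases hyv : y v = 0
    · rw [hv, hyv]
    · exact absurd hv (main y hy x hx hxy.symm v hyv)
  have hyv := main x hx y hy hxy v hv
  obtain ⟨hx0, hx1, s, hs, hxs⟩ := hx
  obtain ⟨hy0, hy1, t, ht, hyt⟩ := hy
  set σ := Finset.univ.filter (fun v => x v ≠ 0) with hσ
  have hσs : σ ⊆ s := by
    intro u hu
    by_contra hcon
    exact (Finset.mem_filter.1 hu).2 (hxs u hcon)
  obtain ⟨l, h1, h2, h3⟩ := hsep σ (σ.erase v) (hdown s hs σ hσs)
    (hdown s hs _ ((Finset.erase_subset _ _).trans hσs))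
  have hpos : 0 < l (pos v) := h3 v (Finset.mem_filter.2 ⟨Finset.mem_univ _, hv⟩)
    (Finset.notMem_erase v σ)
  have hzero : ∀ u, u ≠ v → x u ≠ 0 → l (pos u) = 0 := by
    intro u huv hu
    have hu' : u ∈ σ := Finset.mem_filter.2 ⟨Finset.mem_univ _, hu⟩
    exact le_antisymm (h2 u (Finset.mem_erase.2 ⟨huv, hu'⟩)) (h1 u hu')
  have e1 : l (simplexwise pos x) = x v * l (pos v) := by
    rw [affine_simplexwise pos l x hx1]
    apply Finset.sum_eq_single v
    · intro u _ huv
      by_cases hu : x u = 0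
      · rw [hu, zero_mul]
      · rw [hzero u huv hu, mul_zero]
    · intro h; exact absurd (Finset.mem_univ v) h
  have e2 : l (simplexwise pos y) = y v * l (pos v) := by
    rw [affine_simplexwise pos l y hy1]
    apply Finset.sum_eq_single v
    · intro u _ huv
      by_cases hu : y u = 0
      · rw [hu, zero_mul]
      · rw [hzero u huv (main y ⟨hy0, hy1, t, ht, hyt⟩ x ⟨hx0, hx1, s, hs, hxs⟩ hxy.symm u hu),
          mul_zero]
    · intro h; exact absurd (Finset.mem_univ v) h
  have : x v * l (pos v) = y v * l (pos v) := by rw [← e1, ← e2, hxy]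
  exact mul_right_cancel₀ hpos.ne' this

theorem body_eq_image {V E : Type} [Fintype V] [DecidableEq V] [AddCommGroup E] [Module ℝ E]
    (pos : V → E) (S : Set (Finset V)) : body pos S = simplexwise pos '' sp S := by
  ext z
  simp only [body, mem_iUnion, mem_image]
  constructor
  · rintro ⟨s, hs, hz⟩
    have hsub : convexHull ℝ (pos '' (s : Set V)) ⊆ simplexwise pos ''
        {x : V → ℝ | (∀ v, 0 ≤ x v) ∧ ∑ v, x v = 1 ∧ ∀ v, v ∉ s → x v = 0} := by
      apply convexHull_min
      · rintro _ ⟨v, hv, rfl⟩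
        refine ⟨Pi.single v 1, ⟨?_, ?_, ?_⟩, ?_⟩
        · intro u
          by_cases h : u = v
          · subst h; simp
          · simp [h]
        · simp
        · intro u hu
          have h : u ≠ v := by rintro rfl; exact hu hv
          simp [h]
        · simp [simplexwise, Pi.single_apply]
      · rintro _ ⟨x, ⟨hx0, hx1, hx2⟩, rfl⟩ _ ⟨y, ⟨hy0, hy1, hy2⟩, rfl⟩ a b ha hb hab
        refine ⟨fun v => a * x v + b * y v, ⟨?_, ?_, ?_⟩, ?_⟩
        · intro v
          exact add_nonneg (mul_nonneg ha (hx0 v)) (mul_nonneg hb (hy0 v))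
        · rw [Finset.sum_add_distrib, ← Finset.mul_sum, ← Finset.mul_sum, hx1, hy1]
          linarith
        · intro v hv
          show a * x v + b * y v = 0
          rw [hx2 v hv, hy2 v hv]; ring
        · simp only [simplexwise, Finset.smul_sum, ← Finset.sum_add_distrib, add_smul, mul_smul]
    obtain ⟨x, ⟨h1, h2, h3⟩, hxz⟩ := hsub hz
    exact ⟨x, ⟨h1, h2, s, hs, h3⟩, hxz⟩
  · rintro ⟨x, ⟨h1, h2, s, hs, h3⟩, rfl⟩
    refine ⟨s, hs, ?_⟩
    have e : simplexwise pos x = ∑ v ∈ s, x v • pos v := by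
      rw [simplexwise]
      symm
      apply Finset.sum_subset (Finset.subset_univ s)
      intro v _ hv
      rw [h3 v hv, zero_smul]
    rw [e]
    apply (convex_convexHull ℝ _).sum_mem
    · intro v _; exact h1 v
    · rw [← h2]
      apply Finset.sum_subset (Finset.subset_univ s)
      intro v _ hv
      exact h3 v hv
    · intro v hv
      exact subset_convexHull ℝ _ ⟨v, hv, rfl⟩

namespace BE03

theorem mem3 {E : Type} [AddCommGroup E] [Module ℝ E] (p q r : E) {a b c : ℝ} (ha : 0 ≤ a)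
    (hb : 0 ≤ b) (hc : 0 ≤ c) (h : a + b + c = 1) :
    a • p + b • q + c • r ∈ convexHull ℝ ({p, q, r} : Set E) := by
  have := (convex_convexHull ℝ ({p, q, r} : Set E)).sum_mem (t := Finset.univ)
    (w := ![a, b, c]) (z := ![p, q, r])
    (by intro i _; fin_cases i <;> simp [ha, hb, hc])
    (by simp [Fin.sum_univ_three, h])
    (by
      intro i _
      apply subset_convexHull
      fin_cases i <;> simp)
  simpa [Fin.sum_univ_three] using this

theorem convex_sqSet (a : List ℤ) (i j : ℕ) : Convex ℝ (sqSet a i j) := by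
  intro x hx y hy s t hs ht hst k
  obtain ⟨h1, h2⟩ := hx k
  obtain ⟨h3, h4⟩ := hy k
  simp only [Pi.add_apply, Pi.smul_apply, smul_eq_mul]
  set L : ℝ := ((a.getD k 0 : ℤ) : ℝ)
  set U : ℝ := L + (if (k : ℕ) = i ∨ (k : ℕ) = j then 1 else 0)
  have e1 : s * L + t * L = L := by rw [← add_mul, hst, one_mul]
  have e2 : s * U + t * U = U := by rw [← add_mul, hst, one_mul]
  constructor
  · rw [← e1]
    exact add_le_add (mul_le_mul_of_nonneg_left h1 hs) (mul_le_mul_of_nonneg_left h3 ht)
  · rw [← e2]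
    exact add_le_add (mul_le_mul_of_nonneg_left h2 hs) (mul_le_mul_of_nonneg_left h4 ht)

end BE03

/-- A unit square is the union of two chain triangles. -/
theorem sqSet_eq (a : List ℤ) (i j : Fin 4) (hij : i ≠ j) (v : Fin 4 → Fin 4 → ℤ)
    (h0 : v 0 = fun k : Fin 4 => a.getD (k : ℕ) 0) (h1 : v 1 = fun k => v 0 k + if k = i then 1 else 0)
    (h2 : v 2 = fun k => v 0 k + if k = j then 1 else 0)
    (h3 : v 3 = fun k => v 0 k + (if k = i then 1 else 0) + if k = j then 1 else 0) :
    sqSet a i j = convexHull ℝ {latPos (v 0), latPos (v 1), latPos (v 3)} ∪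
      convexHull ℝ {latPos (v 0), latPos (v 2), latPos (v 3)} := by
  have e0 : ∀ k, latPos (v 0) k = ((a.getD (k : ℕ) 0 : ℤ) : ℝ) := by
    intro k; rw [h0]; rfl
  have e1 : ∀ k, latPos (v 1) k = ((a.getD (k : ℕ) 0 : ℤ) : ℝ) + if k = i then 1 else 0 := by
    intro k; rw [h1, h0]; simp only [latPos]; push_cast; rfl
  have e2 : ∀ k, latPos (v 2) k = ((a.getD (k : ℕ) 0 : ℤ) : ℝ) + if k = j then 1 else 0 := by
    intro k; rw [h2, h0]; simp only [latPos]; push_cast; rfl
  have e3 : ∀ k, latPos (v 3) k = ((a.getD (k : ℕ) 0 : ℤ) : ℝ) + (if k = i then 1 else 0)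
      + if k = j then 1 else 0 := by
    intro k; rw [h3, h0]; simp only [latPos]; push_cast; rfl
  have hki : ∀ k : Fin 4, ((k : ℕ) = (i : ℕ) ∨ (k : ℕ) = (j : ℕ)) ↔ (k = i ∨ k = j) := by
    intro k; rw [Fin.ext_iff, Fin.ext_iff]
  have m0 : latPos (v 0) ∈ sqSet a i j := by
    intro k
    rw [e0]
    refine ⟨le_rfl, ?_⟩
    split_ifs <;> linarith
  have m1 : latPos (v 1) ∈ sqSet a i j := by
    intro k
    rw [e1]
    by_cases hk : k = i
    · have : (k : ℕ) = (i : ℕ) ∨ (k : ℕ) = (j : ℕ) := (hki k).2 (Or.inl hk)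
      rw [if_pos hk, if_pos this]
      exact ⟨by linarith, le_rfl⟩
    · rw [if_neg hk]
      refine ⟨by linarith, ?_⟩
      split_ifs <;> linarith
  have m2 : latPos (v 2) ∈ sqSet a i j := by
    intro k
    rw [e2]
    by_cases hk : k = j
    · have : (k : ℕ) = (i : ℕ) ∨ (k : ℕ) = (j : ℕ) := (hki k).2 (Or.inr hk)
      rw [if_pos hk, if_pos this]
      exact ⟨by linarith, le_rfl⟩
    · rw [if_neg hk]
      refine ⟨by linarith, ?_⟩
      split_ifs <;> linarith
  have m3 : latPos (v 3) ∈ sqSet a i j := by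
    intro k
    rw [e3]
    by_cases hk : k = i
    · have h4 : (k : ℕ) = (i : ℕ) ∨ (k : ℕ) = (j : ℕ) := (hki k).2 (Or.inl hk)
      have h5 : k ≠ j := fun h => hij (hk.symm.trans h)
      rw [if_pos hk, if_pos h4, if_neg h5]
      exact ⟨by linarith, by linarith⟩
    · by_cases hk' : k = j
      · have h4 : (k : ℕ) = (i : ℕ) ∨ (k : ℕ) = (j : ℕ) := (hki k).2 (Or.inr hk')
        rw [if_neg hk, if_pos h4, if_pos hk']
        exact ⟨by linarith, by linarith⟩
      · rw [if_neg hk, if_neg hk']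
        refine ⟨by linarith, ?_⟩
        split_ifs <;> linarith
  apply Subset.antisymm
  · intro y hy
    have hother : ∀ k, k ≠ i → k ≠ j → y k = ((a.getD (k : ℕ) 0 : ℤ) : ℝ) := by
      intro k hk hk'
      obtain ⟨h4, h5⟩ := hy k
      have : ¬ ((k : ℕ) = (i : ℕ) ∨ (k : ℕ) = (j : ℕ)) := by
        rw [hki]; push Not; exact ⟨hk, hk'⟩
      rw [if_neg this] at h5
      linarith
    obtain ⟨hi1, hi2⟩ := hy i
    obtain ⟨hj1, hj2⟩ := hy j
    rw [if_pos ((hki i).2 (Or.inl rfl))] at hi2
    rw [if_pos ((hki j).2 (Or.inr rfl))] at hj2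
    set α := y i - ((a.getD (i : ℕ) 0 : ℤ) : ℝ) with hα
    set β := y j - ((a.getD (j : ℕ) 0 : ℤ) : ℝ) with hβ
    rcases le_total β α with hle | hle
    · left
      have : y = (1 - α) • latPos (v 0) + (α - β) • latPos (v 1) + β • latPos (v 3) := by
        funext k
        simp only [Pi.add_apply, Pi.smul_apply, smul_eq_mul, e0, e1, e3]
        by_cases hk : k = i
        · subst hk
          rw [if_pos rfl, if_neg hij]
          linarith
        · by_cases hk' : k = j
          · subst hk'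
            rw [if_neg hk, if_pos rfl]
            linarith
          · rw [if_neg hk, if_neg hk', hother k hk hk']
            ring
      rw [this]
      exact BE03.mem3 _ _ _ (by linarith) (by linarith) (by linarith) (by ring)
    · right
      have : y = (1 - β) • latPos (v 0) + (β - α) • latPos (v 2) + α • latPos (v 3) := by
        funext k
        simp only [Pi.add_apply, Pi.smul_apply, smul_eq_mul, e0, e2, e3]
        by_cases hk : k = i
        · subst hk
          rw [if_pos rfl, if_neg hij]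
          linarith
        · by_cases hk' : k = j
          · subst hk'
            rw [if_neg hk, if_pos rfl]
            linarith
          · rw [if_neg hk, if_neg hk', hother k hk hk']
            ring
      rw [this]
      exact BE03.mem3 _ _ _ (by linarith) (by linarith) (by linarith) (by ring)
  · apply union_subset
    · apply convexHull_min _ (BE03.convex_sqSet a i j)
      rintro x (rfl | rfl | rfl)
      · exact m0
      · exact m1
      · exact m3
    · apply convexHull_min _ (BE03.convex_sqSet a i j)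
      rintro x (rfl | rfl | rfl)
      · exact m0
      · exact m2
      · exact m3

end Pool.Agent.PolyKnots
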