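import Pool.Agent.W_MP_be6f00_gt.DataFactsA
import Pool.Agent.W_MP_be6f00_gt.Freud

set_option autoImplicit false

open Set

namespace Pool.Agent.PolyKnots

namespace BE05

/-- move by the unit vector `i` -/
def bump (a : List ℤ) (i : ℕ) : List ℤ := a.set i (a.getD i 0 + 1)

theorem getD_bump {a : List ℤ} (i : ℕ) (hi : i < a.length) (k : ℕ) :
    (bump a i).getD k 0 = a.getD k 0 + if k = i then 1 else 0 := by
  unfold bump
  by_cases h : k = i
  · subst h
    simp [List.getD, hi]
  · rw [if_neg h, add_zero]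
    simp [List.getD, List.getElem?_set, Ne.symm h]

/-- squares against triangles -/
def sqChk : List (List ℤ × ℕ × ℕ) → List (List ℕ) → Bool
  | [], [] => true
  | (a, i, j) :: r, T1 :: T2 :: ts =>
    decide (i < 4) && decide (j < 4) && !(i == j) && a.length == 4 &&
    T1.all (fun x => decide (x < 396)) && T2.all (fun x => decide (x < 396)) &&
    T1.map cd == [a, bump a i, bump (bump a i) j] && T2.map cd == [a, bump a j, bump (bump a i) j] &&
    sqChk r ts
  | _, _ => false

theorem sqChk0 : sqChk sqs0 d0Tris = true := by decide +kernel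
theorem sqChk1 : sqChk sqs1 d1Tris = true := by decide +kernel

/-- the position of a vertex -/
noncomputable def ps (v : Fin 396) : Fin 4 → ℝ := latPos (coord v)

theorem ps_eq {x : ℕ} (hx : x < 396) {a : List ℤ} (h : cd x = a) :
    ps ⟨x, hx⟩ = latPos (fun k : Fin 4 => a.getD k 0) := by
  subst h; rfl

theorem image_tri (T : List ℕ) (hT : ∀ x ∈ T, x < 396) (a b c : List ℤ)
    (h : T.map cd = [a, b, c]) :
    ps '' (vset 396 (msk T) : Set (Fin 396)) =
      {latPos (fun k : Fin 4 => a.getD k 0), latPos (fun k : Fin 4 => b.getD k 0),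
        latPos (fun k : Fin 4 => c.getD k 0)} := by
  match T, h with
  | [x, y, z], h =>
    simp only [List.map_cons, List.map_nil, List.cons.injEq, and_true] at h
    obtain ⟨h1, h2, h3⟩ := h
    have hx : x < 396 := hT x (by simp)
    have hy : y < 396 := hT y (by simp)
    have hz : z < 396 := hT z (by simp)
    rw [← ps_eq hx h1, ← ps_eq hy h2, ← ps_eq hz h3]
    ext p
    simp only [mem_image, Finset.mem_coe, mem_vset_msk, mem_insert_iff, mem_singleton_iff,
      List.mem_cons, List.not_mem_nil, or_false]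
    constructor
    · rintro ⟨v, (hv | hv | hv), rfl⟩
      · left; congr 1; exact Fin.ext hv
      · right; left; congr 1; exact Fin.ext hv
      · right; right; congr 1; exact Fin.ext hv
    · rintro (rfl | rfl | rfl)
      · exact ⟨_, Or.inl rfl, rfl⟩
      · exact ⟨_, Or.inr (Or.inl rfl), rfl⟩
      · exact ⟨_, Or.inr (Or.inr rfl), rfl⟩

theorem sq_union {a : List ℤ} {i j : ℕ} (hi : i < 4) (hj : j < 4) (hij : i ≠ j) (ha : a.length = 4)
    (T1 T2 : List ℕ) (h1 : ∀ x ∈ T1, x < 396) (h2 : ∀ x ∈ T2, x < 396)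
    (e1 : T1.map cd = [a, bump a i, bump (bump a i) j])
    (e2 : T2.map cd = [a, bump a j, bump (bump a i) j]) :
    sqSet a i j = convexHull ℝ (ps '' (vset 396 (msk T1) : Set (Fin 396))) ∪
      convexHull ℝ (ps '' (vset 396 (msk T2) : Set (Fin 396))) := by
  rw [image_tri T1 h1 _ _ _ e1, image_tri T2 h2 _ _ _ e2]
  have hl : (bump a i).length = 4 := by simp [bump, ha]
  have h := sqSet_eq a ⟨i, hi⟩ ⟨j, hj⟩ (fun h => hij (congrArg Fin.val h))
    ![fun k : Fin 4 => a.getD k 0, fun k : Fin 4 => (bump a i).getD k 0,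
      fun k : Fin 4 => (bump a j).getD k 0, fun k : Fin 4 => (bump (bump a i) j).getD k 0]
    rfl
    (by
      funext k
      show (bump a i).getD k 0 = a.getD k 0 + _
      rw [getD_bump i (by omega)]
      congr 1
      simp [Fin.ext_iff])
    (by
      funext k
      show (bump a j).getD k 0 = a.getD k 0 + _
      rw [getD_bump j (by omega)]
      congr 1
      simp [Fin.ext_iff])
    (by
      funext k
      show (bump (bump a i) j).getD k 0 = a.getD k 0 + _ + _
      rw [getD_bump j (by omega), getD_bump i (by omega)]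
      simp [Fin.ext_iff])
  exact h

theorem sqChk_union : ∀ (sq : List (List ℤ × ℕ × ℕ)) (ts : List (List ℕ)), sqChk sq ts = true →
    {y | ∃ s ∈ sq, y ∈ sqSet s.1 s.2.1 s.2.2} =
      ⋃ t ∈ ts, convexHull ℝ (ps '' (vset 396 (msk t) : Set (Fin 396)))
  | [], [], _ => by ext y; simp
  | [], _ :: _, h => by simp [sqChk] at h
  | _ :: _, [], h => by simp [sqChk] at h
  | _ :: _, [_], h => by simp [sqChk] at h
  | (a, i, j) :: r, T1 :: T2 :: ts, h => by
    simp only [sqChk, Bool.and_eq_true, decide_eq_true_eq, beq_iff_eq, Bool.not_eq_true',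
      List.all_eq_true] at h
    obtain ⟨⟨⟨⟨⟨⟨⟨⟨hi, hj⟩, hij⟩, ha⟩, h1⟩, h2⟩, e1⟩, e2⟩, hr⟩ := h
    have hij' : i ≠ j := by simpa using hij
    have ih := sqChk_union r ts hr
    have hu := sq_union hi hj hij' ha T1 T2 h1 h2 e1 e2
    ext y
    simp only [mem_ofPred_eq, List.mem_cons, exists_eq_or_imp, iUnion_iUnion_eq_or_left,
      mem_union]
    rw [show (∃ s ∈ r, y ∈ sqSet s.1 s.2.1 s.2.2) ↔
        y ∈ ⋃ t ∈ ts, convexHull ℝ (ps '' (vset 396 (msk t) : Set (Fin 396))) from by
      rw [← ih]; rfl]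
    rw [hu, mem_union, or_assoc]

end BE05

theorem body_facets_mono {V E : Type} [AddCommGroup E] [Module ℝ E] (pos : V → E)
    (S : Set (Finset V)) (hS : ∀ s ∈ S, s.Nonempty) : body pos (closeF S) = body pos S := by
  unfold body
  ext y
  simp only [mem_iUnion]
  constructor
  · rintro ⟨s, ⟨_, t, ht, hst⟩, hy⟩
    exact ⟨t, ht, convexHull_mono (image_mono (by exact_mod_cast hst)) hy⟩
  · rintro ⟨s, hs, hy⟩
    exact ⟨s, ⟨hS s hs, s, hs, subset_rfl⟩, hy⟩

namespace BE05

theorem nonempty_facets {s : Finset (Fin 396)} (h : s ∈ facets 396 (m0 ++ m1)) : s.Nonempty := by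
  rw [Finset.nonempty_iff_ne_empty]
  rintro rfl
  obtain ⟨t, ht, he⟩ := mem_masks h
  have hn : ((d0Tris ++ d1Tris).all fun t => t.any fun x => decide (x < 396)) = true := by
    decide +kernel
  have h1 := List.all_eq_true.1 hn t ht
  rw [List.any_eq_true] at h1
  obtain ⟨x, hx, hx'⟩ := h1
  have hx'' : x < 396 := of_decide_eq_true hx'
  have : (⟨x, hx''⟩ : Fin 396) ∈ vset 396 (msk t) := (mem_vset_msk t _).2 hx
  rw [← he] at this
  exact absurd this (Finset.notMem_empty _)

theorem body_facets : body ps (facets 396 (m0 ++ m1)) = USet := by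
  have h0 := sqChk_union sqs0 d0Tris sqChk0
  have h1 := sqChk_union sqs1 d1Tris sqChk1
  ext y
  have e0 : y ∈ (⋃ t ∈ d0Tris, convexHull ℝ (ps '' (vset 396 (msk t) : Set (Fin 396)))) ↔
      ∃ s ∈ sqs0, y ∈ sqSet s.1 s.2.1 s.2.2 := by rw [← h0]; rfl
  have e1 : y ∈ (⋃ t ∈ d1Tris, convexHull ℝ (ps '' (vset 396 (msk t) : Set (Fin 396)))) ↔
      ∃ s ∈ sqs1, y ∈ sqSet s.1 s.2.1 s.2.2 := by rw [← h1]; rfl
  simp only [mem_iUnion, exists_prop] at e0 e1
  unfold body USet
  simp only [mem_iUnion, exists_prop, mem_ofPred_eq]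
  constructor
  · rintro ⟨s, hs, hy⟩
    obtain ⟨t, ht, rfl⟩ := mem_masks hs
    rcases List.mem_append.1 ht with ht | ht
    · obtain ⟨s, hs, hy'⟩ := e0.1 ⟨t, ht, hy⟩
      exact ⟨s, List.mem_append_left _ hs, hy'⟩
    · obtain ⟨s, hs, hy'⟩ := e1.1 ⟨t, ht, hy⟩
      exact ⟨s, List.mem_append_right _ hs, hy'⟩
  · rintro ⟨s, hs, hy⟩
    rcases List.mem_append.1 hs with hs | hs
    · obtain ⟨t, ht, hy'⟩ := e0.2 ⟨s, hs, hy⟩
      exact ⟨_, ⟨msk t, List.mem_append_left _ (List.mem_map.2 ⟨t, ht, rfl⟩), rfl⟩, hy'⟩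
    · obtain ⟨t, ht, hy'⟩ := e1.2 ⟨s, hs, hy⟩
      exact ⟨_, ⟨msk t, List.mem_append_right _ (List.mem_map.2 ⟨t, ht, rfl⟩), rfl⟩, hy'⟩

end BE05

theorem body_KU : body (fun v => latPos (coord v)) KU.faces = USet := by
  rw [← BE05.body_facets]
  exact body_facets_mono _ _ fun s hs => BE05.nonempty_facets hs

end Pool.Agent.PolyKnots
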