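import Pool.Agent.W_MP_be6f00_gt.Data

set_option autoImplicit false

/-! The explicit 2-sphere `U ⊂ ℝ⁴` and the explicit 3-sphere `Σ ⊂ ℝ⁵` (four reflected cones). -/

open scoped ENNReal Topology

namespace Pool.Agent.PolyKnots

/-! ## The complex `U` -/

/-- Coordinates `p, q, r, t` of the vertex number `v`. -/
def coord (v : Fin 396) : Fin 4 → ℤ := fun i => (coordList.getD v []).getD i 0

/-- The coordinate `t`. -/
def tU (v : Fin 396) : ℤ := coord v 3

/-- The masks of the triangles of `D0` and `D1`. -/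
def m0 : List ℕ := d0Tris.map msk

/-- The masks of the triangles of `D0` and `D1`. -/
def m1 : List ℕ := d1Tris.map msk

/-- The simplices given by a list of masks. -/
def facets (n : ℕ) (l : List ℕ) : Set (Finset (Fin n)) := {s | ∃ m ∈ l, s = vset n m}

/-- All nonempty faces of the given simplices. -/
def closeF {V : Type} (S : Set (Finset V)) : Set (Finset V) := {s | s.Nonempty ∧ ∃ t ∈ S, s ⊆ t}

/-- Every vertex lies on a triangle (checked by the kernel). -/
def vertexCheck : Bool := (List.range 396).all fun v => (m0 ++ m1).any fun m => m.testBit v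

theorem vertexCheck_true : vertexCheck = true := by decide +kernel

/-- The triangulated 2-sphere `U`. -/
def KU : SComplex (Fin 396) where
  faces := closeF (facets 396 (m0 ++ m1))
  nonempty := fun s hs => hs.1
  down_closed := by
    rintro s ⟨_, t, ht, hst⟩ s' hs' hne
    exact ⟨hne, t, ht, hs'.trans hst⟩
  vertex := by
    intro v
    have h := vertexCheck_true
    unfold vertexCheck at h
    rw [List.all_eq_true] at h
    have h' := h v (List.mem_range.2 v.2)
    rw [List.any_eq_true] at h'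
    obtain ⟨m, hm, hv⟩ := h'
    exact ⟨Finset.singleton_nonempty v, vset 396 m, ⟨m, hm, rfl⟩, by
      rw [Finset.singleton_subset_iff, vset, Finset.mem_filter]
      exact ⟨Finset.mem_univ _, hv⟩⟩

/-- The closed unit square with lower corner `a` and directions `i`, `j`. -/
def sqSet (a : List ℤ) (i j : ℕ) : Set (Fin 4 → ℝ) :=
  {y | ∀ k : Fin 4, ((a.getD k 0 : ℤ) : ℝ) ≤ y k ∧
    y k ≤ ((a.getD k 0 : ℤ) : ℝ) + (if (k : ℕ) = i ∨ (k : ℕ) = j then 1 else 0)}

/-- The 2-sphere `U ⊂ ℝ⁴`. -/
def USet : Set (Fin 4 → ℝ) := {y | ∃ s ∈ sqs0 ++ sqs1, y ∈ sqSet s.1 s.2.1 s.2.2}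

/-! ## The 3-sphere `Σ ⊂ ℝ⁵` -/

/-- The sphere `Σ`: the points `(x, y, p, q, r)` such that `(|x|, |y|, p, q, r)` lies on the cone
with apex `(3, 3, 3, 2, 2)` over `U`, embedded by `(p, q, r, t) ↦ (t⁺, t⁻, p, q, r)`. -/
def SigmaSet : Set (EuclideanSpace ℝ (Fin 5)) :=
  {e | ∃ s ∈ Set.Icc (0 : ℝ) 1, ∃ u ∈ USet,
    |e 0| = (1 - s) * 3 + s * max (u 3) 0 ∧ |e 1| = (1 - s) * 3 + s * max (-(u 3)) 0 ∧
    e 2 = (1 - s) * 3 + s * u 0 ∧ e 3 = (1 - s) * 2 + s * u 1 ∧ e 4 = (1 - s) * 2 + s * u 2}

/-- The positions of the vertices of `Σ`. -/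
noncomputable def posSigma : BookV tU → EuclideanSpace ℝ (Fin 5)
  | Sum.inr q => WithLp.toLp 2 ![sg q.1 * 3, sg q.2 * 3, 3, 2, 2]
  | Sum.inl z => WithLp.toLp 2 ![sg z.1.2 * max (tU z.1.1 : ℝ) 0, sg z.1.2 * max (-(tU z.1.1 : ℝ)) 0,
      coord z.1.1 0, coord z.1.1 1, coord z.1.1 2]

/-! ## The wall tables -/

/-- The region `A` of the `(p, q)`-plane, by unit cells. -/
def inA (p q : ℤ) : Bool := 0 ≤ p && p ≤ 4 && 0 ≤ q && q ≤ 3 && (q == 3 || p != 2)

/-- The region `B` of the `(p, r)`-plane, by unit cells. -/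
def inB (p r : ℤ) : Bool := 1 ≤ p && p ≤ 5 && 0 ≤ r && r ≤ 3 && (r == 3 || p != 3)

/-- The transposition `(0 1)`. -/
def X1 : Equiv.Perm (Fin 3) := Equiv.swap 0 1

/-- The transposition `(1 2)`. -/
def X2 : Equiv.Perm (Fin 3) := Equiv.swap 1 2

/-- The transposition `(0 2)`. -/
def X3 : Equiv.Perm (Fin 3) := Equiv.swap 0 2

/-- The `S₃`-table before the gauge change: transition from the cell `(p, q, r, t)` to the next
cell in the direction `i`, for `t < 0`. -/
def wall0 (i : ℕ) (p q r t : ℤ) : Equiv.Perm (Fin 3) :=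
  if i = 2 then
    if (t == -2 || t == -1) && inA p q && r == 0 then X1
    else if (t == -2 || t == -1) && inA p q && r == 1 then X2
    else if q == 1 && t == -1 then
      if r == -1 && (p == 1 || p == 2) then X1
      else if r == -1 && (p == 4 || p == 5) then X3
      else if r == 2 && p == 3 then X2
      else if r == 3 && 1 ≤ p && p ≤ 5 then X3
      else 1
    else 1
  else if i = 0 then
    if q == 1 && t == -1 then
      if p == 0 && (r == 2 || r == 3) then X3
      else if p == 0 && (r == 0 || r == 1) then X1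
      else if p == 2 && r == 0 then X1
      else if p == 2 && r == 2 then X2
      else if p == 3 && (r == 1 || r == 2) then X2
      else if p == 3 && r == 0 then X3
      else if p == 5 && 0 ≤ r && r ≤ 3 then X3
      else 1
    else 1
  else 1

/-- The gauge. -/
def gauge (p q r t : ℤ) : Equiv.Perm (Fin 3) :=
  if r == 1 && inA p q && (t == -2 || t == -1) then X1 else 1

/-- The `S₃`-table: transition from the cell `c` to `c + e_i`; for `t ≥ 0` it is the vertical
extension of the table at `t = -1`. -/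
def tr3 (i : Fin 4) (c : Fin 4 → ℤ) : Equiv.Perm (Fin 3) :=
  let c' := Function.update c i (c i + 1)
  (gauge (c 0) (c 1) (c 2) (min (c 3) (-1)))⁻¹ * wall0 i (c 0) (c 1) (c 2) (min (c 3) (-1)) *
    gauge (c' 0) (c' 1) (c' 2) (min (c' 3) (-1))

/-- Does the wall `W` (176 unit 3-cubes) separate the cell `(p, q, r, t)` from the next cell in
the direction `i`? -/
def inW (i : ℕ) (p q r t : ℤ) : Bool :=
  if i = 3 then (t == -3 && inA p q && r == 1) || (t == 1 && inB p r && q == 1)
  else if i = 2 then (-1 ≤ t && t ≤ 1 && q == 1 && (inB p r != inB p (r + 1)))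
  else if i = 1 then (-2 ≤ t && t ≤ 0 && r == 1 && (inA p q != inA p (q + 1)))
  else ((-2 ≤ t && t ≤ 0 && r == 1 && (inA p q != inA (p + 1) q)) ||
    (-1 ≤ t && t ≤ 1 && q == 1 && (inB p r != inB (p + 1) r)))

/-- The parity table of the wall `W`. -/
def tr2 (i : Fin 4) (c : Fin 4 → ℤ) : ℤˣ := if inW i (c 0) (c 1) (c 2) (c 3) then -1 else 1

/-- Are the cells `c`, `c'` equal or adjacent? -/
def Adj (c c' : Fin 4 → ℤ) : Prop := ∀ k, |c k - c' k| ≤ 1

/-- Transport between adjacent cells. -/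
noncomputable def transportA {G : Type} [Group G] (e : Fin 4 → (Fin 4 → ℤ) → G)
    (c c' : Fin 4 → ℤ) : G :=
  open Classical in if Adj c c' then transport e c c' else 1

/-- The cell of a point of `ℝ⁴`. -/
noncomputable def cellOf (y : Fin 4 → ℝ) : Fin 4 → ℤ := fun k => ⌊y k⌋

/-- The fold `(|x|, |y|, p, q, r)` followed by the radial projection from `(3, 3, 3, 2, 2)` to
`ℝ⁴ = ∂({x, y ≥ 0} × ℝ³)`; a point far away for the points which do not project. -/
noncomputable def proj (e : EuclideanSpace ℝ (Fin 5)) : Fin 4 → ℝ :=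
  open Classical in
  if min |e 0| |e 1| < 3 then
    ![3 + 3 / (3 - min |e 0| |e 1|) * (e 2 - 3), 2 + 3 / (3 - min |e 0| |e 1|) * (e 3 - 2),
      2 + 3 / (3 - min |e 0| |e 1|) * (e 4 - 2), 3 / (3 - min |e 0| |e 1|) * (|e 0| - |e 1|)]
  else fun _ => 100

/-- The `S₃`-valued pair function on `ℝ⁵`. -/
noncomputable def pair3 (a b : EuclideanSpace ℝ (Fin 5)) : Equiv.Perm (Fin 3) :=
  transportA tr3 (cellOf (proj a)) (cellOf (proj b))

/-- The `±1`-valued pair function on `ℝ⁵`. -/
noncomputable def pair2 (a b : EuclideanSpace ℝ (Fin 5)) : ℤˣ :=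
  transportA tr2 (cellOf (proj a)) (cellOf (proj b))

/-! ## Functionals of homology -/

/-- `μ` of a height function on the vertices. -/
noncomputable def muH (F : Type) [Field F] {V : Type} [Fintype V] (K : SComplex V)
    (h : V → ℝ) : ℝ≥0∞ :=
  ∑ v, totDim F {x : K.space // hLin h x.1 ≤ h v} {x | hLin h x.1.1 < h v}

/-- The order of the vertices of a book complex for which all lower links are contractible,
except at the first and the last cone point. -/
structure BookOrder {V : Type} (t : V → ℤ) (h : BookV t → ℝ) : Prop where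
  pp_lt : ∀ z : {x : V × Bool // t x.1 = 0 → x.2 = true}, h (Sum.inr (true, true)) < h (Sum.inl z)
  plus_lt : ∀ z : {x : V × Bool // t x.1 = 0 → x.2 = true}, z.1.2 = true → t z.1.1 ≠ 0 →
    h (Sum.inl z) < h (Sum.inr (false, true))
  mp_lt : ∀ z : {x : V × Bool // t x.1 = 0 → x.2 = true}, t z.1.1 = 0 →
    h (Sum.inr (false, true)) < h (Sum.inl z)
  lt_pm : ∀ z : {x : V × Bool // t x.1 = 0 → x.2 = true}, t z.1.1 = 0 →
    h (Sum.inl z) < h (Sum.inr (true, false))
  pm_lt : ∀ z : {x : V × Bool // t x.1 = 0 → x.2 = true}, z.1.2 = false →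
    h (Sum.inr (true, false)) < h (Sum.inl z)
  lt_mm : ∀ z : {x : V × Bool // t x.1 = 0 → x.2 = true}, h (Sum.inl z) < h (Sum.inr (false, false))
  pp_lt_mp : h (Sum.inr (true, true)) < h (Sum.inr (false, true))
  mp_lt_pm : h (Sum.inr (false, true)) < h (Sum.inr (true, false))
  pm_lt_mm : h (Sum.inr (true, false)) < h (Sum.inr (false, false))

end Pool.Agent.PolyKnots
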