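import Pool.Agent.W_MP_be6f00_gt.PLa

set_option autoImplicit false

/-! Module BE02 of MP_be6f00_gt: vertex push, simplex flip, straightening of a minimum. -/

open scoped ENNReal Topology
open Set

namespace Pool.Agent.PolyKnots

namespace BE02

section general
variable {E : Type} [AddCommGroup E] [Module ℝ E]

theorem affine_add (l : E →ᵃ[ℝ] ℝ) (x v : E) : l (x + v) = l x + l.linear v := by
  have h := l.map_vadd x v
  simp only [vadd_eq_add] at h
  rw [add_comm x v, h, add_comm]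

theorem affine_sub (l : E →ᵃ[ℝ] ℝ) (x y : E) : l.linear (x - y) = l x - l y := by
  have h := l.linearMap_vsub x y
  simpa using h

theorem affine_line (l : E →ᵃ[ℝ] ℝ) (x p q : E) (m : ℝ) :
    l (x + m • (q - p)) = l x + m * (l q - l p) := by
  rw [affine_add, map_smul, affine_sub, smul_eq_mul]

theorem affine_sum {V : Type} (l : E →ᵃ[ℝ] ℝ) (s : Finset V) (w : V → ℝ) (z : V → E)
    (hw : ∑ i ∈ s, w i = 1) : l (∑ i ∈ s, w i • z i) = ∑ i ∈ s, w i * l (z i) := by
  have h0 : ∀ x, l x = l 0 + l.linear x := by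
    intro x
    have := affine_add l 0 x
    rwa [zero_add] at this
  rw [h0, map_sum]
  simp only [map_smul, smul_eq_mul]
  have : ∀ i ∈ s, w i * l (z i) = w i * l 0 + w i * l.linear (z i) := by
    intro i _
    rw [h0 (z i), mul_add]
  rw [Finset.sum_congr rfl this, Finset.sum_add_distrib, ← Finset.sum_mul, hw, one_mul]

theorem mem_hull_iff {V : Type} (pos : V → E) (s : Finset V) (x : E) :
    x ∈ convexHull ℝ (pos '' (s : Set V)) ↔
      ∃ w : V → ℝ, (∀ v ∈ s, 0 ≤ w v) ∧ ∑ v ∈ s, w v = 1 ∧ ∑ v ∈ s, w v • pos v = x := by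
  classical
  constructor
  · intro hx
    refine convexHull_min (t := {x | ∃ w : V → ℝ, (∀ v ∈ s, 0 ≤ w v) ∧ ∑ v ∈ s, w v = 1 ∧
      ∑ v ∈ s, w v • pos v = x}) ?_ ?_ hx
    · rintro _ ⟨v, hv, rfl⟩
      refine ⟨fun u => if u = v then 1 else 0, ?_, ?_, ?_⟩
      · intro u _
        dsimp only
        split_ifs <;> norm_num
      · rw [Finset.sum_ite_eq' s v]
        rw [if_pos (by simpa using hv)]
      · simp only [ite_smul, one_smul, zero_smul]
        rw [Finset.sum_ite_eq' s v]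
        rw [if_pos (by simpa using hv)]
    · rintro x ⟨w, hw0, hw1, rfl⟩ y ⟨w', hw0', hw1', rfl⟩ a b ha hb hab
      refine ⟨fun v => a * w v + b * w' v, ?_, ?_, ?_⟩
      · intro v hv
        exact add_nonneg (mul_nonneg ha (hw0 v hv)) (mul_nonneg hb (hw0' v hv))
      · rw [Finset.sum_add_distrib, ← Finset.mul_sum, ← Finset.mul_sum, hw1, hw1']
        simpa using hab
      · simp only [add_smul, mul_smul]
        rw [Finset.sum_add_distrib, ← Finset.smul_sum, ← Finset.smul_sum]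
  · rintro ⟨w, hw0, hw1, rfl⟩
    exact (convex_convexHull ℝ _).sum_mem hw0 hw1
      fun v hv => subset_convexHull ℝ _ ⟨v, hv, rfl⟩

variable {ι : Type} [Fintype ι] [Nonempty ι]

/-- The height of the pyramid over the apex `p`. -/
noncomputable def ht (l : ι → E →ᵃ[ℝ] ℝ) (p : E) (x : E) : ℝ :=
  max 0 (Finset.univ.inf' Finset.univ_nonempty fun j => l j x / l j p)

theorem ht_of_nonpos {l : ι → E →ᵃ[ℝ] ℝ} {p : E} (hp : ∀ j, 0 < l j p) {x : E}
    (h : ∃ j, l j x ≤ 0) : ht l p x = 0 := by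
  obtain ⟨j, hj⟩ := h
  unfold ht
  refine max_eq_left ?_
  refine (Finset.inf'_le _ (Finset.mem_univ j)).trans ?_
  exact div_nonpos_of_nonpos_of_nonneg hj (hp j).le

theorem ht_of {l : ι → E →ᵃ[ℝ] ℝ} {p : E} (hp : ∀ j, 0 < l j p) {x : E} {m : ℝ} (hm : 0 ≤ m)
    (h1 : ∀ j, m * l j p ≤ l j x) (h2 : ∃ j, l j x = m * l j p) : ht l p x = m := by
  obtain ⟨j, hj⟩ := h2
  unfold ht
  have : (Finset.univ.inf' Finset.univ_nonempty fun j => l j x / l j p) = m := by
    apply le_antisymm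
    · refine (Finset.inf'_le _ (Finset.mem_univ j)).trans ?_
      rw [hj, mul_div_assoc, div_self (hp j).ne', mul_one]
    · refine Finset.le_inf' _ _ fun i _ => ?_
      rw [le_div_iff₀ (hp i)]
      exact h1 i
  rw [this, max_eq_right hm]

theorem ht_cases {l : ι → E →ᵃ[ℝ] ℝ} {p : E} (hp : ∀ j, 0 < l j p) (x : E) :
    (∃ j, l j x ≤ 0) ∨ ∃ m, 0 < m ∧ (∀ j, m * l j p ≤ l j x) ∧ ∃ j, l j x = m * l j p := by
  obtain ⟨j, _, hj⟩ := Finset.exists_mem_eq_inf' (Finset.univ_nonempty (α := ι))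
    fun j => l j x / l j p
  by_cases h : l j x ≤ 0
  · exact Or.inl ⟨j, h⟩
  · right
    push Not at h
    refine ⟨l j x / l j p, div_pos h (hp j), ?_, j, ?_⟩
    · intro i
      rw [← hj, ← le_div_iff₀ (hp i)]
      exact Finset.inf'_le _ (Finset.mem_univ i)
    · rw [div_mul_cancel₀ _ (hp j).ne']

/-- The push map. -/
noncomputable def push (l : ι → E →ᵃ[ℝ] ℝ) (p p' : E) (x : E) : E := x + ht l p x • (p' - p)

theorem push_of_nonpos {l : ι → E →ᵃ[ℝ] ℝ} {p : E} (p' : E) (hp : ∀ j, 0 < l j p) {x : E}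
    (h : ∃ j, l j x ≤ 0) : push l p p' x = x := by
  rw [push, ht_of_nonpos hp h, zero_smul, add_zero]

theorem ht_push {l : ι → E →ᵃ[ℝ] ℝ} {p p' : E} (hp : ∀ j, 0 < l j p) (hp' : ∀ j, 0 < l j p')
    (x : E) : ht l p' (push l p p' x) = ht l p x := by
  rcases ht_cases hp x with h | ⟨m, hm, h1, j, hj⟩
  · rw [push_of_nonpos p' hp h, ht_of_nonpos hp h, ht_of_nonpos hp' h]
  · rw [push, ht_of hp hm.le h1 ⟨j, hj⟩]
    refine ht_of hp' hm.le ?_ ⟨j, ?_⟩
    · intro i
      rw [affine_line]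
      have := h1 i
      linarith
    · rw [affine_line, hj]
      ring

theorem push_push {l : ι → E →ᵃ[ℝ] ℝ} {p p' : E} (hp : ∀ j, 0 < l j p) (hp' : ∀ j, 0 < l j p')
    (x : E) : push l p' p (push l p p' x) = x := by
  conv_lhs => rw [push, ht_push hp hp']
  rw [push, add_assoc, ← smul_add]
  simp

/-- The push homeomorphism. -/
noncomputable def pushEquiv (l : ι → E →ᵃ[ℝ] ℝ) (p p' : E) (hp : ∀ j, 0 < l j p)
    (hp' : ∀ j, 0 < l j p') : E ≃ E where
  toFun := push l p p'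
  invFun := push l p' p
  left_inv := push_push hp hp'
  right_inv := push_push hp' hp

end general

section PL
variable {E : Type} [NormedAddCommGroup E] [NormedSpace ℝ E] [FiniteDimensional ℝ E]
variable {ι : Type} [Fintype ι] [Nonempty ι]

theorem isPL_ht (l : ι → E →ᵃ[ℝ] ℝ) (p : E) : IsPLOn (ht l p) univ := by
  unfold ht
  refine IsPLOn.max (isPL_const 0) (IsPLOn.inf' fun j => ?_)
  have h : (fun x => l j x / l j p) = fun x => ((l j p)⁻¹ • l j) x := by
    funext x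
    rw [AffineMap.coe_smul, Pi.smul_apply, smul_eq_mul, div_eq_inv_mul]
  rw [h]
  exact isPL_affine _

theorem isPL_push (l : ι → E →ᵃ[ℝ] ℝ) (p p' : E) : IsPLOn (push l p p') univ := by
  unfold push
  exact IsPLOn.add isPL_id (IsPLOn.smul_const (isPL_ht l p) (p' - p))

theorem isPLE_push (l : ι → E →ᵃ[ℝ] ℝ) (p p' : E) (hp : ∀ j, 0 < l j p)
    (hp' : ∀ j, 0 < l j p') : IsPLE (pushEquiv l p p' hp hp') :=
  ⟨isPL_push l p p', isPL_push l p' p⟩

/-- The cone over a functional. -/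
noncomputable def coneFun (l : E →ᵃ[ℝ] ℝ) (w₀ : E) : (E × ℝ) →ᵃ[ℝ] ℝ :=
  ((l.linear.comp (LinearMap.fst ℝ E ℝ)) + (l w₀) • LinearMap.snd ℝ E ℝ).toAffineMap -
    AffineMap.const ℝ (E × ℝ) (l.linear w₀)

omit [FiniteDimensional ℝ E] in
theorem coneFun_apply (l : E →ᵃ[ℝ] ℝ) (w₀ u : E) (s : ℝ) :
    coneFun l w₀ (w₀ + s • (u - w₀), s) = s * l u := by
  have h1 : coneFun l w₀ (w₀ + s • (u - w₀), s) =
      l.linear (w₀ + s • (u - w₀)) + l w₀ * s - l.linear w₀ := by
    simp [coneFun]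
  rw [h1, map_add, map_smul, affine_sub, smul_eq_mul]
  ring

theorem conePL_push (l : ι → E →ᵃ[ℝ] ℝ) (p p' : E) (hp : ∀ j, 0 < l j p)
    (hp' : ∀ j, 0 < l j p') : ConePL (pushEquiv l p p' hp hp') := by
  refine ⟨isPLE_push l p p' hp hp', fun w₀ => ?_⟩
  have hval : ∀ (j : ι) (q : E), coneFun (l j) w₀ (q, 1) = l j q := by
    intro j q
    have h := coneFun_apply (l j) w₀ q 1
    rw [one_smul, one_mul, add_sub_cancel] at h
    exact h
  have hq : ∀ j, 0 < (fun j => coneFun (l j) w₀) j (p, (1 : ℝ)) := by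
    intro j
    show 0 < coneFun (l j) w₀ (p, 1)
    rw [hval]
    exact hp j
  have hq' : ∀ j, 0 < (fun j => coneFun (l j) w₀) j (p', (1 : ℝ)) := by
    intro j
    show 0 < coneFun (l j) w₀ (p', 1)
    rw [hval]
    exact hp' j
  refine ⟨pushEquiv (fun j => coneFun (l j) w₀) (p, 1) (p', 1) hq hq',
    isPLE_push _ _ _ hq hq', ?_⟩
  intro u s hs
  have hht : ht (fun j => coneFun (l j) w₀) (p, (1 : ℝ)) (w₀ + s • (u - w₀), s) =
      s * ht l p u := by
    rcases ht_cases hp u with h | ⟨m, hm, h1, j, hj⟩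
    · obtain ⟨j, hj⟩ := h
      rw [ht_of_nonpos hp ⟨j, hj⟩, mul_zero]
      refine ht_of_nonpos hq ⟨j, ?_⟩
      show coneFun (l j) w₀ (w₀ + s • (u - w₀), s) ≤ 0
      rw [coneFun_apply]
      exact mul_nonpos_of_nonneg_of_nonpos hs hj
    · rw [ht_of hp hm.le h1 ⟨j, hj⟩]
      refine ht_of hq (mul_nonneg hs hm.le) ?_ ⟨j, ?_⟩
      · intro i
        show s * m * coneFun (l i) w₀ (p, 1) ≤ coneFun (l i) w₀ (w₀ + s • (u - w₀), s)
        rw [coneFun_apply, hval, mul_assoc]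
        exact mul_le_mul_of_nonneg_left (h1 i) hs
      · show coneFun (l j) w₀ (w₀ + s • (u - w₀), s) = s * m * coneFun (l j) w₀ (p, 1)
        rw [coneFun_apply, hval, hj]
        ring
  show push (fun j => coneFun (l j) w₀) (p, (1 : ℝ)) (p', 1) (w₀ + s • (u - w₀), s) =
    (w₀ + s • (push l p p' u - w₀), s)
  rw [push, hht, push]
  refine Prod.ext ?_ ?_
  · show w₀ + s • (u - w₀) + (s * ht l p u) • (p' - p) = w₀ + s • (u + ht l p u • (p' - p) - w₀)
    rw [mul_smul, add_assoc, ← smul_add]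
    congr 2
    abel
  · show s + (s * ht l p u) * (1 - 1) = s
    ring

end PL

section flip
variable {E : Type} [AddCommGroup E] [Module ℝ E]
variable {ι : Type} [Fintype ι] [Nonempty ι]

/-- The barycentre of a set of vertices. -/
noncomputable def bary {V : Type} (pos : V → E) (I : Finset V) : E :=
  ∑ i ∈ I, (I.card : ℝ)⁻¹ • pos i

theorem bary_val {V : Type} (pos : V → E) (I : Finset V) (hI : I.Nonempty) (l : E →ᵃ[ℝ] ℝ) :
    l (bary pos I) = ∑ i ∈ I, (I.card : ℝ)⁻¹ * l (pos i) := by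
  refine affine_sum l I (fun _ => (I.card : ℝ)⁻¹) pos ?_
  rw [Finset.sum_const, nsmul_eq_mul]
  have : (I.card : ℝ) ≠ 0 := by
    have := hI.card_pos
    positivity
  exact mul_inv_cancel₀ this

theorem flip_half {V : Type} [DecidableEq V] (pos : V → E) (l : ι → E →ᵃ[ℝ] ℝ) (I J : Finset V)
    (hI : I.Nonempty) (hJ : J.Nonempty) (hIJ : Disjoint I J)
    (h0 : ∀ τ, ∀ v ∈ I ∪ J, 0 ≤ l τ (pos v))
    (hbd : ∀ i ∈ I, ∀ j ∈ J, ∃ τ, ∀ v ∈ I ∪ J, v ≠ i → v ≠ j → l τ (pos v) = 0)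
    (hp : ∀ τ, 0 < l τ (bary pos I)) (x : E)
    (hx : x ∈ body pos {s | ∃ j ∈ J, s = (I ∪ J).erase j}) :
    push l (bary pos I) (bary pos J) x ∈ body pos {s | ∃ i ∈ I, s = (I ∪ J).erase i} := by
  unfold body at hx ⊢
  simp only [mem_iUnion, Set.mem_ofPred_eq] at hx ⊢
  obtain ⟨_, ⟨j, hj, rfl⟩, hx⟩ := hx
  rw [mem_hull_iff] at hx
  obtain ⟨w₁, hw0₁, hw1₁, hxw₁⟩ := hx
  have hjs : j ∈ I ∪ J := Finset.mem_union_right _ hj
  have hjI : j ∉ I := fun h => Finset.disjoint_left.1 hIJ h hj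
  -- extend the weights by zero
  set w : V → ℝ := fun v => if v = j then 0 else w₁ v with hwdef
  have hwj : w j = 0 := by simp [hwdef]
  have hwne : ∀ v, v ≠ j → w v = w₁ v := by
    intro v hv
    simp [hwdef, hv]
  have hw0 : ∀ v ∈ I ∪ J, 0 ≤ w v := by
    intro v hv
    by_cases h : v = j
    · rw [h, hwj]
    · rw [hwne v h]
      exact hw0₁ v (Finset.mem_erase.2 ⟨h, hv⟩)
  have hw1 : ∑ v ∈ I ∪ J, w v = 1 := by
    rw [← Finset.add_sum_erase _ _ hjs, hwj, zero_add, ← hw1₁]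
    exact Finset.sum_congr rfl fun v hv => hwne v (Finset.ne_of_mem_erase hv)
  have hxw : ∑ v ∈ I ∪ J, w v • pos v = x := by
    rw [← Finset.add_sum_erase _ _ hjs, hwj, zero_smul, zero_add, ← hxw₁]
    exact Finset.sum_congr rfl fun v hv => by rw [hwne v (Finset.ne_of_mem_erase hv)]
  -- the minimal weight in `I`
  obtain ⟨i₀, hi₀, hmin⟩ := Finset.exists_min_image I w hI
  set m := w i₀ with hm
  have hm0 : 0 ≤ m := hw0 i₀ (Finset.mem_union_left _ hi₀)
  have hcI : (0 : ℝ) < I.card := by exact_mod_cast hI.card_pos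
  have hcJ : (0 : ℝ) < J.card := by exact_mod_cast hJ.card_pos
  have hsplit : ∀ f : V → ℝ, ∑ v ∈ I ∪ J, f v = ∑ v ∈ I, f v + ∑ v ∈ J, f v :=
    fun f => Finset.sum_union hIJ
  have hsplitE : ∀ f : V → E, ∑ v ∈ I ∪ J, f v = ∑ v ∈ I, f v + ∑ v ∈ J, f v :=
    fun f => Finset.sum_union hIJ
  have hlx : ∀ τ, l τ x = (I.card * m) * l τ (bary pos I) +
      ∑ v ∈ I ∪ J, (if v ∈ I then w v - m else w v) * l τ (pos v) := by
    intro τ
    rw [← hxw, affine_sum _ _ _ _ hw1, bary_val pos I hI, hsplit, hsplit, Finset.mul_sum,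
      ← add_assoc, ← Finset.sum_add_distrib]
    congr 1
    · refine Finset.sum_congr rfl fun v hv => ?_
      rw [if_pos hv]
      field_simp
      ring
    · refine Finset.sum_congr rfl fun v hv => ?_
      rw [if_neg fun h => Finset.disjoint_left.1 hIJ h hv]
  have hht : ht l (bary pos I) x = I.card * m := by
    refine ht_of hp (mul_nonneg hcI.le hm0) ?_ ?_
    · intro τ
      rw [hlx τ]
      have : 0 ≤ ∑ v ∈ I ∪ J, (if v ∈ I then w v - m else w v) * l τ (pos v) := by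
        refine Finset.sum_nonneg fun v hv => mul_nonneg ?_ (h0 τ v hv)
        split_ifs with h
        · exact sub_nonneg.2 (hmin v h)
        · exact hw0 v hv
      linarith
    · obtain ⟨τ, hτ⟩ := hbd i₀ hi₀ j hj
      refine ⟨τ, ?_⟩
      rw [hlx τ]
      have : ∑ v ∈ I ∪ J, (if v ∈ I then w v - m else w v) * l τ (pos v) = 0 := by
        refine Finset.sum_eq_zero fun v hv => ?_
        by_cases h1 : v = i₀
        · rw [h1, if_pos hi₀, ← hm, sub_self, zero_mul]
        · by_cases h2 : v = j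
          · rw [h2, if_neg hjI, hwj, zero_mul]
          · rw [hτ v hv h1 h2, mul_zero]
      rw [this, add_zero]
  refine ⟨(I ∪ J).erase i₀, ⟨i₀, hi₀, rfl⟩, ?_⟩
  rw [mem_hull_iff]
  have hi₀s : i₀ ∈ I ∪ J := Finset.mem_union_left _ hi₀
  -- the new weights
  set w' : V → ℝ := fun v => if v ∈ I then w v - m else w v + I.card * m * (J.card : ℝ)⁻¹
    with hw'def
  have hw'i : w' i₀ = 0 := by
    simp [hw'def, hi₀, ← hm]
  refine ⟨w', ?_, ?_, ?_⟩
  · intro v hv
    have hv' := Finset.mem_of_mem_erase hv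
    simp only [hw'def]
    split_ifs with h
    · exact sub_nonneg.2 (hmin v h)
    · exact add_nonneg (hw0 v hv') (by positivity)
  · have h1 : ∑ v ∈ I ∪ J, w' v = 1 := by
      rw [hsplit]
      have e1 : ∑ v ∈ I, w' v = ∑ v ∈ I, w v - I.card * m := by
        rw [Finset.sum_congr rfl (g := fun v => w v - m) fun v hv => by
          simp only [hw'def]; rw [if_pos hv]]
        rw [Finset.sum_sub_distrib, Finset.sum_const, nsmul_eq_mul]
      have e2 : ∑ v ∈ J, w' v = ∑ v ∈ J, w v + I.card * m := by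
        rw [Finset.sum_congr rfl (g := fun v => w v + I.card * m * (J.card : ℝ)⁻¹) fun v hv => by
          simp only [hw'def]; rw [if_neg fun h => Finset.disjoint_left.1 hIJ h hv]]
        rw [Finset.sum_add_distrib, Finset.sum_const, nsmul_eq_mul]
        field_simp
      rw [e1, e2]
      rw [hsplit] at hw1
      linarith
    rw [← Finset.add_sum_erase _ _ hi₀s, hw'i, zero_add] at h1
    exact h1
  · have h1 : ∑ v ∈ I ∪ J, w' v • pos v = push l (bary pos I) (bary pos J) x := by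
      rw [push, hht, ← hxw, hsplitE, hsplitE]
      have e1 : ∑ v ∈ I, w' v • pos v = ∑ v ∈ I, w v • pos v - (I.card * m) • bary pos I := by
        rw [bary, Finset.smul_sum, ← Finset.sum_sub_distrib]
        refine Finset.sum_congr rfl fun v hv => ?_
        simp only [hw'def]
        rw [if_pos hv, smul_smul, ← sub_smul]
        congr 1
        field_simp
      have e2 : ∑ v ∈ J, w' v • pos v = ∑ v ∈ J, w v • pos v + (I.card * m) • bary pos J := by
        rw [bary, Finset.smul_sum, ← Finset.sum_add_distrib]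
        refine Finset.sum_congr rfl fun v hv => ?_
        simp only [hw'def]
        rw [if_neg fun h => Finset.disjoint_left.1 hIJ h hv, smul_smul, ← add_smul]
      rw [e1, e2, smul_sub]
      abel
    rw [← Finset.add_sum_erase _ _ hi₀s, hw'i, zero_smul, zero_add] at h1
    exact h1

end flip

end BE02

section BE02
variable {E : Type} [NormedAddCommGroup E] [NormedSpace ℝ E] [FiniteDimensional ℝ E]

/-- Vertex push. -/
theorem exists_push {ι : Type} [Fintype ι] [Nonempty ι] (l : ι → E →ᵃ[ℝ] ℝ) (p p' : E)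
    (hp : ∀ j, 0 < l j p) (hp' : ∀ j, 0 < l j p') : ∃ e : E ≃ E, ConePL e ∧
    (∀ x, (∃ j, l j x ≤ 0) → e x = x) ∧
    ∀ c, (∀ j, 0 ≤ l j c) → (∃ j, l j c = 0) → ∀ s ∈ Icc (0 : ℝ) 1,
      e ((1 - s) • p + s • c) = (1 - s) • p' + s • c := by
  refine ⟨BE02.pushEquiv l p p' hp hp', BE02.conePL_push l p p' hp hp', ?_, ?_⟩
  · intro x hx
    exact BE02.push_of_nonpos p' hp hx
  · intro c hc0 hc1 s hs
    have hval : ∀ j, l j ((1 - s) • p + s • c) = (1 - s) * l j p + s * l j c := by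
      intro j
      have h : (1 - s) • p + s • c = p + s • (c - p) := by
        rw [sub_smul, one_smul, smul_sub]
        abel
      rw [h, BE02.affine_line]
      ring
    have hht : BE02.ht l p ((1 - s) • p + s • c) = 1 - s := by
      refine BE02.ht_of hp (sub_nonneg.2 hs.2) ?_ ?_
      · intro j
        rw [hval]
        have := mul_nonneg hs.1 (hc0 j)
        linarith
      · obtain ⟨j, hj⟩ := hc1
        refine ⟨j, ?_⟩
        rw [hval, hj, mul_zero, add_zero]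
    show BE02.push l p p' ((1 - s) • p + s • c) = (1 - s) • p' + s • c
    rw [BE02.push, hht, smul_sub]
    abel

/-- Flip of a simplex `I ∪ J`: facets `(I ∪ J) \ j` are replaced by facets `(I ∪ J) \ i`. -/
theorem exists_flip {V : Type} [DecidableEq V] (pos : V → E) (P : Finset V → Prop)
    (hsep : Sep pos P) (R : Finset (Finset V)) (I J : Finset V) (hI : I.Nonempty)
    (hJ : J.Nonempty) (hIJ : Disjoint I J) (hP : P (I ∪ J)) (hR : ∀ τ ∈ R, P τ)
    (hRI : ∀ τ ∈ R, ¬ I ⊆ τ) (hRJ : ∀ τ ∈ R, ¬ J ⊆ τ)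
    (hbd : ∀ i ∈ I, ∀ j ∈ J, ∃ τ ∈ R, ((I ∪ J).erase i).erase j ⊆ τ) :
    ∃ e : E ≃ E, ConePL e ∧ (∀ x ∈ body pos (R : Set (Finset V)), e x = x) ∧
      e '' body pos {s | ∃ j ∈ J, s = (I ∪ J).erase j} =
        body pos {s | ∃ i ∈ I, s = (I ∪ J).erase i} := by
  have hne : Nonempty {τ // τ ∈ R} := by
    obtain ⟨i, hi⟩ := hI
    obtain ⟨j, hj⟩ := hJ
    obtain ⟨τ, hτ, _⟩ := hbd i hi j hj
    exact ⟨⟨τ, hτ⟩⟩
  have hch : ∀ τ : {τ // τ ∈ R}, ∃ l : E →ᵃ[ℝ] ℝ, (∀ v ∈ I ∪ J, 0 ≤ l (pos v)) ∧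
      (∀ v ∈ τ.1, l (pos v) ≤ 0) ∧ ∀ v ∈ I ∪ J, v ∉ τ.1 → 0 < l (pos v) :=
    fun τ => hsep (I ∪ J) τ.1 hP (hR τ.1 τ.2)
  choose l hl0 hl1 hl2 using hch
  have hbary : ∀ A : Finset V, A.Nonempty → A ⊆ I ∪ J → (∀ τ ∈ R, ¬ A ⊆ τ) →
      ∀ τ, 0 < l τ (BE02.bary pos A) := by
    intro A hA hAs hAR τ
    rw [BE02.bary_val pos A hA]
    obtain ⟨a, ha, haτ⟩ := Finset.not_subset.1 (hAR τ.1 τ.2)
    have hc : (0 : ℝ) < (A.card : ℝ)⁻¹ := by
      have : (0 : ℝ) < A.card := by exact_mod_cast hA.card_pos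
      positivity
    refine Finset.sum_pos' (fun v hv => mul_nonneg hc.le (hl0 τ v (hAs hv))) ⟨a, ha, ?_⟩
    exact mul_pos hc (hl2 τ a (hAs ha) haτ)
  have hp : ∀ τ, 0 < l τ (BE02.bary pos I) := hbary I hI Finset.subset_union_left hRI
  have hp' : ∀ τ, 0 < l τ (BE02.bary pos J) := hbary J hJ Finset.subset_union_right hRJ
  have hbd' : ∀ i ∈ I, ∀ j ∈ J, ∃ τ, ∀ v ∈ I ∪ J, v ≠ i → v ≠ j → l τ (pos v) = 0 := by
    intro i hi j hj
    obtain ⟨τ, hτ, hsub⟩ := hbd i hi j hj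
    refine ⟨⟨τ, hτ⟩, fun v hv h1 h2 => le_antisymm ?_ (hl0 _ v hv)⟩
    exact hl1 ⟨τ, hτ⟩ v (hsub (Finset.mem_erase.2 ⟨h2, Finset.mem_erase.2 ⟨h1, hv⟩⟩))
  refine ⟨BE02.pushEquiv l _ _ hp hp', BE02.conePL_push l _ _ hp hp', ?_, ?_⟩
  · intro x hx
    unfold body at hx
    simp only [mem_iUnion] at hx
    obtain ⟨τ, hτ, hx⟩ := hx
    have hτ' : τ ∈ R := hτ
    refine BE02.push_of_nonpos _ hp ⟨⟨τ, hτ'⟩, ?_⟩
    rw [BE02.mem_hull_iff] at hx
    obtain ⟨w, hw0, hw1, rfl⟩ := hx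
    rw [BE02.affine_sum _ _ _ _ hw1]
    exact Finset.sum_nonpos fun v hv =>
      mul_nonpos_of_nonneg_of_nonpos (hw0 v hv) (hl1 ⟨τ, hτ'⟩ v hv)
  · apply Subset.antisymm
    · rintro _ ⟨x, hx, rfl⟩
      exact BE02.flip_half pos l I J hI hJ hIJ hl0 hbd' hp x hx
    · intro y hy
      refine ⟨BE02.push l (BE02.bary pos J) (BE02.bary pos I) y, ?_, ?_⟩
      · rw [Finset.union_comm I J] at hy ⊢
        refine BE02.flip_half pos l J I hJ hI hIJ.symm ?_ ?_ hp' y hy
        · intro τ v hv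
          exact hl0 τ v (by rwa [Finset.union_comm I J])
        · intro j hj i hi
          obtain ⟨τ, hτ⟩ := hbd' i hi j hj
          refine ⟨τ, fun v hv h1 h2 => hτ v (by rwa [Finset.union_comm I J]) h2 h1⟩
      · exact BE02.push_push hp' hp y

/-- Straightening of the zero set of a minimum. -/
theorem exists_flatten {ι : Type} [Fintype ι] [Nonempty ι] (l : ι → E →ᵃ[ℝ] ℝ) (i₀ : ι) (d : E)
    (hd : ∀ i, (l i).linear d = 1) : ∃ e : E ≃ E, IsPLE e ∧
    (∀ z, l i₀ (e z) = Finset.univ.inf' Finset.univ_nonempty fun i => l i z) ∧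
    ∀ κ : E →ᵃ[ℝ] ℝ, κ.linear d = 0 → ∀ z, κ (e z) = κ z := by
  set M : E → ℝ := fun z => Finset.univ.inf' Finset.univ_nonempty fun i => l i z with hM
  have hl : ∀ i z (a : ℝ), l i (z + a • d) = l i z + a := by
    intro i z a
    rw [BE02.affine_add, map_smul, hd, smul_eq_mul, mul_one]
  have hMa : ∀ z (a : ℝ), M (z + a • d) = M z + a := by
    intro z a
    simp only [hM]
    apply le_antisymm
    · obtain ⟨j, _, hj⟩ := Finset.exists_mem_eq_inf' (Finset.univ_nonempty (α := ι))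
        fun j => l j z
      rw [hj]
      refine (Finset.inf'_le _ (Finset.mem_univ j)).trans ?_
      rw [hl]
    · refine Finset.le_inf' _ _ fun i _ => ?_
      rw [hl]
      have := Finset.inf'_le (fun i => l i z) (Finset.mem_univ i)
      linarith
  have hPLM : IsPLOn M univ := IsPLOn.inf' fun i => isPL_affine (l i)
  have hPLd : IsPLOn (fun z => (M z - l i₀ z) • d) univ :=
    IsPLOn.smul_const (IsPLOn.sub hPLM (isPL_affine (l i₀))) d
  let e : E ≃ E :=
    { toFun := fun z => z + (M z - l i₀ z) • d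
      invFun := fun z => z - (M z - l i₀ z) • d
      left_inv := by
        intro z
        show z + (M z - l i₀ z) • d - (M (z + (M z - l i₀ z) • d) -
          l i₀ (z + (M z - l i₀ z) • d)) • d = z
        rw [hMa, hl, add_sub_add_right_eq_sub, add_sub_cancel_right]
      right_inv := by
        intro z
        show z - (M z - l i₀ z) • d + (M (z - (M z - l i₀ z) • d) -
          l i₀ (z - (M z - l i₀ z) • d)) • d = z
        have h : z - (M z - l i₀ z) • d = z + (-(M z - l i₀ z)) • d := by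
          rw [neg_smul, sub_eq_add_neg]
        rw [h, hMa, hl, add_sub_add_right_eq_sub, add_assoc, ← add_smul]
        simp }
  refine ⟨e, ⟨IsPLOn.add isPL_id hPLd, IsPLOn.sub isPL_id hPLd⟩, ?_, ?_⟩
  · intro z
    show l i₀ (z + (M z - l i₀ z) • d) = M z
    rw [hl]
    ring
  · intro κ hκ z
    show κ (z + (M z - l i₀ z) • d) = κ z
    rw [BE02.affine_add, map_smul, hκ, smul_zero, add_zero]

end BE02

end Pool.Agent.PolyKnots
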