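import Pool.Agent.W_MP_be6f00_gt.PLa
import Pool.Agent.W_MP_be6f00_gt.Push
import Pool.Agent.W_MP_be6f00_gt.Model

set_option autoImplicit false

/-! Soundness of the flip sequences on bit masks. -/

open scoped ENNReal Topology RealInnerProductSpace
open Set

namespace Pool.Agent.PolyKnots

namespace BE04

theorem nbeq (a b : ℕ) : Nat.beq a b = true ↔ a = b :=
  ⟨Nat.eq_of_beq_eq_true, fun h => by subst h; exact Nat.beq_refl a⟩

theorem testBit_msk (l : List ℕ) (k : ℕ) : (msk l).testBit k = true ↔ k ∈ l := by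
  induction l with
  | nil =>
    change (0 : ℕ).testBit k = true ↔ _
    simp
  | cons i l ih =>
    have e : msk (i :: l) = (1 <<< i) ||| msk l := rfl
    rw [e, Nat.testBit_or, Bool.or_eq_true, ih, Nat.one_shiftLeft, Nat.testBit_two_pow]
    simp [eq_comm]

theorem subM_iff (a b : ℕ) : subM a b = true ↔ ∀ k, a.testBit k = true → b.testBit k = true := by
  have e : subM a b = true ↔ a &&& b = a := by
    unfold subM
    rw [nbeq]
    exact Iff.rfl
  rw [e]
  constructor
  · intro h k hk
    rw [← h, Nat.testBit_and, Bool.and_eq_true] at hk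
    exact hk.2
  · intro h
    apply Nat.eq_of_testBit_eq
    intro k
    rw [Nat.testBit_and]
    cases h1 : a.testBit k
    · rfl
    · rw [h k h1]; rfl

theorem land_zero (a b : ℕ) : Nat.beq (Nat.land a b) 0 = true ↔
    ∀ k, ¬ (a.testBit k = true ∧ b.testBit k = true) := by
  have e : Nat.beq (Nat.land a b) 0 = true ↔ a &&& b = 0 := by
    rw [nbeq]
    exact Iff.rfl
  rw [e]
  constructor
  · rintro h k ⟨h1, h2⟩
    have : (a &&& b).testBit k = true := by rw [Nat.testBit_and, h1, h2]; rfl
    rw [h] at this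
    simp at this
  · intro h
    apply Nat.eq_of_testBit_eq
    intro k
    rw [Nat.testBit_and, Nat.zero_testBit]
    have := h k
    cases h1 : a.testBit k
    · rfl
    · cases h2 : b.testBit k
      · rfl
      · exact absurd ⟨h1, h2⟩ this

theorem mem_vset (n m : ℕ) (i : Fin n) : i ∈ vset n m ↔ m.testBit i = true := by
  simp [vset]

theorem mem_vset_msk (n : ℕ) (l : List ℕ) (i : Fin n) : i ∈ vset n (msk l) ↔ (i : ℕ) ∈ l := by
  rw [mem_vset, testBit_msk]

theorem vset_sub {n a b : ℕ} (h : subM a b = true) : vset n a ⊆ vset n b := by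
  intro i hi
  rw [mem_vset] at hi ⊢
  exact (subM_iff a b).1 h i hi

theorem not_vset_sub {n : ℕ} {l : List ℕ} (hl : ∀ i ∈ l, i < n) {t : ℕ}
    (h : subM (msk l) t = false) : ¬ vset n (msk l) ⊆ vset n t := by
  intro hc
  have h' : ¬ subM (msk l) t = true := by rw [h]; simp
  apply h'
  rw [subM_iff]
  intro k hk
  rw [testBit_msk] at hk
  have : (⟨k, hl k hk⟩ : Fin n) ∈ vset n (msk l) := (mem_vset_msk n l _).2 hk
  exact (mem_vset n t _).1 (hc this)

theorem not_vset_sub_far {n : ℕ} {l : List ℕ} (hl : ∀ i ∈ l, i < n) {t M : ℕ}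
    (h : ¬ Nat.beq (Nat.land (msk l) M) 0 = true) (ht : Nat.beq (Nat.land t M) 0 = true) :
    ¬ vset n (msk l) ⊆ vset n t := by
  intro hc
  apply h
  rw [land_zero] at ht ⊢
  rintro k ⟨h1, h2⟩
  have h3 := (testBit_msk l k).1 h1
  have h4 : (⟨k, hl k h3⟩ : Fin n) ∈ vset n (msk l) := (mem_vset_msk n l _).2 h3
  exact ht k ⟨(mem_vset n t _).1 (hc h4), h2⟩

section body

variable {E : Type} [AddCommGroup E] [Module ℝ E] {n : ℕ} (pos : Fin n → E)

theorem mem_body (l : List ℕ) (x : E) : x ∈ body pos (facets n l) ↔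
    ∃ m ∈ l, x ∈ convexHull ℝ (pos '' (vset n m : Set (Fin n))) := by
  unfold body facets
  simp only [Set.mem_iUnion, Set.mem_ofPred_eq, exists_prop]
  constructor
  · rintro ⟨s, ⟨m, hm, rfl⟩, hx⟩
    exact ⟨m, hm, hx⟩
  · rintro ⟨m, hm, hx⟩
    exact ⟨_, ⟨m, hm, rfl⟩, hx⟩

theorem body_append (l l' : List ℕ) : body pos (facets n (l ++ l')) =
    body pos (facets n l) ∪ body pos (facets n l') := by
  ext x
  rw [Set.mem_union, mem_body, mem_body, mem_body]
  constructor
  · rintro ⟨m, hm, hx⟩
    rcases List.mem_append.1 hm with h | h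
    · exact Or.inl ⟨m, h, hx⟩
    · exact Or.inr ⟨m, h, hx⟩
  · rintro (⟨m, hm, hx⟩ | ⟨m, hm, hx⟩)
    · exact ⟨m, List.mem_append.2 (Or.inl hm), hx⟩
    · exact ⟨m, List.mem_append.2 (Or.inr hm), hx⟩

theorem body_congr {l l' : List ℕ} (h : ∀ m, m ∈ l ↔ m ∈ l') :
    body pos (facets n l) = body pos (facets n l') := by
  ext x
  rw [mem_body, mem_body]
  simp only [h]

theorem body_filter (l : List ℕ) (p : ℕ → Bool) : body pos (facets n l) =
    body pos (facets n (l.filter fun t => !p t)) ∪ body pos (facets n (l.filter p)) := by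
  rw [← body_append]
  apply body_congr
  intro m
  rw [List.mem_append, List.mem_filter, List.mem_filter]
  cases p m <;> simp

end body

section step

variable {n : ℕ} {E : Type} [NormedAddCommGroup E] [NormedSpace ℝ E]
    [FiniteDimensional ℝ E] (pos : Fin n → E) (P : Finset (Fin n) → Prop) (hsep : Sep pos P)
    (hdown : ∀ s t, P s → t ⊆ s → P t)

include hsep hdown

theorem step_sound (act fz far : List ℕ) (I J : List ℕ) (M : ℕ) (act' : List ℕ)
    (hstep : stepFlip act fz I J = some act')
    (hact : ∀ m ∈ act, P (vset n m)) (hfz : ∀ m ∈ fz, P (vset n m))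
    (hfar : ∀ m ∈ far, P (vset n m)) (hlt : ∀ i ∈ I ++ J, i < n)
    (hIJ : P (vset n (msk (I ++ J))))
    (hMI : ¬ Nat.beq (Nat.land (msk I) M) 0 = true) (hMJ : ¬ Nat.beq (Nat.land (msk J) M) 0 = true)
    (hfM : ∀ t ∈ far, Nat.beq (Nat.land t M) 0 = true) :
    (∀ m ∈ act', P (vset n m)) ∧
    ∃ e : E ≃ E, ConePL e ∧ (∀ x ∈ body pos (facets n (fz ++ far)), e x = x) ∧
      e '' body pos (facets n act) = body pos (facets n act') := by
  classical
  unfold stepFlip at hstep
  simp only at hstep
  split_ifs at hstep with hc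
  simp only [Bool.and_eq_true, decide_eq_true_eq, Bool.not_eq_true', List.isEmpty_eq_false_iff,
    List.all_eq_true, List.any_eq_true, Bool.or_eq_true] at hc
  obtain ⟨⟨⟨⟨⟨⟨hnd, hI⟩, hJ⟩, hE⟩, hrest⟩, hfzI⟩, hbd⟩ := hc
  have hnd' := List.nodup_append.1 hnd
  obtain ⟨ndI, ndJ, ndIJ⟩ := hnd'
  have hltI : ∀ i ∈ I, i < n := fun i hi => hlt i (List.mem_append.2 (Or.inl hi))
  have hltJ : ∀ i ∈ J, i < n := fun i hi => hlt i (List.mem_append.2 (Or.inr hi))
  set rest := act.filter fun t => !((J.map fun j => msk (I ++ J.erase j)).any (Nat.beq t)) with hrest0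
  set If := vset n (msk I) with hIf
  set Jf := vset n (msk J) with hJf
  have hU : If ∪ Jf = vset n (msk (I ++ J)) := by
    ext i
    rw [Finset.mem_union, mem_vset_msk, mem_vset_msk, mem_vset_msk, List.mem_append]
  have memU : ∀ i : Fin n, i ∈ If ∪ Jf ↔ (i : ℕ) ∈ I ∨ (i : ℕ) ∈ J := by
    intro i
    rw [hU, mem_vset_msk, List.mem_append]
  have eE : ∀ j (hj : j ∈ J), vset n (msk (I ++ J.erase j)) = (If ∪ Jf).erase ⟨j, hltJ j hj⟩ := by
    intro j hj
    ext i
    rw [mem_vset_msk, Finset.mem_erase, memU, List.mem_append, ndJ.mem_erase_iff]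
    have h1 : i ≠ ⟨j, hltJ j hj⟩ ↔ (i : ℕ) ≠ j := by
      rw [Ne, Fin.ext_iff]
    rw [h1]
    constructor
    · rintro (h | ⟨h2, h3⟩)
      · exact ⟨ndIJ _ h _ hj, Or.inl h⟩
      · exact ⟨h2, Or.inr h3⟩
    · rintro ⟨h2, h3 | h3⟩
      · exact Or.inl h3
      · exact Or.inr ⟨h2, h3⟩
  have eF : ∀ i (hi : i ∈ I), vset n (msk (I.erase i ++ J)) = (If ∪ Jf).erase ⟨i, hltI i hi⟩ := by
    intro i hi
    ext k
    rw [mem_vset_msk, Finset.mem_erase, memU, List.mem_append, ndI.mem_erase_iff]
    have h1 : k ≠ ⟨i, hltI i hi⟩ ↔ (k : ℕ) ≠ i := by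
      rw [Ne, Fin.ext_iff]
    rw [h1]
    constructor
    · rintro (⟨h2, h3⟩ | h)
      · exact ⟨h2, Or.inl h3⟩
      · exact ⟨(ndIJ _ hi _ h).symm, Or.inr h⟩
    · rintro ⟨h2, h3 | h3⟩
      · exact Or.inl ⟨h2, h3⟩
      · exact Or.inr h3
  have eEF : ∀ i (hi : i ∈ I) j (hj : j ∈ J), ((If ∪ Jf).erase ⟨i, hltI i hi⟩).erase
      ⟨j, hltJ j hj⟩ ⊆ vset n (msk (I.erase i ++ J.erase j)) := by
    intro i hi j hj k hk
    rw [Finset.mem_erase, Finset.mem_erase, memU] at hk
    rw [mem_vset_msk, List.mem_append, ndI.mem_erase_iff, ndJ.mem_erase_iff]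
    obtain ⟨h1, h2, h3⟩ := hk
    have h1' : (k : ℕ) ≠ j := fun h => h1 (Fin.ext h)
    have h2' : (k : ℕ) ≠ i := fun h => h2 (Fin.ext h)
    rcases h3 with h3 | h3
    · exact Or.inl ⟨h2', h3⟩
    · exact Or.inr ⟨h1', h3⟩
  -- the list of the remaining facets
  set rf := rest ++ (fz ++ far) with hrf
  have hrest_act : ∀ m ∈ rest, m ∈ act := fun m hm => (List.mem_filter.1 hm).1
  have hrestP : ∀ m ∈ rest, P (vset n m) := fun m hm => hact m (hrest_act m hm)
  have hnotI : ∀ m ∈ rf, ¬ If ⊆ vset n m := by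
    intro m hm
    rcases List.mem_append.1 hm with h | h
    · exact not_vset_sub hltI (hrest m h).1
    · rcases List.mem_append.1 h with h | h
      · exact not_vset_sub hltI (hfzI m h).1
      · exact not_vset_sub_far hltI hMI (hfM m h)
  have hnotJ : ∀ m ∈ rf, ¬ Jf ⊆ vset n m := by
    intro m hm
    rcases List.mem_append.1 hm with h | h
    · exact not_vset_sub hltJ (hrest m h).2
    · rcases List.mem_append.1 h with h | h
      · exact not_vset_sub hltJ (hfzI m h).2
      · exact not_vset_sub_far hltJ hMJ (hfM m h)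
  obtain ⟨e, he1, he2, he3⟩ := exists_flip pos P hsep (rf.map (vset n)).toFinset If Jf
    (by
      obtain ⟨i, hi⟩ := List.exists_mem_of_ne_nil I hI
      exact ⟨⟨i, hltI i hi⟩, (mem_vset_msk n I _).2 hi⟩)
    (by
      obtain ⟨i, hi⟩ := List.exists_mem_of_ne_nil J hJ
      exact ⟨⟨i, hltJ i hi⟩, (mem_vset_msk n J _).2 hi⟩)
    (by
      rw [Finset.disjoint_left]
      intro i h1 h2
      rw [mem_vset_msk] at h1 h2
      exact ndIJ _ h1 _ h2 rfl)
    (by rw [hU]; exact hIJ)
    (by
      intro τ hτ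
      rw [List.mem_toFinset, List.mem_map] at hτ
      obtain ⟨m, hm, rfl⟩ := hτ
      rcases List.mem_append.1 hm with h | h
      · exact hrestP m h
      · rcases List.mem_append.1 h with h | h
        · exact hfz m h
        · exact hfar m h)
    (by
      intro τ hτ
      rw [List.mem_toFinset, List.mem_map] at hτ
      obtain ⟨m, hm, rfl⟩ := hτ
      exact hnotI m hm)
    (by
      intro τ hτ
      rw [List.mem_toFinset, List.mem_map] at hτ
      obtain ⟨m, hm, rfl⟩ := hτ
      exact hnotJ m hm)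
    (by
      intro i hi j hj
      rw [mem_vset_msk] at hi hj
      have h1 := eEF i hi j hj
      rcases hbd i hi j hj with ⟨t, ht, hs⟩ | ⟨t, ht, hs⟩
      · refine ⟨vset n t, ?_, h1.trans (vset_sub hs)⟩
        rw [List.mem_toFinset, List.mem_map]
        exact ⟨t, List.mem_append.2 (Or.inl ht), rfl⟩
      · refine ⟨vset n t, ?_, h1.trans (vset_sub hs)⟩
        rw [List.mem_toFinset, List.mem_map]
        exact ⟨t, List.mem_append.2 (Or.inr (List.mem_append.2 (Or.inl ht))), rfl⟩)
  have hbodyR : body pos (((rf.map (vset n)).toFinset : Finset (Finset (Fin n))) :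
      Set (Finset (Fin n))) = body pos (facets n rf) := by
    congr 1
    ext s
    rw [Finset.mem_coe, List.mem_toFinset, List.mem_map]
    constructor
    · rintro ⟨m, hm, rfl⟩; exact ⟨m, hm, rfl⟩
    · rintro ⟨m, hm, rfl⟩; exact ⟨m, hm, rfl⟩
  rw [hbodyR] at he2
  have hEset : facets n (J.map fun j => msk (I ++ J.erase j)) =
      {s | ∃ j ∈ Jf, s = (If ∪ Jf).erase j} := by
    ext s
    constructor
    · rintro ⟨m, hm, rfl⟩
      rw [List.mem_map] at hm
      obtain ⟨j, hj, rfl⟩ := hm
      exact ⟨⟨j, hltJ j hj⟩, (mem_vset_msk n J _).2 hj, eE j hj⟩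
    · rintro ⟨j, hj, rfl⟩
      rw [mem_vset_msk] at hj
      exact ⟨_, List.mem_map.2 ⟨j, hj, rfl⟩, (eE j hj).symm⟩
  have hFset : facets n (I.map fun i => msk (I.erase i ++ J)) =
      {s | ∃ i ∈ If, s = (If ∪ Jf).erase i} := by
    ext s
    constructor
    · rintro ⟨m, hm, rfl⟩
      rw [List.mem_map] at hm
      obtain ⟨j, hj, rfl⟩ := hm
      exact ⟨⟨j, hltI j hj⟩, (mem_vset_msk n I _).2 hj, eF j hj⟩
    · rintro ⟨j, hj, rfl⟩
      rw [mem_vset_msk] at hj
      exact ⟨_, List.mem_map.2 ⟨j, hj, rfl⟩, (eF j hj).symm⟩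
  rw [← hEset, ← hFset] at he3
  have hact_eq : body pos (facets n act) = body pos (facets n rest) ∪
      body pos (facets n (J.map fun j => msk (I ++ J.erase j))) := by
    rw [← body_append]
    apply body_congr
    intro m
    rw [List.mem_append, hrest0, List.mem_filter]
    constructor
    · intro hm
      cases h : (J.map fun j => msk (I ++ J.erase j)).any (Nat.beq m)
      · exact Or.inl ⟨hm, rfl⟩
      · right
        rw [List.any_eq_true] at h
        obtain ⟨t, ht, hmt⟩ := h
        rw [nbeq] at hmt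
        rw [hmt]; exact ht
    · rintro (⟨hm, _⟩ | hm)
      · exact hm
      · obtain ⟨t, ht, hmt⟩ := hE m hm
        rw [nbeq] at hmt
        rw [hmt]; exact ht
  have hact' : act' = (I.map fun i => msk (I.erase i ++ J)) ++ rest := (Option.some.inj hstep).symm
  have hrfix : e '' body pos (facets n rest) = body pos (facets n rest) := by
    have : ∀ x ∈ body pos (facets n rest), e x = x := by
      intro x hx
      apply he2
      rw [hrf, body_append]
      exact Or.inl hx
    ext y
    constructor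
    · rintro ⟨x, hx, rfl⟩
      rw [this x hx]; exact hx
    · intro hy
      exact ⟨y, hy, this y hy⟩
  refine ⟨?_, e, he1, ?_, ?_⟩
  · intro m hm
    rw [hact'] at hm
    rcases List.mem_append.1 hm with h | h
    · rw [List.mem_map] at h
      obtain ⟨i, hi, rfl⟩ := h
      rw [eF i hi, hU]
      exact hdown _ _ hIJ (Finset.erase_subset _ _)
    · exact hrestP m h
  · intro x hx
    apply he2
    rw [hrf, body_append]
    exact Or.inr hx
  · rw [hact_eq, Set.image_union, hrfix, he3, hact', body_append, Set.union_comm]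

theorem block_sound (M : ℕ) (fz far : List ℕ) (hfz : ∀ m ∈ fz, P (vset n m))
    (hfar : ∀ m ∈ far, P (vset n m)) (hfM : ∀ t ∈ far, Nat.beq (Nat.land t M) 0 = true)
    (b : List (List ℕ × List ℕ)) :
    ∀ (act act' : List ℕ), blockFlip M fz act b = some act' → (∀ m ∈ act, P (vset n m)) →
    (∀ f ∈ b, (∀ i ∈ f.1 ++ f.2, i < n) ∧ P (vset n (msk (f.1 ++ f.2)))) →
    (∀ m ∈ act', P (vset n m)) ∧
    ∃ e : E ≃ E, ConePL e ∧ (∀ x ∈ body pos (facets n (fz ++ far)), e x = x) ∧
      e '' body pos (facets n act) = body pos (facets n act') := by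
  induction b with
  | nil =>
    intro act act' h hact _
    have h' : act = act' := Option.some.inj h
    subst h'
    refine ⟨hact, (AffineEquiv.refl ℝ E).toEquiv, conePL_affine _, fun _ _ => rfl, ?_⟩
    exact Set.image_id _
  | cons f b ih =>
    obtain ⟨I, J⟩ := f
    intro act act' h hact hb
    unfold blockFlip at h
    split_ifs at h with hc
    simp only [Bool.and_eq_true, Bool.not_eq_true'] at hc
    rcases hs : stepFlip act fz I J with _ | act1
    · rw [hs] at h; simp at h
    · rw [hs] at h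
      simp only at h
      have hf := hb _ (List.mem_cons_self ..)
      obtain ⟨h1, e1, a1, a2, a3⟩ := step_sound pos P hsep hdown act fz far I J M act1 hs hact hfz
        hfar hf.1 hf.2 (by rw [hc.1]; simp) (by rw [hc.2]; simp) hfM
      obtain ⟨h2, e2, b1, b2, b3⟩ := ih act1 act' h h1 (fun f hf => hb f (List.mem_cons_of_mem _ hf))
      refine ⟨h2, e1.trans e2, a1.trans b1, ?_, ?_⟩
      · intro x hx
        rw [Equiv.trans_apply, a2 x hx, b2 x hx]
      · rw [Equiv.coe_trans, Set.image_comp, a3, b3]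

end step

end BE04

open BE04

theorem runFlip_sound {n : ℕ} {E : Type} [NormedAddCommGroup E] [NormedSpace ℝ E]
    [FiniteDimensional ℝ E] (pos : Fin n → E) (P : Finset (Fin n) → Prop) (hsep : Sep pos P)
    (hdown : ∀ s t, P s → t ⊆ s → P t) (Fz S S' : List ℕ)
    (bl : List (ℕ × List (List ℕ × List ℕ))) (hrun : runFlip Fz S bl = some S')
    (hFz : ∀ m ∈ Fz, P (vset n m)) (hS : ∀ m ∈ S, P (vset n m))
    (hbl : ∀ b ∈ bl, ∀ f ∈ b.2, (∀ i ∈ f.1 ++ f.2, i < n) ∧ P (vset n (msk (f.1 ++ f.2)))) :
    ∃ e : E ≃ E, ConePL e ∧ (∀ x ∈ body pos (facets n Fz), e x = x) ∧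
      e '' body pos (facets n S) = body pos (facets n S') := by
  induction bl generalizing S with
  | nil =>
    have h' : S = S' := Option.some.inj hrun
    subst h'
    exact ⟨(AffineEquiv.refl ℝ E).toEquiv, conePL_affine _, fun _ _ => rfl, Set.image_id _⟩
  | cons b bs ih =>
    obtain ⟨M, b⟩ := b
    unfold runFlip at hrun
    rcases hs : blockFlip M (Fz.filter fun t => !(Nat.beq (Nat.land t M) 0))
        (S.filter fun t => !(Nat.beq (Nat.land t M) 0)) b with _ | act
    · rw [hs] at hrun; simp at hrun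
    · rw [hs] at hrun
      simp only at hrun
      obtain ⟨h1, e1, a1, a2, a3⟩ := block_sound pos P hsep hdown M
        (Fz.filter fun t => !(Nat.beq (Nat.land t M) 0))
        ((Fz.filter fun t => Nat.beq (Nat.land t M) 0) ++
          (S.filter fun t => Nat.beq (Nat.land t M) 0))
        (fun m hm => hFz m (List.mem_filter.1 hm).1)
        (fun m hm => by
          rcases List.mem_append.1 hm with h | h
          · exact hFz m (List.mem_filter.1 h).1
          · exact hS m (List.mem_filter.1 h).1)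
        (fun t ht => by
          rcases List.mem_append.1 ht with h | h
          · exact (List.mem_filter.1 h).2
          · exact (List.mem_filter.1 h).2) b _ act hs
        (fun m hm => hS m (List.mem_filter.1 hm).1)
        (fun f hf => hbl _ (List.mem_cons_self ..) f hf)
      obtain ⟨e2, b1, b2, b3⟩ := ih _ hrun
        (fun m hm => by
          rcases List.mem_append.1 hm with h | h
          · exact h1 m h
          · exact hS m (List.mem_filter.1 h).1)
        (fun b hb => hbl b (List.mem_cons_of_mem _ hb))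
      have hfarS : ∀ x ∈ body pos (facets n (S.filter fun t => Nat.beq (Nat.land t M) 0)),
          e1 x = x := by
        intro x hx
        apply a2
        rw [body_append, body_append]
        exact Or.inr (Or.inr hx)
      refine ⟨e1.trans e2, a1.trans b1, ?_, ?_⟩
      · intro x hx
        have h3 : e1 x = x := by
          apply a2
          rw [body_append, body_append, ← Set.union_assoc]
          left
          rw [← body_filter pos Fz (fun t => Nat.beq (Nat.land t M) 0)]
          exact hx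
        rw [Equiv.trans_apply, h3, b2 x hx]
      · rw [Equiv.coe_trans, Set.image_comp, ← b3]
        congr 1
        rw [body_filter pos S (fun t => Nat.beq (Nat.land t M) 0), Set.image_union, a3, body_append]
        congr 1
        ext y
        constructor
        · rintro ⟨x, hx, rfl⟩
          rw [hfarS x hx]; exact hx
        · intro hy
          exact ⟨y, hy, hfarS y hy⟩

end Pool.Agent.PolyKnots
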