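import Pool.Agent.W_MP_be6f00_gt.DataFactsB
import Pool.Agent.W_MP_be6f00_gt.Run

set_option autoImplicit false

open Set

namespace Pool.Agent.PolyKnots

/-- the boundary of the standard tetrahedron in `ℝ³ × 0` -/
def tetBd : Set (Fin 4 → ℝ) :=
  {z | z 3 = 0 ∧ min (min (z 0) (z 1)) (min (z 2) (1 - z 0 - z 1 - z 2)) = 0}

namespace BE05

/-- the facets of the final tetrahedron -/
def finM : List ℕ := [msk [258, 259, 264], msk [258, 259, 344], msk [258, 264, 344],
  msk [259, 264, 344]]

/-- the run of the flips -/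
def okU : Bool := match runFlip [] (m0 ++ m1) blocksU with
  | none => false
  | some l => (l.all fun t => finM.any (Nat.beq t)) && (finM.all fun t => l.any (Nat.beq t))

theorem okU_true : okU = true := by decide +kernel

theorem run_U : ∃ l, runFlip [] (m0 ++ m1) blocksU = some l ∧ facets 396 l = facets 396 finM := by
  have h := okU_true
  unfold okU at h
  split at h
  · exact absurd h (by simp)
  · rename_i l hl
    refine ⟨l, hl, ?_⟩
    rw [Bool.and_eq_true, List.all_eq_true, List.all_eq_true] at h
    ext s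
    constructor
    · rintro ⟨m, hm, rfl⟩
      have := h.1 m hm
      rw [List.any_eq_true] at this
      obtain ⟨m', hm', he⟩ := this
      rw [Nat.eq_of_beq_eq_true he]
      exact ⟨m', hm', rfl⟩
    · rintro ⟨m, hm, rfl⟩
      have := h.2 m hm
      rw [List.any_eq_true] at this
      obtain ⟨m', hm', he⟩ := this
      rw [Nat.eq_of_beq_eq_true he]
      exact ⟨m', hm', rfl⟩

theorem exists_e1 : ∃ e : (Fin 4 → ℝ) ≃ (Fin 4 → ℝ), ConePL e ∧
    e '' USet = body ps (facets 396 finM) := by
  obtain ⟨l, hl, hf⟩ := run_U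
  have hsep : Sep ps (fun s => IsChainSimplex (s.image coord)) :=
    (sep_chain 4).comp coord coord_injective
  have hb := blocksU_chain
  rw [List.all_eq_true] at hb
  obtain ⟨e, he, -, h2⟩ := runFlip_sound ps (fun s => IsChainSimplex (s.image coord)) hsep
    (fun s t hs hst => hs.mono (Finset.image_subset_image hst)) [] (m0 ++ m1) l blocksU hl
    (by simp) (fun m hm => facet_chain ⟨m, hm, rfl⟩) (by
      intro b hb' f hf'
      have h1 := hb b hb'
      rw [List.all_eq_true] at h1
      have h2 := h1 f hf'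
      rw [Bool.and_eq_true, List.all_eq_true] at h2
      exact ⟨fun i hi => of_decide_eq_true (h2.2 i hi),
        chL_chain h2.1 _ fun v hv => (mem_vset_msk _ v).1 hv⟩)
  refine ⟨e, he, ?_⟩
  rw [← hf, ← h2, body_facets]

/-- the affine map onto the standard tetrahedron -/
noncomputable def toStd : (Fin 4 → ℝ) ≃ᵃ[ℝ] (Fin 4 → ℝ) where
  toFun y := ![y 2 - y 1 - 1, y 1 - y 3, y 3 - 1, y 0 - 1]
  invFun z := ![z 3 + 1, z 1 + z 2 + 1, z 0 + z 1 + z 2 + 2, z 2 + 1]
  left_inv y := by
    funext i
    fin_cases i <;> simp <;> ring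
  right_inv z := by
    funext i
    fin_cases i <;> simp <;> ring
  linear :=
    { toFun := fun y => ![y 2 - y 1, y 1 - y 3, y 3, y 0]
      invFun := fun z => ![z 3, z 1 + z 2, z 0 + z 1 + z 2, z 2]
      map_add' := by
        intro x y
        funext i
        fin_cases i <;> simp <;> ring
      map_smul' := by
        intro c y
        funext i
        fin_cases i <;> simp <;> ring
      left_inv := by
        intro y
        funext i
        fin_cases i <;> simp
      right_inv := by
        intro z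
        funext i
        fin_cases i <;> simp }
  map_vadd' := by
    intro p v
    funext i
    fin_cases i <;> simp <;> ring

theorem mem_hull3 {E : Type} [AddCommGroup E] [Module ℝ E] (a b c y : E) :
    y ∈ convexHull ℝ ({a, b, c} : Set E) ↔
      ∃ α β γ : ℝ, 0 ≤ α ∧ 0 ≤ β ∧ 0 ≤ γ ∧ α + β + γ = 1 ∧ α • a + β • b + γ • c = y := by
  constructor
  · intro h
    refine convexHull_min (t := {y | ∃ α β γ : ℝ, 0 ≤ α ∧ 0 ≤ β ∧ 0 ≤ γ ∧ α + β + γ = 1 ∧
      α • a + β • b + γ • c = y}) ?_ ?_ h
    · rintro x (rfl | rfl | rfl)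
      · exact ⟨1, 0, 0, by norm_num, le_rfl, le_rfl, by norm_num, by simp⟩
      · exact ⟨0, 1, 0, le_rfl, by norm_num, le_rfl, by norm_num, by simp⟩
      · exact ⟨0, 0, 1, le_rfl, le_rfl, by norm_num, by norm_num, by simp⟩
    · rintro x ⟨α, β, γ, h1, h2, h3, h4, rfl⟩ x' ⟨α', β', γ', h1', h2', h3', h4', rfl⟩ s t hs ht hst
      refine ⟨s * α + t * α', s * β + t * β', s * γ + t * γ', by positivity, by positivity,
        by positivity, ?_, ?_⟩
      · linear_combination s * h4 + t * h4' + hst
      · module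
  · rintro ⟨α, β, γ, h1, h2, h3, h4, rfl⟩
    have hc := convex_convexHull ℝ ({a, b, c} : Set E)
    have := hc.sum_mem (t := Finset.univ) (w := ![α, β, γ]) (z := ![a, b, c])
      (by intro i _; fin_cases i <;> simpa) (by simp [Fin.sum_univ_three]; linarith)
      (by intro i _; fin_cases i <;> exact subset_convexHull ℝ _ (by simp))
    simpa [Fin.sum_univ_three] using this

theorem toStd_body : toStd '' body ps (facets 396 finM) = tetBd := by
  have hP0 : toStd (ps 258) = ![0, 0, 0, 0] := by
    have h : coord 258 = ![1, 1, 2, 1] := by decide +kernel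
    funext i
    simp only [toStd, AffineEquiv.coe_mk, Equiv.coe_fn_mk, ps, latPos, h]
    fin_cases i <;> simp <;> norm_num
  have hP1 : toStd (ps 259) = ![1, 0, 0, 0] := by
    have h : coord 259 = ![1, 1, 3, 1] := by decide +kernel
    funext i
    simp only [toStd, AffineEquiv.coe_mk, Equiv.coe_fn_mk, ps, latPos, h]
    fin_cases i <;> simp <;> norm_num
  have hP2 : toStd (ps 264) = ![0, 1, 0, 0] := by
    have h : coord 264 = ![1, 2, 3, 1] := by decide +kernel
    funext i
    simp only [toStd, AffineEquiv.coe_mk, Equiv.coe_fn_mk, ps, latPos, h]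
    fin_cases i <;> simp <;> norm_num
  have hP3 : toStd (ps 344) = ![0, 0, 1, 0] := by
    have h : coord 344 = ![1, 2, 3, 2] := by decide +kernel
    funext i
    simp only [toStd, AffineEquiv.coe_mk, Equiv.coe_fn_mk, ps, latPos, h]
    fin_cases i <;> simp <;> norm_num
  have hf : ∀ a b c : ℕ, (ha : a < 396) → (hb : b < 396) → (hc : c < 396) →
      toStd '' convexHull ℝ (ps '' (vset 396 (msk [a, b, c]) : Set (Fin 396))) =
        convexHull ℝ {toStd (ps ⟨a, ha⟩), toStd (ps ⟨b, hb⟩), toStd (ps ⟨c, hc⟩)} := by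
    intro a b c ha hb hc
    rw [image_tri [a, b, c] (by
      intro x hx
      simp only [List.mem_cons, List.not_mem_nil, or_false] at hx
      rcases hx with rfl | rfl | rfl <;> assumption) _ _ _ rfl]
    have := (toStd.toAffineMap).image_convexHull {ps ⟨a, ha⟩, ps ⟨b, hb⟩, ps ⟨c, hc⟩}
    rw [image_insert_eq, image_insert_eq, image_singleton] at this
    exact this
  have hb : toStd '' body ps (facets 396 finM) =
      convexHull ℝ {toStd (ps 258), toStd (ps 259), toStd (ps 264)} ∪
      convexHull ℝ {toStd (ps 258), toStd (ps 259), toStd (ps 344)} ∪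
      convexHull ℝ {toStd (ps 258), toStd (ps 264), toStd (ps 344)} ∪
      convexHull ℝ {toStd (ps 259), toStd (ps 264), toStd (ps 344)} := by
    have h1 := hf 258 259 264 (by norm_num) (by norm_num) (by norm_num)
    have h2 := hf 258 259 344 (by norm_num) (by norm_num) (by norm_num)
    have h3 := hf 258 264 344 (by norm_num) (by norm_num) (by norm_num)
    have h4 := hf 259 264 344 (by norm_num) (by norm_num) (by norm_num)
    have hb' : body ps (facets 396 finM) =
        convexHull ℝ (ps '' (vset 396 (msk [258, 259, 264]) : Set (Fin 396))) ∪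
        convexHull ℝ (ps '' (vset 396 (msk [258, 259, 344]) : Set (Fin 396))) ∪
        convexHull ℝ (ps '' (vset 396 (msk [258, 264, 344]) : Set (Fin 396))) ∪
        convexHull ℝ (ps '' (vset 396 (msk [259, 264, 344]) : Set (Fin 396))) := by
      ext y
      unfold body facets finM
      simp only [mem_iUnion, exists_prop, mem_ofPred_eq, List.mem_cons, List.not_mem_nil, or_false,
        mem_union]
      constructor
      · rintro ⟨s, ⟨m, (rfl | rfl | rfl | rfl), rfl⟩, hy⟩
        · exact Or.inl (Or.inl (Or.inl hy))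
        · exact Or.inl (Or.inl (Or.inr hy))
        · exact Or.inl (Or.inr hy)
        · exact Or.inr hy
      · rintro (((hy | hy) | hy) | hy)
        · exact ⟨_, ⟨_, Or.inl rfl, rfl⟩, hy⟩
        · exact ⟨_, ⟨_, Or.inr (Or.inl rfl), rfl⟩, hy⟩
        · exact ⟨_, ⟨_, Or.inr (Or.inr (Or.inl rfl)), rfl⟩, hy⟩
        · exact ⟨_, ⟨_, Or.inr (Or.inr (Or.inr rfl)), rfl⟩, hy⟩
    rw [hb', image_union, image_union, image_union, h1, h2, h3, h4]
    rfl
  rw [hb, hP0, hP1, hP2, hP3]
  have hcomb : ∀ (α β γ : ℝ) (a b c z : Fin 4 → ℝ), (α • a + β • b + γ • c = z ↔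
      ∀ i, α * a i + β * b i + γ * c i = z i) := by
    intro α β γ a b c z
    rw [funext_iff]
    rfl
  ext z
  simp only [mem_union, mem_hull3, hcomb, Fin.forall_fin_succ, Fin.forall_fin_zero]
  unfold tetBd
  rw [mem_ofPred_eq]
  constructor
  · rintro (((⟨α, β, γ, h1, h2, h3, h4, h5⟩ | ⟨α, β, γ, h1, h2, h3, h4, h5⟩) |
      ⟨α, β, γ, h1, h2, h3, h4, h5⟩) | ⟨α, β, γ, h1, h2, h3, h4, h5⟩)
    all_goals
      simp at h5
      obtain ⟨g0, g1, g2, g3⟩ := h5
      refine ⟨by linarith [show z 3 = 0 from by simpa using g3.symm], ?_⟩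
      apply le_antisymm
      · first
        | exact (min_le_left _ _).trans ((min_le_left _ _).trans (by linarith [show z 0 = z 0 from rfl]))
        | exact (min_le_left _ _).trans ((min_le_right _ _).trans (by linarith [show z 0 = z 0 from rfl]))
        | exact (min_le_right _ _).trans ((min_le_left _ _).trans (by linarith [show z 0 = z 0 from rfl]))
        | exact (min_le_right _ _).trans ((min_le_right _ _).trans (by linarith [show z 0 = z 0 from rfl]))
      · refine le_min (le_min ?_ ?_) (le_min ?_ ?_) <;> linarith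
  · rintro ⟨h3, hm⟩
    have k0 : 0 ≤ z 0 := by
      rw [← hm]; exact (min_le_left _ _).trans (min_le_left _ _)
    have k1 : 0 ≤ z 1 := by
      rw [← hm]; exact (min_le_left _ _).trans (min_le_right _ _)
    have k2 : 0 ≤ z 2 := by
      rw [← hm]; exact (min_le_right _ _).trans (min_le_left _ _)
    have k3 : 0 ≤ 1 - z 0 - z 1 - z 2 := by
      rw [← hm]; exact (min_le_right _ _).trans (min_le_right _ _)
    rcases min_choice (min (z 0) (z 1)) (min (z 2) (1 - z 0 - z 1 - z 2)) with h | h
    · rw [h] at hm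
      rcases min_choice (z 0) (z 1) with h' | h' <;> rw [h'] at hm
      · left; right
        exact ⟨1 - z 0 - z 1 - z 2, z 1, z 2, k3, k1, k2, by linarith, by simp [hm, h3]⟩
      · left; left; right
        exact ⟨1 - z 0 - z 1 - z 2, z 0, z 2, k3, k0, k2, by linarith, by simp [hm, h3]⟩
    · rw [h] at hm
      rcases min_choice (z 2) (1 - z 0 - z 1 - z 2) with h' | h' <;> rw [h'] at hm
      · left; left; left
        exact ⟨1 - z 0 - z 1 - z 2, z 0, z 1, k3, k0, k1, by linarith, by simp [hm, h3]⟩
      · right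
        exact ⟨z 0, z 1, z 2, k0, k1, k2, by linarith, by simp [h3]⟩

end BE05

theorem USet_unknot : ∃ e : (Fin 4 → ℝ) ≃ (Fin 4 → ℝ), ConePL e ∧ e '' USet = tetBd := by
  obtain ⟨e, he, h⟩ := BE05.exists_e1
  refine ⟨e.trans BE05.toStd.toEquiv, he.trans (conePL_affine BE05.toStd), ?_⟩
  rw [Equiv.coe_trans, image_comp, h]
  exact BE05.toStd_body

end Pool.Agent.PolyKnots
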