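import Pool.Agent.W_MP_be6f00_gt.Basic

set_option autoImplicit false
set_option linter.unusedSectionVars false

/-! # BE01a: first half of the PL toolbox -/

open Set
open scoped ENNReal Topology

namespace Pool.Agent.PolyKnots

namespace BE01

section Alg
variable {E F G : Type} [AddCommGroup E] [Module ℝ E] [AddCommGroup F] [Module ℝ F]
  [AddCommGroup G] [Module ℝ G]

theorem isPolyhedral_univ : IsPolyhedral (univ : Set E) :=
  ⟨Empty, inferInstance, fun i => i.elim, by ext x; simp⟩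

theorem isPolyhedral_halfspace (a : E →ᵃ[ℝ] ℝ) : IsPolyhedral {x : E | 0 ≤ a x} :=
  ⟨Unit, inferInstance, fun _ => a, by ext x; simp⟩

theorem polyhedral_inter {P Q : Set E} (hP : IsPolyhedral P) (hQ : IsPolyhedral Q) :
    IsPolyhedral (P ∩ Q) := by
  obtain ⟨ι, _, a, rfl⟩ := hP
  obtain ⟨κ, _, b, rfl⟩ := hQ
  refine ⟨ι ⊕ κ, inferInstance, Sum.elim a b, ?_⟩
  ext x
  simp only [mem_inter_iff, mem_ofPred_eq, Sum.forall, Sum.elim_inl, Sum.elim_inr]

theorem polyhedral_preimage {Q : Set F} (hQ : IsPolyhedral Q) (a : E →ᵃ[ℝ] F) :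
    IsPolyhedral (a ⁻¹' Q) := by
  obtain ⟨κ, _, b, rfl⟩ := hQ
  exact ⟨κ, inferInstance, fun i => (b i).comp a, rfl⟩

theorem isPL_affine_aux (a : E →ᵃ[ℝ] F) : IsPLOn (fun x => a x) univ :=
  ⟨Unit, inferInstance, fun _ => univ, fun _ => a, fun _ => isPolyhedral_univ,
    (iUnion_const _).symm, fun _ _ _ => rfl⟩

theorem isPL_of_eq {f : E → F} (L : E →ₗ[ℝ] F) (c : F) (h : ∀ x, f x = L x + c) :
    IsPLOn f univ := by
  have := isPL_affine_aux (L.toAffineMap + AffineMap.const ℝ E c)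
  convert this using 1
  ext x
  rw [h x]
  rfl

theorem isPL_comp {g : F → G} {f : E → F} (hg : IsPLOn g univ) (hf : IsPLOn f univ) :
    IsPLOn (fun x => g (f x)) univ := by
  obtain ⟨ι, _, P, a, hP, hPu, ha⟩ := hf
  obtain ⟨κ, _, Q, b, hQ, hQu, hb⟩ := hg
  refine ⟨ι × κ, inferInstance, fun p => P p.1 ∩ (a p.1) ⁻¹' (Q p.2),
    fun p => (b p.2).comp (a p.1), fun p => polyhedral_inter (hP p.1) (polyhedral_preimage (hQ p.2) (a p.1)), ?_, ?_⟩
  · refine (eq_univ_of_forall fun x => ?_).symm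
    obtain ⟨i, hi⟩ := mem_iUnion.1 (hPu ▸ mem_univ x : x ∈ ⋃ i, P i)
    obtain ⟨j, hj⟩ := mem_iUnion.1 (hQu ▸ mem_univ (a i x) : a i x ∈ ⋃ j, Q j)
    exact mem_iUnion.2 ⟨(i, j), hi, hj⟩
  · rintro ⟨i, j⟩ x ⟨hi, hj⟩
    show g (f x) = b j (a i x)
    rw [ha i hi]
    exact hb j hj

theorem isPL_prodMk {f : E → F} {g : E → G} (hf : IsPLOn f univ) (hg : IsPLOn g univ) :
    IsPLOn (fun x => (f x, g x)) univ := by
  obtain ⟨ι, _, P, a, hP, hPu, ha⟩ := hf
  obtain ⟨κ, _, Q, b, hQ, hQu, hb⟩ := hg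
  refine ⟨ι × κ, inferInstance, fun p => P p.1 ∩ Q p.2,
    fun p => (a p.1).prod (b p.2), fun p => polyhedral_inter (hP p.1) (hQ p.2), ?_, ?_⟩
  · refine (eq_univ_of_forall fun x => ?_).symm
    obtain ⟨i, hi⟩ := mem_iUnion.1 (hPu ▸ mem_univ x : x ∈ ⋃ i, P i)
    obtain ⟨j, hj⟩ := mem_iUnion.1 (hQu ▸ mem_univ x : x ∈ ⋃ j, Q j)
    exact mem_iUnion.2 ⟨(i, j), hi, hj⟩
  · rintro ⟨i, j⟩ x ⟨hi, hj⟩
    show (f x, g x) = (a i x, b j x)
    rw [ha i hi, hb j hj]

theorem isPL_max : IsPLOn (fun p : ℝ × ℝ => max p.1 p.2) univ := by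
  let l : Bool → (ℝ × ℝ →ᵃ[ℝ] ℝ) := fun b =>
    if b then (AffineMap.fst : ℝ × ℝ →ᵃ[ℝ] ℝ) - AffineMap.snd
      else (AffineMap.snd : ℝ × ℝ →ᵃ[ℝ] ℝ) - AffineMap.fst
  let a : Bool → (ℝ × ℝ →ᵃ[ℝ] ℝ) := fun b =>
    if b then (AffineMap.fst : ℝ × ℝ →ᵃ[ℝ] ℝ) else (AffineMap.snd : ℝ × ℝ →ᵃ[ℝ] ℝ)
  refine ⟨Bool, inferInstance, fun b => {x | 0 ≤ l b x}, a, fun b => isPolyhedral_halfspace (l b),
    ?_, ?_⟩
  · refine (eq_univ_of_forall fun x => ?_).symm
    rcases le_total x.1 x.2 with h | h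
    · refine mem_iUnion.2 ⟨false, ?_⟩
      show (0 : ℝ) ≤ x.2 - x.1
      linarith
    · refine mem_iUnion.2 ⟨true, ?_⟩
      show (0 : ℝ) ≤ x.1 - x.2
      linarith
  · rintro (_ | _) x hx
    · have hx' : (0 : ℝ) ≤ x.2 - x.1 := hx
      show max x.1 x.2 = x.2
      exact max_eq_right (by linarith)
    · have hx' : (0 : ℝ) ≤ x.1 - x.2 := hx
      show max x.1 x.2 = x.1
      exact max_eq_left (by linarith)

theorem isPL_min : IsPLOn (fun p : ℝ × ℝ => min p.1 p.2) univ := by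
  have h1 : IsPLOn (fun p : ℝ × ℝ => (-p.1, -p.2)) univ :=
    isPL_of_eq (-LinearMap.id) 0 (fun x => by rw [add_zero]; rfl)
  have h2 : IsPLOn (fun p : ℝ => -p) univ :=
    isPL_of_eq (-LinearMap.id) 0 (fun x => by rw [add_zero]; rfl)
  have h3 := isPL_comp h2 (isPL_comp isPL_max h1)
  convert h3 using 1
  ext p
  show min p.1 p.2 = -(max (-p.1) (-p.2))
  rw [max_neg_neg, neg_neg]

end Alg

end BE01

open BE01

section BE01
variable {E F G : Type} [NormedAddCommGroup E] [NormedSpace ℝ E] [FiniteDimensional ℝ E]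
  [NormedAddCommGroup F] [NormedSpace ℝ F] [FiniteDimensional ℝ F]
  [NormedAddCommGroup G] [NormedSpace ℝ G] [FiniteDimensional ℝ G]

omit [FiniteDimensional ℝ F] in
theorem BE01.isClosed_polyhedral {P : Set E} (h : IsPolyhedral P) : IsClosed P := by
  obtain ⟨ι, _, a, rfl⟩ := h
  have : {x | ∀ i, 0 ≤ a i x} = ⋂ i, {x | 0 ≤ a i x} := by ext x; simp
  rw [this]
  exact isClosed_iInter fun i =>
    isClosed_le continuous_const (a i).continuous_of_finiteDimensional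

theorem IsPLOn.continuous {f : E → F} (h : IsPLOn f univ) : Continuous f := by
  obtain ⟨ι, _, P, a, hP, hPu, ha⟩ := h
  refine (locallyFinite_of_finite P).continuous hPu.symm
    (fun i => BE01.isClosed_polyhedral (hP i)) fun i => ?_
  exact ((a i).continuous_of_finiteDimensional.continuousOn).congr (ha i)

theorem isPL_affine (a : E →ᵃ[ℝ] F) : IsPLOn (fun x => a x) univ := BE01.isPL_affine_aux a

theorem IsPLOn.comp {g : F → G} {f : E → F} (hg : IsPLOn g univ) (hf : IsPLOn f univ) :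
    IsPLOn (fun x => g (f x)) univ := isPL_comp hg hf

theorem IsPLOn.prodMk {f : E → F} {g : E → G} (hf : IsPLOn f univ) (hg : IsPLOn g univ) :
    IsPLOn (fun x => (f x, g x)) univ := isPL_prodMk hf hg

theorem IsPLOn.fst {f : E → F × G} (hf : IsPLOn f univ) : IsPLOn (fun x => (f x).1) univ :=
  isPL_comp (isPL_of_eq (LinearMap.fst ℝ F G) 0 fun x => by rw [add_zero]; rfl) hf

theorem IsPLOn.snd {f : E → F × G} (hf : IsPLOn f univ) : IsPLOn (fun x => (f x).2) univ :=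
  isPL_comp (isPL_of_eq (LinearMap.snd ℝ F G) 0 fun x => by rw [add_zero]; rfl) hf

theorem IsPLOn.add {f g : E → F} (hf : IsPLOn f univ) (hg : IsPLOn g univ) :
    IsPLOn (fun x => f x + g x) univ :=
  isPL_comp (isPL_of_eq (LinearMap.fst ℝ F F + LinearMap.snd ℝ F F) 0 fun x => by
    rw [add_zero]; rfl : IsPLOn (fun p : F × F => p.1 + p.2) univ) (isPL_prodMk hf hg)

theorem IsPLOn.neg {f : E → F} (hf : IsPLOn f univ) : IsPLOn (fun x => -f x) univ :=
  isPL_comp (isPL_of_eq (-LinearMap.id) 0 fun x => by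
    rw [add_zero]; rfl : IsPLOn (fun p : F => -p) univ) hf

theorem IsPLOn.sub {f g : E → F} (hf : IsPLOn f univ) (hg : IsPLOn g univ) :
    IsPLOn (fun x => f x - g x) univ :=
  isPL_comp (isPL_of_eq (LinearMap.fst ℝ F F - LinearMap.snd ℝ F F) 0 fun x => by
    rw [add_zero]; rfl : IsPLOn (fun p : F × F => p.1 - p.2) univ) (isPL_prodMk hf hg)

theorem IsPLOn.const_smul {f : E → F} (hf : IsPLOn f univ) (c : ℝ) :
    IsPLOn (fun x => c • f x) univ :=
  isPL_comp (isPL_of_eq (c • LinearMap.id) 0 fun x => by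
    rw [add_zero]; rfl : IsPLOn (fun p : F => c • p) univ) hf

theorem isPL_const (c : F) : IsPLOn (fun _ : E => c) univ :=
  isPL_of_eq 0 c fun x => by rw [LinearMap.zero_apply, zero_add]

theorem isPL_id : IsPLOn (fun x : E => x) univ :=
  isPL_of_eq LinearMap.id 0 fun x => by rw [add_zero]; rfl

theorem isPL_linear (L : E →ₗ[ℝ] F) : IsPLOn (fun x => L x) univ :=
  isPL_of_eq L 0 fun x => by rw [add_zero]

theorem IsPLOn.max {f g : E → ℝ} (hf : IsPLOn f univ) (hg : IsPLOn g univ) :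
    IsPLOn (fun x => max (f x) (g x)) univ := isPL_comp isPL_max (isPL_prodMk hf hg)

theorem IsPLOn.min {f g : E → ℝ} (hf : IsPLOn f univ) (hg : IsPLOn g univ) :
    IsPLOn (fun x => min (f x) (g x)) univ := isPL_comp isPL_min (isPL_prodMk hf hg)

theorem IsPLOn.smul_const {f : E → ℝ} (hf : IsPLOn f univ) (v : F) :
    IsPLOn (fun x => f x • v) univ :=
  isPL_comp (isPL_of_eq (LinearMap.id.smulRight v) 0 fun x => by
    rw [add_zero]; rfl : IsPLOn (fun p : ℝ => p • v) univ) hf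

theorem IsPLOn.inf' {ι : Type} [Fintype ι] [Nonempty ι] {f : ι → E → ℝ}
    (hf : ∀ i, IsPLOn (f i) univ) :
    IsPLOn (fun x => Finset.univ.inf' Finset.univ_nonempty fun i => f i x) univ := by
  have key : ∀ (s : Finset ι) (hs : s.Nonempty),
      IsPLOn (fun x => s.inf' hs fun i => f i x) univ := by
    intro s hs
    induction hs using Finset.Nonempty.cons_induction with
    | singleton a => simpa only [Finset.inf'_singleton] using hf a
    | cons a s ha hs ih => simpa only [Finset.inf'_cons hs] using (hf a).min ih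
  exact key _ _

theorem IsPLE.trans {e : E ≃ F} {e' : F ≃ G} (h : IsPLE e) (h' : IsPLE e') :
    IsPLE (e.trans e') := by
  have h1 : IsPLOn (fun x => e' (e x)) univ := isPL_comp h'.pl h.pl
  have h2 : IsPLOn (fun x => e.symm (e'.symm x)) univ := isPL_comp h.pl_symm h'.pl_symm
  exact ⟨h1, h2⟩

theorem IsPLE.symm {e : E ≃ F} (h : IsPLE e) : IsPLE e.symm :=
  ⟨h.pl_symm, h.pl⟩

theorem isPLE_refl : IsPLE (Equiv.refl E) := ⟨isPL_id, isPL_id⟩

theorem isPLE_affine (e : E ≃ᵃ[ℝ] F) : IsPLE e.toEquiv :=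
  ⟨BE01.isPL_affine_aux e.toAffineMap, BE01.isPL_affine_aux e.symm.toAffineMap⟩

theorem ConePL.trans {e e' : E ≃ E} (h : ConePL e) (h' : ConePL e') : ConePL (e.trans e') := by
  refine ⟨h.pl.trans h'.pl, fun w₀ => ?_⟩
  obtain ⟨e₁, h₁, c₁⟩ := h.cone w₀
  obtain ⟨e₂, h₂, c₂⟩ := h'.cone w₀
  refine ⟨e₁.trans e₂, h₁.trans h₂, fun u s hs => ?_⟩
  rw [Equiv.trans_apply, c₁ u s hs, c₂ (e u) s hs, Equiv.trans_apply]

theorem conePL_affine (e : E ≃ᵃ[ℝ] E) : ConePL e.toEquiv := by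
  refine ⟨isPLE_affine e, fun w₀ => ?_⟩
  let e' : (E × ℝ) ≃ (E × ℝ) :=
    { toFun := fun p => (w₀ + e.linear (p.1 - w₀) + p.2 • (e w₀ - w₀), p.2)
      invFun := fun p => (w₀ + e.linear.symm (p.1 - w₀ - p.2 • (e w₀ - w₀)), p.2)
      left_inv := by
        rintro ⟨x, s⟩
        refine Prod.ext ?_ rfl
        show w₀ + e.linear.symm (w₀ + e.linear (x - w₀) + s • (e w₀ - w₀) - w₀ -
          s • (e w₀ - w₀)) = x
        rw [show w₀ + e.linear (x - w₀) + s • (e w₀ - w₀) - w₀ - s • (e w₀ - w₀) =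
          e.linear (x - w₀) by abel, LinearEquiv.symm_apply_apply]
        abel
      right_inv := by
        rintro ⟨x, s⟩
        refine Prod.ext ?_ rfl
        show w₀ + e.linear (w₀ + e.linear.symm (x - w₀ - s • (e w₀ - w₀)) - w₀) +
          s • (e w₀ - w₀) = x
        rw [show w₀ + e.linear.symm (x - w₀ - s • (e w₀ - w₀)) - w₀ =
          e.linear.symm (x - w₀ - s • (e w₀ - w₀)) by abel, LinearEquiv.apply_symm_apply]
        abel }
  have hfst : IsPLOn (fun p : E × ℝ => p.1) univ := isPL_id.fst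
  have hsnd : IsPLOn (fun p : E × ℝ => p.2) univ := isPL_id.snd
  refine ⟨e', ⟨?_, ?_⟩, ?_⟩
  · show IsPLOn (fun p : E × ℝ => (w₀ + e.linear (p.1 - w₀) + p.2 • (e w₀ - w₀), p.2)) univ
    refine IsPLOn.prodMk ?_ hsnd
    refine IsPLOn.add ?_ (hsnd.smul_const _)
    exact (isPL_const w₀).add
      ((isPL_linear (e.linear : E →ₗ[ℝ] E)).comp (hfst.sub (isPL_const w₀)))
  · show IsPLOn (fun p : E × ℝ =>
      (w₀ + e.linear.symm (p.1 - w₀ - p.2 • (e w₀ - w₀)), p.2)) univ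
    refine IsPLOn.prodMk ?_ hsnd
    exact (isPL_const w₀).add ((isPL_linear (e.linear.symm : E →ₗ[ℝ] E)).comp
      ((hfst.sub (isPL_const w₀)).sub (hsnd.smul_const _)))
  · intro u s _
    refine Prod.ext ?_ rfl
    show w₀ + e.linear (w₀ + s • (u - w₀) - w₀) + s • (e w₀ - w₀) = w₀ + s • (e u - w₀)
    have h1 : e u = e.linear (u - w₀) + e w₀ := by
      have := e.map_vadd w₀ (u - w₀)
      rw [vadd_eq_add, sub_add_cancel, vadd_eq_add] at this
      exact this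
    rw [h1, add_sub_cancel_left, map_smul, smul_sub, smul_sub, smul_add]
    abel

end BE01

end Pool.Agent.PolyKnots
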