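import Pool.Agent.W_MP_be6f00_gt.Model
import Pool.Agent.W_MP_be6f00_gt.DataD
import Pool.Agent.W_MP_be6f00_gt.Freud
import Pool.Agent.W_MP_be6f00_gt.PLa
import Pool.Agent.W_MP_be6f00_gt.Run

set_option autoImplicit false

/-! BE06: the parametrization of the 2-sphere `|KU|` and contractibility of its two halves. -/

open scoped ENNReal Topology
open Set

namespace Pool.Agent.PolyKnots.BE06


/-- The vertex number `k` (cyclically) of `J`. -/
def jv (k : ℕ) : ℕ := jCyc.getD (k % 92) 0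

/-- The masks of the cone over `J` with apex `a`. -/
def coneM (a : ℕ) : List ℕ := (List.range 92).map fun k => msk [a, jv k, jv (k + 1)]

/-- Comparison of the result of a flip sequence with a list of masks. -/
def eqO (o : Option (List ℕ)) (L : List ℕ) : Bool :=
  match o with
  | none => false
  | some S => (S.all fun m => L.any (Nat.beq m)) && (L.all fun m => S.any (Nat.beq m))

theorem run0 : eqO (runFlip m1 m0 blocksD0) (coneM 396) = true := by decide +kernel

theorem run1 : eqO (runFlip (coneM 396) m1 blocksD1) (coneM 397) = true := by decide +kernel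

/-- All indices are below `398`. -/
def idxOk (bl : List (ℕ × List (List ℕ × List ℕ))) : Bool :=
  bl.all fun b => b.2.all fun f => (f.1 ++ f.2).all fun i => Nat.blt i 398

theorem idx0 : idxOk blocksD0 = true := by decide +kernel
theorem idx1 : idxOk blocksD1 = true := by decide +kernel



/-- The lattice points on the boundary of `[0, 23]²`, in cyclic order. -/
def P (k : Fin 92) : Fin 2 → ℤ :=
  if k.1 ≤ 23 then ![(k.1 : ℤ), 0] else if k.1 ≤ 46 then ![23, (k.1 : ℤ) - 23]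
  else if k.1 ≤ 69 then ![69 - (k.1 : ℤ), 23] else ![0, 92 - (k.1 : ℤ)]

theorem P_inj : ∀ k l : Fin 92, P k 0 = P l 0 → P k 1 = P l 1 → k = l := by decide +kernel

theorem P_next : ∀ k : Fin 92, (P (k + 1) 1 = P k 1 ∧ (P (k + 1) 0 = P k 0 + 1 ∨ P (k + 1) 0 = P k 0 - 1)) ∨
    (P (k + 1) 0 = P k 0 ∧ (P (k + 1) 1 = P k 1 + 1 ∨ P (k + 1) 1 = P k 1 - 1)) := by decide +kernel

theorem P_side : ∀ k : Fin 92, ∃ i : Fin 2, (P k i = 0 ∧ P (k + 1) i = 0) ∨
    (P k i = 23 ∧ P (k + 1) i = 23) := by decide +kernel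

theorem P_bd : ∀ (k : Fin 92) (i : Fin 2), 0 ≤ P k i ∧ P k i ≤ 23 := by decide +kernel

theorem P_a : ∀ m : Fin 23, ∃ k : Fin 92, P k = ![(m.1 : ℤ), 0] ∧ P (k + 1) = ![(m.1 : ℤ) + 1, 0] := by
  decide +kernel
theorem P_b : ∀ m : Fin 23, ∃ k : Fin 92, P k = ![23, (m.1 : ℤ)] ∧ P (k + 1) = ![23, (m.1 : ℤ) + 1] := by
  decide +kernel
theorem P_c : ∀ m : Fin 23, ∃ k : Fin 92, P k = ![(m.1 : ℤ) + 1, 23] ∧ P (k + 1) = ![(m.1 : ℤ), 23] := by
  decide +kernel
theorem P_d : ∀ m : Fin 23, ∃ k : Fin 92, P k = ![0, (m.1 : ℤ) + 1] ∧ P (k + 1) = ![0, (m.1 : ℤ)] := by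
  decide +kernel

theorem exists_cell (y : ℝ) (h0 : 0 ≤ y) (h1 : y ≤ 23) : ∃ m : Fin 23, (m.1 : ℝ) ≤ y ∧
    y ≤ (m.1 : ℝ) + 1 := by
  by_cases h : y = 23
  · refine ⟨⟨22, by norm_num⟩, ?_, ?_⟩
    · rw [h]; norm_num
    · rw [h]; norm_num
  · have hlt : y < 23 := lt_of_le_of_ne h1 h
    have hf : ⌊y⌋₊ < 23 := by
      rw [Nat.floor_lt h0]; exact_mod_cast hlt
    refine ⟨⟨⌊y⌋₊, hf⟩, Nat.floor_le h0, (Nat.lt_floor_add_one y).le⟩

/-- Every boundary point of the square lies on a unit segment. -/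
theorem exists_seg (p : Fin 2 → ℝ) (hp : ∀ i, 0 ≤ p i ∧ p i ≤ 23) (hs : ∃ i, p i = 0 ∨ p i = 23) :
    ∃ k : Fin 92, ∃ t ∈ Icc (0 : ℝ) 1, ∀ i, p i = (1 - t) * (P k i : ℝ) + t * (P (k + 1) i : ℝ) := by
  obtain ⟨i, hi⟩ := hs
  fin_cases i
  · obtain ⟨m, hm0, hm1⟩ := exists_cell (p 1) (hp 1).1 (hp 1).2
    rcases hi with hi | hi
    · obtain ⟨k, hk, hk'⟩ := P_d m
      refine ⟨k, (m.1 : ℝ) + 1 - p 1, ⟨by linarith, by linarith⟩, ?_⟩
      intro i
      rw [hk, hk']
      fin_cases i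
      · simpa using hi
      · simp; ring
    · obtain ⟨k, hk, hk'⟩ := P_b m
      refine ⟨k, p 1 - (m.1 : ℝ), ⟨by linarith, by linarith⟩, ?_⟩
      intro i
      rw [hk, hk']
      fin_cases i
      · simp at hi ⊢; rw [hi]; ring
      · simp; ring
  · obtain ⟨m, hm0, hm1⟩ := exists_cell (p 0) (hp 0).1 (hp 0).2
    rcases hi with hi | hi
    · obtain ⟨k, hk, hk'⟩ := P_a m
      refine ⟨k, p 0 - (m.1 : ℝ), ⟨by linarith, by linarith⟩, ?_⟩
      intro i
      rw [hk, hk']
      fin_cases i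
      · simp; ring
      · simpa using hi
    · obtain ⟨k, hk, hk'⟩ := P_c m
      refine ⟨k, (m.1 : ℝ) + 1 - p 0, ⟨by linarith, by linarith⟩, ?_⟩
      intro i
      rw [hk, hk']
      fin_cases i
      · simp; ring
      · simp at hi ⊢; rw [hi]; ring

/-- The points on the boundary of the square `[-1, 1]²`. -/
noncomputable def w (k : Fin 92) : Fin 2 → ℝ := fun i => ((P k i : ℝ) - 23 / 2) / (23 / 2)

theorem abs_w_le (k : Fin 92) (i : Fin 2) : |w k i| ≤ 1 := by
  have h := P_bd k i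
  have h0 : (0 : ℝ) ≤ P k i := by exact_mod_cast h.1
  have h1 : (P k i : ℝ) ≤ 23 := by exact_mod_cast h.2
  unfold w
  rw [abs_le]
  constructor
  · rw [le_div_iff₀ (by norm_num)]; linarith
  · rw [div_le_iff₀ (by norm_num)]; linarith

theorem norm_seg (k : Fin 92) (α β : ℝ) (hα : 0 ≤ α) (hβ : 0 ≤ β) :
    ‖α • w k + β • w (k + 1)‖ = α + β := by
  apply le_antisymm
  · rw [pi_norm_le_iff_of_nonneg (by linarith)]
    intro i
    rw [Pi.add_apply, Pi.smul_apply, Pi.smul_apply, Real.norm_eq_abs, smul_eq_mul, smul_eq_mul]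
    calc |α * w k i + β * w (k + 1) i| ≤ |α * w k i| + |β * w (k + 1) i| := abs_add_le _ _
      _ = α * |w k i| + β * |w (k + 1) i| := by rw [abs_mul, abs_mul, abs_of_nonneg hα, abs_of_nonneg hβ]
      _ ≤ α * 1 + β * 1 := by
        gcongr <;> exact abs_w_le _ _
      _ = α + β := by ring
  · obtain ⟨i, hi⟩ := P_side k
    refine le_trans ?_ (norm_le_pi_norm _ i)
    rw [Pi.add_apply, Pi.smul_apply, Pi.smul_apply, Real.norm_eq_abs, smul_eq_mul, smul_eq_mul]
    unfold w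
    rcases hi with ⟨h1, h2⟩ | ⟨h1, h2⟩
    · rw [h1, h2]
      have : α * (((0 : ℤ) : ℝ) - 23 / 2) / (23 / 2) = -α := by push_cast; ring
      refine le_trans (le_of_eq ?_) (neg_le_abs _)
      push_cast; ring
    · rw [h1, h2]
      refine le_trans (le_of_eq ?_) (le_abs_self _)
      push_cast; ring

/-- The distances to the lattice points. -/
theorem norm_sub_seg (k l : Fin 92) (α β : ℝ) (hα : 0 ≤ α) (hβ : 0 ≤ β) :
    (l = k → 23 / 2 * ‖α • w k + β • w (k + 1) - (α + β) • w l‖ = β) ∧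
    (l = k + 1 → 23 / 2 * ‖α • w k + β • w (k + 1) - (α + β) • w l‖ = α) ∧
    (l ≠ k → l ≠ k + 1 → α + β ≤ 23 / 2 * ‖α • w k + β • w (k + 1) - (α + β) • w l‖) := by
  have key : ∀ i, (α • w k + β • w (k + 1) - (α + β) • w l) i =
      2 / 23 * (α * ((P k i : ℝ) - P l i) + β * ((P (k + 1) i : ℝ) - P l i)) := by
    intro i
    rw [Pi.sub_apply, Pi.add_apply, Pi.smul_apply, Pi.smul_apply, Pi.smul_apply, smul_eq_mul,
      smul_eq_mul, smul_eq_mul]
    unfold w
    ring
  have hnorm : ∀ c : ℝ, 0 ≤ c → (∀ i, |α * ((P k i : ℝ) - P l i) + β * ((P (k + 1) i : ℝ) - P l i)| ≤ c) →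
      (∃ i, |α * ((P k i : ℝ) - P l i) + β * ((P (k + 1) i : ℝ) - P l i)| = c) →
      23 / 2 * ‖α • w k + β • w (k + 1) - (α + β) • w l‖ = c := by
    intro c hc h1 h2
    have : ‖α • w k + β • w (k + 1) - (α + β) • w l‖ = 2 / 23 * c := by
      apply le_antisymm
      · rw [pi_norm_le_iff_of_nonneg (by positivity)]
        intro i
        rw [key i, Real.norm_eq_abs, abs_mul, abs_of_nonneg (by norm_num : (0 : ℝ) ≤ 2 / 23)]
        exact mul_le_mul_of_nonneg_left (h1 i) (by norm_num)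
      · obtain ⟨i, hi⟩ := h2
        refine le_trans ?_ (norm_le_pi_norm _ i)
        rw [key i, Real.norm_eq_abs, abs_mul, abs_of_nonneg (by norm_num : (0 : ℝ) ≤ 2 / 23), hi]
    rw [this]; ring
  refine ⟨?_, ?_, ?_⟩
  · intro hl
    subst hl
    apply hnorm β hβ
    · intro i
      rw [sub_self, mul_zero, zero_add, abs_mul, abs_of_nonneg hβ]
      have : |(P (l + 1) i : ℝ) - P l i| ≤ 1 := by
        have hh : |P (l + 1) i - P l i| ≤ 1 := by
          fin_cases i
          · rcases P_next l with ⟨h1, h2⟩ | ⟨h1, h2⟩ <;> simp only [Fin.zero_eta] <;> rw [abs_le] <;> omega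
          · rcases P_next l with ⟨h1, h2⟩ | ⟨h1, h2⟩ <;> simp only [Fin.mk_one] <;> rw [abs_le] <;> omega
        exact_mod_cast hh
      nlinarith
    · have hh : ∃ i, |P (l + 1) i - P l i| = 1 := by
        rcases P_next l with ⟨h1, h2⟩ | ⟨h1, h2⟩
        · exact ⟨0, by rw [abs_eq (by norm_num)]; omega⟩
        · exact ⟨1, by rw [abs_eq (by norm_num)]; omega⟩
      obtain ⟨i, hi⟩ := hh
      refine ⟨i, ?_⟩
      have hi' : |(P (l + 1) i : ℝ) - P l i| = 1 := by exact_mod_cast hi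
      rw [sub_self, mul_zero, zero_add, abs_mul, abs_of_nonneg hβ, hi', mul_one]
  · intro hl
    subst hl
    apply hnorm α hα
    · intro i
      rw [sub_self, mul_zero, add_zero, abs_mul, abs_of_nonneg hα]
      have : |(P k i : ℝ) - P (k + 1) i| ≤ 1 := by
        have hh : |P k i - P (k + 1) i| ≤ 1 := by
          fin_cases i
          · rcases P_next k with ⟨h1, h2⟩ | ⟨h1, h2⟩ <;> simp only [Fin.zero_eta] <;> rw [abs_le] <;> omega
          · rcases P_next k with ⟨h1, h2⟩ | ⟨h1, h2⟩ <;> simp only [Fin.mk_one] <;> rw [abs_le] <;> omega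
        exact_mod_cast hh
      nlinarith
    · have hh : ∃ i, |P k i - P (k + 1) i| = 1 := by
        rcases P_next k with ⟨h1, h2⟩ | ⟨h1, h2⟩
        · exact ⟨0, by rw [abs_eq (by norm_num)]; omega⟩
        · exact ⟨1, by rw [abs_eq (by norm_num)]; omega⟩
      obtain ⟨i, hi⟩ := hh
      refine ⟨i, ?_⟩
      have hi' : |(P k i : ℝ) - P (k + 1) i| = 1 := by exact_mod_cast hi
      rw [sub_self, mul_zero, add_zero, abs_mul, abs_of_nonneg hα, hi', mul_one]
  · intro hl hl'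
    -- some coordinate has both differences of the same sign and at least one
    have hex : ∃ i, (1 ≤ P k i - P l i ∧ 1 ≤ P (k + 1) i - P l i) ∨
        (P k i - P l i ≤ -1 ∧ P (k + 1) i - P l i ≤ -1) := by
      by_contra hcon
      simp only [not_exists, not_or, not_and] at hcon
      have c0 := hcon 0
      have c1 := hcon 1
      have n1 : ¬ (P k 0 = P l 0 ∧ P k 1 = P l 1) := fun h => hl (P_inj k l h.1 h.2).symm
      have n2 : ¬ (P (k + 1) 0 = P l 0 ∧ P (k + 1) 1 = P l 1) := fun h => hl' (P_inj _ l h.1 h.2).symm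
      have hn := P_next k
      omega
    obtain ⟨i, hi⟩ := hex
    have h3 : α + β ≤ |α * ((P k i : ℝ) - P l i) + β * ((P (k + 1) i : ℝ) - P l i)| := by
      rcases hi with ⟨h1, h2⟩ | ⟨h1, h2⟩
      · have h1' : (1 : ℝ) ≤ (P k i : ℝ) - P l i := by exact_mod_cast h1
        have h2' : (1 : ℝ) ≤ (P (k + 1) i : ℝ) - P l i := by exact_mod_cast h2
        refine le_trans ?_ (le_abs_self _)
        nlinarith
      · have h1' : (P k i : ℝ) - P l i ≤ -1 := by exact_mod_cast h1
        have h2' : (P (k + 1) i : ℝ) - P l i ≤ -1 := by exact_mod_cast h2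
        refine le_trans ?_ (neg_le_abs _)
        nlinarith
    have h4 := norm_le_pi_norm (α • w k + β • w (k + 1) - (α + β) • w l) i
    rw [key i, Real.norm_eq_abs, abs_mul, abs_of_nonneg (by norm_num : (0 : ℝ) ≤ 2 / 23)] at h4
    linarith

/-- The hat functions. -/
theorem hat_seg (k l : Fin 92) (α β : ℝ) (hα : 0 ≤ α) (hβ : 0 ≤ β) (q : Fin 2 → ℝ)
    (hq : q = α • w k + β • w (k + 1)) :
    max 0 (‖q‖ - 23 / 2 * ‖q - ‖q‖ • w l‖) = if l = k then α else if l = k + 1 then β else 0 := by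
  have hn : ‖q‖ = α + β := by rw [hq]; exact norm_seg k α β hα hβ
  obtain ⟨h1, h2, h3⟩ := norm_sub_seg k l α β hα hβ
  rw [hn, hq]
  split_ifs with hl hl'
  · rw [h1 hl, max_eq_right] <;> linarith
  · rw [h2 hl', max_eq_right] <;> linarith
  · rw [max_eq_left]
    linarith [h3 hl hl']


theorem jlt : ∀ k : Fin 92, jCyc.getD k.1 0 < 396 := by decide +kernel

/-- The vertices of `J`. -/
def jF (k : Fin 92) : Fin 398 := ⟨jCyc.getD k.1 0, lt_trans (jlt k) (by norm_num)⟩

theorem jF_inj : ∀ k l : Fin 92, jF k = jF l → k = l := by decide +kernel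

theorem ne_succ : ∀ k : Fin 92, k ≠ k + 1 := by decide

theorem jF_ne_396 (k : Fin 92) : jF k ≠ 396 := by
  intro h
  have h1 := jlt k
  have h2 : (jF k).1 = 396 := by rw [h]; rfl
  have h3 : (jF k).1 = jCyc.getD k.1 0 := rfl
  omega

theorem jF_ne_397 (k : Fin 92) : jF k ≠ 397 := by
  intro h
  have h1 := jlt k
  have h2 : (jF k).1 = 397 := by rw [h]; rfl
  have h3 : (jF k).1 = jCyc.getD k.1 0 := rfl
  omega

/-- The cone over `J` with apex `a`. -/
def Cone (a : Fin 398) : Set (Fin 398 → ℝ) :=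
  {z | (∀ v, 0 ≤ z v) ∧ ∑ v, z v = 1 ∧
    ∃ k : Fin 92, ∀ v, v ≠ a → v ≠ jF k → v ≠ jF (k + 1) → z v = 0}

/-- The parametrization of the two cones. -/
noncomputable def Th (z : Fin 398 → ℝ) : ℝ × (Fin 2 → ℝ) :=
  (z 397 - z 396, ∑ k : Fin 92, z (jF k) • w k)

theorem sum_w (z : Fin 398 → ℝ) (k : Fin 92) (h : ∀ l, l ≠ k → l ≠ k + 1 → z (jF l) = 0) :
    ∑ l : Fin 92, z (jF l) • w l = z (jF k) • w k + z (jF (k + 1)) • w (k + 1) := by
  rw [← Finset.sum_pair (ne_succ k) (f := fun l => z (jF l) • w l)]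
  symm
  apply Finset.sum_subset (Finset.subset_univ _)
  intro l _ hl
  rw [Finset.mem_insert, Finset.mem_singleton, not_or] at hl
  rw [h l hl.1 hl.2, zero_smul]

theorem sum_three (z : Fin 398 → ℝ) (a : Fin 398) (ha : ∀ k, jF k ≠ a) (k : Fin 92)
    (h : ∀ v, v ≠ a → v ≠ jF k → v ≠ jF (k + 1) → z v = 0) :
    ∑ v, z v = z a + (z (jF k) + z (jF (k + 1))) := by
  have h1 : jF k ≠ jF (k + 1) := fun hh => ne_succ k (jF_inj _ _ hh)
  rw [← Finset.sum_pair h1 (f := z), ← Finset.sum_insert (s := {jF k, jF (k + 1)}) (a := a) (f := z)]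
  · symm
    apply Finset.sum_subset (Finset.subset_univ _)
    intro v _ hv
    rw [Finset.mem_insert, Finset.mem_insert, Finset.mem_singleton, not_or, not_or] at hv
    exact h v hv.1 hv.2.1 hv.2.2
  · rw [Finset.mem_insert, Finset.mem_singleton, not_or]
    exact ⟨fun hh => ha k hh.symm, fun hh => ha _ hh.symm⟩

/-- The basic facts about points of the cones. -/
theorem cone_facts (a b : Fin 398) (hab : a ≠ b) (ha : ∀ k, jF k ≠ a) (hb : ∀ k, jF k ≠ b)
    (z : Fin 398 → ℝ) (hz : z ∈ Cone a) :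
    z b = 0 ∧ 0 ≤ z a ∧ z a + ‖(Th z).2‖ = 1 ∧ (∀ v, v ≠ a → (∀ l, v ≠ jF l) → z v = 0) ∧
    ∀ l, z (jF l) = max 0 (‖(Th z).2‖ - 23 / 2 * ‖(Th z).2 - ‖(Th z).2‖ • w l‖) := by
  obtain ⟨h0, h1, k, hk⟩ := hz
  have hl : ∀ l, l ≠ k → l ≠ k + 1 → z (jF l) = 0 := fun l hl hl' =>
    hk _ (ha l) (fun hh => hl (jF_inj _ _ hh)) (fun hh => hl' (jF_inj _ _ hh))
  have h2 : (Th z).2 = z (jF k) • w k + z (jF (k + 1)) • w (k + 1) := sum_w z k hl
  have hn := norm_seg k _ _ (h0 (jF k)) (h0 (jF (k + 1)))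
  rw [← h2] at hn
  have h3 := sum_three z a ha k hk
  refine ⟨hk b hab.symm (hb k).symm (hb (k + 1)).symm, h0 a, by rw [hn, ← h3, h1], ?_, ?_⟩
  · intro v hv hv'
    exact hk v hv (hv' k) (hv' (k + 1))
  · intro l
    rw [hat_seg k l _ _ (h0 _) (h0 _) _ h2]
    split_ifs with h4 h5
    · rw [h4]
    · rw [h5]
    · exact hl l h4 h5

theorem cone_facts0 (z : Fin 398 → ℝ) (hz : z ∈ Cone 396) :
    z 397 = 0 ∧ 0 ≤ z 396 ∧ z 396 + ‖(Th z).2‖ = 1 ∧ (∀ v, v ≠ 396 → (∀ l, v ≠ jF l) → z v = 0) ∧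
    ∀ l, z (jF l) = max 0 (‖(Th z).2‖ - 23 / 2 * ‖(Th z).2 - ‖(Th z).2‖ • w l‖) :=
  cone_facts 396 397 (by decide) jF_ne_396 jF_ne_397 z hz

theorem cone_facts1 (z : Fin 398 → ℝ) (hz : z ∈ Cone 397) :
    z 396 = 0 ∧ 0 ≤ z 397 ∧ z 397 + ‖(Th z).2‖ = 1 ∧ (∀ v, v ≠ 397 → (∀ l, v ≠ jF l) → z v = 0) ∧
    ∀ l, z (jF l) = max 0 (‖(Th z).2‖ - 23 / 2 * ‖(Th z).2 - ‖(Th z).2‖ • w l‖) :=
  cone_facts 397 396 (by decide) jF_ne_397 jF_ne_396 z hz

theorem Th_inj : InjOn Th (Cone 396 ∪ Cone 397) := by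
  have key : ∀ z ∈ Cone 396 ∪ Cone 397, (z 396 = max 0 (-(Th z).1) ∧ z 397 = max 0 (Th z).1) ∧
      (∀ v, v ≠ 396 → v ≠ 397 → (∀ l, v ≠ jF l) → z v = 0) ∧
      ∀ l, z (jF l) = max 0 (‖(Th z).2‖ - 23 / 2 * ‖(Th z).2 - ‖(Th z).2‖ • w l‖) := by
    rintro z (hz | hz)
    · obtain ⟨h1, h2, -, h4, h5⟩ := cone_facts0 z hz
      have hT : (Th z).1 = z 397 - z 396 := rfl
      refine ⟨⟨?_, ?_⟩, fun v hv _ => h4 v hv, h5⟩
      · rw [hT, h1, max_eq_right] <;> linarith
      · rw [hT, h1, max_eq_left]; linarith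
    · obtain ⟨h1, h2, -, h4, h5⟩ := cone_facts1 z hz
      have hT : (Th z).1 = z 397 - z 396 := rfl
      refine ⟨⟨?_, ?_⟩, fun v _ hv => h4 v hv, h5⟩
      · rw [hT, h1, max_eq_left]; linarith
      · rw [hT, h1, max_eq_right] <;> linarith
  intro z hz z' hz' heq
  obtain ⟨⟨a1, a2⟩, a3, a4⟩ := key z hz
  obtain ⟨⟨b1, b2⟩, b3, b4⟩ := key z' hz'
  funext v
  by_cases h396 : v = 396
  · rw [h396, a1, b1, heq]
  by_cases h397 : v = 397
  · rw [h397, a2, b2, heq]
  by_cases hj : ∃ l, v = jF l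
  · obtain ⟨l, rfl⟩ := hj
    rw [a4 l, b4 l, heq]
  · rw [not_exists] at hj
    rw [a3 v h396 h397 hj, b3 v h396 h397 hj]

theorem Th_abs (z : Fin 398 → ℝ) (hz : z ∈ Cone 396 ∪ Cone 397) : |(Th z).1| + ‖(Th z).2‖ = 1 := by
  have hT : (Th z).1 = z 397 - z 396 := rfl
  rcases hz with hz | hz
  · obtain ⟨h1, h2, h3, -, -⟩ := cone_facts0 z hz
    rw [hT, h1, zero_sub, abs_neg, abs_of_nonneg h2, h3]
  · obtain ⟨h1, h2, h3, -, -⟩ := cone_facts1 z hz
    rw [hT, h1, sub_zero, abs_of_nonneg h2, h3]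

/-- A point of a cone with given data. -/
noncomputable def mkPt (a : Fin 398) (k : Fin 92) (γ α β : ℝ) : Fin 398 → ℝ :=
  fun v => if v = a then γ else if v = jF k then α else if v = jF (k + 1) then β else 0

theorem mkPt_mem (a : Fin 398) (ha : ∀ k, jF k ≠ a) (k : Fin 92) (γ α β : ℝ) (hγ : 0 ≤ γ)
    (hα : 0 ≤ α) (hβ : 0 ≤ β) (hs : γ + (α + β) = 1) : mkPt a k γ α β ∈ Cone a ∧
    mkPt a k γ α β a = γ ∧ (Th (mkPt a k γ α β)).2 = α • w k + β • w (k + 1) := by
  have e1 : mkPt a k γ α β a = γ := if_pos rfl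
  have e2 : mkPt a k γ α β (jF k) = α := by
    unfold mkPt
    rw [if_neg (ha k), if_pos rfl]
  have e3 : mkPt a k γ α β (jF (k + 1)) = β := by
    unfold mkPt
    rw [if_neg (ha _), if_neg (fun hh => ne_succ k (jF_inj _ _ hh).symm), if_pos rfl]
  have e4 : ∀ v, v ≠ a → v ≠ jF k → v ≠ jF (k + 1) → mkPt a k γ α β v = 0 := by
    intro v h1 h2 h3
    unfold mkPt
    rw [if_neg h1, if_neg h2, if_neg h3]
  refine ⟨⟨?_, ?_, k, e4⟩, e1, ?_⟩
  · intro v
    unfold mkPt
    split_ifs <;> first | assumption | exact le_refl _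
  · rw [sum_three _ a ha k e4, e1, e2, e3, hs]
  · have := sum_w (mkPt a k γ α β) k (fun l hl hl' =>
      e4 _ (ha l) (fun hh => hl (jF_inj _ _ hh)) (fun hh => hl' (jF_inj _ _ hh)))
    rw [e2, e3] at this
    exact this

theorem exists_repr (q : Fin 2 → ℝ) : ∃ k : Fin 92, ∃ α β : ℝ, 0 ≤ α ∧ 0 ≤ β ∧ α + β = ‖q‖ ∧
    q = α • w k + β • w (k + 1) := by
  by_cases hq : q = 0
  · refine ⟨0, 0, 0, le_refl _, le_refl _, ?_, ?_⟩
    · rw [hq, norm_zero, add_zero]
    · rw [hq, zero_smul, zero_smul, add_zero]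
  · have hpos : 0 < ‖q‖ := norm_pos_iff.2 hq
    set s := ‖q‖ with hs
    obtain ⟨k, t, ht, hk⟩ := exists_seg (fun i => 23 / 2 * (q i / s) + 23 / 2) (by
      intro i
      have h1 : |q i| ≤ s := norm_le_pi_norm q i
      have h2 := abs_le.1 h1
      have h3 : -1 ≤ q i / s := by rw [le_div_iff₀ hpos]; linarith
      have h4 : q i / s ≤ 1 := by rw [div_le_iff₀ hpos]; linarith
      constructor <;> linarith) (by
      have hex : ∃ i, |q i| = s := by
        by_contra hcon
        rw [not_exists] at hcon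
        have : ‖q‖ < s := by
          rw [pi_norm_lt_iff hpos]
          intro i
          exact lt_of_le_of_ne (norm_le_pi_norm q i) (hcon i)
        exact absurd this (lt_irrefl _)
      obtain ⟨i, hi⟩ := hex
      refine ⟨i, ?_⟩
      rcases abs_eq hpos.le |>.1 hi with h | h
      · right
        show 23 / 2 * (q i / s) + 23 / 2 = 23
        rw [h, div_self hpos.ne']; norm_num
      · left
        show 23 / 2 * (q i / s) + 23 / 2 = 0
        rw [h, neg_div, div_self hpos.ne']; norm_num)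
    refine ⟨k, s * (1 - t), s * t, mul_nonneg hpos.le (by linarith [ht.2]),
      mul_nonneg hpos.le ht.1, by ring, ?_⟩
    funext i
    have h5 : 23 / 2 * (q i / s) + 23 / 2 = (1 - t) * (P k i : ℝ) + t * (P (k + 1) i : ℝ) := hk i
    rw [Pi.add_apply, Pi.smul_apply, Pi.smul_apply, smul_eq_mul, smul_eq_mul]
    unfold w
    have h6 : q i = s * (q i / s) := by field_simp
    have h7 : q i / s = ((1 - t) * (P k i : ℝ) + t * (P (k + 1) i : ℝ) - 23 / 2) / (23 / 2) := by
      rw [← h5]; ring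
    rw [h6, h7]
    ring

theorem Th_image : Th '' (Cone 396 ∪ Cone 397) = {z | |z.1| + ‖z.2‖ = 1} := by
  ext p
  constructor
  · rintro ⟨z, hz, rfl⟩
    exact Th_abs z hz
  · intro hp
    have hp' : |p.1| + ‖p.2‖ = 1 := hp
    obtain ⟨k, α, β, hα, hβ, hs, hq⟩ := exists_repr p.2
    rcases le_total 0 p.1 with h | h
    · obtain ⟨h1, h2, h3⟩ := mkPt_mem 397 jF_ne_397 k p.1 α β h hα hβ (by
        rw [hs, ← hp', abs_of_nonneg h])
      refine ⟨_, Or.inr h1, ?_⟩
      refine Prod.ext ?_ (h3.trans hq.symm)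
      have h4 := (cone_facts1 _ h1).1
      show mkPt 397 k p.1 α β 397 - mkPt 397 k p.1 α β 396 = p.1
      rw [h2, h4, sub_zero]
    · obtain ⟨h1, h2, h3⟩ := mkPt_mem 396 jF_ne_396 k (-p.1) α β (by linarith) hα hβ (by
        rw [hs, ← hp', abs_of_nonpos h])
      refine ⟨_, Or.inl h1, ?_⟩
      refine Prod.ext ?_ (h3.trans hq.symm)
      have h4 := (cone_facts0 _ h1).1
      show mkPt 396 k (-p.1) α β 397 - mkPt 396 k (-p.1) α β 396 = p.1
      rw [h2, h4, zero_sub, neg_neg]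

/-! ## Masks -/

theorem testBit_msk (l : List ℕ) (i : ℕ) : (msk l).testBit i = true ↔ i ∈ l := by
  induction l with
  | nil => simp [msk]
  | cons a l ih =>
    have h : msk (a :: l) = (1 <<< a) ||| msk l := rfl
    rw [h, Nat.testBit_or, Bool.or_eq_true, ih, List.mem_cons, Nat.testBit_shiftLeft]
    constructor
    · rintro (h | h)
      · left
        rw [Bool.and_eq_true, decide_eq_true_eq] at h
        have h2 := Nat.testBit_one_eq_true_iff_self_eq_zero.1 h.2
        have h1 := h.1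
        omega
      · exact Or.inr h
    · rintro (h | h)
      · left
        rw [Bool.and_eq_true, decide_eq_true_eq]
        refine ⟨h.ge, ?_⟩
        rw [h, Nat.sub_self]
        rfl
      · exact Or.inr h

theorem mem_vset (n : ℕ) (l : List ℕ) (v : Fin n) : v ∈ vset n (msk l) ↔ (v : ℕ) ∈ l := by
  rw [vset, Finset.mem_filter, testBit_msk]
  exact ⟨fun h => h.2, fun h => ⟨Finset.mem_univ _, h⟩⟩

theorem simplexwise_single (x : Fin 398 → ℝ) :
    simplexwise (fun i : Fin 398 => (Pi.single i (1 : ℝ) : Fin 398 → ℝ)) x = x := by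
  unfold simplexwise
  funext v
  rw [Finset.sum_apply]
  rw [Finset.sum_eq_single v]
  · show x v • (Pi.single v (1 : ℝ) : Fin 398 → ℝ) v = x v
    rw [Pi.single_eq_same, smul_eq_mul, mul_one]
  · intro b _ hb
    show x b • (Pi.single b (1 : ℝ) : Fin 398 → ℝ) v = 0
    rw [Pi.single_eq_of_ne hb.symm, smul_zero]
  · intro h
    exact absurd (Finset.mem_univ v) h

/-- The positions of the vertices. -/
abbrev ps : Fin 398 → (Fin 398 → ℝ) := fun i => Pi.single i (1 : ℝ)

theorem body_ps (S : Set (Finset (Fin 398))) : body ps S = sp S := by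
  rw [body_eq_image]
  ext x
  constructor
  · rintro ⟨y, hy, rfl⟩
    rw [simplexwise_single]
    exact hy
  · intro hx
    exact ⟨x, hx, simplexwise_single x⟩

/-- Membership in the polyhedron of a list of simplices. -/
theorem mem_sp_facets (L : List (List ℕ)) (x : Fin 398 → ℝ) :
    x ∈ sp (facets 398 (L.map msk)) ↔ (∀ v, 0 ≤ x v) ∧ ∑ v, x v = 1 ∧
      ∃ l ∈ L, ∀ v : Fin 398, (v : ℕ) ∉ l → x v = 0 := by
  constructor
  · rintro ⟨h1, h2, s, ⟨m, hm, rfl⟩, h3⟩
    obtain ⟨l, hl, rfl⟩ := List.mem_map.1 hm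
    exact ⟨h1, h2, l, hl, fun v hv => h3 v (fun h => hv ((mem_vset 398 l v).1 h))⟩
  · rintro ⟨h1, h2, l, hl, h3⟩
    exact ⟨h1, h2, vset 398 (msk l), ⟨msk l, List.mem_map.2 ⟨l, hl, rfl⟩, rfl⟩,
      fun v hv => h3 v (fun h => hv ((mem_vset 398 l v).2 h))⟩

theorem jv_eq (k : ℕ) (hk : k < 92) : jv k = (jF ⟨k, hk⟩).1 := by
  unfold jv
  rw [Nat.mod_eq_of_lt hk]
  rfl

theorem jv_succ (k : ℕ) (hk : k < 92) : jv (k + 1) = (jF (⟨k, hk⟩ + 1)).1 := by
  have h : ((⟨k, hk⟩ : Fin 92) + 1).1 = (k + 1) % 92 := rfl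
  show jCyc.getD ((k + 1) % 92) 0 = jCyc.getD ((⟨k, hk⟩ : Fin 92) + 1).1 0
  rw [h]

theorem sp_coneM (a : ℕ) (ha : a < 398) : sp (facets 398 (coneM a)) = Cone ⟨a, ha⟩ := by
  have h : coneM a = ((List.range 92).map fun k => [a, jv k, jv (k + 1)]).map msk := by
    rw [List.map_map]; rfl
  rw [h]
  ext x
  rw [mem_sp_facets]
  refine and_congr_right fun _ => and_congr_right fun _ => ?_
  constructor
  · rintro ⟨l, hl, hx⟩
    obtain ⟨k, hk, rfl⟩ := List.mem_map.1 hl
    have hk' : k < 92 := List.mem_range.1 hk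
    refine ⟨⟨k, hk'⟩, fun v h1 h2 h3 => hx v ?_⟩
    rw [List.mem_cons, List.mem_cons, List.mem_singleton, not_or, not_or, jv_eq k hk', jv_succ k hk']
    exact ⟨fun hh => h1 (Fin.ext hh), fun hh => h2 (Fin.ext hh), fun hh => h3 (Fin.ext hh)⟩
  · rintro ⟨k, hx⟩
    refine ⟨_, List.mem_map.2 ⟨k.1, List.mem_range.2 k.2, rfl⟩, fun v hv => ?_⟩
    rw [List.mem_cons, List.mem_cons, List.mem_singleton, not_or, not_or, jv_eq k.1 k.2,
      jv_succ k.1 k.2] at hv
    exact hx v (fun hh => hv.1 (by rw [hh])) (fun hh => hv.2.1 (by rw [hh]))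
      (fun hh => hv.2.2 (by rw [hh]))

theorem facets_eq (n : ℕ) (S L : List ℕ) (h : eqO (some S) L = true) : facets n S = facets n L := by
  unfold eqO at h
  rw [Bool.and_eq_true, List.all_eq_true, List.all_eq_true] at h
  ext s
  constructor
  · rintro ⟨m, hm, rfl⟩
    have h1 := h.1 m hm
    rw [List.any_eq_true] at h1
    obtain ⟨m', hm', he⟩ := h1
    rw [Nat.eq_of_beq_eq_true he]
    exact ⟨m', hm', rfl⟩
  · rintro ⟨m, hm, rfl⟩
    have h1 := h.2 m hm
    rw [List.any_eq_true] at h1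
    obtain ⟨m', hm', he⟩ := h1
    rw [Nat.eq_of_beq_eq_true he]
    exact ⟨m', hm', rfl⟩

theorem idx_of (bl : List (ℕ × List (List ℕ × List ℕ))) (h : idxOk bl = true) :
    ∀ b ∈ bl, ∀ f ∈ b.2, (∀ i ∈ f.1 ++ f.2, i < 398) ∧ True := by
  intro b hb f hf
  refine ⟨fun i hi => ?_, trivial⟩
  unfold idxOk at h
  rw [List.all_eq_true] at h
  have h1 := h b hb
  rw [List.all_eq_true] at h1
  have h2 := h1 f hf
  rw [List.all_eq_true] at h2
  exact Nat.le_of_ble_eq_true (h2 i hi)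

/-- The homeomorphism which carries `D0`, `D1` to the two cones. -/
theorem exists_e : ∃ e : (Fin 398 → ℝ) ≃ (Fin 398 → ℝ), Continuous e ∧
    e '' sp (facets 398 m0) = Cone 396 ∧ e '' sp (facets 398 m1) = Cone 397 ∧
    ∀ x, x ∈ sp (facets 398 m1) → x ∈ Cone 396 → e x = x := by
  have r0 := run0
  have r1 := run1
  cases h0 : runFlip m1 m0 blocksD0 with
  | none => rw [h0] at r0; exact absurd r0 (by decide)
  | some S0 =>
    rw [h0] at r0
    cases h1 : runFlip (coneM 396) m1 blocksD1 with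
    | none => rw [h1] at r1; exact absurd r1 (by decide)
    | some S1 =>
      rw [h1] at r1
      obtain ⟨e1, he1, hf1, hi1⟩ := runFlip_sound ps (fun _ => True) (sep_single 398)
        (fun _ _ _ _ => trivial) m1 m0 S0 blocksD0 h0 (fun _ _ => trivial) (fun _ _ => trivial)
        (idx_of _ idx0)
      obtain ⟨e2, he2, hf2, hi2⟩ := runFlip_sound ps (fun _ => True) (sep_single 398)
        (fun _ _ _ _ => trivial) (coneM 396) m1 S1 blocksD1 h1 (fun _ _ => trivial)
        (fun _ _ => trivial) (idx_of _ idx1)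
      rw [body_ps] at hf1 hf2
      rw [body_ps, body_ps] at hi1 hi2
      rw [facets_eq 398 S0 _ r0, sp_coneM 396 (by norm_num)] at hi1
      rw [facets_eq 398 S1 _ r1, sp_coneM 397 (by norm_num)] at hi2
      rw [sp_coneM 396 (by norm_num)] at hf2
      refine ⟨e1.trans e2, he2.pl.pl.continuous.comp he1.pl.pl.continuous, ?_, ?_, ?_⟩
      · rw [Equiv.coe_trans, Set.image_comp, hi1]
        ext z
        constructor
        · rintro ⟨y, hy, rfl⟩
          rw [hf2 y hy]; exact hy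
        · intro hz
          exact ⟨z, hz, hf2 z hz⟩
      · rw [Equiv.coe_trans, Set.image_comp]
        have : e1 '' sp (facets 398 m1) = sp (facets 398 m1) := by
          ext z
          constructor
          · rintro ⟨y, hy, rfl⟩
            rw [hf1 y hy]; exact hy
          · intro hz
            exact ⟨z, hz, hf1 z hz⟩
        rw [this, hi2]
        rfl
      · intro x hx hx'
        rw [Equiv.trans_apply, hf1 x hx]
        exact hf2 x hx'

/-! ## The data of `U` -/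

/-- The coordinate `t` of the vertex number `i`. -/
def tN (i : ℕ) : ℤ := (coordList.getD i []).getD 3 0

theorem tU_eq (v : Fin 396) : tU v = tN v.1 := rfl

/-- A triangle lies in `s * t ≥ 0`, and its vertices with `t = 0` lie on an edge of `J`. -/
def triOk (s : ℤ) (l : List ℕ) : Bool :=
  (l.all fun i => Nat.blt i 396 && decide (0 ≤ s * tN i)) &&
    (let l0 := l.filter fun i => decide (tN i = 0)
     l0.isEmpty || (List.range 92).any fun k => l0.all fun i => Nat.beq i (jv k) || Nat.beq i (jv (k + 1)))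

theorem tri0 : (d0Tris.all fun l => triOk (-1) l) = true := by decide +kernel
theorem tri1 : (d1Tris.all fun l => triOk 1 l) = true := by decide +kernel

/-- The edges of `J` lie on triangles. -/
def jOk (L : List (List ℕ)) : Bool :=
  (List.range 92).all fun k => decide (tN (jv k) = 0) && L.any fun l => l.any (Nat.beq (jv k)) && l.any (Nat.beq (jv (k + 1)))

theorem j1 : jOk d1Tris = true := by decide +kernel

theorem tri_lt {s : ℤ} {l : List ℕ} (h : triOk s l = true) : ∀ i ∈ l, i < 396 ∧ 0 ≤ s * tN i := by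
  intro i hi
  unfold triOk at h
  rw [Bool.and_eq_true, List.all_eq_true] at h
  have h1 := h.1 i hi
  rw [Bool.and_eq_true, decide_eq_true_eq] at h1
  exact ⟨Nat.le_of_ble_eq_true h1.1, h1.2⟩

theorem tri_edge {s : ℤ} {l : List ℕ} (h : triOk s l = true) : (∀ i ∈ l, tN i ≠ 0) ∨
    ∃ k : Fin 92, ∀ i ∈ l, tN i = 0 → i = (jF k).1 ∨ i = (jF (k + 1)).1 := by
  unfold triOk at h
  rw [Bool.and_eq_true, Bool.or_eq_true] at h
  rcases h.2 with h2 | h2
  · left
    intro i hi h0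
    rw [List.isEmpty_iff, List.filter_eq_nil_iff] at h2
    exact h2 i hi (decide_eq_true h0)
  · right
    rw [List.any_eq_true] at h2
    obtain ⟨k, hk, h3⟩ := h2
    have hk' : k < 92 := List.mem_range.1 hk
    refine ⟨⟨k, hk'⟩, fun i hi h0 => ?_⟩
    rw [List.all_eq_true] at h3
    have h4 := h3 i (List.mem_filter.2 ⟨hi, decide_eq_true h0⟩)
    rw [Bool.or_eq_true] at h4
    rcases h4 with h4 | h4
    · left
      rw [Nat.eq_of_beq_eq_true h4, jv_eq k hk']
    · right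
      rw [Nat.eq_of_beq_eq_true h4, jv_succ k hk']

theorem j_facts (k : Fin 92) : tN (jF k).1 = 0 ∧
    ∃ l ∈ d1Tris, (jF k).1 ∈ l ∧ (jF (k + 1)).1 ∈ l := by
  have h := j1
  unfold jOk at h
  rw [List.all_eq_true] at h
  have h1 := h k.1 (List.mem_range.2 k.2)
  rw [Bool.and_eq_true, decide_eq_true_eq, List.any_eq_true, jv_eq k.1 k.2, jv_succ k.1 k.2] at h1
  obtain ⟨h2, l, hl, h3⟩ := h1
  rw [Bool.and_eq_true, List.any_eq_true, List.any_eq_true] at h3
  obtain ⟨⟨a, ha, ha'⟩, ⟨b, hb, hb'⟩⟩ := h3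
  refine ⟨h2, l, hl, ?_, ?_⟩
  · rw [← Nat.eq_of_beq_eq_true ha'] at ha; exact ha
  · rw [← Nat.eq_of_beq_eq_true hb'] at hb; exact hb

/-- The polyhedron of `J`. -/
def Jset : Set (Fin 398 → ℝ) :=
  {z | (∀ v, 0 ≤ z v) ∧ ∑ v, z v = 1 ∧ ∃ k : Fin 92, ∀ v, v ≠ jF k → v ≠ jF (k + 1) → z v = 0}

theorem Jset_sub_m1 {z : Fin 398 → ℝ} (hz : z ∈ Jset) : z ∈ sp (facets 398 m1) := by
  obtain ⟨h0, h1, k, hk⟩ := hz
  obtain ⟨-, l, hl, ha, hb⟩ := j_facts k
  refine (mem_sp_facets d1Tris z).2 ⟨h0, h1, l, hl, fun v hv => hk v ?_ ?_⟩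
  · rintro rfl; exact hv ha
  · rintro rfl; exact hv hb

theorem Jset_sub_cone {z : Fin 398 → ℝ} (hz : z ∈ Jset) (a : Fin 398) : z ∈ Cone a := by
  obtain ⟨h0, h1, k, hk⟩ := hz
  exact ⟨h0, h1, k, fun v _ => hk v⟩

theorem mem_Jset_of_cone {z : Fin 398 → ℝ} {a : Fin 398} (hz : z ∈ Cone a) (ha : z a = 0) :
    z ∈ Jset := by
  obtain ⟨h0, h1, k, hk⟩ := hz
  refine ⟨h0, h1, k, fun v h2 h3 => ?_⟩
  by_cases hv : v = a
  · rw [hv, ha]
  · exact hk v hv h2 h3

/-- Extension by zero. -/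
def ext0 (x : Fin 396 → ℝ) : Fin 398 → ℝ := fun v => if h : v.1 < 396 then x ⟨v.1, h⟩ else 0

theorem ext0_apply (x : Fin 396 → ℝ) (v : Fin 398) (h : v.1 < 396) : ext0 x v = x ⟨v.1, h⟩ :=
  dif_pos h

theorem ext0_zero (x : Fin 396 → ℝ) (v : Fin 398) (h : ¬ v.1 < 396) : ext0 x v = 0 := dif_neg h

/-- The vertex as a vertex of the larger set. -/
def up (v : Fin 396) : Fin 398 := ⟨v.1, lt_trans v.2 (by norm_num)⟩

theorem ext0_up (x : Fin 396 → ℝ) (v : Fin 396) : ext0 x (up v) = x v := dif_pos v.2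

theorem sum_ext0 (x : Fin 396 → ℝ) : ∑ v, ext0 x v = ∑ v, x v := by
  have h1 : ∑ v, ext0 x v = ∑ v : Fin 397, ext0 x (Fin.castSucc v) + ext0 x (Fin.last 397) :=
    Fin.sum_univ_castSucc (n := 397) (ext0 x)
  have h2 : ∑ v : Fin 397, ext0 x (Fin.castSucc v) =
      ∑ v : Fin 396, ext0 x (Fin.castSucc (Fin.castSucc v)) +
        ext0 x (Fin.castSucc (Fin.last 396)) :=
    Fin.sum_univ_castSucc (n := 396) (fun v => ext0 x (Fin.castSucc v))
  rw [h1, h2, ext0_zero x _ (by decide), ext0_zero x _ (by decide), add_zero, add_zero]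
  exact Finset.sum_congr rfl fun v _ => dif_pos v.2

theorem ext0_inj {x y : Fin 396 → ℝ} (h : ext0 x = ext0 y) : x = y := by
  funext v
  rw [← ext0_up x v, h, ext0_up]

theorem continuous_ext0 : Continuous ext0 := by
  apply continuous_pi
  intro v
  by_cases h : v.1 < 396
  · have : (fun x => ext0 x v) = fun x : Fin 396 → ℝ => x ⟨v.1, h⟩ := by
      funext x; exact ext0_apply x v h
    rw [this]
    exact continuous_apply _
  · have : (fun x => ext0 x v) = fun x : Fin 396 → ℝ => 0 := by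
      funext x; exact ext0_zero x v h
    rw [this]
    exact continuous_const

theorem mem_KU (x : Fin 396 → ℝ) : x ∈ KU.space ↔ (∀ v, 0 ≤ x v) ∧ ∑ v, x v = 1 ∧
    ∃ l, (l ∈ d0Tris ∨ l ∈ d1Tris) ∧ ∀ v : Fin 396, v.1 ∉ l → x v = 0 := by
  constructor
  · rintro ⟨h0, h1, s, ⟨hne, t, ⟨m, hm, rfl⟩, hst⟩, hs⟩
    refine ⟨h0, h1, ?_⟩
    rcases List.mem_append.1 hm with hm | hm
    · obtain ⟨l, hl, rfl⟩ := List.mem_map.1 hm
      exact ⟨l, Or.inl hl, fun v hv => hs v fun hvs => hv ((mem_vset _ _ _).1 (hst hvs))⟩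
    · obtain ⟨l, hl, rfl⟩ := List.mem_map.1 hm
      exact ⟨l, Or.inr hl, fun v hv => hs v fun hvs => hv ((mem_vset _ _ _).1 (hst hvs))⟩
  · rintro ⟨h0, h1, l, hl, hs⟩
    refine ⟨h0, h1, vset 396 (msk l), ⟨?_, vset 396 (msk l), ⟨msk l, ?_, rfl⟩, subset_refl _⟩, ?_⟩
    · by_contra hne
      rw [Finset.not_nonempty_iff_eq_empty] at hne
      have : ∑ v, x v = 0 := Finset.sum_eq_zero fun v _ => hs v fun hv => by
        have := (mem_vset 396 l v).2 hv
        rw [hne] at this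
        exact absurd this (Finset.notMem_empty _)
      rw [h1] at this
      exact one_ne_zero this
    · rcases hl with hl | hl
      · exact List.mem_append.2 (Or.inl (List.mem_map.2 ⟨l, hl, rfl⟩))
      · exact List.mem_append.2 (Or.inr (List.mem_map.2 ⟨l, hl, rfl⟩))
    · intro v hv
      exact hs v fun h => hv ((mem_vset 396 l v).2 h)

theorem ext0_nonneg {x : Fin 396 → ℝ} (h : ∀ v, 0 ≤ x v) (v : Fin 398) : 0 ≤ ext0 x v := by
  unfold ext0
  split_ifs
  · exact h _
  · exact le_refl _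

theorem ext0_mem (L : List (List ℕ)) (x : Fin 396 → ℝ) (h0 : ∀ v, 0 ≤ x v) (h1 : ∑ v, x v = 1)
    (l : List ℕ) (hl : l ∈ L) (hx : ∀ v : Fin 396, v.1 ∉ l → x v = 0) :
    ext0 x ∈ sp (facets 398 (L.map msk)) := by
  refine (mem_sp_facets L _).2 ⟨ext0_nonneg h0, by rw [sum_ext0, h1], l, hl, fun v hv => ?_⟩
  by_cases h : v.1 < 396
  · rw [ext0_apply x v h]
    exact hx _ hv
  · exact ext0_zero x v h

theorem of_mem_sp (L : List (List ℕ)) (s : ℤ) (hL : (L.all fun l => triOk s l) = true)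
    (z : Fin 398 → ℝ) (hz : z ∈ sp (facets 398 (L.map msk))) :
    ∃ x : Fin 396 → ℝ, z = ext0 x ∧ (∀ v, 0 ≤ x v) ∧ ∑ v, x v = 1 ∧
      ∃ l ∈ L, ∀ v : Fin 396, v.1 ∉ l → x v = 0 := by
  obtain ⟨h0, h1, l, hl, hz'⟩ := (mem_sp_facets L z).1 hz
  rw [List.all_eq_true] at hL
  have hlt := tri_lt (hL l hl)
  have he : z = ext0 fun v => z (up v) := by
    funext v
    by_cases h : v.1 < 396
    · rw [ext0_apply _ v h]; rfl
    · rw [ext0_zero _ v h]
      exact hz' v fun hv => h (hlt v.1 hv).1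
  refine ⟨fun v => z (up v), he, fun v => h0 _, ?_, l, hl, fun v hv => hz' _ hv⟩
  rw [← sum_ext0, ← he, h1]

/-- The facts on the height `t`. -/
theorem tLin_facts (L : List (List ℕ)) (s : ℤ) (hs : s = 1 ∨ s = -1)
    (hL : (L.all fun l => triOk s l) = true) (x : Fin 396 → ℝ) (h0 : ∀ v, 0 ≤ x v)
    (h1 : ∑ v, x v = 1) (l : List ℕ) (hl : l ∈ L) (hx : ∀ v : Fin 396, v.1 ∉ l → x v = 0) :
    0 ≤ (s : ℝ) * tLin tU x ∧ (tLin tU x = 0 → (∀ v, x v ≠ 0 → tU v = 0) ∧ ext0 x ∈ Jset) ∧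
    ∀ v, x v ≠ 0 → 0 ≤ s * tU v := by
  rw [List.all_eq_true] at hL
  have hlt := tri_lt (hL l hl)
  have hterm : ∀ v, x v ≠ 0 → 0 ≤ s * tU v := by
    intro v hv
    have hv' : v.1 ∈ l := by
      by_contra hc
      exact hv (hx v hc)
    exact (hlt v.1 hv').2
  have hsum : (s : ℝ) * tLin tU x = ∑ v, x v * ((s * tU v : ℤ) : ℝ) := by
    unfold tLin
    rw [Finset.mul_sum]
    refine Finset.sum_congr rfl fun v _ => ?_
    push_cast
    ring
  have hnn : ∀ v ∈ Finset.univ, 0 ≤ x v * ((s * tU v : ℤ) : ℝ) := by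
    intro v _
    by_cases hv : x v = 0
    · rw [hv, zero_mul]
    · exact mul_nonneg (h0 v) (by exact_mod_cast hterm v hv)
  refine ⟨by rw [hsum]; exact Finset.sum_nonneg hnn, ?_, hterm⟩
  intro ht
  rw [ht, mul_zero] at hsum
  have hz := (Finset.sum_eq_zero_iff_of_nonneg hnn).1 hsum.symm
  have ht0 : ∀ v, x v ≠ 0 → tU v = 0 := by
    intro v hv
    have h2 := hz v (Finset.mem_univ v)
    have h3 : ((s * tU v : ℤ) : ℝ) = 0 := (mul_eq_zero.1 h2).resolve_left hv
    have h4 : s * tU v = 0 := by exact_mod_cast h3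
    rcases hs with rfl | rfl <;> omega
  refine ⟨ht0, ext0_nonneg h0, by rw [sum_ext0, h1], ?_⟩
  rcases tri_edge (hL l hl) with hne | ⟨k, hk⟩
  · exfalso
    have : ∑ v, x v = 0 := Finset.sum_eq_zero fun v _ => by
      by_contra hv
      have hv' : v.1 ∈ l := by
        by_contra hc
        exact hv (hx v hc)
      exact hne v.1 hv' (ht0 v hv)
    rw [h1] at this
    exact one_ne_zero this
  · refine ⟨k, fun v h2 h3 => ?_⟩
    by_cases h : v.1 < 396
    · rw [ext0_apply x v h]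
      by_contra hv
      have hv' : v.1 ∈ l := by
        by_contra hc
        exact hv (hx ⟨v.1, h⟩ hc)
      rcases hk v.1 hv' (ht0 _ hv) with h4 | h4
      · exact h2 (Fin.ext h4)
      · exact h3 (Fin.ext h4)
    · exact ext0_zero x v h

theorem tLin_of_Jset (x : Fin 396 → ℝ) (hx : ext0 x ∈ Jset) : tLin tU x = 0 := by
  obtain ⟨-, -, k, hk⟩ := hx
  unfold tLin
  refine Finset.sum_eq_zero fun v _ => ?_
  by_cases hv : x v = 0
  · rw [hv, zero_mul]
  · have : up v = jF k ∨ up v = jF (k + 1) := by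
      by_contra hc
      rw [not_or] at hc
      have := hk (up v) hc.1 hc.2
      rw [ext0_up] at this
      exact hv this
    have h2 : tU v = 0 := by
      rw [tU_eq]
      rcases this with h | h
      · have h3 := (j_facts k).1
        rw [← h] at h3
        exact h3
      · have h3 := (j_facts (k + 1)).1
        rw [← h] at h3
        exact h3
    rw [h2, Int.cast_zero, mul_zero]

end Pool.Agent.PolyKnots.BE06

namespace Pool.Agent.PolyKnots
open BE06

theorem exists_disc_param : ∃ θ : (Fin 396 → ℝ) → ℝ × (Fin 2 → ℝ), ContinuousOn θ KU.space ∧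
    InjOn θ KU.space ∧ θ '' KU.space = {z | |z.1| + ‖z.2‖ = 1} ∧
    ∀ x ∈ KU.space, (0 < (θ x).1 ↔ 0 < tLin tU x) ∧ ((θ x).1 < 0 ↔ tLin tU x < 0) := by
  obtain ⟨e, hec, he0, he1, hef⟩ := exists_e
  have himg : ext0 '' KU.space = sp (facets 398 m0) ∪ sp (facets 398 m1) := by
    ext z
    constructor
    · rintro ⟨x, hx, rfl⟩
      obtain ⟨h0, h1, l, hl | hl, hx'⟩ := (mem_KU x).1 hx
      · exact Or.inl (ext0_mem d0Tris x h0 h1 l hl hx')
      · exact Or.inr (ext0_mem d1Tris x h0 h1 l hl hx')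
    · rintro (hz | hz)
      · obtain ⟨x, rfl, h0, h1, l, hl, hx⟩ := of_mem_sp d0Tris (-1) tri0 z hz
        exact ⟨x, (mem_KU x).2 ⟨h0, h1, l, Or.inl hl, hx⟩, rfl⟩
      · obtain ⟨x, rfl, h0, h1, l, hl, hx⟩ := of_mem_sp d1Tris 1 tri1 z hz
        exact ⟨x, (mem_KU x).2 ⟨h0, h1, l, Or.inr hl, hx⟩, rfl⟩
  have hThc : Continuous Th := by
    unfold Th
    fun_prop
  have hJ : ∀ x : Fin 396 → ℝ, e (ext0 x) ∈ Jset → tLin tU x = 0 := by
    intro x hx
    have h1 := hef _ (Jset_sub_m1 hx) (Jset_sub_cone hx _)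
    have h2 := e.injective h1
    rw [h2] at hx
    exact tLin_of_Jset x hx
  have hJ' : ∀ x : Fin 396 → ℝ, ext0 x ∈ Jset → e (ext0 x) = ext0 x := fun x hx =>
    hef _ (Jset_sub_m1 hx) (Jset_sub_cone hx _)
  refine ⟨fun x => Th (e (ext0 x)), ?_, ?_, ?_, ?_⟩
  · exact (hThc.comp (hec.comp continuous_ext0)).continuousOn
  · intro x hx y hy hxy
    have mem : ∀ x ∈ KU.space, e (ext0 x) ∈ Cone 396 ∪ Cone 397 := by
      intro x hx
      have h1 : ext0 x ∈ sp (facets 398 m0) ∪ sp (facets 398 m1) := by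
        rw [← himg]; exact ⟨x, hx, rfl⟩
      rcases h1 with h1 | h1
      · left; rw [← he0]; exact ⟨_, h1, rfl⟩
      · right; rw [← he1]; exact ⟨_, h1, rfl⟩
    exact ext0_inj (e.injective (Th_inj (mem x hx) (mem y hy) hxy))
  · have h1 : (fun x => Th (e (ext0 x))) '' KU.space = Th '' (e '' (ext0 '' KU.space)) := by
      rw [Set.image_image, Set.image_image]
    rw [h1, himg, Set.image_union, he0, he1, Th_image]
  · intro x hx
    obtain ⟨h0, h1, l, hl | hl, hx'⟩ := (mem_KU x).1 hx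
    · have hc : e (ext0 x) ∈ Cone 396 := by
        rw [← he0]; exact ⟨_, ext0_mem d0Tris x h0 h1 l hl hx', rfl⟩
      obtain ⟨f1, f2, -, -, -⟩ := cone_facts0 _ hc
      obtain ⟨g1, g2, -⟩ := tLin_facts d0Tris (-1) (Or.inr rfl) tri0 x h0 h1 l hl hx'
      have hT : (Th (e (ext0 x))).1 = - e (ext0 x) 396 := by
        show e (ext0 x) 397 - e (ext0 x) 396 = _
        rw [f1, zero_sub]
      have g1' : tLin tU x ≤ 0 := by
        push_cast at g1
        linarith
      have hiff : e (ext0 x) 396 = 0 ↔ tLin tU x = 0 := by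
        constructor
        · intro h
          exact hJ x (mem_Jset_of_cone hc h)
        · intro h
          rw [hJ' x (g2 h).2]
          exact ext0_zero x _ (by decide)
      show (0 < (Th (e (ext0 x))).1 ↔ 0 < tLin tU x) ∧ ((Th (e (ext0 x))).1 < 0 ↔ tLin tU x < 0)
      rw [hT]
      constructor
      · constructor
        · intro h; linarith
        · intro h; linarith
      · constructor
        · intro h
          refine lt_of_le_of_ne g1' fun hh => ?_
          have := hiff.2 hh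
          linarith
        · intro h
          have : e (ext0 x) 396 ≠ 0 := fun hh => by
            have := hiff.1 hh
            linarith
          have := lt_of_le_of_ne f2 this.symm
          linarith
    · have hc : e (ext0 x) ∈ Cone 397 := by
        rw [← he1]; exact ⟨_, ext0_mem d1Tris x h0 h1 l hl hx', rfl⟩
      obtain ⟨f1, f2, -, -, -⟩ := cone_facts1 _ hc
      obtain ⟨g1, g2, -⟩ := tLin_facts d1Tris 1 (Or.inl rfl) tri1 x h0 h1 l hl hx'
      have hT : (Th (e (ext0 x))).1 = e (ext0 x) 397 := by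
        show e (ext0 x) 397 - e (ext0 x) 396 = _
        rw [f1, sub_zero]
      have g1' : 0 ≤ tLin tU x := by
        push_cast at g1
        linarith
      have hiff : e (ext0 x) 397 = 0 ↔ tLin tU x = 0 := by
        constructor
        · intro h
          exact hJ x (mem_Jset_of_cone hc h)
        · intro h
          rw [hJ' x (g2 h).2]
          exact ext0_zero x _ (by decide)
      show (0 < (Th (e (ext0 x))).1 ↔ 0 < tLin tU x) ∧ ((Th (e (ext0 x))).1 < 0 ↔ tLin tU x < 0)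
      rw [hT]
      constructor
      · constructor
        · intro h
          refine lt_of_le_of_ne g1' fun hh => ?_
          have := hiff.2 hh.symm
          linarith
        · intro h
          have : e (ext0 x) 397 ≠ 0 := fun hh => by
            have := hiff.1 hh
            linarith
          exact lt_of_le_of_ne f2 this.symm
      · constructor
        · intro h; linarith
        · intro h; linarith

namespace BE06

theorem sp_fullSub (s : ℤ) (hs : s = 1 ∨ s = -1) (x : Fin 396 → ℝ) :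
    x ∈ sp (fullSub KU.faces fun v => 0 ≤ s * tU v) ↔ x ∈ KU.space ∧ 0 ≤ (s : ℝ) * tLin tU x := by
  constructor
  · rintro ⟨h0, h1, σ, ⟨hσ, hσ'⟩, hx⟩
    refine ⟨⟨h0, h1, σ, hσ, hx⟩, ?_⟩
    unfold tLin
    rw [Finset.mul_sum]
    refine Finset.sum_nonneg fun v _ => ?_
    by_cases hv : v ∈ σ
    · have h2 : (0 : ℝ) ≤ ((s * tU v : ℤ) : ℝ) := by exact_mod_cast hσ' v hv
      have h3 : (s : ℝ) * (x v * (tU v : ℝ)) = x v * ((s * tU v : ℤ) : ℝ) := by push_cast; ring
      rw [h3]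
      exact mul_nonneg (h0 v) h2
    · rw [hx v hv, zero_mul, mul_zero]
  · rintro ⟨hx, ht⟩
    have hsupp : ∀ v, x v ≠ 0 → 0 ≤ s * tU v := by
      obtain ⟨h0, h1, l, hl | hl, hx'⟩ := (mem_KU x).1 hx
      · obtain ⟨g1, g2, g3⟩ := tLin_facts d0Tris (-1) (Or.inr rfl) tri0 x h0 h1 l hl hx'
        rcases hs with rfl | rfl
        · have : tLin tU x = 0 := by
            push_cast at g1 ht
            linarith
          intro v hv
          rw [(g2 this).1 v hv, mul_zero]
        · exact g3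
      · obtain ⟨g1, g2, g3⟩ := tLin_facts d1Tris 1 (Or.inl rfl) tri1 x h0 h1 l hl hx'
        rcases hs with rfl | rfl
        · exact g3
        · have : tLin tU x = 0 := by
            push_cast at g1 ht
            linarith
          intro v hv
          rw [(g2 this).1 v hv, mul_zero]
    obtain ⟨h0, h1, σ, hσ, hx'⟩ := hx
    refine ⟨h0, h1, Finset.univ.filter fun v => x v ≠ 0, ⟨KU.down_closed σ hσ _ ?_ ?_, ?_⟩, ?_⟩
    · intro v hv
      rw [Finset.mem_filter] at hv
      by_contra hc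
      exact hv.2 (hx' v hc)
    · by_contra hne
      rw [Finset.not_nonempty_iff_eq_empty, Finset.filter_eq_empty_iff] at hne
      have : ∑ v, x v = 0 := Finset.sum_eq_zero fun v _ => by
        by_contra hv
        exact hne (Finset.mem_univ v) hv
      rw [h1] at this
      exact one_ne_zero this
    · intro v hv
      rw [Finset.mem_filter] at hv
      exact hsupp v hv.2
    · intro v hv
      by_contra hc
      exact hv (Finset.mem_filter.2 ⟨Finset.mem_univ _, hc⟩)

theorem isCompact_sp {V : Type} [Fintype V] (S : Set (Finset V)) : IsCompact (sp S) := by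
  have h : sp S = stdSimplex ℝ V ∩ ⋃ s ∈ S, {x : V → ℝ | ∀ v, v ∉ s → x v = 0} := by
    ext x
    constructor
    · rintro ⟨h0, h1, s, hs, hx⟩
      exact ⟨⟨h0, h1⟩, Set.mem_iUnion₂.2 ⟨s, hs, hx⟩⟩
    · rintro ⟨⟨h0, h1⟩, hx⟩
      obtain ⟨s, hs, hx⟩ := Set.mem_iUnion₂.1 hx
      exact ⟨h0, h1, s, hs, hx⟩
  rw [h]
  apply (isCompact_stdSimplex (𝕜 := ℝ) V).inter_right
  refine (Set.toFinite S).isClosed_biUnion fun s _ => ?_
  have : {x : V → ℝ | ∀ v, v ∉ s → x v = 0} = ⋂ v, ⋂ (_ : v ∉ s), {x | x v = 0} := by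
    ext x
    simp
  rw [this]
  refine isClosed_iInter fun v => isClosed_iInter fun _ => ?_
  exact isClosed_eq (continuous_apply v) continuous_const

theorem contractible_half (s : ℤ) (hs : s = 1 ∨ s = -1) :
    ContractibleSpace (sp (fullSub KU.faces fun v => 0 ≤ s * tU v)) := by
  obtain ⟨θ, hc, hi, him, hsg⟩ := exists_disc_param
  set X := sp (fullSub KU.faces fun v => 0 ≤ s * tU v) with hX
  have hXK : ∀ x ∈ X, x ∈ KU.space := fun x hx => ((sp_fullSub s hs x).1 hx).1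
  have hθ : ∀ x ∈ KU.space, |(θ x).1| + ‖(θ x).2‖ = 1 := by
    intro x hx
    have : θ x ∈ θ '' KU.space := ⟨x, hx, rfl⟩
    rw [him] at this
    exact this
  have hsθ : ∀ x ∈ KU.space, (x ∈ X ↔ 0 ≤ (s : ℝ) * (θ x).1) := by
    intro x hx
    rw [hX, sp_fullSub s hs x]
    obtain ⟨g1, g2⟩ := hsg x hx
    rcases hs with rfl | rfl
    · push_cast
      rw [one_mul, one_mul]
      constructor
      · rintro ⟨-, h⟩
        by_contra hcon
        rw [not_le] at hcon
        have := g2.1 hcon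
        linarith
      · intro h
        refine ⟨hx, ?_⟩
        by_contra hcon
        rw [not_le] at hcon
        have := g2.2 hcon
        linarith
    · push_cast
      constructor
      · rintro ⟨-, h⟩
        by_contra hcon
        rw [not_le] at hcon
        have := g1.1 (by linarith)
        linarith
      · intro h
        refine ⟨hx, ?_⟩
        by_contra hcon
        rw [not_le] at hcon
        have := g1.2 (by linarith)
        linarith
  have hD : ∀ x : X, (θ x.1).2 ∈ Metric.closedBall (0 : Fin 2 → ℝ) 1 := by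
    intro x
    rw [mem_closedBall_zero_iff]
    have := hθ x.1 (hXK x.1 x.2)
    have h2 := abs_nonneg (θ x.1).1
    linarith
  let f : X → Metric.closedBall (0 : Fin 2 → ℝ) 1 := fun x => ⟨(θ x.1).2, hD x⟩
  have hfc : Continuous f := by
    apply Continuous.subtype_mk
    have : Continuous fun x : X => θ x.1 := by
      have := (hc.mono (fun x hx => hXK x hx : X ⊆ KU.space)).domRestrict
      exact this
    exact continuous_snd.comp this
  have hfst : ∀ x ∈ X, (θ x).1 = s * (1 - ‖(θ x).2‖) := by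
    intro x hx
    have h1 := hθ x (hXK x hx)
    have h2 := (hsθ x (hXK x hx)).1 hx
    rcases hs with rfl | rfl
    · push_cast at h2 ⊢
      rw [one_mul] at h2 ⊢
      rw [abs_of_nonneg h2] at h1
      linarith
    · push_cast at h2 ⊢
      rw [abs_of_nonpos (by linarith)] at h1
      linarith
  have hbij : Function.Bijective f := by
    constructor
    · intro x y hxy
      have h1 : (θ x.1).2 = (θ y.1).2 := congrArg Subtype.val hxy
      apply Subtype.ext
      apply hi (hXK _ x.2) (hXK _ y.2)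
      refine Prod.ext ?_ h1
      rw [hfst x.1 x.2, hfst y.1 y.2, h1]
    · rintro ⟨q, hq⟩
      rw [mem_closedBall_zero_iff] at hq
      have h1 : ((s * (1 - ‖q‖), q) : ℝ × (Fin 2 → ℝ)) ∈ θ '' KU.space := by
        rw [him]
        show |(s : ℝ) * (1 - ‖q‖)| + ‖q‖ = 1
        have h2 : |(s : ℝ)| = 1 := by
          rcases hs with rfl | rfl <;> simp
        rw [abs_mul, h2, one_mul, abs_of_nonneg (by linarith)]
        ring
      obtain ⟨x, hx, hxq⟩ := h1
      have h2 : x ∈ X := by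
        rw [hsθ x hx, hxq]
        show 0 ≤ (s : ℝ) * (s * (1 - ‖q‖))
        rw [← mul_assoc]
        exact mul_nonneg (mul_self_nonneg _) (by linarith)
      refine ⟨⟨x, h2⟩, Subtype.ext ?_⟩
      show (θ x).2 = q
      rw [hxq]
  have : CompactSpace X := isCompact_iff_compactSpace.1 (isCompact_sp _)
  let E : X ≃ Metric.closedBall (0 : Fin 2 → ℝ) 1 := Equiv.ofBijective f hbij
  have hE : Continuous E := hfc
  let H : X ≃ₜ Metric.closedBall (0 : Fin 2 → ℝ) 1 := Continuous.homeoOfEquivCompactToT2 (f := E) hE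
  have : ContractibleSpace (Metric.closedBall (0 : Fin 2 → ℝ) 1) :=
    (convex_closedBall (0 : Fin 2 → ℝ) 1).contractibleSpace
      ⟨0, Metric.mem_closedBall_self zero_le_one⟩
  exact H.contractibleSpace

end BE06

theorem contractible_D1 : ContractibleSpace (sp (fullSub KU.faces fun v => 0 ≤ tU v)) := by
  have h := contractible_half 1 (Or.inl rfl)
  have e : (fun v : Fin 396 => 0 ≤ 1 * tU v) = fun v => 0 ≤ tU v := by
    funext v
    rw [one_mul]
  rw [e] at h
  exact h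

theorem contractible_D0 : ContractibleSpace (sp (fullSub KU.faces fun v => tU v ≤ 0)) := by
  have h := contractible_half (-1) (Or.inr rfl)
  have e : (fun v : Fin 396 => 0 ≤ -1 * tU v) = fun v => tU v ≤ 0 := by
    funext v
    rw [neg_one_mul, neg_nonneg]
  rw [e] at h
  exact h

end Pool.Agent.PolyKnots
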