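import Pool.Agent.W_MP_be6f00_gt.DataLinks1
import Pool.Agent.W_MP_be6f00_gt.Discs

set_option autoImplicit false

/-! Module BE07 of MP_be6f00_gt: contractibility of the pieces of `D0` (`contractible_P0` is in
DataLinks1). -/

open scoped ENNReal Topology
open Set

namespace Pool.Agent.PolyKnots

theorem contractible_D0int : ContractibleSpace (sp (fullSub KU.faces fun v => tU v < 0)) :=
  BE07.contractible_D0int_of contractible_D0

end Pool.Agent.PolyKnots
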