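import Pool.Agent.W_MP_be6f00_gt.Model

set_option autoImplicit false

/-! Module BE07 of MP_be6f00_gt, part 1: finite checks on the triangulation of `D0`. -/

open scoped ENNReal Topology
open Set

namespace Pool.Agent.PolyKnots

namespace BE07

theorem testBit_msk (l : List ℕ) (k : ℕ) : (msk l).testBit k = decide (k ∈ l) := by
  induction l with
  | nil => simp [msk]
  | cons i l ih =>
    have h : msk (i :: l) = Nat.shiftLeft 1 i ||| msk l := rfl
    rw [h, Nat.testBit_or, ih]
    have h2 : Nat.shiftLeft 1 i = 2 ^ i := by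
      have := Nat.one_shiftLeft i
      exact this
    rw [h2, Nat.testBit_two_pow]
    by_cases hki : i = k
    · subst hki; simp
    · have hki' : k ≠ i := fun h => hki h.symm
      simp [hki, hki']

theorem mem_vset (n : ℕ) (l : List ℕ) (v : Fin n) : v ∈ vset n (msk l) ↔ (v : ℕ) ∈ l := by
  rw [vset, Finset.mem_filter]
  constructor
  · rintro ⟨_, h⟩
    rw [testBit_msk] at h
    exact of_decide_eq_true h
  · intro h
    refine ⟨Finset.mem_univ _, ?_⟩
    rw [testBit_msk]
    exact decide_eq_true h

theorem subM_iff (a b : List ℕ) : subM (msk a) (msk b) = true ↔ ∀ v ∈ a, v ∈ b := by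
  have hT : ∀ v, (Nat.land (msk a) (msk b)).testBit v = (decide (v ∈ a) && decide (v ∈ b)) := by
    intro v
    have h : Nat.land (msk a) (msk b) = msk a &&& msk b := rfl
    rw [h, Nat.testBit_and, testBit_msk, testBit_msk]
  constructor
  · intro h v hv
    have h1 : Nat.land (msk a) (msk b) = msk a := Nat.eq_of_beq_eq_true h
    have h2 := hT v
    rw [h1, testBit_msk] at h2
    simpa [hv] using h2
  · intro h
    have h1 : Nat.land (msk a) (msk b) = msk a := by
      refine Nat.eq_of_testBit_eq fun v => ?_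
      rw [hT, testBit_msk]
      by_cases hv : v ∈ a
      · simp [hv, h v hv]
      · simp [hv]
    show Nat.beq (Nat.land (msk a) (msk b)) (msk a) = true
    rw [h1]
    exact Nat.beq_refl _

theorem exists_of_any (a : List ℕ) (h : m0.any (subM (msk a)) = true) :
    ∃ l ∈ d0Tris, ∀ v ∈ a, v ∈ l := by
  obtain ⟨m, hm, h⟩ := List.any_eq_true.1 h
  obtain ⟨l, hl, rfl⟩ := List.mem_map.1 hm
  exact ⟨l, hl, (subM_iff a l).1 h⟩

theorem mem_faces (s : Finset (Fin 396)) : s ∈ KU.faces ↔
    s.Nonempty ∧ ∃ l ∈ d0Tris ++ d1Tris, ∀ v ∈ s, (v : ℕ) ∈ l := by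
  constructor
  · rintro ⟨hne, t, ⟨m, hm, rfl⟩, hst⟩
    refine ⟨hne, ?_⟩
    have hm' : m ∈ (d0Tris ++ d1Tris).map msk := by
      rw [List.map_append]
      exact hm
    obtain ⟨l, hl, rfl⟩ := List.mem_map.1 hm'
    exact ⟨l, hl, fun v hv => (mem_vset 396 l v).1 (hst hv)⟩
  · rintro ⟨hne, l, hl, h⟩
    refine ⟨hne, vset 396 (msk l), ⟨msk l, ?_, rfl⟩, fun v hv => (mem_vset 396 l v).2 (h v hv)⟩
    have : msk l ∈ (d0Tris ++ d1Tris).map msk := List.mem_map.2 ⟨l, hl, rfl⟩
    rw [List.map_append] at this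
    exact this

/-- The coordinate `t` on numbers. -/
def tl (n : ℕ) : ℤ := (coordList.getD n []).getD 3 0

theorem tU_eq (v : Fin 396) : tU v = tl v := rfl

theorem sign_check : ((List.range 396).all fun n =>
    (decide (tl n < 0) == decide (n < 152)) && (decide (0 < tl n) == decide (244 ≤ n))) = true := by
  decide +kernel

theorem neg_iff (v : Fin 396) : tU v < 0 ↔ (v : ℕ) < 152 := by
  have h := List.all_eq_true.1 sign_check v (List.mem_range.2 v.2)
  rw [Bool.and_eq_true, beq_iff_eq, beq_iff_eq] at h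
  rw [tU_eq]
  exact decide_eq_decide.1 h.1

theorem pos_iff (v : Fin 396) : 0 < tU v ↔ 244 ≤ (v : ℕ) := by
  have h := List.all_eq_true.1 sign_check v (List.mem_range.2 v.2)
  rw [Bool.and_eq_true, beq_iff_eq, beq_iff_eq] at h
  rw [tU_eq]
  exact decide_eq_decide.1 h.2

theorem zero_iff (v : Fin 396) : tU v = 0 ↔ 152 ≤ (v : ℕ) ∧ (v : ℕ) < 244 := by
  have h1 := neg_iff v
  have h2 := pos_iff v
  constructor
  · intro h
    rw [h] at h1 h2
    constructor
    · by_contra hc
      have := h1.2 (by omega)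
      omega
    · by_contra hc
      have := h2.2 (by omega)
      omega
  · rintro ⟨h3, h4⟩
    have h5 : ¬ tU v < 0 := fun h => by have := h1.1 h; omega
    have h6 : ¬ 0 < tU v := fun h => by have := h2.1 h; omega
    omega

theorem nonpos_iff (v : Fin 396) : tU v ≤ 0 ↔ (v : ℕ) < 244 := by
  have h2 := pos_iff v
  constructor
  · intro h
    by_contra hc
    have := h2.2 (by omega)
    omega
  · intro h
    by_contra hc
    have := h2.1 (by omega)
    omega

/-- Every triangle of `D0` lies in `t ≤ 0`. -/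
theorem d0_check : (d0Tris.all fun l => l.all fun v => decide (v < 244)) = true := by
  decide +kernel

/-- The part in `t ≤ 0` of every triangle of `D1` is contained in a triangle of `D0`. -/
theorem d1_check : (d1Tris.all fun l =>
    let a := l.filter fun v => decide (v < 244)
    a.isEmpty || m0.any (subM (msk a))) = true := by
  decide +kernel

/-- A face in `t ≤ 0` is a face of `D0`. -/
theorem exists_d0 (s : Finset (Fin 396)) (hs : s ∈ KU.faces) (h : ∀ v ∈ s, (v : ℕ) < 244) :
    ∃ l ∈ d0Tris, ∀ v ∈ s, (v : ℕ) ∈ l := by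
  obtain ⟨hne, l, hl, hsl⟩ := (mem_faces s).1 hs
  rcases List.mem_append.1 hl with hl | hl
  · exact ⟨l, hl, hsl⟩
  · have h1 := List.all_eq_true.1 d1_check l hl
    simp only [Bool.or_eq_true] at h1
    rcases h1 with h1 | h1
    · exfalso
      obtain ⟨v, hv⟩ := hne
      have : (v : ℕ) ∈ l.filter fun v => decide (v < 244) :=
        List.mem_filter.2 ⟨hsl v hv, decide_eq_true (h v hv)⟩
      rw [List.isEmpty_iff.1 h1] at this
      exact absurd this (List.not_mem_nil)
    · obtain ⟨l', hl', h2⟩ := exists_of_any _ h1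
      exact ⟨l', hl', fun v hv =>
        h2 v (List.mem_filter.2 ⟨hsl v hv, decide_eq_true (h v hv)⟩)⟩

theorem face_of_d0 (s : Finset (Fin 396)) (hne : s.Nonempty) (l : List ℕ) (hl : l ∈ d0Tris)
    (h : ∀ v ∈ s, (v : ℕ) ∈ l) : s ∈ KU.faces :=
  (mem_faces s).2 ⟨hne, l, List.mem_append_left _ hl, h⟩

theorem d0_lt (l : List ℕ) (hl : l ∈ d0Tris) (v : ℕ) (hv : v ∈ l) : v < 244 :=
  of_decide_eq_true (List.all_eq_true.1 (List.all_eq_true.1 d0_check l hl) v hv)

/-- The vertex below a vertex. -/
def rN (n : ℕ) : ℕ := if 152 ≤ n ∧ n < 244 then n - 92 else n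

/-- The retraction onto `t < 0`. -/
def rF (v : Fin 396) : Fin 396 := ⟨rN v, by
  unfold rN
  have := v.2
  split_ifs <;> omega⟩

theorem rN_lt (n : ℕ) (h : n < 244) : rN n < 152 := by
  unfold rN
  split_ifs <;> omega

theorem rF_of_neg (v : Fin 396) (h : tU v < 0) : rF v = v := by
  have h1 := (neg_iff v).1 h
  apply Fin.ext
  show rN v = v
  unfold rN
  rw [if_neg (by omega)]

/-- The image of a triangle of `D0` under the retraction is contained in a triangle of `D0`. -/
theorem retract_check : (d0Tris.all fun l => m0.any (subM (msk (l.map rN)))) = true := by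
  decide +kernel

theorem retract_face (s : Finset (Fin 396)) (hs : s ∈ fullSub KU.faces fun v => tU v ≤ 0) :
    s.image rF ∈ fullSub (fullSub KU.faces fun v => tU v ≤ 0) fun v => tU v < 0 := by
  obtain ⟨hs1, hs2⟩ := hs
  obtain ⟨l, hl, hsl⟩ := exists_d0 s hs1 fun v hv => (nonpos_iff v).1 (hs2 v hv)
  obtain ⟨l', hl', h⟩ := exists_of_any _ (List.all_eq_true.1 retract_check l hl)
  have hneg : ∀ w ∈ s.image rF, tU w < 0 := by
    intro w hw
    obtain ⟨v, hv, rfl⟩ := Finset.mem_image.1 hw
    rw [neg_iff]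
    exact rN_lt v ((nonpos_iff v).1 (hs2 v hv))
  refine ⟨⟨?_, fun w hw => (hneg w hw).le⟩, hneg⟩
  refine face_of_d0 _ (((mem_faces s).1 hs1).1.image rF) l' hl' fun w hw => ?_
  obtain ⟨v, hv, rfl⟩ := Finset.mem_image.1 hw
  exact h _ (List.mem_map.2 ⟨v, hsl v hv, rfl⟩)

/-- Around a vertex of `J`, adding the vertex below to the negative part of a triangle of `D0`
stays in a triangle of `D0`. -/
theorem cone_check : (d0Tris.all fun l => l.all fun v => decide (v < 152) ||
    m0.any (subM (msk (v :: rN v :: l.filter fun w => decide (w < 152))))) = true := by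
  decide +kernel

/-- Around an edge of `J` there is just one triangle of `D0`. -/
theorem edge_check : (d0Tris.all fun l => l.all fun v => l.all fun j =>
    decide (v < 152) || decide (j < 152) || decide (v = j) ||
      (l.any fun x => decide (x < 152) && m0.all fun m' => !(subM (msk [v, j]) m') ||
        subM m' (msk [v, j, x]))) = true := by
  decide +kernel

/-- The family `P0` for `v` and `S`. -/
def fam (v : Fin 396) (S : Set (Fin 396)) : Set (Finset (Fin 396)) :=
  fullSub (linkF KU.faces v) fun w => tU w < 0 ∨ (tU w = 0 ∧ w ∈ S)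

theorem downClosed_fullSub {V : Type} (S : Set (Finset V)) (p : V → Prop) (h : DownClosed S) :
    DownClosed (fullSub S p) :=
  ⟨fun s hs => h.1 s hs.1, fun s hs t ht hne => ⟨h.2 s hs.1 t ht hne, fun v hv => hs.2 v (ht hv)⟩⟩

theorem downClosed_faces {V : Type} [Fintype V] (K : SComplex V) : DownClosed K.faces :=
  ⟨K.nonempty, K.down_closed⟩

theorem downClosed_link {V : Type} [Fintype V] [DecidableEq V] (K : SComplex V) (v : V) :
    DownClosed (linkF K.faces v) := by
  refine ⟨fun s hs => hs.1, fun s hs t ht hne => ⟨hne, fun h => hs.2.1 (ht h), ?_⟩⟩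
  exact K.down_closed _ hs.2.2 _ (Finset.insert_subset_insert v ht) (Finset.insert_nonempty v t)

theorem downClosed_fam (v : Fin 396) (S : Set (Fin 396)) : DownClosed (fam v S) :=
  downClosed_fullSub _ _ (downClosed_link KU v)

/-- The negative part of the link of a vertex of `J` is a cone. -/
theorem cone_fact (v : Fin 396) (hv : tU v = 0) (s : Finset (Fin 396))
    (hs : insert v s ∈ KU.faces) (hneg : ∀ w ∈ s, tU w < 0) :
    insert (rF v) s ∈ fam v ∅ := by
  obtain ⟨hv1, hv2⟩ := (zero_iff v).1 hv
  have hlt : ∀ w ∈ insert v s, (w : ℕ) < 244 := by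
    intro w hw
    rcases Finset.mem_insert.1 hw with rfl | hw
    · exact hv2
    · have := (neg_iff w).1 (hneg w hw)
      omega
  obtain ⟨l, hl, hsl⟩ := exists_d0 _ hs hlt
  have hvl : (v : ℕ) ∈ l := hsl v (Finset.mem_insert_self v s)
  have h1 := List.all_eq_true.1 (List.all_eq_true.1 cone_check l hl) v hvl
  rw [Bool.or_eq_true] at h1
  rcases h1 with h1 | h1
  · exact absurd (of_decide_eq_true h1) (by omega)
  obtain ⟨l', hl', h2⟩ := exists_of_any _ h1
  have hr : rN v < 152 := rN_lt v hv2
  have hneg' : ∀ w ∈ insert (rF v) s, tU w < 0 := by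
    intro w hw
    rcases Finset.mem_insert.1 hw with rfl | hw
    · exact (neg_iff _).2 hr
    · exact hneg w hw
  refine ⟨⟨Finset.insert_nonempty _ _, ?_, ?_⟩, fun w hw => Or.inl (hneg' w hw)⟩
  · intro h
    have := hneg' v h
    omega
  · refine face_of_d0 _ (Finset.insert_nonempty _ _) l' hl' fun w hw => ?_
    rcases Finset.mem_insert.1 hw with rfl | hw
    · exact h2 _ (by simp)
    · rcases Finset.mem_insert.1 hw with rfl | hw
      · exact h2 _ (List.mem_cons_of_mem _ (List.mem_cons_self ..))
      · refine h2 _ (List.mem_cons_of_mem _ (List.mem_cons_of_mem _ (List.mem_filter.2 ⟨?_, ?_⟩)))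
        · exact hsl w (Finset.mem_insert_of_mem hw)
        · exact decide_eq_true ((neg_iff w).1 (hneg w hw))

/-- The link of a neighbour on `J` in the family `fam v (insert j S)` is one vertex. -/
theorem edge_fact (v j : Fin 396) (hv : tU v = 0) (hj : tU j = 0) (hvj : v ≠ j)
    (he : ({v, j} : Finset (Fin 396)) ∈ KU.faces) (S : Set (Fin 396)) (hjS : j ∈ S) :
    ∃ x : Fin 396, linkF (fam v S) j = {{x}} := by
  obtain ⟨hv1, hv2⟩ := (zero_iff v).1 hv
  obtain ⟨hj1, hj2⟩ := (zero_iff j).1 hj
  have hvjN : (v : ℕ) ≠ j := fun h => hvj (Fin.ext h)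
  obtain ⟨l, hl, hsl⟩ := exists_d0 _ he (by
    intro w hw
    rcases Finset.mem_insert.1 hw with rfl | hw
    · exact hv2
    · rw [Finset.mem_singleton] at hw
      subst hw
      exact hj2)
  have hvl : (v : ℕ) ∈ l := hsl v (by simp)
  have hjl : (j : ℕ) ∈ l := hsl j (by simp)
  have h1 := List.all_eq_true.1 (List.all_eq_true.1 (List.all_eq_true.1 edge_check l hl) v hvl) j hjl
  rw [Bool.or_eq_true, Bool.or_eq_true, Bool.or_eq_true] at h1
  rcases h1 with ((h1 | h1) | h1) | h1
  · exact absurd (of_decide_eq_true h1) (by omega)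
  · exact absurd (of_decide_eq_true h1) (by omega)
  · exact absurd (of_decide_eq_true h1) hvjN
  obtain ⟨x, hxl, h2⟩ := List.any_eq_true.1 h1
  rw [Bool.and_eq_true] at h2
  have hx : x < 152 := of_decide_eq_true h2.1
  have h3 : ∀ l' ∈ d0Tris, (v : ℕ) ∈ l' → (j : ℕ) ∈ l' → ∀ w ∈ l', w = v ∨ w = j ∨ w = x := by
    intro l' hl' hvl' hjl' w hw
    have h4 := List.all_eq_true.1 h2.2 (msk l') (List.mem_map.2 ⟨l', hl', rfl⟩)
    rw [Bool.or_eq_true] at h4
    rcases h4 with h4 | h4
    · exfalso
      have h5 : subM (msk [(v : ℕ), (j : ℕ)]) (msk l') = true := by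
        rw [subM_iff]
        intro u hu
        rcases List.mem_cons.1 hu with rfl | hu
        · exact hvl'
        · rw [List.mem_singleton] at hu
          rw [hu]
          exact hjl'
      rw [h5] at h4
      exact absurd h4 (by decide)
    · have h5 := (subM_iff _ _).1 h4 w hw
      simpa using h5
  have hx396 : x < 396 := by omega
  refine ⟨⟨x, hx396⟩, ?_⟩
  have hxneg : tU ⟨x, hx396⟩ < 0 := (neg_iff _).2 hx
  have hxv : v ≠ ⟨x, hx396⟩ := by
    rintro rfl
    omega
  have hxj : j ≠ ⟨x, hx396⟩ := by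
    rintro rfl
    omega
  ext s
  constructor
  · rintro ⟨hne, hjs, ⟨_, hvs, hK⟩, hsS⟩
    show s = {⟨x, hx396⟩}
    have hle : ∀ w ∈ insert v (insert j s), (w : ℕ) < 244 := by
      intro w hw
      rcases Finset.mem_insert.1 hw with rfl | hw
      · exact hv2
      · rcases hsS w hw with h | h
        · have := (neg_iff w).1 h
          omega
        · exact ((zero_iff w).1 h.1).2
    obtain ⟨l', hl', hsl'⟩ := exists_d0 _ hK hle
    have hsub : s ⊆ {⟨x, hx396⟩} := by
      intro w hw
      rw [Finset.mem_singleton]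
      have h6 := h3 l' hl' (hsl' v (by simp)) (hsl' j (by simp)) w (hsl' w (by simp [hw]))
      rcases h6 with h6 | h6 | h6
      · exfalso
        apply hvs
        rw [show v = w from Fin.ext h6.symm]
        exact Finset.mem_insert_of_mem hw
      · exfalso
        apply hjs
        rw [show j = w from Fin.ext h6.symm]
        exact hw
      · exact Fin.ext h6
    rcases Finset.subset_singleton_iff.1 hsub with h | h
    · rw [h] at hne
      exact absurd hne (by simp)
    · exact h
  · intro hs
    have hs' : s = {⟨x, hx396⟩} := hs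
    subst hs'
    refine ⟨Finset.singleton_nonempty _, by simpa using hxj, ⟨Finset.insert_nonempty _ _, ?_, ?_⟩, ?_⟩
    · simp only [Finset.mem_insert, Finset.mem_singleton, not_or]
      exact ⟨hvj, hxv⟩
    · refine face_of_d0 _ (Finset.insert_nonempty _ _) l hl fun w hw => ?_
      simp only [Finset.mem_insert, Finset.mem_singleton] at hw
      rcases hw with rfl | rfl | rfl
      · exact hvl
      · exact hjl
      · exact hxl
    · intro w hw
      simp only [Finset.mem_insert, Finset.mem_singleton] at hw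
      rcases hw with rfl | rfl
      · exact Or.inr ⟨hj, hjS⟩
      · exact Or.inl hxneg

end BE07

end Pool.Agent.PolyKnots
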