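import Pool.Agent.W_MP_be6f00_gt.DataLinks0
import Pool.Agent.W_MP_be6f00_gt.Contr

set_option autoImplicit false

/-! Module BE07 of MP_be6f00_gt, part 2: contractibility of the pieces of `D0`. -/

open scoped ENNReal Topology
open Set

namespace Pool.Agent.PolyKnots

theorem BE07.contractible_D0int_of
    (hD0 : ContractibleSpace (sp (fullSub KU.faces fun v => tU v ≤ 0))) :
    ContractibleSpace (sp (fullSub KU.faces fun v => tU v < 0)) := by
  have h := contractible_of_retract (fullSub KU.faces fun v => tU v ≤ 0)
    (BE07.downClosed_fullSub _ _ (BE07.downClosed_faces KU)) (fun v => tU v < 0) BE07.rF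
    BE07.rF_of_neg BE07.retract_face hD0
  have e : fullSub (fullSub KU.faces fun v => tU v ≤ 0) (fun v => tU v < 0) =
      fullSub KU.faces fun v => tU v < 0 := by
    ext s
    constructor
    · rintro ⟨⟨h1, _⟩, h2⟩
      exact ⟨h1, h2⟩
    · rintro ⟨h1, h2⟩
      exact ⟨⟨h1, fun v hv => (h2 v hv).le⟩, h2⟩
  rwa [e] at h

theorem contractible_P0 (v : Fin 396) (hv : tU v = 0) (S : Set (Fin 396)) :
    ContractibleSpace
      (sp (fullSub (linkF KU.faces v) fun w => tU w < 0 ∨ (tU w = 0 ∧ w ∈ S))) := by
  classical
  suffices h : ∀ T : Finset (Fin 396), ContractibleSpace (sp (BE07.fam v (T : Set (Fin 396)))) by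
    have h1 := h S.toFinset
    rwa [Set.coe_toFinset] at h1
  intro T
  induction T using Finset.induction_on with
  | empty =>
    rw [Finset.coe_empty]
    refine contractible_of_apex _ (BE07.downClosed_fam v _) (BE07.rF v) ?_ ?_
    · have h := BE07.cone_fact v hv ∅ (by
        rw [insert_empty_eq]
        exact KU.vertex v) (by simp)
      rwa [insert_empty_eq] at h
    · rintro s ⟨⟨_, _, hs⟩, hneg⟩
      refine BE07.cone_fact v hv s hs fun w hw => ?_
      rcases hneg w hw with h | h
      · exact h
      · exact absurd h.2 (by simp)
  | insert j T hjT ih =>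
    have hdel : fullSub (BE07.fam v ((insert j T : Finset (Fin 396)) : Set (Fin 396)))
        (fun w => w ≠ j) ⊆ BE07.fam v (T : Set (Fin 396)) := by
      rintro s ⟨⟨h1, h2⟩, h3⟩
      refine ⟨h1, fun w hw => ?_⟩
      rcases h2 w hw with h | h
      · exact Or.inl h
      · refine Or.inr ⟨h.1, ?_⟩
        have h4 := h.2
        rw [Finset.coe_insert, Set.mem_insert_iff] at h4
        exact h4.resolve_left (h3 w hw)
    by_cases hcase : tU j = 0 ∧ v ≠ j ∧ ({v, j} : Finset (Fin 396)) ∈ KU.faces
    · obtain ⟨hj, hvj, he⟩ := hcase
      refine contractible_of_del _ (BE07.downClosed_fam v _) j ?_ ?_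
      · obtain ⟨x, hx⟩ := BE07.edge_fact v j hv hj hvj he
          ((insert j T : Finset (Fin 396)) : Set (Fin 396)) (by simp)
        rw [hx]
        refine contractible_of_apex _ ?_ x rfl ?_
        · refine ⟨?_, ?_⟩
          · intro s hs
            rw [Set.mem_singleton_iff.1 hs]
            exact Finset.singleton_nonempty x
          · intro s hs t ht hne
            rw [Set.mem_singleton_iff.1 hs] at ht
            rcases Finset.subset_singleton_iff.1 ht with h | h
            · rw [h] at hne
              exact absurd hne (by simp)
            · exact h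
        · intro s hs
          rw [Set.mem_singleton_iff.1 hs]
          show insert x {x} = {x}
          simp
      · have e : fullSub (BE07.fam v ((insert j T : Finset (Fin 396)) : Set (Fin 396)))
            (fun w => w ≠ j) = BE07.fam v (T : Set (Fin 396)) := by
          refine Set.Subset.antisymm hdel ?_
          rintro s ⟨h1, h2⟩
          refine ⟨⟨h1, fun w hw => ?_⟩, ?_⟩
          · rcases h2 w hw with h | h
            · exact Or.inl h
            · exact Or.inr ⟨h.1, by
                rw [Finset.coe_insert]
                exact Set.mem_insert_of_mem _ h.2⟩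
          · rintro w hw rfl
            rcases h2 w hw with h | h
            · omega
            · exact hjT (by simpa using h.2)
        rwa [e]
    · have e : BE07.fam v ((insert j T : Finset (Fin 396)) : Set (Fin 396)) =
          BE07.fam v (T : Set (Fin 396)) := by
        refine Set.Subset.antisymm ?_ ?_
        · rintro s ⟨h1, h2⟩
          refine ⟨h1, fun w hw => ?_⟩
          rcases h2 w hw with h | h
          · exact Or.inl h
          · have h4 := h.2
            rw [Finset.coe_insert, Set.mem_insert_iff] at h4
            rcases h4 with h4 | h4
            · exfalso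
              subst h4
              apply hcase
              refine ⟨h.1, fun hvw => h1.2.1 (hvw ▸ hw), ?_⟩
              refine KU.down_closed _ h1.2.2 _ ?_ (Finset.insert_nonempty _ _)
              intro u hu
              rcases Finset.mem_insert.1 hu with rfl | hu
              · exact Finset.mem_insert_self _ _
              · rw [Finset.mem_singleton] at hu
                subst hu
                exact Finset.mem_insert_of_mem hw
            · exact Or.inr ⟨h.1, h4⟩
        · rintro s ⟨h1, h2⟩
          refine ⟨h1, fun w hw => ?_⟩
          rcases h2 w hw with h | h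
          · exact Or.inl h
          · exact Or.inr ⟨h.1, by
              rw [Finset.coe_insert]
              exact Set.mem_insert_of_mem _ h.2⟩
      rwa [e]

end Pool.Agent.PolyKnots
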