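import Mathlib

set_option autoImplicit false

/-!
# Polyhedral `n`-knots, local unknottedness, unknottedness, total absolute curvature

Definitions for MP_be6f00_gt (Kuiper; total absolute curvature and unknotting of polyhedral
`n`-knots).
-/

open CategoryTheory AlgebraicTopology
open scoped ENNReal RealInnerProductSpace

namespace Pool.Agent.PolyKnots

/-! ## Triangulated spheres and polyhedral knots -/

/-- A finite abstract simplicial complex with vertex set `V`. -/
structure SComplex (V : Type) [Fintype V] where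
  /-- the simplices, as nonempty sets of vertices -/
  faces : Set (Finset V)
  nonempty : ∀ s ∈ faces, s.Nonempty
  down_closed : ∀ s ∈ faces, ∀ t ⊆ s, t.Nonempty → t ∈ faces
  vertex : ∀ v, {v} ∈ faces

/-- The polyhedron of a set of simplices with vertices in `V`: all convex combinations of vertices
of one simplex, described by their barycentric coordinates `x : V → ℝ` (with the topology of
`V → ℝ`). -/
def sp {V : Type} [Fintype V] (S : Set (Finset V)) : Set (V → ℝ) :=
  {x | (∀ v, 0 ≤ x v) ∧ ∑ v, x v = 1 ∧ ∃ s ∈ S, ∀ v, v ∉ s → x v = 0}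

/-- The polyhedron `|K|` of a finite simplicial complex. -/
def SComplex.space {V : Type} [Fintype V] (K : SComplex V) : Set (V → ℝ) := sp K.faces

/-- The map `|K| → E` that is linear on each simplex and sends each vertex `v` to `pos v`. -/
def simplexwise {V : Type} [Fintype V] {E : Type} [AddCommGroup E] [Module ℝ E] (pos : V → E)
    (x : V → ℝ) : E :=
  ∑ v, x v • pos v

/-- A polyhedral `n`-knot: a triangulated `n`-sphere (a finite simplicial complex `K` whose
polyhedron is homeomorphic to `S^n`) with an embedding `|K| → E^{n+2}` that is linear on each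
simplex. (A continuous injective map of a compact space is an embedding.) -/
structure PolyKnot (n : ℕ) where
  V : Type
  [fin : Fintype V]
  K : SComplex V
  sphere : Nonempty (K.space ≃ₜ Metric.sphere (0 : EuclideanSpace ℝ (Fin (n + 1))) 1)
  /-- the images of the vertices -/
  pos : V → EuclideanSpace ℝ (Fin (n + 2))
  inj : Set.InjOn (simplexwise pos) K.space

attribute [instance] PolyKnot.fin

/-- The image `f(S^n)` in `E^{n+2}` of a polyhedral knot. -/
def PolyKnot.image {n : ℕ} (k : PolyKnot n) : Set (EuclideanSpace ℝ (Fin (n + 2))) :=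
  simplexwise k.pos '' k.K.space

/-! ## Unknotted -/

/-- The standard sphere `S^n ⊂ E^{n+1} ⊂ E^{n+2}`. -/
def stdSphere (n : ℕ) : Set (EuclideanSpace ℝ (Fin (n + 2))) :=
  {x | ‖x‖ = 1 ∧ x (Fin.last (n + 1)) = 0}

/-- Unknotted: there is an ambient isotopy that moves the knot to the standard sphere. -/
def PolyKnot.Unknotted {n : ℕ} (k : PolyKnot n) : Prop :=
  ∃ H : unitInterval → (EuclideanSpace ℝ (Fin (n + 2)) ≃ₜ EuclideanSpace ℝ (Fin (n + 2))),
    Continuous (fun p : unitInterval × EuclideanSpace ℝ (Fin (n + 2)) => H p.1 p.2) ∧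
    (∀ x, H 0 x = x) ∧ H 1 '' k.image = stdSphere n

/-! ## Piecewise linear maps and local unknottedness -/

section PL

variable {E F : Type} [AddCommGroup E] [Module ℝ E] [AddCommGroup F] [Module ℝ F]

/-- A convex polyhedron: a finite intersection of closed half-spaces. -/
def IsPolyhedral (P : Set E) : Prop :=
  ∃ (ι : Type) (_ : Finite ι) (a : ι → E →ᵃ[ℝ] ℝ), P = {x | ∀ i, 0 ≤ a i x}

/-- `f` is piecewise linear on `B`: `B` is a union of finitely many convex polyhedra on each of
which `f` is affine. -/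
def IsPLOn (f : E → F) (B : Set E) : Prop :=
  ∃ (ι : Type) (_ : Finite ι) (P : ι → Set E) (a : ι → E →ᵃ[ℝ] F),
    (∀ i, IsPolyhedral (P i)) ∧ B = ⋃ i, P i ∧ ∀ i, Set.EqOn f (a i) (P i)

/-- The pairs `(B, B')` and `(C, C')` are PL homeomorphic. -/
def PLHomeoPair (B B' : Set E) (C C' : Set F) : Prop :=
  ∃ (f : E → F) (g : F → E), IsPLOn f B ∧ IsPLOn g C ∧ Set.MapsTo f B C ∧ Set.MapsTo g C B ∧
    (∀ x ∈ B, g (f x) = x) ∧ (∀ y ∈ C, f (g y) = y) ∧ f '' B' = C'

end PL

/-- `B` is a closed star neighbourhood of the point `v` of the polyhedron `X` in Euclidean space: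
`B` is a compact neighbourhood of `v`, each ray from `v` leaves `B` exactly once, and `B ∩ X`
is a cone with apex `v`. -/
structure IsStarNhd {m : ℕ} (X B : Set (EuclideanSpace ℝ (Fin m)))
    (v : EuclideanSpace ℝ (Fin m)) : Prop where
  compact : IsCompact B
  mem_interior : v ∈ interior B
  star : ∀ x ∈ B, ∀ t ∈ Set.Ico (0 : ℝ) 1, v + t • (x - v) ∈ interior B
  cone : ∀ x ∈ B, ∀ t ∈ Set.Ioc (0 : ℝ) 1, (v + t • (x - v) ∈ X ↔ x ∈ X)

/-- The standard ball `B^{n+2}`, as the cube. -/
def stdBall (n : ℕ) : Set (EuclideanSpace ℝ (Fin (n + 2))) := {x | ∀ i, |x i| ≤ 1}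

/-- The standard ball `B^n` in `B^{n+2}`. -/
def stdSubBall (n : ℕ) : Set (EuclideanSpace ℝ (Fin (n + 2))) :=
  {x | (∀ i, |x i| ≤ 1) ∧ ∀ i : Fin (n + 2), n ≤ (i : ℕ) → x i = 0}

/-- `f` is locally unknotted: every vertex has arbitrarily small closed star neighbourhoods `B`
such that `(B, B ∩ f(S^n))` is PL homeomorphic to the standard ball pair `(B^{n+2}, B^n)`. -/
def PolyKnot.LocallyUnknotted {n : ℕ} (k : PolyKnot n) : Prop :=
  ∀ v : k.V, ∀ ε > 0, ∃ B : Set (EuclideanSpace ℝ (Fin (n + 2))),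
    B ⊆ Metric.ball (k.pos v) ε ∧ IsStarNhd k.image B (k.pos v) ∧
    PLHomeoPair B (B ∩ k.image) (stdBall n) (stdSubBall n)

/-! ## Total absolute curvature -/

/-- The relative singular homology `H_i(X, A; F)`. -/
noncomputable def relHomology (F : Type) [Field F] (X : Type) [TopologicalSpace X] (A : Set X)
    (i : ℕ) : ModuleCat.{0} F :=
  (Limits.cokernel (((singularChainComplexFunctor (ModuleCat.{0} F)).obj (ModuleCat.of F F)).map
    (TopCat.ofHom ⟨Subtype.val, continuous_subtype_val⟩ : TopCat.of A ⟶ TopCat.of X))).homology i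

/-- `dim_F H_i(X, A; F)` (it may be infinite). -/
noncomputable def relDim (F : Type) [Field F] (X : Type) [TopologicalSpace X] (A : Set X)
    (i : ℕ) : ℝ≥0∞ :=
  ((Cardinal.toENat (Module.rank F (relHomology F X A i)) : ℕ∞) : ℝ≥0∞)

/-- `∑_i dim_F H_i(X, A; F)`. -/
noncomputable def totDim (F : Type) [Field F] (X : Type) [TopologicalSpace X] (A : Set X) :
    ℝ≥0∞ :=
  ∑' i : ℕ, relDim F X A i

/-- The height function `h_ξ = ⟨ξ, f(·)⟩` on the sphere `|K|`. -/
noncomputable def PolyKnot.height {n : ℕ} (k : PolyKnot n)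
    (ξ : EuclideanSpace ℝ (Fin (n + 2))) (x : k.K.space) : ℝ :=
  ⟪ξ, simplexwise k.pos x.1⟫

/-- `μ(ξ) = ∑_v ∑_i dim H_i({h_ξ ≤ h_ξ(v)}, {h_ξ < h_ξ(v)}; F)`, the number of critical points
of `h_ξ` counted with multiplicity, for `ξ` such that `h_ξ` is injective on the vertices (and `0`
for the other `ξ`, which form a null set). -/
noncomputable def PolyKnot.mu {n : ℕ} (k : PolyKnot n) (F : Type) [Field F]
    (ξ : EuclideanSpace ℝ (Fin (n + 2))) : ℝ≥0∞ :=
  open Classical in
  if Function.Injective (fun v : k.V => ⟪ξ, k.pos v⟫) then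
    ∑ v : k.V, totDim F {x : k.K.space // k.height ξ x ≤ ⟪ξ, k.pos v⟫}
      {x | k.height ξ x.1 < ⟪ξ, k.pos v⟫}
  else 0

/-- The total absolute curvature `TA(f)`: the mean of `μ` over the unit sphere `S^{n+1}`. -/
noncomputable def PolyKnot.TA {n : ℕ} (k : PolyKnot n) (F : Type) [Field F] : ℝ≥0∞ :=
  (∫⁻ ξ : Metric.sphere (0 : EuclideanSpace ℝ (Fin (n + 2))) 1, k.mu F ξ.1
      ∂(MeasureTheory.volume : MeasureTheory.Measure (EuclideanSpace ℝ (Fin (n + 2)))).toSphere) /
    (MeasureTheory.volume : MeasureTheory.Measure (EuclideanSpace ℝ (Fin (n + 2)))).toSphere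
      Set.univ

end Pool.Agent.PolyKnots
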