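import Mathlib

set_option autoImplicit false

namespace Pool.Agent.W_MP_be6f00_gt

section Discrete

variable {A : Type*} [AddCommGroup A]

/-- Summation by parts against a label function whose jumps are invisible for `C`. -/
theorem sum_label (L : ℕ → ℤ) (C : ℕ → A) (N : ℕ) (h : ∀ k, L k ≠ L (k + 1) → C (k + 1) = 0) :
    ∑ k ∈ Finset.range (N + 1), L k • (C (k + 1) - C k) = L N • C (N + 1) - L 0 • C 0 := by
  induction N with
  | zero => simp [smul_sub]
  | succ N ih =>
    rw [Finset.sum_range_succ, ih]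
    by_cases hL : L N = L (N + 1)
    · rw [hL, smul_sub]; abel
    · rw [h N hL]; simp; abel

variable (ax ay az : ℕ → ℕ → ℕ → A)

/-- curvature on the three kinds of squares -/
def Cxy (i j k : ℕ) : A := ax i j k + ay (i + 1) j k - ax i (j + 1) k - ay i j k
def Cyz (i j k : ℕ) : A := ay i j k + az i (j + 1) k - ay i j (k + 1) - az i j k
def Cxz (i j k : ℕ) : A := ax i j k + az (i + 1) j k - ax i j (k + 1) - az i j k

theorem bianchi (i j k : ℕ) :
    (Cxy ax ay i j (k + 1) - Cxy ax ay i j k) + (Cyz ay az (i + 1) j k - Cyz ay az i j k)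
      - (Cxz ax az i (j + 1) k - Cxz ax az i j k) = 0 := by
  unfold Cxy Cyz Cxz
  abel

/-- the boundary circulation of the slice `i` of the box of side `n` -/
def Bdry (n i : ℕ) : A :=
  ∑ j ∈ Finset.range n, ay i j 0 + ∑ k ∈ Finset.range n, az i n k
    - ∑ j ∈ Finset.range n, ay i j n - ∑ k ∈ Finset.range n, az i 0 k

theorem slice_stokes (n i : ℕ) :
    ∑ j ∈ Finset.range n, ∑ k ∈ Finset.range n, Cyz ay az i j k = Bdry ay az n i := by
  have e1 : ∀ j k, Cyz ay az i j k = (ay i j k - ay i j (k + 1)) + (az i (j + 1) k - az i j k) := by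
    intro j k; unfold Cyz; abel
  have e2 : ∑ j ∈ Finset.range n, ∑ k ∈ Finset.range n, (ay i j k - ay i j (k + 1))
      = ∑ j ∈ Finset.range n, ay i j 0 - ∑ j ∈ Finset.range n, ay i j n := by
    rw [← Finset.sum_sub_distrib]
    exact Finset.sum_congr rfl fun j _ => Finset.sum_range_sub' (fun k => ay i j k) n
  have e3 : ∑ j ∈ Finset.range n, ∑ k ∈ Finset.range n, (az i (j + 1) k - az i j k)
      = ∑ k ∈ Finset.range n, az i n k - ∑ k ∈ Finset.range n, az i 0 k := by
    rw [Finset.sum_comm, ← Finset.sum_sub_distrib]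
    exact Finset.sum_congr rfl fun k _ => Finset.sum_range_sub (fun j => az i j k) n
  simp only [e1, Finset.sum_add_distrib]
  rw [e2, e3]
  unfold Bdry
  abel

theorem Bdry_step (n i : ℕ) :
    Bdry ay az n (i + 1) - Bdry ay az n i =
      ∑ j ∈ Finset.range n, (Cxy ax ay i j 0 - Cxy ax ay i j n)
      + ∑ k ∈ Finset.range n, (Cxz ax az i n k - Cxz ax az i 0 k) := by
  have f1 : ∀ k, ∑ j ∈ Finset.range n, ay (i + 1) j k - ∑ j ∈ Finset.range n, ay i j k
      = ∑ j ∈ Finset.range n, Cxy ax ay i j k - (ax i 0 k - ax i n k) := by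
    intro k
    have e : ∀ j, Cxy ax ay i j k = (ax i j k - ax i (j + 1) k) + (ay (i + 1) j k - ay i j k) := by
      intro j; unfold Cxy; abel
    simp only [e, Finset.sum_add_distrib]
    rw [Finset.sum_range_sub' (fun j => ax i j k) n, Finset.sum_sub_distrib]
    abel
  have f2 : ∀ j, ∑ k ∈ Finset.range n, az (i + 1) j k - ∑ k ∈ Finset.range n, az i j k
      = ∑ k ∈ Finset.range n, Cxz ax az i j k - (ax i j 0 - ax i j n) := by
    intro j
    have e : ∀ k, Cxz ax az i j k = (ax i j k - ax i j (k + 1)) + (az (i + 1) j k - az i j k) := by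
      intro k; unfold Cxz; abel
    simp only [e, Finset.sum_add_distrib]
    rw [Finset.sum_range_sub' (fun k => ax i j k) n, Finset.sum_sub_distrib]
    abel
  have g1 := f1 0
  have g2 := f1 n
  have g3 := f2 n
  have g4 := f2 0
  rw [Finset.sum_sub_distrib, Finset.sum_sub_distrib]
  unfold Bdry
  have : (∑ j ∈ Finset.range n, ay (i + 1) j 0 + ∑ k ∈ Finset.range n, az (i + 1) n k
      - ∑ j ∈ Finset.range n, ay (i + 1) j n - ∑ k ∈ Finset.range n, az (i + 1) 0 k)
      - (∑ j ∈ Finset.range n, ay i j 0 + ∑ k ∈ Finset.range n, az i n k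
      - ∑ j ∈ Finset.range n, ay i j n - ∑ k ∈ Finset.range n, az i 0 k)
      = (∑ j ∈ Finset.range n, ay (i + 1) j 0 - ∑ j ∈ Finset.range n, ay i j 0)
      + (∑ k ∈ Finset.range n, az (i + 1) n k - ∑ k ∈ Finset.range n, az i n k)
      - (∑ j ∈ Finset.range n, ay (i + 1) j n - ∑ j ∈ Finset.range n, ay i j n)
      - (∑ k ∈ Finset.range n, az (i + 1) 0 k - ∑ k ∈ Finset.range n, az i 0 k) := by abel
  rw [this, g1, g2, g3, g4]
  abel

/-- **Discrete Stokes lemma.**  `L` is a labelling of the unit cubes by integers; the curvature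
vanishes on all squares separating cubes of different label; in the outer layer the label is
`1` in the half `m ≤ i` and `0` in the other half.  Then the circulation of the slice `m` is 0. -/
theorem stokes3 (L : ℕ → ℕ → ℕ → ℤ) (n m : ℕ) (hn : 0 < n) (hm : m ≤ n)
    (hz : ∀ i j k, L i j k ≠ L i j (k + 1) → Cxy ax ay i j (k + 1) = 0)
    (hx : ∀ i j k, L i j k ≠ L (i + 1) j k → Cyz ay az (i + 1) j k = 0)
    (hy : ∀ i j k, L i j k ≠ L i (j + 1) k → Cxz ax az i (j + 1) k = 0)
    (hLtop : ∀ j k, L (n - 1) j k = 1) (hLbot : ∀ j k, L 0 j k = 0)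
    (hLy0 : ∀ i k, L i 0 k = if m ≤ i then 1 else 0)
    (hLyn : ∀ i k, L i (n - 1) k = if m ≤ i then 1 else 0)
    (hLz0 : ∀ i j, L i j 0 = if m ≤ i then 1 else 0)
    (hLzn : ∀ i j, L i j (n - 1) = if m ≤ i then 1 else 0) :
    Bdry ay az n m = 0 := by
  obtain ⟨N, rfl⟩ : ∃ N, n = N + 1 := ⟨n - 1, by omega⟩
  simp only [Nat.add_sub_cancel] at hLtop hLyn hLzn
  -- the total flux is zero
  have total : ∑ i ∈ Finset.range (N + 1), ∑ j ∈ Finset.range (N + 1),
      ∑ k ∈ Finset.range (N + 1), L i j k •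
        ((Cxy ax ay i j (k + 1) - Cxy ax ay i j k) + (Cyz ay az (i + 1) j k - Cyz ay az i j k)
          - (Cxz ax az i (j + 1) k - Cxz ax az i j k)) = 0 := by
    refine Finset.sum_eq_zero fun i _ => Finset.sum_eq_zero fun j _ =>
      Finset.sum_eq_zero fun k _ => ?_
    rw [bianchi, smul_zero]
  have Tz : ∑ i ∈ Finset.range (N + 1), ∑ j ∈ Finset.range (N + 1),
      ∑ k ∈ Finset.range (N + 1), L i j k • (Cxy ax ay i j (k + 1) - Cxy ax ay i j k)
      = ∑ i ∈ Finset.range (N + 1), (if m ≤ i then (1 : ℤ) else 0) •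
        ∑ j ∈ Finset.range (N + 1), (Cxy ax ay i j (N + 1) - Cxy ax ay i j 0) := by
    refine Finset.sum_congr rfl fun i _ => ?_
    rw [Finset.smul_sum]
    refine Finset.sum_congr rfl fun j _ => ?_
    rw [sum_label (fun k => L i j k) (fun k => Cxy ax ay i j k) N (hz i j), hLz0, hLzn, smul_sub]
  have Tx : ∑ i ∈ Finset.range (N + 1), ∑ j ∈ Finset.range (N + 1),
      ∑ k ∈ Finset.range (N + 1), L i j k • (Cyz ay az (i + 1) j k - Cyz ay az i j k)
      = Bdry ay az (N + 1) (N + 1) := by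
    rw [← slice_stokes, Finset.sum_comm]
    refine Finset.sum_congr rfl fun j _ => ?_
    rw [Finset.sum_comm]
    refine Finset.sum_congr rfl fun k _ => ?_
    rw [sum_label (fun i => L i j k) (fun i => Cyz ay az i j k) N (fun i => hx i j k),
      hLtop, hLbot]
    simp
  have Ty : ∑ i ∈ Finset.range (N + 1), ∑ j ∈ Finset.range (N + 1),
      ∑ k ∈ Finset.range (N + 1), L i j k • (Cxz ax az i (j + 1) k - Cxz ax az i j k)
      = ∑ i ∈ Finset.range (N + 1), (if m ≤ i then (1 : ℤ) else 0) •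
        ∑ k ∈ Finset.range (N + 1), (Cxz ax az i (N + 1) k - Cxz ax az i 0 k) := by
    refine Finset.sum_congr rfl fun i _ => ?_
    rw [Finset.smul_sum, Finset.sum_comm]
    refine Finset.sum_congr rfl fun k _ => ?_
    rw [sum_label (fun j => L i j k) (fun j => Cxz ax az i j k) N (fun j => hy i j k),
      hLyn, hLy0, smul_sub]
  have split : ∑ i ∈ Finset.range (N + 1), ∑ j ∈ Finset.range (N + 1),
      ∑ k ∈ Finset.range (N + 1), L i j k •
        ((Cxy ax ay i j (k + 1) - Cxy ax ay i j k) + (Cyz ay az (i + 1) j k - Cyz ay az i j k)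
          - (Cxz ax az i (j + 1) k - Cxz ax az i j k)) =
      (∑ i ∈ Finset.range (N + 1), ∑ j ∈ Finset.range (N + 1),
        ∑ k ∈ Finset.range (N + 1), L i j k • (Cxy ax ay i j (k + 1) - Cxy ax ay i j k))
      + (∑ i ∈ Finset.range (N + 1), ∑ j ∈ Finset.range (N + 1),
        ∑ k ∈ Finset.range (N + 1), L i j k • (Cyz ay az (i + 1) j k - Cyz ay az i j k))
      - (∑ i ∈ Finset.range (N + 1), ∑ j ∈ Finset.range (N + 1),
        ∑ k ∈ Finset.range (N + 1), L i j k • (Cxz ax az i (j + 1) k - Cxz ax az i j k)) := by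
    simp only [← Finset.sum_add_distrib, ← Finset.sum_sub_distrib, ← smul_add, ← smul_sub]
  rw [split, Tz, Tx, Ty] at total
  -- telescoping of the slices
  have tele : Bdry ay az (N + 1) (N + 1) - Bdry ay az (N + 1) m
      = ∑ i ∈ Finset.range (N + 1), (if m ≤ i then (1 : ℤ) else 0) •
        (∑ j ∈ Finset.range (N + 1), (Cxy ax ay i j 0 - Cxy ax ay i j (N + 1))
        + ∑ k ∈ Finset.range (N + 1), (Cxz ax az i (N + 1) k - Cxz ax az i 0 k)) := by
    simp only [← Bdry_step ax ay az (N + 1)]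
    have h1 : ∀ i, (if m ≤ i then (1 : ℤ) else 0) •
        (Bdry ay az (N + 1) (i + 1) - Bdry ay az (N + 1) i)
        = if m ≤ i then (Bdry ay az (N + 1) (i + 1) - Bdry ay az (N + 1) i) else 0 := by
      intro i; split_ifs <;> simp
    simp only [h1]
    rw [← Finset.sum_filter]
    have h2 : (Finset.range (N + 1)).filter (fun i => m ≤ i) = Finset.Ico m (N + 1) := by
      ext i
      simp only [Finset.mem_filter, Finset.mem_range, Finset.mem_Ico]
      omega
    rw [h2, Finset.sum_Ico_sub _ hm]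
  have comb : ∑ i ∈ Finset.range (N + 1), (if m ≤ i then (1 : ℤ) else 0) •
        ∑ j ∈ Finset.range (N + 1), (Cxy ax ay i j (N + 1) - Cxy ax ay i j 0)
      - ∑ i ∈ Finset.range (N + 1), (if m ≤ i then (1 : ℤ) else 0) •
        ∑ k ∈ Finset.range (N + 1), (Cxz ax az i (N + 1) k - Cxz ax az i 0 k)
      = - ∑ i ∈ Finset.range (N + 1), (if m ≤ i then (1 : ℤ) else 0) •
        (∑ j ∈ Finset.range (N + 1), (Cxy ax ay i j 0 - Cxy ax ay i j (N + 1))
        + ∑ k ∈ Finset.range (N + 1), (Cxz ax az i (N + 1) k - Cxz ax az i 0 k)) := by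
    rw [← Finset.sum_neg_distrib, ← Finset.sum_sub_distrib]
    refine Finset.sum_congr rfl fun i _ => ?_
    rw [← smul_sub, ← smul_neg]
    congr 1
    simp only [Finset.sum_sub_distrib]
    abel
  rw [add_sub_right_comm, comb, ← tele] at total
  simpa using total

end Discrete

section Poincare

variable {M : Type*} [CommGroup M]

/-- **Discrete Poincare lemma** on the grid `ℕ³`. -/
theorem poincare3 (Ax Ay Az : ℕ → ℕ → ℕ → M)
    (hxy : ∀ i j k, Ax i j k * Ay (i + 1) j k = Ay i j k * Ax i (j + 1) k)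
    (hxz : ∀ i j k, Ax i j k * Az (i + 1) j k = Az i j k * Ax i j (k + 1))
    (hyz : ∀ i j k, Ay i j k * Az i (j + 1) k = Az i j k * Ay i j (k + 1)) :
    ∃ c : ℕ → ℕ → ℕ → M, (∀ i j k, c (i + 1) j k = c i j k * Ax i j k) ∧
      (∀ i j k, c i (j + 1) k = c i j k * Ay i j k) ∧
      (∀ i j k, c i j (k + 1) = c i j k * Az i j k) := by
  have e1 : ∀ i j k, (∏ d ∈ Finset.range k, Az i (j + 1) d) * Ay i j 0
      = (∏ d ∈ Finset.range k, Az i j d) * Ay i j k := by
    intro i j k
    induction k with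
    | zero => simp
    | succ k ih =>
      rw [Finset.prod_range_succ, Finset.prod_range_succ]
      have := hyz i j k
      calc (∏ d ∈ Finset.range k, Az i (j + 1) d) * Az i (j + 1) k * Ay i j 0
          = ((∏ d ∈ Finset.range k, Az i (j + 1) d) * Ay i j 0) * Az i (j + 1) k := by
            rw [mul_right_comm]
        _ = (∏ d ∈ Finset.range k, Az i j d) * (Ay i j k * Az i (j + 1) k) := by
            rw [ih, mul_assoc]
        _ = _ := by rw [this, mul_assoc]
  have e2 : ∀ i j k, (∏ d ∈ Finset.range k, Az (i + 1) j d) * Ax i j 0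
      = (∏ d ∈ Finset.range k, Az i j d) * Ax i j k := by
    intro i j k
    induction k with
    | zero => simp
    | succ k ih =>
      rw [Finset.prod_range_succ, Finset.prod_range_succ]
      have := hxz i j k
      calc (∏ d ∈ Finset.range k, Az (i + 1) j d) * Az (i + 1) j k * Ax i j 0
          = ((∏ d ∈ Finset.range k, Az (i + 1) j d) * Ax i j 0) * Az (i + 1) j k := by
            rw [mul_right_comm]
        _ = (∏ d ∈ Finset.range k, Az i j d) * (Ax i j k * Az (i + 1) j k) := by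
            rw [ih, mul_assoc]
        _ = _ := by rw [this, mul_assoc]
  have e3 : ∀ i j, (∏ b ∈ Finset.range j, Ay (i + 1) b 0) * Ax i 0 0
      = (∏ b ∈ Finset.range j, Ay i b 0) * Ax i j 0 := by
    intro i j
    induction j with
    | zero => simp
    | succ j ih =>
      rw [Finset.prod_range_succ, Finset.prod_range_succ]
      have := hxy i j 0
      calc (∏ b ∈ Finset.range j, Ay (i + 1) b 0) * Ay (i + 1) j 0 * Ax i 0 0
          = ((∏ b ∈ Finset.range j, Ay (i + 1) b 0) * Ax i 0 0) * Ay (i + 1) j 0 := by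
            rw [mul_right_comm]
        _ = (∏ b ∈ Finset.range j, Ay i b 0) * (Ax i j 0 * Ay (i + 1) j 0) := by
            rw [ih, mul_assoc]
        _ = _ := by rw [this, mul_assoc]
  refine ⟨fun i j k => (∏ a ∈ Finset.range i, Ax a 0 0) * (∏ b ∈ Finset.range j, Ay i b 0)
      * ∏ d ∈ Finset.range k, Az i j d, ?_, ?_, ?_⟩
  · intro i j k
    simp only
    rw [Finset.prod_range_succ]
    calc (∏ a ∈ Finset.range i, Ax a 0 0) * Ax i 0 0 * (∏ b ∈ Finset.range j, Ay (i + 1) b 0)
          * ∏ d ∈ Finset.range k, Az (i + 1) j d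
        = (∏ a ∈ Finset.range i, Ax a 0 0) * ((∏ b ∈ Finset.range j, Ay (i + 1) b 0) * Ax i 0 0)
          * ∏ d ∈ Finset.range k, Az (i + 1) j d := by
          rw [mul_assoc (∏ a ∈ Finset.range i, Ax a 0 0), mul_comm (Ax i 0 0)]
      _ = (∏ a ∈ Finset.range i, Ax a 0 0) * (∏ b ∈ Finset.range j, Ay i b 0) *
          ((∏ d ∈ Finset.range k, Az (i + 1) j d) * Ax i j 0) := by
          rw [e3, ← mul_assoc, mul_assoc _ (Ax i j 0), mul_comm (Ax i j 0)]
      _ = _ := by rw [e2, ← mul_assoc]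
  · intro i j k
    simp only
    rw [Finset.prod_range_succ]
    calc (∏ a ∈ Finset.range i, Ax a 0 0) * ((∏ b ∈ Finset.range j, Ay i b 0) * Ay i j 0)
          * ∏ d ∈ Finset.range k, Az i (j + 1) d
        = (∏ a ∈ Finset.range i, Ax a 0 0) * (∏ b ∈ Finset.range j, Ay i b 0) *
          ((∏ d ∈ Finset.range k, Az i (j + 1) d) * Ay i j 0) := by
          rw [← mul_assoc, mul_assoc _ (Ay i j 0), mul_comm (Ay i j 0)]
      _ = _ := by rw [e1, ← mul_assoc]
  · intro i j k
    simp only
    rw [Finset.prod_range_succ, ← mul_assoc]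

end Poincare

end Pool.Agent.W_MP_be6f00_gt
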