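import Mathlib
import Pool.Agent.W_MP_be6f00_gt.Discrete

set_option autoImplicit false

open Set Metric Topology

namespace Pool.Agent.W_MP_be6f00_gt

/-- `s` is locally multiplicative at `e`. -/
def LocMul {E G : Type*} [TopologicalSpace E] [Mul G] (s : E → E → G) (e : E) : Prop :=
  ∃ N ∈ 𝓝 e, ∀ a ∈ N, ∀ b ∈ N, ∀ c ∈ N, s a b * s b c = s a c

/-- the loop running once around the square `s 0 = 0`, `max |s 1| |s 2| = 1` -/
noncomputable def loop (n k : ℕ) : Fin 3 → ℝ :=
  if k < 2 * n then ![0, -1 + (k : ℝ) / n, -1]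
  else if k < 4 * n then ![0, 1, -1 + ((k : ℝ) - 2 * n) / n]
  else if k < 6 * n then ![0, 1 - ((k : ℝ) - 4 * n) / n, 1]
  else ![0, -1, 1 - ((k : ℝ) - 6 * n) / n]

section Gauge

variable {V G : Type*} [Group G] (sgn : G →* ℤˣ) (t : ℤˣ → G) (c : V → ℤˣ) (s3 : V → V → G)

/-- gauge transformed transition -/
def aval (p q : V) : G := t (c p) * s3 p q * (t (c q))⁻¹

theorem aval_mul {p q r : V} (h : s3 p q * s3 q r = s3 p r) :
    aval t c s3 p q * aval t c s3 q r = aval t c s3 p r := by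
  unfold aval
  rw [← h]; group

theorem sgn_aval (ht : ∀ e, sgn (t e) = e) {p q : V} (h : c q = c p * sgn (s3 p q)) :
    sgn (aval t c s3 p q) = 1 := by
  unfold aval
  rw [map_mul, map_mul, map_inv, ht, ht, h]
  have h1 : (c p * sgn (s3 p q)) = (c p * sgn (s3 p q)) := rfl
  rw [mul_inv_cancel]

open Classical in
/-- the value in the kernel -/
noncomputable def Aval (p q : V) : Additive sgn.ker :=
  Additive.ofMul (if h : sgn (aval t c s3 p q) = 1 then ⟨aval t c s3 p q, h⟩ else 1)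

theorem Aval_eq {p q : V} (h : sgn (aval t c s3 p q) = 1) :
    Aval sgn t c s3 p q = Additive.ofMul ⟨aval t c s3 p q, h⟩ := by
  unfold Aval
  rw [dif_pos h]

end Gauge

section Comb

/-- `p` is a corner of the grid cube `(i, j, k)` -/
def Cor (i j k : ℕ) (p : ℕ × ℕ × ℕ) : Prop :=
  (i ≤ p.1 ∧ p.1 ≤ i + 1) ∧ (j ≤ p.2.1 ∧ p.2.1 ≤ j + 1) ∧ (k ≤ p.2.2 ∧ p.2.2 ≤ k + 1)

/-- the boundary path of the middle slice -/
def PP8 (n k : ℕ) : ℕ × ℕ × ℕ :=
  if k < 2 * n then (n, k, 0)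
  else if k < 4 * n then (n, 2 * n, k - 2 * n)
  else if k < 6 * n then (n, 2 * n - (k - 4 * n), 2 * n)
  else (n, 0, 2 * n - (k - 6 * n))

variable {G : Type*} [Group G] (sgn : G →* ℤˣ) (t : ℤˣ → G)

theorem prod_telescope {V : Type*} (c : V → ℤˣ) (s3 : V → V → G) (P : ℕ → V) (N : ℕ) :
    t (c (P 0)) * ((List.range N).map (fun k => s3 (P k) (P (k + 1)))).prod * (t (c (P N)))⁻¹
      = ((List.range N).map (fun k => aval t c s3 (P k) (P (k + 1)))).prod := by
  induction N with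
  | zero => simp
  | succ N ih =>
    rw [List.range_succ, List.map_append, List.map_append, List.prod_append, List.prod_append, ← ih]
    simp only [List.map_cons, List.map_nil, List.prod_cons, List.prod_nil, mul_one]
    unfold aval
    group

theorem corner_gauge (s2 : ℕ × ℕ × ℕ → ℕ × ℕ × ℕ → ℤˣ) (c : ℕ × ℕ × ℕ → ℤˣ)
    (hs2 : ∀ i j k p q r, Cor i j k p → Cor i j k q → Cor i j k r → s2 p q * s2 q r = s2 p r)
    (hcx : ∀ i j k, c (i + 1, j, k) = c (i, j, k) * s2 (i, j, k) (i + 1, j, k))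
    (hcy : ∀ i j k, c (i, j + 1, k) = c (i, j, k) * s2 (i, j, k) (i, j + 1, k))
    (hcz : ∀ i j k, c (i, j, k + 1) = c (i, j, k) * s2 (i, j, k) (i, j, k + 1))
    {i j k : ℕ} {p q : ℕ × ℕ × ℕ} (hp : Cor i j k p) (hq : Cor i j k q) :
    c q = c p * s2 p q := by
  have hone : ∀ p, Cor i j k p → s2 p p = 1 := by
    intro p hp
    have := hs2 i j k p p p hp hp hp
    exact mul_eq_left.1 this
  have ho : Cor i j k (i, j, k) := by unfold Cor; simp
  have key : ∀ p, Cor i j k p → c p = c (i, j, k) * s2 (i, j, k) p := by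
    rintro ⟨a, b, d⟩ hp
    have hp' := hp
    obtain ⟨⟨ha1, ha2⟩, ⟨hb1, hb2⟩, ⟨hd1, hd2⟩⟩ := hp
    simp only at ha1 ha2 hb1 hb2 hd1 hd2
    have h1 : Cor i j k (a, j, k) := by unfold Cor; simp; omega
    have h2 : Cor i j k (a, b, k) := by unfold Cor; simp; omega
    have e1 : c (a, j, k) = c (i, j, k) * s2 (i, j, k) (a, j, k) := by
      rcases (show a = i ∨ a = i + 1 by omega) with rfl | rfl
      · rw [hone _ ho, mul_one]
      · exact hcx i j k
    have e2 : c (a, b, k) = c (a, j, k) * s2 (a, j, k) (a, b, k) := by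
      rcases (show b = j ∨ b = j + 1 by omega) with rfl | rfl
      · rw [hone _ h1, mul_one]
      · exact hcy a j k
    have e3 : c (a, b, d) = c (a, b, k) * s2 (a, b, k) (a, b, d) := by
      rcases (show d = k ∨ d = k + 1 by omega) with rfl | rfl
      · rw [hone _ h2, mul_one]
      · exact hcz a b k
    rw [e3, e2, e1, mul_assoc (c (i, j, k)), hs2 i j k _ _ _ ho h1 h2, mul_assoc,
      hs2 i j k _ _ _ ho h2 hp']
  rw [key q hq, key p hp, mul_assoc, hs2 i j k _ _ _ ho hp hq]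

theorem detect_comb (hK : ∀ a b : G, sgn a = 1 → sgn b = 1 → a * b = b * a)
    (ht : ∀ e, sgn (t e) = e)
    (s3 : ℕ × ℕ × ℕ → ℕ × ℕ × ℕ → G) (s2 : ℕ × ℕ × ℕ → ℕ × ℕ × ℕ → ℤˣ) (X : ℕ × ℕ × ℕ → ℝ)
    (n : ℕ) (hn : 1 ≤ n)
    (hcube : ∀ i j k, (∀ p, Cor i j k p → 0 < X p) ∨ (∀ p, Cor i j k p → X p < 0) ∨
      (∀ p q r, Cor i j k p → Cor i j k q → Cor i j k r →
        s3 p q * s3 q r = s3 p r ∧ sgn (s3 p q) = s2 p q))
    (hs2 : ∀ i j k p q r, Cor i j k p → Cor i j k q → Cor i j k r → s2 p q * s2 q r = s2 p r)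
    (hout : ∀ p : ℕ × ℕ × ℕ, (p.1 ≤ 1 ∨ 2 * n - 1 ≤ p.1 ∨ p.2.1 ≤ 1 ∨ 2 * n - 1 ≤ p.2.1 ∨
      p.2.2 ≤ 1 ∨ 2 * n - 1 ≤ p.2.2) →
      (n < p.1 → 0 < X p) ∧ (p.1 < n → X p < 0) ∧ (p.1 = n → X p = 0)) :
    ((List.range (8 * n)).map (fun k => s3 (PP8 n k) (PP8 n (k + 1)))).prod = 1 := by
  classical
  let _ : CommGroup sgn.ker := { (inferInstance : Group sgn.ker) with
    mul_comm := fun a b => Subtype.ext (hK a b a.2 b.2) }
  obtain ⟨cc, hcx, hcy, hcz⟩ := poincare3 (fun i j k => s2 (i, j, k) (i + 1, j, k))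
    (fun i j k => s2 (i, j, k) (i, j + 1, k)) (fun i j k => s2 (i, j, k) (i, j, k + 1))
    (fun i j k => by
      rw [hs2 i j k _ _ _ (by simp [Cor]) (by simp [Cor]) (by simp [Cor]),
        hs2 i j k _ _ _ (by simp [Cor]) (by simp [Cor]) (by simp [Cor])])
    (fun i j k => by
      rw [hs2 i j k _ _ _ (by simp [Cor]) (by simp [Cor]) (by simp [Cor]),
        hs2 i j k _ _ _ (by simp [Cor]) (by simp [Cor]) (by simp [Cor])])
    (fun i j k => by
      rw [hs2 i j k _ _ _ (by simp [Cor]) (by simp [Cor]) (by simp [Cor]),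
        hs2 i j k _ _ _ (by simp [Cor]) (by simp [Cor]) (by simp [Cor])])
  set c : ℕ × ℕ × ℕ → ℤˣ := fun p => cc p.1 p.2.1 p.2.2 with hc
  have hcg : ∀ {i j k p q}, Cor i j k p → Cor i j k q → c q = c p * s2 p q := by
    intro i j k p q hp hq
    exact corner_gauge s2 c hs2 (fun i j k => hcx i j k) (fun i j k => hcy i j k)
      (fun i j k => hcz i j k) hp hq
  set Good : ℕ → ℕ → ℕ → Prop := fun i j k => ∀ p q r, Cor i j k p → Cor i j k q → Cor i j k r →
        s3 p q * s3 q r = s3 p r ∧ sgn (s3 p q) = s2 p q with hGood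
  set A : ℕ × ℕ × ℕ → ℕ × ℕ × ℕ → Additive sgn.ker := fun p q => Aval sgn t c s3 p q with hA
  have hsg : ∀ {i j k p q}, Good i j k → Cor i j k p → Cor i j k q →
      sgn (aval t c s3 p q) = 1 := by
    intro i j k p q hg hp hq
    refine sgn_aval sgn t c s3 ht ?_
    rw [(hg p q q hp hq hq).2]
    exact hcg hp hq
  have hadd : ∀ {i j k p q r}, Good i j k → Cor i j k p → Cor i j k q → Cor i j k r →
      A p q + A q r = A p r := by
    intro i j k p q r hg hp hq hr
    simp only [hA]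
    rw [Aval_eq sgn t c s3 (hsg hg hp hq), Aval_eq sgn t c s3 (hsg hg hq hr),
      Aval_eq sgn t c s3 (hsg hg hp hr), ← ofMul_mul]
    congr 1
    apply Subtype.ext
    exact aval_mul t c s3 (hg p q r hp hq hr).1
  have hself : ∀ {i j k p}, Good i j k → Cor i j k p → A p p = 0 := by
    intro i j k p hg hp
    have := hadd hg hp hp hp
    simpa using this
  have hneg : ∀ {i j k p q}, Good i j k → Cor i j k p → Cor i j k q → A q p = - A p q := by
    intro i j k p q hg hp hq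
    have := hadd hg hp hq hp
    rw [hself hg hp] at this
    exact (neg_eq_of_add_eq_zero_right this).symm
  -- labels
  set L : ℕ → ℕ → ℕ → ℤ := fun i j k => if ∃ p, Cor i j k p ∧ 0 < X p then 1 else 0 with hL
  have hLne : ∀ i j k i' j' k' q, Cor i j k q → Cor i' j' k' q → L i j k ≠ L i' j' k' →
      Good i j k ∨ Good i' j' k' := by
    intro i j k i' j' k' q hq hq' hne
    simp only [hL] at hne
    by_cases h1 : ∃ p, Cor i j k p ∧ 0 < X p
    · have h2 : ¬ ∃ p, Cor i' j' k' p ∧ 0 < X p := by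
        intro h2; exact hne (by rw [if_pos h1, if_pos h2])
      have hXq : ¬ 0 < X q := fun h => h2 ⟨q, hq', h⟩
      left
      rcases hcube i j k with h | h | h
      · exact absurd (h q hq) hXq
      · obtain ⟨p, hp, hpX⟩ := h1
        exact absurd (h p hp) (not_lt.2 hpX.le)
      · exact h
    · have h2 : ∃ p, Cor i' j' k' p ∧ 0 < X p := by
        by_contra h2; exact hne (by rw [if_neg h1, if_neg h2])
      have hXq : ¬ 0 < X q := fun h => h1 ⟨q, hq, h⟩
      right
      rcases hcube i' j' k' with h | h | h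
      · exact absurd (h q hq') hXq
      · obtain ⟨p, hp, hpX⟩ := h2
        exact absurd (h p hp) (not_lt.2 hpX.le)
      · exact h
  set ax : ℕ → ℕ → ℕ → Additive sgn.ker := fun i j k => A (i, j, k) (i + 1, j, k) with hax
  set ay : ℕ → ℕ → ℕ → Additive sgn.ker := fun i j k => A (i, j, k) (i, j + 1, k) with hay
  set az : ℕ → ℕ → ℕ → Additive sgn.ker := fun i j k => A (i, j, k) (i, j, k + 1) with haz
  have hstokes : Bdry ay az (2 * n) n = 0 := by
    refine stokes3 ax ay az L (2 * n) n (by omega) (by omega) ?_ ?_ ?_ ?_ ?_ ?_ ?_ ?_ ?_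
    · intro i j k hne
      have hfl : ∀ {i' j' k'}, Good i' j' k' → Cor i' j' k' (i, j, k + 1) →
          Cor i' j' k' (i + 1, j, k + 1) → Cor i' j' k' (i, j + 1, k + 1) →
          Cor i' j' k' (i + 1, j + 1, k + 1) → Cxy ax ay i j (k + 1) = 0 := by
        intro i' j' k' hg h1 h2 h3 h4
        unfold Cxy
        simp only [hax, hay]
        rw [hadd hg h1 h2 h4, sub_sub, add_comm (A (i, j + 1, k + 1) _), hadd hg h1 h3 h4, sub_self]
      rcases hLne i j k i j (k + 1) (i, j, k + 1) (by simp [Cor]) (by simp [Cor]) hne with hg | hg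
      · exact hfl hg (by simp [Cor]) (by simp [Cor]) (by simp [Cor]) (by simp [Cor])
      · exact hfl hg (by simp [Cor]) (by simp [Cor]) (by simp [Cor]) (by simp [Cor])
    · intro i j k hne
      have hfl : ∀ {i' j' k'}, Good i' j' k' → Cor i' j' k' (i + 1, j, k) →
          Cor i' j' k' (i + 1, j + 1, k) → Cor i' j' k' (i + 1, j, k + 1) →
          Cor i' j' k' (i + 1, j + 1, k + 1) → Cyz ay az (i + 1) j k = 0 := by
        intro i' j' k' hg h1 h2 h3 h4
        unfold Cyz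
        simp only [haz, hay]
        rw [hadd hg h1 h2 h4, sub_sub, add_comm (A (i + 1, j, k + 1) _), hadd hg h1 h3 h4, sub_self]
      rcases hLne i j k (i + 1) j k (i + 1, j, k) (by simp [Cor]) (by simp [Cor]) hne with hg | hg
      · exact hfl hg (by simp [Cor]) (by simp [Cor]) (by simp [Cor]) (by simp [Cor])
      · exact hfl hg (by simp [Cor]) (by simp [Cor]) (by simp [Cor]) (by simp [Cor])
    · intro i j k hne
      have hfl : ∀ {i' j' k'}, Good i' j' k' → Cor i' j' k' (i, j + 1, k) →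
          Cor i' j' k' (i + 1, j + 1, k) → Cor i' j' k' (i, j + 1, k + 1) →
          Cor i' j' k' (i + 1, j + 1, k + 1) → Cxz ax az i (j + 1) k = 0 := by
        intro i' j' k' hg h1 h2 h3 h4
        unfold Cxz
        simp only [haz, hax]
        rw [hadd hg h1 h2 h4, sub_sub, add_comm (A (i, j + 1, k + 1) _), hadd hg h1 h3 h4, sub_self]
      rcases hLne i j k i (j + 1) k (i, j + 1, k) (by simp [Cor]) (by simp [Cor]) hne with hg | hg
      · exact hfl hg (by simp [Cor]) (by simp [Cor]) (by simp [Cor]) (by simp [Cor])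
      · exact hfl hg (by simp [Cor]) (by simp [Cor]) (by simp [Cor]) (by simp [Cor])
    · intro j k
      simp only [hL]
      rw [if_pos]
      refine ⟨(2 * n, j, k), by simp [Cor]; omega, ?_⟩
      exact (hout (2 * n, j, k) (by simp)).1 (by simp; omega)
    · intro j k
      simp only [hL]
      rw [if_neg]
      rintro ⟨p, ⟨⟨-, hp⟩, -, -⟩, hX⟩
      have := hout p (Or.inl (by omega))
      rcases lt_or_eq_of_le (show p.1 ≤ n by omega) with h | h
      · exact absurd (this.2.1 h) (not_lt.2 hX.le)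
      · rw [this.2.2 h] at hX; exact lt_irrefl _ hX
    · intro i k
      simp only [hL]
      by_cases h : n ≤ i
      · rw [if_pos h, if_pos]
        exact ⟨(i + 1, 0, k), by simp [Cor], (hout (i + 1, 0, k) (by simp)).1 (by simp; omega)⟩
      · rw [if_neg h, if_neg]
        rintro ⟨p, ⟨⟨-, hp1⟩, ⟨-, hp2⟩, -⟩, hX⟩
        have := hout p (by right; right; left; omega)
        rcases lt_or_eq_of_le (show p.1 ≤ n by omega) with h | h
        · exact absurd (this.2.1 h) (not_lt.2 hX.le)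
        · rw [this.2.2 h] at hX; exact lt_irrefl _ hX
    · intro i k
      simp only [hL]
      by_cases h : n ≤ i
      · rw [if_pos h, if_pos]
        exact ⟨(i + 1, 2 * n, k), by simp [Cor]; omega,
          (hout (i + 1, 2 * n, k) (by simp)).1 (by simp; omega)⟩
      · rw [if_neg h, if_neg]
        rintro ⟨p, ⟨⟨-, hp1⟩, ⟨hp2, -⟩, -⟩, hX⟩
        have := hout p (by right; right; right; left; omega)
        rcases lt_or_eq_of_le (show p.1 ≤ n by omega) with h | h
        · exact absurd (this.2.1 h) (not_lt.2 hX.le)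
        · rw [this.2.2 h] at hX; exact lt_irrefl _ hX
    · intro i j
      simp only [hL]
      by_cases h : n ≤ i
      · rw [if_pos h, if_pos]
        exact ⟨(i + 1, j, 0), by simp [Cor], (hout (i + 1, j, 0) (by simp)).1 (by simp; omega)⟩
      · rw [if_neg h, if_neg]
        rintro ⟨p, ⟨⟨-, hp1⟩, -, ⟨-, hp2⟩⟩, hX⟩
        have := hout p (by right; right; right; right; left; omega)
        rcases lt_or_eq_of_le (show p.1 ≤ n by omega) with h | h
        · exact absurd (this.2.1 h) (not_lt.2 hX.le)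
        · rw [this.2.2 h] at hX; exact lt_irrefl _ hX
    · intro i j
      simp only [hL]
      by_cases h : n ≤ i
      · rw [if_pos h, if_pos]
        exact ⟨(i + 1, j, 2 * n), by simp [Cor]; omega,
          (hout (i + 1, j, 2 * n) (by simp)).1 (by simp; omega)⟩
      · rw [if_neg h, if_neg]
        rintro ⟨p, ⟨⟨-, hp1⟩, -, ⟨hp2, -⟩⟩, hX⟩
        have := hout p (by right; right; right; right; right; omega)
        rcases lt_or_eq_of_le (show p.1 ≤ n by omega) with h | h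
        · exact absurd (this.2.1 h) (not_lt.2 hX.le)
        · rw [this.2.2 h] at hX; exact lt_irrefl _ hX
  -- every edge of the loop lies in a good cube
  have hgood0 : ∀ i j k p, Cor i j k p → X p = 0 → Good i j k := by
    intro i j k p hp hX
    rcases hcube i j k with h | h | h
    · exact absurd (h p hp) (by rw [hX]; exact lt_irrefl _)
    · exact absurd (h p hp) (by rw [hX]; exact lt_irrefl _)
    · exact h
  have hP1 : ∀ k, k ≤ 2 * n → PP8 n k = (n, k, 0) := by
    intro k hk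
    unfold PP8
    split_ifs
    · rfl
    · have : k = 2 * n := by omega
      subst this; simp
    · exfalso; omega
    · exfalso; omega
  have hP2 : ∀ k, k ≤ 2 * n → PP8 n (2 * n + k) = (n, 2 * n, k) := by
    intro k hk
    unfold PP8
    split_ifs
    · exfalso; omega
    · simp
    · have : k = 2 * n := by omega
      subst this
      have e : 2 * n + 2 * n - 4 * n = 0 := by omega
      rw [e, Nat.sub_zero]
    · exfalso; omega
  have hP3 : ∀ k, k ≤ 2 * n → PP8 n (4 * n + k) = (n, 2 * n - k, 2 * n) := by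
    intro k hk
    unfold PP8
    split_ifs
    · exfalso; omega
    · exfalso; omega
    · simp only [Prod.mk.injEq, true_and, and_true]; omega
    · have : k = 2 * n := by omega
      subst this
      simp only [Prod.mk.injEq, true_and]; omega
  have hP4 : ∀ k, k ≤ 2 * n → PP8 n (6 * n + k) = (n, 0, 2 * n - k) := by
    intro k hk
    unfold PP8
    split_ifs
    · exfalso; omega
    · exfalso; omega
    · exfalso; omega
    · simp only [Prod.mk.injEq, true_and]; omega
  -- the four sides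
  have E1 : ∀ k < 2 * n, ∃ i j l, Good i j l ∧ Cor i j l (n, k, 0) ∧ Cor i j l (n, k + 1, 0) := by
    intro k hk
    exact ⟨n, k, 0, hgood0 n k 0 (n, k, 0) (by simp [Cor]) ((hout _ (by simp)).2.2 rfl),
      by simp [Cor], by simp [Cor]⟩
  have E2 : ∀ k < 2 * n, ∃ i j l, Good i j l ∧ Cor i j l (n, 2 * n, k) ∧
      Cor i j l (n, 2 * n, k + 1) := by
    intro k hk
    exact ⟨n, 2 * n, k, hgood0 n (2 * n) k (n, 2 * n, k) (by simp [Cor])
      ((hout _ (by simp)).2.2 rfl), by simp [Cor], by simp [Cor]⟩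
  have E3 : ∀ k < 2 * n, ∃ i j l, Good i j l ∧ Cor i j l (n, k, 2 * n) ∧
      Cor i j l (n, k + 1, 2 * n) := by
    intro k hk
    exact ⟨n, k, 2 * n, hgood0 n k (2 * n) (n, k, 2 * n) (by simp [Cor])
      ((hout _ (by simp)).2.2 rfl), by simp [Cor], by simp [Cor]⟩
  have E4 : ∀ k < 2 * n, ∃ i j l, Good i j l ∧ Cor i j l (n, 0, k) ∧ Cor i j l (n, 0, k + 1) := by
    intro k hk
    exact ⟨n, 0, k, hgood0 n 0 k (n, 0, k) (by simp [Cor]) ((hout _ (by simp)).2.2 rfl),
      by simp [Cor], by simp [Cor]⟩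
  have hedge : ∀ k < 8 * n, ∃ i j l, Good i j l ∧ Cor i j l (PP8 n k) ∧ Cor i j l (PP8 n (k + 1)) := by
    intro k hk
    rcases lt_or_ge k (2 * n) with h1 | h1
    · rw [hP1 k h1.le, hP1 (k + 1) (by omega)]
      exact E1 k h1
    rcases lt_or_ge k (4 * n) with h2 | h2
    · obtain ⟨d, rfl⟩ := Nat.exists_eq_add_of_le h1
      rw [hP2 d (by omega), show 2 * n + d + 1 = 2 * n + (d + 1) by ring, hP2 (d + 1) (by omega)]
      exact E2 d (by omega)
    rcases lt_or_ge k (6 * n) with h3 | h3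
    · obtain ⟨d, rfl⟩ := Nat.exists_eq_add_of_le h2
      rw [hP3 d (by omega), show 4 * n + d + 1 = 4 * n + (d + 1) by ring, hP3 (d + 1) (by omega)]
      obtain ⟨i, j, l, hg, h4, h5⟩ := E3 (2 * n - (d + 1)) (by omega)
      refine ⟨i, j, l, hg, ?_, h4⟩
      rwa [show 2 * n - (d + 1) + 1 = 2 * n - d by omega] at h5
    · obtain ⟨d, rfl⟩ := Nat.exists_eq_add_of_le h3
      rw [hP4 d (by omega), show 6 * n + d + 1 = 6 * n + (d + 1) by ring, hP4 (d + 1) (by omega)]
      obtain ⟨i, j, l, hg, h4, h5⟩ := E4 (2 * n - (d + 1)) (by omega)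
      refine ⟨i, j, l, hg, ?_, h4⟩
      rwa [show 2 * n - (d + 1) + 1 = 2 * n - d by omega] at h5
  have hprod : ∀ N ≤ 8 * n,
      ((List.range N).map (fun k => aval t c s3 (PP8 n k) (PP8 n (k + 1)))).prod
      = ((Additive.toMul (∑ k ∈ Finset.range N, A (PP8 n k) (PP8 n (k + 1))) : sgn.ker) : G) := by
    intro N
    induction N with
    | zero => intro _; simp
    | succ N ih =>
      intro hN
      rw [List.range_succ, List.map_append, List.prod_append, ih (by omega),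
        Finset.sum_range_succ, toMul_add, Subgroup.coe_mul]
      congr 1
      obtain ⟨i, j, l, hg, h4, h5⟩ := hedge N (by omega)
      simp only [List.map_cons, List.map_nil, List.prod_cons, List.prod_nil, mul_one, hA]
      rw [Aval_eq sgn t c s3 (hsg hg h4 h5)]
      rfl
  have hsum : ∑ k ∈ Finset.range (8 * n), A (PP8 n k) (PP8 n (k + 1)) = Bdry ay az (2 * n) n := by
    rw [show 8 * n = 2 * n + (2 * n + (2 * n + 2 * n)) by ring, Finset.sum_range_add,
      Finset.sum_range_add, Finset.sum_range_add]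
    unfold Bdry
    rw [← add_assoc, ← add_assoc, sub_eq_add_neg, sub_eq_add_neg]
    congr 1
    · congr 1
      · congr 1
        · refine Finset.sum_congr rfl fun k hk => ?_
          have hk := Finset.mem_range.1 hk
          rw [hP1 k hk.le, hP1 (k + 1) (by omega)]
        · refine Finset.sum_congr rfl fun k hk => ?_
          have hk := Finset.mem_range.1 hk
          rw [hP2 k hk.le, show 2 * n + k + 1 = 2 * n + (k + 1) by ring, hP2 (k + 1) (by omega)]
      · rw [← Finset.sum_range_reflect, ← Finset.sum_neg_distrib]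
        refine Finset.sum_congr rfl fun k hk => ?_
        have hk := Finset.mem_range.1 hk
        rw [show 2 * n + (2 * n + (2 * n - 1 - k)) = 4 * n + (2 * n - 1 - k) by omega,
          show 4 * n + (2 * n - 1 - k) + 1 = 4 * n + (2 * n - k) by omega,
          hP3 _ (by omega), hP3 _ (by omega),
          show 2 * n - (2 * n - 1 - k) = k + 1 by omega, show 2 * n - (2 * n - k) = k by omega]
        obtain ⟨i, j, l, hg, h4, h5⟩ := E3 k hk
        exact hneg hg h4 h5
    · rw [← Finset.sum_range_reflect, ← Finset.sum_neg_distrib]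
      refine Finset.sum_congr rfl fun k hk => ?_
      have hk := Finset.mem_range.1 hk
      rw [show 2 * n + (2 * n + (2 * n + (2 * n - 1 - k))) = 6 * n + (2 * n - 1 - k) by omega,
        show 6 * n + (2 * n - 1 - k) + 1 = 6 * n + (2 * n - k) by omega,
        hP4 _ (by omega), hP4 _ (by omega),
        show 2 * n - (2 * n - 1 - k) = k + 1 by omega, show 2 * n - (2 * n - k) = k by omega]
      obtain ⟨i, j, l, hg, h4, h5⟩ := E4 k hk
      exact hneg hg h4 h5
  have h1 := prod_telescope t c s3 (PP8 n) (8 * n)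
  rw [hprod (8 * n) le_rfl, hsum, hstokes] at h1
  have h2 : PP8 n (8 * n) = PP8 n 0 := by
    have e1 := hP4 (2 * n) le_rfl
    have e2 := hP1 0 (by omega)
    rw [show 6 * n + 2 * n = 8 * n by ring] at e1
    rw [e1, e2]; simp
  rw [h2] at h1
  simp only [toMul_zero, Subgroup.coe_one] at h1
  have h3 : t (c (PP8 n 0)) * ((List.range (8 * n)).map
      (fun k => s3 (PP8 n k) (PP8 n (k + 1)))).prod = t (c (PP8 n 0)) :=
    mul_inv_eq_one.1 h1
  exact mul_eq_left.1 h3

end Comb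

section Topo

/-- radial retraction of 3-space to the cube -/
noncomputable def retr (s : Fin 3 → ℝ) : Fin 3 → ℝ := (max 1 ‖s‖)⁻¹ • s

theorem max_pos' (s : Fin 3 → ℝ) : 0 < max 1 ‖s‖ := lt_of_lt_of_le one_pos (le_max_left _ _)

theorem continuous_retr : Continuous retr := by
  have h : Continuous fun s : Fin 3 → ℝ => (max 1 ‖s‖)⁻¹ :=
    (continuous_const.max continuous_norm).inv₀ (fun s => (max_pos' s).ne')
  exact h.smul continuous_id

theorem norm_retr (s : Fin 3 → ℝ) : ‖retr s‖ = ‖s‖ / max 1 ‖s‖ := by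
  unfold retr
  rw [norm_smul, norm_inv, Real.norm_of_nonneg (max_pos' s).le, div_eq_inv_mul]

theorem retr_mem (s : Fin 3 → ℝ) : retr s ∈ closedBall (0 : Fin 3 → ℝ) 1 := by
  rw [mem_closedBall_zero_iff, norm_retr]
  exact div_le_one_of_le₀ (le_max_right _ _) (max_pos' s).le

theorem retr_mem_sphere {s : Fin 3 → ℝ} (hs : 1 ≤ ‖s‖) : retr s ∈ sphere (0 : Fin 3 → ℝ) 1 := by
  rw [mem_sphere_zero_iff_norm, norm_retr, max_eq_right hs]
  exact div_self (by linarith)

theorem retr_apply (s : Fin 3 → ℝ) (i : Fin 3) : retr s i = s i / max 1 ‖s‖ := by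
  unfold retr
  simp [div_eq_inv_mul]

/-- the grid point -/
noncomputable def phi (n : ℕ) (p : ℕ × ℕ × ℕ) : Fin 3 → ℝ :=
  ![(((min p.1 (2 * n) : ℕ) : ℝ) - n) / ((n : ℝ) - 1),
    (((min p.2.1 (2 * n) : ℕ) : ℝ) - n) / ((n : ℝ) - 1),
    (((min p.2.2 (2 * n) : ℕ) : ℝ) - n) / ((n : ℝ) - 1)]

theorem abs_idx_le (n a : ℕ) : |((min a (2 * n) : ℕ) : ℝ) - n| ≤ n := by
  have h1 : min a (2 * n) ≤ 2 * n := min_le_right _ _
  have h2 : ((min a (2 * n) : ℕ) : ℝ) ≤ 2 * n := by exact_mod_cast h1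
  have h3 : (0 : ℝ) ≤ ((min a (2 * n) : ℕ) : ℝ) := Nat.cast_nonneg _
  rw [abs_le]; constructor <;> linarith

theorem norm_phi_le {n : ℕ} (hn : 2 ≤ n) (p : ℕ × ℕ × ℕ) : ‖phi n p‖ ≤ n / ((n : ℝ) - 1) := by
  have hn' : (2 : ℝ) ≤ n := by exact_mod_cast hn
  have hpos : 0 < (n : ℝ) - 1 := by linarith
  rw [pi_norm_le_iff_of_nonneg (by positivity)]
  intro i
  fin_cases i <;> simp only [phi, Real.norm_eq_abs] <;>
    simp only [Fin.zero_eta, Fin.isValue, Matrix.cons_val_zero, Fin.mk_one, Matrix.cons_val_one,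
      Fin.reduceFinMk, Matrix.cons_val, abs_div, abs_of_pos hpos] <;>
    exact div_le_div_of_nonneg_right (abs_idx_le n _) hpos.le

theorem phi_mem {n : ℕ} (hn : 2 ≤ n) (p : ℕ × ℕ × ℕ) : phi n p ∈ closedBall (0 : Fin 3 → ℝ) 2 := by
  have hn' : (2 : ℝ) ≤ n := by exact_mod_cast hn
  have hpos : 0 < (n : ℝ) - 1 := by linarith
  rw [mem_closedBall_zero_iff]
  refine (norm_phi_le hn p).trans ?_
  rw [div_le_iff₀ hpos]; linarith

theorem idx_diff {n a b : ℕ} (h : a ≤ b ∧ b ≤ a + 1) :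
    |(((min b (2 * n) : ℕ) : ℝ) - n) - (((min a (2 * n) : ℕ) : ℝ) - n)| ≤ 1 := by
  have h1 : min a (2 * n) ≤ min b (2 * n) := by omega
  have h2 : min b (2 * n) ≤ min a (2 * n) + 1 := by omega
  have h1' : ((min a (2 * n) : ℕ) : ℝ) ≤ ((min b (2 * n) : ℕ) : ℝ) := by exact_mod_cast h1
  have h2' : ((min b (2 * n) : ℕ) : ℝ) ≤ ((min a (2 * n) : ℕ) : ℝ) + 1 := by exact_mod_cast h2
  rw [abs_le]; constructor <;> linarith

theorem dist_phi {n : ℕ} (hn : 2 ≤ n) {i j k : ℕ} {p : ℕ × ℕ × ℕ} (hp : Cor i j k p) :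
    dist (phi n p) (phi n (i, j, k)) ≤ 1 / ((n : ℝ) - 1) := by
  have hn' : (2 : ℝ) ≤ n := by exact_mod_cast hn
  have hpos : 0 < (n : ℝ) - 1 := by linarith
  rw [dist_pi_le_iff (by positivity)]
  intro m
  fin_cases m <;> simp only [phi, Real.dist_eq] <;>
    simp only [Fin.zero_eta, Fin.isValue, Matrix.cons_val_zero, Fin.mk_one, Matrix.cons_val_one,
      Fin.reduceFinMk, Matrix.cons_val, ← sub_div, abs_div, abs_of_pos hpos] <;>
    refine div_le_div_of_nonneg_right ?_ hpos.le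
  · exact idx_diff hp.1
  · exact idx_diff hp.2.1
  · exact idx_diff hp.2.2

theorem one_le_idx {n a : ℕ} (hn : 2 ≤ n) (h : a ≤ 1 ∨ 2 * n - 1 ≤ a) :
    1 ≤ |(((min a (2 * n) : ℕ) : ℝ) - n) / ((n : ℝ) - 1)| := by
  have hn' : (2 : ℝ) ≤ n := by exact_mod_cast hn
  have hpos : 0 < (n : ℝ) - 1 := by linarith
  rw [abs_div, abs_of_pos hpos, le_div_iff₀ hpos, one_mul, le_abs]
  rcases h with h | h
  · right
    have : min a (2 * n) ≤ 1 := (min_le_left _ _).trans h
    have : ((min a (2 * n) : ℕ) : ℝ) ≤ 1 := by exact_mod_cast this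
    linarith
  · left
    have : 2 * n ≤ min a (2 * n) + 1 := by omega
    have : (2 * n : ℝ) ≤ ((min a (2 * n) : ℕ) : ℝ) + 1 := by exact_mod_cast this
    linarith

theorem one_le_norm_phi {n : ℕ} (hn : 2 ≤ n) {p : ℕ × ℕ × ℕ}
    (hp : p.1 ≤ 1 ∨ 2 * n - 1 ≤ p.1 ∨ p.2.1 ≤ 1 ∨ 2 * n - 1 ≤ p.2.1 ∨
      p.2.2 ≤ 1 ∨ 2 * n - 1 ≤ p.2.2) : 1 ≤ ‖phi n p‖ := by
  rcases hp with h | h | h | h | h | h
  · exact (one_le_idx hn (Or.inl h)).trans (norm_le_pi_norm (phi n p) 0)
  · exact (one_le_idx hn (Or.inr h)).trans (norm_le_pi_norm (phi n p) 0)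
  · exact (one_le_idx hn (Or.inl h)).trans (norm_le_pi_norm (phi n p) 1)
  · exact (one_le_idx hn (Or.inr h)).trans (norm_le_pi_norm (phi n p) 1)
  · exact (one_le_idx hn (Or.inl h)).trans (norm_le_pi_norm (phi n p) 2)
  · exact (one_le_idx hn (Or.inr h)).trans (norm_le_pi_norm (phi n p) 2)

/-- on the loop the retracted grid points are the points of `loop` -/
theorem retr_phi_PP8 {n : ℕ} (hn : 2 ≤ n) {k : ℕ} (hk : k ≤ 8 * n) :
    retr (phi n (PP8 n k)) = loop n k := by
  have hn' : (2 : ℝ) ≤ n := by exact_mod_cast hn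
  have hpos : 0 < (n : ℝ) - 1 := by linarith
  have hn0 : (n : ℝ) ≠ 0 := by positivity
  have hn1 : (n : ℝ) - 1 ≠ 0 := hpos.ne'
  -- the norm
  have hnorm : ‖phi n (PP8 n k)‖ = n / ((n : ℝ) - 1) := by
    refine le_antisymm (norm_phi_le hn _) ?_
    have hb : ∀ p : ℕ × ℕ × ℕ, (p.2.1 = 0 ∨ p.2.1 = 2 * n ∨ p.2.2 = 0 ∨ p.2.2 = 2 * n) →
        n / ((n : ℝ) - 1) ≤ ‖phi n p‖ := by
      intro p hp
      have h0 : ∀ a : ℕ, (a = 0 ∨ a = 2 * n) →
          n / ((n : ℝ) - 1) ≤ |(((min a (2 * n) : ℕ) : ℝ) - n) / ((n : ℝ) - 1)| := by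
        intro a ha
        rw [abs_div, abs_of_pos hpos]
        refine div_le_div_of_nonneg_right ?_ hpos.le
        rcases ha with rfl | rfl
        · simp
        · rw [min_self]; push_cast
          rw [show (2 * (n : ℝ) - n) = n by ring]
          exact le_abs_self _
      rcases hp with h | h | h | h
      · exact (h0 _ (Or.inl h)).trans (norm_le_pi_norm (phi n p) 1)
      · exact (h0 _ (Or.inr h)).trans (norm_le_pi_norm (phi n p) 1)
      · exact (h0 _ (Or.inl h)).trans (norm_le_pi_norm (phi n p) 2)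
      · exact (h0 _ (Or.inr h)).trans (norm_le_pi_norm (phi n p) 2)
    apply hb
    unfold PP8
    split_ifs <;> simp
  have hmax : max 1 ‖phi n (PP8 n k)‖ = n / ((n : ℝ) - 1) := by
    rw [hnorm]
    refine max_eq_right ?_
    rw [le_div_iff₀ hpos]; linarith
  have hval : ∀ i, retr (phi n (PP8 n k)) i = phi n (PP8 n k) i * (((n : ℝ) - 1) / n) := by
    intro i
    rw [retr_apply, hmax, div_div_eq_mul_div, mul_div_assoc]
  have hco : ∀ a : ℕ, a ≤ 2 * n → (((min a (2 * n) : ℕ) : ℝ) - n) / ((n : ℝ) - 1) *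
      (((n : ℝ) - 1) / n) = ((a : ℝ) - n) / n := by
    intro a ha
    rw [min_eq_left ha]
    field_simp
  funext i
  rw [hval]
  unfold loop PP8
  split_ifs with h1 h2 h3
  · fin_cases i
    · simp only [phi, Fin.zero_eta, Fin.isValue, Matrix.cons_val_zero]
      rw [hco n (by omega)]; simp
    · simp only [phi, Fin.mk_one, Fin.isValue, Matrix.cons_val_one, Matrix.cons_val_zero]
      rw [hco k (by omega)]; field_simp; ring
    · simp only [phi, Fin.reduceFinMk, Matrix.cons_val]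
      rw [hco 0 (by omega)]; field_simp; simp
  · have e : ((k - 2 * n : ℕ) : ℝ) = (k : ℝ) - 2 * n := by
      rw [Nat.cast_sub (by omega)]; push_cast; ring
    fin_cases i
    · simp only [phi, Fin.zero_eta, Fin.isValue, Matrix.cons_val_zero]
      rw [hco n (by omega)]; simp
    · simp only [phi, Fin.mk_one, Fin.isValue, Matrix.cons_val_one, Matrix.cons_val_zero]
      rw [hco (2 * n) (by omega)]; push_cast; field_simp; ring
    · simp only [phi, Fin.reduceFinMk, Matrix.cons_val]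
      rw [hco (k - 2 * n) (by omega), e]; field_simp; ring
  · have e : ((2 * n - (k - 4 * n) : ℕ) : ℝ) = 6 * n - (k : ℝ) := by
      rw [Nat.cast_sub (by omega), Nat.cast_sub (by omega)]; push_cast; ring
    fin_cases i
    · simp only [phi, Fin.zero_eta, Fin.isValue, Matrix.cons_val_zero]
      rw [hco n (by omega)]; simp
    · simp only [phi, Fin.mk_one, Fin.isValue, Matrix.cons_val_one, Matrix.cons_val_zero]
      rw [hco (2 * n - (k - 4 * n)) (by omega), e]; field_simp; ring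
    · simp only [phi, Fin.reduceFinMk, Matrix.cons_val]
      rw [hco (2 * n) (by omega)]; push_cast; field_simp; ring
  · have e : ((2 * n - (k - 6 * n) : ℕ) : ℝ) = 8 * n - (k : ℝ) := by
      rw [Nat.cast_sub (by omega), Nat.cast_sub (by omega)]; push_cast; ring
    fin_cases i
    · simp only [phi, Fin.zero_eta, Fin.isValue, Matrix.cons_val_zero]
      rw [hco n (by omega)]; simp
    · simp only [phi, Fin.mk_one, Fin.isValue, Matrix.cons_val_one, Matrix.cons_val_zero]
      rw [hco 0 (by omega)]; field_simp; simp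
    · simp only [phi, Fin.reduceFinMk, Matrix.cons_val]
      rw [hco (2 * n - (k - 6 * n)) (by omega), e]; field_simp; ring

/-- **Detection lemma.**  A locally multiplicative pair function `s3` near the zero set of `x`,
whose sign extends to a locally multiplicative pair function `s2` everywhere, has trivial
holonomy around the equator of a sphere which bounds a ball. -/
theorem detect {E : Type*} [TopologicalSpace E] {X : Set E} {x : E → ℝ} (hx : Continuous x)
    {G : Type*} [Group G] (sgn : G →* ℤˣ)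
    (hK : ∀ a b : G, sgn a = 1 → sgn b = 1 → a * b = b * a) {τ : G} (hτ : sgn τ = -1)
    {s3 : E → E → G} {s2 : E → E → ℤˣ}
    (h3 : ∀ e ∈ X, x e = 0 → LocMul s3 e) (h2 : ∀ e ∈ X, LocMul s2 e)
    (h32 : ∀ e ∈ X, x e = 0 → ∃ N ∈ 𝓝 e, ∀ a ∈ N, ∀ b ∈ N, sgn (s3 a b) = s2 a b)
    {F : (Fin 3 → ℝ) → E} (hF : ContinuousOn F (closedBall 0 1))
    (hFX : ∀ s ∈ closedBall (0 : Fin 3 → ℝ) 1, F s ∈ X)
    (hpos : ∀ s ∈ sphere (0 : Fin 3 → ℝ) 1, 0 < s 0 → 0 < x (F s))
    (hneg : ∀ s ∈ sphere (0 : Fin 3 → ℝ) 1, s 0 < 0 → x (F s) < 0)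
    (hzero : ∀ s ∈ sphere (0 : Fin 3 → ℝ) 1, s 0 = 0 → x (F s) = 0) :
    ∃ n₀, ∀ n ≥ n₀, ((List.range (8 * n)).map
      (fun k => s3 (F (loop n k)) (F (loop n (k + 1))))).prod = 1 := by
  classical
  set Fh : (Fin 3 → ℝ) → E := fun s => F (retr s) with hFh
  have hFc : Continuous Fh := hF.comp_continuous continuous_retr retr_mem
  have hFhX : ∀ s, Fh s ∈ X := fun s => hFX _ (retr_mem s)
  have hxc : Continuous fun s => x (Fh s) := hx.comp hFc
  -- local types
  have hloc : ∀ s : Fin 3 → ℝ, ∃ O : Set (Fin 3 → ℝ), IsOpen O ∧ s ∈ O ∧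
      ((∀ a ∈ O, 0 < x (Fh a)) ∨ (∀ a ∈ O, x (Fh a) < 0) ∨
        (∀ a ∈ O, ∀ b ∈ O, ∀ c ∈ O, s3 (Fh a) (Fh b) * s3 (Fh b) (Fh c) = s3 (Fh a) (Fh c) ∧
          sgn (s3 (Fh a) (Fh b)) = s2 (Fh a) (Fh b))) ∧
      (∀ a ∈ O, ∀ b ∈ O, ∀ c ∈ O, s2 (Fh a) (Fh b) * s2 (Fh b) (Fh c) = s2 (Fh a) (Fh c)) := by
    intro s
    obtain ⟨N2, hN2, hN2m⟩ := h2 (Fh s) (hFhX s)
    obtain ⟨M2, hM2s, hM2o, hsM2⟩ := mem_nhds_iff.1 hN2
    rcases lt_trichotomy (x (Fh s)) 0 with h | h | h
    · refine ⟨{a | x (Fh a) < 0} ∩ Fh ⁻¹' M2, (isOpen_lt hxc continuous_const).inter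
        (hM2o.preimage hFc), ⟨h, hsM2⟩, Or.inr (Or.inl fun a ha => ha.1), ?_⟩
      intro a ha b hb c hc
      exact hN2m _ (hM2s ha.2) _ (hM2s hb.2) _ (hM2s hc.2)
    · obtain ⟨N3, hN3, hN3m⟩ := h3 (Fh s) (hFhX s) h
      obtain ⟨N4, hN4, hN4m⟩ := h32 (Fh s) (hFhX s) h
      obtain ⟨M3, hM3s, hM3o, hsM3⟩ := mem_nhds_iff.1 hN3
      obtain ⟨M4, hM4s, hM4o, hsM4⟩ := mem_nhds_iff.1 hN4
      refine ⟨Fh ⁻¹' M3 ∩ Fh ⁻¹' M4 ∩ Fh ⁻¹' M2, ((hM3o.preimage hFc).inter
        (hM4o.preimage hFc)).inter (hM2o.preimage hFc), ⟨⟨hsM3, hsM4⟩, hsM2⟩,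
        Or.inr (Or.inr ?_), ?_⟩
      · intro a ha b hb c hc
        exact ⟨hN3m _ (hM3s ha.1.1) _ (hM3s hb.1.1) _ (hM3s hc.1.1),
          hN4m _ (hM4s ha.1.2) _ (hM4s hb.1.2)⟩
      · intro a ha b hb c hc
        exact hN2m _ (hM2s ha.2) _ (hM2s hb.2) _ (hM2s hc.2)
    · refine ⟨{a | 0 < x (Fh a)} ∩ Fh ⁻¹' M2, (isOpen_lt continuous_const hxc).inter
        (hM2o.preimage hFc), ⟨h, hsM2⟩, Or.inl fun a ha => ha.1, ?_⟩
      intro a ha b hb c hc
      exact hN2m _ (hM2s ha.2) _ (hM2s hb.2) _ (hM2s hc.2)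
  choose O hOo hOs hO1 hO2 using hloc
  obtain ⟨δ, hδ, hδO⟩ := lebesgue_number_lemma_of_metric
    (isCompact_closedBall (0 : Fin 3 → ℝ) 2) hOo (fun s _ => mem_iUnion.2 ⟨s, hOs s⟩)
  obtain ⟨m, hm⟩ := exists_nat_gt (1 / δ)
  refine ⟨m + 2, fun n hn => ?_⟩
  have hn2 : 2 ≤ n := by omega
  have hn' : (2 : ℝ) ≤ n := by exact_mod_cast hn2
  have hnpos : 0 < (n : ℝ) - 1 := by linarith
  have hmesh : 1 / ((n : ℝ) - 1) < δ := by
    have h1 : (m : ℝ) + 2 ≤ n := by exact_mod_cast hn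
    rw [div_lt_iff₀ hnpos]
    rw [div_lt_iff₀ hδ] at hm
    nlinarith
  set W : ℕ × ℕ × ℕ → E := fun p => Fh (phi n p) with hW
  have hcubeO : ∀ i j k, ∃ s, ∀ p, Cor i j k p → phi n p ∈ O s := by
    intro i j k
    obtain ⟨s, hs⟩ := hδO (phi n (i, j, k)) (phi_mem hn2 _)
    refine ⟨s, fun p hp => hs ?_⟩
    rw [mem_ball]
    exact lt_of_le_of_lt (dist_phi hn2 hp) hmesh
  have hsignpos : ∀ s, 1 ≤ ‖s‖ → 0 < s 0 → 0 < x (Fh s) := by
    intro s hs h
    refine hpos _ (retr_mem_sphere hs) ?_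
    rw [retr_apply]; exact div_pos h (max_pos' s)
  have hsignneg : ∀ s, 1 ≤ ‖s‖ → s 0 < 0 → x (Fh s) < 0 := by
    intro s hs h
    refine hneg _ (retr_mem_sphere hs) ?_
    rw [retr_apply]; exact div_neg_of_neg_of_pos h (max_pos' s)
  have hsignzero : ∀ s, 1 ≤ ‖s‖ → s 0 = 0 → x (Fh s) = 0 := by
    intro s hs h
    refine hzero _ (retr_mem_sphere hs) ?_
    rw [retr_apply, h, zero_div]
  have hmain := detect_comb sgn (fun e => if e = 1 then 1 else τ) hK (by
      intro e
      rcases Int.units_eq_one_or e with rfl | rfl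
      · simp
      · simp [hτ])
    (fun p q => s3 (W p) (W q)) (fun p q => s2 (W p) (W q)) (fun p => x (W p)) n (by omega)
    (by
      intro i j k
      obtain ⟨s, hs⟩ := hcubeO i j k
      rcases hO1 s with h | h | h
      · exact Or.inl fun p hp => h _ (hs p hp)
      · exact Or.inr (Or.inl fun p hp => h _ (hs p hp))
      · exact Or.inr (Or.inr fun p q r hp hq hr => h _ (hs p hp) _ (hs q hq) _ (hs r hr)))
    (by
      intro i j k p q r hp hq hr
      obtain ⟨s, hs⟩ := hcubeO i j k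
      exact hO2 s _ (hs p hp) _ (hs q hq) _ (hs r hr))
    (by
      intro p hp
      have hno := one_le_norm_phi hn2 hp
      have h0 : phi n p 0 = (((min p.1 (2 * n) : ℕ) : ℝ) - n) / ((n : ℝ) - 1) := rfl
      refine ⟨fun h => hsignpos _ hno ?_, fun h => hsignneg _ hno ?_, fun h => hsignzero _ hno ?_⟩
      · rw [h0]
        refine div_pos ?_ hnpos
        have : n < min p.1 (2 * n) := by omega
        have : (n : ℝ) < ((min p.1 (2 * n) : ℕ) : ℝ) := by exact_mod_cast this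
        linarith
      · rw [h0]
        refine div_neg_of_neg_of_pos ?_ hnpos
        have : min p.1 (2 * n) < n := by omega
        have : ((min p.1 (2 * n) : ℕ) : ℝ) < (n : ℝ) := by exact_mod_cast this
        linarith
      · rw [h0, h, min_eq_left (by omega), sub_self, zero_div])
  have hWl : ∀ k ≤ 8 * n, W (PP8 n k) = F (loop n k) := by
    intro k hk
    simp only [hW, hFh]
    rw [retr_phi_PP8 hn2 hk]
  rw [← hmain]
  congr 1
  refine List.map_congr_left fun k hk => ?_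
  have hk := List.mem_range.1 hk
  rw [hWl k hk.le, hWl (k + 1) (by omega)]

end Topo

end Pool.Agent.W_MP_be6f00_gt
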