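import Pool.Agent.W_MP_6d5819_gt.Compare
import Pool.Agent.W_MP_be6f00_gt.Defs

set_option autoImplicit false

/-! # BE18: the Mayer-Vietoris inequality for relative singular homology -/

open CategoryTheory Limits AlgebraicTopology Simplicial
open scoped ENNReal

namespace Pool.Agent.PolyKnots

namespace BE18

open Pool.Agent.W_MP_6d5819_gt

section Lin

variable {F : Type} [Field F]

/-- A subquotient. -/
def QS {R W : Type} [CommRing R] [AddCommGroup W] [Module R W] (Zc Bc : Submodule R W) : Type :=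
  ↥Zc ⧸ Bc.submoduleOf Zc

noncomputable instance {R W : Type} [CommRing R] [AddCommGroup W] [Module R W]
    (Zc Bc : Submodule R W) : AddCommGroup (QS Zc Bc) :=
  inferInstanceAs (AddCommGroup (↥Zc ⧸ Bc.submoduleOf Zc))

noncomputable instance {R W : Type} [CommRing R] [AddCommGroup W] [Module R W]
    (Zc Bc : Submodule R W) : Module R (QS Zc Bc) :=
  inferInstanceAs (Module R (↥Zc ⧸ Bc.submoduleOf Zc))

/-- The class of an element. -/
noncomputable def QS.mk {R W : Type} [CommRing R] [AddCommGroup W] [Module R W]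
    (Zc Bc : Submodule R W) : Zc →ₗ[R] QS Zc Bc := (Bc.submoduleOf Zc).mkQ

theorem QS.mk_surjective {R W : Type} [CommRing R] [AddCommGroup W] [Module R W]
    (Zc Bc : Submodule R W) : Function.Surjective (QS.mk Zc Bc) :=
  Submodule.mkQ_surjective _

theorem QS.mk_eq_zero {R W : Type} [CommRing R] [AddCommGroup W] [Module R W]
    (Zc Bc : Submodule R W) (c : Zc) : QS.mk Zc Bc c = 0 ↔ (c : W) ∈ Bc :=
  Submodule.Quotient.mk_eq_zero _

/-- The map of subquotients induced by inclusions. -/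
noncomputable def QS.map {R W : Type} [CommRing R] [AddCommGroup W] [Module R W]
    {Zc Bc Zc' Bc' : Submodule R W} (h1 : Zc ≤ Zc') (h2 : Bc ≤ Bc') : QS Zc Bc →ₗ[R] QS Zc' Bc' :=
  Submodule.mapQ _ _ (Submodule.inclusion h1) (fun _ hx => h2 hx)

theorem QS.map_mk {R W : Type} [CommRing R] [AddCommGroup W] [Module R W]
    {Zc Bc Zc' Bc' : Submodule R W} (h1 : Zc ≤ Zc') (h2 : Bc ≤ Bc') (c : Zc) :
    QS.map h1 h2 (QS.mk Zc Bc c) = QS.mk Zc' Bc' (Submodule.inclusion h1 c) := rfl

theorem quot_equiv {F : Type} [CommRing F] {A B C W : Type} [AddCommGroup A] [Module F A]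
    [AddCommGroup B] [Module F B] [AddCommGroup C] [Module F C] [AddCommGroup W] [Module F W]
    (f : A →ₗ[F] B) (g : B →ₗ[F] C) (hf : ∀ a, f a ∈ LinearMap.ker g)
    (Zc Bc : Submodule F W) (θ : Zc →ₗ[F] B)
    (h1 : ∀ c, θ c ∈ LinearMap.ker g)
    (h2 : ∀ b ∈ LinearMap.ker g, ∃ c, θ c = b)
    (h3 : ∀ c, θ c ∈ LinearMap.range f ↔ (c : W) ∈ Bc) :
    Nonempty ((↥(LinearMap.ker g) ⧸ LinearMap.range (f.codRestrict (LinearMap.ker g) hf)) ≃ₗ[F]
      QS Zc Bc) := by
  let φ : Zc →ₗ[F] (↥(LinearMap.ker g) ⧸ LinearMap.range (f.codRestrict (LinearMap.ker g) hf)) :=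
    (Submodule.mkQ _).comp (θ.codRestrict (LinearMap.ker g) h1)
  have hφs : Function.Surjective φ := by
    intro y
    obtain ⟨⟨b, hb⟩, rfl⟩ := Submodule.mkQ_surjective _ y
    obtain ⟨c, hc⟩ := h2 b hb
    refine ⟨c, ?_⟩
    have : θ.codRestrict (LinearMap.ker g) h1 c = ⟨b, hb⟩ := Subtype.ext hc
    change (Submodule.mkQ _) (θ.codRestrict (LinearMap.ker g) h1 c) = _
    rw [this]
  have hker : Bc.submoduleOf Zc = LinearMap.ker φ := by
    ext c
    change (c : W) ∈ Bc ↔ _
    rw [← h3 c, LinearMap.mem_ker]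
    change _ ↔ (Submodule.mkQ _) (θ.codRestrict (LinearMap.ker g) h1 c) = 0
    rw [Submodule.mkQ_apply, Submodule.Quotient.mk_eq_zero]
    constructor
    · rintro ⟨a, ha⟩
      exact ⟨a, Subtype.ext ha⟩
    · rintro ⟨a, ha⟩
      exact ⟨a, congrArg Subtype.val ha⟩
  exact ⟨((Submodule.quotEquivOfEq _ _ hker).trans (φ.quotKerEquivOfSurjective hφs)).symm⟩

/-- The rank inequality of a connecting map. -/
theorem rank_le {T H D A : Type} [AddCommGroup T] [Module F T] [AddCommGroup H] [Module F H]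
    [AddCommGroup D] [Module F D] [AddCommGroup A] [Module F A]
    (π : T →ₗ[F] H) (δ : T →ₗ[F] D) (ψ : A →ₗ[F] H) (hπ : Function.Surjective π)
    (h : ∀ t, δ t = 0 → π t ∈ LinearMap.range ψ) :
    Module.rank F H ≤ Module.rank F A + Module.rank F D := by
  have h1 := Submodule.rank_quotient_add_rank (LinearMap.range ψ)
  rw [← h1, add_comm]
  refine add_le_add (rank_range_le _) ?_
  let q : T →ₗ[F] (H ⧸ LinearMap.range ψ) := (Submodule.mkQ _).comp π
  have hq : Function.Surjective q := (Submodule.mkQ_surjective _).comp hπ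
  have hk : LinearMap.ker δ ≤ LinearMap.ker q := by
    intro t ht
    rw [LinearMap.mem_ker] at ht ⊢
    change (Submodule.mkQ _) (π t) = 0
    rw [Submodule.mkQ_apply, Submodule.Quotient.mk_eq_zero]
    exact h t ht
  have h2 : Module.rank F (H ⧸ LinearMap.range ψ) ≤ Module.rank F (T ⧸ LinearMap.ker δ) :=
    LinearMap.rank_le_of_surjective ((LinearMap.ker δ).liftQ q hk) (by
      intro y
      obtain ⟨t, ht⟩ := hq y
      exact ⟨Submodule.Quotient.mk t, by simpa using ht⟩)
  refine h2.trans ?_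
  rw [LinearEquiv.rank_eq δ.quotKerEquivRange]
  exact Submodule.rank_le _

end Lin

section Cmp

variable (R : Type) [CommRing R] {X Z : Type} [TopologicalSpace X] [TopologicalSpace Z]

open Pool.Agent.W_MP_6d5819_gt.Cmp

/-- Chains in all degrees with support in `A`. -/
noncomputable def allIn (A : Set X) : Submodule R (Ch R X) :=
  Finsupp.supported R R (Set.ofPred fun s : Sing X => Set.range s.2 ⊆ A)

theorem chIn_le_allIn (n : ℕ) (A : Set X) : chIn R n A ≤ allIn R A :=
  Finsupp.supported_mono fun _ hs => hs.2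

theorem mem_chIn_of_allIn {n : ℕ} {A Y : Set X} {c : Ch R X} (h1 : c ∈ chIn R n Y)
    (h2 : c ∈ allIn R A) : c ∈ chIn R n A := by
  rw [mem_chIn] at h1 ⊢
  intro s hs
  exact ⟨(h1 s hs).1, h2 hs⟩

/-- Relative cycles. -/
noncomputable def rcyc (n : ℕ) (Y A : Set X) : Submodule R (Ch R X) :=
  chIn R n Y ⊓ (allIn R A).comap (bd R)

/-- Relative boundaries. -/
noncomputable def rbds (n : ℕ) (Y A : Set X) : Submodule R (Ch R X) :=
  (chIn R (n + 1) Y).map (bd R) ⊔ chIn R n A

/-- Concrete relative homology. -/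
abbrev RH (n : ℕ) (Y A : Set X) : Type := QS (rcyc R n Y A) (rbds R n Y A)

theorem push_injective {j : C(Z, X)} (hj : Function.Injective j) :
    Function.Injective (push R j) := by
  refine Finsupp.mapDomain_injective ?_
  rintro ⟨n, σ⟩ ⟨m, τ⟩ h
  simp only [pushSimp] at h
  obtain ⟨h1, h2⟩ := Sigma.mk.inj_iff.1 h
  subst h1
  have h3 := eq_of_heq h2
  congr 1
  ext1 x
  exact hj (DFunLike.congr_fun h3 x)

theorem push_surj {j : C(Z, X)} (hj : Topology.IsEmbedding j) {n : ℕ} {c : Ch R X}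
    (hc : c ∈ chIn R n (Set.range j)) : ∃ b ∈ chIn R n (Set.univ : Set Z), push R j b = c := by
  refine chIn_induction R (P := fun c => ∃ b ∈ chIn R n (Set.univ : Set Z), push R j b = c) ?_ ?_
    ?_ c hc
  · exact ⟨0, Submodule.zero_mem _, map_zero _⟩
  · rintro a b - - ⟨a', ha', rfl⟩ ⟨b', hb', rfl⟩
    exact ⟨a' + b', Submodule.add_mem _ ha' hb', map_add _ _ _⟩
  · intro σ hσ r
    have h1 : ∀ x, ∃ z, j z = σ x := fun x => hσ ⟨x, rfl⟩
    choose τ hτ using h1
    have hc : Continuous τ := by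
      rw [hj.continuous_iff]
      have : (j ∘ τ) = σ := funext hτ
      rw [this]
      exact σ.continuous
    refine ⟨Finsupp.single ⟨n, ⟨τ, hc⟩⟩ r, single_mem_chIn R _ (Set.subset_univ _) r, ?_⟩
    rw [push_single]
    congr 1
    unfold pushSimp
    congr 1
    ext1 x
    exact hτ x

/-- The chain map of a continuous map. -/
noncomputable abbrev cmap (f : C(Z, X)) : CC R Z ⟶ CC R X :=
  ((singularChainComplexFunctor (ModuleCat.{0} R)).obj (ModuleCat.of R R)).map
      (TopCat.ofHom f : TopCat.of Z ⟶ TopCat.of X)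

/-- Naturality of the comparison map. -/
theorem Phi_nat (f : C(Z, X)) (n : ℕ) (z : ((CC R Z).X n : Type)) :
    Phi R X n (((cmap R f).f n).hom z) = push R f (Phi R Z n z) := by
  have h : (Phi R X n).comp ((cmap R f).f n).hom = (push R f).comp (Phi R Z n) := by
    refine lin_ext R Z ?_
    intro x
    rw [LinearMap.comp_apply, LinearMap.comp_apply, Phi_iota, push_single]
    have h1 : iotaC R Z n x ≫ (cmap R f).f n =
        iotaC R X n ((TopCat.toSSet.map (TopCat.ofHom f : TopCat.of Z ⟶ TopCat.of X)).app _ x) :=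
      SSet.ι_chainComplexMap_f (SX Z) (SX X)
        (TopCat.toSSet.map (TopCat.ofHom f : TopCat.of Z ⟶ TopCat.of X)) (ModuleCat.of R R) x
    have h2 : ((cmap R f).f n).hom ((iotaC R Z n x).hom 1) =
        (iotaC R X n ((TopCat.toSSet.map (TopCat.ofHom f :
          TopCat.of Z ⟶ TopCat.of X)).app _ x)).hom 1 := by
      rw [← h1]
      rfl
    rw [h2, Phi_iota]
    rfl
  exact congrArg (fun φ : ((CC R Z).X n : Type) →ₗ[R] Ch R X => φ z) h

/-- The comparison map through an embedding. -/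
noncomputable def Th (j : C(Z, X)) (n : ℕ) : ((CC R Z).X n : Type) →ₗ[R] Ch R X :=
  (push R j).comp (Phi R Z n)

theorem Th_inj {j : C(Z, X)} (hj : Function.Injective j) (n : ℕ) :
    Function.Injective (Th R j n) := by
  intro z w h
  exact Phi_inj R Z n (push_injective R hj h)

theorem Th_mem (j : C(Z, X)) (n : ℕ) (z : ((CC R Z).X n : Type)) :
    Th R j n z ∈ chIn R n (Set.range j) :=
  push_mem_chIn R (V := Set.range j) j (fun x _ => ⟨x, rfl⟩) (Phi_mem R Z n z)

theorem Th_surj {j : C(Z, X)} (hj : Topology.IsEmbedding j) {n : ℕ} {c : Ch R X}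
    (hc : c ∈ chIn R n (Set.range j)) : ∃ z, Th R j n z = c := by
  obtain ⟨b, hb, rfl⟩ := push_surj R hj hc
  exact ⟨Psi R Z n b, congrArg (push R j) (Phi_Psi R Z n hb)⟩

theorem Th_d (j : C(Z, X)) (n : ℕ) (z : ((CC R Z).X (n + 1) : Type)) :
    Th R j n (((CC R Z).d (n + 1) n).hom z) = bd R (Th R j (n + 1) z) := by
  change push R j (Phi R Z n _) = bd R (push R j (Phi R Z (n + 1) z))
  rw [Phi_d, bd_push]

variable {B : Set Z}

/-- The inclusion of a subset. -/
def inc (B : Set Z) : ContinuousMap B Z where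
  toFun := Subtype.val
  continuous_toFun := continuous_subtype_val

theorem Th_range_iff {j : C(Z, X)} (hj : Topology.IsEmbedding j) (B : Set Z) (n : ℕ)
    (z : ((CC R Z).X n : Type)) :
    (∃ w, ((cmap R (inc B)).f n).hom w = z) ↔ Th R j n z ∈ chIn R n (j '' B) := by
  have he : Topology.IsEmbedding (j.comp (inc B)) := hj.comp Topology.IsEmbedding.subtypeVal
  have h0 : ∀ b : B, (j.comp (inc B)) b = j b.1 := fun _ => rfl
  have hr : Set.range (j.comp (inc B)) = j '' B := by
    ext x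
    constructor
    · rintro ⟨b, rfl⟩
      exact ⟨b.1, b.2, (h0 b).symm⟩
    · rintro ⟨b, hb, rfl⟩
      exact ⟨⟨b, hb⟩, h0 ⟨b, hb⟩⟩
  constructor
  · rintro ⟨w, rfl⟩
    rw [← hr]
    have h1 := Th_mem R (j.comp (inc B)) n w
    have h2 : Th R (j.comp (inc B)) n w = Th R j n (((cmap R (inc B)).f n).hom w) := by
      change push R (j.comp (inc B)) (Phi R B n w) = push R j (Phi R Z n _)
      rw [Phi_nat, push_push]
    rw [← h2]
    exact h1
  · intro h
    rw [← hr] at h
    obtain ⟨w, hw⟩ := Th_surj R he h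
    refine ⟨w, Th_inj R hj.injective n ?_⟩
    rw [← hw]
    change push R j (Phi R Z n _) = push R (j.comp (inc B)) (Phi R B n w)
    rw [Phi_nat, push_push]

/-- The cokernel complex of the inclusion of `B`. -/
noncomputable abbrev KC (B : Set Z) : ChainComplex (ModuleCat.{0} R) ℕ := cokernel (cmap R (inc B))

/-- The projection to the cokernel complex. -/
noncomputable abbrev pr (B : Set Z) : CC R Z ⟶ KC R B := cokernel.π (cmap R (inc B))

theorem pr_surj (B : Set Z) (n : ℕ) : Function.Surjective ((pr R B).f n).hom := by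
  have h : Epi ((pr R B).f n) := inferInstance
  exact (ModuleCat.epi_iff_surjective _).1 h

theorem pr_eq_zero_iff (B : Set Z) (n : ℕ) (z : ((CC R Z).X n : Type)) :
    ((pr R B).f n).hom z = 0 ↔ ∃ w, ((cmap R (inc B)).f n).hom w = z := by
  constructor
  · have h1 : (ShortComplex.mk (cmap R (inc B)) (pr R B) (cokernel.condition _)).Exact :=
      ShortComplex.exact_of_g_is_cokernel _ (cokernelIsCokernel _)
    have h2 := (HomologicalComplex.exact_iff_degreewise_exact _).1 h1 n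
    exact (ShortComplex.moduleCat_exact_iff _).1 h2 z
  · rintro ⟨w, rfl⟩
    have h1 : cmap R (inc B) ≫ pr R B = 0 := cokernel.condition _
    have h2 : (cmap R (inc B)).f n ≫ (pr R B).f n = 0 := by
      rw [← HomologicalComplex.comp_f, h1, HomologicalComplex.zero_f]
    exact congrArg (fun φ : (CC R B).X n ⟶ (KC R B).X n => φ.hom w) h2

theorem pr_d (B : Set Z) (n k : ℕ) (z : ((CC R Z).X n : Type)) :
    ((KC R B).d n k).hom (((pr R B).f n).hom z) = ((pr R B).f k).hom (((CC R Z).d n k).hom z) := by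
  have h := (pr R B).comm n k
  exact congrArg (fun φ : (CC R Z).X n ⟶ (KC R B).X k => φ.hom z) h

theorem rel_equiv_aux {j : C(Z, X)} (hj : Topology.IsEmbedding j) (B : Set Z) (n k : ℕ)
    (hk : ∀ z : ((CC R Z).X n : Type), ((pr R B).f k).hom (((CC R Z).d n k).hom z) = 0 ↔
      bd R (Th R j n z) ∈ allIn R (j '' B)) :
    Nonempty ((((KC R B).sc' (n + 1) n k).moduleCatLeftHomologyData.H : Type) ≃ₗ[R]
      RH R n (Set.range j) (j '' B)) := by
  let e : ((CC R Z).X n : Type) ≃ₗ[R] chIn R n (Set.range j) :=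
    LinearEquiv.ofBijective ((Th R j n).codRestrict _ (Th_mem R j n))
      ⟨fun z w h => Th_inj R hj.injective n (congrArg Subtype.val h), fun c => by
        obtain ⟨z, hz⟩ := Th_surj R hj c.2
        exact ⟨z, Subtype.ext hz⟩⟩
  have he : ∀ z, ((e z : chIn R n (Set.range j)) : Ch R X) = Th R j n z := fun z => rfl
  have hle : rcyc R n (Set.range j) (j '' B) ≤ chIn R n (Set.range j) := inf_le_left
  let g : rcyc R n (Set.range j) (j '' B) →ₗ[R] ((CC R Z).X n : Type) :=
    e.symm.toLinearMap.comp (Submodule.inclusion hle)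
  have hg : ∀ c, Th R j n (g c) = (c : Ch R X) := by
    intro c
    rw [← he]
    change ((e (e.symm (Submodule.inclusion hle c)) : chIn R n (Set.range j)) : Ch R X) = _
    rw [LinearEquiv.apply_symm_apply]
    rfl
  let θ : rcyc R n (Set.range j) (j '' B) →ₗ[R] ((KC R B).X n : Type) :=
    ((pr R B).f n).hom.comp g
  have hθ : ∀ c, θ c = ((pr R B).f n).hom (g c) := fun _ => rfl
  refine quot_equiv ((KC R B).d (n + 1) n).hom ((KC R B).d n k).hom
    (((KC R B).sc' (n + 1) n k).moduleCat_zero_apply) (rcyc R n (Set.range j) (j '' B))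
    (rbds R n (Set.range j) (j '' B)) θ ?_ ?_ ?_
  · intro c
    rw [LinearMap.mem_ker, hθ, pr_d, hk, hg]
    exact (Submodule.mem_inf.1 c.2).2
  · intro b hb
    obtain ⟨z, rfl⟩ := pr_surj R B n b
    rw [LinearMap.mem_ker, pr_d, hk] at hb
    refine ⟨⟨Th R j n z, Submodule.mem_inf.2 ⟨Th_mem R j n z, hb⟩⟩, ?_⟩
    rw [hθ]
    congr 1
    apply Th_inj R hj.injective n
    rw [hg]
  · intro c
    rw [hθ]
    constructor
    · rintro ⟨y, hy⟩
      obtain ⟨w, rfl⟩ := pr_surj R B (n + 1) y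
      rw [pr_d] at hy
      have h1 : ((pr R B).f n).hom (g c - ((CC R Z).d (n + 1) n).hom w) = 0 := by
        rw [map_sub, hy, sub_self]
      rw [pr_eq_zero_iff, Th_range_iff R hj, map_sub, hg, Th_d] at h1
      have h2 : (c : Ch R X) = bd R (Th R j (n + 1) w) + ((c : Ch R X) - bd R (Th R j (n + 1) w)) := by
        abel
      rw [h2]
      exact Submodule.add_mem _ (Submodule.mem_sup_left ⟨_, Th_mem R j (n + 1) w, rfl⟩)
        (Submodule.mem_sup_right h1)
    · intro hc
      obtain ⟨_, ⟨w', hw', rfl⟩, p, hp, hcp⟩ := Submodule.mem_sup.1 hc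
      obtain ⟨w, rfl⟩ := Th_surj R hj hw'
      refine ⟨((pr R B).f (n + 1)).hom w, ?_⟩
      rw [pr_d]
      have h1 : ((pr R B).f n).hom (g c - ((CC R Z).d (n + 1) n).hom w) = 0 := by
        rw [pr_eq_zero_iff, Th_range_iff R hj, map_sub, hg, Th_d, ← hcp, add_sub_cancel_left]
        exact hp
      rw [map_sub, sub_eq_zero] at h1
      exact h1.symm

theorem exists_rel_equiv {j : C(Z, X)} (hj : Topology.IsEmbedding j) (B : Set Z) (n : ℕ) :
    Nonempty (((KC R B).homology n : Type) ≃ₗ[R] RH R n (Set.range j) (j '' B)) := by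
  have key : ∀ k : ℕ, (ComplexShape.down ℕ).next n = k →
      (∀ z : ((CC R Z).X n : Type), ((pr R B).f k).hom (((CC R Z).d n k).hom z) = 0 ↔
        bd R (Th R j n z) ∈ allIn R (j '' B)) →
      Nonempty (((KC R B).homology n : Type) ≃ₗ[R] RH R n (Set.range j) (j '' B)) := by
    intro k hk hz
    obtain ⟨φ⟩ := rel_equiv_aux R hj B n k hz
    have i1 : (KC R B).homology n ≅ ((KC R B).sc' (n + 1) n k).homology :=
      (KC R B).homologyIsoSc' (n + 1) n k (by simp) hk
    have i2 := ((KC R B).sc' (n + 1) n k).moduleCatHomologyIso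
    exact ⟨(i1 ≪≫ i2).toLinearEquiv.trans φ⟩
  cases n with
  | zero =>
    refine key 0 (by simp) ?_
    intro z
    have h1 : bd R (Th R j 0 z) = 0 := bd_chIn_zero R (Th_mem R j 0 z)
    have h2 : (CC R Z).d 0 0 = 0 := (CC R Z).shape 0 0 (by simp)
    rw [h2, h1]
    simp
  | succ m =>
    refine key m (by simp) ?_
    intro z
    rw [pr_eq_zero_iff, Th_range_iff R hj, Th_d]
    exact ⟨fun h => chIn_le_allIn R m _ h,
      fun h => mem_chIn_of_allIn R (bd_mem_chIn R (Th_mem R j (m + 1) z)) h⟩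

end Cmp

section MV

variable (R : Type) [CommRing R] {X : Type} [TopologicalSpace X]

theorem rcyc_mono {n : ℕ} {Y Y' A : Set X} (h : Y ⊆ Y') : rcyc R n Y A ≤ rcyc R n Y' A :=
  inf_le_inf_right _ (chIn_mono R h)

theorem rbds_mono {n : ℕ} {Y Y' A : Set X} (h : Y ⊆ Y') : rbds R n Y A ≤ rbds R n Y' A :=
  sup_le_sup_right (Submodule.map_mono (chIn_mono R h)) _

theorem bd_of_rcyc {n : ℕ} {Y A : Set X} {c : Ch R X} (hc : c ∈ rcyc R n Y A) :
    bd R c = 0 ∨ ∃ m, n = m + 1 ∧ bd R c ∈ chIn R m A := by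
  obtain ⟨h1, h2⟩ := Submodule.mem_inf.1 hc
  cases n with
  | zero => exact Or.inl (bd_chIn_zero R h1)
  | succ m => exact Or.inr ⟨m, rfl, mem_chIn_of_allIn R (bd_mem_chIn R h1) h2⟩

/-- Pairs of chains with sum a relative cycle. -/
noncomputable def TT (n : ℕ) (U V P : Set X) : Submodule R (Ch R X × Ch R X) :=
  (Submodule.prod (chIn R n U) (chIn R n V)) ⊓
    (allIn R P).comap ((bd R).comp (LinearMap.fst R _ _) + (bd R).comp (LinearMap.snd R _ _))

theorem mem_TT {n : ℕ} {U V P : Set X} {a b : Ch R X} : (a, b) ∈ TT R n U V P ↔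
    a ∈ chIn R n U ∧ b ∈ chIn R n V ∧ bd R a + bd R b ∈ allIn R P := by
  simp [TT, and_assoc]

/-- The class of the sum. -/
noncomputable def piT (n : ℕ) (U V P : Set X) :
    TT R n U V P →ₗ[R] RH R n (Set.univ : Set X) P :=
  (QS.mk (rcyc R n (Set.univ : Set X) P) (rbds R n (Set.univ : Set X) P)).comp
    (((LinearMap.fst R (Ch R X) (Ch R X) + LinearMap.snd R (Ch R X) (Ch R X)).comp
      (TT R n U V P).subtype).codRestrict _ (by
        rintro ⟨⟨a, b⟩, h⟩
        obtain ⟨h1, h2, h3⟩ := (mem_TT R).1 h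
        refine Submodule.mem_inf.2 ⟨Submodule.add_mem _ (chIn_mono R (Set.subset_univ _) h1)
          (chIn_mono R (Set.subset_univ _) h2), ?_⟩
        change bd R (a + b) ∈ allIn R P
        rw [map_add]
        exact h3))

theorem bd_mem_inter {m : ℕ} {U V P : Set X} (hP : P ⊆ U ∩ V) {a b : Ch R X}
    (h1 : a ∈ chIn R (m + 1) U) (h2 : b ∈ chIn R (m + 1) V) (h3 : bd R a + bd R b ∈ allIn R P) :
    bd R a ∈ rcyc R m (U ∩ V) P := by
  refine Submodule.mem_inf.2 ⟨?_, ?_⟩
  · rw [chIn_inter]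
    refine Submodule.mem_inf.2 ⟨bd_mem_chIn R h1, ?_⟩
    have h4 : bd R a + bd R b ∈ chIn R m (Set.univ : Set X) :=
      Submodule.add_mem _ (chIn_mono R (Set.subset_univ _) (bd_mem_chIn R h1))
        (chIn_mono R (Set.subset_univ _) (bd_mem_chIn R h2))
    have h5 := chIn_mono R (hP.trans Set.inter_subset_right) (mem_chIn_of_allIn R h4 h3)
    have h6 := Submodule.sub_mem _ h5 (bd_mem_chIn R h2)
    rwa [add_sub_cancel_right] at h6
  · change bd R (bd R a) ∈ allIn R P
    rw [bd_bd]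
    exact Submodule.zero_mem _

/-- The connecting map. -/
noncomputable def deT (m : ℕ) (U V P : Set X) (hP : P ⊆ U ∩ V) :
    TT R (m + 1) U V P →ₗ[R] RH R m (U ∩ V) P :=
  (QS.mk (rcyc R m (U ∩ V) P) (rbds R m (U ∩ V) P)).comp
    ((((bd R).comp (LinearMap.fst R (Ch R X) (Ch R X))).comp
      (TT R (m + 1) U V P).subtype).codRestrict _ (by
        rintro ⟨⟨a, b⟩, h⟩
        obtain ⟨h1, h2, h3⟩ := (mem_TT R).1 h
        exact bd_mem_inter R hP h1 h2 h3))

/-- The sum map. -/
noncomputable def psT (n : ℕ) (U V P : Set X) :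
    (RH R n U P × RH R n V P) →ₗ[R] RH R n (Set.univ : Set X) P :=
  (QS.map (rcyc_mono R (Set.subset_univ U)) (rbds_mono R (Set.subset_univ U))).coprod
    (QS.map (rcyc_mono R (Set.subset_univ V)) (rbds_mono R (Set.subset_univ V)))

theorem mem_range_psT {n : ℕ} {U V P : Set X} {a b u v : Ch R X} (hab : (a, b) ∈ TT R n U V P)
    (hu : u ∈ rcyc R n U P) (hv : v ∈ rcyc R n V P) (h : u + v = a + b) :
    piT R n U V P ⟨(a, b), hab⟩ ∈ LinearMap.range (psT R n U V P) := by
  refine ⟨(QS.mk _ _ ⟨u, hu⟩, QS.mk _ _ ⟨v, hv⟩), ?_⟩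
  rw [psT, LinearMap.coprod_apply, QS.map_mk, QS.map_mk, ← map_add]
  change QS.mk _ _ _ = QS.mk _ _ _
  congr 1
  exact Subtype.ext h

theorem piT_surj {n : ℕ} {U V P : Set X} (hU : IsOpen U) (hV : IsOpen V)
    (hUV : U ∪ V = Set.univ) : Function.Surjective (piT R n U V P) := by
  intro y
  obtain ⟨⟨c, hc⟩, rfl⟩ := QS.mk_surjective _ _ y
  obtain ⟨h1, h2⟩ := Submodule.mem_inf.1 hc
  have h1' : c ∈ chIn R n (U ∪ V) := by rw [hUV]; exact h1
  obtain ⟨Q, hQ⟩ := exists_sd R hU hV h1'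
  obtain ⟨a, ha, b, hb, hab⟩ := Submodule.mem_sup.1 hQ
  have hbd : bd R a + bd R b = Q.S (bd R c) := by rw [← map_add, hab, Q.bd_S]
  have h3 : bd R a + bd R b ∈ allIn R P ∧ Q.T (bd R c) ∈ chIn R n P := by
    rw [hbd]
    rcases bd_of_rcyc R hc with h | ⟨m, rfl, h⟩
    · rw [h, map_zero, map_zero]
      exact ⟨Submodule.zero_mem _, Submodule.zero_mem _⟩
    · exact ⟨chIn_le_allIn R m P (Q.S_mem _ _ _ h), Q.T_mem _ _ _ h⟩
  refine ⟨⟨(a, b), (mem_TT R).2 ⟨ha, hb, h3.1⟩⟩, ?_⟩
  rw [← sub_eq_zero, piT, LinearMap.comp_apply, ← map_sub, QS.mk_eq_zero]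
  change a + b - c ∈ rbds R n Set.univ P
  have h4 := Q.homotopy c
  have h5 : a + b - c = -(bd R (Q.T c) + Q.T (bd R c)) := by
    rw [h4, hab]
    abel
  rw [h5]
  exact Submodule.neg_mem _ (Submodule.add_mem _ (Submodule.mem_sup_left ⟨_, Q.T_mem _ _ _ h1, rfl⟩)
    (Submodule.mem_sup_right h3.2))

theorem piT_of_deT {m : ℕ} {U V P : Set X} (hP : P ⊆ U ∩ V) (t : TT R (m + 1) U V P)
    (ht : deT R m U V P hP t = 0) : piT R (m + 1) U V P t ∈ LinearMap.range (psT R (m + 1) U V P) := by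
  obtain ⟨⟨a, b⟩, hab⟩ := t
  obtain ⟨h1, h2, h3⟩ := (mem_TT R).1 hab
  rw [deT, LinearMap.comp_apply, QS.mk_eq_zero] at ht
  change bd R a ∈ rbds R m (U ∩ V) P at ht
  obtain ⟨_, ⟨w, hw, rfl⟩, p, hp, hwp⟩ := Submodule.mem_sup.1 ht
  refine mem_range_psT R hab (u := a - w) (v := b + w) ?_ ?_ (by abel)
  · refine Submodule.mem_inf.2 ⟨Submodule.sub_mem _ h1 (chIn_mono R Set.inter_subset_left hw), ?_⟩
    change bd R (a - w) ∈ allIn R P
    rw [map_sub, ← hwp, add_sub_cancel_left]
    exact chIn_le_allIn R m P hp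
  · refine Submodule.mem_inf.2 ⟨Submodule.add_mem _ h2 (chIn_mono R Set.inter_subset_right hw), ?_⟩
    change bd R (b + w) ∈ allIn R P
    have h4 : bd R (b + w) = (bd R a + bd R b) - p := by
      rw [map_add, ← hwp]
      abel
    rw [h4]
    exact Submodule.sub_mem _ h3 (chIn_le_allIn R m P hp)

theorem piT_zero {U V P : Set X} (t : TT R 0 U V P) :
    piT R 0 U V P t ∈ LinearMap.range (psT R 0 U V P) := by
  obtain ⟨⟨a, b⟩, hab⟩ := t
  obtain ⟨h1, h2, h3⟩ := (mem_TT R).1 hab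
  refine mem_range_psT R hab (u := a) (v := b) ?_ ?_ rfl
  · refine Submodule.mem_inf.2 ⟨h1, ?_⟩
    change bd R a ∈ allIn R P
    rw [bd_chIn_zero R h1]
    exact Submodule.zero_mem _
  · refine Submodule.mem_inf.2 ⟨h2, ?_⟩
    change bd R b ∈ allIn R P
    rw [bd_chIn_zero R h2]
    exact Submodule.zero_mem _

end MV

section Rank

variable (F : Type) [Field F] {X : Type} [TopologicalSpace X]

theorem rank_RH_succ {m : ℕ} {U V P : Set X} (hU : IsOpen U) (hV : IsOpen V)
    (hUV : U ∪ V = Set.univ) (hP : P ⊆ U ∩ V) :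
    Module.rank F (RH F (m + 1) (Set.univ : Set X) P) ≤
      Module.rank F (RH F (m + 1) U P) + Module.rank F (RH F (m + 1) V P) +
        Module.rank F (RH F m (U ∩ V) P) := by
  have h := rank_le (T := TT F (m + 1) U V P) (H := RH F (m + 1) (Set.univ : Set X) P)
    (D := RH F m (U ∩ V) P) (A := RH F (m + 1) U P × RH F (m + 1) V P)
    (piT F (m + 1) U V P) (deT F m U V P hP) (psT F (m + 1) U V P)
    (piT_surj F hU hV hUV) (fun t ht => piT_of_deT F hP t ht)
  rwa [rank_prod'] at h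

theorem rank_RH_zero {U V P : Set X} (hU : IsOpen U) (hV : IsOpen V)
    (hUV : U ∪ V = Set.univ) :
    Module.rank F (RH F 0 (Set.univ : Set X) P) ≤
      Module.rank F (RH F 0 U P) + Module.rank F (RH F 0 V P) := by
  have h := rank_le (D := PUnit) (piT F 0 U V P) 0 (psT F 0 U V P)
    (piT_surj F hU hV hUV) (fun t _ => piT_zero F t)
  rw [rank_prod'] at h
  simpa using h

theorem relDim_eq {Z : Type} [TopologicalSpace Z] {j : C(Z, X)} (hj : Topology.IsEmbedding j)
    (B : Set Z) (n : ℕ) : relDim F Z B n =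
      ((Cardinal.toENat (Module.rank F (RH F n (Set.range j) (j '' B))) : ℕ∞) : ℝ≥0∞) := by
  obtain ⟨e⟩ := exists_rel_equiv F hj B n
  have h : Module.rank F (relHomology F Z B n) = Module.rank F (RH F n (Set.range j) (j '' B)) :=
    e.rank_eq
  rw [relDim, h]

theorem relDim_univ (P : Set X) (n : ℕ) : relDim F X P n =
    ((Cardinal.toENat (Module.rank F (RH F n (Set.univ : Set X) P)) : ℕ∞) : ℝ≥0∞) := by
  have h := relDim_eq F (j := ContinuousMap.id X) Topology.IsEmbedding.id P n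
  have h1 : Set.range (ContinuousMap.id X) = Set.univ := Set.range_id
  have h2 : (ContinuousMap.id X) '' P = P := Set.image_id P
  rwa [h1, h2] at h

theorem relDim_sub {U P : Set X} (hP : P ⊆ U) (n : ℕ) :
    relDim F U (Subtype.val ⁻¹' P) n =
      ((Cardinal.toENat (Module.rank F (RH F n U P)) : ℕ∞) : ℝ≥0∞) := by
  have h := relDim_eq F (j := inc U) Topology.IsEmbedding.subtypeVal (Subtype.val ⁻¹' P) n
  have h1 : Set.range (inc U) = U := Subtype.range_val
  have h2 : (inc U) '' (Subtype.val ⁻¹' P) = P := by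
    have : (inc U) '' (Subtype.val ⁻¹' P) = Subtype.val '' (Subtype.val ⁻¹' P : Set U) := rfl
    rw [this, Subtype.image_preimage_coe]
    exact Set.inter_eq_right.2 hP
  rwa [h1, h2] at h

theorem cast_le_of {a b c d : Cardinal.{0}} (h : a ≤ b + c + d) :
    ((Cardinal.toENat a : ℕ∞) : ℝ≥0∞) ≤ ((Cardinal.toENat b : ℕ∞) : ℝ≥0∞) +
      ((Cardinal.toENat c : ℕ∞) : ℝ≥0∞) + ((Cardinal.toENat d : ℕ∞) : ℝ≥0∞) := by
  rw [← ENat.toENNReal_add, ← ENat.toENNReal_add, ENat.toENNReal_le, ← map_add, ← map_add]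
  exact OrderHomClass.mono Cardinal.toENat h

end Rank

end BE18

open BE18 in
/-- The Mayer-Vietoris inequality for relative singular homology. -/
theorem totDim_mv (F : Type) [Field F] {X : Type} [TopologicalSpace X] (U V P : Set X)
    (hU : IsOpen U) (hV : IsOpen V) (hUV : U ∪ V = Set.univ) (hP : P ⊆ U ∩ V) :
    totDim F X P ≤ totDim F U (Subtype.val ⁻¹' P) + totDim F V (Subtype.val ⁻¹' P) +
      totDim F (U ∩ V : Set X) (Subtype.val ⁻¹' P) := by
  have hPU : P ⊆ U := hP.trans Set.inter_subset_left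
  have hPV : P ⊆ V := hP.trans Set.inter_subset_right
  have h0 : relDim F X P 0 ≤ relDim F U (Subtype.val ⁻¹' P) 0 + relDim F V (Subtype.val ⁻¹' P) 0 := by
    rw [relDim_univ, relDim_sub F hPU, relDim_sub F hPV]
    have h := cast_le_of (a := Module.rank F (RH F 0 (Set.univ : Set X) P))
      (b := Module.rank F (RH F 0 U P)) (c := Module.rank F (RH F 0 V P)) (d := 0)
      (by rw [add_zero]; exact rank_RH_zero F hU hV hUV)
    rwa [map_zero, ENat.toENNReal_zero, add_zero] at h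
  have hs : ∀ m : ℕ, relDim F X P (m + 1) ≤ relDim F U (Subtype.val ⁻¹' P) (m + 1) +
      relDim F V (Subtype.val ⁻¹' P) (m + 1) +
      relDim F (U ∩ V : Set X) (Subtype.val ⁻¹' P) m := by
    intro m
    rw [relDim_univ, relDim_sub F hPU, relDim_sub F hPV, relDim_sub F hP]
    exact cast_le_of (rank_RH_succ F hU hV hUV hP)
  unfold totDim
  rw [tsum_eq_zero_add' (f := fun i => relDim F X P i) ENNReal.summable,
    tsum_eq_zero_add' (f := fun i => relDim F U (Subtype.val ⁻¹' P) i) ENNReal.summable,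
    tsum_eq_zero_add' (f := fun i => relDim F V (Subtype.val ⁻¹' P) i) ENNReal.summable]
  refine (add_le_add h0 (ENNReal.tsum_le_tsum hs)).trans ?_
  rw [ENNReal.tsum_add, ENNReal.tsum_add]
  refine le_of_eq ?_
  ring

end Pool.Agent.PolyKnots
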