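import Pool.Agent.W_MP_be6f00_gt.Basic
import Pool.Agent.W_MP_be6f00_gt.HomBasic
import Pool.Agent.W_MP_be6f00_gt.MV

set_option autoImplicit false

/-! # Homology of finite complexes is bounded by the number of subsets of the vertex set. -/

open scoped ENNReal Topology
open Set

namespace Pool.Agent.PolyKnots

namespace BE20

/-- A homotopy equivalence given by straight line homotopies. -/
noncomputable def straightEquiv {E : Type} [NormedAddCommGroup E] [NormedSpace ℝ E] {X Y : Set E}
    (f g : E → E) (hf : ContinuousOn f X) (hg : ContinuousOn g Y) (hfm : MapsTo f X Y)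
    (hgm : MapsTo g Y X)
    (hX : ∀ x ∈ X, ∀ t ∈ Icc (0 : ℝ) 1, (1 - t) • g (f x) + t • x ∈ X)
    (hY : ∀ y ∈ Y, ∀ t ∈ Icc (0 : ℝ) 1, (1 - t) • f (g y) + t • y ∈ Y) :
    ContinuousMap.HomotopyEquiv X Y where
  toFun := ⟨hfm.restrict f X Y, hf.mapsToRestrict hfm⟩
  invFun := ⟨hgm.restrict g Y X, hg.mapsToRestrict hgm⟩
  left_inv := ⟨{
    toFun := fun p => ⟨(1 - (p.1 : ℝ)) • g (f p.2) + (p.1 : ℝ) • (p.2 : E), hX _ p.2.2 _ p.1.2⟩
    continuous_toFun := by
      have h1 : Continuous fun x : X => f x := hf.domRestrict
      have h2 : Continuous fun x : X => g (f x) :=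
        hg.domRestrict.comp (hf.mapsToRestrict hfm)
      refine Continuous.subtype_mk ?_ _
      exact ((continuous_const.sub (continuous_subtype_val.comp continuous_fst)).smul
        (h2.comp continuous_snd)).add
        ((continuous_subtype_val.comp continuous_fst).smul
          (continuous_subtype_val.comp continuous_snd))
    map_zero_left := by
      intro x
      ext1
      simp
    map_one_left := by
      intro x
      ext1
      simp }⟩
  right_inv := ⟨{
    toFun := fun p => ⟨(1 - (p.1 : ℝ)) • f (g p.2) + (p.1 : ℝ) • (p.2 : E), hY _ p.2.2 _ p.1.2⟩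
    continuous_toFun := by
      have h2 : Continuous fun x : Y => f (g x) :=
        hf.domRestrict.comp (hg.mapsToRestrict hgm)
      refine Continuous.subtype_mk ?_ _
      exact ((continuous_const.sub (continuous_subtype_val.comp continuous_fst)).smul
        (h2.comp continuous_snd)).add
        ((continuous_subtype_val.comp continuous_fst).smul
          (continuous_subtype_val.comp continuous_snd))
    map_zero_left := by
      intro x
      ext1
      simp
    map_one_left := by
      intro x
      ext1
      simp }⟩

variable {V : Type} [Fintype V] [DecidableEq V]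

open Classical in
/-- The total weight of the vertices satisfying `p`. -/
noncomputable def wt (p : V → Prop) (x : V → ℝ) : ℝ := ∑ w, if p w then x w else 0

open Classical in
/-- The normalised restriction to the vertices satisfying `p`. -/
noncomputable def retr (p : V → Prop) (x : V → ℝ) : V → ℝ :=
  fun w => if p w then x w / wt p x else 0

theorem continuous_wt (p : V → Prop) : Continuous (wt p) := by
  classical
  unfold wt
  refine continuous_finsetSum _ fun w _ => ?_
  by_cases h : p w
  · simp only [h, if_true]; exact continuous_apply w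
  · simp only [h, if_false]; exact continuous_const

theorem continuousOn_retr (p : V → Prop) {X : Set (V → ℝ)} (h : ∀ x ∈ X, 0 < wt p x) :
    ContinuousOn (retr p) X := by
  classical
  refine continuousOn_pi.2 fun w => ?_
  unfold retr
  by_cases hw : p w
  · simp only [hw, if_true]
    exact (continuous_apply w).continuousOn.div (continuous_wt p).continuousOn
      fun x hx => (h x hx).ne'
  · simp only [hw, if_false]; exact continuousOn_const

theorem retr_nonneg {p : V → Prop} {x : V → ℝ} (hx : ∀ v, 0 ≤ x v) (h : 0 < wt p x) (w : V) :
    0 ≤ retr p x w := by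
  classical
  unfold retr
  split_ifs
  · exact div_nonneg (hx w) h.le
  · exact le_rfl

theorem sum_retr {p : V → Prop} {x : V → ℝ} (h : 0 < wt p x) : ∑ w, retr p x w = 1 := by
  classical
  have h1 : ∑ w, retr p x w = (∑ w, if p w then x w else 0) / wt p x := by
    rw [Finset.sum_div]
    refine Finset.sum_congr rfl fun w _ => ?_
    unfold retr
    split_ifs <;> simp
  rw [h1]
  exact div_self h.ne'

theorem retr_eq_zero {p : V → Prop} {x : V → ℝ} {w : V} (h : ¬ p w ∨ x w = 0) :
    retr p x w = 0 := by
  classical
  unfold retr
  rcases h with h | h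
  · rw [if_neg h]
  · rw [h, zero_div, ite_self]

theorem wt_eq_one {p : V → Prop} {x : V → ℝ} (h1 : ∑ v, x v = 1) (h : ∀ w, ¬ p w → x w = 0) :
    wt p x = 1 := by
  classical
  rw [← h1]
  unfold wt
  refine Finset.sum_congr rfl fun w _ => ?_
  split_ifs with hw
  · rfl
  · exact (h w hw).symm

theorem wt_ne (v : V) {x : V → ℝ} (hx : ∑ w, x w = 1) : wt (fun w => w ≠ v) x = 1 - x v := by
  classical
  rw [← hx]
  have h2 : ∑ w, (x w - if w = v then x v else 0) = ∑ w, x w - x v := by
    rw [Finset.sum_sub_distrib, Finset.sum_ite_eq' Finset.univ v]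
    simp
  rw [← h2]
  unfold wt
  refine Finset.sum_congr rfl fun w _ => ?_
  by_cases h : w = v
  · subst h; simp
  · simp [h]

theorem retr_self {p : V → Prop} {x : V → ℝ} (h1 : ∑ v, x v = 1) (h : ∀ w, ¬ p w → x w = 0) :
    retr p x = x := by
  classical
  funext w
  unfold retr
  rw [wt_eq_one h1 h, div_one]
  split_ifs with hw
  · rfl
  · exact (h w hw).symm

/-- convex combinations of two points of one simplex -/
theorem combo_mem {S : Set (Finset V)} {x y : V → ℝ} {s : Finset V} (hs : s ∈ S)
    (hx : ∀ v, 0 ≤ x v) (hx1 : ∑ v, x v = 1) (hxs : ∀ v, v ∉ s → x v = 0)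
    (hy : ∀ v, 0 ≤ y v) (hy1 : ∑ v, y v = 1) (hys : ∀ v, v ∉ s → y v = 0)
    {t : ℝ} (ht : t ∈ Icc (0 : ℝ) 1) : (1 - t) • x + t • y ∈ sp S := by
  refine ⟨fun v => ?_, ?_, s, hs, fun v hv => ?_⟩
  · simp only [Pi.add_apply, Pi.smul_apply, smul_eq_mul]
    exact add_nonneg (mul_nonneg (by linarith [ht.2]) (hx v)) (mul_nonneg ht.1 (hy v))
  · simp only [Pi.add_apply, Pi.smul_apply, smul_eq_mul, Finset.sum_add_distrib,
      ← Finset.mul_sum, hx1, hy1]
    ring
  · simp only [Pi.add_apply, Pi.smul_apply, smul_eq_mul, hxs v hv, hys v hv]
    ring

/-- A set of points of `sp S` that contains with every point the segment to its normalised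
restriction to the vertices satisfying `p` is homotopy equivalent to the full subcomplex. -/
theorem totDim_full (F : Type) [Field F] {S : Set (Finset V)} (hS : DownClosed S) (p : V → Prop)
    (X : Set (V → ℝ)) (hX : X ⊆ sp S) (hpos : ∀ x ∈ X, 0 < wt p x)
    (hseg : ∀ x ∈ X, ∀ t ∈ Icc (0 : ℝ) 1, (1 - t) • retr p x + t • x ∈ sp S →
      (1 - t) • retr p x + t • x ∈ X)
    (hsub : sp (fullSub S p) ⊆ X) : totDim F X ∅ = totDim F (sp (fullSub S p)) ∅ := by
  classical
  have hmaps : MapsTo (retr p) X (sp (fullSub S p)) := by
    intro x hx
    obtain ⟨h0, h1, s, hs, hxs⟩ := hX hx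
    refine ⟨retr_nonneg h0 (hpos x hx), sum_retr (hpos x hx), s.filter p, ⟨?_, ?_⟩, ?_⟩
    · refine hS.2 s hs _ (Finset.filter_subset _ _) ?_
      by_contra hne
      rw [Finset.not_nonempty_iff_eq_empty] at hne
      have h2 : wt p x = 0 := by
        unfold wt
        refine Finset.sum_eq_zero fun w _ => ?_
        split_ifs with hw
        · by_contra hxw
          have hws : w ∈ s := by
            by_contra hws
            exact hxw (hxs w hws)
          have : w ∈ s.filter p := Finset.mem_filter.2 ⟨hws, hw⟩
          rw [hne] at this
          exact absurd this (Finset.notMem_empty w)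
        · rfl
      exact (hpos x hx).ne' h2
    · intro v hv
      exact (Finset.mem_filter.1 hv).2
    · intro v hv
      apply retr_eq_zero
      by_cases hp : p v
      · right
        exact hxs v fun hvs => hv (Finset.mem_filter.2 ⟨hvs, hp⟩)
      · left; exact hp
  have hself : ∀ y ∈ sp (fullSub S p), retr p y = y := by
    rintro y ⟨h0, h1, s, hs, hys⟩
    refine retr_self h1 fun w hw => hys w fun hws => hw (hs.2 w hws)
  refine totDim_homotopyEquiv F (straightEquiv (retr p) id (continuousOn_retr p hpos)
    continuousOn_id hmaps hsub ?_ ?_)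
  · intro x hx t ht
    refine hseg x hx t ht ?_
    obtain ⟨h0, h1, s, hs, hxs⟩ := hX hx
    have := combo_mem (S := S) hs (retr_nonneg h0 (hpos x hx)) (sum_retr (hpos x hx))
      (fun v hv => retr_eq_zero (Or.inr (hxs v hv))) h0 h1 hxs ht
    exact this
  · intro y hy t ht
    simp only [id]
    rw [hself y hy, ← add_smul]
    have : (1 - t + t) • y = y := by rw [sub_add_cancel, one_smul]
    rw [this]
    exact hy

theorem totDim_empty (F : Type) [Field F] {X : Set (V → ℝ)} (hX : X = ∅) :
    totDim F X ∅ = 0 := by
  have hemp : IsEmpty X := by rw [hX]; infer_instance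
  exact totDim_eq_zero F (X := X) ∅ (fun q => q.2) (continuous_snd.continuousOn)
    (fun x => rfl) (fun x => (hemp.false x).elim) (fun s _ x hx => hx)

theorem main (F : Type) [Field F] (U : Finset V) : ∀ S : Set (Finset V), DownClosed S →
    (∀ s ∈ S, s ⊆ U) → totDim F (sp S) ∅ + 1 ≤ 2 ^ U.card := by
  classical
  induction U using Finset.induction_on with
  | empty =>
    intro S hS hU
    have h : sp S = ∅ := by
      rw [Set.eq_empty_iff_forall_notMem]
      rintro x ⟨_, _, s, hs, _⟩
      obtain ⟨v, hv⟩ := hS.1 s hs
      exact absurd (hU s hs hv) (Finset.notMem_empty v)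
    rw [totDim_empty F h]
    simp
  | insert v U hv ih =>
    intro S hS hU
    rw [Finset.card_insert_of_notMem hv, pow_succ]
    by_cases hvS : {v} ∈ S
    · -- deletion and link
      set D := fullSub S (fun w => w ≠ v) with hD
      set L := linkF S v with hL
      have hDd : DownClosed D := ⟨fun s hs => hS.1 s hs.1, fun s hs t ht hne =>
        ⟨hS.2 s hs.1 t ht hne, fun w hw => hs.2 w (ht hw)⟩⟩
      have hLd : DownClosed L := ⟨fun s hs => hs.1, fun s hs t ht hne =>
        ⟨hne, fun h => hs.2.1 (ht h), hS.2 _ hs.2.2 _ (Finset.insert_subset_insert v ht)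
          (Finset.insert_nonempty v t)⟩⟩
      have hDU : ∀ s ∈ D, s ⊆ U := by
        intro s hs w hw
        have h1 := hU s hs.1 hw
        rcases Finset.mem_insert.1 h1 with h2 | h2
        · exact absurd h2 (hs.2 w hw)
        · exact h2
      have hLU : ∀ s ∈ L, s ⊆ U := by
        intro s hs w hw
        have h1 := hU _ hs.2.2 (Finset.mem_insert_of_mem hw)
        rcases Finset.mem_insert.1 h1 with h2 | h2
        · exact absurd (h2 ▸ hw) hs.2.1
        · exact h2
      have iD := ih D hDd hDU
      have iL := ih L hLd hLU
      -- the open sets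
      set A : Set (sp S) := {x | 0 < x.1 v} with hA
      set B : Set (sp S) := {x | x.1 v < 1} with hB
      have hcv : Continuous fun x : sp S => x.1 v :=
        (continuous_apply v).comp continuous_subtype_val
      have hAo : IsOpen A := isOpen_lt continuous_const hcv
      have hBo : IsOpen B := isOpen_lt hcv continuous_const
      have hAB : A ∪ B = univ := by
        ext x
        simp only [hA, hB, mem_union, mem_setOf_eq, mem_univ, iff_true]
        by_cases h : 0 < x.1 v
        · exact Or.inl h
        · right
          have := not_lt.1 h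
          linarith
      have hmv := totDim_mv F A B ∅ hAo hBo hAB (empty_subset _)
      simp only [preimage_empty] at hmv
      -- barycentric coordinates are at most 1
      have hle : ∀ x ∈ sp S, ∀ w, x w ≤ 1 := by
        intro x hx w
        rw [← hx.2.1]
        exact Finset.single_le_sum (fun u _ => hx.1 u) (Finset.mem_univ w)
      -- the vertex
      set ev : V → ℝ := Pi.single v 1 with hev
      have hev0 : ∀ w, 0 ≤ ev w := by
        intro w
        by_cases h : w = v
        · subst h; simp [hev]
        · simp [hev, Pi.single_eq_of_ne h]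
      have hev1 : ∑ w, ev w = 1 := by simp [hev]
      have hevv : ev v = 1 := by simp [hev]
      have hevs : ∀ w, w ≠ v → ev w = 0 := fun w hw => by simp [hev, Pi.single_eq_of_ne hw]
      -- A as a set of `V → ℝ`
      set A' : Set (V → ℝ) := {x | x ∈ sp S ∧ 0 < x v} with hA'
      set B' : Set (V → ℝ) := {x | x ∈ sp S ∧ x v < 1} with hB'
      set C' : Set (V → ℝ) := {x | x ∈ sp S ∧ 0 < x v ∧ x v < 1} with hC'
      -- totDim of A
      have hAc : totDim F A ∅ ≤ 1 := by
        have hAcontr : ContractibleSpace A := by
          have hmemv : ev ∈ sp S := ⟨hev0, hev1, {v}, hvS, fun w hw => hevs w (by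
            simpa using hw)⟩
          rw [contractible_iff_id_nullhomotopic]
          refine ⟨⟨⟨ev, hmemv⟩, by simp [hA, hevv]⟩, ⟨{
            toFun := fun q => ⟨⟨(1 - (q.1 : ℝ)) • (q.2.1.1 : V → ℝ) + (q.1 : ℝ) • ev, ?_⟩, ?_⟩
            continuous_toFun := ?_
            map_zero_left := ?_
            map_one_left := ?_ }⟩⟩
          · obtain ⟨h0, h1, s, hs, hxs⟩ := q.2.1.2
            have hvs : v ∈ s := by
              by_contra hvs
              have h2 : 0 < q.2.1.1 v := q.2.2
              rw [hxs v hvs] at h2
              exact lt_irrefl _ h2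
            exact combo_mem hs h0 h1 hxs hev0 hev1
              (fun w hw => hevs w fun h => hw (h ▸ hvs)) q.1.2
          · have h2 : 0 < q.2.1.1 v := q.2.2
            have h3 := q.1.2
            show 0 < ((1 - (q.1 : ℝ)) • (q.2.1.1 : V → ℝ) + (q.1 : ℝ) • ev) v
            simp only [Pi.add_apply, Pi.smul_apply, smul_eq_mul, hevv, mul_one]
            rcases eq_or_lt_of_le h3.1 with h4 | h4
            · rw [← h4]; simpa using h2
            · have : 0 ≤ (1 - (q.1 : ℝ)) * q.2.1.1 v :=
                mul_nonneg (by linarith [h3.2]) h2.le
              linarith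
          · refine Continuous.subtype_mk (Continuous.subtype_mk ?_ _) _
            exact ((continuous_const.sub (continuous_subtype_val.comp continuous_fst)).smul
              ((continuous_subtype_val.comp continuous_subtype_val).comp continuous_snd)).add
              ((continuous_subtype_val.comp continuous_fst).smul continuous_const)
          · intro x
            ext1; ext1
            simp
          · intro x
            ext1; ext1
            simp
        exact totDim_contractible F
      -- totDim of B
      have hBc : totDim F B ∅ = totDim F (sp D) ∅ := by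
        have e : B ≃ₜ B' :=
          { toFun := fun x => ⟨x.1.1, x.1.2, x.2⟩
            invFun := fun x => ⟨⟨x.1, x.2.1⟩, x.2.2⟩
            left_inv := fun x => rfl
            right_inv := fun x => rfl
            continuous_toFun := by fun_prop
            continuous_invFun := by fun_prop }
        rw [totDim_congr F e ∅ ∅ (image_empty _)]
        have hw : ∀ x : V → ℝ, ∑ w, x w = 1 → wt (fun w => w ≠ v) x = 1 - x v :=
          fun x hx => wt_ne v hx
        refine totDim_full F hS _ B' (fun x hx => hx.1) ?_ ?_ ?_
        · intro x hx
          rw [hw x hx.1.2.1]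
          linarith [hx.2]
        · intro x hx t ht hmem
          refine ⟨hmem, ?_⟩
          have h1 : retr (fun w => w ≠ v) x v = 0 := retr_eq_zero (Or.inl (by simp))
          simp only [Pi.add_apply, Pi.smul_apply, smul_eq_mul, h1, mul_zero, zero_add]
          have h2 := hx.2
          have h3 := hx.1.1 v
          nlinarith [ht.1, ht.2]
        · rintro x ⟨h0, h1, s, hs, hxs⟩
          refine ⟨⟨h0, h1, s, hs.1, hxs⟩, ?_⟩
          have : x v = 0 := hxs v fun h => hs.2 v h rfl
          rw [this]; exact zero_lt_one
      -- totDim of the intersection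
      have hCc : totDim F (A ∩ B : Set (sp S)) ∅ = totDim F (sp L) ∅ := by
        have e : (A ∩ B : Set (sp S)) ≃ₜ C' :=
          { toFun := fun x => ⟨x.1.1, x.1.2, x.2.1, x.2.2⟩
            invFun := fun x => ⟨⟨x.1, x.2.1⟩, x.2.2.1, x.2.2.2⟩
            left_inv := fun x => rfl
            right_inv := fun x => rfl
            continuous_toFun := by fun_prop
            continuous_invFun := by fun_prop }
        rw [totDim_congr F e ∅ ∅ (image_empty _)]
        have hw : ∀ x : V → ℝ, ∑ w, x w = 1 → wt (fun w => w ≠ v) x = 1 - x v :=
          fun x hx => wt_ne v hx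
        have hpos : ∀ x ∈ C', 0 < wt (fun w => w ≠ v) x := by
          intro x hx
          rw [hw x hx.1.2.1]
          linarith [hx.2.2]
        set r : (V → ℝ) → V → ℝ := retr (fun w => w ≠ v) with hr
        set g : (V → ℝ) → V → ℝ := fun y => (1 - (1 / 2 : ℝ)) • ev + (1 / 2 : ℝ) • y with hg
        have hrv : ∀ x, r x v = 0 := fun x => retr_eq_zero (Or.inl (by simp))
        have hLv : ∀ y ∈ sp L, y v = 0 := by
          rintro y ⟨_, _, s, hs, hys⟩
          exact hys v hs.2.1
        have hrm : MapsTo r C' (sp L) := by
          intro x hx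
          obtain ⟨⟨h0, h1, s, hs, hxs⟩, hx0, hx1⟩ := hx
          have hvs : v ∈ s := by
            by_contra hvs
            rw [hxs v hvs] at hx0
            exact lt_irrefl _ hx0
          have hp : 0 < wt (fun w => w ≠ v) x := by rw [hw x h1]; linarith
          refine ⟨retr_nonneg h0 hp, sum_retr hp, s.erase v, ⟨?_, Finset.notMem_erase v s, ?_⟩, ?_⟩
          · by_contra hne
            rw [Finset.not_nonempty_iff_eq_empty] at hne
            have h2 : x v = 1 := by
              rw [← h1]
              symm
              refine Finset.sum_eq_single v (fun w _ hwv => hxs w fun hws => ?_) (by simp)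
              have : w ∈ s.erase v := Finset.mem_erase.2 ⟨hwv, hws⟩
              rw [hne] at this
              exact absurd this (Finset.notMem_empty w)
            linarith
          · rw [Finset.insert_erase hvs]; exact hs
          · intro w hw'
            apply retr_eq_zero
            by_cases hwv : w = v
            · left; simpa using hwv
            · right
              exact hxs w fun hws => hw' (Finset.mem_erase.2 ⟨hwv, hws⟩)
        have hgm : MapsTo g (sp L) C' := by
          intro y hy
          have hyv := hLv y hy
          obtain ⟨h0, h1, s, hs, hys⟩ := hy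
          refine ⟨combo_mem hs.2.2 hev0 hev1 (fun w hw' => hevs w fun h => hw' (by
            rw [h]; exact Finset.mem_insert_self v s)) h0 h1
            (fun w hw' => hys w fun h => hw' (Finset.mem_insert_of_mem h)) ⟨by norm_num, by norm_num⟩,
            ?_, ?_⟩
          · simp only [hg, Pi.add_apply, Pi.smul_apply, smul_eq_mul, hevv, hyv]; norm_num
          · simp only [hg, Pi.add_apply, Pi.smul_apply, smul_eq_mul, hevv, hyv]; norm_num
        have hrg : ∀ y ∈ sp L, r (g y) = y := by
          intro y hy
          have hyv := hLv y hy
          have hgy := hgm hy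
          funext w
          by_cases hwv : w = v
          · rw [hwv, hrv, hyv]
          · simp only [hr, retr]
            rw [if_pos hwv, hw (g y) hgy.1.2.1]
            simp only [hg, Pi.add_apply, Pi.smul_apply, smul_eq_mul, hevv, hyv, hevs w hwv]
            ring
        have hgc : Continuous g := by
          simp only [hg]
          fun_prop
        refine totDim_homotopyEquiv F (straightEquiv r g (continuousOn_retr _ hpos)
          hgc.continuousOn hrm hgm ?_ ?_)
        · intro x hx t ht
          have hgr := hgm (hrm hx)
          obtain ⟨⟨h0, h1, s, hs, hxs⟩, hx0, hx1⟩ := hx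
          have hvs : v ∈ s := by
            by_contra hvs
            rw [hxs v hvs] at hx0
            exact lt_irrefl _ hx0
          have hsup : ∀ w, w ∉ s → g (r x) w = 0 := by
            intro w hws
            have hwv : w ≠ v := fun h => hws (h ▸ hvs)
            have h2 : r x w = 0 := retr_eq_zero (Or.inr (hxs w hws))
            simp only [hg, Pi.add_apply, Pi.smul_apply, smul_eq_mul, hevs w hwv, h2]
            ring
          refine ⟨combo_mem hs hgr.1.1 hgr.1.2.1 hsup h0 h1 hxs ht, ?_, ?_⟩
          · simp only [Pi.add_apply, Pi.smul_apply, smul_eq_mul]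
            have h2 := hgr.2.1
            have h3 := ht.1
            have h4 := ht.2
            rcases eq_or_lt_of_le h3 with h5 | h5
            · rw [← h5]; simpa using h2
            · have : 0 ≤ (1 - t) * g (r x) v := mul_nonneg (by linarith) h2.le
              have : 0 < t * x v := mul_pos h5 hx0
              linarith
          · simp only [Pi.add_apply, Pi.smul_apply, smul_eq_mul]
            have h2 := hgr.2.2
            have h3 := ht.1
            have h4 := ht.2
            rcases eq_or_lt_of_le h3 with h5 | h5
            · rw [← h5]; simpa using h2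
            · have : (1 - t) * g (r x) v ≤ 1 - t := by nlinarith
              have : t * x v < t := by nlinarith
              linarith
        · intro y hy t ht
          rw [hrg y hy, ← add_smul]
          have : (1 - t + t) • y = y := by rw [sub_add_cancel, one_smul]
          rw [this]
          exact hy
      rw [hBc, hCc] at hmv
      calc totDim F (sp S) ∅ + 1
          ≤ (totDim F A ∅ + totDim F (sp D) ∅ + totDim F (sp L) ∅) + 1 := by gcongr
        _ ≤ (1 + totDim F (sp D) ∅ + totDim F (sp L) ∅) + 1 := by gcongr
        _ = (totDim F (sp D) ∅ + 1) + (totDim F (sp L) ∅ + 1) := by ring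
        _ ≤ 2 ^ U.card + 2 ^ U.card := add_le_add iD iL
        _ = 2 ^ U.card * 2 := by ring
    · have hSU : ∀ s ∈ S, s ⊆ U := by
        intro s hs w hw
        rcases Finset.mem_insert.1 (hU s hs hw) with h2 | h2
        · exfalso
          apply hvS
          rw [h2] at hw
          exact hS.2 s hs _ (Finset.singleton_subset_iff.2 hw) (Finset.singleton_nonempty v)
        · exact h2
      refine (ih S hS hSU).trans ?_
      exact le_mul_of_one_le_right zero_le (by norm_num)

end BE20

theorem totDim_sp (F : Type) [Field F] {V : Type} [Fintype V] [DecidableEq V] (S : Set (Finset V))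
    (hS : DownClosed S) : totDim F (sp S) ∅ ≤ 2 ^ Fintype.card V := by
  have h := BE20.main F (Finset.univ : Finset V) S hS (fun s _ => Finset.subset_univ s)
  rw [Finset.card_univ] at h
  exact le_self_add.trans h

end Pool.Agent.PolyKnots
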