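import Mathlib

set_option autoImplicit false

open Set Metric Topology

namespace Pool.Agent.W_MP_be6f00_gt

/-! ## General position: pushing a 2-parameter family off a countable closed set -/

section GP

variable {E : Type*} [NormedAddCommGroup E] [NormedSpace ℝ E] [FiniteDimensional ℝ E]

/-- A small translation makes a smooth 2-parameter family avoid countably many rays. -/
theorem exists_translate_avoid_rays (hE : 3 < Module.finrank ℝ E) {P : Set E} (hP : P.Countable)
    (m₀ : E) {g : ℝ × ℝ → E} (hg : ContDiff ℝ 1 g) {ε : ℝ} (hε : 0 < ε) :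
    ∃ c : E, ‖c‖ < ε ∧ ∀ q, ∀ p ∈ P, ∀ τ : ℝ, g q + c ≠ p + τ • (p - m₀) := by
  classical
  let B : Set E := ⋃ p ∈ P, range (fun z : ℝ × (ℝ × ℝ) => p + z.1 • (p - m₀) - g z.2)
  have hB : dimH B < Module.finrank ℝ E := by
    refine lt_of_le_of_lt (b := (3 : ENNReal)) ?_ (by exact_mod_cast hE)
    rw [dimH_bUnion hP]
    refine iSup₂_le fun p _ => ?_
    have h1 : ContDiff ℝ 1 (fun z : ℝ × (ℝ × ℝ) => p + z.1 • (p - m₀) - g z.2) := by
      refine ContDiff.sub (ContDiff.add contDiff_const (ContDiff.smul contDiff_fst contDiff_const)) ?_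
      exact hg.comp contDiff_snd
    refine (h1.dimH_range_le).trans ?_
    have : Module.finrank ℝ (ℝ × (ℝ × ℝ)) = 3 := by simp
    rw [this]; norm_num
  have hd := dense_compl_of_dimH_lt_finrank hB
  obtain ⟨c, hc, hcB⟩ := hd.exists_dist_lt 0 hε
  refine ⟨c, by simpa [dist_eq_norm] using hcB, ?_⟩
  intro q p hp τ h
  apply hc
  refine mem_iUnion₂.2 ⟨p, hp, ⟨(τ, q), ?_⟩⟩
  simp only
  rw [← h]; abel

/-- **Null-homotopy of a 2-parameter family in the complement of a countable closed set.** -/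
theorem nullhomotopy_avoid_countable (hE : 3 < Module.finrank ℝ E) {P : Set E} (hP : P.Countable)
    {m₀ : E} {f : ℝ × ℝ → E} (hf : Continuous f) {ρ : ℝ} (hρ : 0 < ρ)
    (hfP : ∀ q, ∀ p ∈ P, ρ ≤ dist (f q) p) (hm : ∀ p ∈ P, ρ ≤ dist m₀ p) :
    ∃ F : (ℝ × ℝ) × ℝ → E, Continuous F ∧ (∀ q, ∀ t, F (q, t) ∉ P) ∧
      (∀ q, ∀ t ≤ 0, F (q, t) = f q) ∧ (∀ q, ∀ t, 1 ≤ t → F (q, t) = m₀) ∧
      (∀ q, f q = m₀ → ∀ t, F (q, t) = m₀) := by
  classical
  obtain ⟨g, hg, hgf, -⟩ := hf.exists_contDiff_approx (F := E) (ε := fun _ => ρ / 8) 1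
    continuous_const (fun _ => by positivity)
  obtain ⟨c, hc, hcP⟩ := exists_translate_avoid_rays hE hP m₀ (g := g) (by exact_mod_cast hg)
    (ε := ρ / 8) (by positivity)
  set η : ℝ × ℝ → ℝ := fun q => min 1 (dist (f q) m₀ * (4 / ρ)) with hη
  have hη0 : ∀ q, 0 ≤ η q := fun q => le_min zero_le_one (by positivity)
  have hη1 : ∀ q, η q ≤ 1 := fun q => min_le_left _ _
  have hηc : Continuous η := by
    refine continuous_const.min ?_
    exact (hf.dist continuous_const).mul continuous_const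
  set f' : ℝ × ℝ → E := fun q => f q + η q • (g q + c - f q) with hf'
  have hgc : Continuous g := hg.continuous
  have hf'c : Continuous f' := by
    refine hf.add (hηc.smul ?_)
    exact (hgc.add continuous_const).sub hf
  have hclose : ∀ q, ‖g q + c - f q‖ < ρ / 4 := by
    intro q
    have h1 : ‖g q - f q‖ < ρ / 8 := by simpa [dist_eq_norm] using hgf q
    calc ‖g q + c - f q‖ = ‖(g q - f q) + c‖ := by congr 1; abel
      _ ≤ ‖g q - f q‖ + ‖c‖ := norm_add_le _ _
      _ < ρ / 4 := by linarith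
  have hf'close : ∀ q, ‖f' q - f q‖ < ρ / 4 := by
    intro q
    have : f' q - f q = η q • (g q + c - f q) := by simp [hf']
    rw [this, norm_smul, Real.norm_of_nonneg (hη0 q)]
    calc η q * ‖g q + c - f q‖ ≤ 1 * ‖g q + c - f q‖ :=
          mul_le_mul_of_nonneg_right (hη1 q) (norm_nonneg _)
      _ < ρ / 4 := by rw [one_mul]; exact hclose q
  -- `f'` avoids the rays
  have hray : ∀ q, ∀ p ∈ P, ∀ τ : ℝ, 0 ≤ τ → f' q ≠ p + τ • (p - m₀) := by
    intro q p hp τ hτ h
    by_cases h1 : 1 ≤ dist (f q) m₀ * (4 / ρ)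
    · have : η q = 1 := by simp [hη, h1]
      have h2 : f' q = g q + c := by simp [hf', this]
      exact hcP q p hp τ (h2 ▸ h)
    · push Not at h1
      have h2 : dist (f q) m₀ < ρ / 4 := by
        have : dist (f q) m₀ * (4 / ρ) * (ρ / 4) < 1 * (ρ / 4) :=
          mul_lt_mul_of_pos_right h1 (by positivity)
        have h3 : dist (f q) m₀ * (4 / ρ) * (ρ / 4) = dist (f q) m₀ := by field_simp
        linarith
      have h3 : ‖f' q - m₀‖ < ρ / 2 := by
        calc ‖f' q - m₀‖ = ‖(f' q - f q) + (f q - m₀)‖ := by congr 1; abel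
          _ ≤ ‖f' q - f q‖ + ‖f q - m₀‖ := norm_add_le _ _
          _ < ρ / 2 := by
            rw [dist_eq_norm] at h2
            linarith [hf'close q]
      have h4 : f' q - m₀ = (1 + τ) • (p - m₀) := by
        rw [h, add_smul, one_smul]; abel
      rw [h4, norm_smul, Real.norm_of_nonneg (by linarith)] at h3
      have h5 : ρ ≤ ‖p - m₀‖ := by
        have := hm p hp
        rwa [dist_comm, dist_eq_norm] at this
      nlinarith [norm_nonneg (p - m₀)]
  refine ⟨fun z => f z.1 + (min (max (2 * z.2) 0) 1) • (f' z.1 - f z.1)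
      + (min (max (2 * z.2 - 1) 0) 1) • (m₀ - f' z.1), ?_, ?_, ?_, ?_, ?_⟩
  · have hfc1 : Continuous fun z : (ℝ × ℝ) × ℝ => f z.1 := hf.comp continuous_fst
    have hfc2 : Continuous fun z : (ℝ × ℝ) × ℝ => f' z.1 := hf'c.comp continuous_fst
    have ha : Continuous fun z : (ℝ × ℝ) × ℝ => min (max (2 * z.2) 0) 1 := by fun_prop
    have hb : Continuous fun z : (ℝ × ℝ) × ℝ => min (max (2 * z.2 - 1) 0) 1 := by fun_prop
    exact (hfc1.add (ha.smul (hfc2.sub hfc1))).add (hb.smul (continuous_const.sub hfc2))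
  · intro q t hmem
    simp only at hmem
    rcases le_total t (1/2) with ht | ht
    · have hb : min (max (2 * t - 1) 0) 1 = 0 := by
        rw [max_eq_right (by linarith)]; simp
      rw [hb, zero_smul, add_zero] at hmem
      set a := min (max (2 * t) 0) 1 with ha
      have ha0 : 0 ≤ a := le_min (le_max_right _ _) zero_le_one
      have ha1 : a ≤ 1 := min_le_right _ _
      have := hfP q _ hmem
      rw [dist_eq_norm] at this
      have h2 : f q - (f q + a • (f' q - f q)) = -(a • (f' q - f q)) := by abel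
      rw [h2, norm_neg, norm_smul, Real.norm_of_nonneg ha0] at this
      have h3 := hf'close q
      nlinarith [norm_nonneg (f' q - f q)]
    · have ha : min (max (2 * t) 0) 1 = 1 := by
        rw [max_eq_left (by linarith)]; exact min_eq_right (by linarith)
      rw [ha, one_smul] at hmem
      set b := min (max (2 * t - 1) 0) 1 with hb
      have hb0 : 0 ≤ b := le_min (le_max_right _ _) zero_le_one
      have hb1 : b ≤ 1 := min_le_right _ _
      have h1 : f q + (f' q - f q) + b • (m₀ - f' q) = f' q + b • (m₀ - f' q) := by abel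
      rw [h1] at hmem
      rcases eq_or_lt_of_le hb1 with hb2 | hb2
      · rw [hb2, one_smul] at hmem
        have : f' q + (m₀ - f' q) = m₀ := by abel
        rw [this] at hmem
        have := hm _ hmem
        rw [dist_self] at this
        linarith
      · refine hray q _ hmem (b / (1 - b)) (div_nonneg hb0 (by linarith)) ?_
        have hb3 : (1 - b) ≠ 0 := by linarith
        have h4 : f' q + b • (m₀ - f' q) - m₀ = (1 - b) • (f' q - m₀) := by
          rw [sub_smul, one_smul, smul_sub, smul_sub]; abel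
        rw [h4, smul_smul, div_mul_cancel₀ _ hb3]
        rw [smul_sub, smul_sub]; abel
  · intro q t ht
    have h1 : min (max (2 * t) 0) 1 = 0 := by rw [max_eq_right (by linarith)]; simp
    have h2 : min (max (2 * t - 1) 0) 1 = 0 := by rw [max_eq_right (by linarith)]; simp
    simp [h1, h2]
  · intro q t ht
    have h1 : min (max (2 * t) 0) 1 = 1 := by
      rw [max_eq_left (by linarith)]; exact min_eq_right (by linarith)
    have h2 : min (max (2 * t - 1) 0) 1 = 1 := by
      rw [max_eq_left (by linarith)]; exact min_eq_right (by linarith)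
    simp [h1, h2]
  · intro q hq t
    have h1 : η q = 0 := by simp [hη, hq]
    have h2 : f' q = m₀ := by simp [hf', h1, hq]
    simp [hq, h2]

end GP

/-! ## The complement of the standard 3-sphere in 5-space -/

section Std

/-- Euclidean 5-space. -/
abbrev E5 := EuclideanSpace ℝ (Fin 5)

/-- The standard unit 3-sphere in the hyperplane `x 4 = 0` of 5-space. -/
def stdS3 : Set E5 := {x | ‖x‖ = 1 ∧ x 4 = 0}

/-- The linking map of the standard sphere. -/
noncomputable def zetaStd (x : E5) : ℂ := ⟨‖x‖ ^ 2 - 1, 2 * x 4⟩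

theorem zetaStd_eq_zero {x : E5} : zetaStd x = 0 ↔ x ∈ stdS3 := by
  unfold zetaStd stdS3
  rw [Complex.ext_iff]
  simp only [Complex.zero_re, Complex.zero_im, mem_ofPred_eq]
  constructor
  · rintro ⟨h1, h2⟩
    refine ⟨?_, by linarith⟩
    have : (‖x‖ - 1) * (‖x‖ + 1) = 0 := by ring_nf; ring_nf at h1; exact h1
    rcases mul_eq_zero.1 this with h | h
    · linarith
    · have := norm_nonneg x; linarith
  · rintro ⟨h1, h2⟩
    rw [h1, h2]; norm_num

theorem continuous_coord (i : Fin 5) : Continuous fun x : E5 => x i :=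
  (EuclideanSpace.proj i : E5 →L[ℝ] ℝ).continuous

theorem continuous_zetaStd : Continuous zetaStd := by
  have h : zetaStd = fun x : E5 => (((‖x‖ ^ 2 - 1 : ℝ) : ℂ) + ((2 * x 4 : ℝ) : ℂ) * Complex.I) := by
    funext x
    apply Complex.ext
    · simp [zetaStd, -Complex.ofReal_pow]
    · simp [zetaStd, -Complex.ofReal_pow]
  rw [h]
  have h4 := continuous_coord 4
  fun_prop

/-- squared norm of the first four coordinates -/
noncomputable def V4 (m : E5) : ℝ := ‖m‖ ^ 2 - (m 4) ^ 2

theorem V4_eq (m : E5) : V4 m = (m 0) ^ 2 + (m 1) ^ 2 + (m 2) ^ 2 + (m 3) ^ 2 := by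
  unfold V4
  rw [EuclideanSpace.norm_sq_eq, Fin.sum_univ_five]
  simp [Real.norm_eq_abs, sq_abs]

theorem V4_nonneg (m : E5) : 0 ≤ V4 m := by rw [V4_eq]; positivity

theorem continuous_V4 : Continuous V4 := by
  unfold V4
  have h4 := continuous_coord 4
  fun_prop

noncomputable def cc (m : E5) : ℝ := 1 / Real.sqrt (1 + V4 m)

theorem cc_pos (m : E5) : 0 < cc m := by
  unfold cc
  have := V4_nonneg m
  positivity

theorem cc_sq (m : E5) : (cc m) ^ 2 * (1 + V4 m) = 1 := by
  unfold cc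
  have := V4_nonneg m
  rw [div_pow, Real.sq_sqrt (by linarith)]
  field_simp

theorem cc_le_one (m : E5) : cc m ≤ 1 := by
  have h := cc_sq m
  have := V4_nonneg m
  have h0 := cc_pos m
  by_contra hc
  push Not at hc
  nlinarith

theorem continuous_cc : Continuous cc := by
  unfold cc
  refine continuous_const.div ?_ ?_
  · exact Real.continuous_sqrt.comp (continuous_const.add continuous_V4)
  · intro m
    have := V4_nonneg m
    positivity

noncomputable def DD (m : E5) : ℝ := 1 - cc m * Real.cos (m 4)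

theorem continuous_DD : Continuous DD := by
  unfold DD
  have h4 := continuous_coord 4
  have := continuous_cc
  fun_prop

theorem DD_nonneg (m : E5) : 0 ≤ DD m := by
  unfold DD
  have := cc_le_one m
  have := cc_pos m
  have := Real.cos_le_one (m 4)
  have := Real.neg_one_le_cos (m 4)
  nlinarith

/-- the bad points of the model -/
def PP : Set E5 := {m | DD m = 0}

theorem PP_closed : IsClosed PP := isClosed_eq continuous_DD continuous_const

theorem PP_countable : PP.Countable := by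
  have : PP ⊆ range (fun k : ℤ => EuclideanSpace.single (4 : Fin 5) ((k : ℝ) * (2 * Real.pi))) := by
    intro m hm
    have hm : DD m = 0 := hm
    unfold DD at hm
    have h1 := cc_le_one m
    have h0 := cc_pos m
    have h2 := Real.cos_le_one (m 4)
    have h3 : cc m = 1 := by nlinarith
    have h4 : Real.cos (m 4) = 1 := by rw [h3] at hm; linarith
    have h5 : V4 m = 0 := by
      have := cc_sq m
      rw [h3] at this; linarith
    obtain ⟨k, hk⟩ := (Real.cos_eq_one_iff (m 4)).1 h4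
    refine ⟨k, ?_⟩
    rw [V4_eq] at h5
    have e0 : m 0 = 0 := by nlinarith [sq_nonneg (m 0), sq_nonneg (m 1), sq_nonneg (m 2), sq_nonneg (m 3)]
    have e1 : m 1 = 0 := by nlinarith [sq_nonneg (m 0), sq_nonneg (m 1), sq_nonneg (m 2), sq_nonneg (m 3)]
    have e2 : m 2 = 0 := by nlinarith [sq_nonneg (m 0), sq_nonneg (m 1), sq_nonneg (m 2), sq_nonneg (m 3)]
    have e3 : m 3 = 0 := by nlinarith [sq_nonneg (m 0), sq_nonneg (m 1), sq_nonneg (m 2), sq_nonneg (m 3)]
    ext i
    fin_cases i <;> simp [e0, e1, e2, e3, hk]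
  exact (countable_range _).mono this

/-- The covering of the complement of the standard sphere by 5-space minus countably many points. -/
noncomputable def Psi (m : E5) : E5 :=
  (cc m / DD m) • (m + (Real.sin (m 4) - m 4) • EuclideanSpace.single (4 : Fin 5) (1 : ℝ))

theorem Psi_apply_four (m : E5) : Psi m 4 = cc m / DD m * Real.sin (m 4) := by
  simp [Psi]
  ring

theorem Psi_norm_sq (m : E5) : ‖Psi m‖ ^ 2 = (cc m / DD m) ^ 2 * (V4 m + Real.sin (m 4) ^ 2) := by
  rw [EuclideanSpace.norm_sq_eq, Fin.sum_univ_five, V4_eq]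
  simp only [Real.norm_eq_abs, sq_abs]
  simp [Psi]
  ring

theorem zetaStd_Psi {m : E5} (hm : DD m ≠ 0) :
    zetaStd (Psi m) = ((2 * cc m / DD m : ℝ) : ℂ) * Complex.exp ((m 4 : ℝ) * Complex.I) := by
  have hc := cc_sq m
  have hs := Real.sin_sq_add_cos_sq (m 4)
  have key : ‖Psi m‖ ^ 2 - 1 = 2 * cc m / DD m * Real.cos (m 4) := by
    rw [Psi_norm_sq]
    field_simp
    have hD : DD m = 1 - cc m * Real.cos (m 4) := rfl
    rw [hD]
    nlinarith
  rw [Complex.exp_mul_I]
  apply Complex.ext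
  · have h1 : (zetaStd (Psi m)).re = ‖Psi m‖ ^ 2 - 1 := rfl
    rw [h1, key]
    simp [← Complex.ofReal_cos, ← Complex.ofReal_sin]
  · have h1 : (zetaStd (Psi m)).im = 2 * Psi m 4 := rfl
    rw [h1, Psi_apply_four]
    simp [← Complex.ofReal_cos, ← Complex.ofReal_sin]
    ring

theorem Psi_not_mem {m : E5} (hm : m ∉ PP) : Psi m ∉ stdS3 := by
  have hm' : DD m ≠ 0 := hm
  rw [← zetaStd_eq_zero, zetaStd_Psi hm']
  have := cc_pos m
  refine mul_ne_zero ?_ (Complex.exp_ne_zero _)
  have : 2 * cc m / DD m ≠ 0 := by positivity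
  exact_mod_cast this

theorem continuousOn_Psi : ContinuousOn Psi PPᶜ := by
  intro m hm
  have hm' : DD m ≠ 0 := hm
  refine ContinuousAt.continuousWithinAt ?_
  unfold Psi
  have h4 := continuous_coord 4
  have h1 : ContinuousAt (fun m : E5 => cc m / DD m) m :=
    continuous_cc.continuousAt.div continuous_DD.continuousAt hm'
  have h2 : ContinuousAt (fun m : E5 =>
        m + (Real.sin (m 4) - m 4) • EuclideanSpace.single (4 : Fin 5) (1 : ℝ)) m := by
    have : Continuous (fun m : E5 =>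
        m + (Real.sin (m 4) - m 4) • EuclideanSpace.single (4 : Fin 5) (1 : ℝ)) := by
      fun_prop
    exact this.continuousAt
  exact h1.smul h2

/-- The explicit lift of `x`, given a value `θ` of the argument of `zetaStd x`. -/
noncomputable def liftPt (x : E5) (θ : ℝ) : E5 :=
  (2 / ‖zetaStd x‖) • (x - (x 4) • EuclideanSpace.single (4 : Fin 5) (1 : ℝ))
    + θ • EuclideanSpace.single (4 : Fin 5) (1 : ℝ)

theorem liftPt_four (x : E5) (θ : ℝ) : liftPt x θ 4 = θ := by
  simp [liftPt]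

theorem V4_liftPt (x : E5) (θ : ℝ) :
    V4 (liftPt x θ) = (2 / ‖zetaStd x‖) ^ 2 * (‖x‖ ^ 2 - x 4 ^ 2) := by
  rw [V4_eq, EuclideanSpace.norm_sq_eq, Fin.sum_univ_five]
  simp only [Real.norm_eq_abs, sq_abs]
  simp [liftPt]
  ring

theorem norm_zetaStd_sq (x : E5) :
    ‖zetaStd x‖ ^ 2 = (‖x‖ ^ 2 - 1) ^ 2 + (2 * x 4) ^ 2 := by
  rw [← Complex.normSq_eq_norm_sq, Complex.normSq_apply]
  simp [zetaStd]
  ring

theorem cc_liftPt {x : E5} (hx : x ∉ stdS3) (θ : ℝ) :
    cc (liftPt x θ) = ‖zetaStd x‖ / (‖x‖ ^ 2 + 1) := by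
  have hz : 0 < ‖zetaStd x‖ := norm_pos_iff.2 (fun h => hx (zetaStd_eq_zero.1 h))
  have h1 : 1 + V4 (liftPt x θ) = ((‖x‖ ^ 2 + 1) / ‖zetaStd x‖) ^ 2 := by
    rw [V4_liftPt]
    field_simp
    rw [norm_zetaStd_sq]
    ring
  unfold cc
  rw [h1, Real.sqrt_sq (by positivity)]
  field_simp

theorem Psi_liftPt {x : E5} (hx : x ∉ stdS3) {θ : ℝ}
    (hθ : zetaStd x = (‖zetaStd x‖ : ℂ) * Complex.exp ((θ : ℝ) * Complex.I)) :
    DD (liftPt x θ) ≠ 0 ∧ Psi (liftPt x θ) = x := by
  have hz : 0 < ‖zetaStd x‖ := norm_pos_iff.2 (fun h => hx (zetaStd_eq_zero.1 h))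
  have hre : ‖x‖ ^ 2 - 1 = ‖zetaStd x‖ * Real.cos θ := by
    have := congrArg Complex.re hθ
    rw [Complex.exp_mul_I] at this
    simpa [zetaStd, ← Complex.ofReal_cos, ← Complex.ofReal_sin] using this
  have him : 2 * x 4 = ‖zetaStd x‖ * Real.sin θ := by
    have := congrArg Complex.im hθ
    rw [Complex.exp_mul_I] at this
    simpa [zetaStd, ← Complex.ofReal_cos, ← Complex.ofReal_sin] using this
  have hc := cc_liftPt hx θ
  have hR : 0 < ‖x‖ ^ 2 + 1 := by positivity
  have hD : DD (liftPt x θ) = 2 / (‖x‖ ^ 2 + 1) := by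
    unfold DD
    rw [hc, liftPt_four]
    have : ‖zetaStd x‖ / (‖x‖ ^ 2 + 1) * Real.cos θ = (‖x‖ ^ 2 - 1) / (‖x‖ ^ 2 + 1) := by
      rw [hre]; ring
    rw [this]
    field_simp
    ring
  refine ⟨by rw [hD]; positivity, ?_⟩
  have hcd : cc (liftPt x θ) / DD (liftPt x θ) = ‖zetaStd x‖ / 2 := by
    rw [hc, hD]; field_simp
  ext i
  by_cases hi : i = 4
  · subst hi
    rw [Psi_apply_four, hcd, liftPt_four]
    linarith
  · unfold Psi
    rw [hcd, liftPt_four]
    have : (EuclideanSpace.single (4 : Fin 5) (1 : ℝ) : E5) i = 0 := by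
      simp [hi]
    simp only [liftPt, PiLp.add_apply, PiLp.smul_apply, PiLp.sub_apply, smul_eq_mul, this]
    field_simp
    ring

/-- the complement of the open unit square in the plane -/
def outSq : Set (ℝ × ℝ) := {q | q ∉ Ioo (0:ℝ) 1 ×ˢ Ioo (0:ℝ) 1}

theorem mem_outSq {q : ℝ × ℝ} : q ∈ outSq ↔ q.1 ≤ 0 ∨ 1 ≤ q.1 ∨ q.2 ≤ 0 ∨ 1 ≤ q.2 := by
  unfold outSq
  simp only [mem_ofPred_eq, mem_prod, mem_Ioo, not_and_or, not_lt]
  tauto

theorem outSq_preconnected : IsPreconnected outSq := by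
  have h1 : IsPreconnected {q : ℝ × ℝ | q.1 ≤ 0} :=
    (convex_halfSpace_le (LinearMap.fst ℝ ℝ ℝ).isLinear 0).isPreconnected
  have h2 : IsPreconnected {q : ℝ × ℝ | 1 ≤ q.1} :=
    (convex_halfSpace_ge (LinearMap.fst ℝ ℝ ℝ).isLinear 1).isPreconnected
  have h3 : IsPreconnected {q : ℝ × ℝ | q.2 ≤ 0} :=
    (convex_halfSpace_le (LinearMap.snd ℝ ℝ ℝ).isLinear 0).isPreconnected
  have h4 : IsPreconnected {q : ℝ × ℝ | 1 ≤ q.2} :=
    (convex_halfSpace_ge (LinearMap.snd ℝ ℝ ℝ).isLinear 1).isPreconnected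
  have h13 := h1.union (0, 0) (by simp) (by simp) h3
  have h132 := h13.union (1, 0) (by simp) (by simp) h2
  have h1324 := h132.union (1, 1) (by simp) (by simp) h4
  convert h1324 using 1
  ext q
  rw [mem_outSq]
  simp only [mem_union, mem_ofPred_eq]
  tauto

/-- **`π₂` of the complement of the standard `S³` in 5-space vanishes** (rel boundary form):
a square in the complement whose boundary is constant is null-homotopic rel boundary. -/
theorem std_pi2 {f : ℝ × ℝ → E5} (hf : Continuous f) (hS : ∀ q, f q ∉ stdS3) {x₀ : E5}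
    (h0 : ∀ q ∈ outSq, f q = x₀) :
    ∃ F : (ℝ × ℝ) × ℝ → E5, Continuous F ∧ (∀ p, F p ∉ stdS3) ∧
      (∀ q, ∀ t ≤ 0, F (q, t) = f q) ∧ (∀ q, ∀ t, 1 ≤ t → F (q, t) = x₀) ∧
      (∀ q ∈ outSq, ∀ t, F (q, t) = x₀) := by
  classical
  -- lift the argument
  have hz : ∀ q, zetaStd (f q) ≠ 0 := fun q h => hS q (zetaStd_eq_zero.1 h)
  obtain ⟨L, ⟨-, hL⟩, -⟩ := Complex.isCoveringMapOn_exp.existsUnique_continuousMap_lifts
    (A := ℝ × ℝ) ⟨fun q => zetaStd (f q), continuous_zetaStd.comp hf⟩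
    (a₀ := (0, 0)) (e₀ := Complex.log (zetaStd (f (0, 0))))
    (Complex.exp_log (hz _)) (fun q => by simpa using hz q)
  have hL' : ∀ q, Complex.exp (L q) = zetaStd (f q) := fun q => by
    have := congrFun hL q
    simpa using this
  set θ : ℝ × ℝ → ℝ := fun q => (L q).im with hθ
  have hθc : Continuous θ := Complex.continuous_im.comp L.continuous
  have hpol : ∀ q, zetaStd (f q) = (‖zetaStd (f q)‖ : ℂ) * Complex.exp ((θ q : ℝ) * Complex.I) := by
    intro q
    rw [← hL' q, Complex.norm_exp, Complex.ofReal_exp, ← Complex.exp_add]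
    congr 1
    simp [hθ, Complex.re_add_im]
  set g : ℝ × ℝ → E5 := fun q => liftPt (f q) (θ q) with hg
  have hgc : Continuous g := by
    have h4 : Continuous fun q => f q 4 := (continuous_coord 4).comp hf
    have hn : Continuous fun q => 2 / ‖zetaStd (f q)‖ :=
      continuous_const.div (continuous_zetaStd.comp hf).norm (fun q => norm_ne_zero_iff.2 (hz q))
    have : g = fun q => (2 / ‖zetaStd (f q)‖) • (f q - (f q 4) •
        EuclideanSpace.single (4 : Fin 5) (1 : ℝ)) + θ q • EuclideanSpace.single (4 : Fin 5) (1 : ℝ) := rfl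
    rw [this]
    exact (hn.smul (hf.sub (h4.smul continuous_const))).add (hθc.smul continuous_const)
  have hgP : ∀ q, g q ∉ PP := fun q => (Psi_liftPt (hS q) (hpol q)).1
  have hgΨ : ∀ q, Psi (g q) = f q := fun q => (Psi_liftPt (hS q) (hpol q)).2
  -- constancy outside the square
  have hout0 : ((0, 0) : ℝ × ℝ) ∈ outSq := by rw [mem_outSq]; simp
  have hLconst : ∀ q ∈ outSq, L q = L (0, 0) := by
    intro q hq
    refine Complex.isCoveringMap_exp.constOn_of_comp outSq_preconnected
      L.continuous.continuousOn ?_ hq hout0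
    intro a ha b hb
    apply Subtype.ext
    simp only
    rw [hL' a, hL' b, h0 a ha, h0 b hb]
  set m₀ : E5 := g (0, 0) with hm₀
  have hgout : ∀ q ∈ outSq, g q = m₀ := by
    intro q hq
    have h1 : f q = f (0, 0) := by rw [h0 q hq, h0 _ hout0]
    have h2 : θ q = θ (0, 0) := by simp only [hθ, hLconst q hq]
    rw [hm₀]
    simp only [hg, h1, h2]
  -- uniform distance
  have hK : IsCompact (g '' (Icc (0:ℝ) 1 ×ˢ Icc (0:ℝ) 1)) :=
    (isCompact_Icc.prod isCompact_Icc).image hgc
  have hdisj : Disjoint (g '' (Icc (0:ℝ) 1 ×ˢ Icc (0:ℝ) 1)) PP := by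
    rw [Set.disjoint_left]
    rintro _ ⟨q, -, rfl⟩ h
    exact hgP q h
  obtain ⟨ρ, hρ, hρd⟩ := hdisj.exists_thickenings hK PP_closed
  have hrange : ∀ q, g q ∈ g '' (Icc (0:ℝ) 1 ×ˢ Icc (0:ℝ) 1) := by
    intro q
    by_cases hq : q ∈ outSq
    · exact ⟨(0, 0), by simp, by rw [hgout q hq, hm₀]⟩
    · unfold outSq at hq
      simp only [mem_ofPred_eq, not_not] at hq
      exact ⟨q, ⟨Ioo_subset_Icc_self hq.1, Ioo_subset_Icc_self hq.2⟩, rfl⟩
  have hdist : ∀ q, ∀ p ∈ PP, ρ ≤ dist (g q) p := by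
    intro q p hp
    by_contra hlt
    push Not at hlt
    rw [Set.disjoint_left] at hρd
    refine hρd (a := p) ?_ (self_subset_thickening hρ _ hp)
    rw [mem_thickening_iff]
    exact ⟨g q, hrange q, by rw [dist_comm]; exact hlt⟩
  have hE : 3 < Module.finrank ℝ E5 := by simp [E5]
  obtain ⟨F, hFc, hFP, hF0, hF1, hFb⟩ := nullhomotopy_avoid_countable hE PP_countable
    (m₀ := m₀) hgc hρ hdist (hdist (0, 0))
  have hx0 : Psi m₀ = x₀ := by rw [hm₀, hgΨ, h0 _ hout0]
  refine ⟨fun p => Psi (F p), ?_, ?_, ?_, ?_, ?_⟩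
  · rw [continuous_iff_continuousAt]
    intro p
    have : ContinuousAt Psi (F p) := by
      refine continuousOn_Psi.continuousAt ?_
      exact (PP_closed.isOpen_compl).mem_nhds (hFP p.1 p.2)
    exact this.comp hFc.continuousAt
  · intro p
    exact Psi_not_mem (hFP p.1 p.2)
  · intro q t ht
    simp only [hF0 q t ht, hgΨ]
  · intro q t ht
    simp only [hF1 q t ht, hx0]
  · intro q hq t
    simp only [hFb q (hgout q hq) t, hx0]

end Std

end Pool.Agent.W_MP_be6f00_gt
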