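import Mathlib
import Pool.Agent.W_MP_be6f00_gt.StdPi2

set_option autoImplicit false

open Set Metric Topology

namespace Pool.Agent.W_MP_be6f00_gt

/-- `std_pi2` for the square `[-1,1]^2` with the sup norm -/
theorem std_pi2_ball {f : ℝ × ℝ → E5} (hf : Continuous f) (hS : ∀ q, f q ∉ stdS3) {x₀ : E5}
    (h0 : ∀ q : ℝ × ℝ, 1 ≤ ‖q‖ → f q = x₀) :
    ∃ F : (ℝ × ℝ) × ℝ → E5, Continuous F ∧ (∀ p, F p ∉ stdS3) ∧
      (∀ q, ∀ t ≤ 0, F (q, t) = f q) ∧ (∀ q, ∀ t, 1 ≤ t → F (q, t) = x₀) ∧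
      (∀ q : ℝ × ℝ, 1 ≤ ‖q‖ → ∀ t, F (q, t) = x₀) := by
  set g : ℝ × ℝ → E5 := fun q => f (2 * q.1 - 1, 2 * q.2 - 1) with hg
  have hgc : Continuous g := hf.comp (by fun_prop)
  have hout : ∀ q ∈ outSq, g q = x₀ := by
    intro q hq
    apply h0
    rw [mem_outSq] at hq
    rw [Prod.norm_def, le_max_iff]
    simp only [Real.norm_eq_abs, le_abs]
    rcases hq with h | h | h | h
    · left; right; linarith
    · left; left; linarith
    · right; right; linarith
    · right; left; linarith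
  obtain ⟨F, hFc, hFS, hF0, hF1, hFb⟩ := std_pi2 hgc (fun q => hS _) hout
  refine ⟨fun z => F (((z.1.1 + 1) / 2, (z.1.2 + 1) / 2), z.2), hFc.comp (by fun_prop),
    fun p => hFS _, ?_, ?_, ?_⟩
  · intro q t ht
    simp only
    rw [hF0 _ t ht, hg]
    simp only
    congr 1
    ext <;> simp <;> ring
  · intro q t ht
    exact hF1 _ t ht
  · intro q hq t
    refine hFb _ ?_ t
    rw [mem_outSq]
    rw [Prod.norm_def, le_max_iff] at hq
    simp only [Real.norm_eq_abs, le_abs] at hq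
    simp only
    rcases hq with (h | h) | (h | h)
    · right; left; linarith
    · left; linarith
    · right; right; right; linarith
    · right; right; left; linarith

noncomputable def hh (r : ℝ) : ℝ := max (-1) (min 1 (3 - 6 * r))
noncomputable def lam (r : ℝ) : ℝ := max 0 (min 1 (3 - 3 * r)) / max r (1 / 3)

theorem hh1 {r : ℝ} (h : r ≤ 1 / 3) : hh r = 1 := by
  unfold hh
  rw [min_eq_left (by linarith)]; norm_num
theorem hh2 {r : ℝ} (h : 1 / 3 ≤ r) (h' : r ≤ 2 / 3) : hh r = 3 - 6 * r := by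
  unfold hh
  rw [min_eq_right (by linarith), max_eq_right (by linarith)]
theorem hh3 {r : ℝ} (h : 2 / 3 ≤ r) : hh r = -1 := by
  unfold hh
  rw [min_eq_right (by linarith), max_eq_left (by linarith)]
theorem lam1 {r : ℝ} (h : r ≤ 1 / 3) : lam r = 3 := by
  unfold lam
  rw [min_eq_left (by linarith), max_eq_right (by linarith), max_eq_right h]; norm_num
theorem lam2 {r : ℝ} (h : 1 / 3 ≤ r) (h' : r ≤ 2 / 3) : lam r = 1 / r := by
  unfold lam
  rw [min_eq_left (by linarith), max_eq_right (by linarith), max_eq_left h]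
theorem lam3 {r : ℝ} (h : 2 / 3 ≤ r) (h' : r ≤ 1) : lam r = (3 - 3 * r) / r := by
  unfold lam
  rw [min_eq_right (by linarith), max_eq_right (by linarith), max_eq_left (by linarith)]
theorem lam4 {r : ℝ} (h : 1 ≤ r) : lam r = 0 := by
  unfold lam
  rw [min_eq_right (by linarith), max_eq_left (by linarith)]; simp

theorem continuous_hh : Continuous hh := by unfold hh; fun_prop
theorem continuous_lam : Continuous lam := by
  unfold lam
  refine Continuous.div (by fun_prop) (by fun_prop) ?_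
  intro r
  have : (0 : ℝ) < max r (1 / 3) := lt_of_lt_of_le (by norm_num) (le_max_right _ _)
  exact this.ne'

theorem lam_nonneg (r : ℝ) : 0 ≤ lam r := by unfold lam; positivity

theorem abs_hh_le (r : ℝ) : |hh r| ≤ 1 := by
  unfold hh
  rw [abs_le]
  exact ⟨le_max_left _ _, max_le (by norm_num) (min_le_left _ _)⟩

theorem nu1 {r : ℝ} (h : r ≤ 1 / 3) : lam r * r = 3 * r := by rw [lam1 h]
theorem nu2 {r : ℝ} (h : 1 / 3 ≤ r) (h' : r ≤ 2 / 3) : lam r * r = 1 := by
  rw [lam2 h h']; field_simp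
theorem nu3 {r : ℝ} (h : 2 / 3 ≤ r) (h' : r ≤ 1) : lam r * r = 3 - 3 * r := by
  rw [lam3 h h']; field_simp

theorem nu_le (r : ℝ) (h0 : 0 ≤ r) : lam r * r ≤ 1 := by
  rcases le_total r (1 / 3) with h | h
  · rw [nu1 h]; linarith
  rcases le_total r (2 / 3) with h' | h'
  · rw [nu2 h h']
  rcases le_total r 1 with h'' | h''
  · rw [nu3 h' h'']; linarith
  · rw [lam4 h'']; norm_num

theorem hn_inj {r r' : ℝ} (h0 : 0 ≤ r) (h0' : 0 ≤ r') (hlt : r < 1)
    (hh' : hh r = hh r') (hn : lam r * r = lam r' * r') : r = r' := by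
  rcases le_total r (1 / 3) with h | h
  · rw [hh1 h, nu1 h] at *
    rcases le_total r' (1 / 3) with g | g
    · rw [nu1 g] at hn; linarith
    rcases le_total r' (2 / 3) with g' | g'
    · rw [hh2 g g'] at hh'
      rw [nu2 g g'] at hn; linarith
    · rw [hh3 g'] at hh'; norm_num at hh'
  rcases le_total r (2 / 3) with h' | h'
  · rw [hh2 h h'] at hh'
    rw [nu2 h h'] at hn
    rcases le_total r' (1 / 3) with g | g
    · rw [nu1 g] at hn; rw [hh1 g] at hh'; linarith
    rcases le_total r' (2 / 3) with g' | g'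
    · rw [hh2 g g'] at hh'; linarith
    · rw [hh3 g'] at hh'
      rcases le_total r' 1 with g'' | g''
      · rw [nu3 g' g''] at hn; linarith
      · rw [lam4 g''] at hn; norm_num at hn
  · rw [hh3 h'] at hh'
    rw [nu3 h' hlt.le] at hn
    rcases le_total r' (1 / 3) with g | g
    · rw [hh1 g] at hh'; norm_num at hh'
    rcases le_total r' (2 / 3) with g' | g'
    · rw [hh2 g g'] at hh'; rw [nu2 g g'] at hn; linarith
    · rcases le_total r' 1 with g'' | g''
      · rw [nu3 g' g''] at hn; linarith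
      · rw [lam4 g''] at hn; linarith

/-- the collapse of the square onto the boundary of the cube -/
noncomputable def QQ (p : ℝ × ℝ) : Fin 3 → ℝ := ![hh ‖p‖, lam ‖p‖ * p.1, lam ‖p‖ * p.2]

theorem continuous_QQ : Continuous QQ := by
  have h1 : Continuous fun p : ℝ × ℝ => hh ‖p‖ := continuous_hh.comp continuous_norm
  have h2 : Continuous fun p : ℝ × ℝ => lam ‖p‖ := continuous_lam.comp continuous_norm
  refine continuous_pi fun i => ?_
  fin_cases i
  · exact h1
  · exact h2.mul continuous_fst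
  · exact h2.mul continuous_snd

theorem norm_pair_QQ (p : ℝ × ℝ) : ‖((QQ p 1, QQ p 2) : ℝ × ℝ)‖ = lam ‖p‖ * ‖p‖ := by
  have : ((QQ p 1, QQ p 2) : ℝ × ℝ) = lam ‖p‖ • p := by
    ext <;> simp [QQ]
  rw [this, norm_smul, Real.norm_of_nonneg (lam_nonneg _)]

theorem norm3 (s : Fin 3 → ℝ) : ‖s‖ = max |s 0| ‖((s 1, s 2) : ℝ × ℝ)‖ := by
  rw [Prod.norm_def]
  simp only [Real.norm_eq_abs]
  apply le_antisymm
  · rw [pi_norm_le_iff_of_nonneg (by positivity)]
    intro i
    fin_cases i <;> simp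
  · refine max_le (norm_le_pi_norm s 0) (max_le (norm_le_pi_norm s 1) (norm_le_pi_norm s 2))

theorem norm_QQ (p : ℝ × ℝ) : ‖QQ p‖ = 1 := by
  rw [norm3, norm_pair_QQ]
  have h0 : QQ p 0 = hh ‖p‖ := rfl
  rw [h0]
  apply le_antisymm
  · exact max_le (abs_hh_le _) (nu_le _ (norm_nonneg _))
  · rw [le_max_iff]
    rcases le_total ‖p‖ (1 / 3) with h | h
    · left; rw [hh1 h]; simp
    rcases le_total ‖p‖ (2 / 3) with h' | h'
    · right; rw [nu2 h h']
    · left; rw [hh3 h']; simp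

theorem QQ_inj {p p' : ℝ × ℝ} (h : QQ p = QQ p') : p = p' ∨ (1 ≤ ‖p‖ ∧ 1 ≤ ‖p'‖) := by
  have h0 : hh ‖p‖ = hh ‖p'‖ := congrFun h 0
  have h1 : QQ p 1 = QQ p' 1 := congrFun h 1
  have h2 : QQ p 2 = QQ p' 2 := congrFun h 2
  have hn : lam ‖p‖ * ‖p‖ = lam ‖p'‖ * ‖p'‖ := by
    rw [← norm_pair_QQ, ← norm_pair_QQ, h1, h2]
  by_cases hp : ‖p‖ < 1
  · have hr := hn_inj (norm_nonneg p) (norm_nonneg p') hp h0 hn
    have hlam : lam ‖p‖ ≠ 0 := by
      rcases le_total ‖p‖ (1 / 3) with h | h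
      · rw [lam1 h]; norm_num
      rcases le_total ‖p‖ (2 / 3) with h' | h'
      · rw [lam2 h h']; positivity
      · rw [lam3 h' hp.le]
        have : 0 < 3 - 3 * ‖p‖ := by linarith
        positivity
    left
    have e1 : lam ‖p‖ * p.1 = lam ‖p'‖ * p'.1 := h1
    have e2 : lam ‖p‖ * p.2 = lam ‖p'‖ * p'.2 := h2
    rw [← hr] at e1 e2
    ext
    · exact mul_left_cancel₀ hlam e1
    · exact mul_left_cancel₀ hlam e2
  · right
    push Not at hp
    refine ⟨hp, ?_⟩
    by_contra hp'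
    push Not at hp'
    have := hn_inj (norm_nonneg p') (norm_nonneg p) hp' h0.symm hn.symm
    linarith

theorem QQ_surj {s : Fin 3 → ℝ} (hs : ‖s‖ = 1) : ∃ p : ℝ × ℝ, ‖p‖ ≤ 1 ∧ QQ p = s := by
  set w : ℝ × ℝ := (s 1, s 2) with hw
  have hmax := norm3 s
  rw [hs, ← hw] at hmax
  have hs0 : |s 0| ≤ 1 := by rw [← hs]; exact norm_le_pi_norm s 0
  have hw1 : ‖w‖ ≤ 1 := by rw [hmax]; exact le_max_right _ _
  obtain ⟨hs0a, hs0b⟩ := abs_le.1 hs0
  have key : ∀ (p : ℝ × ℝ), hh ‖p‖ = s 0 → lam ‖p‖ • p = w → QQ p = s := by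
    intro p h1 h2
    funext i
    fin_cases i
    · exact h1
    · have := congrArg Prod.fst h2
      simpa [QQ, hw] using this
    · have := congrArg Prod.snd h2
      simpa [QQ, hw] using this
  rcases eq_or_lt_of_le hs0b with h | h
  · -- top face
    refine ⟨(1 / 3 : ℝ) • w, ?_, key _ ?_ ?_⟩
    · rw [norm_smul]; simp; linarith [norm_nonneg w]
    · rw [hh1, h]
      rw [norm_smul]; simp; linarith
    · rw [lam1, smul_smul]
      · norm_num
      · rw [norm_smul]; simp; linarith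
  rcases eq_or_lt_of_le hs0a with h' | h'
  · -- bottom face
    by_cases hw0 : w = 0
    · refine ⟨(1, 0), by simp [Prod.norm_def], key _ ?_ ?_⟩
      · rw [hh3, h']
        simp [Prod.norm_def]; norm_num
      · rw [lam4, hw0]
        · simp
        · simp [Prod.norm_def]
    · have hwpos : 0 < ‖w‖ := norm_pos_iff.2 hw0
      have hn : ‖((1 - ‖w‖ / 3) / ‖w‖) • w‖ = 1 - ‖w‖ / 3 := by
        rw [norm_smul, Real.norm_of_nonneg]
        · field_simp
        · apply div_nonneg _ hwpos.le; linarith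
      refine ⟨((1 - ‖w‖ / 3) / ‖w‖) • w, ?_, key _ ?_ ?_⟩
      · rw [hn]; linarith
      · rw [hn, hh3 (by linarith), h']
      · rw [hn, lam3 (by linarith) (by linarith), smul_smul]
        have hne : 1 - ‖w‖ / 3 ≠ 0 := by
          have : 0 < 1 - ‖w‖ / 3 := by linarith
          exact this.ne'
        have : (3 - 3 * (1 - ‖w‖ / 3)) / (1 - ‖w‖ / 3) * ((1 - ‖w‖ / 3) / ‖w‖) = 1 := by
          have hwne : ‖w‖ ≠ 0 := hwpos.ne'
          rw [div_mul_div_comm, div_eq_one_iff_eq (mul_ne_zero hne hwne)]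
          ring
        rw [this, one_smul]
  · -- sides
    have hwn : ‖w‖ = 1 := by
      have habs : |s 0| < 1 := abs_lt.2 ⟨h', h⟩
      rcases max_choice |s 0| ‖w‖ with hc | hc
      · rw [hc] at hmax; linarith
      · rw [hc] at hmax; exact hmax.symm
    have hr0 : 1 / 3 ≤ (3 - s 0) / 6 := by linarith
    have hr1 : (3 - s 0) / 6 ≤ 2 / 3 := by linarith
    have hn : ‖((3 - s 0) / 6) • w‖ = (3 - s 0) / 6 := by
      rw [norm_smul, hwn, Real.norm_of_nonneg (by linarith), mul_one]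
    refine ⟨((3 - s 0) / 6) • w, ?_, key _ ?_ ?_⟩
    · rw [hn]; linarith
    · rw [hn, hh2 hr0 hr1]; ring
    · rw [hn, lam2 hr0 hr1, smul_smul]
      have : (3 - s 0) / 6 ≠ 0 := by
        have : 0 < (3 - s 0) / 6 := by linarith
        exact this.ne'
      rw [one_div, inv_mul_cancel₀ this, one_smul]

/-- **Every map of the boundary of a cube into the complement of the standard 3-sphere in
5-space extends to the cube.** -/
theorem std_ext (f : (Fin 3 → ℝ) → EuclideanSpace ℝ (Fin 5))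
    (hf : ContinuousOn f (Metric.sphere 0 1))
    (hS : ∀ s ∈ Metric.sphere (0 : Fin 3 → ℝ) 1, f s ∉ stdS3) :
    ∃ F : (Fin 3 → ℝ) → EuclideanSpace ℝ (Fin 5), ContinuousOn F (Metric.closedBall 0 1) ∧
      Set.EqOn F f (Metric.sphere 0 1) ∧
      ∀ s ∈ Metric.closedBall (0 : Fin 3 → ℝ) 1, F s ∉ stdS3 := by
  classical
  have hQ : ∀ p, QQ p ∈ sphere (0 : Fin 3 → ℝ) 1 := fun p => by
    rw [mem_sphere_zero_iff_norm]; exact norm_QQ p
  set b : Fin 3 → ℝ := QQ (1, 0) with hb
  have hb' : ∀ p : ℝ × ℝ, 1 ≤ ‖p‖ → QQ p = b := by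
    intro p hp
    have e : ∀ q : ℝ × ℝ, 1 ≤ ‖q‖ → QQ q = ![-1, 0, 0] := by
      intro q hq
      funext i
      fin_cases i
      · exact hh3 (by linarith)
      · simp [QQ, lam4 hq]
      · simp [QQ, lam4 hq]
    rw [e p hp, hb, e _ (by simp [Prod.norm_def])]
  set g : ℝ × ℝ → E5 := fun p => f (QQ p) with hg
  have hgc : Continuous g := hf.comp_continuous continuous_QQ hQ
  obtain ⟨G, hGc, hGS, hG0, hG1, hGb⟩ := std_pi2_ball hgc (fun q => hS _ (hQ q)) (x₀ := f b)
    (fun q hq => by simp only [hg]; rw [hb' q hq])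
  -- the quotient map
  let K : Set ((ℝ × ℝ) × ℝ) := closedBall 0 1 ×ˢ Icc (0 : ℝ) 1
  let B : Set (Fin 3 → ℝ) := closedBall 0 1
  have hK : IsCompact K := (isCompact_closedBall _ _).prod isCompact_Icc
  haveI : CompactSpace K := isCompact_iff_compactSpace.1 hK
  let Φ : K → B := fun z => ⟨(1 - z.1.2) • QQ z.1.1, by
    rw [mem_closedBall_zero_iff, norm_smul, norm_QQ, mul_one, Real.norm_of_nonneg]
    · have := z.2.2.1; linarith
    · have := z.2.2.2; linarith⟩
  have hΦc : Continuous Φ := by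
    refine Continuous.subtype_mk ?_ _
    have h1 : Continuous fun z : K => (1 - z.1.2) :=
      continuous_const.sub (continuous_snd.comp continuous_subtype_val)
    have h2 : Continuous fun z : K => QQ z.1.1 :=
      continuous_QQ.comp (continuous_fst.comp continuous_subtype_val)
    exact h1.smul h2
  have hΦs : Function.Surjective Φ := by
    rintro ⟨s, hs⟩
    rw [mem_closedBall_zero_iff] at hs
    by_cases h0 : s = 0
    · refine ⟨⟨((0, 0), 1), ?_⟩, ?_⟩
      · exact ⟨by simp, by simp⟩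
      · apply Subtype.ext
        simp [Φ, h0]
    · have hpos : 0 < ‖s‖ := norm_pos_iff.2 h0
      obtain ⟨p, hp, hps⟩ := QQ_surj (s := ‖s‖⁻¹ • s) (by
        rw [norm_smul, norm_inv, norm_norm, inv_mul_cancel₀ hpos.ne'])
      refine ⟨⟨(p, 1 - ‖s‖), ?_⟩, ?_⟩
      · refine ⟨by simpa using hp, ?_, ?_⟩
        · simp only; linarith
        · simp only; linarith
      · apply Subtype.ext
        simp only [Φ]
        rw [hps, smul_smul, sub_sub_cancel, mul_inv_cancel₀ hpos.ne', one_smul]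
  have hΦq : IsQuotientMap Φ := hΦc.isClosedMap.isQuotientMap hΦc hΦs
  -- fibres
  have hfib : ∀ z z' : K, Φ z = Φ z' → G z.1 = G z'.1 := by
    rintro ⟨⟨p, t⟩, ⟨hp, ht0, ht1⟩⟩ ⟨⟨p', t'⟩, ⟨hp', ht0', ht1'⟩⟩ h
    have h' : (1 - t) • QQ p = (1 - t') • QQ p' := congrArg Subtype.val h
    simp only at ht0 ht1 ht0' ht1'
    have hn := congrArg norm h'
    rw [norm_smul, norm_smul, norm_QQ, norm_QQ, mul_one, mul_one, Real.norm_of_nonneg (by linarith),
      Real.norm_of_nonneg (by linarith)] at hn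
    have htt : t = t' := by linarith
    subst htt
    show G (p, t) = G (p', t)
    rcases eq_or_lt_of_le ht1 with h1 | h1
    · rw [hG1 p t h1.ge, hG1 p' t h1.ge]
    · have h2 : QQ p = QQ p' := by
        have hne : (1 - t) ≠ 0 := by linarith
        exact smul_right_injective _ hne h'
      rcases QQ_inj h2 with rfl | ⟨h3, h4⟩
      · rfl
      · rw [hGb p h3, hGb p' h4]
  let F0 : B → E5 := fun s => G (Classical.choose (hΦs s)).1
  have hF0 : ∀ z : K, F0 (Φ z) = G z.1 := fun z => hfib _ _ (Classical.choose_spec (hΦs (Φ z)))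
  have hF0c : Continuous F0 := by
    rw [hΦq.continuous_iff]
    have : F0 ∘ Φ = fun z => G z.1 := funext hF0
    rw [this]
    exact hGc.comp continuous_subtype_val
  refine ⟨fun s => if h : s ∈ B then F0 ⟨s, h⟩ else 0, ?_, ?_, ?_⟩
  · rw [continuousOn_iff_continuous_domRestrict]
    convert hF0c using 1
    funext s
    have : (s : Fin 3 → ℝ) ∈ B := s.2
    simp [Set.domRestrict, this]
  · intro s hs
    have hs1 : ‖s‖ = 1 := mem_sphere_zero_iff_norm.1 hs
    have hsB : s ∈ B := sphere_subset_closedBall hs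
    obtain ⟨p, hp, hps⟩ := QQ_surj hs1
    have hz : ((p, (0 : ℝ)) : (ℝ × ℝ) × ℝ) ∈ K := ⟨by simpa using hp, by simp⟩
    have h1 : Φ ⟨(p, 0), hz⟩ = ⟨s, hsB⟩ := by
      apply Subtype.ext
      simp [Φ, hps]
    simp only
    rw [dif_pos hsB, ← h1, hF0]
    simp only
    rw [hG0 p 0 le_rfl, hg]
    simp only
    rw [hps]
  · intro s hs
    have hsB : s ∈ B := hs
    simp only
    rw [dif_pos hsB]
    exact hGS _

end Pool.Agent.W_MP_be6f00_gt
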