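import Pool.Agent.W_MP_be6f00_gt.WallsA

set_option autoImplicit false

/-! The wall tables `tr2` and `tr3`: flatness, signs, triviality far away. -/

namespace Pool.Agent.PolyKnots

namespace BE15

theorem allbox_spec {n : ℕ} {f : ℤ → ℤ → ℤ → ℤ → Bool} (h : allbox n f = true) {p q r t : ℤ}
    (hp : -2 ≤ p ∧ p ≤ 5) (hq : -2 ≤ q ∧ q ≤ 3) (hr : -2 ≤ r ∧ r ≤ 3)
    (ht : -4 ≤ t ∧ t < n - 4) : f p q r t = true := by
  unfold allbox at h
  simp only [List.all_eq_true, List.mem_range] at h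
  have := h (p + 2).toNat (by omega) (q + 2).toNat (by omega) (r + 2).toNat (by omega)
    (t + 4).toNat (by omega)
  have e1 : (((p + 2).toNat : ℕ) : ℤ) - 2 = p := by omega
  have e2 : (((q + 2).toNat : ℕ) : ℤ) - 2 = q := by omega
  have e3 : (((r + 2).toNat : ℕ) : ℤ) - 2 = r := by omega
  have e4 : (((t + 4).toNat : ℕ) : ℤ) - 4 = t := by omega
  rwa [e1, e2, e3, e4] at this

theorem inA_b {p q : ℤ} (h : inA p q = true) : 0 ≤ p ∧ p ≤ 4 ∧ 0 ≤ q ∧ q ≤ 3 := by
  simp only [inA, Bool.and_eq_true, decide_eq_true_eq] at h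
  omega

theorem inB_b {p r : ℤ} (h : inB p r = true) : 1 ≤ p ∧ p ≤ 5 ∧ 0 ≤ r ∧ r ≤ 3 := by
  simp only [inB, Bool.and_eq_true, decide_eq_true_eq] at h
  omega

theorem ne_true {a b : Bool} (h : (a != b) = true) : a = true ∨ b = true := by
  cases a <;> cases b <;> simp_all

theorem inW_b {i : ℕ} {p q r t : ℤ} (h : inW i p q r t = true) :
    -1 ≤ p ∧ p ≤ 5 ∧ -1 ≤ q ∧ q ≤ 3 ∧ -1 ≤ r ∧ r ≤ 3 ∧ -3 ≤ t ∧ t ≤ 1 := by
  unfold inW at h
  split_ifs at h
  · simp only [Bool.or_eq_true, Bool.and_eq_true, beq_iff_eq] at h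
    rcases h with h | h
    · have := inA_b h.1.2; omega
    · have := inB_b h.1.2; omega
  · simp only [Bool.and_eq_true, beq_iff_eq, decide_eq_true_eq] at h
    rcases ne_true h.2 with h' | h' <;> have := inB_b h' <;> omega
  · simp only [Bool.and_eq_true, beq_iff_eq, decide_eq_true_eq] at h
    rcases ne_true h.2 with h' | h' <;> have := inA_b h' <;> omega
  · simp only [Bool.or_eq_true, Bool.and_eq_true, beq_iff_eq, decide_eq_true_eq] at h
    rcases h with h | h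
    · rcases ne_true h.2 with h' | h' <;> have := inA_b h' <;> omega
    · rcases ne_true h.2 with h' | h' <;> have := inB_b h' <;> omega

theorem bp_b (i k : ℕ) : 0 ≤ bp i k ∧ bp i k ≤ 1 := by
  unfold bp
  split_ifs <;> norm_num

theorem flat2_or (i j : ℕ) (hij : (i, j) ∈ prs) (p q r t : ℤ) :
    flat2c i j p q r t = true ∨ memSq i j p q r t = true := by
  by_cases hbox : (-2 ≤ p ∧ p ≤ 5) ∧ (-2 ≤ q ∧ q ≤ 3) ∧ (-2 ≤ r ∧ r ≤ 3) ∧ (-4 ≤ t ∧ t ≤ 1)
  · obtain ⟨hp, hq, hr, ht⟩ := hbox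
    have h := allbox_spec check2_true hp hq hr (t := t) (by push_cast; omega)
    rw [List.all_eq_true] at h
    have := h (i, j) hij
    rwa [Bool.or_eq_true] at this
  · left
    have a0 := bp_b i 0
    have a1 := bp_b i 1
    have a2 := bp_b i 2
    have a3 := bp_b i 3
    have b0 := bp_b j 0
    have b1 := bp_b j 1
    have b2 := bp_b j 2
    have b3 := bp_b j 3
    have h1 : inW i p q r t = false := by
      rw [Bool.eq_false_iff]; intro h; apply hbox
      have := inW_b h; omega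
    have h2 : inW j p q r t = false := by
      rw [Bool.eq_false_iff]; intro h; apply hbox
      have := inW_b h; omega
    have h3 : inW j (p + bp i 0) (q + bp i 1) (r + bp i 2) (t + bp i 3) = false := by
      rw [Bool.eq_false_iff]; intro h; apply hbox
      have := inW_b h; omega
    have h4 : inW i (p + bp j 0) (q + bp j 1) (r + bp j 2) (t + bp j 3) = false := by
      rw [Bool.eq_false_iff]; intro h; apply hbox
      have := inW_b h; omega
    unfold flat2c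
    rw [h1, h2, h3, h4]
    rfl

theorem gaugec_b {p q r t : ℤ} (h : gaugec p q r t ≠ 0) :
    0 ≤ p ∧ p ≤ 4 ∧ 0 ≤ q ∧ q ≤ 3 ∧ r = 1 ∧ (t = -2 ∨ t = -1) := by
  unfold gaugec at h
  split_ifs at h with h1
  · simp only [Bool.or_eq_true, Bool.and_eq_true, beq_iff_eq] at h1
    have := inA_b h1.1.2
    omega
  · exact absurd rfl h

theorem wallc_b {i : ℕ} {p q r t : ℤ} (h : wallc i p q r t ≠ 0) :
    0 ≤ p ∧ p ≤ 5 ∧ 0 ≤ q ∧ q ≤ 3 ∧ -1 ≤ r ∧ r ≤ 3 ∧ (t = -2 ∨ t = -1) := by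
  unfold wallc at h
  simp only [Bool.or_eq_true, Bool.and_eq_true, beq_iff_eq, decide_eq_true_eq] at h
  split_ifs at h with h1 h2 h3 h4 h5 h6 h7 h8 h9 h10 h11 h12 h13 h14 h15 h16 h17 <;>
    first
    | exact absurd rfl h
    | omega
    | (have := inA_b h2.1.2; omega)
    | (have := inA_b h3.1.2; omega)

theorem mulc_zero : mulc 0 0 = 0 := rfl

/-- outside the box the codes vanish -/
theorem tr3c_far {i : ℕ} {p q r t : ℤ}
    (h : ¬ ((-1 ≤ p ∧ p ≤ 5) ∧ (-1 ≤ q ∧ q ≤ 3) ∧ (-1 ≤ r ∧ r ≤ 3) ∧ -3 ≤ t)) :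
    tr3c i p q r t = 0 := by
  have a0 := bp_b i 0
  have a1 := bp_b i 1
  have a2 := bp_b i 2
  have a3 := bp_b i 3
  have h1 : gaugec p q r (min t (-1)) = 0 := by
    by_contra hh; have := gaugec_b hh; apply h; omega
  have h2 : wallc i p q r (min t (-1)) = 0 := by
    by_contra hh; have := wallc_b hh; apply h; omega
  have h3 : gaugec (p + bp i 0) (q + bp i 1) (r + bp i 2) (min (t + bp i 3) (-1)) = 0 := by
    by_contra hh; have := gaugec_b hh; apply h; omega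
  unfold tr3c
  rw [h1, h2, h3, mulc_zero, mulc_zero]

theorem flat3_or (i j : ℕ) (hij : (i, j) ∈ prs) (p q r t : ℤ) (ht : t ≤ 0) (hj : j = 3 → t < 0) :
    flat3c i j p q r t = true ∨ memSq i j p q r t = true := by
  by_cases hbox : (-2 ≤ p ∧ p ≤ 5) ∧ (-2 ≤ q ∧ q ≤ 3) ∧ (-2 ≤ r ∧ r ≤ 3) ∧ -4 ≤ t
  · obtain ⟨hp, hq, hr, ht'⟩ := hbox
    have h := allbox_spec check3_true hp hq hr (t := t) (by push_cast; omega)
    rw [List.all_eq_true] at h
    have := h (i, j) hij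
    simp only [Bool.or_eq_true, Bool.and_eq_true, beq_iff_eq] at this
    rcases this with (h' | h') | h'
    · have := hj h'.1; omega
    · exact Or.inl h'
    · exact Or.inr h'
  · left
    have a0 := bp_b i 0
    have a1 := bp_b i 1
    have a2 := bp_b i 2
    have a3 := bp_b i 3
    have b0 := bp_b j 0
    have b1 := bp_b j 1
    have b2 := bp_b j 2
    have b3 := bp_b j 3
    unfold flat3c
    rw [tr3c_far (i := i) (p := p) (by omega), tr3c_far (i := j) (p := p) (by omega),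
      tr3c_far (i := j) (p := p + bp i 0) (by omega),
      tr3c_far (i := i) (p := p + bp j 0) (by omega)]
    rfl

theorem upd (c : Fin 4 → ℤ) (i k : Fin 4) :
    Function.update c i (c i + 1) k = c k + bp (i : ℕ) (k : ℕ) := by
  unfold bp
  by_cases h : i = k
  · subst h; simp
  · have h' : ¬ ((i : ℕ) = (k : ℕ)) := fun hh => h (Fin.ext hh)
    rw [Function.update_of_ne (Ne.symm h), if_neg h', add_zero]

theorem mulc_lt {a b : ℕ} (ha : a < 6) (hb : b < 6) : mulc a b < 6 := (dec_mulc_check a ha b hb).2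

theorem dec_mulc {a b : ℕ} (ha : a < 6) (hb : b < 6) : dec (mulc a b) = dec a * dec b :=
  (dec_mulc_check a ha b hb).1

theorem gaugec_lt6 (p q r t : ℤ) : gaugec p q r t < 6 := (gaugec_lt p q r t).trans (by norm_num)

theorem tr3c_lt (i : ℕ) (p q r t : ℤ) : tr3c i p q r t < 6 :=
  mulc_lt (mulc_lt (gaugec_lt6 _ _ _ _) (wallc_lt _ _ _ _ _)) (gaugec_lt6 _ _ _ _)

theorem gauge_inv (p q r t : ℤ) : (gauge p q r t)⁻¹ = dec (gaugec p q r t) := by
  rw [gaugec_spec]
  have := gaugec_lt p q r t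
  interval_cases gaugec p q r t
  · exact inv_one
  · exact Equiv.swap_inv _ _

theorem tr3_eq (i : Fin 4) (c : Fin 4 → ℤ) :
    tr3 i c = dec (tr3c i (c 0) (c 1) (c 2) (c 3)) := by
  unfold tr3 tr3c
  rw [dec_mulc (mulc_lt (gaugec_lt6 _ _ _ _) (wallc_lt _ _ _ _ _)) (gaugec_lt6 _ _ _ _),
    dec_mulc (gaugec_lt6 _ _ _ _) (wallc_lt _ _ _ _ _)]
  simp only [upd]
  rw [gauge_inv, wallc_spec, gaugec_spec]
  rfl

theorem flatAt_tr3 (i j : Fin 4) (c : Fin 4 → ℤ)
    (h : flat3c i j (c 0) (c 1) (c 2) (c 3) = true) : FlatAt tr3 c i j := by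
  unfold FlatAt
  rw [tr3_eq, tr3_eq, tr3_eq, tr3_eq]
  simp only [upd]
  rw [← dec_mulc (tr3c_lt _ _ _ _ _) (tr3c_lt _ _ _ _ _),
    ← dec_mulc (tr3c_lt _ _ _ _ _) (tr3c_lt _ _ _ _ _)]
  unfold flat3c at h
  rw [beq_iff_eq] at h
  exact congrArg dec h

theorem sgn_mul (a b : Bool) : (if a then (-1 : ℤˣ) else 1) * (if b then (-1 : ℤˣ) else 1) =
    if (a != b) then (-1 : ℤˣ) else 1 := by
  cases a <;> cases b <;> simp

theorem flatAt_tr2 (i j : Fin 4) (c : Fin 4 → ℤ)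
    (h : flat2c i j (c 0) (c 1) (c 2) (c 3) = true) : FlatAt tr2 c i j := by
  unfold FlatAt tr2
  simp only [upd]
  rw [sgn_mul, sgn_mul]
  unfold flat2c at h
  rw [beq_iff_eq] at h
  rw [show (((0 : Fin 4) : ℕ)) = 0 from rfl, show (((1 : Fin 4) : ℕ)) = 1 from rfl,
    show (((2 : Fin 4) : ℕ)) = 2 from rfl, show (((3 : Fin 4) : ℕ)) = 3 from rfl, h]

theorem mem_of_memSq (i j : Fin 4) (hij : ((i : ℕ), (j : ℕ)) ∈ prs) (c : Fin 4 → ℤ)
    (h : memSq i j (c 0) (c 1) (c 2) (c 3) = true) (y : Fin 4 → ℝ) (hy : y ∈ dualSq c i j) :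
    y ∈ USet := by
  unfold memSq at h
  rw [List.any_eq_true] at h
  obtain ⟨s, hs, hs'⟩ := h
  simp only [Bool.and_eq_true, beq_iff_eq] at hs'
  obtain ⟨⟨e1, e2⟩, e3⟩ := hs'
  refine ⟨s, hs, ?_⟩
  obtain ⟨hi, hj, hk⟩ := hy
  intro k
  rw [e1, e2, e3]
  have hk' := hk k
  revert hi hj hk'
  unfold prs at hij
  fin_cases i <;> fin_cases j <;> simp at hij <;> fin_cases k <;>
    simp [cmpl, bp] <;> intro h1 h2 <;> constructor <;> linarith

theorem flatAt_symm {G : Type} [Group G] {e : Fin 4 → (Fin 4 → ℤ) → G} {c : Fin 4 → ℤ}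
    {i j : Fin 4} (h : FlatAt e c i j) : FlatAt e c j i := h.symm

theorem dualSq_symm {c : Fin 4 → ℤ} {i j : Fin 4} {y : Fin 4 → ℝ} (h : y ∈ dualSq c i j) :
    y ∈ dualSq c j i := ⟨h.2.1, h.1, fun k h1 h2 => h.2.2 k h2 h1⟩

theorem prs_or (i j : Fin 4) (hij : i ≠ j) :
    ((i : ℕ), (j : ℕ)) ∈ prs ∨ ((j : ℕ), (i : ℕ)) ∈ prs := by
  revert hij
  revert i j
  decide

end BE15

open BE15

theorem flat_tr2 (c : Fin 4 → ℤ) (i j : Fin 4) (hij : i ≠ j) (y : Fin 4 → ℝ)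
    (hy : y ∈ dualSq c i j) (hU : y ∉ USet) : FlatAt tr2 c i j := by
  have key : ∀ i j : Fin 4, ((i : ℕ), (j : ℕ)) ∈ prs → y ∈ dualSq c i j → FlatAt tr2 c i j := by
    intro i j hp hy
    rcases flat2_or i j hp (c 0) (c 1) (c 2) (c 3) with h | h
    · exact flatAt_tr2 i j c h
    · exact absurd (mem_of_memSq i j hp c h y hy) hU
  rcases prs_or i j hij with h | h
  · exact key i j h hy
  · exact flatAt_symm (key j i h (dualSq_symm hy))

theorem BE15.prs_ne3 : ∀ i j : Fin 4, ((i : ℕ), (j : ℕ)) ∈ prs → i ≠ 3 := by decide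

theorem flat_tr3 (c : Fin 4 → ℤ) (i j : Fin 4) (hij : i ≠ j) (y : Fin 4 → ℝ)
    (hy : y ∈ dualSq c i j) (hU : y ∉ USet) (ht : y 3 < 1) : FlatAt tr3 c i j := by
  have key : ∀ i j : Fin 4, ((i : ℕ), (j : ℕ)) ∈ prs → y ∈ dualSq c i j → FlatAt tr3 c i j := by
    intro i j hp hy
    have hj : (j : ℕ) = 3 → c 3 < 0 := by
      intro h
      have h' : j = 3 := Fin.ext h
      have := hy.2.1
      rw [h'] at this
      have h2 : ((c 3 : ℤ) : ℝ) < 0 := by linarith
      exact_mod_cast h2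
    have h0 : c 3 ≤ 0 := by
      by_cases h : (j : ℕ) = 3
      · exact (hj h).le
      · have hi3 : (3 : Fin 4) ≠ i := fun h => prs_ne3 i j hp h.symm
        have hj3 : (3 : Fin 4) ≠ j := by
          rintro rfl
          exact h rfl
        have := (hy.2.2 3 hi3 hj3).1
        have h2 : ((c 3 : ℤ) : ℝ) < 1 := by linarith
        have h3 : c 3 < 1 := by exact_mod_cast h2
        omega
    rcases flat3_or i j hp (c 0) (c 1) (c 2) (c 3) h0 hj with h | h
    · exact flatAt_tr3 i j c h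
    · exact absurd (mem_of_memSq i j hp c h y hy) hU
  rcases prs_or i j hij with h | h
  · exact key i j h hy
  · exact flatAt_symm (key j i h (dualSq_symm hy))

theorem sign_tr3 (i : Fin 4) (c : Fin 4 → ℤ) (hc : c 3 ≤ 0) (hi : i = 3 → c 3 < 0) :
    Equiv.Perm.sign (tr3 i c) = tr2 i c := by
  rw [tr3_eq]
  unfold tr2
  have hs : sgc (tr3c i (c 0) (c 1) (c 2) (c 3)) = inW i (c 0) (c 1) (c 2) (c 3) := by
    by_cases hbox : (-2 ≤ c 0 ∧ c 0 ≤ 5) ∧ (-2 ≤ c 1 ∧ c 1 ≤ 3) ∧ (-2 ≤ c 2 ∧ c 2 ≤ 3) ∧ -4 ≤ c 3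
    · obtain ⟨hp, hq, hr, ht'⟩ := hbox
      have h := allbox_spec checkS_true hp hq hr (t := c 3) (by push_cast; omega)
      rw [List.all_eq_true] at h
      have := h i (List.mem_range.2 i.2)
      simp only [Bool.or_eq_true, Bool.and_eq_true, beq_iff_eq] at this
      rcases this with h' | h'
      · have := hi (Fin.ext h'.1); omega
      · exact h'
    · rw [tr3c_far (by omega)]
      symm
      rw [show sgc 0 = false from rfl, Bool.eq_false_iff]
      intro h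
      apply hbox
      have := inW_b h
      omega
  rw [← hs]
  have hlt := tr3c_lt i (c 0) (c 1) (c 2) (c 3)
  generalize tr3c i (c 0) (c 1) (c 2) (c 3) = n at hlt
  have : ∀ n < 6, Equiv.Perm.sign (dec n) = if sgc n then (-1 : ℤˣ) else 1 := by decide +kernel
  exact this n hlt

/-- outside the box all transitions are trivial -/
theorem tr2_far (i : Fin 4) (c : Fin 4 → ℤ) (hc : ∃ k, c k < -4 ∨ 8 < c k) : tr2 i c = 1 := by
  unfold tr2
  rw [if_neg]
  intro h
  have := inW_b h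
  obtain ⟨k, hk⟩ := hc
  fin_cases k <;> simp at hk <;> omega

end Pool.Agent.PolyKnots
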