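import Pool.Agent.W_MP_be6f00_gt.Transport
import Pool.Agent.W_MP_be6f00_gt.Walls
import Pool.Agent.W_MP_be6f00_gt.Detect
import Pool.Agent.W_MP_be6f00_gt.StdExt

set_option autoImplicit false

/-!
# The sphere `Σ` is knotted
-/

open scoped Topology
open Set Filter

namespace Pool.Agent.PolyKnots
namespace BE16

/-! ## The radial projection -/

theorem proj_of_lt {e : EuclideanSpace ℝ (Fin 5)} (hm : min |e 0| |e 1| < 3) :
    proj e = ![3 + 3 / (3 - min |e 0| |e 1|) * (e 2 - 3),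
      2 + 3 / (3 - min |e 0| |e 1|) * (e 3 - 2),
      2 + 3 / (3 - min |e 0| |e 1|) * (e 4 - 2),
      3 / (3 - min |e 0| |e 1|) * (|e 0| - |e 1|)] := by
  unfold proj
  rw [if_pos hm]

theorem proj_of_ge {e : EuclideanSpace ℝ (Fin 5)} (hm : 3 ≤ min |e 0| |e 1|) :
    proj e = fun _ => 100 := by
  unfold proj
  rw [if_neg (not_lt.2 hm)]

theorem mem_sigma_of_proj {e : EuclideanSpace ℝ (Fin 5)} (hm : min |e 0| |e 1| < 3)
    (h : proj e ∈ USet) : e ∈ SigmaSet := by
  have hm0 : 0 ≤ min |e 0| |e 1| := le_min (abs_nonneg _) (abs_nonneg _)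
  set m := min |e 0| |e 1| with hmdef
  have h3 : 0 < 3 - m := by linarith
  have hsl : (3 - m) / 3 * (3 / (3 - m)) = 1 := by field_simp
  refine ⟨(3 - m) / 3, ⟨by positivity, by linarith⟩, proj e, h, ?_, ?_, ?_, ?_, ?_⟩
  · rw [proj_of_lt hm, ← hmdef]
    simp only [Matrix.cons_val]
    have e1 : (3 - m) / 3 * max (3 / (3 - m) * (|e 0| - |e 1|)) 0 = max (|e 0| - |e 1|) 0 := by
      rw [mul_max_of_nonneg _ _ (by positivity), ← mul_assoc, hsl, one_mul, mul_zero]
    rw [e1]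
    rcases le_total (|e 0|) (|e 1|) with hle | hle
    · rw [max_eq_right (by linarith), hmdef, min_eq_left hle]; ring
    · rw [max_eq_left (by linarith), hmdef, min_eq_right hle]; ring
  · rw [proj_of_lt hm, ← hmdef]
    simp only [Matrix.cons_val]
    have e1 : (3 - m) / 3 * max (-(3 / (3 - m) * (|e 0| - |e 1|))) 0
        = max (-(|e 0| - |e 1|)) 0 := by
      rw [mul_max_of_nonneg _ _ (by positivity), mul_neg, ← mul_assoc, hsl, one_mul, mul_zero]
    rw [e1]
    rcases le_total (|e 0|) (|e 1|) with hle | hle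
    · rw [max_eq_left (by linarith), hmdef, min_eq_left hle]; ring
    · rw [max_eq_right (by linarith), hmdef, min_eq_right hle]; ring
  · rw [proj_of_lt hm, ← hmdef]
    simp only [Matrix.cons_val]
    have : (3 - m) / 3 * (3 + 3 / (3 - m) * (e 2 - 3)) =
      (3 - m) + ((3 - m) / 3 * (3 / (3 - m))) * (e 2 - 3) := by ring
    rw [this, hsl]; ring
  · rw [proj_of_lt hm, ← hmdef]
    simp only [Matrix.cons_val]
    have : (3 - m) / 3 * (2 + 3 / (3 - m) * (e 3 - 2)) =
      2 * ((3 - m) / 3) + ((3 - m) / 3 * (3 / (3 - m))) * (e 3 - 2) := by ring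
    rw [this, hsl]; ring
  · rw [proj_of_lt hm, ← hmdef]
    simp only [Matrix.cons_val]
    have : (3 - m) / 3 * (2 + 3 / (3 - m) * (e 4 - 2)) =
      2 * ((3 - m) / 3) + ((3 - m) / 3 * (3 / (3 - m))) * (e 4 - 2) := by ring
    rw [this, hsl]; ring

theorem continuous_min : Continuous fun a : EuclideanSpace ℝ (Fin 5) => min |a 0| |a 1| := by
  fun_prop

theorem continuousAt_proj {e : EuclideanSpace ℝ (Fin 5)} (hm : min |e 0| |e 1| < 3) :
    ContinuousAt proj e := by
  have h1 : ∀ᶠ a in 𝓝 e, min |a 0| |a 1| < 3 :=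
    (continuous_min.continuousAt).eventually (Iio_mem_nhds hm)
  have h2 : proj =ᶠ[𝓝 e] fun e => ![3 + 3 / (3 - min |e 0| |e 1|) * (e 2 - 3),
      2 + 3 / (3 - min |e 0| |e 1|) * (e 3 - 2),
      2 + 3 / (3 - min |e 0| |e 1|) * (e 4 - 2),
      3 / (3 - min |e 0| |e 1|) * (|e 0| - |e 1|)] := by
    filter_upwards [h1] with a ha using proj_of_lt ha
  refine ContinuousAt.congr_of_eventuallyEq ?_ h2
  have hne : 3 - min |e 0| |e 1| ≠ 0 := by linarith
  have hdiv : ContinuousAt (fun a : EuclideanSpace ℝ (Fin 5) => 3 / (3 - min |a 0| |a 1|)) e :=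
    continuousAt_const.div (continuousAt_const.sub continuous_min.continuousAt) hne
  refine continuousAt_pi.2 fun i => ?_
  fin_cases i
  · exact continuousAt_const.add (hdiv.mul (by fun_prop))
  · exact continuousAt_const.add (hdiv.mul (by fun_prop))
  · exact continuousAt_const.add (hdiv.mul (by fun_prop))
  · exact hdiv.mul (by fun_prop)

theorem locMul_comap {X Y G : Type} [TopologicalSpace X] [TopologicalSpace Y] [Group G]
    {s : Y → Y → G} {f : X → Y} {x : X} (hf : ContinuousAt f x) (h : LocMul s (f x)) :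
    LocMul (fun a b => s (f a) (f b)) x := by
  obtain ⟨N, hN, hm⟩ := h
  exact ⟨f ⁻¹' N, hf hN, fun a ha b hb c hc => hm _ ha _ hb _ hc⟩

theorem locMul_pair2_of_lt {e : EuclideanSpace ℝ (Fin 5)} (he : e ∉ SigmaSet)
    (hm : min |e 0| |e 1| < 3) : LocMul pair2 e := by
  have h := locMul_transport tr2 (proj e) (fun c i j hij hy =>
    flat_tr2 c i j hij (proj e) hy fun hU => he (mem_sigma_of_proj hm hU))
  exact locMul_comap (s := fun a b => transportA tr2 (cellOf a) (cellOf b)) (f := proj)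
    (continuousAt_proj hm) h

theorem locMul_pair3 {e : EuclideanSpace ℝ (Fin 5)} (he : e ∉ SigmaSet)
    (h0 : e 0 = 0) : LocMul pair3 e := by
  have hm : min |e 0| |e 1| < 3 := by
    rw [h0, abs_zero]
    exact lt_of_le_of_lt (min_le_left _ _) (by norm_num)
  have ht : proj e 3 < 1 := by
    rw [proj_of_lt hm, h0, abs_zero, min_eq_left (abs_nonneg _)]
    simp only [Matrix.cons_val]
    have := abs_nonneg (e 1)
    linarith
  have h := locMul_transport tr3 (proj e) (fun c i j hij hy =>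
    flat_tr3 c i j hij (proj e) hy (fun hU => he (mem_sigma_of_proj hm hU)) ht)
  exact locMul_comap (s := fun a b => transportA tr3 (cellOf a) (cellOf b)) (f := proj)
    (continuousAt_proj hm) h

/-! ## Far away -/

theorem stepTr_far {G : Type} [Group G] (e : Fin 4 → (Fin 4 → ℤ) → G)
    (he : ∀ i c, (∃ k, c k < -4 ∨ 8 < c k) → e i c = 1) (j : Fin 4) (c : Fin 4 → ℤ) (x : ℤ)
    (k : Fin 4) (hk : c k ≤ -50 ∨ 50 ≤ c k) : stepTr e j c x = 1 := by
  unfold stepTr
  split_ifs with h1 h2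
  · exact he _ _ ⟨k, by omega⟩
  · rw [he _ _ ⟨k, ?_⟩, inv_one]
    rw [Function.update_apply]
    split_ifs with h3
    · subst h3; omega
    · omega
  · rfl

theorem transportA_far {G : Type} [Group G] (e : Fin 4 → (Fin 4 → ℤ) → G)
    (he : ∀ i c, (∃ k, c k < -4 ∨ 8 < c k) → e i c = 1) (c c' : Fin 4 → ℤ)
    (k : Fin 4) (hk : c k ≤ -100 ∨ 100 ≤ c k) : transportA e c c' = 1 := by
  unfold transportA
  split_ifs with hadj
  · have hk' : c' k ≤ -50 ∨ 50 ≤ c' k := by
      have := abs_le.1 (hadj k)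
      omega
    have hk2 : c k ≤ -50 ∨ 50 ≤ c k := by omega
    have hu : ∀ (d : Fin 4 → ℤ) (j : Fin 4), (d k ≤ -50 ∨ 50 ≤ d k) →
        ((Function.update d j (c' j)) k ≤ -50 ∨ 50 ≤ (Function.update d j (c' j)) k) := by
      intro d j hd
      rw [Function.update_apply]
      split_ifs with h
      · subst h; exact hk'
      · exact hd
    unfold transport
    rw [stepTr_far e he 0 c _ k hk2, stepTr_far e he 1 _ _ k (hu _ _ hk2),
      stepTr_far e he 2 _ _ k (hu _ _ (hu _ _ hk2)),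
      stepTr_far e he 3 _ _ k (hu _ _ (hu _ _ (hu _ _ hk2)))]
    simp
  · rfl

theorem uset_nonempty : USet.Nonempty := by
  refine ⟨![0, 0, 1, -2], ([0, 0, 1, -2], 0, 1), ?_, ?_⟩
  · decide +kernel
  · intro k
    fin_cases k <;> norm_num [List.getD]

theorem cone_point_mem {e : EuclideanSpace ℝ (Fin 5)} (h0 : |e 0| = 3) (h1 : |e 1| = 3)
    (h2 : e 2 = 3) (h3 : e 3 = 2) (h4 : e 4 = 2) : e ∈ SigmaSet := by
  obtain ⟨u, hu⟩ := uset_nonempty
  exact ⟨0, ⟨le_rfl, zero_le_one⟩, u, hu, by simp [h0], by simp [h1], by simp [h2],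
    by simp [h3], by simp [h4]⟩

theorem floor_far {x : ℝ} (h : 110 < |x|) : ⌊x⌋ ≤ -100 ∨ 100 ≤ ⌊x⌋ := by
  rcases lt_abs.1 h with h | h
  · right
    exact Int.le_floor.2 (by push_cast; linarith)
  · left
    have h1 : ((⌊x⌋ : ℤ) : ℝ) ≤ x := Int.floor_le x
    have h2 : ((⌊x⌋ : ℤ) : ℝ) < ((-100 : ℤ) : ℝ) := by push_cast; linarith
    exact le_of_lt (by exact_mod_cast h2)

theorem eventually_far {e : EuclideanSpace ℝ (Fin 5)} (he : e ∉ SigmaSet)
    (hm : 3 ≤ min |e 0| |e 1|) :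
    ∀ᶠ a in 𝓝 e, ∃ k, cellOf (proj a) k ≤ -100 ∨ 100 ≤ cellOf (proj a) k := by
  have hbig : ∀ a : EuclideanSpace ℝ (Fin 5), 3 ≤ min |a 0| |a 1| →
      ∃ k, cellOf (proj a) k ≤ -100 ∨ 100 ≤ cellOf (proj a) k := by
    intro a ha
    refine ⟨0, Or.inr ?_⟩
    rw [proj_of_ge ha]
    simp [cellOf]
  rcases hm.lt_or_eq with hlt | heq
  · have h1 : ∀ᶠ a in 𝓝 e, 3 < min |a 0| |a 1| :=
      (continuous_min.continuousAt).eventually (Ioi_mem_nhds hlt)
    filter_upwards [h1] with a ha using hbig a ha.le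
  · -- `D` is positive at `e`
    set D : EuclideanSpace ℝ (Fin 5) → ℝ := fun a =>
      max (max (|(|a 0| - |a 1|)|) |a 2 - 3|) (max |a 3 - 2| |a 4 - 2|) with hD
    have hDc : Continuous D := by fun_prop
    have hDpos : 0 < D e := by
      by_contra hcon
      have hle : D e ≤ 0 := not_lt.1 hcon
      simp only [hD, max_le_iff, abs_nonpos_iff] at hle
      obtain ⟨⟨h01, h2⟩, h3, h4⟩ := hle
      have h01' : |e 0| = |e 1| := by linarith
      rw [h01', min_self] at heq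
      exact he (cone_point_mem (h01'.trans heq.symm) heq.symm (by linarith) (by linarith)
        (by linarith))
    have h1 : ∀ᶠ a in 𝓝 e, D e / 2 < D a :=
      hDc.continuousAt.eventually (Ioi_mem_nhds (by linarith))
    have h2 : ∀ᶠ a in 𝓝 e, 3 - D e / 100 < min |a 0| |a 1| :=
      (continuous_min.continuousAt).eventually (Ioi_mem_nhds (by
        show 3 - D e / 100 < min |e 0| |e 1|
        rw [← heq]; linarith))
    filter_upwards [h1, h2] with a ha1 ha2
    rcases le_or_gt 3 (min |a 0| |a 1|) with h3 | h3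
    · exact hbig a h3
    · set m := min |a 0| |a 1| with hmdef
      have hm3 : 0 < 3 - m := by linarith
      have hl : 0 < 3 / (3 - m) := by positivity
      have hlam : ∀ x : ℝ, D e / 2 < |x| → 150 < |3 / (3 - m) * x| := by
        intro x hx
        rw [abs_mul, abs_of_pos hl]
        rw [div_mul_eq_mul_div, lt_div_iff₀ hm3]
        nlinarith
      have hsh : ∀ x y : ℝ, |y| ≤ 3 → 150 < |x| → 110 < |y + x| := by
        intro x y hy hx
        have : |x| ≤ |y + x| + |y| := by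
          calc |x| = |(y + x) - y| := by ring_nf
            _ ≤ |y + x| + |y| := abs_sub _ _
        linarith
      have hcell : ∀ k, cellOf (proj a) k = ⌊proj a k⌋ := fun _ => rfl
      have hp := proj_of_lt h3
      rw [← hmdef] at hp
      simp only [hD, lt_max_iff] at ha1
      rcases ha1 with (h | h) | (h | h)
      · refine ⟨3, ?_⟩
        rw [hcell, hp]
        refine floor_far ?_
        simp only [Matrix.cons_val]
        have := hlam _ h
        linarith
      · refine ⟨0, ?_⟩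
        rw [hcell, hp]
        refine floor_far ?_
        simp only [Matrix.cons_val]
        exact hsh _ _ (by norm_num) (hlam _ h)
      · refine ⟨1, ?_⟩
        rw [hcell, hp]
        refine floor_far ?_
        simp only [Matrix.cons_val]
        exact hsh _ _ (by norm_num) (hlam _ h)
      · refine ⟨2, ?_⟩
        rw [hcell, hp]
        refine floor_far ?_
        simp only [Matrix.cons_val]
        exact hsh _ _ (by norm_num) (hlam _ h)

theorem locMul_pair2 {e : EuclideanSpace ℝ (Fin 5)} (he : e ∉ SigmaSet) : LocMul pair2 e := by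
  rcases lt_or_ge (min |e 0| |e 1|) 3 with hm | hm
  · exact locMul_pair2_of_lt he hm
  · have h := eventually_far he hm
    refine ⟨_, h, ?_⟩
    have key : ∀ a ∈ {a | ∃ k, cellOf (proj a) k ≤ -100 ∨ 100 ≤ cellOf (proj a) k},
        ∀ b, pair2 a b = 1 := by
      rintro a ⟨k, hk⟩ b
      exact transportA_far tr2 (fun i c hc => tr2_far i c hc) _ _ k hk
    intro a ha b hb c hc
    rw [key a ha, key b hb, key a ha, one_mul]

/-! ## The sign -/

theorem sign_stepTr (j : Fin 4) (c : Fin 4 → ℤ) (x : ℤ) (hc : c 3 ≤ 0) (hx : j = 3 → x ≤ 0) :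
    Equiv.Perm.sign (stepTr tr3 j c x) = stepTr tr2 j c x := by
  unfold stepTr
  split_ifs with h1 h2
  · refine sign_tr3 j c hc fun hj => ?_
    subst hj
    have := hx rfl
    omega
  · rw [map_inv, sign_tr3 j _ ?_ ?_]
    · rw [Function.update_apply]
      split_ifs with h3
      · exact hx h3.symm
      · exact hc
    · intro hj
      subst hj
      rw [Function.update_self]
      omega
  · simp

theorem sign_transportA (c c' : Fin 4 → ℤ) (hc : c 3 ≤ 0) (hc' : c' 3 ≤ 0) :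
    Equiv.Perm.sign (transportA tr3 c c') = transportA tr2 c c' := by
  unfold transportA
  split_ifs with hadj
  · unfold transport
    rw [map_mul, map_mul, map_mul, sign_stepTr 0 _ _ hc (fun h => absurd h (by decide)),
      sign_stepTr 1 _ _ ?_ (fun h => absurd h (by decide)),
      sign_stepTr 2 _ _ ?_ (fun h => absurd h (by decide)),
      sign_stepTr 3 _ _ ?_ (fun _ => hc')]
    · simpa [Function.update_apply] using hc
    · simpa [Function.update_apply] using hc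
    · simpa [Function.update_apply] using hc
  · simp

theorem sign_pair {e : EuclideanSpace ℝ (Fin 5)} (h0 : e 0 = 0) :
    ∃ N ∈ 𝓝 e, ∀ a ∈ N, ∀ b ∈ N, Equiv.Perm.sign (pair3 a b) = pair2 a b := by
  have hm : min |e 0| |e 1| < 3 := by
    rw [h0, abs_zero]
    exact lt_of_le_of_lt (min_le_left _ _) (by norm_num)
  have ht : proj e 3 < 1 := by
    rw [proj_of_lt hm, h0, abs_zero, min_eq_left (abs_nonneg _)]
    simp only [Matrix.cons_val]
    have := abs_nonneg (e 1)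
    linarith
  have h1 : ContinuousAt (fun a => proj a 3) e :=
    (continuous_apply 3).continuousAt.comp (continuousAt_proj hm)
  have h2 : {a | proj a 3 < 1} ∈ 𝓝 e := h1.eventually (Iio_mem_nhds ht)
  refine ⟨_, h2, fun a ha b hb => ?_⟩
  have hfl : ∀ a ∈ {a | proj a 3 < 1}, cellOf (proj a) 3 ≤ 0 := by
    intro a ha
    show ⌊proj a 3⌋ ≤ 0
    have : ⌊proj a 3⌋ < 1 := Int.floor_lt.2 (by simpa using ha)
    omega
  exact sign_transportA _ _ (hfl a ha) (hfl b hb)

/-! ## The small sphere -/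

/-- The sphere around the singular arc. -/
noncomputable def FF (s : Fin 3 → ℝ) : EuclideanSpace ℝ (Fin 5) :=
  WithLp.toLp 2 ![3 / 2 * s 0, 0, 5 / 2, 4 + 1 / 2 * s 1, 3 / 2 + s 2]

theorem continuous_FF : Continuous FF := by
  unfold FF
  refine (PiLp.continuous_toLp 2 _).comp ?_
  refine continuous_pi fun i => ?_
  fin_cases i <;> simp <;> fun_prop

theorem proj_FF (s : Fin 3 → ℝ) :
    proj (FF s) = ![5 / 2, 4 + 1 / 2 * s 1, 3 / 2 + s 2, |3 / 2 * s 0|] := by
  have h0 : (FF s) 0 = 3 / 2 * s 0 := rfl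
  have h1 : (FF s) 1 = 0 := rfl
  have h2 : (FF s) 2 = 5 / 2 := rfl
  have h3 : (FF s) 3 = 4 + 1 / 2 * s 1 := rfl
  have h4 : (FF s) 4 = 3 / 2 + s 2 := rfl
  have hmin : min |(FF s) 0| |(FF s) 1| = 0 := by
    rw [h1, abs_zero, min_eq_right (abs_nonneg _)]
  rw [proj_of_lt (by rw [hmin]; norm_num), hmin, h0, h1, h2, h3, h4, abs_zero]
  funext i
  fin_cases i <;> simp

/-- The finite check: the squares of `U` do not meet the boundary of the box. -/
def boxOK (s : List ℤ × ℕ × ℕ) : Bool :=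
  let a := s.1
  let dl : ℕ → ℤ := fun k => if k = s.2.1 ∨ k = s.2.2 then 1 else 0
  let lo : ℕ → ℤ := fun k => a.getD k 0
  let hi : ℕ → ℤ := fun k => a.getD k 0 + dl k
  decide (2 < lo 0) || decide (hi 0 < 3) ||
    decide (hi 1 ≤ 3) || decide (5 ≤ lo 1) || decide (hi 2 ≤ 0) || decide (3 ≤ lo 2) ||
    decide (hi 3 < 0) || decide (2 ≤ lo 3) ||
    (decide (4 ≤ lo 1) && decide (hi 1 ≤ 4) && decide (1 ≤ lo 2) && decide (hi 2 ≤ 2) &&
      decide (hi 3 ≤ 1))

theorem boxOK_all : (sqs0 ++ sqs1).all boxOK = true := by decide +kernel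

theorem box_bound {s : List ℤ × ℕ × ℕ} (hs : s ∈ sqs0 ++ sqs1) {y : Fin 4 → ℝ}
    (hy : y ∈ sqSet s.1 s.2.1 s.2.2) (h0 : y 0 = 5 / 2) (h1 : 7 / 2 ≤ y 1) (h1' : y 1 ≤ 9 / 2)
    (h2 : 1 / 2 ≤ y 2) (h2' : y 2 ≤ 5 / 2) (h3 : 0 ≤ y 3) (h3' : y 3 ≤ 3 / 2) :
    y 1 = 4 ∧ 1 ≤ y 2 ∧ y 2 ≤ 2 ∧ y 3 ≤ 1 := by
  have hb := List.all_eq_true.1 boxOK_all s hs
  have g0 := hy 0
  have g1 := hy 1
  have g2 := hy 2
  have g3 := hy 3
  have cst : ∀ (k : ℕ), (if (k = s.2.1 ∨ k = s.2.2) then (1 : ℝ) else 0) =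
      ((if (k = s.2.1 ∨ k = s.2.2) then (1 : ℤ) else 0 : ℤ) : ℝ) := by
    intro k; split_ifs <;> simp
  rw [cst] at g0 g1 g2 g3
  simp only [boxOK, Bool.or_eq_true, Bool.and_eq_true, decide_eq_true_eq] at hb
  set l0 := s.1.getD 0 0
  set l1 := s.1.getD 1 0
  set l2 := s.1.getD 2 0
  set l3 := s.1.getD 3 0
  have e0 : ((0 : Fin 4) : ℕ) = 0 := rfl
  have e1 : ((1 : Fin 4) : ℕ) = 1 := rfl
  have e2 : ((2 : Fin 4) : ℕ) = 2 := rfl
  have e3 : ((3 : Fin 4) : ℕ) = 3 := rfl
  rw [e0] at g0; rw [e1] at g1; rw [e2] at g2; rw [e3] at g3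
  set d0 : ℤ := if (0 = s.2.1 ∨ 0 = s.2.2) then 1 else 0
  set d1 : ℤ := if (1 = s.2.1 ∨ 1 = s.2.2) then 1 else 0
  set d2 : ℤ := if (2 = s.2.1 ∨ 2 = s.2.2) then 1 else 0
  set d3 : ℤ := if (3 = s.2.1 ∨ 3 = s.2.2) then 1 else 0
  have k0 : ((l0 + d0 : ℤ) : ℝ) = (l0 : ℝ) + d0 := by push_cast; ring
  have k1 : ((l1 + d1 : ℤ) : ℝ) = (l1 : ℝ) + d1 := by push_cast; ring
  have k2 : ((l2 + d2 : ℤ) : ℝ) = (l2 : ℝ) + d2 := by push_cast; ring
  have k3 : ((l3 + d3 : ℤ) : ℝ) = (l3 : ℝ) + d3 := by push_cast; ring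
  rcases hb with (((((((hb | hb) | hb) | hb) | hb) | hb) | hb) | hb) | hb
  · have : (3 : ℝ) ≤ l0 := by exact_mod_cast hb
    linarith [g0.1]
  · have : ((l0 + d0 : ℤ) : ℝ) ≤ 2 := by exact_mod_cast Int.lt_add_one_iff.1 hb
    linarith [g0.2]
  · have : ((l1 + d1 : ℤ) : ℝ) ≤ 3 := by exact_mod_cast hb
    linarith [g1.2]
  · have : (5 : ℝ) ≤ l1 := by exact_mod_cast hb
    linarith [g1.1]
  · have : ((l2 + d2 : ℤ) : ℝ) ≤ 0 := by exact_mod_cast hb
    linarith [g2.2]
  · have : (3 : ℝ) ≤ l2 := by exact_mod_cast hb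
    linarith [g2.1]
  · have : ((l3 + d3 : ℤ) : ℝ) < 0 := by exact_mod_cast hb
    linarith [g3.2]
  · have : (2 : ℝ) ≤ l3 := by exact_mod_cast hb
    linarith [g3.1]
  · obtain ⟨⟨⟨⟨b1, b2⟩, b3⟩, b4⟩, b5⟩ := hb
    have c1 : (4 : ℝ) ≤ l1 := by exact_mod_cast b1
    have c2 : ((l1 + d1 : ℤ) : ℝ) ≤ 4 := by exact_mod_cast b2
    have c3 : (1 : ℝ) ≤ l2 := by exact_mod_cast b3
    have c4 : ((l2 + d2 : ℤ) : ℝ) ≤ 2 := by exact_mod_cast b4
    have c5 : ((l3 + d3 : ℤ) : ℝ) ≤ 1 := by exact_mod_cast b5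
    refine ⟨?_, ?_, ?_, ?_⟩
    · linarith [g1.1, g1.2]
    · linarith [g2.1]
    · linarith [g2.2]
    · linarith [g3.2]

theorem FF_notMem {s : Fin 3 → ℝ} (hs : s ∈ Metric.sphere (0 : Fin 3 → ℝ) 1) :
    FF s ∉ SigmaSet := by
  rintro ⟨r, ⟨hr0, hr1⟩, u, hu, h0, h1, h2, h3, h4⟩
  have hn : ‖s‖ = 1 := by simpa using hs
  have hle : ∀ i, |s i| ≤ 1 := fun i => by
    have := norm_le_pi_norm s i
    rw [hn] at this
    simpa using this
  have a0 : (FF s) 0 = 3 / 2 * s 0 := rfl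
  have a1 : (FF s) 1 = 0 := rfl
  have a2 : (FF s) 2 = 5 / 2 := rfl
  have a3 : (FF s) 3 = 4 + 1 / 2 * s 1 := rfl
  have a4 : (FF s) 4 = 3 / 2 + s 2 := rfl
  rw [a1, abs_zero] at h1
  have hr : r = 1 := by
    have : 0 ≤ r * max (-(u 3)) 0 := mul_nonneg hr0 (le_max_right _ _)
    nlinarith
  subst hr
  simp only [sub_self, zero_mul, zero_add, one_mul] at h0 h1 h2 h3 h4
  rw [a0] at h0
  rw [a2] at h2
  rw [a3] at h3
  rw [a4] at h4
  have hu3 : 0 ≤ u 3 := by
    have : -(u 3) ≤ 0 := by rw [h1]; exact le_max_left _ _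
    linarith
  rw [max_eq_left hu3] at h0
  obtain ⟨sq, hsq, husq⟩ := hu
  have b0 := abs_le.1 (hle 0)
  have b1 := abs_le.1 (hle 1)
  have b2 := abs_le.1 (hle 2)
  have habs : |3 / 2 * s 0| = 3 / 2 * |s 0| := by
    rw [abs_mul]; norm_num
  rw [habs] at h0
  have key := box_bound hsq husq h2.symm (by rw [← h3]; linarith [b1.1])
    (by rw [← h3]; linarith [b1.2]) (by rw [← h4]; linarith [b2.1])
    (by rw [← h4]; linarith [b2.2]) hu3 (by rw [← h0]; linarith [hle 0])
  obtain ⟨k1, k2, k2', k3⟩ := key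
  have c1 : s 1 = 0 := by linarith
  have c2 : |s 2| ≤ 1 / 2 := abs_le.2 ⟨by linarith, by linarith⟩
  have c0 : |s 0| ≤ 2 / 3 := by linarith
  have : ‖s‖ ≤ 2 / 3 := by
    rw [pi_norm_le_iff_of_nonneg (by norm_num)]
    intro i
    fin_cases i
    · simpa using c0
    · simp [c1]; norm_num
    · have : ‖s 2‖ = |s 2| := rfl
      simpa using c2.trans (by norm_num)
  linarith

/-! ## The holonomy -/

/-- The cells along the loop. -/
def cells : ℕ → Fin 4 → ℤ
  | 0 => ![2, 3, 0, 0]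
  | 1 => ![2, 4, 0, 0]
  | 2 => ![2, 4, 1, 0]
  | 3 => ![2, 4, 2, 0]
  | 4 => ![2, 3, 2, 0]
  | 5 => ![2, 3, 1, 0]
  | _ => ![2, 3, 0, 0]

/-- The number of the cell. -/
def idx (m k : ℕ) : ℕ :=
  if k < 2 * m then 0 else if k < 5 * m then 1 else if k < 7 * m then 2
  else if k ≤ 10 * m then 3 else if k ≤ 13 * m then 4 else if k ≤ 15 * m then 5 else 6

theorem cell_eq {a b c d : ℝ} {i j k l : ℤ} (h0 : (i : ℝ) ≤ a) (h0' : a < i + 1)
    (h1 : (j : ℝ) ≤ b) (h1' : b < j + 1) (h2 : (k : ℝ) ≤ c) (h2' : c < k + 1)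
    (h3 : (l : ℝ) ≤ d) (h3' : d < l + 1) : cellOf ![a, b, c, d] = ![i, j, k, l] := by
  funext t
  fin_cases t
  · exact Int.floor_eq_iff.2 ⟨h0, h0'⟩
  · exact Int.floor_eq_iff.2 ⟨h1, h1'⟩
  · exact Int.floor_eq_iff.2 ⟨h2, h2'⟩
  · exact Int.floor_eq_iff.2 ⟨h3, h3'⟩

open Pool.Agent.W_MP_be6f00_gt in
theorem cell_loop {m k : ℕ} (hm : 1 ≤ m) (hk : k ≤ 16 * m) :
    cellOf (proj (FF (loop (2 * m) k))) = cells (idx m k) := by
  have hm' : (0 : ℝ) < m := by exact_mod_cast hm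
  have h2m : (0 : ℝ) < ((2 * m : ℕ) : ℝ) := by push_cast; linarith
  have lowb : ∀ {x c : ℝ}, c * (2 * m) ≤ x → c ≤ x / ((2 * m : ℕ) : ℝ) := by
    intro x c h
    rw [le_div_iff₀ h2m]; push_cast; exact h
  have uppb : ∀ {x c : ℝ}, x < c * (2 * m) → x / ((2 * m : ℕ) : ℝ) < c := by
    intro x c h
    rw [div_lt_iff₀ h2m]; push_cast; exact h
  have uppb' : ∀ {x c : ℝ}, x ≤ c * (2 * m) → x / ((2 * m : ℕ) : ℝ) ≤ c := by
    intro x c h
    rw [div_le_iff₀ h2m]; push_cast; exact h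
  have lowb' : ∀ {x c : ℝ}, c * (2 * m) < x → c < x / ((2 * m : ℕ) : ℝ) := by
    intro x c h
    rw [lt_div_iff₀ h2m]; push_cast; exact h
  rw [proj_FF]
  unfold loop idx
  by_cases c1 : k < 2 * m
  · have d1 : k < 2 * (2 * m) := by omega
    rw [if_pos d1, if_pos c1]
    simp only [Matrix.cons_val, mul_zero, abs_zero]
    have e1 : (k : ℝ) < 2 * m := by exact_mod_cast c1
    have f1 := uppb (x := (k : ℝ)) (c := 1) (by linarith)
    have f2 := lowb (x := (k : ℝ)) (c := 0) (by rw [zero_mul]; positivity)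
    refine cell_eq ?_ ?_ ?_ ?_ ?_ ?_ ?_ ?_ <;> push_cast at * <;> linarith
  rw [if_neg c1]
  have g1 : (2 : ℝ) * m ≤ k := by exact_mod_cast (not_lt.1 c1)
  by_cases c2 : k < 5 * m
  · rw [if_pos c2]
    have g2 : (k : ℝ) < 5 * m := by exact_mod_cast c2
    by_cases d1 : k < 2 * (2 * m)
    · rw [if_pos d1]
      simp only [Matrix.cons_val, mul_zero, abs_zero]
      have e1 : (k : ℝ) < 2 * (2 * m) := by exact_mod_cast d1
      have f1 := uppb (x := (k : ℝ)) (c := 2) (by linarith)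
      have f2 := lowb (x := (k : ℝ)) (c := 1) (by linarith)
      refine cell_eq ?_ ?_ ?_ ?_ ?_ ?_ ?_ ?_ <;> push_cast at * <;> linarith
    · have d2 : k < 4 * (2 * m) := by omega
      rw [if_neg d1, if_pos d2]
      simp only [Matrix.cons_val, mul_zero, abs_zero]
      have e1 : (2 : ℝ) * (2 * m) ≤ k := by exact_mod_cast (not_lt.1 d1)
      have f1 := uppb (x := (k : ℝ) - 2 * ((2 * m : ℕ) : ℝ)) (c := 1 / 2) (by push_cast; linarith)
      have f2 := lowb (x := (k : ℝ) - 2 * ((2 * m : ℕ) : ℝ)) (c := 0) (by push_cast; linarith)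
      refine cell_eq ?_ ?_ ?_ ?_ ?_ ?_ ?_ ?_ <;> push_cast at * <;> linarith
  rw [if_neg c2]
  have g2 : (5 : ℝ) * m ≤ k := by exact_mod_cast (not_lt.1 c2)
  have d1 : ¬ k < 2 * (2 * m) := by omega
  rw [if_neg d1]
  by_cases c3 : k < 7 * m
  · have d2 : k < 4 * (2 * m) := by omega
    rw [if_pos c3, if_pos d2]
    have g3 : (k : ℝ) < 7 * m := by exact_mod_cast c3
    simp only [Matrix.cons_val, mul_zero, abs_zero]
    have f1 := uppb (x := (k : ℝ) - 2 * ((2 * m : ℕ) : ℝ)) (c := 3 / 2) (by push_cast; linarith)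
    have f2 := lowb (x := (k : ℝ) - 2 * ((2 * m : ℕ) : ℝ)) (c := 1 / 2) (by push_cast; linarith)
    refine cell_eq ?_ ?_ ?_ ?_ ?_ ?_ ?_ ?_ <;> push_cast at * <;> linarith
  rw [if_neg c3]
  have g3 : (7 : ℝ) * m ≤ k := by exact_mod_cast (not_lt.1 c3)
  by_cases c4 : k ≤ 10 * m
  · rw [if_pos c4]
    have g4 : (k : ℝ) ≤ 10 * m := by exact_mod_cast c4
    by_cases d2 : k < 4 * (2 * m)
    · rw [if_pos d2]
      simp only [Matrix.cons_val, mul_zero, abs_zero]
      have e1 : (k : ℝ) < 4 * (2 * m) := by exact_mod_cast d2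
      have f1 := uppb (x := (k : ℝ) - 2 * ((2 * m : ℕ) : ℝ)) (c := 2) (by push_cast; linarith)
      have f2 := lowb (x := (k : ℝ) - 2 * ((2 * m : ℕ) : ℝ)) (c := 3 / 2) (by push_cast; linarith)
      refine cell_eq ?_ ?_ ?_ ?_ ?_ ?_ ?_ ?_ <;> push_cast at * <;> linarith
    · have d3 : k < 6 * (2 * m) := by omega
      rw [if_neg d2, if_pos d3]
      simp only [Matrix.cons_val, mul_zero, abs_zero]
      have e1 : (4 : ℝ) * (2 * m) ≤ k := by exact_mod_cast (not_lt.1 d2)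
      have f1 := uppb' (x := (k : ℝ) - 4 * ((2 * m : ℕ) : ℝ)) (c := 1) (by push_cast; linarith)
      have f2 := lowb (x := (k : ℝ) - 4 * ((2 * m : ℕ) : ℝ)) (c := 0) (by push_cast; linarith)
      refine cell_eq ?_ ?_ ?_ ?_ ?_ ?_ ?_ ?_ <;> push_cast at * <;> linarith
  rw [if_neg c4]
  have d2 : ¬ k < 4 * (2 * m) := by omega
  rw [if_neg d2]
  have g4 : (10 : ℝ) * m < k := by exact_mod_cast (not_le.1 c4)
  by_cases c5 : k ≤ 13 * m
  · rw [if_pos c5]
    have g5 : (k : ℝ) ≤ 13 * m := by exact_mod_cast c5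
    by_cases d3 : k < 6 * (2 * m)
    · rw [if_pos d3]
      simp only [Matrix.cons_val, mul_zero, abs_zero]
      have e1 : (k : ℝ) < 6 * (2 * m) := by exact_mod_cast d3
      have f1 := uppb (x := (k : ℝ) - 4 * ((2 * m : ℕ) : ℝ)) (c := 2) (by push_cast; linarith)
      have f2 := lowb' (x := (k : ℝ) - 4 * ((2 * m : ℕ) : ℝ)) (c := 1) (by push_cast; linarith)
      refine cell_eq ?_ ?_ ?_ ?_ ?_ ?_ ?_ ?_ <;> push_cast at * <;> linarith
    · rw [if_neg d3]
      simp only [Matrix.cons_val, mul_zero, abs_zero]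
      have e1 : (6 : ℝ) * (2 * m) ≤ k := by exact_mod_cast (not_lt.1 d3)
      have f1 := uppb' (x := (k : ℝ) - 6 * ((2 * m : ℕ) : ℝ)) (c := 1 / 2)
        (by push_cast; linarith)
      have f2 := lowb (x := (k : ℝ) - 6 * ((2 * m : ℕ) : ℝ)) (c := 0) (by push_cast; linarith)
      refine cell_eq ?_ ?_ ?_ ?_ ?_ ?_ ?_ ?_ <;> push_cast at * <;> linarith
  rw [if_neg c5]
  have d3 : ¬ k < 6 * (2 * m) := by omega
  rw [if_neg d3]
  have g5 : (13 : ℝ) * m < k := by exact_mod_cast (not_le.1 c5)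
  have g7 : (k : ℝ) ≤ 16 * m := by exact_mod_cast hk
  by_cases c6 : k ≤ 15 * m
  · rw [if_pos c6]
    have g6 : (k : ℝ) ≤ 15 * m := by exact_mod_cast c6
    simp only [Matrix.cons_val, mul_zero, abs_zero]
    have f1 := uppb' (x := (k : ℝ) - 6 * ((2 * m : ℕ) : ℝ)) (c := 3 / 2) (by push_cast; linarith)
    have f2 := lowb' (x := (k : ℝ) - 6 * ((2 * m : ℕ) : ℝ)) (c := 1 / 2) (by push_cast; linarith)
    refine cell_eq ?_ ?_ ?_ ?_ ?_ ?_ ?_ ?_ <;> push_cast at * <;> linarith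
  · rw [if_neg c6]
    have g6 : (15 : ℝ) * m < k := by exact_mod_cast (not_le.1 c6)
    simp only [Matrix.cons_val, mul_zero, abs_zero]
    have f1 := uppb' (x := (k : ℝ) - 6 * ((2 * m : ℕ) : ℝ)) (c := 2) (by push_cast; linarith)
    have f2 := lowb' (x := (k : ℝ) - 6 * ((2 * m : ℕ) : ℝ)) (c := 3 / 2) (by push_cast; linarith)
    refine cell_eq ?_ ?_ ?_ ?_ ?_ ?_ ?_ ?_ <;> push_cast at * <;> linarith

/-- The partial holonomies. -/
noncomputable def WW : ℕ → Equiv.Perm (Fin 3)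
  | 0 => 1
  | j + 1 => WW j * transportA tr3 (cells j) (cells (j + 1))

theorem stepTr_self {G : Type} [Group G] (e : Fin 4 → (Fin 4 → ℤ) → G) (k : Fin 4)
    (c : Fin 4 → ℤ) : stepTr e k c (c k) = 1 := by
  unfold stepTr
  rw [if_neg (by omega), if_neg (by omega)]

theorem transportA_self {G : Type} [Group G] (e : Fin 4 → (Fin 4 → ℤ) → G) (c : Fin 4 → ℤ) :
    transportA e c c = 1 := by
  unfold transportA
  split_ifs with h
  · unfold transport
    simp only [Function.update_eq_self, stepTr_self, mul_one]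
  · rfl

theorem idx_succ {m k : ℕ} (hm : 1 ≤ m) : idx m (k + 1) = idx m k ∨ idx m (k + 1) = idx m k + 1 := by
  unfold idx
  split_ifs <;> omega

open Pool.Agent.W_MP_be6f00_gt in
theorem prod_eq {m : ℕ} (hm : 1 ≤ m) : ∀ k, k ≤ 16 * m → ((List.range k).map
    (fun j => pair3 (FF (loop (2 * m) j)) (FF (loop (2 * m) (j + 1))))).prod = WW (idx m k) := by
  intro k
  induction k with
  | zero =>
    intro _
    have : idx m 0 = 0 := by unfold idx; rw [if_pos (by omega)]
    rw [this]; rfl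
  | succ k ih =>
    intro hk
    rw [List.range_succ, List.map_append, List.prod_append, ih (by omega)]
    have e : pair3 (FF (loop (2 * m) k)) (FF (loop (2 * m) (k + 1))) =
        transportA tr3 (cells (idx m k)) (cells (idx m (k + 1))) := by
      unfold pair3
      rw [cell_loop hm (by omega), cell_loop hm hk]
    simp only [List.map_cons, List.map_nil, List.prod_cons, List.prod_nil, mul_one]
    rw [e]
    rcases idx_succ (k := k) hm with h | h
    · rw [h, transportA_self, mul_one]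
    · rw [h]; rfl

theorem WW_ne : WW 6 ≠ 1 := by
  have h : ∀ j < 6, transportA tr3 (cells j) (cells (j + 1)) =
      transport tr3 (cells j) (cells (j + 1)) := by
    intro j hj
    unfold transportA
    rw [if_pos]
    have : ∀ j < 6, ∀ k : Fin 4, |cells j k - cells (j + 1) k| ≤ 1 := by decide +kernel
    exact this j hj
  have hW : WW 6 = transport tr3 (cells 0) (cells 1) * transport tr3 (cells 1) (cells 2) *
      transport tr3 (cells 2) (cells 3) * transport tr3 (cells 3) (cells 4) *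
      transport tr3 (cells 4) (cells 5) * transport tr3 (cells 5) (cells 6) := by
    rw [← h 0 (by norm_num), ← h 1 (by norm_num), ← h 2 (by norm_num), ← h 3 (by norm_num),
      ← h 4 (by norm_num), ← h 5 (by norm_num)]
    simp [WW]
  rw [hW]
  decide +kernel

end BE16

open BE16 Pool.Agent.W_MP_be6f00_gt in
theorem sigma_knotted (h : EuclideanSpace ℝ (Fin 5) ≃ₜ EuclideanSpace ℝ (Fin 5)) :
    h '' SigmaSet ≠ stdSphere 3 := by
  intro hcon
  have hstd : stdSphere 3 = stdS3 := rfl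
  have hmem : ∀ x, h x ∈ stdS3 ↔ x ∈ SigmaSet := by
    intro x
    rw [← hstd, ← hcon, h.injective.mem_set_image]
  obtain ⟨G, hGc, hGe, hGm⟩ := std_ext (fun s => h (FF s))
    ((h.continuous.comp continuous_FF).continuousOn)
    (fun s hs hc => FF_notMem hs ((hmem _).1 hc))
  have hF : ContinuousOn (fun s => h.symm (G s)) (Metric.closedBall 0 1) :=
    h.symm.continuous.comp_continuousOn hGc
  have hFs : ∀ s ∈ Metric.sphere (0 : Fin 3 → ℝ) 1, h.symm (G s) = FF s := by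
    intro s hs
    rw [hGe hs, Homeomorph.symm_apply_apply]
  have key := detect (X := SigmaSetᶜ) (x := fun e : EuclideanSpace ℝ (Fin 5) => e 0)
    (by fun_prop) (Equiv.Perm.sign : Equiv.Perm (Fin 3) →* ℤˣ) (by decide) (τ := X1) (by decide)
    (s3 := pair3) (s2 := pair2) (fun e he h0 => locMul_pair3 he h0) (fun e he => locMul_pair2 he)
    (fun e _ h0 => sign_pair h0) hF
    (fun s hs hc => hGm s hs (by
      have := (hmem _).2 hc
      rwa [Homeomorph.apply_symm_apply] at this))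
    (fun s hs h0 => by
      show 0 < (h.symm (G s)) 0
      rw [hFs s hs]
      show 0 < 3 / 2 * s 0
      positivity)
    (fun s hs h0 => by
      show (h.symm (G s)) 0 < 0
      rw [hFs s hs]
      show 3 / 2 * s 0 < 0
      linarith)
    (fun s hs h0 => by
      show (h.symm (G s)) 0 = 0
      rw [hFs s hs]
      show 3 / 2 * s 0 = 0
      rw [h0, mul_zero])
  obtain ⟨n₀, hn⟩ := key
  set m := n₀ + 1 with hm
  have h1 := hn (2 * m) (by omega)
  have hls : ∀ k ≤ 8 * (2 * m), loop (2 * m) k ∈ Metric.sphere (0 : Fin 3 → ℝ) 1 := by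
    intro k hk
    have hm' : (0 : ℝ) < ((2 * m : ℕ) : ℝ) := by positivity
    have hk8 : (k : ℝ) ≤ 8 * ((2 * m : ℕ) : ℝ) := by exact_mod_cast hk
    have hb : ∀ (j : ℕ), (j : ℝ) * ((2 * m : ℕ) : ℝ) ≤ k → (k : ℝ) ≤ (j + 2) * ((2 * m : ℕ) : ℝ) →
        |-1 + ((k : ℝ) - j * ((2 * m : ℕ) : ℝ)) / ((2 * m : ℕ) : ℝ)| ≤ 1 := by
      intro j h1 h2
      have e1 : 0 ≤ ((k : ℝ) - j * ((2 * m : ℕ) : ℝ)) / ((2 * m : ℕ) : ℝ) :=
        div_nonneg (by linarith) hm'.le
      have e2 : ((k : ℝ) - j * ((2 * m : ℕ) : ℝ)) / ((2 * m : ℕ) : ℝ) ≤ 2 := by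
        rw [div_le_iff₀ hm']; linarith
      exact abs_le.2 ⟨by linarith, by linarith⟩
    have hnorm : ∀ v : Fin 3 → ℝ, (∀ i, |v i| ≤ 1) → (∃ i, |v i| = 1) →
        v ∈ Metric.sphere (0 : Fin 3 → ℝ) 1 := by
      intro v hv hv'
      rw [mem_sphere_zero_iff_norm]
      refine le_antisymm ((pi_norm_le_iff_of_nonneg zero_le_one).2 hv) ?_
      obtain ⟨i, hi⟩ := hv'
      rw [← hi]
      exact norm_le_pi_norm v i
    unfold loop
    split_ifs with c1 c2 c3
    · refine hnorm _ (fun i => ?_) ⟨2, by simp⟩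
      have e1 : (k : ℝ) < 2 * ((2 * m : ℕ) : ℝ) := by exact_mod_cast c1
      have := hb 0 (by simp) (by push_cast at *; linarith)
      fin_cases i
      · simp
      · simpa using this
      · simp
    · refine hnorm _ (fun i => ?_) ⟨1, by simp⟩
      have e1 : (k : ℝ) < 4 * ((2 * m : ℕ) : ℝ) := by exact_mod_cast c2
      have e2 : (2 : ℝ) * ((2 * m : ℕ) : ℝ) ≤ k := by exact_mod_cast (not_lt.1 c1)
      have := hb 2 (by push_cast at *; linarith) (by push_cast at *; linarith)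
      fin_cases i
      · simp
      · simp
      · simpa using this
    · refine hnorm _ (fun i => ?_) ⟨2, by simp⟩
      have e1 : (k : ℝ) < 6 * ((2 * m : ℕ) : ℝ) := by exact_mod_cast c3
      have e2 : (4 : ℝ) * ((2 * m : ℕ) : ℝ) ≤ k := by exact_mod_cast (not_lt.1 c2)
      have := hb 4 (by push_cast at *; linarith) (by push_cast at *; linarith)
      rw [← abs_neg] at this
      fin_cases i
      · simp
      · have e3 : -(-1 + ((k : ℝ) - (4 : ℕ) * ((2 * m : ℕ) : ℝ)) / ((2 * m : ℕ) : ℝ)) =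
            1 - ((k : ℝ) - 4 * ((2 * m : ℕ) : ℝ)) / ((2 * m : ℕ) : ℝ) := by push_cast; ring
        rw [e3] at this
        simpa using this
      · simp
    · refine hnorm _ (fun i => ?_) ⟨1, by simp⟩
      have e2 : (6 : ℝ) * ((2 * m : ℕ) : ℝ) ≤ k := by exact_mod_cast (not_lt.1 c3)
      have := hb 6 (by push_cast at *; linarith) (by push_cast at *; linarith)
      rw [← abs_neg] at this
      fin_cases i
      · simp
      · simp
      · have e3 : -(-1 + ((k : ℝ) - (6 : ℕ) * ((2 * m : ℕ) : ℝ)) / ((2 * m : ℕ) : ℝ)) =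
            1 - ((k : ℝ) - 6 * ((2 * m : ℕ) : ℝ)) / ((2 * m : ℕ) : ℝ) := by push_cast; ring
        rw [e3] at this
        simpa using this
  have h2 : (List.range (8 * (2 * m))).map (fun k =>
      pair3 (h.symm (G (loop (2 * m) k))) (h.symm (G (loop (2 * m) (k + 1))))) =
      (List.range (8 * (2 * m))).map (fun j =>
        pair3 (FF (loop (2 * m) j)) (FF (loop (2 * m) (j + 1)))) := by
    refine List.map_congr_left fun k hk => ?_
    rw [List.mem_range] at hk
    rw [hFs _ (hls k (by omega)), hFs _ (hls (k + 1) (by omega))]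
  rw [h2, prod_eq (by omega) _ (by omega)] at h1
  have h3 : idx m (8 * (2 * m)) = 6 := by
    unfold idx
    split_ifs <;> omega
  rw [h3] at h1
  exact WW_ne h1

end Pool.Agent.PolyKnots
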