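import Pool.Agent.W_MP_be6f00_gt.PLa

set_option autoImplicit false
set_option linter.unusedSectionVars false

/-! # BE01b: second half of the PL toolbox -/

open Set
open scoped ENNReal Topology

namespace Pool.Agent.PolyKnots

namespace BE01

section
variable {E F G : Type} [NormedAddCommGroup E] [NormedSpace ℝ E] [FiniteDimensional ℝ E]
  [NormedAddCommGroup F] [NormedSpace ℝ F] [FiniteDimensional ℝ F]
  [NormedAddCommGroup G] [NormedSpace ℝ G] [FiniteDimensional ℝ G]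

theorem aff_ray (a : E →ᵃ[ℝ] F) (v w : E) (t : ℝ) :
    a (v + t • w) = a v + t • (a (v + w) - a v) := by
  have h : ∀ u : E, a (v + u) = a.linear u + a v := by
    intro u
    have := a.map_vadd v u
    rw [vadd_eq_add, vadd_eq_add, add_comm u v] at this
    exact this
  rw [h, h, map_smul, add_sub_cancel_right, add_comm]

theorem sign_near (a : E →ᵃ[ℝ] ℝ) (v : E) : ∃ δ > 0, ∀ w : E, ‖w‖ < δ → ∀ t ∈ Ioc (0 : ℝ) 1,
    (0 ≤ a (v + t • w) ↔ 0 ≤ a (v + w)) := by
  have hc : Continuous fun w : E => a (v + w) :=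
    a.continuous_of_finiteDimensional.comp (continuous_const.add continuous_id)
  rcases lt_trichotomy (a v) 0 with h | h | h
  · have h1 : ∀ᶠ w in 𝓝 (0 : E), a (v + w) < 0 := by
      refine hc.continuousAt.eventually_lt continuousAt_const ?_
      rwa [add_zero]
    obtain ⟨δ, hδ, h2⟩ := Metric.eventually_nhds_iff.1 h1
    refine ⟨δ, hδ, fun w hw t ht => ?_⟩
    have h3 := h2 (y := w) (by rwa [dist_zero_right])
    have h4 := h2 (y := t • w) (by
      rw [dist_zero_right, norm_smul, Real.norm_eq_abs, abs_of_pos ht.1]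
      exact lt_of_le_of_lt (mul_le_of_le_one_left (norm_nonneg w) ht.2) hw)
    exact ⟨fun h => absurd h (not_le.2 h4), fun h => absurd h (not_le.2 h3)⟩
  · refine ⟨1, one_pos, fun w _ t ht => ?_⟩
    rw [aff_ray, h, zero_add, sub_zero, smul_eq_mul]
    exact mul_nonneg_iff_of_pos_left ht.1
  · have h1 : ∀ᶠ w in 𝓝 (0 : E), 0 < a (v + w) := by
      refine continuousAt_const.eventually_lt hc.continuousAt ?_
      rwa [add_zero]
    obtain ⟨δ, hδ, h2⟩ := Metric.eventually_nhds_iff.1 h1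
    refine ⟨δ, hδ, fun w hw t ht => ?_⟩
    have h3 := h2 (y := w) (by rwa [dist_zero_right])
    have h4 := h2 (y := t • w) (by
      rw [dist_zero_right, norm_smul, Real.norm_eq_abs, abs_of_pos ht.1]
      exact lt_of_le_of_lt (mul_le_of_le_one_left (norm_nonneg w) ht.2) hw)
    exact ⟨fun _ => h3.le, fun _ => h4.le⟩

/-- finitely many radii have a common lower bound -/
theorem common_radius {ι : Type} [Finite ι] {Q : ι → E → Prop}
    (h : ∀ i, ∃ δ > 0, ∀ w : E, ‖w‖ < δ → Q i w) : ∃ δ > 0, ∀ w : E, ‖w‖ < δ → ∀ i, Q i w := by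
  have h1 : ∀ᶠ w in 𝓝 (0 : E), ∀ i, Q i w := by
    rw [Filter.eventually_all]
    intro i
    obtain ⟨δ, hδ, h2⟩ := h i
    refine Metric.eventually_nhds_iff.2 ⟨δ, hδ, fun w hw => h2 w ?_⟩
    rwa [dist_zero_right] at hw
  obtain ⟨δ, hδ, h2⟩ := Metric.eventually_nhds_iff.1 h1
  exact ⟨δ, hδ, fun w hw => h2 (y := w) (by rwa [dist_zero_right])⟩

theorem poly_near {P : Set E} (hP : IsPolyhedral P) (v : E) : ∃ δ > 0, ∀ w : E, ‖w‖ < δ →
    ∀ t ∈ Ioc (0 : ℝ) 1, (v + t • w ∈ P ↔ v + w ∈ P) := by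
  obtain ⟨ι, _, a, rfl⟩ := hP
  obtain ⟨δ, hδ, h⟩ := common_radius fun i => sign_near (a i) v
  refine ⟨δ, hδ, fun w hw t ht => ?_⟩
  exact forall_congr' fun i => h w hw i t ht

theorem poly_convex {P : Set E} (hP : IsPolyhedral P) {v w : E} (hv : v ∈ P) (hw : v + w ∈ P)
    {t : ℝ} (ht : t ∈ Icc (0 : ℝ) 1) : v + t • w ∈ P := by
  obtain ⟨ι, _, a, rfl⟩ := hP
  intro i
  have h1 : 0 ≤ a i v := hv i
  have h2 : 0 ≤ a i (v + w) := hw i
  rw [aff_ray, smul_eq_mul]
  have h3 : a i v + t * (a i (v + w) - a i v) = (1 - t) * a i v + t * a i (v + w) := by ring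
  rw [h3]
  exact add_nonneg (mul_nonneg (by linarith [ht.2]) h1) (mul_nonneg ht.1 h2)

/-- restriction of a PL map to the preimage of a polyhedron -/
theorem isPLOn_preimage {f : E → F} {u : E → G} (hf : IsPLOn f univ) (hu : IsPLOn u univ)
    {Q : Set F} (hQ : IsPolyhedral Q) : IsPLOn u (f ⁻¹' Q) := by
  obtain ⟨ι, _, P, a, hP, hPu, ha⟩ := hf
  obtain ⟨κ, _, R, b, hR, hRu, hb⟩ := hu
  refine ⟨ι × κ, inferInstance, fun p => (P p.1 ∩ (a p.1) ⁻¹' Q) ∩ R p.2, fun p => b p.2,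
    fun p => polyhedral_inter (polyhedral_inter (hP p.1) (polyhedral_preimage hQ (a p.1)))
      (hR p.2), ?_, ?_⟩
  · ext x
    constructor
    · intro hx
      obtain ⟨i, hi⟩ := mem_iUnion.1 (hPu ▸ mem_univ x : x ∈ ⋃ i, P i)
      obtain ⟨j, hj⟩ := mem_iUnion.1 (hRu ▸ mem_univ x : x ∈ ⋃ j, R j)
      refine mem_iUnion.2 ⟨(i, j), ⟨hi, ?_⟩, hj⟩
      show a i x ∈ Q
      rw [← ha i hi]
      exact hx
    · intro hx
      obtain ⟨⟨i, j⟩, ⟨hi, hQ'⟩, hj⟩ := mem_iUnion.1 hx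
      show f x ∈ Q
      rw [ha i hi]
      exact hQ'
  · rintro ⟨i, j⟩ x ⟨_, hj⟩
    exact hb j hj

end

section
variable {m : ℕ}

/-- the closed cube with centre `c` and radius `ρ` -/
def cube (c : EuclideanSpace ℝ (Fin m)) (ρ : ℝ) : Set (EuclideanSpace ℝ (Fin m)) :=
  {y | ∀ i, |y i - c i| ≤ ρ}

theorem isPolyhedral_cube (c : EuclideanSpace ℝ (Fin m)) (ρ : ℝ) : IsPolyhedral (cube c ρ) := by
  let p : Fin m → (EuclideanSpace ℝ (Fin m) →ᵃ[ℝ] ℝ) := fun i =>
    (EuclideanSpace.projₗ (𝕜 := ℝ) i).toAffineMap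
  refine ⟨Fin m × Bool, inferInstance, fun q =>
    AffineMap.const ℝ _ ρ + (if q.2 then (1 : ℝ) else -1) •
      (p q.1 - AffineMap.const ℝ _ (c q.1)), ?_⟩
  ext y
  have h : ∀ q : Fin m × Bool, (AffineMap.const ℝ _ ρ + (if q.2 then (1 : ℝ) else -1) •
      (p q.1 - AffineMap.const ℝ _ (c q.1)) : EuclideanSpace ℝ (Fin m) →ᵃ[ℝ] ℝ) y =
      ρ + (if q.2 then (1 : ℝ) else -1) * (y q.1 - c q.1) := fun q => rfl
  constructor
  · rintro hy ⟨i, b⟩
    have hi := abs_le.1 (hy i)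
    rw [h]
    cases b
    · rw [if_neg (by simp)]; linarith [hi.2]
    · rw [if_pos rfl]; linarith [hi.1]
  · intro hy i
    have h1 := hy (i, true)
    have h2 := hy (i, false)
    rw [h] at h1 h2
    rw [if_pos rfl] at h1
    rw [if_neg (by simp)] at h2
    exact abs_le.2 ⟨by linarith, by linarith⟩

theorem continuous_coord (i : Fin m) : Continuous fun y : EuclideanSpace ℝ (Fin m) => y i :=
  (EuclideanSpace.proj (𝕜 := ℝ) i).continuous

theorem isClosed_cube (c : EuclideanSpace ℝ (Fin m)) (ρ : ℝ) : IsClosed (cube c ρ) :=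
  isClosed_polyhedral (isPolyhedral_cube c ρ)

/-- small cubes are contained in small balls -/
theorem exists_cube_subset (c : EuclideanSpace ℝ (Fin m)) {r : ℝ} (hr : 0 < r) :
    ∃ ρ > 0, cube c ρ ⊆ Metric.ball c r := by
  have h1 : (EuclideanSpace.equiv (Fin m) ℝ).symm ⁻¹' Metric.ball c r ∈
      𝓝 (EuclideanSpace.equiv (Fin m) ℝ c) := by
    refine (EuclideanSpace.equiv (Fin m) ℝ).symm.continuous.continuousAt.preimage_mem_nhds ?_
    rw [ContinuousLinearEquiv.symm_apply_apply]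
    exact Metric.ball_mem_nhds c hr
  obtain ⟨ρ, hρ, h2⟩ := Metric.nhds_basis_closedBall.mem_iff.1 h1
  refine ⟨ρ, hρ, fun y hy => ?_⟩
  have h3 : EuclideanSpace.equiv (Fin m) ℝ y ∈
      Metric.closedBall (EuclideanSpace.equiv (Fin m) ℝ c) ρ := by
    rw [Metric.mem_closedBall, dist_pi_le_iff hρ.le]
    intro i
    exact hy i
  have h4 := h2 h3
  rw [mem_preimage, ContinuousLinearEquiv.symm_apply_apply] at h4
  exact h4

theorem isCompact_cube (c : EuclideanSpace ℝ (Fin m)) (ρ : ℝ) : IsCompact (cube c ρ) := by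
  have h1 : cube c ρ = (EuclideanSpace.equiv (Fin m) ℝ).symm ''
      (Set.pi univ fun i => Icc (c i - ρ) (c i + ρ)) := by
    ext y
    constructor
    · intro hy
      refine ⟨EuclideanSpace.equiv (Fin m) ℝ y, fun i _ => ?_,
        ContinuousLinearEquiv.symm_apply_apply _ _⟩
      have hi := abs_le.1 (hy i)
      exact ⟨by show c i - ρ ≤ y i; linarith [hi.1], by show y i ≤ c i + ρ; linarith [hi.2]⟩
    · rintro ⟨z, hz, rfl⟩ i
      have hi := hz i (mem_univ i)
      show |z i - c i| ≤ ρ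
      exact abs_le.2 ⟨by linarith [hi.1], by linarith [hi.2]⟩
  rw [h1]
  exact (isCompact_univ_pi fun i => isCompact_Icc).image
    (EuclideanSpace.equiv (Fin m) ℝ).symm.continuous

end

end BE01

open BE01

section BE01
variable {E F G : Type} [NormedAddCommGroup E] [NormedSpace ℝ E] [FiniteDimensional ℝ E]
  [NormedAddCommGroup F] [NormedSpace ℝ F] [FiniteDimensional ℝ F]
  [NormedAddCommGroup G] [NormedSpace ℝ G] [FiniteDimensional ℝ G]

/-- PL maps are conical near every point. -/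
theorem IsPLOn.conical {f : E → F} (h : IsPLOn f univ) (v : E) : ∃ δ > 0, ∀ w : E, ‖w‖ < δ →
    ∀ t ∈ Icc (0 : ℝ) 1, f (v + t • w) = f v + t • (f (v + w) - f v) := by
  obtain ⟨ι, _, P, a, hP, hPu, ha⟩ := h
  have h1 : ∀ i, ∃ δ > 0, ∀ w : E, ‖w‖ < δ → (v + w ∈ P i → v ∈ P i) := by
    intro i
    by_cases hv : v ∈ P i
    · exact ⟨1, one_pos, fun _ _ _ => hv⟩
    · obtain ⟨δ, hδ, h2⟩ := Metric.isOpen_iff.1 (isClosed_polyhedral (hP i)).isOpen_compl v hv
      refine ⟨δ, hδ, fun w hw hvw => absurd hvw ?_⟩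
      refine h2 ?_
      rw [Metric.mem_ball, dist_eq_norm, add_sub_cancel_left]
      exact hw
  obtain ⟨δ, hδ, h2⟩ := common_radius h1
  refine ⟨δ, hδ, fun w hw t ht => ?_⟩
  obtain ⟨i, hi⟩ := mem_iUnion.1 (hPu ▸ mem_univ (v + w) : v + w ∈ ⋃ i, P i)
  have hv := h2 w hw i hi
  rw [ha i hv, ha i hi, ha i (poly_convex (hP i) hv hi ht), aff_ray]

/-- Finite unions of convex polyhedra are conical near every point. -/
theorem conical_union {ι : Type} [Finite ι] {P : ι → Set E} (hP : ∀ i, IsPolyhedral (P i)) (v : E) :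
    ∃ δ > 0, ∀ w : E, ‖w‖ < δ → ∀ t ∈ Ioc (0 : ℝ) 1,
      (v + t • w ∈ ⋃ i, P i ↔ v + w ∈ ⋃ i, P i) := by
  obtain ⟨δ, hδ, h⟩ := common_radius fun i => poly_near (hP i) v
  refine ⟨δ, hδ, fun w hw t ht => ?_⟩
  rw [mem_iUnion, mem_iUnion]
  exact exists_congr fun i => h w hw i t ht
end BE01

/-- `X ⊂ ℝ^{n+2}` is locally flat at `v`, by a global PL homeomorphism. -/
def LocFlat {n : ℕ} (X : Set (EuclideanSpace ℝ (Fin (n + 2))))
    (v : EuclideanSpace ℝ (Fin (n + 2))) : Prop :=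
  ∃ e : EuclideanSpace ℝ (Fin (n + 2)) ≃ EuclideanSpace ℝ (Fin (n + 2)), IsPLE e ∧
    ∃ δ > 0, ∀ w ∈ Metric.ball v δ, (w ∈ X ↔ ∀ i : Fin (n + 2), n ≤ (i : ℕ) → e w i = 0)

/-- BE01: criterion -/
theorem LocFlat.exists_star {n : ℕ} {X : Set (EuclideanSpace ℝ (Fin (n + 2)))}
    {v : EuclideanSpace ℝ (Fin (n + 2))} (h : LocFlat X v) (hv : v ∈ X) : ∀ ε > 0,
    ∃ B : Set (EuclideanSpace ℝ (Fin (n + 2))), B ⊆ Metric.ball v ε ∧ IsStarNhd X B v ∧
    PLHomeoPair B (B ∩ X) (stdBall n) (stdSubBall n) := by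
  obtain ⟨e, he, δ, hδ, hX⟩ := h
  intro ε hε
  have hev : ∀ i : Fin (n + 2), n ≤ (i : ℕ) → e v i = 0 :=
    (hX v (Metric.mem_ball_self hδ)).1 hv
  have hec : Continuous e := he.pl.continuous
  have hesc : Continuous e.symm := he.pl_symm.continuous
  obtain ⟨δc, hδc, hcon⟩ := he.pl.conical v
  have hη : 0 < min ε (min δ δc) := lt_min hε (lt_min hδ hδc)
  obtain ⟨r, hr, hr'⟩ := Metric.continuous_iff.1 hesc (e v) _ hη
  obtain ⟨ρ, hρ, hcube⟩ := exists_cube_subset (e v) hr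
  have hB : ∀ x, x ∈ e ⁻¹' cube (e v) ρ → dist x v < min ε (min δ δc) := by
    intro x hx
    have := hr' (e x) (hcube hx)
    rwa [Equiv.symm_apply_apply, Equiv.symm_apply_apply] at this
  have hray : ∀ x, x ∈ e ⁻¹' cube (e v) ρ → ∀ t ∈ Icc (0 : ℝ) 1, ∀ i,
      e (v + t • (x - v)) i = e v i + t * (e x i - e v i) := by
    intro x hx t ht i
    have h1 : ‖x - v‖ < δc := by
      rw [← dist_eq_norm]
      exact lt_of_lt_of_le (hB x hx) ((min_le_right _ _).trans (min_le_right _ _))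
    have h2 := hcon (x - v) h1 t ht
    rw [add_sub_cancel] at h2
    rw [h2]
    rfl
  have hopen : {x | ∀ i, |e x i - e v i| < ρ} ⊆ interior (e ⁻¹' cube (e v) ρ) := by
    refine interior_maximal (fun x hx i => (hx i).le) ?_
    have : {x | ∀ i, |e x i - e v i| < ρ} = ⋂ i, {x | |e x i - e v i| < ρ} := by ext x; simp
    rw [this]
    exact isOpen_iInter_of_finite fun i => isOpen_lt
      ((((continuous_coord i).comp hec).sub continuous_const).abs) continuous_const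
  have hballδ : ∀ x, x ∈ e ⁻¹' cube (e v) ρ → x ∈ Metric.ball v δ := fun x hx =>
    lt_of_lt_of_le (hB x hx) ((min_le_right _ _).trans (min_le_left _ _))
  refine ⟨e ⁻¹' cube (e v) ρ, fun x hx => lt_of_lt_of_le (hB x hx) (min_le_left _ _),
    ⟨?_, ?_, ?_, ?_⟩, ?_⟩
  · rw [← Equiv.image_symm_eq_preimage]
    exact (isCompact_cube (e v) ρ).image hesc
  · refine hopen fun i => ?_
    rw [sub_self, abs_zero]
    exact hρ
  · intro x hx t ht
    refine hopen fun i => ?_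
    rw [hray x hx t ⟨ht.1, ht.2.le⟩ i, add_sub_cancel_left, abs_mul, abs_of_nonneg ht.1]
    have h1 : |e x i - e v i| ≤ ρ := hx i
    calc t * |e x i - e v i| ≤ t * ρ := mul_le_mul_of_nonneg_left h1 ht.1
      _ < 1 * ρ := mul_lt_mul_of_pos_right ht.2 hρ
      _ = ρ := one_mul ρ
  · intro x hx t ht
    have h1 : v + t • (x - v) ∈ Metric.ball v δ := by
      rw [Metric.mem_ball, dist_eq_norm, add_sub_cancel_left, norm_smul, Real.norm_eq_abs,
        abs_of_pos ht.1]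
      refine lt_of_le_of_lt (mul_le_of_le_one_left (norm_nonneg _) ht.2) ?_
      rw [← dist_eq_norm]
      exact hballδ x hx
    rw [hX _ h1, hX x (hballδ x hx)]
    refine forall_congr' fun i => imp_congr_right fun hi => ?_
    rw [hray x hx t ⟨ht.1.le, ht.2⟩ i, hev i hi, zero_add, sub_zero, mul_eq_zero]
    exact ⟨fun h => h.resolve_left ht.1.ne', Or.inr⟩
  · have hf : IsPLOn (fun x => (1 / ρ) • (e x - e v)) univ :=
      (he.pl.sub (isPL_const (e v))).const_smul (1 / ρ)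
    have hg : IsPLOn (fun y => e.symm (e v + ρ • y)) univ :=
      he.pl_symm.comp ((isPL_const (e v)).add (isPL_id.const_smul ρ))
    have hgB : ∀ y ∈ stdBall n, e.symm (e v + ρ • y) ∈ e ⁻¹' cube (e v) ρ := by
      intro y hy
      rw [mem_preimage, Equiv.apply_symm_apply]
      intro i
      show |e v i + ρ * y i - e v i| ≤ ρ
      rw [add_sub_cancel_left, abs_mul, abs_of_pos hρ]
      exact mul_le_of_le_one_right hρ.le (hy i)
    have hfg : ∀ y : EuclideanSpace ℝ (Fin (n + 2)),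
        (1 / ρ) • (e (e.symm (e v + ρ • y)) - e v) = y := by
      intro y
      rw [Equiv.apply_symm_apply, add_sub_cancel_left, smul_smul, one_div,
        inv_mul_cancel₀ hρ.ne', one_smul]
    have hgf : ∀ x : EuclideanSpace ℝ (Fin (n + 2)),
        e.symm (e v + ρ • ((1 / ρ) • (e x - e v))) = x := by
      intro x
      rw [smul_smul, one_div, mul_inv_cancel₀ hρ.ne', one_smul, add_sub_cancel,
        Equiv.symm_apply_apply]
    have hfB : ∀ x ∈ e ⁻¹' cube (e v) ρ, (1 / ρ) • (e x - e v) ∈ stdBall n := by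
      intro x hx i
      show |1 / ρ * (e x i - e v i)| ≤ 1
      rw [abs_mul, abs_of_pos (one_div_pos.2 hρ), one_div, inv_mul_le_iff₀ hρ, mul_one]
      exact hx i
    have hstd : (stdBall n) = (fun y : EuclideanSpace ℝ (Fin (n + 2)) => y) ⁻¹' cube 0 1 := by
      ext y
      exact forall_congr' fun i => by
        show |y i| ≤ 1 ↔ |y i - 0| ≤ 1
        rw [sub_zero]
    refine ⟨fun x => (1 / ρ) • (e x - e v), fun y => e.symm (e v + ρ • y),
      isPLOn_preimage he.pl hf (isPolyhedral_cube _ _), ?_, hfB, hgB, fun x _ => hgf x,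
      fun y _ => hfg y, ?_⟩
    · rw [hstd]
      exact isPLOn_preimage isPL_id hg (isPolyhedral_cube _ _)
    · ext y
      constructor
      · rintro ⟨x, ⟨hxB, hxX⟩, rfl⟩
        refine ⟨hfB x hxB, fun i hi => ?_⟩
        show 1 / ρ * (e x i - e v i) = 0
        rw [hev i hi, (hX x (hballδ x hxB)).1 hxX i hi, sub_zero, mul_zero]
      · rintro ⟨hy1, hy2⟩
        have hB' := hgB y hy1
        refine ⟨_, ⟨hB', ?_⟩, hfg y⟩
        rw [hX _ (hballδ _ hB')]
        intro i hi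
        rw [Equiv.apply_symm_apply]
        show e v i + ρ * y i = 0
        rw [hev i hi, hy2 i hi, mul_zero, add_zero]

/-- BE01: linear invariance -/
theorem LocFlat.map {n : ℕ} {X : Set (EuclideanSpace ℝ (Fin (n + 2)))}
    {v : EuclideanSpace ℝ (Fin (n + 2))} (h : LocFlat X v)
    (L : EuclideanSpace ℝ (Fin (n + 2)) ≃ₗ[ℝ] EuclideanSpace ℝ (Fin (n + 2))) :
    LocFlat (L '' X) (L v) := by
  obtain ⟨e, he, δ, hδ, hX⟩ := h
  have hc : Continuous L.symm := L.symm.toLinearMap.continuous_of_finiteDimensional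
  obtain ⟨δ', hδ', h'⟩ := Metric.continuous_iff.1 hc (L v) δ hδ
  have hL : IsPLE L.symm.toAffineEquiv.toEquiv := isPLE_affine _
  refine ⟨_, hL.trans he, δ', hδ', fun w hw => ?_⟩
  have h1 : L.symm w ∈ Metric.ball v δ := by
    have := h' w hw
    rwa [LinearEquiv.symm_apply_apply] at this
  have h2 : w ∈ L '' X ↔ L.symm w ∈ X := by
    constructor
    · rintro ⟨x, hx, rfl⟩
      rwa [LinearEquiv.symm_apply_apply]
    · intro hx
      exact ⟨_, hx, LinearEquiv.apply_symm_apply _ _⟩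
  rw [h2]
  exact hX _ h1

namespace BE01

/-- Two independent functionals are the last two coordinates of a linear isomorphism. -/
theorem exists_coord {n : ℕ} {F : Type} [AddCommGroup F] [Module ℝ F]
    [FiniteDimensional ℝ F] (hF : Module.finrank ℝ F = n + 2) (φ : Fin 2 → F →ₗ[ℝ] ℝ)
    (hφ : LinearIndependent ℝ φ) : ∃ Λ : F ≃ₗ[ℝ] (Fin (n + 2) → ℝ),
      ∀ x (j : Fin 2), Λ x (Fin.natAdd n j) = φ j x := by
  classical
  let Φ : F →ₗ[ℝ] (Fin 2 → ℝ) := LinearMap.pi φ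
  have hΦ : LinearMap.range Φ = ⊤ := by
    by_contra hne
    obtain ⟨ψ, hψ, hle⟩ := Submodule.exists_le_ker_of_lt_top _ (lt_top_iff_ne_top.2 hne)
    have hsum : ∀ y : Fin 2 → ℝ, ψ y = ∑ j, y j * ψ (Pi.single j 1) := by
      intro y
      conv_lhs => rw [← Finset.univ_sum_single y, map_sum]
      refine Finset.sum_congr rfl fun j _ => ?_
      have : Pi.single j (y j) = y j • (Pi.single j (1 : ℝ) : Fin 2 → ℝ) := by
        rw [← Pi.single_smul, smul_eq_mul, mul_one]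
      rw [this, map_smul, smul_eq_mul]
    have h0 : ∑ j, ψ (Pi.single j 1) • φ j = 0 := by
      ext x
      have h1 : ψ (Φ x) = 0 := hle ⟨x, rfl⟩
      rw [hsum] at h1
      rw [LinearMap.sum_apply, LinearMap.zero_apply, ← h1]
      refine Finset.sum_congr rfl fun j _ => ?_
      rw [LinearMap.smul_apply, smul_eq_mul, mul_comm]
      rfl
    have h1 := Fintype.linearIndependent_iff.1 hφ _ h0
    refine hψ (LinearMap.ext fun y => ?_)
    rw [hsum]
    simp [h1]
  obtain ⟨C, hC⟩ := Submodule.exists_isCompl (LinearMap.ker Φ)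
  have hfr : Module.finrank ℝ (LinearMap.ker Φ) = n := by
    have h1 := LinearMap.finrank_range_add_finrank_ker Φ
    rw [hΦ, finrank_top, Module.finrank_fin_fun, hF] at h1
    omega
  let κ : LinearMap.ker Φ ≃ₗ[ℝ] (Fin n → ℝ) :=
    LinearEquiv.ofFinrankEq _ _ (by rw [hfr, Module.finrank_fin_fun])
  let g : F →ₗ[ℝ] (Fin n → ℝ) :=
    (κ : LinearMap.ker Φ →ₗ[ℝ] (Fin n → ℝ)) ∘ₗ (LinearMap.ker Φ).projectionOnto C hC
  have hg : LinearMap.range g = ⊤ := by
    rw [LinearMap.range_eq_top]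
    exact κ.surjective.comp (Submodule.projectionOnto_surjective hC)
  have hgk : LinearMap.ker g = C := by
    ext x
    rw [LinearMap.mem_ker]
    show κ ((LinearMap.ker Φ).projectionOnto C hC x) = 0 ↔ x ∈ C
    rw [LinearEquiv.map_eq_zero_iff, Submodule.projectionOnto_apply_eq_zero_iff]
  let Θ : F ≃ₗ[ℝ] (Fin n → ℝ) × (Fin 2 → ℝ) :=
    LinearMap.equivProdOfSurjectiveOfIsCompl g Φ hg hΦ (by rw [hgk]; exact hC.symm)
  refine ⟨Θ.trans ((LinearEquiv.sumArrowLequivProdArrow (Fin n) (Fin 2) ℝ ℝ).symm.trans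
    (LinearEquiv.funCongrLeft ℝ ℝ finSumFinEquiv.symm)), fun x j => ?_⟩
  show ((LinearEquiv.sumArrowLequivProdArrow (Fin n) (Fin 2) ℝ ℝ).symm (g x, Φ x))
    (finSumFinEquiv.symm (Fin.natAdd n j)) = φ j x
  rw [finSumFinEquiv_symm_apply_natAdd]
  rfl

end BE01

/-- BE01: the flattening map may go to any space `F` of dimension `n + 2`, and `X` may correspond
to the common zero set of two affine functionals with independent linear parts. -/
theorem locFlat_of {n : ℕ} {X : Set (EuclideanSpace ℝ (Fin (n + 2)))}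
    {v : EuclideanSpace ℝ (Fin (n + 2))} {F : Type} [NormedAddCommGroup F] [NormedSpace ℝ F]
    [FiniteDimensional ℝ F] (hF : Module.finrank ℝ F = n + 2)
    (e : EuclideanSpace ℝ (Fin (n + 2)) ≃ F) (he : IsPLE e) (κ : Fin 2 → F →ᵃ[ℝ] ℝ)
    (hκ : LinearIndependent ℝ fun i => (κ i).linear) (δ : ℝ) (hδ : 0 < δ)
    (h : ∀ w ∈ Metric.ball v δ, (w ∈ X ↔ κ 0 (e w) = 0 ∧ κ 1 (e w) = 0)) : LocFlat X v := by
  obtain ⟨Λ, hΛ⟩ := exists_coord hF (fun i => (κ i).linear) hκ
  -- the constant vector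
  let c : Fin (n + 2) → ℝ := fun i => if hi : n ≤ (i : ℕ) then κ ⟨i - n, by omega⟩ 0 else 0
  let Λ' : F ≃ₗ[ℝ] EuclideanSpace ℝ (Fin (n + 2)) :=
    Λ.trans (EuclideanSpace.equiv (Fin (n + 2)) ℝ).symm.toLinearEquiv
  let c' : EuclideanSpace ℝ (Fin (n + 2)) := (EuclideanSpace.equiv (Fin (n + 2)) ℝ).symm c
  let A : F ≃ᵃ[ℝ] EuclideanSpace ℝ (Fin (n + 2)) :=
    Λ'.toAffineEquiv.trans (AffineEquiv.constVAdd ℝ _ c')
  have hA : ∀ y (j : Fin 2), A y (Fin.natAdd n j) = κ j y := by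
    intro y j
    have h1 : A y (Fin.natAdd n j) = c (Fin.natAdd n j) + Λ y (Fin.natAdd n j) := rfl
    have h2 : c (Fin.natAdd n j) = κ j 0 := by
      show (if hi : n ≤ ((Fin.natAdd n j : Fin (n + 2)) : ℕ) then
        κ ⟨((Fin.natAdd n j : Fin (n + 2)) : ℕ) - n, _⟩ 0 else 0) = κ j 0
      rw [dif_pos (by simp)]
      congr 2
      exact Fin.ext (by simp)
    have h3 : κ j y = (κ j).linear y + κ j 0 := by
      have := (κ j).map_vadd 0 y
      rw [vadd_eq_add, add_zero, vadd_eq_add] at this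
      exact this
    rw [h1, h2, hΛ, h3]
    exact add_comm _ _
  have hAe : IsPLE A.toEquiv := isPLE_affine A
  refine ⟨e.trans A.toEquiv, he.trans hAe, δ, hδ, fun w hw => ?_⟩
  rw [h w hw]
  have h1 : ∀ j : Fin 2, (e.trans A.toEquiv) w (Fin.natAdd n j) = κ j (e w) := fun j => hA (e w) j
  constructor
  · rintro ⟨h0, h2⟩ i hi
    obtain ⟨j, rfl⟩ : ∃ j : Fin 2, i = Fin.natAdd n j :=
      ⟨⟨i - n, by omega⟩, Fin.ext (by simp; omega)⟩
    rw [h1 j]
    fin_cases j
    · exact h0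
    · exact h2
  · intro h2
    refine ⟨?_, ?_⟩
    · rw [← h1 0]
      exact h2 _ (by simp)
    · rw [← h1 1]
      exact h2 _ (by simp)

end Pool.Agent.PolyKnots
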