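import Pool.Agent.W_MP_be6f00_gt.SigmaProj
import Pool.Agent.W_MP_be6f00_gt.PLb
import Pool.Agent.W_MP_be6f00_gt.Push
import Pool.Agent.W_MP_be6f00_gt.DataFacts

set_option autoImplicit false

open scoped ENNReal Topology RealInnerProductSpace
open Set

namespace Pool.Agent.PolyKnots.BE13

/-- The direction of the shear. -/
noncomputable def cvec (v : Fin 396) : EuclideanSpace ℝ (Fin 5) :=
  WithLp.toLp 2 ![0, 0, ((coord v 0 : ℤ) - 3 : ℝ) / 3, ((coord v 1 : ℤ) - 2 : ℝ) / 3,
    ((coord v 2 : ℤ) - 2 : ℝ) / 3]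

/-- `min |x| |y|` -/
noncomputable def mfun (x : EuclideanSpace ℝ (Fin 5)) : ℝ := min |x 0| |x 1|

theorem mfun_pl : IsPLOn mfun univ := by
  have hc : ∀ i : Fin 5, IsPLOn (fun x : EuclideanSpace ℝ (Fin 5) => x i) univ := by
    intro i
    exact isPL_affine (EuclideanSpace.proj (𝕜 := ℝ) i :
      EuclideanSpace ℝ (Fin 5) →L[ℝ] ℝ).toLinearMap.toAffineMap
  have hn : ∀ i : Fin 5, IsPLOn (fun x : EuclideanSpace ℝ (Fin 5) => -x i) univ := by
    intro i
    exact isPL_affine (-(EuclideanSpace.proj (𝕜 := ℝ) i :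
      EuclideanSpace ℝ (Fin 5) →L[ℝ] ℝ).toLinearMap).toAffineMap
  exact ((hc 0).max (hn 0)).min ((hc 1).max (hn 1))

theorem cvec0 (v : Fin 396) : cvec v 0 = 0 := rfl
theorem cvec1 (v : Fin 396) : cvec v 1 = 0 := rfl

theorem mfun_add (v : Fin 396) (x : EuclideanSpace ℝ (Fin 5)) (r : ℝ) :
    mfun (x + r • cvec v) = mfun x := by
  unfold mfun
  simp [cvec0, cvec1]

/-- The shear. -/
noncomputable def shear (v : Fin 396) : EuclideanSpace ℝ (Fin 5) ≃ EuclideanSpace ℝ (Fin 5) where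
  toFun x := x + mfun x • cvec v
  invFun x := x + mfun x • (-cvec v)
  left_inv := by
    intro x
    have h : mfun (x + mfun x • cvec v) = mfun x := mfun_add v x _
    show x + mfun x • cvec v + mfun (x + mfun x • cvec v) • (-cvec v) = x
    rw [h]; simp
  right_inv := by
    intro x
    have h : mfun (x + mfun x • (-cvec v)) = mfun x := by
      rw [smul_neg, ← neg_smul]; exact mfun_add v x _
    show x + mfun x • (-cvec v) + mfun (x + mfun x • (-cvec v)) • cvec v = x
    rw [h]; simp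

theorem shear_pl (v : Fin 396) : IsPLE (shear v) := by
  constructor
  · exact (isPL_affine (AffineMap.id ℝ (EuclideanSpace ℝ (Fin 5)))).add (mfun_pl.smul_const (cvec v))
  · exact (isPL_affine (AffineMap.id ℝ (EuclideanSpace ℝ (Fin 5)))).add
      (mfun_pl.smul_const (-cvec v))

/-- The index of the coordinate `p, q, r` in `ℝ⁵`. -/
def idx (k : Fin 3) : Fin 5 := Fin.natAdd 2 k

/-- The affine functional `x ↦ x_{k+2} - (coord v)_k`. -/
noncomputable def kap (v : Fin 396) (k : Fin 3) : EuclideanSpace ℝ (Fin 5) →ᵃ[ℝ] ℝ :=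
  (EuclideanSpace.proj (𝕜 := ℝ) (idx k) : EuclideanSpace ℝ (Fin 5) →L[ℝ] ℝ).toLinearMap.toAffineMap +
    AffineMap.const ℝ _ (-(coord v k.castSucc : ℝ))

theorem kap_apply (v : Fin 396) (k : Fin 3) (x : EuclideanSpace ℝ (Fin 5)) :
    kap v k x = x (idx k) - coord v k.castSucc := by
  simp [kap, sub_eq_add_neg]

theorem kap_linear (v : Fin 396) (k : Fin 3) (x : EuclideanSpace ℝ (Fin 5)) :
    (kap v k).linear x = x (idx k) := by
  simp [kap]

theorem proj_sub (v : Fin 396) (e : EuclideanSpace ℝ (Fin 5)) (hm : min |e 0| |e 1| < 3) (k : Fin 3) :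
    proj e k.castSucc - coord v k.castSucc = 3 / (3 - mfun e) * kap v k (shear v e) := by
  have h3 : (0 : ℝ) < 3 - mfun e := by unfold mfun; linarith
  rw [kap_apply]
  unfold proj
  rw [if_pos hm]
  show _ = 3 / (3 - mfun e) * ((e + mfun e • cvec v) (idx k) - _)
  fin_cases k
  · show 3 + 3 / (3 - mfun e) * (e 2 - 3) - (coord v 0 : ℝ) =
      3 / (3 - mfun e) * ((e 2 + mfun e * (((coord v 0 : ℤ) - 3 : ℝ) / 3)) - (coord v 0 : ℝ))
    field_simp; ring
  · show 2 + 3 / (3 - mfun e) * (e 3 - 2) - (coord v 1 : ℝ) =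
      3 / (3 - mfun e) * ((e 3 + mfun e * (((coord v 1 : ℤ) - 2 : ℝ) / 3)) - (coord v 1 : ℝ))
    field_simp; ring
  · show 2 + 3 / (3 - mfun e) * (e 4 - 2) - (coord v 2 : ℝ) =
      3 / (3 - mfun e) * ((e 4 + mfun e * (((coord v 2 : ℤ) - 2 : ℝ) / 3)) - (coord v 2 : ℝ))
    field_simp; ring

/-- The position of a binding vertex. -/
theorem pos_binding (z : {x : Fin 396 × Bool // tU x.1 = 0 → x.2 = true}) (hz : tU z.1.1 = 0) :
    posSigma (Sum.inl z) = WithLp.toLp 2 ![0, 0, (coord z.1.1 0 : ℝ), coord z.1.1 1, coord z.1.1 2] := by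
  unfold posSigma
  simp [hz]

theorem mfun_continuous : Continuous mfun := by
  unfold mfun; fun_prop

theorem shear_continuous (v : Fin 396) : Continuous (shear v) := by
  show Continuous fun x => x + mfun x • cvec v
  have := mfun_continuous
  fun_prop

theorem kap_continuous (v : Fin 396) (k : Fin 3) : Continuous fun x => kap v k (shear v x) := by
  have h : (fun x => kap v k (shear v x)) = fun x => (shear v x) (idx k) - coord v k.castSucc := by
    funext x; rw [kap_apply]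
  rw [h]
  have := shear_continuous v
  fun_prop

theorem eventually_good (v : Fin 396) (V : EuclideanSpace ℝ (Fin 5))
    (hV : V = WithLp.toLp 2 ![0, 0, (coord v 0 : ℝ), coord v 1, coord v 2]) :
    ∀ᶠ w in 𝓝 V, min |w 0| |w 1| < 3 ∧ |proj w 3| < 1 ∧
      ∀ k : Fin 3, |proj w k.castSucc - coord v k.castSucc| < 1 := by
  have hV0 : V 0 = 0 := by rw [hV]; rfl
  have hV1 : V 1 = 0 := by rw [hV]; rfl
  have hmV : mfun V = 0 := by unfold mfun; rw [hV0, hV1]; simp
  have hshV : shear v V = V := by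
    show V + mfun V • cvec v = V
    rw [hmV]; simp
  have hkV : ∀ k : Fin 3, kap v k (shear v V) = 0 := by
    intro k
    rw [hshV, kap_apply, hV]
    fin_cases k
    · show (coord v 0 : ℝ) - coord v 0 = 0
      ring
    · show (coord v 1 : ℝ) - coord v 1 = 0
      ring
    · show (coord v 2 : ℝ) - coord v 2 = 0
      ring
  have h1 : ∀ᶠ w in 𝓝 V, mfun w < 3 := by
    refine mfun_continuous.continuousAt.eventually_lt continuousAt_const ?_
    rw [hmV]; norm_num
  have hlam : ContinuousAt (fun w => 3 / (3 - mfun w)) V := by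
    refine continuousAt_const.div (continuousAt_const.sub mfun_continuous.continuousAt) ?_
    rw [hmV]; norm_num
  have h2 : ∀ᶠ w in 𝓝 V, |3 / (3 - mfun w) * (|w 0| - |w 1|)| < 1 := by
    have hc : ContinuousAt (fun w : EuclideanSpace ℝ (Fin 5) =>
        |3 / (3 - mfun w) * (|w 0| - |w 1|)|) V := by
      refine (hlam.mul ?_).abs
      fun_prop
    refine hc.eventually_lt continuousAt_const ?_
    rw [hV0, hV1]; simp
  have h3 : ∀ k : Fin 3, ∀ᶠ w in 𝓝 V, |3 / (3 - mfun w) * kap v k (shear v w)| < 1 := by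
    intro k
    have hc : ContinuousAt (fun w : EuclideanSpace ℝ (Fin 5) =>
        |3 / (3 - mfun w) * kap v k (shear v w)|) V :=
      (hlam.mul (kap_continuous v k).continuousAt).abs
    refine hc.eventually_lt continuousAt_const ?_
    rw [hkV]; simp
  filter_upwards [h1, h2, Filter.eventually_all.2 h3] with w a b c
  have a' : min |w 0| |w 1| < 3 := a
  refine ⟨a, ?_, fun k => ?_⟩
  · have : proj w 3 = 3 / (3 - mfun w) * (|w 0| - |w 1|) := by
      unfold proj
      rw [if_pos a']; rfl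
    rw [this]; exact b
  · rw [proj_sub v w a k]; exact c k

theorem key (v : Fin 396) (i j : Fin 3) (a b : ℤ)
    (hU : ∀ y : Fin 4 → ℝ, |y 3| < 1 → (∀ k : Fin 3, |y k.castSucc - coord v k.castSucc| < 1) →
      (y ∈ USet ↔
        (0 ≤ a * (y i.castSucc - coord v i.castSucc) ∧ ∀ k : Fin 3, k ≠ i →
          y k.castSucc = coord v k.castSucc) ∨
        (0 ≤ b * (y j.castSucc - coord v j.castSucc) ∧ ∀ k : Fin 3, k ≠ j →
          y k.castSucc = coord v k.castSucc)))
    (w : EuclideanSpace ℝ (Fin 5)) (h1 : min |w 0| |w 1| < 3) (h2 : |proj w 3| < 1)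
    (h3 : ∀ k : Fin 3, |proj w k.castSucc - coord v k.castSucc| < 1) :
    w ∈ SigmaSet ↔ (0 ≤ a * kap v i (shear v w) ∧ ∀ k : Fin 3, k ≠ i → kap v k (shear v w) = 0) ∨
      (0 ≤ b * kap v j (shear v w) ∧ ∀ k : Fin 3, k ≠ j → kap v k (shear v w) = 0) := by
  rw [mem_sigma_iff_proj w h1, hU _ h2 h3]
  have hl : 0 < 3 / (3 - mfun w) := by
    have : (0 : ℝ) < 3 - mfun w := by unfold mfun; linarith
    positivity
  have e1 : ∀ (c : ℤ) (k : Fin 3), 0 ≤ c * (proj w k.castSucc - coord v k.castSucc) ↔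
      0 ≤ c * kap v k (shear v w) := by
    intro c k
    rw [proj_sub v w h1 k]
    have : (c : ℝ) * (3 / (3 - mfun w) * kap v k (shear v w)) =
      3 / (3 - mfun w) * (c * kap v k (shear v w)) := by ring
    rw [this]
    exact mul_nonneg_iff_of_pos_left hl
  have e2 : ∀ k : Fin 3, proj w k.castSucc = coord v k.castSucc ↔ kap v k (shear v w) = 0 := by
    intro k
    rw [← sub_eq_zero, proj_sub v w h1 k]
    constructor
    · intro h
      rcases mul_eq_zero.1 h with h | h
      · exact absurd h hl.ne'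
      · exact h
    · intro h; rw [h, mul_zero]
  simp only [e1, e2]

theorem exists_pair_same : ∀ i : Fin 3, ∃ k0 k1 : Fin 3, k0 ≠ k1 ∧
    ∀ k, k ≠ i ↔ (k = k0 ∨ k = k1) := by decide

theorem exists_third : ∀ i j : Fin 3, i ≠ j → ∃ k : Fin 3, k ≠ i ∧ k ≠ j ∧
    (∀ k', k' ≠ i ↔ (k' = j ∨ k' = k)) ∧ (∀ k', k' ≠ j ↔ (k' = i ∨ k' = k)) := by decide

/-- basis vector in the direction `k` -/
noncomputable def bv (k : Fin 3) : EuclideanSpace ℝ (Fin 5) := EuclideanSpace.single (idx k) (1 : ℝ)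

theorem idx_inj {k l : Fin 3} (h : idx k = idx l) : k = l := by
  revert h; revert k l; decide

theorem kap_bv (v : Fin 396) (k l : Fin 3) : (kap v k).linear (bv l) = if k = l then 1 else 0 := by
  rw [kap_linear]
  unfold bv
  rw [PiLp.single_apply]
  by_cases h : k = l
  · rw [if_pos h, h, if_pos rfl]
  · rw [if_neg h, if_neg (fun h' => h (idx_inj h'))]

theorem union_case {i j k : Fin 3} (hik : ∀ k', k' ≠ i ↔ (k' = j ∨ k' = k))
    (hjk : ∀ k', k' ≠ j ↔ (k' = i ∨ k' = k)) (a b : ℝ) (ha : a = 1 ∨ a = -1) (hb : b = 1 ∨ b = -1)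
    (f : Fin 3 → ℝ) :
    ((0 ≤ a * f i ∧ ∀ k : Fin 3, k ≠ i → f k = 0) ∨ (0 ≤ b * f j ∧ ∀ k : Fin 3, k ≠ j → f k = 0)) ↔
      f k = 0 ∧ min (a * f i) (b * f j) = 0 := by
  have hbn : b ≠ 0 := by rcases hb with h | h <;> rw [h] <;> norm_num
  have han : a ≠ 0 := by rcases ha with h | h <;> rw [h] <;> norm_num
  have e1 : (∀ k' : Fin 3, k' ≠ i → f k' = 0) ↔ f j = 0 ∧ f k = 0 := by
    constructor
    · intro h; exact ⟨h j ((hik j).2 (Or.inl rfl)), h k ((hik k).2 (Or.inr rfl))⟩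
    · rintro ⟨h, h'⟩ k' hk'
      rcases (hik k').1 hk' with e | e
      · rw [e]; exact h
      · rw [e]; exact h'
  have e2 : (∀ k' : Fin 3, k' ≠ j → f k' = 0) ↔ f i = 0 ∧ f k = 0 := by
    constructor
    · intro h; exact ⟨h i ((hjk i).2 (Or.inl rfl)), h k ((hjk k).2 (Or.inr rfl))⟩
    · rintro ⟨h, h'⟩ k' hk'
      rcases (hjk k').1 hk' with e | e
      · rw [e]; exact h
      · rw [e]; exact h'
  rw [e1, e2]
  constructor
  · rintro (⟨h1, h2, h3⟩ | ⟨h1, h2, h3⟩)
    · refine ⟨h3, ?_⟩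
      rw [h2, mul_zero]; exact min_eq_right h1
    · refine ⟨h3, ?_⟩
      rw [h2, mul_zero]; exact min_eq_left h1
  · rintro ⟨h1, h2⟩
    rcases min_choice (a * f i) (b * f j) with h | h
    · rw [h] at h2
      right
      refine ⟨?_, (mul_eq_zero.1 h2).resolve_left han, h1⟩
      rw [min_eq_left_iff, h2] at h; exact h
    · rw [h] at h2
      left
      refine ⟨?_, (mul_eq_zero.1 h2).resolve_left hbn, h1⟩
      rw [min_eq_right_iff, h2] at h; exact h

end Pool.Agent.PolyKnots.BE13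

namespace Pool.Agent.PolyKnots

open BE13

theorem locFlat_binding (z : {x : Fin 396 × Bool // tU x.1 = 0 → x.2 = true}) (hz : tU z.1.1 = 0) :
    LocFlat (n := 3) SigmaSet (posSigma (Sum.inl z)) := by
  obtain ⟨i, j, a, b, ha, hb, hij, hU⟩ := USet_collar z.1.1 hz
  have hgood := eventually_good z.1.1 _ (pos_binding z hz)
  rw [Metric.eventually_nhds_iff_ball] at hgood
  obtain ⟨δ, hδ, hg⟩ := hgood
  have hkey : ∀ w ∈ Metric.ball (posSigma (Sum.inl z)) δ, w ∈ SigmaSet ↔ _ := fun w hw =>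
    key z.1.1 i j a b hU w (hg w hw).1 (hg w hw).2.1 (hg w hw).2.2
  have hF : Module.finrank ℝ (EuclideanSpace ℝ (Fin 5)) = 3 + 2 := by simp
  have har : (a : ℝ) = 1 ∨ (a : ℝ) = -1 := by
    rcases ha with h | h
    · left; rw [h]; norm_num
    · right; rw [h]; norm_num
  have hbr : (b : ℝ) = 1 ∨ (b : ℝ) = -1 := by
    rcases hb with h | h
    · left; rw [h]; norm_num
    · right; rw [h]; norm_num
  have haa : (a : ℝ) * a = 1 := by rcases har with h | h <;> rw [h] <;> norm_num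
  have hbb : (b : ℝ) * b = 1 := by rcases hbr with h | h <;> rw [h] <;> norm_num
  have han : (a : ℝ) ≠ 0 := by rcases har with h | h <;> rw [h] <;> norm_num
  by_cases h : i = j
  · subst h
    obtain ⟨k0, k1, hk, hk'⟩ := exists_pair_same i
    refine locFlat_of hF (shear z.1.1) (shear_pl z.1.1) ![kap z.1.1 k0, kap z.1.1 k1] ?_ δ hδ ?_
    · refine linIndep_pair _ (bv k0) (bv k1) ?_ ?_ ?_ ?_
      · show (kap z.1.1 k0).linear (bv k0) ≠ 0
        rw [kap_bv, if_pos rfl]; exact one_ne_zero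
      · show (kap z.1.1 k1).linear (bv k0) = 0
        rw [kap_bv, if_neg hk.symm]
      · show (kap z.1.1 k0).linear (bv k1) = 0
        rw [kap_bv, if_neg hk]
      · show (kap z.1.1 k1).linear (bv k1) ≠ 0
        rw [kap_bv, if_pos rfl]; exact one_ne_zero
    · intro w hw
      rw [hkey w hw]
      show _ ↔ kap z.1.1 k0 (shear z.1.1 w) = 0 ∧ kap z.1.1 k1 (shear z.1.1 w) = 0
      have hab : (a : ℝ) = -b := by rw [hij rfl]; push_cast; ring
      constructor
      · rintro (⟨_, h⟩ | ⟨_, h⟩)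
        · exact ⟨h k0 ((hk' k0).2 (Or.inl rfl)), h k1 ((hk' k1).2 (Or.inr rfl))⟩
        · exact ⟨h k0 ((hk' k0).2 (Or.inl rfl)), h k1 ((hk' k1).2 (Or.inr rfl))⟩
      · rintro ⟨h0, h1⟩
        have hall : ∀ k : Fin 3, k ≠ i → kap z.1.1 k (shear z.1.1 w) = 0 := by
          intro k hk
          rcases (hk' k).1 hk with e | e
          · rw [e]; exact h0
          · rw [e]; exact h1
        rcases le_total 0 ((a : ℝ) * kap z.1.1 i (shear z.1.1 w)) with h | h
        · exact Or.inl ⟨h, hall⟩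
        · refine Or.inr ⟨?_, hall⟩
          rw [hab] at h; linarith
  · obtain ⟨k, hki, hkj, hi, hj⟩ := exists_third i j h
    obtain ⟨e, he, he1, he2⟩ := exists_flatten (ι := Fin 2)
      ![(a : ℝ) • kap z.1.1 i, (b : ℝ) • kap z.1.1 j] 0 ((a : ℝ) • bv i + (b : ℝ) • bv j) (by
        intro l
        fin_cases l
        · show (a : ℝ) • (kap z.1.1 i).linear ((a : ℝ) • bv i + (b : ℝ) • bv j) = 1
          rw [map_add, map_smul, map_smul, kap_bv, kap_bv, if_pos rfl, if_neg h]
          simp [haa]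
        · show (b : ℝ) • (kap z.1.1 j).linear ((a : ℝ) • bv i + (b : ℝ) • bv j) = 1
          rw [map_add, map_smul, map_smul, kap_bv, kap_bv, if_pos rfl, if_neg (Ne.symm h)]
          simp [hbb])
    refine locFlat_of hF ((shear z.1.1).trans e) ((shear_pl z.1.1).trans he)
      ![kap z.1.1 k, (a : ℝ) • kap z.1.1 i] ?_ δ hδ ?_
    · refine linIndep_pair _ (bv k) (bv i) ?_ ?_ ?_ ?_
      · show (kap z.1.1 k).linear (bv k) ≠ 0
        rw [kap_bv, if_pos rfl]; exact one_ne_zero
      · show (a : ℝ) • (kap z.1.1 i).linear (bv k) = 0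
        rw [kap_bv, if_neg hki.symm, smul_zero]
      · show (kap z.1.1 k).linear (bv i) = 0
        rw [kap_bv, if_neg hki]
      · show (a : ℝ) • (kap z.1.1 i).linear (bv i) ≠ 0
        rw [kap_bv, if_pos rfl, smul_eq_mul, mul_one]; exact han
    · intro w hw
      rw [hkey w hw, union_case hi hj a b har hbr (fun k => kap z.1.1 k (shear z.1.1 w))]
      have hk0 : (kap z.1.1 k).linear ((a : ℝ) • bv i + (b : ℝ) • bv j) = 0 := by
        rw [map_add, map_smul, map_smul, kap_bv, kap_bv, if_neg hki, if_neg hkj]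
        simp
      have h1 := he1 (shear z.1.1 w)
      have h2 := he2 _ hk0 (shear z.1.1 w)
      show _ ↔ kap z.1.1 k (e (shear z.1.1 w)) = 0 ∧ ((a : ℝ) • kap z.1.1 i) (e (shear z.1.1 w)) = 0
      rw [h2]
      have h3 : ((a : ℝ) • kap z.1.1 i) (e (shear z.1.1 w)) =
          min ((a : ℝ) * kap z.1.1 i (shear z.1.1 w)) ((b : ℝ) * kap z.1.1 j (shear z.1.1 w)) := by
        refine Eq.trans h1 ?_
        refine le_antisymm (le_min ?_ ?_) ?_
        · exact Finset.inf'_le (fun l : Fin 2 =>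
            (![(a : ℝ) • kap z.1.1 i, (b : ℝ) • kap z.1.1 j] l) (shear z.1.1 w)) (Finset.mem_univ 0)
        · exact Finset.inf'_le (fun l : Fin 2 =>
            (![(a : ℝ) • kap z.1.1 i, (b : ℝ) • kap z.1.1 j] l) (shear z.1.1 w)) (Finset.mem_univ 1)
        · refine Finset.le_inf' _ _ fun l _ => ?_
          fin_cases l
          · exact min_le_left _ _
          · exact min_le_right _ _
      rw [h3]

end Pool.Agent.PolyKnots
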