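import Pool.Agent.W_MP_be6f00_gt.LocFlatConeAux
import Pool.Agent.W_MP_be6f00_gt.DataFacts

set_option autoImplicit false

/-! # BE11: `Σ` is locally flat at the four cone points -/

open Set
open scoped ENNReal Topology

namespace Pool.Agent.PolyKnots

open BE11 in
theorem locFlat_cone (q : Bool × Bool) : LocFlat (n := 3) SigmaSet (posSigma (Sum.inr q)) := by
  have h := (locFlat_pp USet_unknot).map (refl5 q.1 q.2)
  rw [refl5_image] at h
  convert h using 1
  ext i
  fin_cases i
  · rfl
  · rfl
  · rfl
  · rfl
  · rfl

end Pool.Agent.PolyKnots
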