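import Pool.Agent.W_MP_be6f00_gt.PLb
import Pool.Agent.W_MP_be6f00_gt.Push
import Pool.Agent.W_MP_be6f00_gt.Model
import Pool.Agent.W_MP_be6f00_gt.DataFacts

set_option autoImplicit false

/-! # BE12: local flatness of `Σ` at the vertices of the pages -/

open Set
open scoped ENNReal Topology

namespace Pool.Agent.PolyKnots

namespace BE12

/-! ### PL functions -/

section
variable {E F : Type} [NormedAddCommGroup E] [NormedSpace ℝ E] [FiniteDimensional ℝ E]
  [NormedAddCommGroup F] [NormedSpace ℝ F] [FiniteDimensional ℝ F]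

theorem isPL_sum {ι : Type} [Fintype ι] {f : ι → E → F} (hf : ∀ i, IsPLOn (f i) univ) :
    IsPLOn (fun x => ∑ i, f i x) univ := by
  classical
  have key : ∀ s : Finset ι, IsPLOn (fun x => ∑ i ∈ s, f i x) univ := by
    intro s
    induction s using Finset.induction_on with
    | empty => simpa using isPL_const (E := E) (0 : F)
    | insert a s ha ih => simpa only [Finset.sum_insert ha] using (hf a).add ih
  exact key _

theorem isPL_pi {ι : Type} [Fintype ι] {f : E → ι → ℝ}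
    (hf : ∀ i, IsPLOn (fun x => f x i) univ) : IsPLOn f univ := by
  classical
  have h := isPL_sum fun i => (hf i).smul_const (Pi.single i (1 : ℝ) : ι → ℝ)
  have h2 : f = fun x => ∑ i, f x i • (Pi.single i (1 : ℝ) : ι → ℝ) := by
    funext x
    ext j
    rw [Finset.sum_apply]
    simp [Pi.single_apply]
  rw [h2]
  exact h

theorem isPL_abs {f : E → ℝ} (hf : IsPLOn f univ) : IsPLOn (fun x => |f x|) univ :=
  hf.max hf.neg

theorem isPL_mul_const {f : E → ℝ} (hf : IsPLOn f univ) (c : ℝ) :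
    IsPLOn (fun x => f x * c) univ := hf.smul_const c

theorem isPL_const_mul {f : E → ℝ} (hf : IsPLOn f univ) (c : ℝ) :
    IsPLOn (fun x => c * f x) univ := hf.const_smul c

theorem isPL_coord {m : ℕ} (i : Fin m) :
    IsPLOn (fun x : EuclideanSpace ℝ (Fin m) => x i) univ :=
  isPL_linear (EuclideanSpace.projₗ (𝕜 := ℝ) i)

theorem isPL_euclid {m : ℕ} {f : E → EuclideanSpace ℝ (Fin m)}
    (hf : ∀ i, IsPLOn (fun x => f x i) univ) : IsPLOn f univ := by
  have h : IsPLOn (fun x => (fun i => f x i : Fin m → ℝ)) univ := isPL_pi hf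
  exact (isPL_linear (EuclideanSpace.equiv (Fin m) ℝ).symm.toLinearEquiv.toLinearMap).comp h

theorem isPL_apply {ι : Type} [Fintype ι] {f : E → ι → ℝ} (hf : IsPLOn f univ) (i : ι) :
    IsPLOn (fun x => f x i) univ :=
  (isPL_linear (LinearMap.proj i : (ι → ℝ) →ₗ[ℝ] ℝ)).comp hf

end

/-! ### The barycentric coordinates of the standard tetrahedron -/

/-- Coordinates of the second factor. -/
def pr (i : Fin 4) : ℝ × (Fin 4 → ℝ) →ₗ[ℝ] ℝ :=
  (LinearMap.proj (R := ℝ) (φ := fun _ : Fin 4 => ℝ) i) ∘ₗ LinearMap.snd ℝ ℝ (Fin 4 → ℝ)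

/-- The four barycentric coordinates (on `ℝ × ℝ⁴`). -/
noncomputable def lam (i : Fin 4) : ℝ × (Fin 4 → ℝ) →ᵃ[ℝ] ℝ :=
  if i = 3 then AffineMap.const ℝ _ 1 - (pr 0 + pr 1 + pr 2).toAffineMap
  else (pr i).toAffineMap

theorem lam_apply (i : Fin 4) (z : ℝ × (Fin 4 → ℝ)) :
    lam i z = if i = 3 then 1 - (z.2 0 + z.2 1 + z.2 2) else z.2 i := by
  unfold lam
  split_ifs <;> rfl

theorem lam_linear (i : Fin 4) (z : ℝ × (Fin 4 → ℝ)) :
    (lam i).linear z = if i = 3 then - (z.2 0 + z.2 1 + z.2 2) else z.2 i := by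
  unfold lam
  split_ifs
  · show (0 : ℝ) - (z.2 0 + z.2 1 + z.2 2) = - (z.2 0 + z.2 1 + z.2 2)
    rw [zero_sub]
  · rfl

/-- The last coordinate. -/
noncomputable def kap : ℝ × (Fin 4 → ℝ) →ᵃ[ℝ] ℝ := (pr 3).toAffineMap

theorem mem_tetBd (z : ℝ × (Fin 4 → ℝ)) : z.2 ∈ tetBd ↔
    z.2 3 = 0 ∧ (∀ i, 0 ≤ lam i z) ∧ ∃ i, lam i z = 0 := by
  have h0 : lam 0 z = z.2 0 := by rw [lam_apply, if_neg (by decide)]
  have h1 : lam 1 z = z.2 1 := by rw [lam_apply, if_neg (by decide)]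
  have h2 : lam 2 z = z.2 2 := by rw [lam_apply, if_neg (by decide)]
  have h3 : lam 3 z = 1 - z.2 0 - z.2 1 - z.2 2 := by rw [lam_apply, if_pos rfl]; ring
  show z.2 3 = 0 ∧ min (min (z.2 0) (z.2 1)) (min (z.2 2) (1 - z.2 0 - z.2 1 - z.2 2)) = 0 ↔ _
  rw [← h3, ← h2, ← h1, ← h0]
  refine and_congr_right fun _ => ?_
  constructor
  · intro h
    have hle := h.ge
    rw [le_min_iff, le_min_iff, le_min_iff] at hle
    obtain ⟨⟨a0, a1⟩, a2, a3⟩ := hle
    refine ⟨fun i => by fin_cases i <;> assumption, ?_⟩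
    rcases min_choice (min (lam 0 z) (lam 1 z)) (min (lam 2 z) (lam 3 z)) with h' | h'
    · rw [h'] at h
      rcases min_choice (lam 0 z) (lam 1 z) with h'' | h''
      · exact ⟨0, h'' ▸ h⟩
      · exact ⟨1, h'' ▸ h⟩
    · rw [h'] at h
      rcases min_choice (lam 2 z) (lam 3 z) with h'' | h''
      · exact ⟨2, h'' ▸ h⟩
      · exact ⟨3, h'' ▸ h⟩
  · rintro ⟨h, i, hi⟩
    refine le_antisymm ?_ (le_min (le_min (h 0) (h 1)) (le_min (h 2) (h 3)))
    rw [← hi]
    fin_cases i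
    · exact (min_le_left _ _).trans (min_le_left _ _)
    · exact (min_le_left _ _).trans (min_le_right _ _)
    · exact (min_le_right _ _).trans (min_le_left _ _)
    · exact (min_le_right _ _).trans (min_le_right _ _)

theorem exists_dir (P : Fin 4 → Prop) (h : ∃ k, ¬ P k) :
    ∃ d : Fin 4 → ℝ, (∀ i, P i → (lam i).linear (0, d) = 1) ∧ d 3 = 0 := by
  obtain ⟨k, hk⟩ := h
  have key : ∀ d : Fin 4 → ℝ, (k ≠ 0 → d 0 = 1) → (k ≠ 1 → d 1 = 1) → (k ≠ 2 → d 2 = 1) →
      (k ≠ 3 → d 0 + d 1 + d 2 = -1) → ∀ i, P i → (lam i).linear (0, d) = 1 := by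
    intro d h0 h1 h2 h3 i hi
    have hik : k ≠ i := by rintro rfl; exact hk hi
    rw [lam_linear]
    by_cases hi3 : i = 3
    · subst hi3
      rw [if_pos rfl]
      show -(d 0 + d 1 + d 2) = 1
      rw [h3 hik, neg_neg]
    · rw [if_neg hi3]
      show d i = 1
      fin_cases i
      · exact h0 hik
      · exact h1 hik
      · exact h2 hik
      · exact absurd rfl hi3
  have hk' : k = 0 ∨ k = 1 ∨ k = 2 ∨ k = 3 := by fin_cases k <;> simp
  rcases hk' with rfl | rfl | rfl | rfl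
  · exact ⟨![-3, 1, 1, 0], key _ (fun h => absurd rfl h) (fun _ => rfl) (fun _ => rfl)
      (fun _ => by show (-3 : ℝ) + 1 + 1 = -1; norm_num), rfl⟩
  · exact ⟨![1, -3, 1, 0], key _ (fun _ => rfl) (fun h => absurd rfl h) (fun _ => rfl)
      (fun _ => by show (1 : ℝ) + -3 + 1 = -1; norm_num), rfl⟩
  · exact ⟨![1, 1, -3, 0], key _ (fun _ => rfl) (fun _ => rfl) (fun h => absurd rfl h)
      (fun _ => by show (1 : ℝ) + 1 + -3 = -1; norm_num), rfl⟩
  · exact ⟨![1, 1, 1, 0], key _ (fun _ => rfl) (fun _ => rfl) (fun _ => rfl)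
      (fun h => absurd rfl h), rfl⟩

/-- If `X` is, near `v`, the preimage of `ℝ × U` under a PL homeomorphism, then `X` is locally
flat at `v`. -/
theorem core {X : Set (EuclideanSpace ℝ (Fin 5))} {v : EuclideanSpace ℝ (Fin 5)}
    (G : EuclideanSpace ℝ (Fin 5) ≃ ℝ × (Fin 4 → ℝ)) (hG : IsPLE G) (hGv : (G v).2 ∈ USet)
    (hX : ∀ᶠ e in 𝓝 v, (e ∈ X ↔ (G e).2 ∈ USet)) : LocFlat (n := 3) X v := by
  classical
  obtain ⟨Ψ, hΨ, hU⟩ := USet_unknot
  have hmem : ∀ x, x ∈ USet ↔ Ψ x ∈ tetBd := by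
    intro x
    rw [← hU]
    exact (Ψ.injective.mem_set_image).symm
  -- the map `(x, u) ↦ (x, Ψ u)`
  let Q : (ℝ × (Fin 4 → ℝ)) ≃ (ℝ × (Fin 4 → ℝ)) := (Equiv.refl ℝ).prodCongr Ψ
  have hQ : IsPLE Q := by
    refine ⟨?_, ?_⟩
    · show IsPLOn (fun p : ℝ × (Fin 4 → ℝ) => (p.1, Ψ p.2)) univ
      exact isPL_id.fst.prodMk (hΨ.pl.pl.comp isPL_id.snd)
    · show IsPLOn (fun p : ℝ × (Fin 4 → ℝ) => (p.1, Ψ.symm p.2)) univ
      exact isPL_id.fst.prodMk (hΨ.pl.pl_symm.comp isPL_id.snd)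
  have hGQ : IsPLE (G.trans Q) := hG.trans hQ
  have hcont : Continuous (G.trans Q) := hGQ.pl.continuous
  have hGQ2 : ∀ e, ((G.trans Q) e).2 = Ψ (G e).2 := fun e => rfl
  -- the active functionals
  obtain ⟨h3, hpos, ia, hia⟩ := (mem_tetBd ((G.trans Q) v)).1 ((hmem _).1 hGv)
  let A : Type := {i : Fin 4 // lam i ((G.trans Q) v) = 0}
  have : Fintype A := inferInstance
  have : Nonempty A := ⟨⟨ia, hia⟩⟩
  -- the direction
  obtain ⟨d, hd', hd3⟩ := exists_dir (fun i => lam i ((G.trans Q) v) = 0) (by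
    by_contra hne
    push Not at hne
    have e0 := hne 0
    have e1 := hne 1
    have e2 := hne 2
    have e3 := hne 3
    rw [lam_apply, if_neg (by decide)] at e0 e1 e2
    rw [lam_apply, if_pos rfl, e0, e1, e2] at e3
    norm_num at e3)
  have hd : ∀ i : A, (lam i.1).linear (0, d) = 1 := fun i => hd' i.1 i.2
  obtain ⟨f, hf, hfmin, hfκ⟩ := exists_flatten (fun i : A => lam i.1) ⟨ia, hia⟩ (0, d) hd
  have hkap : kap.linear (0, d) = 0 := hd3
  -- near `v` the inactive functionals are positive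
  have hnear : ∀ᶠ e in 𝓝 v, ∀ i, lam i ((G.trans Q) v) ≠ 0 → 0 < lam i ((G.trans Q) e) := by
    rw [Filter.eventually_all]
    intro i
    by_cases hi : lam i ((G.trans Q) v) = 0
    · exact Filter.Eventually.of_forall fun e h => absurd hi h
    · have hc : Continuous fun e => lam i ((G.trans Q) e) :=
        ((lam i).continuous_of_finiteDimensional).comp hcont
      have hp : 0 < lam i ((G.trans Q) v) := lt_of_le_of_ne (hpos i) (Ne.symm hi)
      filter_upwards [continuousAt_const.eventually_lt hc.continuousAt hp] with e he _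
      exact he
  obtain ⟨δ, hδ, hball⟩ := Metric.eventually_nhds_iff_ball.1 (hX.and hnear)
  have hF : Module.finrank ℝ (ℝ × (Fin 4 → ℝ)) = 3 + 2 := by
    rw [Module.finrank_prod, Module.finrank_self, Module.finrank_fin_fun]
  have hind : LinearIndependent ℝ fun i : Fin 2 => ((![kap, lam ia] : Fin 2 → _) i).linear := by
    have : (fun i : Fin 2 => ((![kap, lam ia] : Fin 2 → _) i).linear) =
        ![kap.linear, (lam ia).linear] := by
      ext i : 1
      fin_cases i <;> rfl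
    rw [this, LinearIndependent.pair_iff]
    intro s t hst
    have e1 : s * kap.linear (0, Pi.single 3 1) + t * (lam ia).linear (0, Pi.single 3 1) = 0 :=
      congrArg (fun φ => φ ((0, Pi.single 3 1) : ℝ × (Fin 4 → ℝ))) hst
    have e2 : s * kap.linear (0, d) + t * (lam ia).linear (0, d) = 0 :=
      congrArg (fun φ => φ ((0, d) : ℝ × (Fin 4 → ℝ))) hst
    have e3 : kap.linear ((0, Pi.single 3 1) : ℝ × (Fin 4 → ℝ)) = 1 := by
      show (Pi.single (3 : Fin 4) (1 : ℝ) : Fin 4 → ℝ) 3 = 1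
      simp
    rw [hkap, hd ⟨ia, hia⟩, mul_zero, zero_add, mul_one] at e2
    rw [e2, zero_mul, add_zero, e3, mul_one] at e1
    exact ⟨e1, e2⟩
  refine locFlat_of hF ((G.trans Q).trans f) (hGQ.trans hf) ![kap, lam ia] hind δ hδ ?_
  intro e he
  obtain ⟨hXe, hne⟩ := hball e he
  rw [hXe, hmem, ← hGQ2, mem_tetBd]
  show _ ↔ kap (f ((G.trans Q) e)) = 0 ∧ lam ia (f ((G.trans Q) e)) = 0
  rw [hfκ kap hkap, hfmin]
  refine and_congr_right fun _ => ?_
  constructor
  · rintro ⟨h, i, hi⟩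
    have hiA : lam i ((G.trans Q) v) = 0 := by
      by_contra hne'
      exact (hne i hne').ne' hi
    refine le_antisymm ?_ (Finset.le_inf' _ _ fun j _ => h j.1)
    exact (Finset.inf'_le (fun j : A => lam j.1 ((G.trans Q) e))
      (Finset.mem_univ ⟨i, hiA⟩)).trans hi.le
  · intro h
    refine ⟨fun i => ?_, ?_⟩
    · by_cases hi : lam i ((G.trans Q) v) = 0
      · exact h.ge.trans
          (Finset.inf'_le (fun j : A => lam j.1 ((G.trans Q) e)) (Finset.mem_univ ⟨i, hi⟩))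
      · exact (hne i hi).le
    · obtain ⟨j, _, hj⟩ := Finset.exists_mem_eq_inf' (Finset.univ_nonempty (α := A))
        (fun j : A => lam j.1 ((G.trans Q) e))
      exact ⟨j.1, hj ▸ h⟩

/-! ### Conicality of `U` -/

theorem isPolyhedral_sq (a : List ℤ) (i j : ℕ) : IsPolyhedral (sqSet a i j) := by
  let c : Fin 4 → ℝ := fun k => ((a.getD k 0 : ℤ) : ℝ)
  let b : Fin 4 → ℝ := fun k => if (k : ℕ) = i ∨ (k : ℕ) = j then 1 else 0
  let p : Fin 4 → ((Fin 4 → ℝ) →ᵃ[ℝ] ℝ) := fun k =>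
    (LinearMap.proj (R := ℝ) (φ := fun _ : Fin 4 => ℝ) k).toAffineMap
  refine ⟨Fin 4 × Bool, inferInstance, fun q => if q.2 then p q.1 - AffineMap.const ℝ _ (c q.1)
    else AffineMap.const ℝ _ (c q.1 + b q.1) - p q.1, ?_⟩
  ext y
  have h1 : ∀ k, (p k - AffineMap.const ℝ _ (c k) : (Fin 4 → ℝ) →ᵃ[ℝ] ℝ) y = y k - c k :=
    fun k => rfl
  have h2 : ∀ k, (AffineMap.const ℝ _ (c k + b k) - p k : (Fin 4 → ℝ) →ᵃ[ℝ] ℝ) y =
      c k + b k - y k := fun k => rfl
  constructor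
  · rintro hy ⟨k, t⟩
    obtain ⟨hk1, hk2⟩ := hy k
    cases t
    · show 0 ≤ (if (false : Bool) = true then p k - AffineMap.const ℝ _ (c k)
        else AffineMap.const ℝ _ (c k + b k) - p k : (Fin 4 → ℝ) →ᵃ[ℝ] ℝ) y
      rw [if_neg (by decide), h2]
      exact sub_nonneg.2 hk2
    · show 0 ≤ (if (true : Bool) = true then p k - AffineMap.const ℝ _ (c k)
        else AffineMap.const ℝ _ (c k + b k) - p k : (Fin 4 → ℝ) →ᵃ[ℝ] ℝ) y
      rw [if_pos rfl, h1]
      exact sub_nonneg.2 hk1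
  · intro hy k
    have h3 : 0 ≤ (if (true : Bool) = true then p k - AffineMap.const ℝ _ (c k)
        else AffineMap.const ℝ _ (c k + b k) - p k : (Fin 4 → ℝ) →ᵃ[ℝ] ℝ) y := hy (k, true)
    have h4 : 0 ≤ (if (false : Bool) = true then p k - AffineMap.const ℝ _ (c k)
        else AffineMap.const ℝ _ (c k + b k) - p k : (Fin 4 → ℝ) →ᵃ[ℝ] ℝ) y := hy (k, false)
    rw [if_pos rfl, h1] at h3
    rw [if_neg (by decide), h2] at h4
    exact ⟨sub_nonneg.1 h3, sub_nonneg.1 h4⟩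

theorem USet_conical (u : Fin 4 → ℝ) : ∃ δ > 0, ∀ w : Fin 4 → ℝ, ‖w‖ < δ →
    ∀ t ∈ Ioc (0 : ℝ) 1, (u + t • w ∈ USet ↔ u + w ∈ USet) := by
  have hfin : Finite {s // s ∈ sqs0 ++ sqs1} := (List.finite_toSet (sqs0 ++ sqs1)).to_subtype
  have hU : USet = ⋃ s : {s // s ∈ sqs0 ++ sqs1}, sqSet s.1.1 s.1.2.1 s.1.2.2 := by
    ext y
    rw [mem_iUnion]
    constructor
    · rintro ⟨s, hs, hy⟩
      exact ⟨⟨s, hs⟩, hy⟩
    · rintro ⟨⟨s, hs⟩, hy⟩
      exact ⟨s, hs, hy⟩
  rw [hU]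
  exact conical_union (fun s => isPolyhedral_sq _ _ _) u

theorem latPos_mem (v : Fin 396) : latPos (coord v) ∈ USet := by
  rw [← body_KU]
  refine mem_iUnion₂.2 ⟨{v}, KU.vertex v, subset_convexHull ℝ _ ⟨v, ?_, rfl⟩⟩
  simp

/-! ### `Σ` in terms of `U` -/

/-- The apex, projected. -/
def w0 : Fin 4 → ℝ := ![3, 2, 2, 0]

theorem sigma_iff (e : EuclideanSpace ℝ (Fin 5)) {m : ℝ} (hm : m = min |e 0| |e 1|)
    (hm3 : m < 3) : e ∈ SigmaSet ↔
      (fun k => w0 k + (1 / (1 - m / 3)) * (![e 2, e 3, e 4, |e 0| - |e 1|] k - w0 k)) ∈ USet := by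
  have hs0 : 0 < 1 - m / 3 := by linarith
  have hm0 : 0 ≤ m := by rw [hm]; exact le_min (abs_nonneg _) (abs_nonneg _)
  constructor
  · rintro ⟨s, hs, u, hu, h0, h1, h2, h3, h4⟩
    have hms : m = 3 * (1 - s) ∧ |e 0| - |e 1| = s * u 3 := by
      rcases le_total 0 (u 3) with h | h
      · rw [max_eq_left h] at h0
        rw [max_eq_right (by linarith)] at h1
        refine ⟨?_, by rw [h0, h1]; ring⟩
        rw [hm, h0, h1, min_eq_right]
        · ring
        · have := mul_nonneg hs.1 h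
          linarith
      · rw [max_eq_right h] at h0
        rw [max_eq_left (by linarith)] at h1
        refine ⟨?_, by rw [h0, h1]; ring⟩
        rw [hm, h0, h1, min_eq_left]
        · ring
        · have := mul_nonneg hs.1 (neg_nonneg.2 h)
          linarith
    obtain ⟨hms, hd⟩ := hms
    have hs1 : 1 - m / 3 = s := by rw [hms]; ring
    rw [hs1] at hs0 ⊢
    have hs' : s ≠ 0 := hs0.ne'
    convert hu using 1
    funext k
    fin_cases k
    · show (3 : ℝ) + 1 / s * (e 2 - 3) = u 0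
      rw [h2]; field_simp; ring
    · show (2 : ℝ) + 1 / s * (e 3 - 2) = u 1
      rw [h3]; field_simp; ring
    · show (2 : ℝ) + 1 / s * (e 4 - 2) = u 2
      rw [h4]; field_simp; ring
    · show (0 : ℝ) + 1 / s * (|e 0| - |e 1| - 0) = u 3
      rw [hd]; field_simp; ring
  · intro hu
    have key : (1 - m / 3) * (1 / (1 - m / 3)) = 1 := mul_one_div_cancel hs0.ne'
    refine ⟨1 - m / 3, ⟨hs0.le, by linarith⟩, _, hu, ?_, ?_, ?_, ?_, ?_⟩
    · show |e 0| = (1 - (1 - m / 3)) * 3 +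
        (1 - m / 3) * max (0 + 1 / (1 - m / 3) * (|e 0| - |e 1| - 0)) 0
      have e1 : (1 - m / 3) * max (0 + 1 / (1 - m / 3) * (|e 0| - |e 1| - 0)) 0 =
          max (|e 0| - |e 1|) 0 := by
        rw [mul_max_of_nonneg _ _ hs0.le, mul_zero]
        congr 1
        linear_combination (|e 0| - |e 1|) * key
      rw [e1]
      rcases le_total |e 0| |e 1| with h | h
      · rw [max_eq_right (by linarith), hm, min_eq_left h]; ring
      · rw [max_eq_left (by linarith), hm, min_eq_right h]; ring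
    · show |e 1| = (1 - (1 - m / 3)) * 3 +
        (1 - m / 3) * max (-(0 + 1 / (1 - m / 3) * (|e 0| - |e 1| - 0))) 0
      have e1 : (1 - m / 3) * max (-(0 + 1 / (1 - m / 3) * (|e 0| - |e 1| - 0))) 0 =
          max (|e 1| - |e 0|) 0 := by
        rw [mul_max_of_nonneg _ _ hs0.le, mul_zero]
        congr 1
        linear_combination (|e 1| - |e 0|) * key
      rw [e1]
      rcases le_total |e 0| |e 1| with h | h
      · rw [max_eq_left (by linarith), hm, min_eq_left h]; ring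
      · rw [max_eq_right (by linarith), hm, min_eq_right h]; ring
    · show e 2 = (1 - (1 - m / 3)) * 3 + (1 - m / 3) * (3 + 1 / (1 - m / 3) * (e 2 - 3))
      linear_combination -(e 2 - 3) * key
    · show e 3 = (1 - (1 - m / 3)) * 2 + (1 - m / 3) * (2 + 1 / (1 - m / 3) * (e 3 - 2))
      linear_combination -(e 3 - 2) * key
    · show e 4 = (1 - (1 - m / 3)) * 2 + (1 - m / 3) * (2 + 1 / (1 - m / 3) * (e 4 - 2))
      linear_combination -(e 4 - 2) * key

/-! ### The shear -/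

/-- The shear `(x, y, z) ↦ (x, u₀ + w')`. -/
noncomputable def shear (σ τ : ℝ) (hσ : σ * σ = 1) (hτ : τ * τ = 1) (u : Fin 4 → ℝ) :
    EuclideanSpace ℝ (Fin 5) ≃ ℝ × (Fin 4 → ℝ) where
  toFun e := (e 0, fun k => ![e 2, e 3, e 4, τ * (σ * e 1 - |e 0|)] k - |e 0| / 3 * (w0 k - u k))
  invFun p := WithLp.toLp 2 ![p.1, σ * (τ * (p.2 3 + |p.1| / 3 * (w0 3 - u 3)) + |p.1|),
    p.2 0 + |p.1| / 3 * (w0 0 - u 0), p.2 1 + |p.1| / 3 * (w0 1 - u 1),
    p.2 2 + |p.1| / 3 * (w0 2 - u 2)]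
  left_inv := by
    intro e
    ext i
    fin_cases i
    · rfl
    · show σ * (τ * (τ * (σ * e 1 - |e 0|) - |e 0| / 3 * (w0 3 - u 3) +
        |e 0| / 3 * (w0 3 - u 3)) + |e 0|) = e 1
      linear_combination (σ * σ * e 1 - σ * |e 0|) * hτ + e 1 * hσ
    · show e 2 - |e 0| / 3 * (w0 0 - u 0) + |e 0| / 3 * (w0 0 - u 0) = e 2
      ring
    · show e 3 - |e 0| / 3 * (w0 1 - u 1) + |e 0| / 3 * (w0 1 - u 1) = e 3
      ring
    · show e 4 - |e 0| / 3 * (w0 2 - u 2) + |e 0| / 3 * (w0 2 - u 2) = e 4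
      ring
  right_inv := by
    rintro ⟨x, c⟩
    refine Prod.ext rfl ?_
    funext k
    fin_cases k
    · show c 0 + |x| / 3 * (w0 0 - u 0) - |x| / 3 * (w0 0 - u 0) = c 0
      ring
    · show c 1 + |x| / 3 * (w0 1 - u 1) - |x| / 3 * (w0 1 - u 1) = c 1
      ring
    · show c 2 + |x| / 3 * (w0 2 - u 2) - |x| / 3 * (w0 2 - u 2) = c 2
      ring
    · show τ * (σ * (σ * (τ * (c 3 + |x| / 3 * (w0 3 - u 3)) + |x|)) - |x|) -
        |x| / 3 * (w0 3 - u 3) = c 3
      linear_combination (τ * (τ * (c 3 + |x| / 3 * (w0 3 - u 3)) + |x|)) * hσ +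
        (c 3 + |x| / 3 * (w0 3 - u 3)) * hτ

theorem shear_pl (σ τ : ℝ) (hσ : σ * σ = 1) (hτ : τ * τ = 1) (u : Fin 4 → ℝ) :
    IsPLE (shear σ τ hσ hτ u) := by
  have hc : ∀ i : Fin 5, IsPLOn (fun e : EuclideanSpace ℝ (Fin 5) => e i) univ := isPL_coord
  constructor
  · refine (hc 0).prodMk (isPL_pi fun k => ?_)
    have habs : IsPLOn (fun e : EuclideanSpace ℝ (Fin 5) => |e 0| / 3 * (w0 k - u k)) univ := by
      have := isPL_mul_const (isPL_mul_const (isPL_abs (hc 0)) (3⁻¹)) (w0 k - u k)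
      simpa only [div_eq_mul_inv] using this
    refine IsPLOn.sub ?_ habs
    fin_cases k
    · exact hc 2
    · exact hc 3
    · exact hc 4
    · show IsPLOn (fun e : EuclideanSpace ℝ (Fin 5) => τ * (σ * e 1 - |e 0|)) univ
      exact isPL_const_mul ((isPL_const_mul (hc 1) σ).sub (isPL_abs (hc 0))) τ
  · have hx : IsPLOn (fun p : ℝ × (Fin 4 → ℝ) => p.1) univ := isPL_id.fst
    have hp : ∀ k : Fin 4, IsPLOn (fun p : ℝ × (Fin 4 → ℝ) => p.2 k) univ := fun k =>
      isPL_apply isPL_id.snd k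
    have habs : ∀ k : Fin 4,
        IsPLOn (fun p : ℝ × (Fin 4 → ℝ) => p.2 k + |p.1| / 3 * (w0 k - u k)) univ := by
      intro k
      have := isPL_mul_const (isPL_mul_const (isPL_abs hx) (3⁻¹)) (w0 k - u k)
      refine IsPLOn.add (hp k) ?_
      simpa only [div_eq_mul_inv] using this
    refine isPL_euclid fun i => ?_
    fin_cases i
    · exact hx
    · exact isPL_const_mul ((isPL_const_mul (habs 3) τ).add (isPL_abs hx)) σ
    · exact habs 0
    · exact habs 1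
    · exact habs 2

/-- The vertex, with the small coordinate first. -/
noncomputable def vtx (σ T : ℝ) (u : Fin 4 → ℝ) : EuclideanSpace ℝ (Fin 5) :=
  WithLp.toLp 2 ![0, σ * T, u 0, u 1, u 2]

theorem shear_vtx (σ τ T : ℝ) (hσ : σ * σ = 1) (hτ : τ * τ = 1) (u : Fin 4 → ℝ)
    (hu : u 3 = τ * T) : (shear σ τ hσ hτ u (vtx σ T u)).2 = u := by
  funext k
  have h0 : |(vtx σ T u) 0| = 0 := abs_zero
  have h1 : (shear σ τ hσ hτ u (vtx σ T u)).2 k =
    ![u 0, u 1, u 2, τ * (σ * (σ * T) - |(vtx σ T u) 0|)] k -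
      |(vtx σ T u) 0| / 3 * (w0 k - u k) := rfl
  rw [h1, h0, zero_div, zero_mul, sub_zero, sub_zero]
  fin_cases k
  · rfl
  · rfl
  · rfl
  · show τ * (σ * (σ * T)) = u 3
    rw [hu, ← mul_assoc σ σ T, hσ, one_mul]

theorem loc_iff (σ τ T : ℝ) (hσ : σ * σ = 1) (hτ : τ * τ = 1) (u : Fin 4 → ℝ)
    (hu : u 3 = τ * T) : ∀ᶠ e in 𝓝 (vtx σ T u),
    ((fun k => w0 k + (1 / (1 - |e 0| / 3)) *
      (![e 2, e 3, e 4, τ * (σ * e 1 - |e 0|)] k - w0 k)) ∈ USet ↔
    (shear σ τ hσ hτ u e).2 ∈ USet) := by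
  obtain ⟨δ, hδ, hcon⟩ := USet_conical u
  have hG : Continuous (shear σ τ hσ hτ u) := (shear_pl σ τ hσ hτ u).pl.continuous
  have hs : Continuous fun e : EuclideanSpace ℝ (Fin 5) => 1 - |e 0| / 3 :=
    continuous_const.sub ((BE01.continuous_coord 0).abs.div_const 3)
  have hsv : 1 - |(vtx σ T u) 0| / 3 = 1 := by
    have h0 : |(vtx σ T u) 0| = 0 := abs_zero
    rw [h0]; ring
  have hW : ContinuousAt (fun e : EuclideanSpace ℝ (Fin 5) =>
      (1 / (1 - |e 0| / 3)) • ((shear σ τ hσ hτ u e).2 - u)) (vtx σ T u) := by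
    have hG2 : Continuous fun e : EuclideanSpace ℝ (Fin 5) => (shear σ τ hσ hτ u e).2 - u :=
      (continuous_snd.comp hG).sub continuous_const
    have hW1 : ContinuousAt (fun e : EuclideanSpace ℝ (Fin 5) => 1 / (1 - |e 0| / 3))
        (vtx σ T u) := by
      refine ContinuousAt.div continuousAt_const hs.continuousAt ?_
      rw [hsv]
      exact one_ne_zero
    exact hW1.smul hG2.continuousAt
  have hW0 : ‖(1 / (1 - |(vtx σ T u) 0| / 3)) • ((shear σ τ hσ hτ u (vtx σ T u)).2 - u)‖ < δ := by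
    rw [shear_vtx σ τ T hσ hτ u hu, sub_self, smul_zero, norm_zero]
    exact hδ
  have ev1 := hW.norm.eventually_lt continuousAt_const hW0
  have ev2 : ∀ᶠ e in 𝓝 (vtx σ T u), 0 < 1 - |e 0| / 3 := by
    refine continuousAt_const.eventually_lt hs.continuousAt ?_
    rw [hsv]
    exact one_pos
  filter_upwards [ev1, ev2] with e h1 h2
  have h3 := hcon _ h1 (1 - |e 0| / 3) ⟨h2, by
    have := abs_nonneg (e 0)
    linarith⟩
  rw [smul_smul, mul_one_div_cancel h2.ne', one_smul, add_sub_cancel] at h3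
  rw [h3]
  have h4 : (fun k => w0 k + (1 / (1 - |e 0| / 3)) *
      (![e 2, e 3, e 4, τ * (σ * e 1 - |e 0|)] k - w0 k)) =
      u + (1 / (1 - |e 0| / 3)) • ((shear σ τ hσ hτ u e).2 - u) := by
    funext k
    show w0 k + (1 / (1 - |e 0| / 3)) *
      (![e 2, e 3, e 4, τ * (σ * e 1 - |e 0|)] k - w0 k) = u k + (1 / (1 - |e 0| / 3)) *
      (![e 2, e 3, e 4, τ * (σ * e 1 - |e 0|)] k - |e 0| / 3 * (w0 k - u k) - u k)
    have key : (1 - |e 0| / 3) * (1 / (1 - |e 0| / 3)) = 1 := mul_one_div_cancel h2.ne'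
    linear_combination (u k - w0 k) * key
  rw [h4]

/-- Exchange of the first two coordinates. -/
def swp : EuclideanSpace ℝ (Fin 5) ≃ EuclideanSpace ℝ (Fin 5) where
  toFun e := WithLp.toLp 2 ![e 1, e 0, e 2, e 3, e 4]
  invFun e := WithLp.toLp 2 ![e 1, e 0, e 2, e 3, e 4]
  left_inv := by
    intro e
    ext i
    fin_cases i <;> rfl
  right_inv := by
    intro e
    ext i
    fin_cases i <;> rfl

theorem swp_pl : IsPLE swp := by
  have h : IsPLOn (fun e : EuclideanSpace ℝ (Fin 5) =>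
      (WithLp.toLp 2 ![e 1, e 0, e 2, e 3, e 4] : EuclideanSpace ℝ (Fin 5))) univ := by
    refine isPL_euclid fun i => ?_
    fin_cases i
    · exact isPL_coord 1
    · exact isPL_coord 0
    · exact isPL_coord 2
    · exact isPL_coord 3
    · exact isPL_coord 4
  exact ⟨h, h⟩

/-- Conditions near the vertex. -/
theorem near (σ T : ℝ) (hσ : σ * σ = 1) (hT : 0 < T) (u : Fin 4 → ℝ) :
    ∀ᶠ e in 𝓝 (vtx σ T u), |e 0| < 3 ∧ |e 0| < σ * e 1 ∧ |e 1| = σ * e 1 := by
  have h0 : |(vtx σ T u) 0| = 0 := abs_zero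
  have h1 : σ * (vtx σ T u) 1 = T := by
    show σ * (σ * T) = T
    rw [← mul_assoc, hσ, one_mul]
  have hc0 : Continuous fun e : EuclideanSpace ℝ (Fin 5) => |e 0| := (BE01.continuous_coord 0).abs
  have hc1 : Continuous fun e : EuclideanSpace ℝ (Fin 5) => σ * e 1 :=
    continuous_const.mul (BE01.continuous_coord 1)
  have ev1 := hc0.continuousAt.eventually_lt (continuousAt_const (y := (3 : ℝ)))
    (x₀ := vtx σ T u) (by rw [h0]; norm_num)
  have ev2 := hc0.continuousAt.eventually_lt hc1.continuousAt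
    (x₀ := vtx σ T u) (by rw [h0, h1]; exact hT)
  filter_upwards [ev1, ev2] with e he1 he2
  refine ⟨he1, he2, ?_⟩
  have hpos : 0 ≤ σ * e 1 := (abs_nonneg _).trans he2.le
  have hs : |σ| = 1 := by
    have h2 : |σ| * |σ| = 1 := by rw [← abs_mul, hσ, abs_one]
    nlinarith [abs_nonneg σ]
  rw [← abs_of_nonneg hpos, abs_mul, hs, one_mul]

theorem sg_mul_self (b : Bool) : sg b * sg b = 1 := by
  cases b <;> norm_num [sg]

end BE12

open BE12 in
theorem locFlat_page (z : {x : Fin 396 × Bool // tU x.1 = 0 → x.2 = true}) (hz : tU z.1.1 ≠ 0) :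
    LocFlat (n := 3) SigmaSet (posSigma (Sum.inl z)) := by
  obtain ⟨⟨v, b⟩, hvb⟩ := z
  have hz' : tU v ≠ 0 := hz
  have hb := sg_mul_self b
  have hu3 : latPos (coord v) 3 = (tU v : ℝ) := rfl
  rcases lt_or_gt_of_ne hz' with ht | ht
  · -- `t < 0`
    have ht' : (tU v : ℝ) < 0 := by exact_mod_cast ht
    have hu : latPos (coord v) 3 = (-1) * (-(tU v : ℝ)) := by rw [hu3]; ring
    have hτ : (-1 : ℝ) * (-1) = 1 := by norm_num
    have hpos : posSigma (Sum.inl ⟨(v, b), hvb⟩) = vtx (sg b) (-(tU v : ℝ)) (latPos (coord v)) := by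
      show WithLp.toLp 2 ![sg b * max (tU v : ℝ) 0, sg b * max (-(tU v : ℝ)) 0,
        (coord v 0 : ℝ), (coord v 1 : ℝ), (coord v 2 : ℝ)] = _
      rw [max_eq_right ht'.le, max_eq_left (by linarith), mul_zero]
      rfl
    rw [hpos]
    refine core (shear (sg b) (-1) hb hτ (latPos (coord v))) (shear_pl _ _ _ _ _) ?_ ?_
    · rw [shear_vtx _ _ _ _ _ _ hu]
      exact latPos_mem v
    · filter_upwards [loc_iff (sg b) (-1) (-(tU v : ℝ)) hb hτ (latPos (coord v)) hu,
        near (sg b) (-(tU v : ℝ)) hb (by linarith) (latPos (coord v))] with e h1 h2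
      rw [← h1, sigma_iff e (m := |e 0|) (by
        rw [min_eq_left]; rw [h2.2.2]; exact h2.2.1.le) h2.1, h2.2.2]
      have h3 : |e 0| - sg b * e 1 = -1 * (sg b * e 1 - |e 0|) := by ring
      rw [h3]
  · -- `t > 0`
    have ht' : 0 < (tU v : ℝ) := by exact_mod_cast ht
    have hu : latPos (coord v) 3 = 1 * (tU v : ℝ) := by rw [hu3, one_mul]
    have hτ : (1 : ℝ) * 1 = 1 := one_mul 1
    have hpos : swp (posSigma (Sum.inl ⟨(v, b), hvb⟩)) =
        vtx (sg b) (tU v : ℝ) (latPos (coord v)) := by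
      show WithLp.toLp 2 ![sg b * max (-(tU v : ℝ)) 0, sg b * max (tU v : ℝ) 0,
        (coord v 0 : ℝ), (coord v 1 : ℝ), (coord v 2 : ℝ)] = _
      rw [max_eq_left ht'.le, max_eq_right (by linarith), mul_zero]
      rfl
    have hsc : Continuous swp := swp_pl.pl.continuous
    refine core (swp.trans (shear (sg b) 1 hb hτ (latPos (coord v))))
      (swp_pl.trans (shear_pl _ _ _ _ _)) ?_ ?_
    · rw [Equiv.trans_apply, hpos, shear_vtx _ _ _ _ _ _ hu]
      exact latPos_mem v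
    · have ev1 := loc_iff (sg b) 1 (tU v : ℝ) hb hτ (latPos (coord v)) hu
      have ev2 := near (sg b) (tU v : ℝ) hb ht' (latPos (coord v))
      rw [← hpos] at ev1 ev2
      filter_upwards [hsc.continuousAt.eventually ev1, hsc.continuousAt.eventually ev2]
        with e h1 h2
      have e0 : (swp e) 0 = e 1 := rfl
      have e1 : (swp e) 1 = e 0 := rfl
      have e2 : (swp e) 2 = e 2 := rfl
      have e3 : (swp e) 3 = e 3 := rfl
      have e4 : (swp e) 4 = e 4 := rfl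
      rw [e0, e1] at h2
      rw [e0, e1, e2, e3, e4] at h1
      rw [Equiv.trans_apply, ← h1, sigma_iff e (m := |e 1|) (by
        rw [min_eq_right]; rw [h2.2.2]; exact h2.2.1.le) h2.1, h2.2.2, one_mul]

end Pool.Agent.PolyKnots
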