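import Pool.Agent.W_MP_be6f00_gt.Freud
import Pool.Agent.W_MP_be6f00_gt.Book
import Pool.Agent.W_MP_be6f00_gt.DataFacts

set_option autoImplicit false

/-! BE09: `Σ` is the image of the book complex. -/

open Set

namespace Pool.Agent.PolyKnots

namespace BE09

/-- The lift of a vertex, in the left summand. -/
def lft {V : Type} (t : V → ℤ) (sx sy : Bool) (v : V) : {x : V × Bool // t x.1 = 0 → x.2 = true} :=
  ⟨(v, if 0 < t v then sx else if t v < 0 then sy else true), by
    intro h
    have h' : t v = 0 := h
    simp [h']⟩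

theorem bookLift_eq {V : Type} (t : V → ℤ) (sx sy : Bool) (v : V) :
    bookLift t sx sy v = Sum.inl (lft t sx sy v) := rfl

theorem simplexwise_bookPt {V E : Type} [Fintype V] [DecidableEq V] [AddCommGroup E] [Module ℝ E]
    (t : V → ℤ) (sx sy : Bool) (s : ℝ) (u : V → ℝ) (pos : BookV t → E) :
    simplexwise pos (bookPt t sx sy s u) =
      (1 - s) • pos (Sum.inr (sx, sy)) + ∑ v, (s * u v) • pos (bookLift t sx sy v) := by
  unfold simplexwise
  rw [Fintype.sum_sum_type, add_comm]
  congr 1
  · rw [Finset.sum_eq_single (sx, sy)]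
    · simp [bookPt]
    · intro q _ hq
      simp [bookPt, hq]
    · intro h; exact absurd (Finset.mem_univ _) h
  · symm
    apply Finset.sum_of_injOn (lft t sx sy)
    · intro a _ b _ hab
      have := congrArg (fun z => z.1.1) hab
      exact this
    · intro a _
      exact Finset.mem_coe.2 (Finset.mem_univ _)
    · intro z _ hz
      have : ¬ (Sum.inl z = bookLift t sx sy z.1.1) := by
        intro h
        apply hz
        rw [bookLift_eq] at h
        exact ⟨z.1.1, Finset.mem_coe.2 (Finset.mem_univ _), (Sum.inl_injective h).symm⟩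
      simp only [bookPt]
      rw [if_neg this, zero_smul]
    · intro v _
      have : (Sum.inl (lft t sx sy v) : BookV t) = bookLift t sx sy (lft t sx sy v).1.1 := rfl
      simp only [bookPt]
      rw [if_pos this]
      rfl

theorem sg_max (t : ℤ) (sx sy : Bool) :
    sg (if 0 < t then sx else if t < 0 then sy else true) * max (t : ℝ) 0 = sg sx * max (t : ℝ) 0 := by
  by_cases h : 0 < t
  · rw [if_pos h]
  · have : (t : ℝ) ≤ 0 := by exact_mod_cast not_lt.1 h
    rw [max_eq_right this, mul_zero, mul_zero]

theorem sg_max' (t : ℤ) (sx sy : Bool) :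
    sg (if 0 < t then sx else if t < 0 then sy else true) * max (-(t : ℝ)) 0
      = sg sy * max (-(t : ℝ)) 0 := by
  by_cases h : t < 0
  · rw [if_neg (by omega), if_pos h]
  · have : -(t : ℝ) ≤ 0 := by
      have : (0 : ℝ) ≤ t := by exact_mod_cast not_lt.1 h
      linarith
    rw [max_eq_right this, mul_zero, mul_zero]

theorem posSigma_lift (sx sy : Bool) (v : Fin 396) :
    posSigma (bookLift tU sx sy v) = WithLp.toLp 2 ![sg sx * max (tU v : ℝ) 0,
      sg sy * max (-(tU v : ℝ)) 0, coord v 0, coord v 1, coord v 2] := by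
  rw [bookLift_eq]
  simp only [posSigma, lft]
  rw [sg_max, sg_max']

theorem sum_max {u : Fin 396 → ℝ} (hu : u ∈ KU.space) :
    ∑ v, u v * max (tU v : ℝ) 0 = max (tLin tU u) 0 ∧
      ∑ v, u v * max (-(tU v : ℝ)) 0 = max (-tLin tU u) 0 := by
  obtain ⟨h0, h1, s, hs, hsup⟩ := hu
  rcases KU_oneSided s hs with h | h
  · have e1 : ∀ v, u v * max (tU v : ℝ) 0 = u v * tU v := by
      intro v
      by_cases hv : v ∈ s
      · rw [max_eq_left (by exact_mod_cast h v hv)]
      · rw [hsup v hv]; ring
    have e2 : ∀ v, u v * max (-(tU v : ℝ)) 0 = 0 := by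
      intro v
      by_cases hv : v ∈ s
      · have : (0 : ℝ) ≤ tU v := by exact_mod_cast h v hv
        rw [max_eq_right (by linarith), mul_zero]
      · rw [hsup v hv]; ring
    have e3 : 0 ≤ tLin tU u := by
      unfold tLin
      apply Finset.sum_nonneg
      intro v _
      rw [← e1 v]
      exact mul_nonneg (h0 v) (le_max_right _ _)
    rw [max_eq_left e3, max_eq_right (by linarith : -tLin tU u ≤ 0)]
    constructor
    · exact Finset.sum_congr rfl (fun v _ => e1 v)
    · exact Finset.sum_eq_zero (fun v _ => e2 v)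
  · have e1 : ∀ v, u v * max (-(tU v : ℝ)) 0 = -(u v * tU v) := by
      intro v
      by_cases hv : v ∈ s
      · have : (tU v : ℝ) ≤ 0 := by exact_mod_cast h v hv
        rw [max_eq_left (by linarith)]; ring
      · rw [hsup v hv]; ring
    have e2 : ∀ v, u v * max (tU v : ℝ) 0 = 0 := by
      intro v
      by_cases hv : v ∈ s
      · have : (tU v : ℝ) ≤ 0 := by exact_mod_cast h v hv
        rw [max_eq_right this, mul_zero]
      · rw [hsup v hv]; ring
    have e3 : tLin tU u ≤ 0 := by
      unfold tLin
      apply Finset.sum_nonpos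
      intro v _
      have := e1 v
      have h5 : 0 ≤ u v * max (-(tU v : ℝ)) 0 := mul_nonneg (h0 v) (le_max_right _ _)
      linarith
    rw [max_eq_right e3, max_eq_left (by linarith : 0 ≤ -tLin tU u)]
    constructor
    · exact Finset.sum_eq_zero (fun v _ => e2 v)
    · rw [Finset.sum_congr rfl (fun v _ => e1 v), Finset.sum_neg_distrib]
      rfl

/-- The formula for `simplexwise posSigma` on the book complex. -/
theorem sigma_formula (sx sy : Bool) (s : ℝ) {u : Fin 396 → ℝ} (hu : u ∈ KU.space) :
    simplexwise posSigma (bookPt tU sx sy s u) = WithLp.toLp 2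
      ![sg sx * ((1 - s) * 3 + s * max (tLin tU u) 0),
        sg sy * ((1 - s) * 3 + s * max (-tLin tU u) 0),
        (1 - s) * 3 + s * ∑ v, u v * coord v 0, (1 - s) * 2 + s * ∑ v, u v * coord v 1,
        (1 - s) * 2 + s * ∑ v, u v * coord v 2] := by
  obtain ⟨m1, m2⟩ := sum_max hu
  rw [simplexwise_bookPt, ← m1, ← m2]
  simp_rw [posSigma_lift]
  ext i
  simp only [PiLp.add_apply, PiLp.smul_apply, WithLp.ofLp_sum, Finset.sum_apply, posSigma,
    smul_eq_mul, WithLp.ofLp_smul, Pi.smul_apply]
  fin_cases i
  · simp only [Fin.zero_eta, Fin.isValue, Matrix.cons_val_zero, mul_add, Finset.mul_sum]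
    congr 1
    · ring
    · exact Finset.sum_congr rfl (fun v _ => by ring)
  · simp only [Fin.mk_one, Fin.isValue, Matrix.cons_val_one, Matrix.cons_val_zero, mul_add,
      Finset.mul_sum]
    congr 1
    · ring
    · exact Finset.sum_congr rfl (fun v _ => by ring)
  · simp only [Fin.reduceFinMk, Matrix.cons_val, Finset.mul_sum]
    congr 1
    exact Finset.sum_congr rfl (fun v _ => by ring)
  · simp only [Fin.reduceFinMk, Matrix.cons_val, Finset.mul_sum]
    congr 1
    exact Finset.sum_congr rfl (fun v _ => by ring)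
  · simp only [Fin.reduceFinMk, Matrix.cons_val, Finset.mul_sum]
    congr 1
    exact Finset.sum_congr rfl (fun v _ => by ring)

theorem latPos_simplexwise (u : Fin 396 → ℝ) (k : Fin 4) :
    simplexwise (fun v => latPos (coord v)) u k = ∑ v, u v * coord v k := by
  simp [simplexwise, latPos, Finset.sum_apply]

theorem injOn_lat : InjOn (simplexwise fun v => latPos (coord v)) KU.space := by
  apply injOn_of_sep (fun v => latPos (coord v)) (fun s => IsChainSimplex (s.image coord))
    ((sep_chain 4).comp coord coord_injective) KU.faces KU_chain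
  intro s hs t hts v hv w hw
  exact KU_chain s hs v (Finset.image_subset_image hts hv) w (Finset.image_subset_image hts hw)

/-- Components of a point of `ℝ⁵`. -/
def psi (e : EuclideanSpace ℝ (Fin 5)) : ℝ × ℝ × (Fin 3 → ℝ) := (e 0, e 1, ![e 2, e 3, e 4])

theorem nonempty_KU : KU.space.Nonempty := by
  refine ⟨Pi.single 0 1, ?_, by simp, {0}, KU.vertex 0, ?_⟩
  · intro v
    by_cases h : v = 0
    · subst h; simp
    · simp [h]
  · intro v hv
    have h : v ≠ 0 := by simpa using hv
    simp [h]

end BE09

open BE09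

theorem sigma_injOn : InjOn (simplexwise posSigma) (book KU tU).space := by
  have hinj : InjOn (fun x => psi (simplexwise posSigma x)) (book KU tU).space := by
    apply book_injOn KU tU KU_oneSided nonempty_KU (tLin tU)
      (fun u => ![∑ v, u v * coord v 0, ∑ v, u v * coord v 1, ∑ v, u v * coord v 2])
      (fun u _ => ⟨Iff.rfl, Iff.rfl⟩) ?_ 3 (by norm_num) ![3, 2, 2]
    · intro sx sy s hs u hu
      simp only
      rw [sigma_formula sx sy s hu]
      simp only [psi]
      refine Prod.ext rfl (Prod.ext rfl ?_)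
      funext k
      fin_cases k
      · simp
      · simp
      · simp
    · intro u hu u' hu' h
      apply injOn_lat hu hu'
      have h1 := congrArg Prod.fst h
      have h2 := congrArg Prod.snd h
      simp only at h1 h2
      funext k
      rw [latPos_simplexwise, latPos_simplexwise]
      fin_cases k
      · simpa using congrFun h2 0
      · simpa using congrFun h2 1
      · simpa using congrFun h2 2
      · exact h1
  intro x hx y hy hxy
  apply hinj hx hy
  simp only
  rw [hxy]

theorem sigma_image : simplexwise posSigma '' (book KU tU).space = SigmaSet := by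
  have hbody : USet = simplexwise (fun v => latPos (coord v)) '' KU.space := by
    rw [← body_KU, body_eq_image]; rfl
  ext e
  simp only [mem_image]
  constructor
  · rintro ⟨x, hx, rfl⟩
    obtain ⟨sx, sy, s, hs, u, hu, rfl⟩ := (book_cover KU tU nonempty_KU x).1 hx
    refine ⟨s, hs, simplexwise (fun v => latPos (coord v)) u, ?_, ?_⟩
    · rw [hbody]; exact ⟨u, hu, rfl⟩
    rw [sigma_formula sx sy s hu]
    simp only [latPos_simplexwise]
    have habs : ∀ (b : Bool) (A : ℝ), 0 ≤ A → |sg b * A| = A := by
      intro b A hA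
      cases b <;> simp [sg, abs_of_nonneg hA]
    have h1 : 0 ≤ 1 - s := by linarith [hs.2]
    refine ⟨?_, ?_, ?_, ?_, ?_⟩
    · have := habs sx ((1 - s) * 3 + s * max (tLin tU u) 0)
        (add_nonneg (by positivity) (mul_nonneg hs.1 (le_max_right _ _)))
      exact this
    · have := habs sy ((1 - s) * 3 + s * max (-tLin tU u) 0)
        (add_nonneg (by positivity) (mul_nonneg hs.1 (le_max_right _ _)))
      exact this
    · rfl
    · rfl
    · rfl
  · rintro ⟨s, hs, u', hu', h0, h1, h2, h3, h4⟩
    rw [hbody] at hu'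
    obtain ⟨u, hu, rfl⟩ := hu'
    simp only [latPos_simplexwise] at h0 h1 h2 h3 h4
    have hsg : ∀ z : ℝ, z = sg (decide (0 ≤ z)) * |z| := by
      intro z
      by_cases hz : 0 ≤ z
      · simp [sg, hz, abs_of_nonneg hz]
      · simp [sg, hz, abs_of_neg (not_le.1 hz)]
    refine ⟨bookPt tU (decide (0 ≤ e 0)) (decide (0 ≤ e 1)) s u,
      (book_cover KU tU nonempty_KU _).2 ⟨_, _, s, hs, u, hu, rfl⟩, ?_⟩
    rw [sigma_formula _ _ s hu]
    ext k
    fin_cases k
    · exact Eq.trans (congrArg (fun z => sg (decide (0 ≤ e 0)) * z) h0.symm) (hsg (e 0)).symm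
    · exact Eq.trans (congrArg (fun z => sg (decide (0 ≤ e 1)) * z) h1.symm) (hsg (e 1)).symm
    · exact h2.symm
    · exact h3.symm
    · exact h4.symm

theorem posSigma_mem (v : BookV tU) : posSigma v ∈ SigmaSet := by
  rw [← sigma_image]
  refine ⟨Pi.single v 1, ⟨?_, by simp, {v}, (book KU tU).vertex v, ?_⟩, ?_⟩
  · intro w
    by_cases h : w = v
    · subst h; simp
    · simp [h]
  · intro w hw
    have h : w ≠ v := by simpa using hw
    simp [h]
  · simp [simplexwise, Pi.single_apply]

end Pool.Agent.PolyKnots
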