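import Pool.Agent.W_MP_be6f00_gt.Basic

set_option autoImplicit false

/-! # Core of BE10: from the formula for `Φ` to the homeomorphism with the sphere -/

open Set

namespace Pool.Agent.PolyKnots.BE10

/-- The norm `max |x| |y| + ‖w‖`. -/
noncomputable def pN (z : ℝ × ℝ × (Fin 2 → ℝ)) : ℝ := max |z.1| |z.2.1| + ‖z.2.2‖

theorem pN_smul {c : ℝ} (hc : 0 ≤ c) (z : ℝ × ℝ × (Fin 2 → ℝ)) : pN (c • z) = c * pN z := by
  unfold pN
  simp only [Prod.smul_fst, Prod.smul_snd, smul_eq_mul, abs_mul, abs_of_nonneg hc, norm_smul,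
    Real.norm_eq_abs]
  rw [← mul_max_of_nonneg _ _ hc]
  ring

theorem pN_pos {z : ℝ × ℝ × (Fin 2 → ℝ)} (hz : z ≠ 0) : 0 < pN z := by
  unfold pN
  by_contra h
  apply hz
  have h1 := abs_nonneg z.1
  have h2 := abs_nonneg z.2.1
  have h3 := norm_nonneg z.2.2
  have h4 := le_max_left |z.1| |z.2.1|
  have h5 := le_max_right |z.1| |z.2.1|
  have e1 : z.1 = 0 := abs_eq_zero.1 (by linarith)
  have e2 : z.2.1 = 0 := abs_eq_zero.1 (by linarith)
  have e3 : z.2.2 = 0 := norm_eq_zero.1 (by linarith)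
  exact Prod.ext e1 (Prod.ext e2 e3)

theorem continuous_pN : Continuous pN := by
  unfold pN
  fun_prop

/-- The unit sphere of `pN`. -/
def NN : Set (ℝ × ℝ × (Fin 2 → ℝ)) := {z | pN z = 1}

theorem finrank_eq : Module.finrank ℝ (ℝ × ℝ × (Fin 2 → ℝ)) =
    Module.finrank ℝ (EuclideanSpace ℝ (Fin 4)) := by
  simp

/-- A linear isomorphism. -/
noncomputable def LL : (ℝ × ℝ × (Fin 2 → ℝ)) ≃L[ℝ] EuclideanSpace ℝ (Fin 4) :=
  ContinuousLinearEquiv.ofFinrankEq finrank_eq

theorem NN_ne {z : ℝ × ℝ × (Fin 2 → ℝ)} (hz : z ∈ NN) : z ≠ 0 := by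
  rintro rfl
  have : pN 0 = 1 := hz
  simp [pN] at this

theorem LL_norm_pos {z : ℝ × ℝ × (Fin 2 → ℝ)} (hz : z ∈ NN) : 0 < ‖LL z‖ :=
  norm_pos_iff.2 fun h => NN_ne hz (by simpa using h)

theorem LL_symm_pos {y : EuclideanSpace ℝ (Fin 4)} (hy : ‖y‖ = 1) : 0 < pN (LL.symm y) :=
  pN_pos fun h => by
    have : y = 0 := by simpa using h
    rw [this, norm_zero] at hy
    exact zero_ne_one hy

/-- The radial homeomorphism. -/
noncomputable def radial : NN ≃ₜ Metric.sphere (0 : EuclideanSpace ℝ (Fin 4)) 1 where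
  toFun z := ⟨(‖LL z.1‖)⁻¹ • LL z.1, by
    have h := LL_norm_pos z.2
    rw [mem_sphere_zero_iff_norm, norm_smul, norm_inv, norm_norm, inv_mul_cancel₀ h.ne']⟩
  invFun y := ⟨(pN (LL.symm y.1))⁻¹ • LL.symm y.1, by
    have h := LL_symm_pos (mem_sphere_zero_iff_norm.1 y.2)
    show pN _ = 1
    rw [pN_smul (inv_nonneg.2 h.le), inv_mul_cancel₀ h.ne']⟩
  left_inv z := by
    have h := LL_norm_pos z.2
    have hz : pN z.1 = 1 := z.2
    apply Subtype.ext
    simp only [map_smul, ContinuousLinearEquiv.symm_apply_apply]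
    rw [pN_smul (inv_nonneg.2 h.le), hz, mul_one, inv_inv, smul_smul, mul_inv_cancel₀ h.ne',
      one_smul]
  right_inv y := by
    have hy := mem_sphere_zero_iff_norm.1 y.2
    have h := LL_symm_pos hy
    apply Subtype.ext
    simp only [map_smul, ContinuousLinearEquiv.apply_symm_apply]
    rw [norm_smul, norm_inv, Real.norm_eq_abs, abs_of_pos h, hy, mul_one, inv_inv, smul_smul,
      mul_inv_cancel₀ h.ne', one_smul]
  continuous_toFun := by
    refine Continuous.subtype_mk ?_ _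
    have h1 : Continuous fun z : NN => LL z.1 := LL.continuous.comp continuous_subtype_val
    exact (h1.norm.inv₀ fun z => (LL_norm_pos z.2).ne').smul h1
  continuous_invFun := by
    refine Continuous.subtype_mk ?_ _
    have h1 : Continuous fun y : Metric.sphere (0 : EuclideanSpace ℝ (Fin 4)) 1 => LL.symm y.1 :=
      LL.symm.continuous.comp continuous_subtype_val
    exact ((continuous_pN.comp h1).inv₀ fun y =>
      (LL_symm_pos (mem_sphere_zero_iff_norm.1 y.2)).ne').smul h1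

theorem isCompact_sp {V : Type} [Fintype V] (S : Set (Finset V)) : IsCompact (sp S) := by
  have h : sp S = stdSimplex ℝ V ∩ ⋃ s ∈ S, {x | ∀ v, v ∉ s → x v = 0} := by
    ext x
    simp only [sp, stdSimplex, mem_setOf_eq, mem_inter_iff, mem_iUnion, exists_prop]
    tauto
  rw [h]
  refine (isCompact_stdSimplex (𝕜 := ℝ) V).inter_right ?_
  refine Set.Finite.isClosed_biUnion (Set.toFinite S) fun s _ => ?_
  have : {x : V → ℝ | ∀ v, v ∉ s → x v = 0} = ⋂ v, ⋂ (_ : v ∉ s), {x | x v = 0} := by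
    ext x; simp
  rw [this]
  exact isClosed_iInter fun v => isClosed_iInter fun _ =>
    isClosed_eq (continuous_apply v) continuous_const

theorem abs_sg (b : Bool) : |sg b| = 1 := by cases b <;> simp [sg]

theorem exists_sg (x : ℝ) : ∃ b : Bool, sg b * |x| = x := by
  rcases le_total 0 x with h | h
  · exact ⟨true, by simp [sg, abs_of_nonneg h]⟩
  · exact ⟨false, by simp [sg, abs_of_nonpos h]⟩

section
variable {V : Type} [Fintype V] [DecidableEq V] (K : SComplex V) (t : V → ℤ)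
  (θ : (V → ℝ) → ℝ × (Fin 2 → ℝ))
  (Φ : (BookV t → ℝ) → ℝ × ℝ × (Fin 2 → ℝ))

theorem image_eq (hs : θ '' K.space = {z | |z.1| + ‖z.2‖ = 1})
    (hcov : ∀ x : BookV t → ℝ, x ∈ (book K t).space ↔ ∃ sx sy : Bool, ∃ s ∈ Icc (0 : ℝ) 1,
      ∃ u ∈ K.space, x = bookPt t sx sy s u)
    (hΦ : ∀ sx sy : Bool, ∀ s ∈ Icc (0 : ℝ) 1, ∀ u ∈ K.space, Φ (bookPt t sx sy s u) =
      (sg sx * ((1 - s) * 1 + s * max (θ u).1 0), sg sy * ((1 - s) * 1 + s * max (-(θ u).1) 0),
        (1 - s) • (0 : Fin 2 → ℝ) + s • (θ u).2)) :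
    Φ '' (book K t).space = NN := by
  ext z
  constructor
  · rintro ⟨x, hx, rfl⟩
    obtain ⟨sx, sy, s, hs', u, hu, rfl⟩ := (hcov x).1 hx
    have hθ : |(θ u).1| + ‖(θ u).2‖ = 1 := by
      have : θ u ∈ θ '' K.space := ⟨u, hu, rfl⟩
      rwa [hs] at this
    rw [hΦ sx sy s hs' u hu]
    show pN _ = 1
    have h0 : 0 ≤ s := hs'.1
    have h1 : 0 ≤ 1 - s := sub_nonneg.2 hs'.2
    have a1 : 0 ≤ (1 - s) * 1 + s * max (θ u).1 0 :=
      add_nonneg (by linarith) (mul_nonneg h0 (le_max_right _ _))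
    have a2 : 0 ≤ (1 - s) * 1 + s * max (-(θ u).1) 0 :=
      add_nonneg (by linarith) (mul_nonneg h0 (le_max_right _ _))
    simp only [pN, abs_mul, abs_sg, one_mul, abs_of_nonneg a1, abs_of_nonneg a2, smul_zero,
      zero_add, norm_smul, Real.norm_eq_abs, abs_of_nonneg h0]
    have hmax : max ((1 - s) * 1 + s * max (θ u).1 0) ((1 - s) * 1 + s * max (-(θ u).1) 0) =
        (1 - s) + s * |(θ u).1| := by
      rw [max_add_add_left, ← mul_max_of_nonneg _ _ h0, mul_one]
      congr 2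
      rw [abs_eq_max_neg]
      rcases le_total 0 (θ u).1 with h | h
      · rw [max_eq_left h, max_eq_right (by linarith : -(θ u).1 ≤ 0), max_eq_left h,
          max_eq_left (by linarith)]
      · rw [max_eq_right h, max_eq_left (by linarith : (0 : ℝ) ≤ -(θ u).1),
          max_eq_right (by linarith), max_eq_right (by linarith)]
    rw [hmax]
    linear_combination s * hθ
  · intro hz
    have hz' : max |z.1| |z.2.1| + ‖z.2.2‖ = 1 := hz
    obtain ⟨sx, hsx⟩ := exists_sg z.1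
    obtain ⟨sy, hsy⟩ := exists_sg z.2.1
    have hx0 := abs_nonneg z.1
    have hy0 := abs_nonneg z.2.1
    have hw0 := norm_nonneg z.2.2
    set m := min |z.1| |z.2.1| with hm
    have hm0 : 0 ≤ m := le_min hx0 hy0
    have hmm : m + max |z.1| |z.2.1| = |z.1| + |z.2.1| := min_add_max _ _
    have hm1 : m ≤ 1 := le_trans (min_le_max) (by linarith)
    have hdiff : max |z.1| |z.2.1| - m = |(|z.1| - |z.2.1|)| := by
      rw [hm, max_sub_min_eq_abs']
    rcases eq_or_lt_of_le hm1 with h1 | h1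
    · have hx1 : |z.1| = 1 := le_antisymm (by linarith [le_max_left |z.1| |z.2.1|])
        (by rw [← h1]; exact min_le_left _ _)
      have hy1 : |z.2.1| = 1 := le_antisymm (by linarith [le_max_right |z.1| |z.2.1|])
        (by rw [← h1]; exact min_le_right _ _)
      have hw : z.2.2 = 0 := by
        rw [hx1, hy1, max_self] at hz'
        exact norm_eq_zero.1 (by linarith)
      obtain ⟨u, hu, _⟩ : ((1 : ℝ), (0 : Fin 2 → ℝ)) ∈ θ '' K.space := by
        rw [hs]; simp
      refine ⟨bookPt t sx sy 0 u, (hcov _).2 ⟨sx, sy, 0, by simp, u, hu, rfl⟩, ?_⟩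
      rw [hΦ sx sy 0 (by simp) u hu]
      refine Prod.ext ?_ (Prod.ext ?_ ?_)
      · simp only [sub_zero, one_mul, zero_mul, add_zero]
        rw [← hx1]; exact hsx
      · simp only [sub_zero, one_mul, zero_mul, add_zero]
        rw [← hy1]; exact hsy
      · simp [hw]
    · have hs0 : 0 < 1 - m := by linarith
      obtain ⟨u, hu, hu'⟩ : ((|z.1| - |z.2.1|) / (1 - m), (1 - m)⁻¹ • z.2.2) ∈ θ '' K.space := by
        rw [hs]
        show |(|z.1| - |z.2.1|) / (1 - m)| + ‖(1 - m)⁻¹ • z.2.2‖ = 1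
        rw [abs_div, abs_of_pos hs0, norm_smul, norm_inv, Real.norm_eq_abs, abs_of_pos hs0, ← hdiff]
        field_simp
        linarith
      have hs1 : 1 - m ∈ Icc (0 : ℝ) 1 := ⟨hs0.le, by linarith⟩
      refine ⟨bookPt t sx sy (1 - m) u, (hcov _).2 ⟨sx, sy, 1 - m, hs1, u, hu, rfl⟩, ?_⟩
      rw [hΦ sx sy (1 - m) hs1 u hu, hu']
      have e1 : (1 - m) * max ((|z.1| - |z.2.1|) / (1 - m)) 0 = |z.1| - m := by
        rw [mul_max_of_nonneg _ _ hs0.le, mul_zero, mul_div_cancel₀ _ hs0.ne']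
        rcases le_total |z.1| |z.2.1| with h | h
        · rw [max_eq_right (by linarith), hm, min_eq_left h, sub_self]
        · rw [max_eq_left (by linarith), hm, min_eq_right h]
      have e2 : (1 - m) * max (-((|z.1| - |z.2.1|) / (1 - m))) 0 = |z.2.1| - m := by
        rw [mul_max_of_nonneg _ _ hs0.le, mul_zero, mul_neg, mul_div_cancel₀ _ hs0.ne']
        rcases le_total |z.1| |z.2.1| with h | h
        · rw [max_eq_left (by linarith), hm, min_eq_left h]; ring
        · rw [max_eq_right (by linarith), hm, min_eq_right h, sub_self]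
      refine Prod.ext ?_ (Prod.ext ?_ ?_)
      · show sg sx * ((1 - (1 - m)) * 1 + (1 - m) * max ((|z.1| - |z.2.1|) / (1 - m)) 0) = z.1
        rw [e1]
        rw [show (1 - (1 - m)) * 1 + (|z.1| - m) = |z.1| by ring]
        exact hsx
      · show sg sy * ((1 - (1 - m)) * 1 + (1 - m) * max (-((|z.1| - |z.2.1|) / (1 - m))) 0) = z.2.1
        rw [e2]
        rw [show (1 - (1 - m)) * 1 + (|z.2.1| - m) = |z.2.1| by ring]
        exact hsy
      · show (1 - (1 - m)) • (0 : Fin 2 → ℝ) + (1 - m) • ((1 - m)⁻¹ • z.2.2) = z.2.2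
        rw [smul_zero, zero_add, smul_smul, mul_inv_cancel₀ hs0.ne', one_smul]

theorem core (hΦc : ContinuousOn Φ (book K t).space) (hΦi : InjOn Φ (book K t).space)
    (hs : θ '' K.space = {z | |z.1| + ‖z.2‖ = 1})
    (hcov : ∀ x : BookV t → ℝ, x ∈ (book K t).space ↔ ∃ sx sy : Bool, ∃ s ∈ Icc (0 : ℝ) 1,
      ∃ u ∈ K.space, x = bookPt t sx sy s u)
    (hΦ : ∀ sx sy : Bool, ∀ s ∈ Icc (0 : ℝ) 1, ∀ u ∈ K.space, Φ (bookPt t sx sy s u) =
      (sg sx * ((1 - s) * 1 + s * max (θ u).1 0), sg sy * ((1 - s) * 1 + s * max (-(θ u).1) 0),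
        (1 - s) • (0 : Fin 2 → ℝ) + s • (θ u).2)) :
    Nonempty ((book K t).space ≃ₜ Metric.sphere (0 : EuclideanSpace ℝ (Fin 4)) 1) := by
  have him := image_eq K t θ Φ hs hcov hΦ
  haveI : CompactSpace (book K t).space := isCompact_iff_compactSpace.1 (isCompact_sp _)
  have hbij : BijOn Φ (book K t).space NN := by
    rw [← him]
    exact hΦi.bijOn_image
  let e : (book K t).space ≃ NN := hbij.equiv Φ
  have hec : Continuous e := by
    refine Continuous.subtype_mk ?_ _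
    exact hΦc.restrict
  exact ⟨(hec.homeoOfEquivCompactToT2 (f := e)).trans radial⟩
end

end Pool.Agent.PolyKnots.BE10
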