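import Pool.Agent.W_MP_be6f00_gt.Book
import Pool.Agent.W_MP_be6f00_gt.SphereHomeoCore

set_option autoImplicit false

/-! # BE10: the book complex over a disc pair is a 3-sphere -/

open Set

namespace Pool.Agent.PolyKnots

theorem book_sphere {V : Type} [Fintype V] [DecidableEq V] (K : SComplex V) (t : V → ℤ)
    (hside : OneSided K.faces t) (θ : (V → ℝ) → ℝ × (Fin 2 → ℝ)) (hc : ContinuousOn θ K.space)
    (hi : InjOn θ K.space) (hs : θ '' K.space = {z | |z.1| + ‖z.2‖ = 1})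
    (hsign : ∀ x ∈ K.space, (0 < (θ x).1 ↔ 0 < tLin t x) ∧ ((θ x).1 < 0 ↔ tLin t x < 0)) :
    Nonempty ((book K t).space ≃ₜ Metric.sphere (0 : EuclideanSpace ℝ (Fin 4)) 1) := by
  have hne : K.space.Nonempty := by
    have h : ((1 : ℝ), (0 : Fin 2 → ℝ)) ∈ θ '' K.space := by rw [hs]; simp
    obtain ⟨u, hu, _⟩ := h
    exact ⟨u, hu⟩
  obtain ⟨Φ, hΦc, hΦ⟩ := book_exists K t hside hne (fun u => (θ u).1) (fun u => (θ u).2) hsign
    (continuous_fst.comp_continuousOn hc) (continuous_snd.comp_continuousOn hc) 1 0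
  have hinj : InjOn Φ (book K t).space :=
    book_injOn K t hside hne (fun u => (θ u).1) (fun u => (θ u).2) hsign
      (fun x hx y hy h => hi hx hy h) 1 one_pos 0 Φ hΦ
  exact BE10.core K t θ Φ hΦc hinj hs (book_cover K t hne) hΦ

end Pool.Agent.PolyKnots
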