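import Pool.Agent.W_MP_be6f00_gt.FinCx

set_option autoImplicit false

/-! # Sublevel sets of linear height functions are homotopy equivalent to full subcomplexes. -/

open scoped ENNReal Topology
open Set

namespace Pool.Agent.PolyKnots

namespace BE21

open BE20

set_option linter.unusedSectionVars false

variable {V : Type} [Fintype V] [DecidableEq V]

theorem downClosed_faces (K : SComplex V) : DownClosed K.faces :=
  ⟨K.nonempty, K.down_closed⟩

theorem downClosed_fullSub {S : Set (Finset V)} (hS : DownClosed S) (p : V → Prop) :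
    DownClosed (fullSub S p) :=
  ⟨fun s hs => hS.1 s hs.1, fun s hs t ht hne => ⟨hS.2 s hs.1 t ht hne, fun v hv => hs.2 v (ht hv)⟩⟩

theorem hLin_add_smul (h : V → ℝ) (x y : V → ℝ) (a b : ℝ) :
    hLin h (a • x + b • y) = a * hLin h x + b * hLin h y := by
  unfold hLin
  rw [Finset.mul_sum, Finset.mul_sum, ← Finset.sum_add_distrib]
  refine Finset.sum_congr rfl fun v _ => ?_
  simp only [Pi.add_apply, Pi.smul_apply, smul_eq_mul]
  ring

theorem hLin_sub (h : V → ℝ) {x : V → ℝ} (hx : ∑ v, x v = 1) (c : ℝ) :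
    hLin h x - c = ∑ v, x v * (h v - c) := by
  unfold hLin
  simp only [mul_sub, Finset.sum_sub_distrib, ← Finset.sum_mul, hx, one_mul]

/-- Both kinds of sublevel sets. `P r` is `r ≤ 0` or `r < 0`. -/
theorem totDim_sub (F : Type) [Field F] {S : Set (Finset V)} (hS : DownClosed S) (h : V → ℝ)
    (c : ℝ) (P : ℝ → Prop)
    (hPc : ∀ r r', P r → P r' → ∀ t ∈ Icc (0 : ℝ) 1, P ((1 - t) * r + t * r'))
    (hPs : ∀ (x : V → ℝ), (∀ v, 0 ≤ x v) → ∑ v, x v = 1 → (∀ v, ¬ P (h v - c) → x v = 0) →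
      P (∑ v, x v * (h v - c)))
    (hPs' : ∀ (x : V → ℝ), (∀ v, 0 ≤ x v) → ∑ v, x v = 1 → (∀ v, P (h v - c) → x v = 0) →
      ¬ P (∑ v, x v * (h v - c))) :
    totDim F ({x | x ∈ sp S ∧ P (hLin h x - c)} : Set (V → ℝ)) ∅
      = totDim F (sp (fullSub S fun v => P (h v - c))) ∅ := by
  classical
  have hpos : ∀ x ∈ ({x | x ∈ sp S ∧ P (hLin h x - c)} : Set (V → ℝ)),
      0 < wt (fun v => P (h v - c)) x := by
    rintro x ⟨⟨h0, h1, s, hs, hxs⟩, hx⟩
    have hnn : ∀ v, 0 ≤ (if P (h v - c) then x v else 0) := by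
      intro v
      split_ifs
      · exact h0 v
      · exact le_rfl
    have hge : 0 ≤ wt (fun v => P (h v - c)) x := Finset.sum_nonneg fun v _ => hnn v
    refine lt_of_le_of_ne hge fun heq => ?_
    rw [hLin_sub h h1 c] at hx
    refine hPs' x h0 h1 (fun v hv => ?_) hx
    have h2 := (Finset.sum_eq_zero_iff_of_nonneg fun v _ => hnn v).1 heq.symm v (Finset.mem_univ v)
    rwa [if_pos hv] at h2
  refine totDim_full F hS _ _ (fun x hx => hx.1) hpos ?_ ?_
  · rintro x hx t ht hmem
    refine ⟨hmem, ?_⟩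
    have hr1 := sum_retr (hpos x hx)
    have hr : P (hLin h (retr (fun v => P (h v - c)) x) - c) := by
      rw [hLin_sub h hr1 c]
      exact hPs _ (retr_nonneg hx.1.1 (hpos x hx)) hr1 (fun v hv => retr_eq_zero (Or.inl hv))
    rw [hLin_add_smul]
    have : (1 - t) * hLin h (retr (fun v => P (h v - c)) x) + t * hLin h x - c
        = (1 - t) * (hLin h (retr (fun v => P (h v - c)) x) - c) + t * (hLin h x - c) := by ring
    rw [this]
    exact hPc _ _ hr hx.2 t ht
  · rintro x ⟨h0, h1, s, hs, hxs⟩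
    refine ⟨⟨h0, h1, s, hs.1, hxs⟩, ?_⟩
    rw [hLin_sub h h1 c]
    exact hPs x h0 h1 fun v hv => hxs v fun hvs => hv (hs.2 v hvs)

theorem totDim_le (F : Type) [Field F] {S : Set (Finset V)} (hS : DownClosed S) (h : V → ℝ)
    (c : ℝ) : totDim F ({x | x ∈ sp S ∧ hLin h x ≤ c} : Set (V → ℝ)) ∅
      = totDim F (sp (fullSub S fun v => h v ≤ c)) ∅ := by
  have key := totDim_sub F hS h c (fun r => r ≤ 0)
    (fun r r' hr hr' t ht => by
      have h1 : (1 - t) * r ≤ 0 := mul_nonpos_of_nonneg_of_nonpos (by linarith [ht.2]) hr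
      have h2 : t * r' ≤ 0 := mul_nonpos_of_nonneg_of_nonpos ht.1 hr'
      show (1 - t) * r + t * r' ≤ 0
      linarith)
    (fun x h0 h1 hx => by
      refine Finset.sum_nonpos fun v _ => ?_
      by_cases hv : h v - c ≤ 0
      · exact mul_nonpos_of_nonneg_of_nonpos (h0 v) hv
      · rw [hx v hv, zero_mul])
    (fun x h0 h1 hx => by
      show ¬ ∑ v, x v * (h v - c) ≤ 0
      rw [not_le]
      have hnn : ∀ v, 0 ≤ x v * (h v - c) := by
        intro v
        by_cases hv : h v - c ≤ 0
        · rw [hx v hv, zero_mul]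
        · exact mul_nonneg (h0 v) (not_le.1 hv).le
      have hex : ∃ v, x v ≠ 0 := by
        by_contra hcon
        push Not at hcon
        simp only [hcon, Finset.sum_const_zero] at h1
        exact zero_ne_one h1
      obtain ⟨v, hv⟩ := hex
      refine Finset.sum_pos' (fun v _ => hnn v) ⟨v, Finset.mem_univ v, ?_⟩
      have hv' : ¬ h v - c ≤ 0 := fun hh => hv (hx v hh)
      exact mul_pos (lt_of_le_of_ne (h0 v) (Ne.symm hv)) (not_le.1 hv'))
  have e1 : {x | x ∈ sp S ∧ hLin h x - c ≤ 0} = {x | x ∈ sp S ∧ hLin h x ≤ c} := by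
    ext x; simp only [mem_ofPred_eq, sub_nonpos]
  have e2 : (fun v => h v - c ≤ 0) = fun v => h v ≤ c := by
    funext v; simp only [sub_nonpos]
  have key' : totDim F ({x | x ∈ sp S ∧ hLin h x - c ≤ 0} : Set (V → ℝ)) ∅
      = totDim F (sp (fullSub S fun v => h v - c ≤ 0)) ∅ := key
  rw [e1, e2] at key'
  exact key'

theorem totDim_lt (F : Type) [Field F] {S : Set (Finset V)} (hS : DownClosed S) (h : V → ℝ)
    (c : ℝ) : totDim F ({x | x ∈ sp S ∧ hLin h x < c} : Set (V → ℝ)) ∅
      = totDim F (sp (fullSub S fun v => h v < c)) ∅ := by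
  have key := totDim_sub F hS h c (fun r => r < 0)
    (fun r r' hr hr' t ht => by
      show (1 - t) * r + t * r' < 0
      rcases eq_or_lt_of_le ht.1 with h5 | h5
      · rw [← h5]; simpa using hr
      · have h1 : (1 - t) * r ≤ 0 := mul_nonpos_of_nonneg_of_nonpos (by linarith [ht.2]) (le_of_lt hr)
        have h2 : t * r' < 0 := mul_neg_of_pos_of_neg h5 hr'
        linarith)
    (fun x h0 h1 hx => by
      have hnn : ∀ v, x v * (h v - c) ≤ 0 := by
        intro v
        by_cases hv : h v - c < 0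
        · exact mul_nonpos_of_nonneg_of_nonpos (h0 v) hv.le
        · rw [hx v hv, zero_mul]
      have hex : ∃ v, x v ≠ 0 := by
        by_contra hcon
        push Not at hcon
        simp only [hcon, Finset.sum_const_zero] at h1
        exact zero_ne_one h1
      obtain ⟨v, hv⟩ := hex
      refine Finset.sum_neg' (fun v _ => hnn v) ⟨v, Finset.mem_univ v, ?_⟩
      have hv' : h v - c < 0 := by
        by_contra hh
        exact hv (hx v hh)
      exact mul_neg_of_pos_of_neg (lt_of_le_of_ne (h0 v) (Ne.symm hv)) hv')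
    (fun x h0 h1 hx => by
      show ¬ ∑ v, x v * (h v - c) < 0
      rw [not_lt]
      refine Finset.sum_nonneg fun v _ => ?_
      by_cases hv : h v - c < 0
      · rw [hx v hv, zero_mul]
      · exact mul_nonneg (h0 v) (not_lt.1 hv))
  have e1 : {x | x ∈ sp S ∧ hLin h x - c < 0} = {x | x ∈ sp S ∧ hLin h x < c} := by
    ext x; simp only [mem_ofPred_eq, sub_neg]
  have e2 : (fun v => h v - c < 0) = fun v => h v < c := by
    funext v; simp only [sub_neg]
  have key' : totDim F ({x | x ∈ sp S ∧ hLin h x - c < 0} : Set (V → ℝ)) ∅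
      = totDim F (sp (fullSub S fun v => h v - c < 0)) ∅ := key
  rw [e1, e2] at key'
  exact key'

end BE21

theorem crit_bound (F : Type) [Field F] {V : Type} [Fintype V] [DecidableEq V] (K : SComplex V)
    (h : V → ℝ) (v : V) :
    totDim F {x : K.space // hLin h x.1 ≤ h v} {x | hLin h x.1.1 < h v} ≤
      2 * 2 ^ Fintype.card V := by
  have hS := BE21.downClosed_faces K
  refine (totDim_le_add F _).trans ?_
  have e1 : {x : K.space // hLin h x.1 ≤ h v} ≃ₜ
      ({x | x ∈ sp K.faces ∧ hLin h x ≤ h v} : Set (V → ℝ)) :=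
    { toFun := fun x => ⟨x.1.1, x.1.2, x.2⟩
      invFun := fun x => ⟨⟨x.1, x.2.1⟩, x.2.2⟩
      left_inv := fun x => rfl
      right_inv := fun x => rfl
      continuous_toFun := by fun_prop
      continuous_invFun := by fun_prop }
  have e2 : ({x | hLin h x.1.1 < h v} : Set {x : K.space // hLin h x.1 ≤ h v}) ≃ₜ
      ({x | x ∈ sp K.faces ∧ hLin h x < h v} : Set (V → ℝ)) :=
    { toFun := fun x => ⟨x.1.1.1, x.1.1.2, x.2⟩
      invFun := fun x => ⟨⟨⟨x.1, x.2.1⟩, x.2.2.le⟩, x.2.2⟩
      left_inv := fun x => rfl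
      right_inv := fun x => rfl
      continuous_toFun := by fun_prop
      continuous_invFun := by fun_prop }
  rw [totDim_congr F e1 ∅ ∅ (image_empty _), totDim_congr F e2 ∅ ∅ (image_empty _),
    BE21.totDim_le F hS, BE21.totDim_lt F hS, two_mul]
  exact add_le_add (totDim_sp F _ (BE21.downClosed_fullSub hS _))
    (totDim_sp F _ (BE21.downClosed_fullSub hS _))

end Pool.Agent.PolyKnots
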