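import Pool.Agent.W_MP_be6f00_gt.Model
import Pool.Agent.W_MP_be6f00_gt.Band

set_option autoImplicit false

/-!
# Total absolute curvature of a stretched polyhedral knot
-/

open scoped ENNReal Topology RealInnerProductSpace
open Set MeasureTheory

namespace Pool.Agent.PolyKnots

/-- the image of a polyhedral knot under a linear isomorphism -/
def PolyKnot.map {n : ℕ} (k : PolyKnot n)
    (L : EuclideanSpace ℝ (Fin (n + 2)) ≃ₗ[ℝ] EuclideanSpace ℝ (Fin (n + 2))) : PolyKnot n where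
  V := k.V
  K := k.K
  sphere := k.sphere
  pos := fun v => L (k.pos v)
  inj := by
    intro x hx y hy hxy
    refine k.inj hx hy (L.injective ?_)
    simpa [simplexwise, map_sum] using hxy

namespace BE25

open Pool.Agent.W_MP_be6f00_gt

variable {E : Type*} [NormedAddCommGroup E] [InnerProductSpace ℝ E]

/-- The linear map `x ↦ x + (l - 1) ⟪e, x⟫ e`. -/
noncomputable def str (e : E) (l : ℝ) (x : E) : E := x + ((l - 1) * ⟪e, x⟫) • e

theorem inner_str (e ξ x : E) (l : ℝ) :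
    ⟪ξ, str e l x⟫ = ⟪ξ, x⟫ + (l - 1) * ⟪e, x⟫ * ⟪ξ, e⟫ := by
  unfold str
  rw [inner_add_right, inner_smul_right]

/-- Stretching as a linear equivalence. -/
theorem exists_stretch_equiv [FiniteDimensional ℝ E] (e : E) (l : ℝ) (hl : 1 ≤ l) :
    ∃ L : E ≃ₗ[ℝ] E, ∀ x, L x = str e l x := by
  let f : E →ₗ[ℝ] E :=
    { toFun := fun x => str e l x
      map_add' := by
        intro x y
        simp only [str, inner_add_right]
        module
      map_smul' := by
        intro c x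
        simp only [str, inner_smul_right, RingHom.id_apply]
        module }
  have hinj : Function.Injective f := by
    rw [← LinearMap.ker_eq_bot, LinearMap.ker_eq_bot']
    intro x hx
    have hx' : x + ((l - 1) * ⟪e, x⟫) • e = 0 := hx
    have h1 : ⟪e, x⟫ * (1 + (l - 1) * ‖e‖ ^ 2) = 0 := by
      have := congrArg (fun y => ⟪e, y⟫) hx'
      simp only [inner_add_right, inner_smul_right, inner_zero_right, real_inner_self_eq_norm_sq]
        at this
      linarith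
    have h2 : 0 < 1 + (l - 1) * ‖e‖ ^ 2 := by
      have : 0 ≤ (l - 1) * ‖e‖ ^ 2 := mul_nonneg (by linarith) (by positivity)
      linarith
    have h3 : ⟪e, x⟫ = 0 := by
      rcases mul_eq_zero.1 h1 with h | h
      · exact h
      · exact absurd h h2.ne'
    rw [h3] at hx'
    simpa using hx'
  refine ⟨LinearEquiv.ofInjectiveEndo f hinj, fun x => ?_⟩
  rw [LinearEquiv.coe_ofInjectiveEndo]
  rfl

/-- For a large stretching factor, the order of the heights in each direction outside a thin band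
refines the order in direction `e` or its reverse. -/
theorem exists_stretch_order' {V : Type} [Finite V] (e : E) (pos : V → E) {δ : ℝ} (hδ : 0 < δ) :
    ∃ l : ℝ, 1 ≤ l ∧ ∀ ξ : E, ‖ξ‖ = 1 → δ < |⟪e, ξ⟫| →
      (∀ v w, ⟪e, pos v⟫ < ⟪e, pos w⟫ → ⟪ξ, str e l (pos v)⟫ < ⟪ξ, str e l (pos w)⟫) ∨
      (∀ v w, ⟪e, pos v⟫ < ⟪e, pos w⟫ → ⟪ξ, str e l (pos w)⟫ < ⟪ξ, str e l (pos v)⟫) := by
  classical
  have : Fintype V := Fintype.ofFinite V
  have h1 : ∀ p : V × V, ∃ m : ℝ, 0 ≤ m ∧ ∀ m' ≥ m, ⟪e, pos p.1⟫ < ⟪e, pos p.2⟫ →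
      ‖pos p.2 - pos p.1‖ < m' * (⟪e, pos p.2⟫ - ⟪e, pos p.1⟫) * δ := by
    intro p
    by_cases hp : ⟪e, pos p.1⟫ < ⟪e, pos p.2⟫
    · have hpos : 0 < (⟪e, pos p.2⟫ - ⟪e, pos p.1⟫) * δ := mul_pos (sub_pos.2 hp) hδ
      refine ⟨(‖pos p.2 - pos p.1‖ + 1) / ((⟪e, pos p.2⟫ - ⟪e, pos p.1⟫) * δ), by positivity,
        fun m' hm' _ => ?_⟩
      have : (‖pos p.2 - pos p.1‖ + 1) ≤ m' * ((⟪e, pos p.2⟫ - ⟪e, pos p.1⟫) * δ) := by
        rwa [ge_iff_le, div_le_iff₀ hpos] at hm'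
      nlinarith [this]
    · exact ⟨0, le_rfl, fun _ _ h => absurd h hp⟩
  choose m hm0 hm using h1
  set l : ℝ := 1 + ∑ p, m p with hl
  have hsum : ∀ p, m p ≤ l - 1 := by
    intro p
    have : m p ≤ ∑ q, m q := Finset.single_le_sum (f := m) (fun q _ => hm0 q) (Finset.mem_univ p)
    rw [hl]; linarith
  refine ⟨l, by rw [hl]; linarith [Finset.sum_nonneg fun (q : V × V) (_ : q ∈ Finset.univ) => hm0 q],
    fun ξ hξ hδξ => ?_⟩
  have key : ∀ v w, ⟪e, pos v⟫ < ⟪e, pos w⟫ →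
      |⟪ξ, pos w - pos v⟫| < (l - 1) * (⟪e, pos w⟫ - ⟪e, pos v⟫) * |⟪e, ξ⟫| := by
    intro v w hvw
    have h2 := hm (v, w) (l - 1) (hsum (v, w)) hvw
    have h3 : |⟪ξ, pos w - pos v⟫| ≤ ‖pos w - pos v‖ := by
      calc _ ≤ ‖ξ‖ * ‖pos w - pos v‖ := abs_real_inner_le_norm _ _
        _ = _ := by rw [hξ, one_mul]
    refine lt_of_le_of_lt h3 (lt_of_lt_of_le h2 ?_)
    refine mul_le_mul_of_nonneg_left hδξ.le ?_
    exact mul_nonneg ((hm0 (v, w)).trans (hsum (v, w))) (sub_nonneg.2 hvw.le)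
  rcases le_or_gt 0 ⟪e, ξ⟫ with hs | hs
  · left
    intro v w hvw
    have k1 := key v w hvw
    rw [abs_of_nonneg hs] at k1
    have k2 := neg_abs_le ⟪ξ, pos w - pos v⟫
    rw [inner_str, inner_str, real_inner_comm e ξ]
    rw [inner_sub_right] at k1 k2
    nlinarith
  · right
    intro v w hvw
    have k1 := key v w hvw
    rw [abs_of_neg hs] at k1
    have k2 := le_abs_self ⟪ξ, pos w - pos v⟫
    rw [inner_str, inner_str, real_inner_comm e ξ]
    rw [inner_sub_right] at k1 k2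
    nlinarith

theorem mu_eq {n : ℕ} (k : PolyKnot n) (F : Type) [Field F]
    (ξ : EuclideanSpace ℝ (Fin (n + 2)))
    (hξ : Function.Injective (fun v : k.V => ⟪ξ, k.pos v⟫)) :
    k.mu F ξ = muH F k.K (fun v => ⟪ξ, k.pos v⟫) := by
  unfold PolyKnot.mu muH
  rw [if_pos hξ]
  have : k.height ξ = fun x => hLin (fun v => ⟪ξ, k.pos v⟫) x.1 := by
    funext x
    simp only [PolyKnot.height, simplexwise, hLin, inner_sum, inner_smul_right]
  rw [this]

theorem mu_eq_zero {n : ℕ} (k : PolyKnot n) (F : Type) [Field F]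
    (ξ : EuclideanSpace ℝ (Fin (n + 2)))
    (hξ : ¬ Function.Injective (fun v : k.V => ⟪ξ, k.pos v⟫)) :
    k.mu F ξ = 0 := by
  unfold PolyKnot.mu
  rw [if_neg hξ]

end BE25

open BE25 Pool.Agent.W_MP_be6f00_gt in
theorem TA_stretch {n : ℕ} (k : PolyKnot n) (e : EuclideanSpace ℝ (Fin (n + 2))) (he : e ≠ 0)
    (C : ℝ≥0∞) (hC : C ≠ ⊤)
    (hbound : ∀ (F : Type) [Field F], ∀ h : k.V → ℝ, Function.Injective h → muH F k.K h ≤ C)
    (hgood : ∀ (F : Type) [Field F], ∀ h : k.V → ℝ, Function.Injective h →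
      ((∀ v w, ⟪e, k.pos v⟫ < ⟪e, k.pos w⟫ → h v < h w) ∨
        (∀ v w, ⟪e, k.pos v⟫ < ⟪e, k.pos w⟫ → h w < h v)) → muH F k.K h ≤ 2)
    (ε : ℝ≥0∞) (hε : 0 < ε) :
    ∃ L : EuclideanSpace ℝ (Fin (n + 2)) ≃ₗ[ℝ] EuclideanSpace ℝ (Fin (n + 2)),
      ∀ (F : Type) [Field F], (k.map L).TA F < 2 + ε := by
  classical
  set σ := (volume : Measure (EuclideanSpace ℝ (Fin (n + 2)))).toSphere with hσ
  have hσ0 : σ univ ≠ 0 := by
    rw [hσ, Measure.toSphere_apply_univ]
    simp only [finrank_euclideanSpace, Fintype.card_fin, ne_eq, mul_eq_zero, Nat.cast_eq_zero]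
    push Not
    refine ⟨by simp, (Metric.measure_ball_pos _ _ one_pos).ne'⟩
  have hσt : σ univ ≠ ⊤ := measure_ne_top σ univ
  set ε' : ℝ≥0∞ := min ε 1 * σ univ / (C + 1) with hε'
  have hm1 : min ε 1 ≠ 0 := (lt_min hε one_pos).ne'
  have hm2 : min ε 1 ≠ ⊤ := ((min_le_right _ _).trans_lt ENNReal.one_lt_top).ne
  have hC1 : C + 1 ≠ ⊤ := ENNReal.add_ne_top.2 ⟨hC, ENNReal.one_ne_top⟩
  have hC0 : C + 1 ≠ 0 := by simp
  have hε'0 : 0 < ε' := by
    rw [hε']
    exact ENNReal.div_pos (mul_ne_zero hm1 hσ0) hC1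
  obtain ⟨δ, hδ, hband⟩ := exists_thin_band (E := EuclideanSpace ℝ (Fin (n + 2))) he hε'0
  obtain ⟨l, hl, horder⟩ := exists_stretch_order' e k.pos hδ
  obtain ⟨L, hL⟩ := exists_stretch_equiv e l hl
  refine ⟨L, fun F _ => ?_⟩
  set B : Set (Metric.sphere (0 : EuclideanSpace ℝ (Fin (n + 2))) 1) :=
    {ξ | |⟪e, (ξ : EuclideanSpace ℝ (Fin (n + 2)))⟫| ≤ δ} with hB
  have hBm : MeasurableSet B := by
    refine (isClosed_le ?_ continuous_const).measurableSet
    fun_prop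
  have hle : ∀ ξ : Metric.sphere (0 : EuclideanSpace ℝ (Fin (n + 2))) 1,
      (k.map L).mu F ξ.1 ≤ 2 + B.indicator (fun _ => C) ξ := by
    intro ξ
    have hξ : ‖(ξ : EuclideanSpace ℝ (Fin (n + 2)))‖ = 1 := by simp
    by_cases hinj : Function.Injective
        (fun v : (k.map L).V => ⟪(ξ : EuclideanSpace ℝ (Fin (n + 2))), (k.map L).pos v⟫)
    · rw [mu_eq _ _ _ hinj]
      by_cases hξB : ξ ∈ B
      · rw [Set.indicator_of_mem hξB]
        exact (hbound F _ hinj).trans le_add_self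
      · rw [Set.indicator_of_notMem hξB, add_zero]
        refine hgood F _ hinj ?_
        have h1 : δ < |⟪e, (ξ : EuclideanSpace ℝ (Fin (n + 2)))⟫| := by
          simpa [hB] using hξB
        have := horder ξ hξ h1
        simp only [← hL] at this
        exact this
    · rw [mu_eq_zero _ _ _ hinj]
      exact bot_le
  have hint : ∫⁻ ξ : Metric.sphere (0 : EuclideanSpace ℝ (Fin (n + 2))) 1,
      (k.map L).mu F ξ.1 ∂σ ≤ 2 * σ univ + C * σ B := by
    refine (lintegral_mono hle).trans ?_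
    rw [lintegral_add_left measurable_const, lintegral_const, lintegral_indicator hBm,
      setLIntegral_const]
  unfold PolyKnot.TA
  rw [← hσ]
  refine lt_of_le_of_lt (ENNReal.div_le_div_right hint _) ?_
  rw [ENNReal.add_div]
  have e1 : 2 * σ univ / σ univ = 2 := ENNReal.mul_div_cancel_right hσ0 hσt
  rw [e1]
  refine ENNReal.add_lt_add_left (by simp) ?_
  -- `C * σ B / σ univ < ε`
  have e2 : C * σ B ≤ C * ε' := mul_le_mul_right hband.le _
  have e3 : C * ε' = (C / (C + 1)) * (min ε 1 * σ univ) := by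
    rw [hε', ENNReal.div_eq_inv_mul, ENNReal.div_eq_inv_mul]
    ring
  have e4 : C / (C + 1) < 1 := by
    rw [ENNReal.div_lt_iff (Or.inl hC0) (Or.inl hC1), one_mul]
    exact ENNReal.lt_add_right hC one_ne_zero
  calc C * σ B / σ univ ≤ (C / (C + 1)) * (min ε 1 * σ univ) / σ univ := by
        rw [← e3]; exact ENNReal.div_le_div_right e2 _
    _ = (C / (C + 1)) * min ε 1 := by
        rw [← mul_assoc, ENNReal.mul_div_cancel_right hσ0 hσt]
    _ < 1 * min ε 1 := by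
        exact (ENNReal.mul_lt_mul_iff_left hm1 hm2).2 e4
    _ ≤ ε := by rw [one_mul]; exact min_le_left _ _

end Pool.Agent.PolyKnots
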