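import Pool.Agent.W_MP_be6f00_gt.DataFacts
import Pool.Agent.W_MP_be6f00_gt.Discs
import Pool.Agent.W_MP_be6f00_gt.DataLinks
import Pool.Agent.W_MP_be6f00_gt.SigmaBook
import Pool.Agent.W_MP_be6f00_gt.SphereHomeo
import Pool.Agent.W_MP_be6f00_gt.LocFlatCone
import Pool.Agent.W_MP_be6f00_gt.LocFlatPage
import Pool.Agent.W_MP_be6f00_gt.LocFlatBinding
import Pool.Agent.W_MP_be6f00_gt.Knotted
import Pool.Agent.W_MP_be6f00_gt.Sublevel
import Pool.Agent.W_MP_be6f00_gt.Crit
import Pool.Agent.W_MP_be6f00_gt.BookLinks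
import Pool.Agent.W_MP_be6f00_gt.TA

set_option autoImplicit false

open scoped ENNReal Topology RealInnerProductSpace
open Set

namespace Pool.Agent.PolyKnots

/-! ## Assembly -/

/-- The sphere `Σ` as a polyhedral knot. -/
noncomputable def sigmaKnot : PolyKnot 3 where
  V := BookV tU
  K := book KU tU
  sphere := by
    obtain ⟨θ, h1, h2, h3, h4⟩ := exists_disc_param
    exact book_sphere KU tU KU_oneSided θ h1 h2 h3 h4
  pos := posSigma
  inj := sigma_injOn

/-- the direction in which `Σ` is stretched -/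
noncomputable def dirE : EuclideanSpace ℝ (Fin 5) := WithLp.toLp 2 ![-9, -11, 0, 0, 0]

theorem inner_dirE (x : EuclideanSpace ℝ (Fin 5)) : ⟪dirE, x⟫ = -9 * x 0 - 11 * x 1 := by
  rw [PiLp.inner_apply]
  simp only [dirE, Fin.sum_univ_five, RCLike.inner_apply, conj_trivial, PiLp.toLp_apply]
  simp
  ring

theorem height_cone (q : Bool × Bool) :
    ⟪dirE, posSigma (Sum.inr q)⟫ = -27 * sg q.1 - 33 * sg q.2 := by
  rw [inner_dirE]
  simp only [posSigma, PiLp.toLp_apply]
  simp
  ring

theorem height_inl (z : {x : Fin 396 × Bool // tU x.1 = 0 → x.2 = true}) :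
    ⟪dirE, posSigma (Sum.inl z)⟫ =
      sg z.1.2 * (-9 * max (tU z.1.1 : ℝ) 0 - 11 * max (-(tU z.1.1 : ℝ)) 0) := by
  rw [inner_dirE]
  simp only [posSigma, PiLp.toLp_apply]
  simp
  ring

theorem tU_bound (v : Fin 396) : -2 ≤ tU v ∧ tU v ≤ 2 := by
  revert v; decide +kernel

theorem height_pos {z : {x : Fin 396 × Bool // tU x.1 = 0 → x.2 = true}} (hz : tU z.1.1 ≠ 0)
    (hb : z.1.2 = true) : -22 ≤ ⟪dirE, posSigma (Sum.inl z)⟫ ∧ ⟪dirE, posSigma (Sum.inl z)⟫ ≤ -9 := by
  rw [height_inl, hb]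
  obtain ⟨h1, h2⟩ := tU_bound z.1.1
  have h1' : (-2 : ℝ) ≤ tU z.1.1 := by exact_mod_cast h1
  have h2' : (tU z.1.1 : ℝ) ≤ 2 := by exact_mod_cast h2
  rcases lt_or_gt_of_ne hz with h | h
  · have h3 : (tU z.1.1 : ℝ) ≤ -1 := by exact_mod_cast (by omega : tU z.1.1 ≤ -1)
    rw [max_eq_right (by linarith), max_eq_left (by linarith)]
    simp only [sg, if_true]
    constructor <;> linarith
  · have h3 : (1 : ℝ) ≤ tU z.1.1 := by exact_mod_cast (by omega : 1 ≤ tU z.1.1)
    rw [max_eq_left (by linarith), max_eq_right (by linarith)]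
    simp only [sg, if_true]
    constructor <;> linarith

theorem height_neg {z : {x : Fin 396 × Bool // tU x.1 = 0 → x.2 = true}}
    (hb : z.1.2 = false) : 9 ≤ ⟪dirE, posSigma (Sum.inl z)⟫ ∧ ⟪dirE, posSigma (Sum.inl z)⟫ ≤ 22 := by
  have hz : tU z.1.1 ≠ 0 := by
    intro h0
    have := z.2 h0
    rw [hb] at this
    exact Bool.noConfusion this
  rw [height_inl, hb]
  obtain ⟨h1, h2⟩ := tU_bound z.1.1
  have h1' : (-2 : ℝ) ≤ tU z.1.1 := by exact_mod_cast h1
  have h2' : (tU z.1.1 : ℝ) ≤ 2 := by exact_mod_cast h2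
  rcases lt_or_gt_of_ne hz with h | h
  · have h3 : (tU z.1.1 : ℝ) ≤ -1 := by exact_mod_cast (by omega : tU z.1.1 ≤ -1)
    rw [max_eq_right (by linarith), max_eq_left (by linarith)]
    simp only [sg, Bool.false_eq_true, if_false]
    constructor <;> linarith
  · have h3 : (1 : ℝ) ≤ tU z.1.1 := by exact_mod_cast (by omega : 1 ≤ tU z.1.1)
    rw [max_eq_left (by linarith), max_eq_right (by linarith)]
    simp only [sg, Bool.false_eq_true, if_false]
    constructor <;> linarith

theorem height_zero {z : {x : Fin 396 × Bool // tU x.1 = 0 → x.2 = true}} (hz : tU z.1.1 = 0) :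
    ⟪dirE, posSigma (Sum.inl z)⟫ = 0 := by
  rw [height_inl, hz]
  simp

theorem height_abs (z : {x : Fin 396 × Bool // tU x.1 = 0 → x.2 = true}) :
    -22 ≤ ⟪dirE, posSigma (Sum.inl z)⟫ ∧ ⟪dirE, posSigma (Sum.inl z)⟫ ≤ 22 := by
  by_cases hz : tU z.1.1 = 0
  · rw [height_zero hz]; norm_num
  · rcases hb : z.1.2 with _ | _
    · have := height_neg hb; constructor <;> linarith
    · have := height_pos hz hb; constructor <;> linarith

/-- An injective height that refines the order of `dirE` is a book order. -/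
theorem bookOrder_of (h : BookV tU → ℝ)
    (hh : ∀ v w, ⟪dirE, posSigma v⟫ < ⟪dirE, posSigma w⟫ → h v < h w) : BookOrder tU h := by
  have hpp : ⟪dirE, posSigma (Sum.inr (true, true))⟫ = -60 := by
    rw [height_cone]; simp [sg]; norm_num
  have hmp : ⟪dirE, posSigma (Sum.inr (false, true))⟫ = -6 := by
    rw [height_cone]; simp [sg]; norm_num
  have hpm : ⟪dirE, posSigma (Sum.inr (true, false))⟫ = 6 := by
    rw [height_cone]; simp [sg]; norm_num
  have hmm : ⟪dirE, posSigma (Sum.inr (false, false))⟫ = 60 := by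
    rw [height_cone]; simp [sg]; norm_num
  refine ⟨fun z => hh _ _ ?_, fun z hb hz => hh _ _ ?_, fun z hz => hh _ _ ?_, fun z hz => hh _ _ ?_,
    fun z hb => hh _ _ ?_, fun z => hh _ _ ?_, hh _ _ ?_, hh _ _ ?_, hh _ _ ?_⟩
  · rw [hpp]; have := height_abs z; linarith
  · rw [hmp]; have := height_pos hz hb; linarith
  · rw [hmp, height_zero hz]; norm_num
  · rw [hpm, height_zero hz]; norm_num
  · rw [hpm]; have := height_neg hb; linarith
  · rw [hmm]; have := height_abs z; linarith
  · rw [hpp, hmp]; norm_num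
  · rw [hmp, hpm]; norm_num
  · rw [hpm, hmm]; norm_num

theorem muH_le_two (F : Type) [Field F] (h : BookV tU → ℝ) (hi : Function.Injective h)
    (hb : BookOrder tU h) : muH F (book KU tU) h ≤ 2 := by
  classical
  unfold muH
  have hmin : ∀ w, w ≠ Sum.inr (true, true) → h (Sum.inr (true, true)) < h w := by
    rintro (z | ⟨b, b'⟩) hw
    · exact hb.pp_lt z
    · rcases b with _ | _ <;> rcases b' with _ | _
      · exact hb.pp_lt_mp.trans (hb.mp_lt_pm.trans hb.pm_lt_mm)
      · exact hb.pp_lt_mp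
      · exact hb.pp_lt_mp.trans hb.mp_lt_pm
      · exact absurd rfl hw
  have hmax : ∀ w, w ≠ Sum.inr (false, false) → h w < h (Sum.inr (false, false)) := by
    rintro (z | ⟨b, b'⟩) hw
    · exact hb.lt_mm z
    · rcases b with _ | _ <;> rcases b' with _ | _
      · exact absurd rfl hw
      · exact hb.mp_lt_pm.trans hb.pm_lt_mm
      · exact hb.pm_lt_mm
      · exact hb.pp_lt_mp.trans (hb.mp_lt_pm.trans hb.pm_lt_mm)
  obtain ⟨θ, t1, t2, t3, t4⟩ := exists_disc_param
  have hS := book_sphere KU tU KU_oneSided θ t1 t2 t3 t4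
  have hterm : ∀ v : BookV tU, totDim F {x : (book KU tU).space // hLin h x.1 ≤ h v}
      {x | hLin h x.1.1 < h v} ≤
      (if v = Sum.inr (true, true) then 1 else 0) + (if v = Sum.inr (false, false) then 1 else 0) := by
    intro v
    by_cases h1 : v = Sum.inr (true, true)
    · subst h1
      refine (crit_min F (book KU tU) h _ hmin).trans ?_
      simp
    by_cases h2 : v = Sum.inr (false, false)
    · subst h2
      refine (crit_max F (book KU tU) hS h _ hmax).trans ?_
      simp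
    · rw [crit_zero F (book KU tU) h hi v
        (book_lowerLink KU tU KU_oneSided contractible_D1 contractible_D0int contractible_P0 h hb v
          h1 h2)]
      exact bot_le
  refine (Finset.sum_le_sum fun v _ => hterm v).trans ?_
  rw [Finset.sum_add_distrib, Finset.sum_ite_eq' Finset.univ, Finset.sum_ite_eq' Finset.univ]
  simp only [Finset.mem_univ, if_true]
  norm_num

theorem posSigma_reflect (ρ : BookV tU ≃ BookV tU)
    (h1 : ∀ q : Bool × Bool, ρ (Sum.inr q) = Sum.inr (!q.1, !q.2))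
    (h2 : ∀ z : {x : Fin 396 × Bool // tU x.1 = 0 → x.2 = true}, ∃ z', ρ (Sum.inl z) = Sum.inl z' ∧
      z'.1.1 = z.1.1 ∧ z'.1.2 = if tU z.1.1 = 0 then true else !z.1.2) (v : BookV tU) :
    ⟪dirE, posSigma (ρ v)⟫ = -⟪dirE, posSigma v⟫ := by
  rcases v with z | ⟨b, b'⟩
  · obtain ⟨z', e1, e2, e3⟩ := h2 z
    rw [e1, height_inl, height_inl, e2, e3]
    by_cases hz : tU z.1.1 = 0
    · simp [hz]
    · rw [if_neg hz]
      rcases z.1.2 with _ | _ <;> simp only [sg, Bool.not_true, Bool.not_false, if_true,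
        Bool.false_eq_true, if_false] <;> ring
  · rw [h1, height_cone, height_cone]
    rcases b with _ | _ <;> rcases b' with _ | _ <;> simp [sg] <;> norm_num

theorem muH_good (F : Type) [Field F] (h : BookV tU → ℝ) (hi : Function.Injective h)
    (hh : (∀ v w, ⟪dirE, posSigma v⟫ < ⟪dirE, posSigma w⟫ → h v < h w) ∨
      (∀ v w, ⟪dirE, posSigma v⟫ < ⟪dirE, posSigma w⟫ → h w < h v)) :
    muH F (book KU tU) h ≤ 2 := by
  rcases hh with hh | hh
  · exact muH_le_two F h hi (bookOrder_of h hh)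
  · obtain ⟨ρ, h1, h2, h3⟩ := muH_reflect F KU tU h
    rw [← h3]
    refine muH_le_two F _ (hi.comp ρ.injective) (bookOrder_of _ fun v w hvw => ?_)
    refine hh (ρ w) (ρ v) ?_
    rw [posSigma_reflect ρ h1 h2, posSigma_reflect ρ h1 h2]
    linarith

theorem dirE_ne : dirE ≠ 0 := by
  intro h
  have := congrArg (fun x : EuclideanSpace ℝ (Fin 5) => x 0) h
  simp [dirE] at this

theorem map_image {n : ℕ} (k : PolyKnot n)
    (L : EuclideanSpace ℝ (Fin (n + 2)) ≃ₗ[ℝ] EuclideanSpace ℝ (Fin (n + 2))) :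
    (k.map L).image = L '' k.image := by
  have h : ∀ x : k.V → ℝ, simplexwise (k.map L).pos x = L (simplexwise k.pos x) := by
    intro x
    simp only [simplexwise, map_sum, map_smul]
    rfl
  unfold PolyKnot.image
  rw [image_image]
  exact image_congr fun x _ => h x

theorem final (ε : ℝ≥0∞) (hε : 0 < ε) : ∃ k : PolyKnot 3, k.LocallyUnknotted ∧
    (∀ h : EuclideanSpace ℝ (Fin 5) ≃ₜ EuclideanSpace ℝ (Fin 5), h '' k.image ≠ stdSphere 3) ∧
    ¬ k.Unknotted ∧ ∀ (F : Type) [Field F], k.TA F < 2 + ε := by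
  obtain ⟨L, hL⟩ := TA_stretch sigmaKnot dirE dirE_ne
    (∑ _v : BookV tU, 2 * 2 ^ Fintype.card (BookV tU)) (by
      refine (ENNReal.sum_lt_top.2 fun v _ => ?_).ne
      exact ENNReal.mul_lt_top (by norm_num) (ENNReal.pow_lt_top (by norm_num)))
    (fun F _ h _ => Finset.sum_le_sum fun v _ => crit_bound F (book KU tU) h v)
    (fun F _ h hi hh => muH_good F h hi hh) ε hε
  have himg : (sigmaKnot.map L).image = L '' SigmaSet := by
    rw [map_image]
    congr 1
    exact sigma_image
  have hno : ∀ h : EuclideanSpace ℝ (Fin 5) ≃ₜ EuclideanSpace ℝ (Fin 5),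
      h '' (sigmaKnot.map L).image ≠ stdSphere 3 := by
    intro h heq
    rw [himg, ← image_comp] at heq
    have hLc := L.toContinuousLinearEquiv
    refine sigma_knotted (L.toContinuousLinearEquiv.toHomeomorph.trans h) ?_
    exact heq
  refine ⟨sigmaKnot.map L, ?_, hno, ?_, hL⟩
  · intro v ε hε
    have hflat : LocFlat (n := 3) SigmaSet (posSigma v) := by
      rcases v with z | q
      · by_cases hz : tU z.1.1 = 0
        · exact locFlat_binding z hz
        · exact locFlat_page z hz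
      · exact locFlat_cone q
    have hpos : (sigmaKnot.map L).pos v = L (posSigma v) := rfl
    rw [hpos, himg]
    exact (hflat.map L).exists_star ⟨_, posSigma_mem v, rfl⟩ ε hε
  · rintro ⟨H, _, _, h1⟩
    exact hno (H 1) h1

end Pool.Agent.PolyKnots
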