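import Pool.Agent.W_MP_be6f00_gt.PLb
import Pool.Agent.W_MP_be6f00_gt.Push
import Pool.Agent.W_MP_be6f00_gt.Model

set_option autoImplicit false

/-! # BE11: `Σ` is locally flat at the four cone points, given the unknotting of `U` -/

open Set
open scoped ENNReal Topology

namespace Pool.Agent.PolyKnots

namespace BE11

/-- `E⁵` -/
abbrev E5 := EuclideanSpace ℝ (Fin 5)

/-- coordinate functional -/
noncomputable def co (i : Fin 5) : E5 →ₗ[ℝ] ℝ where
  toFun e := e i
  map_add' _ _ := rfl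
  map_smul' _ _ := rfl

theorem co_apply (i : Fin 5) (e : E5) : co i e = e i := rfl

theorem isPL_co (i : Fin 5) : IsPLOn (fun e : E5 => e i) univ := isPL_linear (co i)

theorem isPL_proj {ι : Type} [Fintype ι] (i : ι) : IsPLOn (fun e : ι → ℝ => e i) univ :=
  isPL_linear (LinearMap.proj i : (ι → ℝ) →ₗ[ℝ] ℝ)

/-- a map to `Fin m → ℝ` with PL coordinates is PL -/
theorem isPL_pi {E : Type} [NormedAddCommGroup E] [NormedSpace ℝ E] [FiniteDimensional ℝ E]
    {m : ℕ} (f : E → Fin m → ℝ) (h : ∀ i, IsPLOn (fun x => f x i) univ) : IsPLOn f univ := by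
  have h1 : ∀ s : Finset (Fin m), IsPLOn (fun x => ∑ i ∈ s, f x i • (Pi.single i (1 : ℝ) : Fin m → ℝ))
      univ := by
    intro s
    induction s using Finset.induction_on with
    | empty => simpa using isPL_const (E := E) (0 : Fin m → ℝ)
    | insert a s ha ih =>
      simp_rw [Finset.sum_insert ha]
      exact ((h a).smul_const _).add ih
  have h2 := h1 Finset.univ
  convert h2 using 1
  funext x j
  simp [Finset.sum_apply, Pi.single_apply]

theorem isPL_toLp {E : Type} [NormedAddCommGroup E] [NormedSpace ℝ E] [FiniteDimensional ℝ E]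
    (f : E → Fin 5 → ℝ) (h : ∀ i, IsPLOn (fun x => f x i) univ) :
    IsPLOn (fun x => (WithLp.toLp 2 (f x) : E5)) univ :=
  IsPLOn.comp (g := fun y : Fin 5 → ℝ => (WithLp.toLp 2 y : E5))
    (isPL_linear ((WithLp.linearEquiv 2 ℝ (Fin 5 → ℝ)).symm : (Fin 5 → ℝ) →ₗ[ℝ] E5)) (isPL_pi f h)

/-! ## the straightening of the corner -/

/-- `(x, y, p, q, r) ↦ ((p, q, r, x - y), 1 - min x y / 3)` -/
noncomputable def bend : E5 ≃ (Fin 4 → ℝ) × ℝ where
  toFun e := (![e 2, e 3, e 4, e 0 - e 1], 1 - min (e 0) (e 1) / 3)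
  invFun z := WithLp.toLp 2 ![3 * (1 - z.2) + max (z.1 3) 0, 3 * (1 - z.2) + max (-z.1 3) 0,
    z.1 0, z.1 1, z.1 2]
  left_inv := by
    intro e
    ext i
    fin_cases i
    · show 3 * (1 - (1 - min (e 0) (e 1) / 3)) + max (e 0 - e 1) 0 = e 0
      rcases le_total (e 0) (e 1) with h | h
      · rw [min_eq_left h, max_eq_right (by linarith)]; ring
      · rw [min_eq_right h, max_eq_left (by linarith)]; ring
    · show 3 * (1 - (1 - min (e 0) (e 1) / 3)) + max (-(e 0 - e 1)) 0 = e 1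
      rcases le_total (e 0) (e 1) with h | h
      · rw [min_eq_left h, max_eq_left (by linarith)]; ring
      · rw [min_eq_right h, max_eq_right (by linarith)]; ring
    · rfl
    · rfl
    · rfl
  right_inv := by
    rintro ⟨z, s⟩
    refine Prod.ext ?_ ?_
    · funext i
      fin_cases i
      · rfl
      · rfl
      · rfl
      · show 3 * (1 - s) + max (z 3) 0 - (3 * (1 - s) + max (-z 3) 0) = z 3
        rcases le_total (z 3) 0 with h | h
        · rw [max_eq_right h, max_eq_left (by linarith)]; ring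
        · rw [max_eq_left h, max_eq_right (by linarith)]; ring
    · show 1 - min (3 * (1 - s) + max (z 3) 0) (3 * (1 - s) + max (-z 3) 0) / 3 = s
      rcases le_total (z 3) 0 with h | h
      · rw [max_eq_right h, max_eq_left (by linarith), min_eq_left (by linarith)]; ring
      · rw [max_eq_left h, max_eq_right (by linarith), min_eq_right (by linarith)]; ring

theorem isPLE_bend : IsPLE bend := by
  constructor
  · show IsPLOn (fun e : E5 => (![e 2, e 3, e 4, e 0 - e 1], 1 - min (e 0) (e 1) / 3)) univ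
    refine IsPLOn.prodMk (isPL_pi _ ?_) ?_
    · intro i
      fin_cases i
      · exact isPL_co 2
      · exact isPL_co 3
      · exact isPL_co 4
      · exact (isPL_co 0).sub (isPL_co 1)
    · have h := (isPL_const (E := E5) (1 : ℝ)).sub (((isPL_co 0).min (isPL_co 1)).const_smul (1 / 3))
      convert h using 1
      funext e
      simp only [smul_eq_mul]
      ring
  · show IsPLOn (fun z : (Fin 4 → ℝ) × ℝ => (WithLp.toLp 2 ![3 * (1 - z.2) + max (z.1 3) 0,
      3 * (1 - z.2) + max (-z.1 3) 0, z.1 0, z.1 1, z.1 2] : E5)) univ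
    have hp : ∀ i : Fin 4, IsPLOn (fun z : (Fin 4 → ℝ) × ℝ => z.1 i) univ := fun i =>
      IsPLOn.comp (isPL_proj i) (isPL_id.fst)
    have hs : IsPLOn (fun z : (Fin 4 → ℝ) × ℝ => 3 * (1 - z.2)) univ :=
      ((isPL_const (E := (Fin 4 → ℝ) × ℝ) (1 : ℝ)).sub isPL_id.snd).const_smul 3
    refine isPL_toLp _ ?_
    intro i
    fin_cases i
    · exact hs.add ((hp 3).max (isPL_const 0))
    · exact hs.add ((hp 3).neg.max (isPL_const 0))
    · exact hp 0
    · exact hp 1
    · exact hp 2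

/-- the apex `(3, 2, 2, 0)` -/
def w0 : Fin 4 → ℝ := ![3, 2, 2, 0]

/-- near the corner `Σ` is the cone over `U` -/
theorem mem_iff_bend (e : E5) (h0 : |e 0 - 3| < 1) (h1 : |e 1 - 3| < 1) :
    e ∈ SigmaSet ↔ ∃ s, 0 ≤ s ∧ ∃ u ∈ USet, bend e = (w0 + s • (u - w0), s) := by
  rw [abs_lt] at h0 h1
  have p0 : 0 < e 0 := by linarith
  have p1 : 0 < e 1 := by linarith
  constructor
  · rintro ⟨s, hs, u, hu, a0, a1, a2, a3, a4⟩
    rw [abs_of_pos p0] at a0
    rw [abs_of_pos p1] at a1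
    refine ⟨s, hs.1, u, hu, ?_⟩
    refine Prod.ext ?_ ?_
    · funext i
      fin_cases i
      · show e 2 = 3 + s * (u 0 - 3)
        rw [a2]; ring
      · show e 3 = 2 + s * (u 1 - 2)
        rw [a3]; ring
      · show e 4 = 2 + s * (u 2 - 2)
        rw [a4]; ring
      · show e 0 - e 1 = 0 + s * (u 3 - 0)
        rw [a0, a1]
        rcases le_total (u 3) 0 with h | h
        · rw [max_eq_right h, max_eq_left (by linarith)]; ring
        · rw [max_eq_left h, max_eq_right (by linarith)]; ring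
    · show 1 - min (e 0) (e 1) / 3 = s
      rw [a0, a1]
      rcases le_total (u 3) 0 with h | h
      · rw [max_eq_right h, max_eq_left (by linarith), min_eq_left]
        · ring
        · nlinarith [hs.1]
      · rw [max_eq_left h, max_eq_right (by linarith), min_eq_right]
        · ring
        · nlinarith [hs.1]
  · rintro ⟨s, hs, u, hu, h⟩
    have hs' : 1 - min (e 0) (e 1) / 3 = s := congrArg Prod.snd h
    have hz : (![e 2, e 3, e 4, e 0 - e 1] : Fin 4 → ℝ) = w0 + s • (u - w0) := congrArg Prod.fst h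
    have z0 : e 2 = 3 + s * (u 0 - 3) := congrFun hz 0
    have z1 : e 3 = 2 + s * (u 1 - 2) := congrFun hz 1
    have z2 : e 4 = 2 + s * (u 2 - 2) := congrFun hz 2
    have z3 : e 0 - e 1 = 0 + s * (u 3 - 0) := congrFun hz 3
    have hm : 0 < min (e 0) (e 1) := lt_min p0 p1
    refine ⟨s, ⟨hs, by linarith⟩, u, hu, ?_, ?_, ?_, ?_, ?_⟩
    · rw [abs_of_pos p0, ← hs']
      rcases le_total (u 3) 0 with h | h
      · have : e 0 ≤ e 1 := by nlinarith
        rw [max_eq_right h, min_eq_left this]; ring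
      · have : e 1 ≤ e 0 := by nlinarith
        rw [max_eq_left h, min_eq_right this]
        have hs'' := hs'
        rw [min_eq_right this] at hs''
        rw [hs'']
        linarith
    · rw [abs_of_pos p1, ← hs']
      rcases le_total (u 3) 0 with h | h
      · have : e 0 ≤ e 1 := by nlinarith
        rw [max_eq_left (by linarith), min_eq_left this]
        have hs'' := hs'
        rw [min_eq_left this] at hs''
        rw [hs'']
        linarith
      · have : e 1 ≤ e 0 := by nlinarith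
        rw [max_eq_right (by linarith), min_eq_right this]; ring
    · rw [z0]; ring
    · rw [z1]; ring
    · rw [z2]; ring

/-! ## the homogenised barycentric coordinates -/

/-- `Λ_i`, `i < 3` -/
noncomputable def lam3 (i : Fin 3) : (Fin 4 → ℝ) × ℝ →ᵃ[ℝ] ℝ :=
  ((LinearMap.proj i.castSucc : (Fin 4 → ℝ) →ₗ[ℝ] ℝ).comp (LinearMap.fst ℝ (Fin 4 → ℝ) ℝ) +
    w0 i.castSucc • LinearMap.snd ℝ (Fin 4 → ℝ) ℝ).toAffineMap -
    AffineMap.const ℝ _ (w0 i.castSucc)

theorem lam3_apply (i : Fin 3) (z : (Fin 4 → ℝ) × ℝ) :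
    lam3 i z = z.1 i.castSucc + w0 i.castSucc * z.2 - w0 i.castSucc := rfl

/-- the linear form `s` -/
noncomputable def sForm : (Fin 4 → ℝ) × ℝ →ᵃ[ℝ] ℝ := (LinearMap.snd ℝ (Fin 4 → ℝ) ℝ).toAffineMap

/-- `Λ_i` -/
noncomputable def lam (i : Fin 4) : (Fin 4 → ℝ) × ℝ →ᵃ[ℝ] ℝ :=
  if h : (i : ℕ) < 3 then lam3 ⟨i, h⟩ else sForm - lam3 0 - lam3 1 - lam3 2

theorem lam_zero (z : (Fin 4 → ℝ) × ℝ) : lam 0 z = z.1 0 + 3 * z.2 - 3 := rfl
theorem lam_one (z : (Fin 4 → ℝ) × ℝ) : lam 1 z = z.1 1 + 2 * z.2 - 2 := rfl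
theorem lam_two (z : (Fin 4 → ℝ) × ℝ) : lam 2 z = z.1 2 + 2 * z.2 - 2 := rfl
theorem lam_three (z : (Fin 4 → ℝ) × ℝ) : lam 3 z = z.2 - (z.1 0 + 3 * z.2 - 3) -
    (z.1 1 + 2 * z.2 - 2) - (z.1 2 + 2 * z.2 - 2) := rfl

/-- `M` -/
noncomputable def mForm : (Fin 4 → ℝ) × ℝ →ᵃ[ℝ] ℝ :=
  ((LinearMap.proj 3 : (Fin 4 → ℝ) →ₗ[ℝ] ℝ).comp (LinearMap.fst ℝ (Fin 4 → ℝ) ℝ)).toAffineMap

theorem mForm_apply (z : (Fin 4 → ℝ) × ℝ) : mForm z = z.1 3 := rfl

/-- the direction of the straightening -/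
noncomputable def dvec : (Fin 4 → ℝ) × ℝ := (![-11, -7, -7, 0], 4)

theorem lam_dvec (i : Fin 4) : (lam i).linear dvec = 1 := by
  fin_cases i
  · show (-11 : ℝ) + 3 * 4 - 0 = 1
    norm_num
  · show (-7 : ℝ) + 2 * 4 - 0 = 1
    norm_num
  · show (-7 : ℝ) + 2 * 4 - 0 = 1
    norm_num
  · show (4 : ℝ) - ((-11 : ℝ) + 3 * 4 - 0) - ((-7 : ℝ) + 2 * 4 - 0) - ((-7 : ℝ) + 2 * 4 - 0) = 1
    norm_num

theorem mForm_dvec : mForm.linear dvec = 0 := rfl

theorem inf'_lam (z : (Fin 4 → ℝ) × ℝ) :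
    (Finset.univ.inf' Finset.univ_nonempty fun i => lam i z) =
      min (min (lam 0 z) (lam 1 z)) (min (lam 2 z) (lam 3 z)) := by
  apply le_antisymm
  · refine le_min (le_min ?_ ?_) (le_min ?_ ?_)
    · exact Finset.inf'_le _ (Finset.mem_univ _)
    · exact Finset.inf'_le _ (Finset.mem_univ _)
    · exact Finset.inf'_le _ (Finset.mem_univ _)
    · exact Finset.inf'_le _ (Finset.mem_univ _)
  · refine Finset.le_inf' _ _ fun i _ => ?_
    fin_cases i
    · exact (min_le_left _ _).trans (min_le_left _ _)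
    · exact (min_le_left _ _).trans (min_le_right _ _)
    · exact (min_le_right _ _).trans (min_le_left _ _)
    · exact (min_le_right _ _).trans (min_le_right _ _)

theorem min_mul4 (s a b c d : ℝ) (hs : 0 ≤ s) : min (min (s * a) (s * b)) (min (s * c) (s * d)) =
    s * min (min a b) (min c d) := by
  rw [mul_min_of_nonneg _ _ hs, mul_min_of_nonneg _ _ hs, mul_min_of_nonneg _ _ hs]

/-- the standard tetrahedron surface in `ℝ³ × 0` (the same as `tetBd`) -/
def tet0 : Set (Fin 4 → ℝ) :=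
  {z | z 3 = 0 ∧ min (min (z 0) (z 1)) (min (z 2) (1 - z 0 - z 1 - z 2)) = 0}

/-- the cone over the standard tetrahedron surface -/
theorem cone_tet_iff (z : (Fin 4 → ℝ) × ℝ) :
    (∃ s, 0 ≤ s ∧ ∃ u ∈ tet0, z = (w0 + s • (u - w0), s)) ↔
      mForm z = 0 ∧ (Finset.univ.inf' Finset.univ_nonempty fun i => lam i z) = 0 := by
  rw [inf'_lam]
  constructor
  · rintro ⟨s, hs, u, ⟨hu3, hu⟩, rfl⟩
    constructor
    · rw [mForm_apply]
      show (0 : ℝ) + s * (u 3 - 0) = 0
      rw [hu3]; ring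
    · have e0 : lam 0 (w0 + s • (u - w0), s) = s * u 0 := by
        rw [lam_zero]
        show 3 + s * (u 0 - 3) + 3 * s - 3 = s * u 0
        ring
      have e1 : lam 1 (w0 + s • (u - w0), s) = s * u 1 := by
        rw [lam_one]
        show 2 + s * (u 1 - 2) + 2 * s - 2 = s * u 1
        ring
      have e2 : lam 2 (w0 + s • (u - w0), s) = s * u 2 := by
        rw [lam_two]
        show 2 + s * (u 2 - 2) + 2 * s - 2 = s * u 2
        ring
      have e3 : lam 3 (w0 + s • (u - w0), s) = s * (1 - u 0 - u 1 - u 2) := by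
        rw [lam_three]
        show s - (3 + s * (u 0 - 3) + 3 * s - 3) - (2 + s * (u 1 - 2) + 2 * s - 2) -
          (2 + s * (u 2 - 2) + 2 * s - 2) = s * (1 - u 0 - u 1 - u 2)
        ring
      rw [e0, e1, e2, e3, min_mul4 _ _ _ _ _ hs, hu, mul_zero]
  · rintro ⟨hM, hL⟩
    rw [mForm_apply] at hM
    have q0 : 0 ≤ lam 0 z := by
      rw [← hL]; exact (min_le_left _ _).trans (min_le_left _ _)
    have q1 : 0 ≤ lam 1 z := by
      rw [← hL]; exact (min_le_left _ _).trans (min_le_right _ _)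
    have q2 : 0 ≤ lam 2 z := by
      rw [← hL]; exact (min_le_right _ _).trans (min_le_left _ _)
    have q3 : 0 ≤ lam 3 z := by
      rw [← hL]; exact (min_le_right _ _).trans (min_le_right _ _)
    rw [lam_zero] at q0
    rw [lam_one] at q1
    rw [lam_two] at q2
    rw [lam_three] at q3
    have hs : 0 ≤ z.2 := by linarith
    rcases hs.eq_or_lt with h | h
    · rw [← h] at q0 q1 q2 q3
      refine ⟨0, le_refl _, 0, ⟨rfl, ?_⟩, ?_⟩
      · simp
      · refine Prod.ext ?_ h.symm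
        funext i
        fin_cases i
        · show z.1 0 = 3 + 0 * _
          linarith
        · show z.1 1 = 2 + 0 * _
          linarith
        · show z.1 2 = 2 + 0 * _
          linarith
        · show z.1 3 = 0 + 0 * _
          linarith
    · refine ⟨z.2, hs, ![lam 0 z / z.2, lam 1 z / z.2, lam 2 z / z.2, 0], ⟨rfl, ?_⟩, ?_⟩
      · show min (min (lam 0 z / z.2) (lam 1 z / z.2)) (min (lam 2 z / z.2)
          (1 - lam 0 z / z.2 - lam 1 z / z.2 - lam 2 z / z.2)) = 0
        have h4 : 1 - lam 0 z / z.2 - lam 1 z / z.2 - lam 2 z / z.2 = lam 3 z / z.2 := by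
          rw [lam_zero, lam_one, lam_two, lam_three]
          field_simp
          try ring
        rw [h4]
        have h5 := min_mul4 z.2 (lam 0 z / z.2) (lam 1 z / z.2) (lam 2 z / z.2) (lam 3 z / z.2) hs
        rw [mul_div_cancel₀ _ h.ne', mul_div_cancel₀ _ h.ne', mul_div_cancel₀ _ h.ne',
          mul_div_cancel₀ _ h.ne', hL] at h5
        rcases mul_eq_zero.1 h5.symm with h6 | h6
        · exact absurd h6 h.ne'
        · exact h6
      · refine Prod.ext ?_ rfl
        funext i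
        fin_cases i
        · show z.1 0 = 3 + z.2 * (lam 0 z / z.2 - 3)
          rw [lam_zero]; field_simp; ring
        · show z.1 1 = 2 + z.2 * (lam 1 z / z.2 - 2)
          rw [lam_one]; field_simp; ring
        · show z.1 2 = 2 + z.2 * (lam 2 z / z.2 - 2)
          rw [lam_two]; field_simp; ring
        · show z.1 3 = 0 + z.2 * (0 - 0)
          rw [hM]; ring

/-- the corner in the positive quadrant -/
theorem locFlat_pp (hU : ∃ e : (Fin 4 → ℝ) ≃ (Fin 4 → ℝ), ConePL e ∧ e '' USet = tet0) :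
    LocFlat (n := 3) SigmaSet (WithLp.toLp 2 ![3, 3, 3, 2, 2]) := by
  obtain ⟨Ψ, hΨ, hΨU⟩ := hU
  obtain ⟨e', he', hcone⟩ := hΨ.cone w0
  obtain ⟨e3, he3, hfl, hκ⟩ := exists_flatten lam 0 dvec lam_dvec
  refine locFlat_of (F := (Fin 4 → ℝ) × ℝ) (by simp) (bend.trans (e'.trans e3))
    (isPLE_bend.trans (he'.trans he3)) ![mForm, lam 0] ?_ 1 one_pos ?_
  · have hf : (fun i => ((![mForm, lam 0] : Fin 2 → ((Fin 4 → ℝ) × ℝ →ᵃ[ℝ] ℝ)) i).linear) =
        ![mForm.linear, (lam 0).linear] := by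
      funext i
      fin_cases i <;> rfl
    rw [hf, LinearIndependent.pair_iff]
    intro a b hab
    have hab' : ∀ z : (Fin 4 → ℝ) × ℝ, a * mForm.linear z + b * (lam 0).linear z = 0 := fun z =>
      LinearMap.congr_fun hab z
    have h1 := hab' (![0, 0, 0, 1], 0)
    have h2 := hab' (![1, 0, 0, 0], 0)
    have e1 : mForm.linear ((![0, 0, 0, 1], 0) : (Fin 4 → ℝ) × ℝ) = 1 := rfl
    have e2 : (lam 0).linear ((![0, 0, 0, 1], 0) : (Fin 4 → ℝ) × ℝ) = 0 := by
      show (0 : ℝ) + 3 * 0 - 0 = 0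
      norm_num
    have e3 : mForm.linear ((![1, 0, 0, 0], 0) : (Fin 4 → ℝ) × ℝ) = 0 := rfl
    have e4 : (lam 0).linear ((![1, 0, 0, 0], 0) : (Fin 4 → ℝ) × ℝ) = 1 := by
      show (1 : ℝ) + 3 * 0 - 0 = 1
      norm_num
    rw [e1, e2] at h1
    rw [e3, e4] at h2
    constructor <;> linarith
  · intro w hw
    have hb : ∀ i : Fin 5, |w i - (WithLp.toLp 2 ![3, 3, 3, 2, 2] : E5) i| < 1 := by
      intro i
      have h2 : ‖w - (WithLp.toLp 2 ![3, 3, 3, 2, 2] : E5)‖ < 1 := by
        rw [← dist_eq_norm]; exact hw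
      refine lt_of_le_of_lt ?_ h2
      exact PiLp.norm_apply_le (w - (WithLp.toLp 2 ![3, 3, 3, 2, 2] : E5)) i
    rw [mem_iff_bend w (hb 0) (hb 1)]
    show _ ↔ mForm (e3 (e' (bend w))) = 0 ∧ lam 0 (e3 (e' (bend w))) = 0
    rw [hfl, hκ mForm mForm_dvec, ← cone_tet_iff]
    constructor
    · rintro ⟨s, hs, u, hu, hb⟩
      exact ⟨s, hs, Ψ u, by rw [← hΨU]; exact mem_image_of_mem _ hu, by rw [hb, hcone u s hs]⟩
    · rintro ⟨s, hs, z, hz, hb⟩
      rw [← hΨU] at hz
      obtain ⟨u, hu, rfl⟩ := hz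
      exact ⟨s, hs, u, hu, e'.injective (by rw [hb, hcone u s hs])⟩

/-- sign change in the coordinates `x`, `y` -/
noncomputable def refl5 (a b : Bool) : E5 ≃ₗ[ℝ] E5 where
  toFun e := WithLp.toLp 2 ![sg a * e 0, sg b * e 1, e 2, e 3, e 4]
  invFun e := WithLp.toLp 2 ![sg a * e 0, sg b * e 1, e 2, e 3, e 4]
  map_add' e f := by
    ext i
    fin_cases i
    · show sg a * (e 0 + f 0) = sg a * e 0 + sg a * f 0
      ring
    · show sg b * (e 1 + f 1) = sg b * e 1 + sg b * f 1
      ring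
    · rfl
    · rfl
    · rfl
  map_smul' c e := by
    ext i
    fin_cases i
    · show sg a * (c * e 0) = c * (sg a * e 0)
      ring
    · show sg b * (c * e 1) = c * (sg b * e 1)
      ring
    · rfl
    · rfl
    · rfl
  left_inv e := by
    have h : ∀ a : Bool, sg a * sg a = 1 := by rintro (_ | _) <;> simp [sg]
    ext i
    fin_cases i
    · show sg a * (sg a * e 0) = e 0
      rw [← mul_assoc, h, one_mul]
    · show sg b * (sg b * e 1) = e 1
      rw [← mul_assoc, h, one_mul]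
    · rfl
    · rfl
    · rfl
  right_inv e := by
    have h : ∀ a : Bool, sg a * sg a = 1 := by rintro (_ | _) <;> simp [sg]
    ext i
    fin_cases i
    · show sg a * (sg a * e 0) = e 0
      rw [← mul_assoc, h, one_mul]
    · show sg b * (sg b * e 1) = e 1
      rw [← mul_assoc, h, one_mul]
    · rfl
    · rfl
    · rfl

theorem abs_sg (a : Bool) (x : ℝ) : |sg a * x| = |x| := by
  rcases a with _ | _ <;> simp [sg]

theorem refl5_mem (a b : Bool) (e : E5) : refl5 a b e ∈ SigmaSet ↔ e ∈ SigmaSet := by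
  have h0 : |(refl5 a b e) 0| = |e 0| := abs_sg a (e 0)
  have h1 : |(refl5 a b e) 1| = |e 1| := abs_sg b (e 1)
  have h2 : (refl5 a b e) 2 = e 2 := rfl
  have h3 : (refl5 a b e) 3 = e 3 := rfl
  have h4 : (refl5 a b e) 4 = e 4 := rfl
  simp only [SigmaSet, mem_ofPred_eq, h0, h1, h2, h3, h4]

theorem refl5_image (a b : Bool) : refl5 a b '' SigmaSet = SigmaSet := by
  ext e
  constructor
  · rintro ⟨e', he', rfl⟩
    exact (refl5_mem a b e').2 he'
  · intro he
    refine ⟨(refl5 a b).symm e, ?_, (refl5 a b).apply_symm_apply e⟩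
    rw [← refl5_mem a b, (refl5 a b).apply_symm_apply]
    exact he

end BE11

end Pool.Agent.PolyKnots
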