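import Pool.Agent.W_MP_be6f00_gt.Model

set_option autoImplicit false

open scoped ENNReal Topology RealInnerProductSpace
open Set

namespace Pool.Agent.PolyKnots.BE13

/-- `e ∈ Σ` iff its projection lies in `U`, for points with `min |x| |y| < 3`. -/
theorem mem_sigma_iff_proj (e : EuclideanSpace ℝ (Fin 5)) (hm : min |e 0| |e 1| < 3) :
    e ∈ SigmaSet ↔ proj e ∈ USet := by
  set m := min |e 0| |e 1| with hmdef
  have hm0 : 0 ≤ m := le_min (abs_nonneg _) (abs_nonneg _)
  have h3 : (0 : ℝ) < 3 - m := by linarith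
  have hproj : proj e = ![3 + 3 / (3 - m) * (e 2 - 3), 2 + 3 / (3 - m) * (e 3 - 2),
      2 + 3 / (3 - m) * (e 4 - 2), 3 / (3 - m) * (|e 0| - |e 1|)] := by
    unfold proj
    rw [if_pos hm]
  constructor
  · rintro ⟨s, hs, u, hu, h0, h1, h2, h3', h4⟩
    have hms : m = (1 - s) * 3 := by
      rw [hmdef, h0, h1]
      rcases le_total (u 3) 0 with hu3 | hu3
      · rw [max_eq_right hu3, max_eq_left (by linarith), min_eq_left]
        · ring
        · nlinarith [mul_nonneg hs.1 (neg_nonneg.2 hu3)]
      · rw [max_eq_left hu3, max_eq_right (by linarith), min_eq_right]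
        · ring
        · nlinarith [mul_nonneg hs.1 hu3]
    have hs0 : 0 < s := by nlinarith
    have hl : 3 / (3 - m) = 1 / s := by
      have h' : 3 - m = 3 * s := by rw [hms]; ring
      rw [h', div_eq_div_iff (by positivity) hs0.ne']
      ring
    have hd : |e 0| - |e 1| = s * u 3 := by
      rw [h0, h1]
      rcases le_total (u 3) 0 with hu3 | hu3
      · rw [max_eq_right hu3, max_eq_left (by linarith)]; ring
      · rw [max_eq_left hu3, max_eq_right (by linarith)]; ring
    have : proj e = u := by
      rw [hproj, hl, hd, h2, h3', h4]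
      funext k
      fin_cases k
      · show 3 + 1 / s * ((1 - s) * 3 + s * u 0 - 3) = u 0
        field_simp; ring
      · show 2 + 1 / s * ((1 - s) * 2 + s * u 1 - 2) = u 1
        field_simp; ring
      · show 2 + 1 / s * ((1 - s) * 2 + s * u 2 - 2) = u 2
        field_simp; ring
      · show 1 / s * (s * u 3) = u 3
        field_simp
    rw [this]; exact hu
  · intro hu
    refine ⟨1 - m / 3, ⟨by linarith, by linarith⟩, proj e, hu, ?_, ?_, ?_, ?_, ?_⟩
    · have h3v : proj e 3 = 3 / (3 - m) * (|e 0| - |e 1|) := by rw [hproj]; rfl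
      rw [h3v]
      rcases le_total |e 0| |e 1| with h | h
      · have hm' : m = |e 0| := min_eq_left h
        rw [max_eq_right (mul_nonpos_of_nonneg_of_nonpos (by positivity) (by linarith))]
        rw [hm']; ring
      · have hm' : m = |e 1| := min_eq_right h
        rw [max_eq_left (mul_nonneg (by positivity) (by linarith))]
        have : 3 - |e 1| ≠ 0 := by rw [← hm']; exact h3.ne'
        rw [hm']; field_simp; ring
    · have h3v : proj e 3 = 3 / (3 - m) * (|e 0| - |e 1|) := by rw [hproj]; rfl
      rw [h3v]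
      rcases le_total |e 0| |e 1| with h | h
      · have hm' : m = |e 0| := min_eq_left h
        have hn : 3 / (3 - m) * (|e 0| - |e 1|) ≤ 0 :=
          mul_nonpos_of_nonneg_of_nonpos (by positivity) (by linarith)
        rw [max_eq_left (by linarith)]
        have : 3 - |e 0| ≠ 0 := by rw [← hm']; exact h3.ne'
        rw [hm']; field_simp; ring
      · have hm' : m = |e 1| := min_eq_right h
        have hn : 0 ≤ 3 / (3 - m) * (|e 0| - |e 1|) := mul_nonneg (by positivity) (by linarith)
        rw [max_eq_right (by linarith)]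
        rw [hm']; ring
    · have hv : proj e 0 = 3 + 3 / (3 - m) * (e 2 - 3) := by rw [hproj]; rfl
      rw [hv]; field_simp; ring
    · have hv : proj e 1 = 2 + 3 / (3 - m) * (e 3 - 2) := by rw [hproj]; rfl
      rw [hv]; field_simp; ring
    · have hv : proj e 2 = 2 + 3 / (3 - m) * (e 4 - 2) := by rw [hproj]; rfl
      rw [hv]; field_simp; ring


theorem linIndep_pair {E : Type} [AddCommGroup E] [Module ℝ E] (f : Fin 2 → E →ₗ[ℝ] ℝ)
    (x₀ x₁ : E) (h00 : f 0 x₀ ≠ 0) (h10 : f 1 x₀ = 0) (h01 : f 0 x₁ = 0) (h11 : f 1 x₁ ≠ 0) :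
    LinearIndependent ℝ f := by
  rw [Fintype.linearIndependent_iff]
  intro g hg
  rw [Fin.sum_univ_two] at hg
  have e0 := LinearMap.congr_fun hg x₀
  have e1 := LinearMap.congr_fun hg x₁
  simp only [LinearMap.add_apply, LinearMap.smul_apply, smul_eq_mul, LinearMap.zero_apply, h10,
    h01, mul_zero, add_zero, zero_add] at e0 e1
  intro i
  fin_cases i
  · exact (mul_eq_zero.1 e0).resolve_right h00
  · exact (mul_eq_zero.1 e1).resolve_right h11

end Pool.Agent.PolyKnots.BE13
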