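import Mathlib

set_option autoImplicit false

/-!
# Linear algebra for bounding the homology of a differential module

`Hle d N k`: the homology of the `d`-stable subspace `N` has dimension at most `k`.
`RHle d A N k`: the homology of `N / A` has dimension at most `k`.
-/

namespace Pool.Agent.W_MP_be6f00_gt

open Submodule

variable {F M : Type*} [Field F] [AddCommGroup M] [Module F M]

/-- The homology of `N` is spanned by at most `k` elements. -/
def Hle (d : M →ₗ[F] M) (N : Submodule F M) (k : ℕ) : Prop :=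
  ∃ s : Finset M, s.card ≤ k ∧ ∀ z ∈ N, d z = 0 → z ∈ span F (s : Set M) ⊔ N.map d

/-- The homology of `N / A` is spanned by at most `k` elements. -/
def RHle (d : M →ₗ[F] M) (A N : Submodule F M) (k : ℕ) : Prop :=
  ∃ s : Finset M, s.card ≤ k ∧ ∀ z ∈ N, d z ∈ A → z ∈ span F (s : Set M) ⊔ (A ⊔ N.map d)

theorem Hle.mono {d : M →ₗ[F] M} {N : Submodule F M} {k l : ℕ} (h : Hle d N k) (hkl : k ≤ l) :
    Hle d N l := by
  obtain ⟨s, hs, h⟩ := h
  exact ⟨s, hs.trans hkl, h⟩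

theorem RHle.mono {d : M →ₗ[F] M} {A N : Submodule F M} {k l : ℕ} (h : RHle d A N k)
    (hkl : k ≤ l) : RHle d A N l := by
  obtain ⟨s, hs, h⟩ := h
  exact ⟨s, hs.trans hkl, h⟩

/-- If `P` is spanned by `s` modulo `Q`, it is spanned by at most `#s` of its own elements
modulo `Q`. -/
theorem exists_finset_lift {P Q : Submodule F M} {s : Finset M}
    (h : P ≤ span F (s : Set M) ⊔ Q) :
    ∃ s' : Finset M, (∀ x ∈ s', x ∈ P) ∧ s'.card ≤ s.card ∧ P ≤ span F (s' : Set M) ⊔ Q := by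
  classical
  have h1 : P.map Q.mkQ ≤ span F ((s.image Q.mkQ : Finset (M ⧸ Q)) : Set (M ⧸ Q)) := by
    rw [Finset.coe_image, ← Submodule.map_span]
    intro y hy
    obtain ⟨x, hx, rfl⟩ := hy
    obtain ⟨a, ha, b, hb, rfl⟩ := Submodule.mem_sup.1 (h hx)
    refine ⟨a, ha, ?_⟩
    rw [map_add, (Submodule.Quotient.mk_eq_zero Q).2 hb |> fun e => (show Q.mkQ b = 0 from e),
      add_zero]
  have hfd : FiniteDimensional F (span F ((s.image Q.mkQ : Finset (M ⧸ Q)) : Set (M ⧸ Q))) :=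
    FiniteDimensional.span_finset F _
  have hfd' : FiniteDimensional F (P.map Q.mkQ) := Submodule.finiteDimensional_of_le h1
  have hr : Module.finrank F (P.map Q.mkQ) ≤ s.card := by
    calc Module.finrank F (P.map Q.mkQ) ≤
        Module.finrank F (span F ((s.image Q.mkQ : Finset (M ⧸ Q)) : Set (M ⧸ Q))) :=
          Submodule.finrank_mono h1
      _ ≤ (s.image Q.mkQ).card := finrank_span_finset_le_card _
      _ ≤ s.card := Finset.card_image_le
  let b := Module.finBasis F (P.map Q.mkQ)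
  have hlift : ∀ i, ∃ x ∈ P, Q.mkQ x = (b i : M ⧸ Q) := fun i => (b i).2
  choose p hp hpb using hlift
  refine ⟨Finset.univ.image p, ?_, ?_, ?_⟩
  · intro x hx
    obtain ⟨i, -, rfl⟩ := Finset.mem_image.1 hx
    exact hp i
  · exact (Finset.card_image_le.trans (by simp)).trans hr
  · intro x hx
    have hx' : Q.mkQ x ∈ P.map Q.mkQ := ⟨x, hx, rfl⟩
    have e := b.sum_repr ⟨Q.mkQ x, hx'⟩
    have e' : ∑ i, (b.repr ⟨Q.mkQ x, hx'⟩ i) • (b i : M ⧸ Q) = Q.mkQ x := by
      have h2 := congrArg (P.map Q.mkQ).subtype e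
      rw [map_sum] at h2
      simpa only [map_smul, Submodule.subtype_apply] using h2
    set y : M := ∑ i, (b.repr ⟨Q.mkQ x, hx'⟩ i) • p i with hy
    have hy1 : y ∈ span F ((Finset.univ.image p : Finset M) : Set M) := by
      refine Submodule.sum_mem _ fun i _ => Submodule.smul_mem _ _ (subset_span ?_)
      exact Finset.mem_coe.2 (Finset.mem_image_of_mem p (Finset.mem_univ i))
    have hy2 : Q.mkQ y = Q.mkQ x := by
      rw [hy, map_sum]
      refine Eq.trans ?_ e'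
      exact Finset.sum_congr rfl fun i _ => by rw [map_smul, hpb]
    have hy3 : x - y ∈ Q := by
      have : Q.mkQ (x - y) = 0 := by rw [map_sub, hy2, sub_self]
      exact (Submodule.Quotient.mk_eq_zero Q).1 this
    have : x = y + (x - y) := by abel
    rw [this]
    exact Submodule.add_mem_sup hy1 hy3

theorem mem_span_image_finset {ι : Type*} {s : Finset ι} {f : ι → M} {x : M}
    (c : ι → F) (h : x = ∑ i ∈ s, c i • f i) [DecidableEq M] :
    x ∈ span F ((s.image f : Finset M) : Set M) := by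
  rw [h]
  exact Submodule.sum_mem _ fun i hi => Submodule.smul_mem _ _
    (subset_span (Finset.mem_coe.2 (Finset.mem_image_of_mem f hi)))

/-- Mayer–Vietoris, as an inequality. -/
theorem Hle.mv {d : M →ₗ[F] M} (hdd : ∀ x, d (d x) = 0) {N N₁ N₂ : Submodule F M}
    (h1 : N₁ ≤ N) (h2 : N₂ ≤ N)
    (hd1 : ∀ x ∈ N₁, d x ∈ N₁) (hd2 : ∀ x ∈ N₂, d x ∈ N₂)
    (small : ∀ z ∈ N, d z ∈ N₁ ⊔ N₂ → ∃ e ∈ N, z - d e ∈ N₁ ⊔ N₂)
    {a b c : ℕ} (H1 : Hle d N₁ a) (H2 : Hle d N₂ b) (H3 : Hle d (N₁ ⊓ N₂) c) :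
    Hle d N (a + b + c) := by
  classical
  obtain ⟨s1, hs1, H1⟩ := H1
  obtain ⟨s2, hs2, H2⟩ := H2
  obtain ⟨s3, hs3, H3⟩ := H3
  -- the cycles of `N₁ ⊓ N₂` that bound in both
  set P : Submodule F M := N₁.map d ⊓ N₂.map d with hP
  have hPle : P ≤ span F (s3 : Set M) ⊔ (N₁ ⊓ N₂).map d := by
    rintro w ⟨⟨x, hx, rfl⟩, ⟨y, hy, hxy⟩⟩
    exact H3 _ ⟨hd1 x hx, hxy ▸ hd2 y hy⟩ (hdd x)
  obtain ⟨s', hs'P, hs'c, hs'⟩ := exists_finset_lift hPle
  have hlift : ∀ w : M, ∃ x y : M, (w ∈ s' → x ∈ N₁ ∧ y ∈ N₂ ∧ d x = w ∧ d y = -w) := by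
    intro w
    by_cases hw : w ∈ s'
    · obtain ⟨⟨x, hx, hxw⟩, ⟨y, hy, hyw⟩⟩ := hs'P w hw
      exact ⟨x, -y, fun _ => ⟨hx, N₂.neg_mem hy, hxw, by rw [map_neg, hyw]⟩⟩
    · exact ⟨0, 0, fun h => absurd h hw⟩
  choose X Y hXY using hlift
  refine ⟨s1 ∪ s2 ∪ s'.image (fun w => X w + Y w), ?_, ?_⟩
  · calc _ ≤ (s1 ∪ s2).card + (s'.image (fun w => X w + Y w)).card := Finset.card_union_le _ _
      _ ≤ (s1.card + s2.card) + s'.card :=
        add_le_add (Finset.card_union_le _ _) Finset.card_image_le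
      _ ≤ a + b + c := add_le_add (add_le_add hs1 hs2) (hs'c.trans hs3)
  · intro z hz hdz
    obtain ⟨e, heN, he⟩ := small z hz (by rw [hdz]; exact Submodule.zero_mem _)
    obtain ⟨x, hx, y, hy, hxy⟩ := Submodule.mem_sup.1 he
    have hdxy : d x + d y = 0 := by
      rw [← map_add, hxy, map_sub, hdz, hdd, sub_zero]
    have hdx : d x ∈ P := ⟨⟨x, hx, rfl⟩, ⟨-y, N₂.neg_mem hy, by
      rw [map_neg]; exact (eq_neg_of_add_eq_zero_left hdxy).symm⟩⟩
    obtain ⟨p, hp, q, ⟨u, hu, huq⟩, hpq⟩ := Submodule.mem_sup.1 (hs' hdx)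
    obtain ⟨co, hco⟩ := Submodule.mem_span_finset'.1 hp
    set c' : M → F := fun w => if hw : w ∈ s' then co ⟨w, hw⟩ else 0 with hc'
    have hp' : p = ∑ w ∈ s', c' w • w := by
      rw [← hco, ← Finset.sum_coe_sort s' (fun w => c' w • w)]
      refine Finset.sum_congr rfl fun w _ => ?_
      simp [hc']
    set XX := ∑ w ∈ s', c' w • X w
    set YY := ∑ w ∈ s', c' w • Y w
    have hXX : XX ∈ N₁ := Submodule.sum_mem _ fun w hw => N₁.smul_mem _ (hXY w hw).1
    have hYY : YY ∈ N₂ := Submodule.sum_mem _ fun w hw => N₂.smul_mem _ (hXY w hw).2.1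
    have hdXX : d XX = p := by
      rw [hp', map_sum]
      exact Finset.sum_congr rfl fun w hw => by rw [map_smul, (hXY w hw).2.2.1]
    have hdYY : d YY = -p := by
      rw [hp', map_sum, ← Finset.sum_neg_distrib]
      exact Finset.sum_congr rfl fun w hw => by rw [map_smul, (hXY w hw).2.2.2, smul_neg]
    have k1 : x - XX - u ∈ span F (s1 : Set M) ⊔ N₁.map d := by
      refine H1 _ (N₁.sub_mem (N₁.sub_mem hx hXX) hu.1) ?_
      rw [map_sub, map_sub, hdXX, huq, ← hpq]; abel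
    have k2 : y - YY + u ∈ span F (s2 : Set M) ⊔ N₂.map d := by
      refine H2 _ (N₂.add_mem (N₂.sub_mem hy hYY) hu.2) ?_
      have : d y = - d x := eq_neg_of_add_eq_zero_right hdxy
      rw [map_add, map_sub, hdYY, huq, this, ← hpq]; abel
    have k3 : XX + YY ∈ span F ((s'.image (fun w => X w + Y w) : Finset M) : Set M) := by
      refine mem_span_image_finset c' ?_
      rw [← Finset.sum_add_distrib]
      exact Finset.sum_congr rfl fun w _ => by rw [smul_add]
    have hz' : z = (x - XX - u) + (y - YY + u) + (XX + YY) + d e := by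
      have : z = x + y + d e := by rw [hxy]; abel
      rw [this]; abel
    set W := span F ((s1 ∪ s2 ∪ s'.image (fun w => X w + Y w) : Finset M) : Set M) ⊔ N.map d
    have l1 : span F (s1 : Set M) ⊔ N₁.map d ≤ W :=
      sup_le_sup (span_mono (by
        intro t ht; simp only [Finset.coe_union, Set.mem_union]; exact Or.inl (Or.inl ht)))
        (Submodule.map_mono h1)
    have l2 : span F (s2 : Set M) ⊔ N₂.map d ≤ W :=
      sup_le_sup (span_mono (by
        intro t ht; simp only [Finset.coe_union, Set.mem_union]; exact Or.inl (Or.inr ht)))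
        (Submodule.map_mono h2)
    have l3 : span F ((s'.image (fun w => X w + Y w) : Finset M) : Set M) ≤ W :=
      le_sup_of_le_left (span_mono (by
        intro t ht; simp only [Finset.coe_union, Set.mem_union]; exact Or.inr ht))
    have l4 : N.map d ≤ W := le_sup_right
    rw [hz']
    exact W.add_mem (W.add_mem (W.add_mem (l1 k1) (l2 k2)) (l3 k3)) (l4 ⟨e, heN, rfl⟩)

/-- Long exact sequence of a pair, as an inequality. -/
theorem RHle.of_les {d : M →ₗ[F] M} (hdd : ∀ x, d (d x) = 0) {A N : Submodule F M}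
    (hAN : A ≤ N) {a b : ℕ} (H1 : Hle d N a) (H2 : Hle d A b) :
    RHle d A N (a + b) := by
  classical
  obtain ⟨s1, hs1, H1⟩ := H1
  obtain ⟨s2, hs2, H2⟩ := H2
  set P : Submodule F M := N.map d ⊓ A with hP
  have hPle : P ≤ span F (s2 : Set M) ⊔ A.map d := by
    rintro w ⟨⟨x, hx, rfl⟩, hw⟩
    exact H2 _ hw (hdd x)
  obtain ⟨s', hs'P, hs'c, hs'⟩ := exists_finset_lift hPle
  have hlift : ∀ w : M, ∃ x : M, (w ∈ s' → x ∈ N ∧ d x = w) := by
    intro w
    by_cases hw : w ∈ s'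
    · obtain ⟨⟨x, hx, hxw⟩, -⟩ := hs'P w hw
      exact ⟨x, fun _ => ⟨hx, hxw⟩⟩
    · exact ⟨0, fun h => absurd h hw⟩
  choose X hX using hlift
  refine ⟨s1 ∪ s'.image X, ?_, ?_⟩
  · calc _ ≤ s1.card + (s'.image X).card := Finset.card_union_le _ _
      _ ≤ s1.card + s'.card := add_le_add le_rfl Finset.card_image_le
      _ ≤ a + b := add_le_add hs1 (hs'c.trans hs2)
  · intro z hz hdz
    have hdzP : d z ∈ P := ⟨⟨z, hz, rfl⟩, hdz⟩
    obtain ⟨p, hp, q, ⟨u, hu, huq⟩, hpq⟩ := Submodule.mem_sup.1 (hs' hdzP)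
    obtain ⟨co, hco⟩ := Submodule.mem_span_finset'.1 hp
    set c' : M → F := fun w => if hw : w ∈ s' then co ⟨w, hw⟩ else 0 with hc'
    have hp' : p = ∑ w ∈ s', c' w • w := by
      rw [← hco, ← Finset.sum_coe_sort s' (fun w => c' w • w)]
      refine Finset.sum_congr rfl fun w _ => ?_
      simp [hc']
    set XX := ∑ w ∈ s', c' w • X w
    have hXX : XX ∈ N := Submodule.sum_mem _ fun w hw => N.smul_mem _ (hX w hw).1
    have hdXX : d XX = p := by
      rw [hp', map_sum]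
      exact Finset.sum_congr rfl fun w hw => by rw [map_smul, (hX w hw).2]
    have k1 : z - XX - u ∈ span F (s1 : Set M) ⊔ N.map d := by
      refine H1 _ (N.sub_mem (N.sub_mem hz hXX) (hAN hu)) ?_
      rw [map_sub, map_sub, hdXX, huq, ← hpq]; abel
    have k3 : XX ∈ span F ((s'.image X : Finset M) : Set M) := mem_span_image_finset c' rfl
    have hz' : z = (z - XX - u) + XX + u := by abel
    set W := span F ((s1 ∪ s'.image X : Finset M) : Set M) ⊔ (A ⊔ N.map d)
    have l1 : span F (s1 : Set M) ⊔ N.map d ≤ W :=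
      sup_le_sup (span_mono (by
        intro t ht; simp only [Finset.coe_union, Set.mem_union]; exact Or.inl ht))
        le_sup_right
    have l3 : span F ((s'.image X : Finset M) : Set M) ≤ W :=
      le_sup_of_le_left (span_mono (by
        intro t ht; simp only [Finset.coe_union, Set.mem_union]; exact Or.inr ht))
    have l4 : A ≤ W := le_sup_of_le_right le_sup_left
    rw [hz']
    exact W.add_mem (W.add_mem (l1 k1) (l3 k3)) (l4 hu)

/-- Transfer along a chain map that is onto up to homotopy. -/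
theorem Hle.of_dominated {M' : Type*} [AddCommGroup M'] [Module F M']
    {d : M →ₗ[F] M} {d' : M' →ₗ[F] M'} {N : Submodule F M} {N' : Submodule F M'}
    (φ : M →ₗ[F] M') (hφ : ∀ x ∈ N, φ x ∈ N') (hφd : ∀ x, φ (d x) = d' (φ x))
    (ψ : ∀ z ∈ N', d' z = 0 → ∃ y ∈ N, d y = 0 ∧ ∃ e ∈ N', z = φ y + d' e)
    {k : ℕ} (H : Hle d N k) : Hle d' N' k := by
  classical
  obtain ⟨s, hs, H⟩ := H
  refine ⟨s.image φ, Finset.card_image_le.trans hs, fun z hz hdz => ?_⟩
  obtain ⟨y, hy, hdy, e, he, rfl⟩ := ψ z hz hdz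
  obtain ⟨p, hp, q, ⟨u, hu, rfl⟩, hpq⟩ := Submodule.mem_sup.1 (H y hy hdy)
  rw [← hpq, map_add, hφd, add_assoc]
  refine Submodule.add_mem_sup ?_ (Submodule.add_mem _ ⟨_, hφ u hu, rfl⟩ ⟨_, he, rfl⟩)
  rw [Finset.coe_image, ← Submodule.map_span]
  exact ⟨p, hp, rfl⟩

/-- The relative version. -/
theorem RHle.of_dominated {M' : Type*} [AddCommGroup M'] [Module F M']
    {d : M →ₗ[F] M} {d' : M' →ₗ[F] M'} {A N : Submodule F M} {A' N' : Submodule F M'}
    (φ : M →ₗ[F] M') (hφ : ∀ x ∈ N, φ x ∈ N') (hφA : ∀ x ∈ A, φ x ∈ A')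
    (hφd : ∀ x, φ (d x) = d' (φ x))
    (ψ : ∀ z ∈ N', d' z ∈ A' → ∃ y ∈ N, d y ∈ A ∧ z - φ y ∈ A' ⊔ N'.map d')
    {k : ℕ} (H : RHle d A N k) : RHle d' A' N' k := by
  classical
  obtain ⟨s, hs, H⟩ := H
  refine ⟨s.image φ, Finset.card_image_le.trans hs, fun z hz hdz => ?_⟩
  obtain ⟨y, hy, hdy, he⟩ := ψ z hz hdz
  obtain ⟨p, hp, q, hq, hpq⟩ := Submodule.mem_sup.1 (H y hy hdy)
  obtain ⟨r, hr, t, ⟨u, hu, rfl⟩, hrt⟩ := Submodule.mem_sup.1 hq
  have hz' : z = φ p + ((φ r + d' (φ u)) + (z - φ y)) := by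
    rw [← hpq, ← hrt, map_add, map_add, hφd]; abel
  rw [hz']
  refine Submodule.add_mem_sup ?_ (Submodule.add_mem _ (Submodule.add_mem_sup (hφA r hr)
    ⟨_, hφ u hu, rfl⟩) he)
  rw [Finset.coe_image, ← Submodule.map_span]
  exact ⟨p, hp, rfl⟩

end Pool.Agent.W_MP_be6f00_gt
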