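import Mathlib
import Pool.Agent.W_MP_be6f00_gt.SingAlg

set_option autoImplicit false

/-!
# Augmented singular chains, ungraded

`G n` are the simplices with `n` vertices; the case `n = 0` is the empty simplex.
-/

namespace Pool.Agent.W_MP_be6f00_gt.Sing

open Finsupp

/-- A contravariant action of the maps between the sets `Fin n`. -/
class Pre (G : ℕ → Type*) where
  act : ∀ {m n : ℕ}, (Fin m → Fin n) → G n → G m
  act_comp : ∀ {l m n : ℕ} (f : Fin l → Fin m) (g : Fin m → Fin n) (x : G n),
    act f (act g x) = act (g ∘ f) x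

variable (F : Type*) [Field F]

/-- The total chain module. -/
abbrev Ch (G : ℕ → Type*) := (Σ n, G n) →₀ F

section

variable {G : ℕ → Type*} [Pre G]

/-- The boundary of a simplex. -/
noncomputable def bd : (Σ n, G n) → Ch F G
  | ⟨0, _⟩ => 0
  | ⟨n + 1, x⟩ => ∑ i : Fin (n + 1), (-1 : F) ^ (i : ℕ) • single ⟨n, Pre.act i.succAbove x⟩ 1

/-- The boundary operator. -/
noncomputable def d : Ch F G →ₗ[F] Ch F G := linearCombination F (bd F)

variable {F}

@[simp] theorem d_zero (x : G 0) : d F (single ⟨0, x⟩ 1) = 0 := by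
  simp [d, bd]

theorem d_succ {n : ℕ} (x : G (n + 1)) : d F (single ⟨n + 1, x⟩ 1) =
    ∑ i : Fin (n + 1), (-1 : F) ^ (i : ℕ) • single ⟨n, Pre.act i.succAbove x⟩ 1 := by
  simp [d, bd]

/-- Two linear maps on chains are equal if they agree on simplices. -/
theorem ch_ext {N : Type*} [AddCommGroup N] [Module F N] {f g : Ch F G →ₗ[F] N}
    (h : ∀ n (x : G n), f (single ⟨n, x⟩ 1) = g (single ⟨n, x⟩ 1)) : f = g := by
  apply Finsupp.lhom_ext'
  rintro ⟨n, x⟩
  apply LinearMap.ext_ring
  exact h n x

theorem d_d (c : Ch F G) : d F (d F c) = 0 := by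
  have : (d F) ∘ₗ (d F) = (0 : Ch F G →ₗ[F] Ch F G) := by
    refine ch_ext fun n x => ?_
    rw [LinearMap.comp_apply, LinearMap.zero_apply]
    rcases n with _ | _ | n
    · simp
    · rw [d_succ, map_sum]
      simp
    · rw [d_succ, map_sum]
      simp_rw [map_smul, d_succ, Pre.act_comp, Finset.smul_sum, smul_smul, ← pow_add]
      rw [← Finset.sum_product', Finset.univ_product_univ]
      refine Finset.sum_involution
        (fun p _ => (p.1.succAbove p.2, p.2.predAbove p.1)) ?_ ?_ ?_ ?_
      · rintro ⟨j, i⟩ -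
        have e : (j.succAbove i).succAbove ∘ (i.predAbove j).succAbove
            = j.succAbove ∘ i.succAbove := by
          funext k
          exact Fin.succAbove_succAbove_succAbove_predAbove j i k
        simp only [e]
        rw [← add_smul, Fin.neg_one_pow_succAbove_add_predAbove, pow_add]
        simp
      · rintro ⟨j, i⟩ - - h
        exact Fin.succAbove_ne j i (congrArg Prod.fst h)
      · intros; exact Finset.mem_univ _
      · rintro ⟨j, i⟩ -
        simp only [Prod.mk.injEq]
        exact ⟨Fin.succAbove_succAbove_predAbove j i, Fin.predAbove_predAbove_succAbove j i⟩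
  exact LinearMap.congr_fun this c

end

/-- A morphism of families of simplices. -/
structure Mor (G G' : ℕ → Type*) [Pre G] [Pre G'] where
  f : ∀ {n}, G n → G' n
  comm : ∀ {m n} (a : Fin m → Fin n) (x : G n), f (Pre.act a x) = Pre.act a (f x)

section

variable {F}
variable {G G' G'' : ℕ → Type*} [Pre G] [Pre G'] [Pre G'']

/-- The push-forward of chains. -/
noncomputable def Mor.map (φ : Mor G G') : Ch F G →ₗ[F] Ch F G' :=
  lmapDomain F F fun p => ⟨p.1, φ.f p.2⟩

@[simp] theorem Mor.map_single (φ : Mor G G') {n : ℕ} (x : G n) (r : F) :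
    φ.map (single ⟨n, x⟩ r : Ch F G) = single ⟨n, φ.f x⟩ r := by
  simp [Mor.map, lmapDomain_apply, mapDomain_single]

theorem Mor.map_d (φ : Mor G G') (c : Ch F G) : φ.map (d F c) = d F (φ.map c) := by
  have : (φ.map : Ch F G →ₗ[F] Ch F G') ∘ₗ (d F) = (d F) ∘ₗ φ.map := by
    refine ch_ext fun n x => ?_
    simp only [LinearMap.comp_apply, Mor.map_single]
    rcases n with _ | n
    · simp
    · simp [d_succ, φ.comm]
  exact LinearMap.congr_fun this c

end

end Pool.Agent.W_MP_be6f00_gt.Sing
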