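import Mathlib
import Pool.Agent.W_MP_be6f00_gt.SingChain

set_option autoImplicit false

/-!
# Affine simplices, cone operators, subdivision and prism operators
-/

namespace Pool.Agent.W_MP_be6f00_gt.Sing

open Finsupp

/-- Tuples of points. -/
abbrev Tup (S : Type*) (n : ℕ) := Fin n → S

instance (S : Type*) : Pre (Tup S) where
  act f m := m ∘ f
  act_comp _ _ _ := rfl

/-- The topological simplex with `n` vertices. -/
abbrev Dl (n : ℕ) := stdSimplex ℝ (Fin n)

/-- The map of simplices induced by a map of vertices. -/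
noncomputable def smap {m n : ℕ} (f : Fin m → Fin n) : C(Dl m, Dl n) :=
  ⟨stdSimplex.map f, stdSimplex.continuous_map f⟩

theorem smap_comp {l m n : ℕ} (f : Fin l → Fin m) (g : Fin m → Fin n) :
    (smap g).comp (smap f) = smap (g ∘ f) := by
  ext1 t
  exact stdSimplex.map_comp_apply f g t

/-- Singular simplices with `n` vertices. -/
abbrev Sim (X : Type*) [TopologicalSpace X] (n : ℕ) := C(Dl n, X)

noncomputable instance (X : Type*) [TopologicalSpace X] : Pre (Sim X) where
  act f σ := σ.comp (smap f)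
  act_comp f g σ := by rw [ContinuousMap.comp_assoc, smap_comp]

/-- Spaces with affine simplices. -/
class AffSp (S : Type*) [TopologicalSpace S] where
  aff : ∀ {n : ℕ}, (Fin n → S) → C(Dl n, S)
  aff_comp : ∀ {m n : ℕ} (p : Fin n → S) (f : Fin m → Fin n),
    aff (p ∘ f) = (aff p).comp (smap f)

export AffSp (aff aff_comp)

section basic

variable {S S' : Type*} [TopologicalSpace S] [TopologicalSpace S'] [AffSp S] [AffSp S']
variable {X Y : Type*} [TopologicalSpace X] [TopologicalSpace Y]

/-- The singular simplex of a tuple of points. -/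
noncomputable def push (σ : C(S, X)) : Mor (Tup S) (Sim X) where
  f m := σ.comp (aff m)
  comm a m := by
    show σ.comp (aff (m ∘ a)) = (σ.comp (aff m)).comp (smap a)
    rw [aff_comp, ContinuousMap.comp_assoc]

/-- The push-forward of singular simplices. -/
def pf (g : C(X, Y)) : Mor (Sim X) (Sim Y) where
  f σ := g.comp σ
  comm a σ := by
    show g.comp (σ.comp (smap a)) = (g.comp σ).comp (smap a)
    rw [ContinuousMap.comp_assoc]

/-- The push-forward of tuples. -/
def mt {S S' : Type*} (α : S → S') : Mor (Tup S) (Tup S') where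
  f m := α ∘ m
  comm _ _ := rfl

variable {F : Type*} [Field F]

theorem pf_push (g : C(X, Y)) (σ : C(S, X)) (c : Ch F (Tup S)) :
    (pf g).map ((push σ).map c) = (push (g.comp σ)).map c := by
  have : ((pf g).map : Ch F (Sim X) →ₗ[F] _) ∘ₗ (push σ).map = (push (g.comp σ)).map := by
    refine ch_ext fun n x => ?_
    simp only [LinearMap.comp_apply, Mor.map_single]
    rfl
  exact LinearMap.congr_fun this c

theorem push_mt (σ : C(S', X)) (β : C(S, S')) (hβ : ∀ (n : ℕ) (m : Fin n → S),
    β.comp (aff m) = aff (β ∘ m)) (c : Ch F (Tup S)) :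
    (push σ).map ((mt β).map c) = (push (σ.comp β)).map c := by
  have : ((push σ).map : Ch F (Tup S') →ₗ[F] Ch F (Sim X)) ∘ₗ (mt β).map
      = (push (σ.comp β)).map := by
    refine ch_ext fun n x => ?_
    simp only [LinearMap.comp_apply, Mor.map_single]
    show (single ⟨n, σ.comp (aff (β ∘ x))⟩ 1 : Ch F (Sim X)) =
      single ⟨n, (σ.comp β).comp (aff x)⟩ 1
    rw [ContinuousMap.comp_assoc, hβ]
  exact LinearMap.congr_fun this c

theorem mt_mt {S S' S'' : Type*} (α : S → S') (β : S' → S'') (c : Ch F (Tup S)) :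
    (mt β).map ((mt α).map c) = (mt (β ∘ α)).map c := by
  have : ((mt β).map : Ch F (Tup S') →ₗ[F] _) ∘ₗ (mt α).map = (mt (β ∘ α)).map := by
    refine ch_ext fun n x => ?_
    simp only [LinearMap.comp_apply, Mor.map_single]
    rfl
  exact LinearMap.congr_fun this c

/-! ### Cones -/

/-- The cone operator. -/
noncomputable def cone {S : Type*} (b : S) : Ch F (Tup S) →ₗ[F] Ch F (Tup S) :=
  lmapDomain F F fun p => ⟨p.1 + 1, Fin.cons b p.2⟩

@[simp] theorem cone_single {S : Type*} (b : S) {n : ℕ} (m : Tup S n) (r : F) :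
    cone b (single ⟨n, m⟩ r : Ch F (Tup S)) =
      single ⟨n + 1, (Fin.cons b m : Fin (n + 1) → S)⟩ r := by
  simp only [cone, lmapDomain_apply, mapDomain_single]

theorem d_cone {S : Type*} (b : S) (c : Ch F (Tup S)) :
    d F (cone b c) = c - cone b (d F c) := by
  have : (d F) ∘ₗ (cone b) = LinearMap.id - (cone b) ∘ₗ (d F (G := Tup S)) := by
    refine ch_ext fun n x => ?_
    simp only [LinearMap.comp_apply, LinearMap.sub_apply, LinearMap.id_apply, cone_single]
    rw [d_succ, Fin.sum_univ_succ]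
    have e0 : (Pre.act (G := Tup S) (Fin.succAbove 0) (Fin.cons b x : Fin (n + 1) → S))
        = x := by
      show (Fin.cons b x : Fin (n + 1) → S) ∘ (Fin.succAbove 0) = x
      funext j; simp
    rw [e0]
    simp only [Fin.val_zero, pow_zero, one_smul]
    rw [sub_eq_add_neg]
    congr 1
    rcases n with _ | n
    · simp
    · rw [d_succ, map_sum, ← Finset.sum_neg_distrib]
      refine Finset.sum_congr rfl fun i _ => ?_
      rw [map_smul, cone_single, ← neg_smul]
      have e1 : (Pre.act (G := Tup S) (i.succ.succAbove) (Fin.cons b x : Fin (n + 2) → S))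
          = (Fin.cons b (Pre.act (G := Tup S) (i.succAbove) x) : Fin (n + 1) → S) := by
        show (Fin.cons b x : Fin (n + 2) → S) ∘ (i.succ.succAbove) =
          (Fin.cons b (x ∘ i.succAbove) : Fin (n + 1) → S)
        funext j
        refine Fin.cases ?_ (fun j => ?_) j
        · simp
        · simp [Fin.succ_succAbove_succ]
      rw [e1]
      simp [pow_succ]
  exact LinearMap.congr_fun this c

theorem mt_cone {S S' : Type*} (α : S → S') (b : S) (c : Ch F (Tup S)) :
    (mt α).map (cone b c) = cone (α b) ((mt α).map c) := by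
  have : ((mt α).map : Ch F (Tup S) →ₗ[F] _) ∘ₗ cone b = cone (α b) ∘ₗ (mt α).map := by
    refine ch_ext fun n x => ?_
    simp only [LinearMap.comp_apply, Mor.map_single, cone_single]
    congr 2
    show α ∘ (Fin.cons b x : Fin (n + 1) → S) = (Fin.cons (α b) (α ∘ x) : Fin (n + 1) → S')
    funext j
    refine Fin.cases ?_ (fun j => ?_) j <;> simp
  exact LinearMap.congr_fun this c

/-! ### Subdivision -/

/-- The barycenter of a nonempty tuple. -/
noncomputable def bary {n : ℕ} (m : Fin (n + 1) → S) : S := aff m stdSimplex.barycenter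

/-- The subdivision of a tuple. -/
noncomputable def sdn (F : Type*) [Field F] : (n : ℕ) → (Fin n → S) → Ch F (Tup S)
  | 0, m => single ⟨0, m⟩ 1
  | n + 1, m => cone (bary m)
      (∑ i : Fin (n + 1), (-1 : F) ^ (i : ℕ) • sdn F n (m ∘ i.succAbove))

/-- The subdivision operator. -/
noncomputable def sd : Ch F (Tup S) →ₗ[F] Ch F (Tup S) :=
  linearCombination F fun p => sdn F p.1 p.2

theorem sd_zero (m : Fin 0 → S) : sd (single ⟨0, m⟩ 1 : Ch F (Tup S)) = single ⟨0, m⟩ 1 := by
  simp [sd, sdn]

theorem sd_single {n : ℕ} (m : Fin n → S) :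
    sd (single ⟨n, m⟩ 1 : Ch F (Tup S)) = sdn F n m := by
  simp [sd]

theorem sd_succ {n : ℕ} (m : Fin (n + 1) → S) :
    sd (single ⟨n + 1, m⟩ 1 : Ch F (Tup S)) = cone (bary m) (sd (d F (single ⟨n + 1, m⟩ 1))) := by
  rw [d_succ, sd_single, sdn]
  refine congrArg _ ?_
  rw [map_sum]
  refine Finset.sum_congr rfl fun i _ => ?_
  rw [map_smul, sd_single]
  rfl

/-- The homotopy between the subdivision and the identity. -/
noncomputable def Tn (F : Type*) [Field F] : (n : ℕ) → (Fin n → S) → Ch F (Tup S)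
  | 0, _ => 0
  | n + 1, m => cone (bary m) (single ⟨n + 1, m⟩ 1 -
      (∑ i : Fin (n + 1), (-1 : F) ^ (i : ℕ) • Tn F n (m ∘ i.succAbove)))

/-- The homotopy between the subdivision and the identity. -/
noncomputable def TT : Ch F (Tup S) →ₗ[F] Ch F (Tup S) :=
  linearCombination F fun p => Tn F p.1 p.2

theorem TT_single {n : ℕ} (m : Fin n → S) :
    TT (single ⟨n, m⟩ 1 : Ch F (Tup S)) = Tn F n m := by
  simp [TT]

theorem TT_zero (m : Fin 0 → S) : TT (single ⟨0, m⟩ 1 : Ch F (Tup S)) = 0 := by
  simp [TT, Tn]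

theorem TT_succ {n : ℕ} (m : Fin (n + 1) → S) :
    TT (single ⟨n + 1, m⟩ 1 : Ch F (Tup S)) =
      cone (bary m) (single ⟨n + 1, m⟩ 1 - TT (d F (single ⟨n + 1, m⟩ 1))) := by
  rw [d_succ, TT_single, Tn, map_sum]
  congr 2
  refine Finset.sum_congr rfl fun i _ => ?_
  rw [map_smul, TT_single]
  rfl

omit [TopologicalSpace S] [AffSp S] in
/-- Induction on the degree: an identity between linear maps on all tuples that follows for
tuples of length `n + 1` from the identity on their boundary. -/
theorem tup_induct {N : Type*} [AddCommGroup N] [Module F N] {f g : Ch F (Tup S) →ₗ[F] N}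
    (h0 : ∀ m : Fin 0 → S, f (single ⟨0, m⟩ 1) = g (single ⟨0, m⟩ 1))
    (h1 : ∀ (n : ℕ) (m : Fin (n + 1) → S),
      f (d F (single ⟨n + 1, m⟩ 1)) = g (d F (single ⟨n + 1, m⟩ 1)) →
      f (single ⟨n + 1, m⟩ 1) = g (single ⟨n + 1, m⟩ 1)) : f = g := by
  refine ch_ext fun n => ?_
  induction n with
  | zero => exact h0
  | succ n ih =>
    intro m
    refine h1 n m ?_
    rw [d_succ, map_sum, map_sum]
    refine Finset.sum_congr rfl fun i _ => ?_
    rw [map_smul, map_smul, ih]

theorem d_sd (c : Ch F (Tup S)) : d F (sd c) = sd (d F c) := by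
  have : (d F) ∘ₗ (sd (S := S)) = sd ∘ₗ (d F) := by
    refine tup_induct (fun m => ?_) (fun n m ih => ?_)
    · simp [sd_zero]
    · simp only [LinearMap.comp_apply] at ih ⊢
      rw [sd_succ, d_cone, ih, d_d, map_zero, map_zero, sub_zero]
  exact LinearMap.congr_fun this c

theorem d_TT (c : Ch F (Tup S)) : d F (TT c) + TT (d F c) = c - sd c := by
  have : (d F) ∘ₗ (TT (S := S)) + TT ∘ₗ (d F) = LinearMap.id - sd := by
    refine tup_induct (fun m => ?_) (fun n m ih => ?_)
    · simp [sd_zero, TT_zero]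
    · simp only [LinearMap.comp_apply, LinearMap.add_apply, LinearMap.sub_apply,
        LinearMap.id_apply, d_d, map_zero, add_zero] at ih ⊢
      rw [TT_succ, d_cone, map_sub, ih, sub_sub_cancel, ← sd_succ]
      abel
  exact LinearMap.congr_fun this c

/-- A map that respects barycenters commutes with the subdivision. -/
theorem mt_sd (α : S → S') (hα : ∀ (n : ℕ) (m : Fin (n + 1) → S), α (bary m) = bary (α ∘ m))
    (c : Ch F (Tup S)) : (mt α).map (sd c) = sd ((mt α).map c) := by
  have : ((mt α).map : Ch F (Tup S) →ₗ[F] _) ∘ₗ sd = sd ∘ₗ (mt α).map := by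
    refine tup_induct (fun m => ?_) (fun n m ih => ?_)
    · simp [sd_zero]
    · simp only [LinearMap.comp_apply] at ih ⊢
      rw [sd_succ, mt_cone, ih, hα, Mor.map_d, Mor.map_single]
      exact (sd_succ (α ∘ m)).symm
  exact LinearMap.congr_fun this c

theorem mt_TT (α : S → S') (hα : ∀ (n : ℕ) (m : Fin (n + 1) → S), α (bary m) = bary (α ∘ m))
    (c : Ch F (Tup S)) : (mt α).map (TT c) = TT ((mt α).map c) := by
  have : ((mt α).map : Ch F (Tup S) →ₗ[F] _) ∘ₗ TT = TT ∘ₗ (mt α).map := by
    refine tup_induct (fun m => ?_) (fun n m ih => ?_)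
    · simp [TT_zero]
    · simp only [LinearMap.comp_apply] at ih ⊢
      rw [TT_succ, mt_cone, map_sub, ih, hα, Mor.map_d, Mor.map_single]
      exact (TT_succ (α ∘ m)).symm
  exact LinearMap.congr_fun this c

end basic

/-! ### The prism operator -/

section prism

variable {S S' I : Type*}
variable {F : Type*} [Field F]

/-- The prism over a tuple. -/
noncomputable def Pn (F : Type*) [Field F] (a b : I) : (n : ℕ) → (Fin n → S) → Ch F (Tup (S × I))
  | 0, _ => 0
  | n + 1, m => cone (m 0, a) (single ⟨n + 1, fun j => (m j, b)⟩ 1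
      - single ⟨n + 1, fun j => (m j, a)⟩ 1 -
      (∑ i : Fin (n + 1), (-1 : F) ^ (i : ℕ) • Pn F a b n (m ∘ i.succAbove)))

/-- The prism operator. -/
noncomputable def PP (a b : I) : Ch F (Tup S) →ₗ[F] Ch F (Tup (S × I)) :=
  linearCombination F fun p => Pn F a b p.1 p.2

theorem PP_single (a b : I) {n : ℕ} (m : Fin n → S) :
    PP a b (single ⟨n, m⟩ 1 : Ch F (Tup S)) = Pn F a b n m := by
  simp [PP]

theorem PP_zero (a b : I) (m : Fin 0 → S) : PP a b (single ⟨0, m⟩ 1 : Ch F (Tup S)) = 0 := by
  simp [PP, Pn]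

theorem PP_succ (a b : I) {n : ℕ} (m : Fin (n + 1) → S) :
    PP a b (single ⟨n + 1, m⟩ 1 : Ch F (Tup S)) =
      cone (m 0, a) ((mt fun s => (s, b)).map (single ⟨n + 1, m⟩ 1)
        - (mt fun s => (s, a)).map (single ⟨n + 1, m⟩ 1)
        - PP a b (d F (single ⟨n + 1, m⟩ 1))) := by
  rw [d_succ, PP_single, Pn, map_sum]
  simp only [Mor.map_single]
  congr 2
  refine Finset.sum_congr rfl fun i _ => ?_
  rw [map_smul, PP_single]
  rfl

theorem d_PP (a b : I) (c : Ch F (Tup S)) :
    d F (PP a b c) + PP a b (d F c) =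
      (mt fun s => (s, b)).map c - (mt fun s => (s, a)).map c := by
  have : (d F) ∘ₗ (PP a b (S := S)) + PP a b ∘ₗ (d F) =
      (mt fun s => (s, b)).map - (mt fun s => (s, a)).map := by
    refine tup_induct (fun m => ?_) (fun n m ih => ?_)
    · simp only [LinearMap.add_apply, LinearMap.comp_apply, PP_zero, map_zero, d_zero,
        LinearMap.sub_apply, Mor.map_single, add_zero]
      rw [eq_comm, sub_eq_zero]
      congr 2
      funext j; exact j.elim0
    · simp only [LinearMap.comp_apply, LinearMap.add_apply, LinearMap.sub_apply,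
        d_d, map_zero, add_zero] at ih ⊢
      have hd : d F ((mt fun s => (s, b)).map (single ⟨n + 1, m⟩ 1 : Ch F (Tup S))
        - (mt fun s => (s, a)).map (single ⟨n + 1, m⟩ 1 : Ch F (Tup S))
        - PP a b (d F (single ⟨n + 1, m⟩ 1))) = 0 := by
        rw [map_sub, map_sub, ih, ← Mor.map_d, ← Mor.map_d]
        abel
      rw [PP_succ, d_cone, hd, map_zero]
      abel
  exact LinearMap.congr_fun this c

theorem mt_PP (a b : I) (α : S → S') (c : Ch F (Tup S)) :
    (mt (Prod.map α id)).map (PP a b c) = PP a b ((mt α).map c) := by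
  have : ((mt (Prod.map α (id : I → I))).map : Ch F (Tup (S × I)) →ₗ[F] _) ∘ₗ PP a b =
      PP a b ∘ₗ (mt α).map := by
    refine tup_induct (fun m => ?_) (fun n m ih => ?_)
    · simp only [LinearMap.comp_apply, PP_zero, map_zero, Mor.map_single]
    · simp only [LinearMap.comp_apply] at ih ⊢
      have e : (mt α).map (single ⟨n + 1, m⟩ 1 : Ch F (Tup S)) =
        single ⟨n + 1, α ∘ m⟩ 1 := Mor.map_single _ _ _
      rw [PP_succ, mt_cone, e, PP_succ]
      refine congrArg _ ?_
      rw [map_sub, map_sub, ih, Mor.map_d, e]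
      simp only [Mor.map_single]
      rfl
  exact LinearMap.congr_fun this c

end prism

end Pool.Agent.W_MP_be6f00_gt.Sing
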