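import Pool.Agent.W_MP_be6f00_gt.Model

set_option autoImplicit false

/-! # BE14: transport is locally multiplicative where the transitions are flat -/

open scoped ENNReal Topology
open Set

namespace Pool.Agent.PolyKnots

namespace BE14

variable {G : Type} [Group G]

/-- the cells of the cube with lower corner `b` and directions `D` -/
def Cube (D : Fin 4 → Prop) (b c : Fin 4 → ℤ) : Prop := ∀ k, c k = b k ∨ (D k ∧ c k = b k + 1)

/-- flatness in the cube -/
def FlatC (e : Fin 4 → (Fin 4 → ℤ) → G) (D : Fin 4 → Prop) (b : Fin 4 → ℤ) : Prop :=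
  ∀ c i j, i ≠ j → D i → D j → Cube D b c → c i = b i → c j = b j → FlatAt e c i j

theorem cube_base (D : Fin 4 → Prop) (b : Fin 4 → ℤ) : Cube D b b := fun _ => Or.inl rfl

theorem Cube.update {D : Fin 4 → Prop} {b c : Fin 4 → ℤ} (h : Cube D b c) (k : Fin 4) (x : ℤ)
    (hx : x = b k ∨ (D k ∧ x = b k + 1)) : Cube D b (Function.update c k x) := by
  intro j
  by_cases hj : j = k
  · subst hj; simpa using hx
  · simpa [Function.update_of_ne hj] using h j

theorem stepTr_same (e : Fin 4 → (Fin 4 → ℤ) → G) (k : Fin 4) (c : Fin 4 → ℤ) (x : ℤ)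
    (h : x = c k) : stepTr e k c x = 1 := by
  unfold stepTr
  rw [if_neg (by omega), if_neg (by omega)]

theorem stepTr_up (e : Fin 4 → (Fin 4 → ℤ) → G) (k : Fin 4) (c : Fin 4 → ℤ) (x : ℤ)
    (h : x = c k + 1) : stepTr e k c x = e k c := by
  unfold stepTr
  rw [if_pos h]

theorem stepTr_down (e : Fin 4 → (Fin 4 → ℤ) → G) (k : Fin 4) (c : Fin 4 → ℤ) (x : ℤ)
    (h : x = c k - 1) : stepTr e k c x = (e k (Function.update c k x))⁻¹ := by
  unfold stepTr
  rw [if_neg (by omega), if_pos h]

/-- commutation of a step in direction `k` with an edge in direction `i` -/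
theorem comm_step {e : Fin 4 → (Fin 4 → ℤ) → G} {D : Fin 4 → Prop} {b : Fin 4 → ℤ}
    (hF : FlatC e D b) {P : Fin 4 → ℤ} (hP : Cube D b P) {i k : Fin 4} (hik : i ≠ k) (hi : D i)
    (hPi : P i = b i) (hPk : P k = b k) (x : ℤ) (hx : x = b k ∨ (D k ∧ x = b k + 1)) :
    stepTr e k P x * e i (Function.update P k x) =
      e i P * stepTr e k (Function.update P i (P i + 1)) x := by
  have h1 : (Function.update P i (P i + 1)) k = P k := by
    rw [Function.update_of_ne (Ne.symm hik)]
  rcases hx with hx | ⟨hk, hx⟩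
  · rw [stepTr_same e k P x (by omega), stepTr_same e k _ x (by rw [h1]; omega)]
    have : Function.update P k x = P := by
      rw [hx, ← hPk, Function.update_eq_self]
    rw [this, one_mul, mul_one]
  · rw [stepTr_up e k P x (by omega), stepTr_up e k _ x (by rw [h1]; omega)]
    have := hF P k i (Ne.symm hik) hk hi hP hPk hPi
    unfold FlatAt at this
    rw [show x = P k + 1 by omega]
    exact this

/-- the potential: ordered transport from the base cell -/
def pot (e : Fin 4 → (Fin 4 → ℤ) → G) (b c : Fin 4 → ℤ) : G := transport e b c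

theorem pot_edge {e : Fin 4 → (Fin 4 → ℤ) → G} {D : Fin 4 → Prop} {b : Fin 4 → ℤ}
    (hF : FlatC e D b) {c : Fin 4 → ℤ} (hc : Cube D b c) (i : Fin 4) (hi : D i) (hci : c i = b i) :
    pot e b c * e i c = pot e b (Function.update c i (c i + 1)) := by
  have c0 := hc 0
  have c1 := hc 1
  have c2 := hc 2
  have c3 := hc 3
  -- intermediate cells
  set P1 := Function.update b 0 (c 0) with hP1
  set P2 := Function.update P1 1 (c 1) with hP2
  set P3 := Function.update P2 2 (c 2) with hP3
  have hP4 : Function.update P3 3 (c 3) = c := by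
    funext k
    fin_cases k <;> simp [hP3, hP2, hP1, Function.update]
  have q1 : Cube D b P1 := (cube_base D b).update 0 _ c0
  have q2 : Cube D b P2 := q1.update 1 _ c1
  have q3 : Cube D b P3 := q2.update 2 _ c2
  have hpot : pot e b c = stepTr e 0 b (c 0) * stepTr e 1 P1 (c 1) * stepTr e 2 P2 (c 2) *
      stepTr e 3 P3 (c 3) := rfl
  fin_cases i
  · -- i = 0
    simp only [Fin.zero_eta, Fin.isValue] at hi hci ⊢
    have hb1 : P1 = b := by rw [hP1, hci, Function.update_eq_self]
    have k1 := comm_step hF q1 (i := 0) (k := 1) (by decide) hi (by rw [hb1]) (by rw [hb1]) (c 1) c1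
    have k2 := comm_step hF q2 (i := 0) (k := 2) (by decide) hi (by simp [hP2, hb1, Function.update])
      (by simp [hP2, hb1, Function.update]) (c 2) c2
    have k3 := comm_step hF q3 (i := 0) (k := 3) (by decide) hi
      (by simp [hP3, hP2, hb1, Function.update]) (by simp [hP3, hP2, hb1, Function.update]) (c 3) c3
    rw [hP4] at k3
    rw [← hP3] at k2
    rw [← hP2] at k1
    have e0 : stepTr e 0 b (c 0) = 1 := stepTr_same e 0 b _ hci
    have hnew : pot e b (Function.update c 0 (c 0 + 1)) = e 0 b *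
        stepTr e 1 (Function.update b 0 (c 0 + 1)) (c 1) *
        stepTr e 2 (Function.update (Function.update b 0 (c 0 + 1)) 1 (c 1)) (c 2) *
        stepTr e 3 (Function.update (Function.update (Function.update b 0 (c 0 + 1)) 1 (c 1)) 2 (c 2))
          (c 3) := by
      unfold pot transport
      simp only [Function.update_self]
      rw [Function.update_of_ne (by decide : (1 : Fin 4) ≠ 0),
        Function.update_of_ne (by decide : (2 : Fin 4) ≠ 0),
        Function.update_of_ne (by decide : (3 : Fin 4) ≠ 0),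
        stepTr_up e 0 b (c 0 + 1) (by omega)]
    have r1 : Function.update P1 0 (P1 0 + 1) = Function.update b 0 (c 0 + 1) := by
      rw [hb1, hci]
    have r2 : Function.update P2 0 (P2 0 + 1) =
        Function.update (Function.update b 0 (c 0 + 1)) 1 (c 1) := by
      funext k
      fin_cases k <;> simp [hP2, hb1, hci, Function.update]
    have r3 : Function.update P3 0 (P3 0 + 1) =
        Function.update (Function.update (Function.update b 0 (c 0 + 1)) 1 (c 1)) 2 (c 2) := by
      funext k
      fin_cases k <;> simp [hP3, hP2, hb1, hci, Function.update]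
    rw [hpot, hnew, e0, ← r3, ← r2, ← r1]
    calc 1 * stepTr e 1 P1 (c 1) * stepTr e 2 P2 (c 2) * stepTr e 3 P3 (c 3) * e 0 c
        = stepTr e 1 P1 (c 1) * (stepTr e 2 P2 (c 2) * (stepTr e 3 P3 (c 3) * e 0 c)) := by
          simp only [one_mul, mul_assoc]
      _ = stepTr e 1 P1 (c 1) * ((stepTr e 2 P2 (c 2) * e 0 P3) *
            stepTr e 3 (Function.update P3 0 (P3 0 + 1)) (c 3)) := by
          rw [k3]; simp only [mul_assoc]
      _ = (stepTr e 1 P1 (c 1) * e 0 P2) * (stepTr e 2 (Function.update P2 0 (P2 0 + 1)) (c 2) *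
            stepTr e 3 (Function.update P3 0 (P3 0 + 1)) (c 3)) := by
          rw [k2]; simp only [mul_assoc]
      _ = _ := by
          rw [k1, hb1]; simp only [mul_assoc]
  · -- i = 1
    simp only [Fin.mk_one, Fin.isValue] at hi hci ⊢
    have hb2 : P2 = P1 := by
      rw [hP2, hci, show b 1 = P1 1 by simp [hP1, Function.update], Function.update_eq_self]
    have k2 := comm_step hF q2 (i := 1) (k := 2) (by decide) hi
      (by simp [hb2, hP1, Function.update]) (by simp [hb2, hP1, Function.update]) (c 2) c2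
    have k3 := comm_step hF q3 (i := 1) (k := 3) (by decide) hi
      (by simp [hP3, hb2, hP1, Function.update]) (by simp [hP3, hb2, hP1, Function.update]) (c 3) c3
    rw [hP4] at k3
    rw [← hP3] at k2
    have e1 : stepTr e 1 P1 (c 1) = 1 := stepTr_same e 1 P1 _ (by simp [hP1, hci, Function.update])
    have hnew : pot e b (Function.update c 1 (c 1 + 1)) = stepTr e 0 b (c 0) * e 1 P1 *
        stepTr e 2 (Function.update P1 1 (c 1 + 1)) (c 2) *
        stepTr e 3 (Function.update (Function.update P1 1 (c 1 + 1)) 2 (c 2)) (c 3) := by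
      unfold pot transport
      simp only [Function.update_self]
      rw [Function.update_of_ne (by decide : (0 : Fin 4) ≠ 1),
        Function.update_of_ne (by decide : (2 : Fin 4) ≠ 1),
        Function.update_of_ne (by decide : (3 : Fin 4) ≠ 1), ← hP1,
        stepTr_up e 1 P1 (c 1 + 1) (by simp [hP1, hci, Function.update])]
    have r2 : Function.update P2 1 (P2 1 + 1) = Function.update P1 1 (c 1 + 1) := by
      funext k
      fin_cases k <;> simp [hb2, hP1, hci, Function.update]
    have r3 : Function.update P3 1 (P3 1 + 1) =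
        Function.update (Function.update P1 1 (c 1 + 1)) 2 (c 2) := by
      funext k
      fin_cases k <;> simp [hP3, hb2, hP1, hci, Function.update]
    rw [hpot, hnew, e1, ← r3, ← r2]
    calc stepTr e 0 b (c 0) * 1 * stepTr e 2 P2 (c 2) * stepTr e 3 P3 (c 3) * e 1 c
        = stepTr e 0 b (c 0) * (stepTr e 2 P2 (c 2) * (stepTr e 3 P3 (c 3) * e 1 c)) := by
          simp only [mul_one, mul_assoc]
      _ = stepTr e 0 b (c 0) * ((stepTr e 2 P2 (c 2) * e 1 P3) *
            stepTr e 3 (Function.update P3 1 (P3 1 + 1)) (c 3)) := by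
          rw [k3]; simp only [mul_assoc]
      _ = _ := by
          rw [k2, hb2]; simp only [mul_assoc]
  · -- i = 2
    simp only [Fin.reduceFinMk, Fin.isValue] at hi hci ⊢
    have hb3 : P3 = P2 := by
      rw [hP3, hci, show b 2 = P2 2 by simp [hP2, hP1, Function.update], Function.update_eq_self]
    have k3 := comm_step hF q3 (i := 2) (k := 3) (by decide) hi
      (by simp [hb3, hP2, hP1, Function.update]) (by simp [hb3, hP2, hP1, Function.update]) (c 3) c3
    rw [hP4] at k3
    have e2 : stepTr e 2 P2 (c 2) = 1 :=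
      stepTr_same e 2 P2 _ (by simp [hP2, hP1, hci, Function.update])
    have hnew : pot e b (Function.update c 2 (c 2 + 1)) = stepTr e 0 b (c 0) *
        stepTr e 1 P1 (c 1) * e 2 P2 * stepTr e 3 (Function.update P2 2 (c 2 + 1)) (c 3) := by
      unfold pot transport
      simp only [Function.update_self]
      rw [Function.update_of_ne (by decide : (0 : Fin 4) ≠ 2),
        Function.update_of_ne (by decide : (1 : Fin 4) ≠ 2),
        Function.update_of_ne (by decide : (3 : Fin 4) ≠ 2), ← hP1, ← hP2,
        stepTr_up e 2 P2 (c 2 + 1) (by simp [hP2, hP1, hci, Function.update])]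
    have r3 : Function.update P3 2 (P3 2 + 1) = Function.update P2 2 (c 2 + 1) := by
      funext k
      fin_cases k <;> simp [hb3, hP2, hP1, hci, Function.update]
    rw [hpot, hnew, e2, ← r3]
    calc stepTr e 0 b (c 0) * stepTr e 1 P1 (c 1) * 1 * stepTr e 3 P3 (c 3) * e 2 c
        = stepTr e 0 b (c 0) * stepTr e 1 P1 (c 1) * (stepTr e 3 P3 (c 3) * e 2 c) := by
          simp only [mul_one, mul_assoc]
      _ = _ := by
          rw [k3, hb3]; simp only [mul_assoc]
  · -- i = 3
    simp only [Fin.reduceFinMk, Fin.isValue] at hi hci ⊢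
    have hb4 : P3 = c := by
      rw [← hP4, hci, show b 3 = P3 3 by simp [hP3, hP2, hP1, Function.update],
        Function.update_eq_self]
    have e3 : stepTr e 3 P3 (c 3) = 1 :=
      stepTr_same e 3 P3 _ (by simp [hP3, hP2, hP1, hci, Function.update])
    have hnew : pot e b (Function.update c 3 (c 3 + 1)) = stepTr e 0 b (c 0) *
        stepTr e 1 P1 (c 1) * stepTr e 2 P2 (c 2) * e 3 P3 := by
      unfold pot transport
      simp only [Function.update_self]
      rw [Function.update_of_ne (by decide : (0 : Fin 4) ≠ 3),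
        Function.update_of_ne (by decide : (1 : Fin 4) ≠ 3),
        Function.update_of_ne (by decide : (2 : Fin 4) ≠ 3), ← hP1, ← hP2, ← hP3,
        stepTr_up e 3 P3 (c 3 + 1) (by simp [hP3, hP2, hP1, hci, Function.update])]
    rw [hpot, hnew, e3, mul_one, hb4]

theorem step_pot {e : Fin 4 → (Fin 4 → ℤ) → G} {D : Fin 4 → Prop} {b : Fin 4 → ℤ}
    (hF : FlatC e D b) {Q : Fin 4 → ℤ} (hQ : Cube D b Q) (k : Fin 4) (x : ℤ)
    (hx : x = b k ∨ (D k ∧ x = b k + 1)) :
    stepTr e k Q x = (pot e b Q)⁻¹ * pot e b (Function.update Q k x) := by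
  rcases hQ k with hk | ⟨hD, hk⟩
  · rcases hx with hx | ⟨hD, hx⟩
    · rw [stepTr_same e k Q x (by omega), show Function.update Q k x = Q by
        rw [hx, ← hk, Function.update_eq_self], inv_mul_cancel]
    · rw [stepTr_up e k Q x (by omega), show x = Q k + 1 by omega, ← pot_edge hF hQ k hD hk,
        inv_mul_cancel_left]
  · rcases hx with hx | ⟨_, hx⟩
    · have hR : Cube D b (Function.update Q k x) := hQ.update k x (Or.inl hx)
      have h1 := pot_edge hF hR k hD (by simp [hx])
      have h2 : Function.update (Function.update Q k x) k ((Function.update Q k x) k + 1) = Q := by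
        simp only [Function.update_self, Function.update_idem]
        rw [show x + 1 = Q k by omega, Function.update_eq_self]
      rw [h2] at h1
      rw [stepTr_down e k Q x (by omega), ← h1]
      group
    · rw [stepTr_same e k Q x (by omega), show Function.update Q k x = Q by
        rw [hx, ← hk, Function.update_eq_self], inv_mul_cancel]

theorem transport_pot {e : Fin 4 → (Fin 4 → ℤ) → G} {D : Fin 4 → Prop} {b : Fin 4 → ℤ}
    (hF : FlatC e D b) {c c' : Fin 4 → ℤ} (hc : Cube D b c) (hc' : Cube D b c') :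
    transport e c c' = (pot e b c)⁻¹ * pot e b c' := by
  have q1 := hc.update 0 _ (hc' 0)
  have q2 := q1.update 1 _ (hc' 1)
  have q3 := q2.update 2 _ (hc' 2)
  have h4 : Function.update (Function.update (Function.update (Function.update c 0 (c' 0)) 1 (c' 1))
      2 (c' 2)) 3 (c' 3) = c' := by
    funext k
    fin_cases k <;> simp [Function.update]
  unfold transport
  rw [step_pot hF hc 0 _ (hc' 0), step_pot hF q1 1 _ (hc' 1), step_pot hF q2 2 _ (hc' 2),
    step_pot hF q3 3 _ (hc' 3), h4]
  group

theorem cube_adj {D : Fin 4 → Prop} {b c c' : Fin 4 → ℤ} (hc : Cube D b c) (hc' : Cube D b c') :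
    Adj c c' := by
  intro k
  rw [abs_le]
  rcases hc k with h | ⟨_, h⟩ <;> rcases hc' k with h' | ⟨_, h'⟩ <;> constructor <;> omega

/-- near a real number `t`, the floor is `⌊t⌋`, or `⌊t⌋ - 1` if `t` is an integer -/
theorem floor_near (t : ℝ) : ∀ᶠ x in 𝓝 t,
    (⌊x⌋ = if (⌊t⌋ : ℝ) = t then ⌊t⌋ - 1 else ⌊t⌋) ∨
      ((⌊t⌋ : ℝ) = t ∧ ⌊x⌋ = (if (⌊t⌋ : ℝ) = t then ⌊t⌋ - 1 else ⌊t⌋) + 1) := by
  by_cases h : (⌊t⌋ : ℝ) = t
  · have h1 : Ioo (t - 1) (t + 1) ∈ 𝓝 t := Ioo_mem_nhds (by linarith) (by linarith)
    filter_upwards [h1] with x hx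
    rw [if_pos h]
    rcases lt_or_ge x t with hxt | hxt
    · left
      rw [Int.floor_eq_iff]
      push_cast
      rw [h]
      exact ⟨hx.1.le, by linarith⟩
    · right
      refine ⟨h, ?_⟩
      rw [Int.floor_eq_iff]
      push_cast
      rw [h]
      exact ⟨by linarith, by linarith [hx.2]⟩
  · have h1 : Ioo (⌊t⌋ : ℝ) (⌊t⌋ + 1) ∈ 𝓝 t :=
      Ioo_mem_nhds (lt_of_le_of_ne (Int.floor_le t) h) (Int.lt_floor_add_one t)
    filter_upwards [h1] with x hx
    rw [if_neg h]
    left
    rw [Int.floor_eq_iff]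
    exact ⟨hx.1.le, hx.2⟩

end BE14

open BE14 in
theorem locMul_transport {G : Type} [Group G] (e : Fin 4 → (Fin 4 → ℤ) → G) (y : Fin 4 → ℝ)
    (h : ∀ c i j, i ≠ j → y ∈ dualSq c i j → FlatAt e c i j) :
    LocMul (fun a b : Fin 4 → ℝ => transportA e (cellOf a) (cellOf b)) y := by
  classical
  set D : Fin 4 → Prop := fun k => (⌊y k⌋ : ℝ) = y k with hD
  set b : Fin 4 → ℤ := fun k => if (⌊y k⌋ : ℝ) = y k then ⌊y k⌋ - 1 else ⌊y k⌋ with hb
  have hF : FlatC e D b := by
    intro c i j hij hi hj hc hci hcj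
    refine h c i j hij ⟨?_, ?_, ?_⟩
    · have h1 : b i = ⌊y i⌋ - 1 := if_pos hi
      rw [hci, h1]
      push_cast
      have hi' : (⌊y i⌋ : ℝ) = y i := hi
      rw [hi']; ring
    · have h1 : b j = ⌊y j⌋ - 1 := if_pos hj
      rw [hcj, h1]
      push_cast
      have hj' : (⌊y j⌋ : ℝ) = y j := hj
      rw [hj']; ring
    · intro k _ _
      have f1 := Int.floor_le (y k)
      have f2 := (Int.lt_floor_add_one (y k)).le
      rcases hc k with hk | ⟨hDk, hk⟩
      · by_cases hDk : (⌊y k⌋ : ℝ) = y k
        · have h1 : b k = ⌊y k⌋ - 1 := if_pos hDk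
          rw [hk, h1]
          push_cast
          constructor <;> linarith
        · have h1 : b k = ⌊y k⌋ := if_neg hDk
          rw [hk, h1]
          exact ⟨f1, f2⟩
      · have h1 : b k = ⌊y k⌋ - 1 := if_pos hDk
        have hDk' : (⌊y k⌋ : ℝ) = y k := hDk
        rw [hk, h1]
        push_cast
        constructor <;> linarith
  have hN : ∀ᶠ a in 𝓝 y, Cube D b (cellOf a) := by
    have h1 : ∀ k : Fin 4, ∀ᶠ a : Fin 4 → ℝ in 𝓝 y,
        cellOf a k = b k ∨ (D k ∧ cellOf a k = b k + 1) := by
      intro k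
      exact ((continuous_apply k).tendsto y).eventually (floor_near (y k))
    exact Filter.eventually_all.2 h1
  refine ⟨_, hN, ?_⟩
  intro a₁ h₁ a₂ h₂ a₃ h₃
  have h₁' : Cube D b (cellOf a₁) := h₁
  have h₂' : Cube D b (cellOf a₂) := h₂
  have h₃' : Cube D b (cellOf a₃) := h₃
  show transportA e (cellOf a₁) (cellOf a₂) * transportA e (cellOf a₂) (cellOf a₃) =
    transportA e (cellOf a₁) (cellOf a₃)
  unfold transportA
  rw [if_pos (cube_adj h₁' h₂'), if_pos (cube_adj h₂' h₃'), if_pos (cube_adj h₁' h₃'),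
    transport_pot hF h₁' h₂', transport_pot hF h₂' h₃', transport_pot hF h₁' h₃']
  group

end Pool.Agent.PolyKnots
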