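import Pool.Agent.W_MP_be6f00_gt.Model

set_option autoImplicit false

/-! Finite checks of the wall tables `tr2` and `tr3`. -/

namespace Pool.Agent.PolyKnots

namespace BE15

/-! ### Codes for the permutations -/

/-- Permutation with a given code. -/
def dec (n : ℕ) : Equiv.Perm (Fin 3) :=
  if n = 0 then 1 else if n = 1 then X1 else if n = 2 then X2 else if n = 3 then X3
  else if n = 4 then X1 * X2 else X2 * X1

/-- Multiplication table. -/
def mulc (a b : ℕ) : ℕ :=
  ([[0, 1, 2, 3, 4, 5], [1, 0, 4, 5, 2, 3], [2, 5, 0, 4, 3, 1], [3, 4, 5, 0, 1, 2],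
    [4, 3, 1, 2, 5, 0], [5, 2, 3, 1, 0, 4]].getD a []).getD b 0

theorem dec_mulc_check : ∀ a < 6, ∀ b < 6, dec (mulc a b) = dec a * dec b ∧ mulc a b < 6 := by
  decide +kernel

/-- code of the wall table -/
def wallc (i : ℕ) (p q r t : ℤ) : ℕ :=
  if i = 2 then
    if (t == -2 || t == -1) && inA p q && r == 0 then 1
    else if (t == -2 || t == -1) && inA p q && r == 1 then 2
    else if q == 1 && t == -1 then
      if r == -1 && (p == 1 || p == 2) then 1
      else if r == -1 && (p == 4 || p == 5) then 3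
      else if r == 2 && p == 3 then 2
      else if r == 3 && 1 ≤ p && p ≤ 5 then 3
      else 0
    else 0
  else if i = 0 then
    if q == 1 && t == -1 then
      if p == 0 && (r == 2 || r == 3) then 3
      else if p == 0 && (r == 0 || r == 1) then 1
      else if p == 2 && r == 0 then 1
      else if p == 2 && r == 2 then 2
      else if p == 3 && (r == 1 || r == 2) then 2
      else if p == 3 && r == 0 then 3
      else if p == 5 && 0 ≤ r && r ≤ 3 then 3
      else 0
    else 0
  else 0

/-- code of the gauge -/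
def gaugec (p q r t : ℤ) : ℕ := if r == 1 && inA p q && (t == -2 || t == -1) then 1 else 0

theorem wallc_spec (i : ℕ) (p q r t : ℤ) : wall0 i p q r t = dec (wallc i p q r t) := by
  unfold wall0 wallc
  split_ifs <;> rfl

theorem gaugec_spec (p q r t : ℤ) : gauge p q r t = dec (gaugec p q r t) := by
  unfold gauge gaugec
  split_ifs <;> rfl

theorem wallc_lt (i : ℕ) (p q r t : ℤ) : wallc i p q r t < 6 := by
  unfold wallc
  split_ifs <;> norm_num

theorem gaugec_lt (p q r t : ℤ) : gaugec p q r t < 2 := by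
  unfold gaugec
  split_ifs <;> norm_num

/-- unit step -/
def bp (i k : ℕ) : ℤ := if i = k then 1 else 0

/-- code of `tr3` -/
def tr3c (i : ℕ) (p q r t : ℤ) : ℕ :=
  mulc (mulc (gaugec p q r (min t (-1))) (wallc i p q r (min t (-1))))
    (gaugec (p + bp i 0) (q + bp i 1) (r + bp i 2) (min (t + bp i 3) (-1)))

/-- flatness of `tr3` -/
def flat3c (i j : ℕ) (p q r t : ℤ) : Bool :=
  mulc (tr3c i p q r t) (tr3c j (p + bp i 0) (q + bp i 1) (r + bp i 2) (t + bp i 3)) ==
  mulc (tr3c j p q r t) (tr3c i (p + bp j 0) (q + bp j 1) (r + bp j 2) (t + bp j 3))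

/-- flatness of `tr2` -/
def flat2c (i j : ℕ) (p q r t : ℤ) : Bool :=
  (inW i p q r t != inW j (p + bp i 0) (q + bp i 1) (r + bp i 2) (t + bp i 3)) ==
  (inW j p q r t != inW i (p + bp j 0) (q + bp j 1) (r + bp j 2) (t + bp j 3))

/-- complementary directions -/
def cmpl (i j : ℕ) : ℕ × ℕ :=
  if i = 0 then (if j = 1 then (2, 3) else if j = 2 then (1, 3) else (1, 2))
  else if i = 1 then (if j = 2 then (0, 3) else (0, 2)) else (0, 1)

/-- is the dual square in the list? -/
def memSq (i j : ℕ) (p q r t : ℤ) : Bool :=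
  (sqs0 ++ sqs1).any fun s =>
    s.1 == [p + bp i 0 + bp j 0, q + bp i 1 + bp j 1, r + bp i 2 + bp j 2, t + bp i 3 + bp j 3] &&
    s.2.1 == (cmpl i j).1 && s.2.2 == (cmpl i j).2

/-- All pairs of directions. -/
def prs : List (ℕ × ℕ) := [(0, 1), (0, 2), (0, 3), (1, 2), (1, 3), (2, 3)]

/-- all cells of a box -/
def allbox (n : ℕ) (f : ℤ → ℤ → ℤ → ℤ → Bool) : Bool :=
  (List.range 8).all fun a => (List.range 6).all fun b => (List.range 6).all fun c =>
    (List.range n).all fun d => f ((a : ℤ) - 2) ((b : ℤ) - 2) ((c : ℤ) - 2) ((d : ℤ) - 4)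

/-- check -/
def check2 : Bool := allbox 6 fun p q r t => prs.all fun x =>
  flat2c x.1 x.2 p q r t || memSq x.1 x.2 p q r t

/-- check -/
def check3 : Bool := allbox 5 fun p q r t => prs.all fun x =>
  (x.2 == 3 && t == 0) || flat3c x.1 x.2 p q r t || memSq x.1 x.2 p q r t

/-- sign of a code -/
def sgc (n : ℕ) : Bool := n == 1 || n == 2 || n == 3

/-- check -/
def checkS : Bool := allbox 5 fun p q r t => (List.range 4).all fun i =>
  (i == 3 && t == 0) || sgc (tr3c i p q r t) == inW i p q r t

theorem check2_true : check2 = true := by decide +kernel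

theorem check3_true : check3 = true := by decide +kernel

theorem checkS_true : checkS = true := by decide +kernel

end BE15

end Pool.Agent.PolyKnots
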